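import Pool.Agent.Work.MP_e120ef_ag.Br.T7
import Pool.Agent.Work.MP_e120ef_ag.Defs
import Pool.Agent.Work.MP_e120ef_ag.Inv
import Pool.Agent.Work.MP_e120ef_ag.H.Gauss

attribute [-instance] Subalgebra.normedCommRing Subalgebra.seminormedCommRing
  Subalgebra.seminormedRing Subalgebra.normedRing
  Localization.subalgebra.instIsFractionRingSubtypeMemSubalgebra
attribute [local instance 2000] RingHomClass.toAddMonoidHomClass AddMonoidHomClass.toAddHomClass
  RingHom.instRingHomClass AlgHomClass.toRingHomClass IsDomain.to_noZeroDivisors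
  IsDomain.toNontrivial NeZero.one RingHomClass.toMonoidHomClass MonoidHomClass.toMulHomClass
  RingHomClass.toMonoidWithZeroHomClass AddMonoidHomClass.toZeroHomClass MonoidHomClass.toOneHomClass
attribute [-instance] instCharZeroOfIsSemireal AlgHom.instContinuousLinearMapClassOfAlgHomClass
  RingHomClass.toLinearMapClassRat RingHomClass.toLinearMapClassNNRat NumberField.to_charZero

-- merged part: Pool.Agent.Work.MP_e120ef_ag.C.Ult
section
/-!
# A spherically complete extension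

Plans.  `Ult_quot`: `I = {a | ν a = 0}` is a maximal ideal (`Ideal.Quotient.field`, `Ideal.isMaximal_iff`, or `IsField`); `ν` descends to `A ⧸ I` (`ν (a + i) = ν a`) as an `AbsoluteValue` (`AbsoluteValue.toNormedField`, `IsUltrametricDist.isUltrametricDist_of_forall_norm_add_le_max_norm`).
`Sph.complete`: `Metric.complete_of_convergent_controlled_sequences` with `B n = (1 / 2) ^ n`: the balls `closedBall (u n) (B n)` are nested by the ultrametric inequality.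
`exists_sph`: `A` is the subalgebra of bounded sequences in `ℕ → K`, `ν x` the limit of `‖x n‖` along `Filter.hyperfilter ℕ` (`IsCompact.ultrafilter_le_nhds`, or `Ultrafilter.lim`/`limUnder`; keep only `hν : Tendsto (fun n => ‖x n‖) 𝒰 (𝓝 (ν x))` and `tendsto_nhds_unique`).  If `ν x ≠ 0` take `y n = (x n)⁻¹` where `ν x / 2 ≤ ‖x n‖`, else `0`.
Algebraically closed (`IsAlgClosed.of_exists_root`): lift the coefficients of a monic polynomial of degree `d > 0` to bounded sequences `a i`, choose for each `n` a root `y n` of `X ^ d + ∑ i < d, C (a i n) X ^ i`; `‖y n‖ ≤ max 1 (bound)`.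
Spherically complete: lift the centres to sequences `c i`; for `i ≤ i'` one has `ν (c i - c i') ≤ r i`.  The sets `S j = {n | j ≤ n ∧ ∀ i ≤ i' ≤ j, ‖c i n - c i' n‖ ≤ r i + 1 / (j + 1)}` are in the ultrafilter; put `φ n = Nat.findGreatest (fun j => n ∈ S j) n` and `x n = c (φ n) n` if `n ∈ S (φ n)`, else `0`.  For `n ∈ S j`, `i ≤ j`: `j ≤ φ n` and `‖c i n - x n‖ ≤ r i + 1 / (j + 1)`; `x` is bounded (compare with `c 0`).
-/

open Filter Topology

namespace Pool.Agent.Work.MP_e120ef_ag.H.CS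

theorem Ult_abs {A F : Type} [CommRing A] [Field F] (ν : A → ℝ) (h0 : ∀ a, 0 ≤ ν a)
    (hm : ∀ a b, ν (a * b) = ν a * ν b) (ha : ∀ a b, ν (a + b) ≤ max (ν a) (ν b))
    (π : A →+* F) (hs : Function.Surjective π) (hk : ∀ a, π a = 0 ↔ ν a = 0) :
    ∃ (Kh : Type) (_ : NormedField Kh) (_ : IsUltrametricDist Kh) (π : A →+* Kh),
      Function.Surjective π ∧ ∀ a, ‖π a‖ = ν a := by
  have hle : ∀ a b, π a = π b → ν a ≤ ν b := fun a b h => by
    have h1 := ha b (a - b)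
    rwa [add_sub_cancel, (hk (a - b)).1 (by rw [map_sub, h, sub_self]), max_eq_left (h0 b)] at h1
  choose σ hσ using hs
  have hw : ∀ a, ν (σ (π a)) = ν a := fun a => le_antisymm (hle _ _ (hσ _)) (hle _ _ (hσ _).symm)
  have hadd : ∀ x y, ν (σ (x + y)) ≤ max (ν (σ x)) (ν (σ y)) := fun x y => by
    have h1 := ha (σ x) (σ y)
    rwa [← hw, map_add, hσ, hσ] at h1
  let v : AbsoluteValue F ℝ :=
    { toFun := fun x => ν (σ x)
      map_mul' := fun x y => by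
        have h1 := hm (σ x) (σ y)
        rwa [← hw, map_mul, hσ, hσ] at h1
      nonneg' := fun x => h0 _
      eq_zero' := fun x => by
        show ν (σ x) = 0 ↔ x = 0
        rw [← hk, hσ]
      add_le' := fun x y => (hadd x y).trans (max_le_add_of_nonneg (h0 _) (h0 _)) }
  let : NormedField F := v.toNormedField
  exact ⟨F, inferInstance,
    IsUltrametricDist.isUltrametricDist_of_forall_norm_add_le_max_norm hadd, π,
    fun x => ⟨σ x, hσ x⟩, hw⟩

theorem Ult_quot {A : Type} [CommRing A] (ν : A → ℝ) (h0 : ∀ a, 0 ≤ ν a) (h1 : ν 1 = 1)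
    (hz : ν 0 = 0) (hm : ∀ a b, ν (a * b) = ν a * ν b) (ha : ∀ a b, ν (a + b) ≤ max (ν a) (ν b))
    (hi : ∀ a, ν a ≠ 0 → ∃ b, ν (a * b - 1) = 0) :
    ∃ (Kh : Type) (_ : NormedField Kh) (_ : IsUltrametricDist Kh) (π : A →+* Kh),
      Function.Surjective π ∧ ∀ a, ‖π a‖ = ν a := by
  let I : Ideal A :=
    { carrier := {a | ν a = 0}
      add_mem' := fun {a b} (h : ν a = 0) (h' : ν b = 0) =>
        le_antisymm ((ha a b).trans (by rw [h, h', max_self])) (h0 _)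
      zero_mem' := hz
      smul_mem' := fun c a (h : ν a = 0) => by
        show ν (c * a) = 0
        rw [hm, h, mul_zero] }
  have hI : I.IsMaximal := by
    refine Ideal.isMaximal_iff.2 ⟨fun h => one_ne_zero (h1.symm.trans h), fun J x hJ hx hxJ => ?_⟩
    obtain ⟨b, hb⟩ := hi x hx
    have h2 := J.sub_mem (J.mul_mem_right b hxJ) (hJ hb)
    rwa [sub_sub_cancel] at h2
  let : Field (A ⧸ I) := Ideal.Quotient.field I
  exact Ult_abs ν h0 hm ha (Ideal.Quotient.mk I) Ideal.Quotient.mk_surjective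
    fun a => Ideal.Quotient.eq_zero_iff_mem

theorem Sph.complete {Kh : Type} [NormedField Kh] [IsUltrametricDist Kh] (h : Sph Kh) :
    CompleteSpace Kh := by
  refine Metric.complete_of_convergent_controlled_sequences (fun n => (1 / 2) ^ n) (by simp)
    fun u hu => ?_
  obtain ⟨x, hx⟩ := h u (fun n => (1 / 2) ^ n) (fun n => by positivity) fun n m hnm y hy =>
    (IsUltrametricDist.dist_triangle_max y (u m) (u n)).trans (max_le
      (le_trans hy (pow_le_pow_of_le_one (by norm_num) (by norm_num) hnm))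
      (hu n m n hnm le_rfl).le)
  refine ⟨x, tendsto_iff_dist_tendsto_zero.2 (squeeze_zero (fun _ => dist_nonneg) (fun n => ?_)
    (tendsto_pow_atTop_nhds_zero_of_lt_one (r := (1 / 2 : ℝ)) (by norm_num) (by norm_num)))⟩
  rw [dist_comm]
  exact hx n

theorem Ult_root {K : Type} [NormedField K] {p : Polynomial K} (hm : p.Monic) {C : ℝ} (hC : 0 ≤ C)
    (h : ∀ i < p.natDegree, ‖p.coeff i‖ ≤ C) {y : K} (hy : p.IsRoot y) : ‖y‖ ≤ C + 1 := by
  have h1 := hy.norm_lt_cauchyBound hm.ne_zero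
  rw [Polynomial.cauchyBound, hm.leadingCoeff, nnnorm_one, div_one] at h1
  have h2 : (Finset.range p.natDegree).sup (fun i => ‖p.coeff i‖₊) ≤ ⟨C, hC⟩ :=
    Finset.sup_le fun i hi => h i (Finset.mem_range.1 hi)
  exact NNReal.coe_le_coe.2 (h1.le.trans (add_le_add h2 le_rfl))

/-- bounded sequences -/
def Ult_A (K : Type) [NormedField K] : Subring (ℕ → K) where
  carrier := {x | ∃ C : ℝ, ∀ n, ‖x n‖ ≤ C}
  mul_mem' := by
    rintro x y ⟨C, hC⟩ ⟨D, hD⟩
    exact ⟨C * D, fun n => (norm_mul_le _ _).trans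
      (mul_le_mul (hC n) (hD n) (norm_nonneg _) ((norm_nonneg _).trans (hC n)))⟩
  one_mem' := ⟨1, fun _ => norm_one.le⟩
  add_mem' := by
    rintro x y ⟨C, hC⟩ ⟨D, hD⟩
    exact ⟨C + D, fun n => (norm_add_le _ _).trans (add_le_add (hC n) (hD n))⟩
  zero_mem' := ⟨0, fun _ => norm_zero.le⟩
  neg_mem' := by
    rintro x ⟨C, hC⟩
    exact ⟨C, fun n => (norm_neg _).trans_le (hC n)⟩

section

variable {K : Type} [NormedField K]

theorem Ult_lim (x : Ult_A K) :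
    ∃ l, Tendsto (fun n => ‖x.1 n‖) (hyperfilter ℕ : Filter ℕ) (𝓝 l) := by
  obtain ⟨C, hC⟩ := x.2
  obtain ⟨l, -, hl⟩ := (isCompact_Icc (a := (0 : ℝ)) (b := C)).ultrafilter_le_nhds'
    ((hyperfilter ℕ).map fun n => ‖x.1 n‖)
    (Ultrafilter.mem_map.2 (Filter.univ_mem' fun n => ⟨norm_nonneg _, hC n⟩))
  exact ⟨l, hl⟩

variable {ν : Ult_A K → ℝ}
  (hν : ∀ x, Tendsto (fun n => ‖x.1 n‖) (hyperfilter ℕ : Filter ℕ) (𝓝 (ν x)))

include hν

theorem Ult_inv (a : Ult_A K) (h : ν a ≠ 0) : ∃ b, ν (a * b - 1) = 0 := by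
  have hp : 0 < ν a / 2 :=
    half_pos (lt_of_le_of_ne (ge_of_tendsto' (hν a) fun n => norm_nonneg _) h.symm)
  refine ⟨⟨fun n => if ν a / 2 ≤ ‖a.1 n‖ then (a.1 n)⁻¹ else 0, (ν a / 2)⁻¹, fun n => ?_⟩,
    tendsto_nhds_unique (hν _) (tendsto_const_nhds.congr' ?_)⟩
  · dsimp only
    split_ifs with h1
    · rw [norm_inv]
      exact inv_anti₀ hp h1
    · rw [norm_zero]
      positivity
  · filter_upwards [(hν a).eventually (le_mem_nhds (by linarith : ν a / 2 < ν a))] with n hn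
    have h1 : a.1 n ≠ 0 := norm_pos_iff.1 (hp.trans_le hn)
    show (0 : ℝ) = ‖a.1 n * (if ν a / 2 ≤ ‖a.1 n‖ then (a.1 n)⁻¹ else 0) - 1‖
    rw [if_pos hn, mul_inv_cancel₀ h1, sub_self, norm_zero]

theorem Ult_sph (a : ℕ → Ult_A K) (r : ℕ → ℝ) (hr : ∀ i, 0 ≤ r i)
    (h : ∀ i i', i ≤ i' → ν (a i' - a i) ≤ r i) : ∃ x : Ult_A K, ∀ i, ν (x - a i) ≤ r i := by
  classical
  obtain ⟨S, hS⟩ : ∃ S : ℕ → ℕ → Prop, ∀ n j, S n j ↔ j ≤ n ∧ ∀ i' ≤ j, ∀ i ≤ i',
      ‖(a i').1 n - (a i).1 n‖ ≤ r i + 1 / ((j : ℝ) + 1) := ⟨_, fun _ _ => Iff.rfl⟩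
  have h1 : ∀ j, ∀ᶠ n in (hyperfilter ℕ : Filter ℕ), S n j := fun j => by
    simp only [hS]
    refine ((eventually_ge_atTop j).filter_mono Nat.hyperfilter_le_atTop).and ?_
    refine (eventually_all_finite (Set.finite_le_nat j)).2 fun i' _ =>
      (eventually_all_finite (Set.finite_le_nat i')).2 fun i hi => ?_
    have h2 : (0 : ℝ) < 1 / ((j : ℝ) + 1) := by positivity
    exact (hν (a i' - a i)).eventually (ge_mem_nhds (by linarith [h i i' hi]))
  have h2 : ∀ n, S n (Nat.findGreatest (S n) n) := fun n => by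
    refine Nat.findGreatest_spec (Nat.zero_le n) ((hS n 0).2 ⟨Nat.zero_le n, fun i' hi' i hi => ?_⟩)
    obtain rfl : i' = 0 := by omega
    obtain rfl : i = 0 := by omega
    rw [sub_self, norm_zero]
    have := hr 0
    positivity
  have h3 : ∀ n j i, i ≤ j → j ≤ Nat.findGreatest (S n) n →
      ‖(a (Nat.findGreatest (S n) n)).1 n - (a i).1 n‖ ≤ r i + 1 / ((j : ℝ) + 1) := by
    intro n j i hi hj
    refine (((hS n _).1 (h2 n)).2 _ le_rfl i (hi.trans hj)).trans (add_le_add le_rfl ?_)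
    exact Nat.one_div_le_one_div hj
  obtain ⟨C, hC⟩ := (a 0).2
  refine ⟨⟨fun n => (a (Nat.findGreatest (S n) n)).1 n, r 0 + 1 / (((0 : ℕ) : ℝ) + 1) + C,
    fun n => ?_⟩, fun i => ?_⟩
  · exact (norm_le_norm_sub_add _ ((a 0).1 n)).trans
      (add_le_add (h3 n 0 0 le_rfl (Nat.zero_le _)) (hC n))
  · have h4 := (tendsto_const_nhds (x := r i)).add (tendsto_one_div_add_atTop_nhds_zero_nat (𝕜 := ℝ))
    rw [add_zero] at h4
    refine ge_of_tendsto h4 ((eventually_ge_atTop i).mono fun j hj => le_of_tendsto (hν _) ?_)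
    filter_upwards [h1 j] with n hn
    exact h3 n j i hj (Nat.le_findGreatest ((hS n j).1 hn).1 hn)

omit hν in
theorem Ult_poly [IsAlgClosed K] {q : Polynomial (Ult_A K)} (hm : q.Monic) (hd : 0 < q.natDegree) :
    ∃ y, q.eval y = 0 := by
  obtain ⟨e, he⟩ : ∃ e : ℕ → (Ult_A K →+* K), ∀ n x, e n x = x.1 n :=
    ⟨fun n => (Pi.evalRingHom (fun _ => K) n).comp (Ult_A K).subtype, fun _ _ => rfl⟩
  have h1 : ∀ n, ∃ y, (q.map (e n)).IsRoot y := fun n => IsAlgClosed.exists_root _ (by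
    rw [hm.degree_map]
    exact (Polynomial.natDegree_pos_iff_degree_pos.1 hd).ne')
  choose y hy using h1
  choose C hC using fun i => (q.coeff i).2
  have hC0 : ∀ i, 0 ≤ C i := fun i => (norm_nonneg _).trans (hC i 0)
  refine ⟨⟨y, ∑ i ∈ Finset.range q.natDegree, C i + 1, fun n => Ult_root (hm.map (e n))
    (Finset.sum_nonneg fun i _ => hC0 i) (fun i hi => ?_) (hy n)⟩, Subtype.ext (funext fun n => ?_)⟩
  · rw [hm.natDegree_map] at hi
    rw [Polynomial.coeff_map, he]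
    exact (hC i n).trans (Finset.single_le_sum (fun j _ => hC0 j) (Finset.mem_range.2 hi))
  · rw [← he, ← Polynomial.eval₂_at_apply, ← Polynomial.eval_map, he]
    exact hy n

end

theorem exists_sph (K : Type) [NontriviallyNormedField K] [IsUltrametricDist K] [IsAlgClosed K] :
    ∃ (Kh : Type) (_ : NontriviallyNormedField Kh) (_ : IsUltrametricDist Kh) (_ : CompleteSpace Kh)
      (_ : IsAlgClosed Kh) (_ : NormedAlgebra K Kh), Sph Kh := by
  choose ν hν using Ult_lim (K := K)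
  obtain ⟨ι, hι⟩ : ∃ ι : K →+* Ult_A K, ∀ c n, (ι c).1 n = c :=
    ⟨(Pi.constRingHom ℕ K).codRestrict (Ult_A K) fun c => ⟨‖c‖, fun _ => le_rfl⟩, fun _ _ => rfl⟩
  have hc : ∀ c, ν (ι c) = ‖c‖ := fun c =>
    tendsto_nhds_unique (hν _) (by simp only [hι]; exact tendsto_const_nhds)
  obtain ⟨Kh, i1, i2, π, hs, hπ⟩ := Ult_quot ν
    (fun a => ge_of_tendsto' (hν a) fun n => norm_nonneg _)
    (by rw [← map_one ι, hc, norm_one]) (by rw [← map_zero ι, hc, norm_zero])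
    (fun a b => tendsto_nhds_unique (hν _)
      (((hν a).mul (hν b)).congr fun n => (norm_mul _ _).symm))
    (fun a b => le_of_tendsto_of_tendsto' (hν _) ((hν a).max (hν b))
      fun n => IsUltrametricDist.norm_add_le_max _ _) (Ult_inv hν)
  have hS : Sph Kh := by
    intro c r hr hc
    choose a ha using fun i => hs (c i)
    obtain ⟨x, hx⟩ := Ult_sph hν a r hr fun i i' h => by
      rw [← hπ, map_sub, ha, ha, ← dist_eq_norm]
      exact hc h (Metric.mem_closedBall_self (hr i'))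
    refine ⟨π x, fun n => ?_⟩
    rw [Metric.mem_closedBall, dist_eq_norm, ← ha, ← map_sub, hπ]
    exact hx n
  have hA : IsAlgClosed Kh := by
    refine IsAlgClosed.of_exists_root Kh fun p hm hp => ?_
    obtain ⟨q, rfl, h1, h2⟩ := Polynomial.lifts_and_natDegree_eq_and_monic
      ((Polynomial.mem_lifts p).2 (Polynomial.map_surjective π hs p)) hm
    obtain ⟨y, hy⟩ := Ult_poly h2 (h1 ▸ hp.natDegree_pos)
    exact ⟨π y, by rw [Polynomial.eval_map, Polynomial.eval₂_at_apply, hy, map_zero]⟩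
  obtain ⟨x, hx⟩ := NontriviallyNormedField.non_trivial (α := K)
  let : Algebra K Kh := (π.comp ι).toAlgebra
  exact ⟨Kh, { i1 with non_trivial := ⟨π (ι x), by rwa [hπ, hc]⟩ }, i2, hS.complete, hA,
    { norm_smul_le := fun r y => by
        rw [Algebra.smul_def, norm_mul]
        exact mul_le_mul_of_nonneg_right ((hπ _).trans (hc r)).le (norm_nonneg _) }, hS⟩

end Pool.Agent.Work.MP_e120ef_ag.H.CS
end

-- merged part: Pool.Agent.Work.MP_e120ef_ag.Br.C1
section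
-- merged part: Pool.Agent.Work.MP_e120ef_ag.H.Stmt2
section
/-! Definitions used in the statement: values of rational functions, entire functions,
meromorphic maps. -/

open AlgebraicGeometry

namespace Pool.Agent.Work.MP_e120ef_ag.H

/-- the rational function `y` is regular at `x` and has the value `c` there -/
def HasVal {K : Type} [Field K] {X : Sch K} [IsIntegral X.left] (x : X.left) (y : Fn X) (c : K) :
    Prop :=
  ∃ s ∈ IsLocalRing.maximalIdeal (X.left.presheaf.stalk x), toK X x s = y - algebraMap K (Fn X) c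

variable {K : Type} [NontriviallyNormedField K]

/-- a function on `K ^ r` given by an everywhere convergent power series -/
def Entire {r : ℕ} (a : (Fin r → K) → K) : Prop :=
  ∃ c : (Fin r →₀ ℕ) → K, ∀ z, HasSum (fun I => c I * ∏ i, z i ^ I i) (a z)

variable {G X : Sch K} [IsIntegral G.left] [IsIntegral X.left]

/-- `p` is a closed point of `U` at which the functions `s i` have the values `c i` -/
def At (U : G.left.Opens) {r : ℕ} (s : Fin r → Fn G) (p : G.left) (c : Fin r → K) : Prop :=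
  p ∈ U ∧ IsClosed {p} ∧ ∀ i, HasVal p (s i) (c i)

/-- On every nonempty affine open `U`, the pull-back by `f` of every rational function `y` is a
quotient of two analytic functions on `U`, that is, entire functions of regular functions. -/
def Mero (f : G.left → X.left) : Prop :=
  ∀ U : G.left.Opens, IsAffineOpen U → (∃ x, x ∈ U) → ∀ y : Fn X,
    ∃ (r : ℕ) (s : Fin r → Fn G) (a b : (Fin r → K) → K), (∀ i, ∀ x ∈ U, s i ∈ O G x) ∧
      Entire a ∧ Entire b ∧ (∃ p c, At U s p c ∧ b c ≠ 0) ∧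
      ∀ p c, At U s p c → b c ≠ 0 → HasVal (f p) y (a c / b c)

end Pool.Agent.Work.MP_e120ef_ag.H
end

-- merged part: Pool.Agent.Work.MP_e120ef_ag.H.GG
section
/-!
# Points and invariant vector fields on a group scheme of finite type

Plans.  `hasVal_iff`: `toK_mem_mp`, `mem_mp`, `mem_O`.  `lft_finiteType`: copy the proof of `aff_finiteType`.  `lft_point`: `aff_point` for the kernel of `e` (a maximal ideal), then copy `closed_of_pr_maximal` (a point closed in an open subset of a Jacobson space is closed; `LocallyOfFiniteType.jacobsonSpace`); `b - C (e b)` is in the kernel, `mem_pr`.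
`lft_hom`: `lft_pt`, `exists_value`, and the values are unique, additive and multiplicative.  `lft_pt`: the proof of `exists_pt`.  `exists_gframe`: the proof of `exists_frame` without the last two fields (`LocallyOfFiniteType.isLocallyNoetherian`).
`hasVal_pb`: `pb_sub`, `pb_algebraMap`, `grp_pb_mem_mp`.  `tr_open`: `V = (inv (tr y)).left ⁻¹ᵁ U` (`IsAffineOpen.preimage` for an isomorphism, `grp_inv_apply`, `pb_mem_B`).
`const_of_bdd`: suppose `r` is not constant, so it is transcendental over `K`.  Take an affine `U` with `r ∈ B G U` (`O_gp`, `Fn_exists_germ`, `exists_aff`).  For `‖c‖ > C` the element `r - c` is a unit of `B G U`: otherwise it lies in a maximal ideal, whose residue field is `K`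
(`finite_of_finite_type_of_isJacobsonRing`, `IsAlgClosed.algebraMap_bijective_of_isIntegral`), and `lft_point` gives a closed point with the value `c`.  The `(r - c)⁻¹` are linearly independent (`Transcendental.linearIndependent_sub_inv`) and there are uncountably many such `c` (`Cardinal.continuum_le_cardinal_of_nontriviallyNormedField`; `K` is covered by the set and its image under `c ↦ λ / c`-type maps, or inject `K` by `c ↦ ..`),
but a finitely generated algebra has countable dimension (`Algebra.FiniteType.iff_quotient_mvPolynomial''`, `MvPolynomial.rank_eq`/`basisMonomials`).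
-/

open CategoryTheory AlgebraicGeometry

namespace Pool.Agent.Work.MP_e120ef_ag.H

section val

variable {K : Type} [Field K] {X : Sch K} [IsIntegral X.left] {x : X.left} {a b : Fn X} {c d : K}

theorem hasVal_iff : HasVal x a c ↔ a - algebraMap K (Fn X) c ∈ mp X x 1 := by
  constructor
  · rintro ⟨s, hs, e⟩
    rw [← e, toK_mem_mp, pow_one]
    exact hs
  · intro h
    obtain ⟨s, e⟩ := mem_O.1 (mem_O_of_mp h)
    refine ⟨s, ?_, e⟩
    rw [← e, toK_mem_mp, pow_one] at h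
    exact h

theorem HasVal.mem (h : HasVal x a c) : a ∈ O X x := by
  simpa using add_mem (mem_O_of_mp (hasVal_iff.1 h)) ((O X x).algebraMap_mem c)

theorem HasVal.unique (h : HasVal x a c) (h' : HasVal x a d) : c = d := by
  have h1 := sub_mem (hasVal_iff.1 h') (hasVal_iff.1 h)
  rw [sub_sub_sub_cancel_left, ← map_sub] at h1
  exact sub_eq_zero.1 (value_unique h1)

theorem HasVal.add (h : HasVal x a c) (h' : HasVal x b d) : HasVal x (a + b) (c + d) := by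
  have h1 := add_mem (hasVal_iff.1 h) (hasVal_iff.1 h')
  rw [hasVal_iff, map_add]
  convert h1 using 1
  ring

theorem HasVal.mul (h : HasVal x a c) (h' : HasVal x b d) : HasVal x (a * b) (c * d) := by
  have h1 := O_mul_mem_mp h.mem (hasVal_iff.1 h')
  have h2 := O_mul_mem_mp ((O X x).algebraMap_mem d) (hasVal_iff.1 h)
  rw [hasVal_iff, map_mul]
  convert add_mem h1 h2 using 1
  ring

theorem hasVal_alg (x : X.left) (c : K) : HasVal x (algebraMap K (Fn X) c) c := by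
  rw [hasVal_iff, sub_self]
  exact zero_mem _

theorem HasVal.isU (h : HasVal x a c) : IsU X x a ↔ c ≠ 0 := by
  constructor
  · rintro hu rfl
    exact hu.2 (by simpa using hasVal_iff.1 h)
  · intro hc
    simpa using (isU_algebraMap (X := X) (x := x) hc).add_mp (hasVal_iff.1 h)

theorem hasVal_pb {Y : Sch K} [IsIntegral Y.left] (φ : Y ⟶ X) [IsIso φ] (y : Y.left) :
    HasVal y (pb φ a) c ↔ HasVal (φ.left y) a c := by
  rw [hasVal_iff, hasVal_iff, ← grp_pb_mem_mp φ y,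
    pb_sub ((grp_dom_iso φ).mem _) ((grp_dom_iso φ).mem _), pb_algebraMap]

variable [LocallyOfFiniteType X.hom] {U : X.left.Opens}

theorem lft_finiteType (hU : IsAffineOpen U) (hg : gp X ∈ U) : Algebra.FiniteType K (B X U) := by
  have h1 := X.hom.finiteType_appLE (isAffineOpen_top _) hU le_top
  have h2 : (Scheme.ΓSpecIso (CommRingCat.of K)).inv.hom.FiniteType :=
    .of_surjective _ (Scheme.ΓSpecIso (CommRingCat.of K)).symm.commRingCatIsoToRingEquiv.surjective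
  have h3 := (RingHom.FiniteType.of_surjective _ (secEquiv hg).surjective).comp (h1.comp h2)
  rw [← RingHom.finiteType_algebraMap]
  convert h3 using 1
  exact RingHom.ext fun c => Subtype.ext (germ_res le_top hg (cst X c)).symm

omit [IsIntegral X.left] in
theorem GG_closed_spec {x : X.left} (hx : x ∈ U) :
    ∃ y ∈ U, x ⤳ y ∧ IsClosed ({y} : Set X.left) := by
  have : JacobsonSpace (Spec (CommRingCat.of K)) := inferInstanceAs (JacobsonSpace (PrimeSpectrum K))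
  have : JacobsonSpace X.left := LocallyOfFiniteType.jacobsonSpace X.hom
  obtain ⟨y, ⟨h1, h2⟩, h3⟩ := nonempty_inter_closedPoints (Z := (U : Set X.left) ∩ closure {x})
    ⟨x, hx, subset_closure rfl⟩ (U.isOpen.isLocallyClosed.inter isClosed_closure.isLocallyClosed)
  exact ⟨y, h1, specializes_iff_mem_closure.2 h2, h3⟩

theorem GG_closed (hU : IsAffineOpen U) (hx : x ∈ U) (hc : (pr hx).IsMaximal) :
    IsClosed ({x} : Set X.left) := by
  obtain ⟨y, hy, h1, h2⟩ := GG_closed_spec hx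
  have e := hc.eq_of_le (pr_prime hy).ne_top ((aff_spec hU hx hy).1 h1)
  obtain rfl : x = y := ((aff_spec hU hy hx).2 e.ge).mem_closed h2 rfl
  exact h2

theorem lft_point (hU : IsAffineOpen U) (hg : gp X ∈ U) (e : B X U →ₐ[K] K) :
    ∃ p ∈ U, IsClosed ({p} : Set X.left) ∧ ∀ b : B X U, HasVal p (b : Fn X) (e b) := by
  have hm : (RingHom.ker e).IsMaximal :=
    RingHom.ker_isMaximal_of_surjective e fun c => ⟨algebraMap K _ c, e.commutes c⟩
  obtain ⟨p, hp, he⟩ := aff_point hU hg (RingHom.ker e)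
  refine ⟨p, hp, GG_closed hU hp (he ▸ hm), fun b => ?_⟩
  have h1 : b - algebraMap K (B X U) (e b) ∈ pr hp := by
    rw [he, RingHom.mem_ker, map_sub, e.commutes]
    exact sub_self _
  exact hasVal_iff.2 ((mem_pr hp _).1 h1)

variable [IsAlgClosed K]

omit [IsIntegral X.left] in
theorem lft_pt (hx : IsClosed ({x} : Set X.left)) : ∃ y : Pt X, pt y = x := by
  exact ⟨Over.homMk (pointOfClosedPoint X.hom x hx) (pointOfClosedPoint_comp X.hom x hx),
    pointOfClosedPoint_apply X.hom x hx _⟩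

theorem lft_hom (hx : x ∈ U) (hc : IsClosed ({x} : Set X.left)) :
    ∃ e : B X U →ₐ[K] K, ∀ b : B X U, HasVal x (b : Fn X) (e b) := by
  obtain ⟨y, rfl⟩ := lft_pt hc
  choose v hv using fun b : B X U => exists_value y (B_le_O hx b.2)
  have hv' : ∀ b : B X U, HasVal (pt y) (b : Fn X) (v b) := fun b => hasVal_iff.2 (hv b)
  have hal : ∀ c : K, v (algebraMap K (B X U) c) = c := fun c =>
    (hv' _).unique (hasVal_alg _ c)
  refine ⟨{ toFun := v
            map_one' := by simpa using hal 1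
            map_mul' := fun a b => (hv' _).unique ((hv' a).mul (hv' b))
            map_zero' := by simpa using hal 0
            map_add' := fun a b => (hv' _).unique ((hv' a).add (hv' b))
            commutes' := hal }, hv'⟩

end val

section grp

variable {K : Type} [Field K] {G : Sch K} [GrpObj G] [IsIntegral G.left]

/-- invariant vector fields spanning the tangent space -/
structure IsGFrame {g : ℕ} (ξ : Fin g → Dr G) : Prop where
  mem : ∀ i x, RegAt (ξ i) x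
  tr : ∀ i y a, ξ i (pb (tr y) a) = pb (tr y) (ξ i a)
  span : ∀ (M : Type) [Field M] [Algebra K M] (j : Fn G →ₐ[K] M) (d : Fn G →ₗ[K] M),
    (∀ a b, d (a * b) = j a * d b + j b * d a) → ∃ c : Fin g → M, ∀ a, d a = ∑ i, c i * j (ξ i a)

theorem IsGFrame.span' {g : ℕ} {ξ : Fin g → Dr G} (h : IsGFrame ξ) (D : Dr G) :
    ∃ c : Fin g → Fn G, ∀ a, D a = ∑ k, c k * ξ k a :=
  h.span (Fn G) (AlgHom.id K _) D fun a b => D.leibniz a b

theorem IsGFrame.memB {g : ℕ} {ξ : Fin g → Dr G} (h : IsGFrame ξ) (U : G.left.Opens) (k : Fin g)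
    (b : Fn G) (hb : b ∈ B G U) : ξ k b ∈ B G U :=
  mem_B.2 fun x hx => h.mem k x b (mem_B.1 hb x hx)

theorem tr_open (y : Pt G) {U : G.left.Opens} (hU : IsAffineOpen U) :
    ∃ V : G.left.Opens, IsAffineOpen V ∧ (∀ x ∈ U, (tr y).left x ∈ V) ∧
      ∀ b ∈ B G V, pb (tr y) b ∈ B G U := by
  have : IsIso (inv (tr y)).left := inferInstanceAs (IsIso ((Over.forget _).map (inv (tr y))))
  have h1 : ∀ x ∈ U, (tr y).left x ∈ (inv (tr y)).left ⁻¹ᵁ U := fun x hx => by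
    change (inv (tr y)).left ((tr y).left x) ∈ U
    rwa [grp_inv_apply]
  exact ⟨(inv (tr y)).left ⁻¹ᵁ U, hU.preimage _, h1, fun b hb =>
    pb_mem_B (U := (inv (tr y)).left ⁻¹ᵁ U) (fun x hx => h1 x hx) hb⟩

variable (G) [LocallyOfFiniteType G.hom]

theorem exists_gframe : ∃ (g : ℕ) (ξ : Fin g → Dr G), IsGFrame ξ := by
  have : IsLocallyNoetherian G.left := LocallyOfFiniteType.isLocallyNoetherian G.hom
  obtain ⟨ev, hev, h1⟩ := exists_mkPt _ (one_closed (A := G) K)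
  obtain ⟨g, b, l, hl, hb, hspan⟩ := exists_cot ev
  let C : Cot G g := ⟨ev, l, h1, hl⟩
  obtain ⟨δ, hδ⟩ := C.masterG
  refine ⟨g, δ, fun i x a ha => ?_, hδ.transl, fun M _ _ => hδ.span M (hspan M)⟩
  obtain ⟨Δ, h2, -⟩ := hδ.loc x
  exact h2 i ⟨a, ha⟩ ▸ (Δ i _).2

end grp

theorem GG_rank {K R : Type} [Field K] [CommRing R] [Algebra K R] [h : Algebra.FiniteType K R] :
    Module.rank K R ≤ Cardinal.aleph0 := by
  obtain ⟨n, f, hf⟩ := Algebra.FiniteType.iff_quotient_mvPolynomial''.mp h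
  refine (LinearMap.rank_le_of_surjective f.toLinearMap hf).trans ?_
  rw [← (MvPolynomial.basisMonomials (Fin n) K).mk_eq_rank'']
  exact Cardinal.mk_le_aleph0

theorem GG_hom {K R : Type} [Field K] [IsAlgClosed K] [CommRing R] [Algebra K R]
    [Algebra.FiniteType K R] {a : R} (ha : ¬ IsUnit a) : ∃ e : R →ₐ[K] K, e a = 0 := by
  obtain ⟨M, hM, haM⟩ := exists_max_ideal_of_mem_nonunits ha
  let := Ideal.Quotient.field M
  have : Module.Finite K (R ⧸ M) := finite_of_finite_type_of_isJacobsonRing K (R ⧸ M)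
  have hb : Function.Bijective (Algebra.ofId K (R ⧸ M)) :=
    IsAlgClosed.algebraMap_bijective_of_isIntegral
  refine ⟨(AlgEquiv.ofBijective _ hb).symm.toAlgHom.comp (Ideal.Quotient.mkₐ K M), ?_⟩
  rw [AlgHom.comp_apply, Ideal.Quotient.mkₐ_eq_mk, Ideal.Quotient.eq_zero_iff_mem.2 haM, map_zero]

theorem const_of_bdd {K : Type} [NontriviallyNormedField K] [CompleteSpace K] [IsAlgClosed K]
    {G : Sch K} [IsIntegral G.left] [LocallyOfFiniteType G.hom] {r : Fn G} {C : ℝ}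
    (h : ∀ (p : G.left) (c : K), IsClosed ({p} : Set G.left) → HasVal p r c → ‖c‖ ≤ C) :
    ∃ c : K, r = algebraMap K (Fn G) c := by
  by_contra hn
  have ht : Transcendental K r := fun ha => by
    have hi : IsIntegral K r := ha.isIntegral
    have hd := IsAlgClosed.degree_eq_one_of_irreducible K (minpoly.irreducible hi)
    obtain ⟨c, hc⟩ := minpoly.degree_eq_one_iff.1 hd
    exact hn ⟨c, hc.symm⟩
  obtain ⟨U, hU, hg, hle⟩ := exists_aff (W := reg r) (x := gp G) (by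
    rw [mem_reg, O_gp]
    trivial)
  have hr : r ∈ B G U := mem_B.2 fun x hx => hle hx
  have := lft_finiteType hU hg
  have hu : ∀ c : K, C < ‖c‖ → (r - algebraMap K (Fn G) c)⁻¹ ∈ B G U := fun c hc => by
    by_cases h1 : IsUnit ((⟨r, hr⟩ : B G U) - algebraMap K (B G U) c)
    · obtain ⟨b, hb⟩ := h1.exists_right_inv
      have e : (r - algebraMap K (Fn G) c) * b = 1 := congrArg Subtype.val hb
      rw [← eq_inv_of_mul_eq_one_right e]
      exact b.2
    · obtain ⟨e, he⟩ := GG_hom (K := K) h1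
      obtain ⟨p, -, h2, h3⟩ := lft_point hU hg e
      rw [map_sub, e.commutes, sub_eq_zero] at he
      have h4 := h p _ h2 (h3 ⟨r, hr⟩)
      rw [he] at h4
      exact absurd hc (not_lt.2 h4)
  have hli : LinearIndependent K fun c : {c : K | C < ‖c‖} =>
      (⟨_, hu c.1 c.2⟩ : B G U) :=
    LinearIndependent.of_comp (B G U).val.toLinearMap
      (ht.linearIndependent_sub_inv.comp _ Subtype.val_injective)
  have h1 := hli.cardinal_le_rank.trans GG_rank
  rw [cardinal_eq_of_isOpen K (isOpen_lt continuous_const continuous_norm)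
    (NormedField.exists_lt_norm K C)] at h1
  exact absurd ((continuum_le_cardinal_of_nontriviallyNormedField K).trans h1)
    (not_le.2 Cardinal.aleph0_lt_continuum)

end Pool.Agent.Work.MP_e120ef_ag.H
end

-- merged part: Pool.Agent.Work.MP_e120ef_ag.Br.G0
section
/-!
# Points of the analytification in the function field model

`ζ.sl : Sl X ζ.H` is the value map of the local ring at `ζ.pt` in the completed residue field.
-/

open CategoryTheory AlgebraicGeometry Filter Topology IsLocalRing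

namespace Pool.Agent.Work.MP_e120ef_ag.Br

variable {K : Type} [NontriviallyNormedField K] {X : Sch K}

/-- the residue field in its completion -/
noncomputable def An.co (ζ : An X) : X.left.residueField ζ.pt →+* ζ.H :=
  UniformSpace.Completion.coeRingHom.comp (WithAbs.equiv ζ.v).symm.toRingHom

theorem An.norm_co (ζ : An X) (a : X.left.residueField ζ.pt) : ‖ζ.co a‖ = ζ.v a :=
  UniformSpace.Completion.norm_coe (WithAbs.toAbs ζ.v a)

theorem An.ev_eq (ζ : An X) (U : X.left.Opens) (h : ζ.pt ∈ U) (s : Γ(X.left, U)) :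
    ζ.ev U h s = ζ.co (X.left.evaluation U ζ.pt h s) := rfl

theorem An.norm_alg (ζ : An X) (c : K) : ‖algebraMap K ζ.H c‖ = ‖c‖ :=
  (ζ.norm_co _).trans (ζ.ext c)

noncomputable instance (ζ : An X) : NormedAlgebra K ζ.H where
  norm_smul_le c x := by rw [Algebra.smul_def, norm_mul, ζ.norm_alg]

instance (ζ : An X) : CompleteSpace ζ.H := inferInstanceAs (CompleteSpace ζ.v.Completion)

instance [IsUltrametricDist K] (ζ : An X) : IsUltrametricDist ζ.H :=
  IsUltrametricDist.isUltrametricDist_of_forall_norm_natCast_le_one fun n => by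
    rw [← map_natCast (algebraMap K ζ.H), ζ.norm_alg]
    exact IsUltrametricDist.norm_natCast_le_one K n

theorem isOpen_pt (U : X.left.Opens) : IsOpen {ζ : An X | ζ.pt ∈ U} := by
  refine TopologicalSpace.isOpen_generateFrom_of_mem ⟨U, 0, Set.univ, isOpen_univ, ?_⟩
  ext ζ
  simp

theorem continuous_pt : Continuous (An.pt : An X → X.left) :=
  ⟨fun U hU => isOpen_pt ⟨U, hU⟩⟩

variable [IsIntegral X.left]

/-- the value map of the local ring -/
noncomputable def An.hom (ζ : An X) : O X ζ.pt →+* ζ.H :=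
  (ζ.co.comp (X.left.residue ζ.pt).hom).comp (stalkEquiv X ζ.pt).symm.toRingHom

theorem An.hom_stalk (ζ : An X) (a : X.left.presheaf.stalk ζ.pt) :
    ζ.hom (stalkEquiv X ζ.pt a) = ζ.co (X.left.residue ζ.pt a) :=
  congrArg (fun b => ζ.co (X.left.residue ζ.pt b)) ((stalkEquiv X ζ.pt).symm_apply_apply a)

theorem An.hom_germ (ζ : An X) {U : X.left.Opens} (h : ζ.pt ∈ U) (s : Γ(X.left, U)) :
    ζ.hom ⟨_, Fn_germ_mem_O h s⟩ = ζ.ev U h s := by
  have : (⟨_, Fn_germ_mem_O h s⟩ : O X ζ.pt) =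
      stalkEquiv X ζ.pt (X.left.presheaf.germ U ζ.pt h s) := Subtype.ext (toK_germ h s).symm
  rw [this, ζ.hom_stalk]
  rfl

open Classical in
/-- the point with values in the completed residue field -/
noncomputable def An.sl (ζ : An X) : Sl X ζ.H where
  η := ζ.pt
  ρ a := if h : a ∈ O X ζ.pt then ζ.hom ⟨a, h⟩ else 0
  add a ha b hb := by
    rw [dif_pos ha, dif_pos hb, dif_pos (add_mem ha hb), ← map_add]
    rfl
  mul a ha b hb := by
    rw [dif_pos ha, dif_pos hb, dif_pos (mul_mem ha hb), ← map_mul]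
    rfl
  alg c := by
    rw [dif_pos ((O X ζ.pt).algebraMap_mem c)]
    exact ζ.hom_germ (U := ⊤) trivial (cst X c)
  ker a ha := by
    obtain ⟨b, hb⟩ := (stalkEquiv X ζ.pt).surjective ⟨a, ha⟩
    have e : a = toK X ζ.pt b := (congrArg Subtype.val hb).symm
    rw [dif_pos ha, ← hb, ζ.hom_stalk, map_eq_zero, e, toK_mem_mp, pow_one]
    exact residue_eq_zero_iff b

theorem An.sl_η (ζ : An X) : ζ.sl.η = ζ.pt := rfl

theorem An.sl_hom (ζ : An X) (a : O X ζ.pt) : ζ.sl.ρ a = ζ.hom a := dif_pos a.2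

theorem An.sl_germ (ζ : An X) {U : X.left.Opens} (h : ζ.pt ∈ U) (s : Γ(X.left, U)) :
    ζ.sl.ρ (germ X U (gp_mem h) s) = ζ.ev U h s :=
  (ζ.sl_hom ⟨_, Fn_germ_mem_O h s⟩).trans (ζ.hom_germ h s)

theorem An.exists_co (ζ : An X) (a : X.left.residueField ζ.pt) :
    ∃ y ∈ O X ζ.pt, ζ.sl.ρ y = ζ.co a := by
  obtain ⟨b, rfl⟩ := X.left.residue_surjective ζ.pt a
  exact ⟨_, (stalkEquiv X ζ.pt b).2, (ζ.sl_hom _).trans (ζ.hom_stalk b)⟩

theorem isOpen_val (y : Fn X) {I : Set ℝ} (hI : IsOpen I) :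
    IsOpen {ζ : An X | y ∈ O X ζ.pt ∧ ‖ζ.sl.ρ y‖ ∈ I} := by
  refine isOpen_iff_forall_mem_open.2 fun ζ hζ => ?_
  obtain ⟨W, -, hW, s, rfl⟩ := Fn_exists_germ (U := ⊤) trivial hζ.1
  refine ⟨{ξ | ∃ h : ξ.pt ∈ W, ‖ξ.ev W h s‖ ∈ I}, ?_,
    TopologicalSpace.isOpen_generateFrom_of_mem ⟨W, s, I, hI, rfl⟩, hW, ?_⟩
  · rintro ξ ⟨h, h'⟩
    exact ⟨Fn_germ_mem_O h s, by rwa [ξ.sl_germ h]⟩
  · rw [← ζ.sl_germ hW]
    exact hζ.2

theorem continuous_An {T : Type} [TopologicalSpace T] {g : T → An X}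
    (h1 : ∀ U : X.left.Opens, IsOpen {t | (g t).pt ∈ U})
    (h2 : ∀ y I, IsOpen I → IsOpen {t | y ∈ O X (g t).pt ∧ ‖(g t).sl.ρ y‖ ∈ I}) :
    Continuous g := by
  refine continuous_generateFrom_iff.2 ?_
  rintro _ ⟨U, s, I, hI, rfl⟩
  by_cases hU : gp X ∈ U
  · convert (h1 U).inter (h2 (germ X U hU s) I hI) using 1
    ext t
    constructor
    · rintro ⟨h, h'⟩
      exact ⟨h, Fn_germ_mem_O h s, by rwa [(g t).sl_germ h]⟩
    · rintro ⟨h, -, h'⟩
      exact ⟨h, by rwa [(g t).sl_germ h] at h'⟩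
  · convert isOpen_empty
    exact Set.eq_empty_of_forall_notMem fun t ⟨h, _⟩ => hU (gp_mem h)

theorem An.ext' {ζ ξ : An X} (h : ζ.pt = ξ.pt)
    (h' : ∀ y ∈ O X ζ.pt, ‖ζ.sl.ρ y‖ = ‖ξ.sl.ρ y‖) : ζ = ξ := by
  obtain ⟨p, v, hv⟩ := ζ
  obtain ⟨q, w, hw⟩ := ξ
  obtain rfl : p = q := h
  obtain rfl : v = w := by
    ext a
    obtain ⟨b, rfl⟩ := X.left.residue_surjective p a
    have := h' _ (stalkEquiv X p b).2
    rwa [An.sl_hom ⟨p, v, hv⟩, An.sl_hom ⟨p, w, hw⟩, An.hom_stalk ⟨p, v, hv⟩,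
      An.hom_stalk ⟨p, w, hw⟩, An.norm_co, An.norm_co] at this
  rfl

variable {M : Type}

theorem G0_res [Field M] [Algebra K M] (s : Sl X M) :
    ∃ r : X.left.residueField s.η →+* M,
      ∀ a, r (X.left.residue s.η a) = s.ρ (toK X s.η a) := by
  let g : X.left.presheaf.stalk s.η →+* M :=
    (s.hom : O X s.η →+* M).comp (stalkEquiv X s.η).toRingHom
  have : IsLocalHom g := ⟨fun a ha => by
    by_contra h
    have h1 : toK X s.η a ∈ mp X s.η 1 := by
      rw [toK_mem_mp, pow_one]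
      exact h
    exact ha.ne_zero ((s.ker _ (mem_O_of_mp h1)).2 h1)⟩
  exact ⟨ResidueField.lift g, fun a => ResidueField.lift_residue_apply g a⟩

variable [NormedField M] [NormedAlgebra K M]

theorem exists_An (s : Sl X M) :
    ∃ ζ : An X, ζ.pt = s.η ∧ ∀ y ∈ O X s.η, ‖ζ.sl.ρ y‖ = ‖s.ρ y‖ := by
  obtain ⟨r, hr⟩ := G0_res s
  let ζ : An X := ⟨s.η, (NormedField.toAbsoluteValue M).comp r.injective, fun c => by
    change ‖r (X.left.residue s.η (X.left.presheaf.germ ⊤ s.η trivial (cst X c)))‖ = _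
    rw [hr, toK_germ (U := ⊤) trivial, ← norm_algebraMap' M c, ← s.alg]
    rfl⟩
  refine ⟨ζ, rfl, ?_⟩
  rintro _ ⟨a, rfl⟩
  have := (ζ.sl_hom (stalkEquiv X s.η a)).trans (ζ.hom_stalk a)
  change ‖ζ.sl.ρ (stalkEquiv X s.η a)‖ = ‖s.ρ (toK X s.η a)‖
  rw [this, ζ.norm_co, ← hr]
  rfl

theorem exists_j [CompleteSpace M] (ζ : An X) (s : Sl X M) (hη : s.η = ζ.pt)
    (h : ∀ y ∈ O X ζ.pt, ‖s.ρ y‖ = ‖ζ.sl.ρ y‖) : ∃ j : ζ.H →ₐ[K] M, (∀ x, ‖j x‖ = ‖x‖) ∧
      ∀ y ∈ O X ζ.pt, j (ζ.sl.ρ y) = s.ρ y := by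
  obtain ⟨r, hr⟩ := G0_res s
  obtain ⟨p, v, hv⟩ := ζ
  obtain ⟨η, ρ, h1, h2, h3, h4⟩ := s
  obtain rfl : η = p := hη
  set ζ : An X := ⟨η, v, hv⟩
  have key : ∀ a, ζ.sl.ρ (toK X η a) = ζ.co (X.left.residue η a) := fun a =>
    (ζ.sl_hom (stalkEquiv X η a)).trans (ζ.hom_stalk a)
  let r' : WithAbs v →+* M := r.comp (WithAbs.equiv v).toRingHom
  have hi : Isometry r' := AddMonoidHomClass.isometry_of_norm r' fun x => by
    obtain ⟨a, ha⟩ := X.left.residue_surjective η x.ofAbs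
    change ‖r x.ofAbs‖ = v x.ofAbs
    rw [← ha, hr, ← ζ.norm_co, ← key]
    exact h _ ⟨a, rfl⟩
  let j : ζ.H →+* M := UniformSpace.Completion.extensionHom r' hi.continuous
  have hj : ∀ a, j (ζ.co a) = r a := fun a =>
    UniformSpace.Completion.extensionHom_coe r' hi.continuous (WithAbs.toAbs v a)
  have hy : ∀ y ∈ O X η, j (ζ.sl.ρ y) = ρ y := by
    rintro _ ⟨a, rfl⟩
    exact (congrArg j (key a)).trans ((hj _).trans (hr a))
  refine ⟨{ j with commutes' := fun c => ?_ }, fun x => ?_, hy⟩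
  · have := hy _ ((O X η).algebraMap_mem c)
    rwa [ζ.sl.alg, h3] at this
  · exact (hi.completion_extension).norm_map_of_map_zero (map_zero j) x

end Pool.Agent.Work.MP_e120ef_ag.Br
end

-- merged part: Pool.Agent.Work.MP_e120ef_ag.Br.S0
section
/-! Basic facts on seminorm spaces.

Plans.  `Sn.compact`: the image under `toFun` is a closed subset of the product of the intervals
`[0, C a]` (Tychonoff, `IsInducing.isCompact_iff`).  `Sn.exists_rep`: the kernel is a prime ideal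
`p`; `H.Gauss_abs` gives an absolute value on the fraction field of `R ⧸ p`; take `WithAbs`,
`H.Gauss_compl`-like completion (or `UniformSpace.Completion`), then `H.exists_Kp`.
`norm_btw`: take `x` with `1 < ‖x‖`, a large `N` with `r₁ * ‖x‖ ^ (1 / N) < r₂`, a root `y` of
`Y ^ N = x`, and a power `y ^ k`, `k : ℤ` (`exists_mem_Ioc_zpow`). -/

open Filter Topology

namespace Pool.Agent.Work.MP_e120ef_ag.Br

theorem norm_btw (K : Type) [NontriviallyNormedField K] [IsAlgClosed K] {r₁ r₂ : ℝ} (h₀ : 0 ≤ r₁)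
    (h : r₁ < r₂) : ∃ x : K, r₁ < ‖x‖ ∧ ‖x‖ < r₂ := by
  obtain ⟨r, h1, h2⟩ := exists_between h
  have h3 := h₀.trans_lt h1
  obtain ⟨x, hx⟩ := NormedField.exists_one_lt_norm K
  obtain ⟨N, hN⟩ := pow_unbounded_of_one_lt ‖x‖ ((one_lt_div h3).2 h2)
  have h4 : N ≠ 0 := by
    rintro rfl
    exact hx.not_gt (by rwa [pow_zero] at hN)
  obtain ⟨y, rfl⟩ := IsAlgClosed.exists_pow_nat_eq x h4.bot_lt
  rw [norm_pow] at hx hN
  have h5 := (one_lt_pow_iff_of_nonneg (norm_nonneg y) h4).1 hx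
  have h6 := lt_of_pow_lt_pow_left₀ N (div_pos (h3.trans h2) h3).le hN
  obtain ⟨k, h7, h8⟩ := exists_mem_Ico_zpow h3 h5
  refine ⟨y ^ (k + 1), by rw [norm_zpow]; exact h1.trans h8, ?_⟩
  rw [norm_zpow, zpow_add_one₀ (one_pos.trans h5).ne']
  exact (mul_le_mul_of_nonneg_right h7 (norm_nonneg y)).trans_lt ((lt_div_iff₀' h3).1 h6)

namespace Sn

section

variable {K : Type} [NormedField K] {R R' : Type} [CommRing R] [Algebra K R] [CommRing R']
  [Algebra K R'] (ξ : Sn K R)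

theorem ext' {ξ ξ' : Sn K R} (h : ∀ a, ξ a = ξ' a) : ξ = ξ' := by
  cases ξ
  cases ξ'
  congr
  exact funext h

theorem zero : ξ 0 = 0 := by
  simpa using ξ.alg 0

theorem one : ξ 1 = 1 := by
  simpa using ξ.alg 1

theorem neg (a : R) : ξ (-a) = ξ a := by
  simpa using (ξ.mul (algebraMap K R (-1)) a).trans (congrArg (· * ξ a) (ξ.alg _))

theorem pow (a : R) (k : ℕ) : ξ (a ^ k) = ξ a ^ k := by
  induction k with
  | zero => rw [pow_zero, pow_zero, ξ.one]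
  | succ k ih => rw [pow_succ, pow_succ, ξ.mul, ih]

theorem sub (a b : R) : ξ (a - b) ≤ max (ξ a) (ξ b) := by
  rw [sub_eq_add_neg, ← ξ.neg b]
  exact ξ.add _ _

theorem add_eq {a b : R} (h : ξ b < ξ a) : ξ (a + b) = ξ a := by
  have h1 := ξ.sub (a + b) b
  rw [add_sub_cancel_right] at h1
  exact ((ξ.add a b).trans (max_le le_rfl h.le)).antisymm
    ((le_max_iff.1 h1).resolve_right h.not_ge)

theorem sum_le {ι : Type} (s : Finset ι) (f : ι → R) {C : ℝ} (hC : 0 ≤ C)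
    (h : ∀ i ∈ s, ξ (f i) ≤ C) : ξ (∑ i ∈ s, f i) ≤ C :=
  Finset.sum_induction f (fun x => ξ x ≤ C) (fun a b ha hb => (ξ.add a b).trans (max_le ha hb))
    (ξ.zero.trans_le hC) h

theorem sum_lt {ι : Type} (s : Finset ι) (f : ι → R) {C : ℝ} (hC : 0 < C)
    (h : ∀ i ∈ s, ξ (f i) < C) : ξ (∑ i ∈ s, f i) < C :=
  Finset.sum_induction f (fun x => ξ x < C)
    (fun a b ha hb => (ξ.add a b).trans_lt (max_lt ha hb)) (ξ.zero.trans_lt hC) h

theorem prod {ι : Type} (s : Finset ι) (f : ι → R) : ξ (∏ i ∈ s, f i) = ∏ i ∈ s, ξ (f i) := by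
  induction s using Finset.cons_induction with
  | empty => exact ξ.one
  | cons a s ha ih => rw [Finset.prod_cons, Finset.prod_cons, ξ.mul, ih]

theorem comap_apply (φ : R →ₐ[K] R') (ξ : Sn K R') (a : R) : ξ.comap φ a = ξ (φ a) := rfl

theorem cont (a : R) : Continuous fun ξ : Sn K R => ξ a :=
  (continuous_apply a).comp continuous_induced_dom

theorem tendsto_iff {α : Type} {f : α → Sn K R} {l : Filter α} :
    Tendsto f l (𝓝 ξ) ↔ ∀ a, Tendsto (fun x => f x a) l (𝓝 (ξ a)) := by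
  rw [nhds_induced, tendsto_comap_iff, tendsto_pi_nhds]
  rfl

theorem cont_iff {α : Type} [TopologicalSpace α] {f : α → Sn K R} :
    Continuous f ↔ ∀ a, Continuous fun x => f x a :=
  continuous_induced_rng.trans continuous_pi_iff

theorem S0_emb : IsClosedEmbedding (Sn.toFun : Sn K R → R → ℝ) := by
  refine ⟨⟨⟨rfl⟩, fun _ _ h => ext' (congrFun h)⟩, ?_⟩
  have e : Set.range (Sn.toFun : Sn K R → R → ℝ) = {f | ∀ a, 0 ≤ f a} ∩
      ({f | ∀ a b, f (a * b) = f a * f b} ∩ ({f | ∀ a b, f (a + b) ≤ max (f a) (f b)} ∩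
        {f | ∀ c : K, f (algebraMap K R c) = ‖c‖})) :=
    Set.ext fun f => ⟨by rintro ⟨ξ, rfl⟩; exact ⟨ξ.nn, ξ.mul, ξ.add, ξ.alg⟩,
      fun h => ⟨⟨f, h.1, h.2.1, h.2.2.1, h.2.2.2⟩, rfl⟩⟩
  simp only [e, Set.ofPred_forall]
  exact (isClosed_iInter fun _ => isClosed_le (by fun_prop) (by fun_prop)).inter
    ((isClosed_iInter fun _ => isClosed_iInter fun _ =>
      isClosed_eq (by fun_prop) (by fun_prop)).inter
    ((isClosed_iInter fun _ => isClosed_iInter fun _ =>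
      isClosed_le (by fun_prop) (by fun_prop)).inter
    (isClosed_iInter fun _ => isClosed_eq (by fun_prop) (by fun_prop))))

instance : T2Space (Sn K R) :=
  S0_emb.isEmbedding.t2Space

theorem cont_comap (φ : R →ₐ[K] R') : Continuous (comap φ : Sn K R' → Sn K R) :=
  cont_iff.2 fun a => cont (φ a)

theorem basis {N : Set (Sn K R)} (h : N ∈ 𝓝 ξ) : ∃ (s : Finset R) (ε : ℝ), 0 < ε ∧
    ∀ ξ' : Sn K R, (∀ a ∈ s, |ξ' a - ξ a| < ε) → ξ' ∈ N := by
  rw [nhds_induced, nhds_pi] at h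
  obtain ⟨t, h1, h2⟩ := mem_comap.1 h
  obtain ⟨I, h3, u, h4, h5⟩ := mem_pi.1 h1
  obtain ⟨ε, h6, h7⟩ := ((((eventually_all_finite h3).2 fun a _ =>
    eventually_ball_subset (h4 a)).filter_mono nhdsWithin_le_nhds).and
      (self_mem_nhdsWithin (s := Set.Ioi 0))).exists
  exact ⟨h3.toFinset, ε, h7, fun ξ' h8 =>
    h2 (h5 fun a ha => h6 a ha (h8 a (h3.mem_toFinset.2 ha)))⟩

theorem compact (C : R → ℝ) : IsCompact {ξ : Sn K R | ∀ a, ξ a ≤ C a} := by
  refine (S0_emb.isCompact_preimage (isCompact_univ_pi fun a =>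
    isCompact_Icc (a := 0) (b := C a))).of_isClosed_subset ?_ fun ξ h a _ => ⟨ξ.nn a, h a⟩
  simp only [Set.ofPred_forall]
  exact isClosed_iInter fun a => isClosed_le (cont a) continuous_const

variable {L : Type} [NormedField L] [IsUltrametricDist L] [NormedAlgebra K L]

theorem of_apply (c : R →ₐ[K] L) (a : R) : Sn.of c a = ‖c a‖ := rfl

theorem comap_of (φ : R →ₐ[K] R') (c : R' →ₐ[K] L) : (Sn.of c).comap φ = Sn.of (c.comp φ) := rfl

variable [IsUltrametricDist K]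

theorem of_comp (e : R →ₐ[K] K) : Sn.of ((Algebra.ofId K L).comp e) = Sn.of e :=
  ext' fun a => norm_algebraMap' L (e a)

/-- a seminorm whose kernel contains that of a rational point is that point -/
theorem eq_of_ker (e : R →ₐ[K] K) (h : ∀ b, e b = 0 → ξ b = 0) : ξ = Sn.of e := by
  refine ext' fun a => ?_
  by_cases h0 : e a = 0
  · rw [h a h0, of_apply, h0, norm_zero]
  · rw [of_apply, ← ξ.alg, ← ξ.add_eq (a := algebraMap K R (e a)) (b := a - algebraMap K R (e a)),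
      add_sub_cancel]
    rw [h _ (by simp), ξ.alg]
    exact norm_pos_iff.2 h0

theorem tendsto_of (e : R →ₐ[K] K) (b : R) : Tendsto (fun c : R →ₐ[K] L => c b)
    (Filter.comap Sn.of (𝓝 (Sn.of e))) (𝓝 (algebraMap K L (e b))) := by
  have h := (tendsto_iff _).1 (tendsto_comap (f := (Sn.of : (R →ₐ[K] L) → Sn K R))
    (x := 𝓝 (Sn.of e))) (b - algebraMap K R (e b))
  rw [tendsto_iff_norm_sub_tendsto_zero]
  simpa [of_apply] using h

/-- an analytic function is continuous at a rational point -/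
theorem tendsto_Ac (e : R →ₐ[K] K) {u : (R →ₐ[K] L) → L} (h : Ac (Sn.of e) u) : Tendsto u
    (Filter.comap Sn.of (𝓝 (Sn.of e))) (𝓝 (u ((Algebra.ofId K L).comp e))) := by
  obtain ⟨N, h1, h2⟩ := h
  refine Metric.tendsto_nhds.2 fun ε hε => ?_
  obtain ⟨b₁, b₂, h3, h4⟩ := h2 (ε / 3) (by positivity)
  have h5 := mem_of_mem_nhds h1
  have h6 := h4 ((Algebra.ofId K L).comp e) (by rwa [of_comp])
  have h7 := Metric.tendsto_nhds.1 ((tendsto_of (L := L) e b₁).div (tendsto_of e b₂)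
    ((map_ne_zero _).2 (norm_ne_zero_iff.1 (h3 _ h5)))) (ε / 3) (by positivity)
  filter_upwards [h7, preimage_mem_comap h1] with c h8 h9
  have h10 := h4 c h9
  rw [← dist_eq_norm] at h6 h10
  refine (dist_triangle4_right _ _ _ _).trans_lt
    ((add_lt_add_of_le_of_lt (add_le_add h10 h6) h8).trans_eq ?_)
  ring

end

theorem exists_rep {K : Type} [NontriviallyNormedField K] [IsUltrametricDist K] [CharZero K]
    {R : Type} [CommRing R] [Algebra K R] (ξ : Sn K R) :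
    ∃ (L : Type) (_ : NontriviallyNormedField L) (_ : IsUltrametricDist L) (_ : CompleteSpace L)
      (_ : IsAlgClosed L) (_ : NormedAlgebra K L) (c : R →ₐ[K] L), Sn.of c = ξ := by
  let p : Ideal R :=
    { carrier := {a | ξ a = 0}
      add_mem' := fun {a b} ha hb => ((ξ.add a b).trans (max_le ha.le hb.le)).antisymm (ξ.nn _)
      zero_mem' := ξ.zero
      smul_mem' := fun c a ha => (ξ.mul c a).trans (mul_eq_zero_of_right _ ha) }
  have hp : p.IsPrime := ⟨(Ideal.ne_top_iff_one p).2 fun h => one_ne_zero (ξ.one.symm.trans h),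
    fun {a b} h => mul_eq_zero.1 ((ξ.mul a b).symm.trans h)⟩
  have h1 : ∀ a b, ξ (a - b) = 0 → ξ a ≤ ξ b := fun a b h => by
    simpa [h, ξ.nn] using ξ.add (a - b) b
  let N : R ⧸ p → ℝ := Quotient.lift ξ fun a b h => by
    have h2 := (Submodule.quotientRel_def p).1 h
    exact (h1 a b h2).antisymm (h1 b a (by rw [← ξ.neg, neg_sub]; exact h2))
  have hN : ∀ a, N (Ideal.Quotient.mk p a) = ξ a := fun _ => rfl
  have sj := Ideal.Quotient.mk_surjective (I := p)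
  obtain ⟨v, hv, hu⟩ := H.Gauss_abs (FractionRing (R ⧸ p)) N (sj.forall.2 ξ.nn)
    (sj.forall.2 fun a => (Ideal.Quotient.eq_zero_iff_mem (I := p)).symm) (sj.forall₂.2 ξ.add)
    (sj.forall₂.2 ξ.mul)
  let : NormedField (FractionRing (R ⧸ p)) := v.toNormedField
  have : IsUltrametricDist (FractionRing (R ⧸ p)) :=
    IsUltrametricDist.isUltrametricDist_of_forall_norm_add_le_max_norm hu
  let : NormedAlgebra K (FractionRing (R ⧸ p)) :=
    { norm_smul_le := fun c x => by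
        change v (c • x) ≤ ‖c‖ * v x
        rw [Algebra.smul_def, map_mul, IsScalarTower.algebraMap_apply K (R ⧸ p), hv, ← ξ.alg]
        rfl }
  obtain ⟨K₁, _, _, _, _, τ, h2, -⟩ := H.Gauss_compl K (FractionRing (R ⧸ p))
  obtain ⟨L, i1, i2, i3, i4, _, _, i5, _⟩ := H.exists_Kp K K₁
  exact ⟨L, i1, i2, i3, i4, i5, (IsScalarTower.toAlgHom K K₁ L).comp (τ.comp
    ((IsScalarTower.toAlgHom K (R ⧸ p) _).comp (Ideal.Quotient.mkₐ K p))),
    ext' fun a => (norm_algebraMap' L _).trans ((h2 _).trans (hv _))⟩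

end Sn

variable {K : Type} [NontriviallyNormedField K] {n : ℕ} {L : Type} [NormedField L]
  [IsUltrametricDist L] [NormedAlgebra K L]

theorem pz_apply (z : Fin n → L) (P : Pl K n) : pz K z P = ‖MvPolynomial.aeval z P‖ := rfl

theorem cont_pz : Continuous (pz K : (Fin n → L) → Sn K (Pl K n)) := by
  refine Sn.cont_iff.2 fun P => ?_
  simp only [pz_apply, MvPolynomial.aeval_def, MvPolynomial.eval₂_eq_eval_map]
  exact (MvPolynomial.continuous_eval _).norm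

theorem Ac_elt {R : Type} [CommRing R] [Algebra K R] (ξ : Sn K R) (b : R) :
    Ac ξ fun c : R →ₐ[K] L => c b :=
  ⟨_, univ_mem, fun ε hε => ⟨b, 1, fun ξ' _ => ξ'.one.trans_ne one_ne_zero,
    fun c _ => by simpa using hε.le⟩⟩

theorem Ac.congr {R : Type} [CommRing R] [Algebra K R] {ξ : Sn K R} {u v : (R →ₐ[K] L) → L}
    (h : Ac ξ u) {N : Set (Sn K R)} (hN : N ∈ 𝓝 ξ) (e : ∀ c, Sn.of c ∈ N → u c = v c) :
    Ac ξ v := by
  obtain ⟨M, h1, h2⟩ := h
  exact ⟨_, inter_mem h1 hN, fun ε hε => (h2 ε hε).imp fun _ h => h.imp fun _ h =>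
    ⟨fun ξ' k => h.1 ξ' k.1, fun c k => e c k.2 ▸ h.2 c k.1⟩⟩

end Pool.Agent.Work.MP_e120ef_ag.Br
end

-- merged part: Pool.Agent.Work.MP_e120ef_ag.Br.G1
section
/-!
# The seminorm space of an affine open subset inside the analytification
-/

open CategoryTheory AlgebraicGeometry Filter Topology IsLocalRing

namespace Pool.Agent.Work.MP_e120ef_ag.Br

section alg

variable {K : Type} [Field K] {G : Sch K} [IsIntegral G.left] {W : G.left.Opens}

theorem G1_pt (hW : IsAffineOpen W) {x y : G.left} (hx : x ∈ W) (hy : y ∈ W)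
    (h : ∀ b : B G W, (b : Fn G) ∈ mp G x 1 ↔ (b : Fn G) ∈ mp G y 1) : x = y := by
  have e : pr hx = pr hy := Ideal.ext fun b => by rw [mem_pr, mem_pr, h]
  exact (((aff_spec hW hx hy).2 e.le).antisymm ((aff_spec hW hy hx).2 e.ge)).eq

theorem G1_frac {M : Type} [Field M] [Algebra K M] (s : Sl G M) {y b : Fn G} (hb : IsU G s.η b)
    (h : b * y ∈ O G s.η) : y ∈ O G s.η ∧ s.ρ y = s.ρ (b * y) / s.ρ b := by
  have hy := hb.mul_mem_O_iff.1 h
  exact ⟨hy, by rw [s.mul _ hb.1 _ hy, mul_div_cancel_left₀ _ (s.ne_zero hb)]⟩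

theorem G1_isU {M : Type} [Field M] [Algebra K M] (s : Sl G M) {b : Fn G} (hb : b ∈ O G s.η)
    (h : s.ρ b ≠ 0) : IsU G s.η b := ⟨hb, fun h' => h ((s.ker b hb).2 h')⟩

open Classical in
theorem exists_sl (hW : IsAffineOpen W) (hg : gp G ∈ W) {M : Type} [Field M] [Algebra K M]
    (c : B G W →ₐ[K] M) : ∃ s : Sl G M, s.η ∈ W ∧ ∀ b : B G W, s.ρ b = c b := by
  have := RingHom.ker_isPrime c
  obtain ⟨x, hx, he⟩ := aff_point hW hg (RingHom.ker c)
  let _ := (Subalgebra.inclusion (B_le_O hx)).toRingHom.toAlgebra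
  have := aff_isLocalization hW hx
  have hu : ∀ y : (pr hx).primeCompl, IsUnit ((c : B G W →+* M) y) := fun y =>
    IsUnit.mk0 _ fun h => y.2 (he.ge (RingHom.mem_ker.2 h))
  let r : O G x →+* M := IsLocalization.lift hu
  have hr : ∀ b : B G W, r ⟨b, B_le_O hx b.2⟩ = c b := fun b => IsLocalization.lift_eq hu b
  refine ⟨⟨x, fun a => if h : a ∈ O G x then r ⟨a, h⟩ else 0, fun a ha b hb => ?_,
    fun a ha b hb => ?_, fun a => ?_, fun a ha => ?_⟩, hx, fun b => ?_⟩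
  · rw [dif_pos ha, dif_pos hb, dif_pos (add_mem ha hb), ← map_add]
    rfl
  · rw [dif_pos ha, dif_pos hb, dif_pos (mul_mem ha hb), ← map_mul]
    rfl
  · rw [dif_pos ((O G x).algebraMap_mem a), ← c.commutes]
    exact hr (algebraMap K (B G W) a)
  · obtain ⟨b, hb, hu', hba⟩ := aff_frac hW hx ha
    have h1 : c ⟨b, hb⟩ * r ⟨a, ha⟩ = c ⟨_, hba⟩ := by
      rw [← hr, ← hr, ← map_mul]
      rfl
    have h2 : c ⟨b, hb⟩ ≠ 0 := fun h => hu'.2 ((mem_pr hx ⟨b, hb⟩).1 (he ▸ h))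
    rw [dif_pos ha, ← hu'.mul_mem_mp_iff, ← mem_pr hx ⟨_, hba⟩, he, RingHom.mem_ker, ← h1,
      mul_eq_zero, or_iff_right h2]
  · exact (dif_pos (B_le_O hx b.2)).trans (hr b)

end alg

variable {K : Type} [NontriviallyNormedField K] {G : Sch K} [IsIntegral G.left] {W : G.left.Opens}

theorem An_ext_B (hW : IsAffineOpen W) {ζ ξ : An G} (h₁ : ζ.pt ∈ W) (h₂ : ξ.pt ∈ W)
    (h : ∀ b : B G W, ‖ζ.sl.ρ b‖ = ‖ξ.sl.ρ b‖) : ζ = ξ := by
  have e : ζ.pt = ξ.pt := G1_pt hW h₁ h₂ fun b => by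
    rw [← ζ.sl_η, ← ξ.sl_η, ← ζ.sl.ker _ (B_le_O h₁ b.2), ← ξ.sl.ker _ (B_le_O h₂ b.2),
      ← norm_eq_zero, h, norm_eq_zero]
  refine An.ext' e fun y hy => ?_
  obtain ⟨b, hb, hu, hby⟩ := aff_frac hW h₁ hy
  rw [(G1_frac ζ.sl hu (B_le_O h₁ hby)).2,
    (G1_frac ξ.sl (show IsU G ξ.pt b from e ▸ hu) (B_le_O h₂ hby)).2, norm_div, norm_div,
    h ⟨b, hb⟩, h ⟨_, hby⟩]

variable [IsUltrametricDist K] [CharZero K] (hW : IsAffineOpen W) (hg : gp G ∈ W)

include hW hg in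
theorem exists_io (ξ : Sn K (B G W)) : ∃ ζ : An G, ζ.pt ∈ W ∧ ∀ b : B G W, ‖ζ.sl.ρ b‖ = ξ b := by
  obtain ⟨L, _, _, _, _, _, c, rfl⟩ := ξ.exists_rep
  obtain ⟨s, hs, hc⟩ := exists_sl hW hg c
  obtain ⟨ζ, h1, h2⟩ := exists_An s
  exact ⟨ζ, h1 ▸ hs, fun b => by rw [h2 _ (B_le_O hs b.2), hc, Sn.of_apply]⟩

/-- the point of the analytification defined by a seminorm -/
noncomputable def io (ξ : Sn K (B G W)) : An G := (exists_io hW hg ξ).choose

theorem io_mem (ξ : Sn K (B G W)) : (io hW hg ξ).pt ∈ W := (exists_io hW hg ξ).choose_spec.1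

theorem io_val (ξ : Sn K (B G W)) (b : B G W) : ‖(io hW hg ξ).sl.ρ b‖ = ξ b :=
  (exists_io hW hg ξ).choose_spec.2 b

theorem io_isU {ξ : Sn K (B G W)} {b : B G W} : IsU G (io hW hg ξ).pt b ↔ ξ b ≠ 0 := by
  rw [← io_val hW hg, norm_ne_zero_iff]
  exact ⟨(io hW hg ξ).sl.ne_zero, G1_isU _ (B_le_O (io_mem hW hg ξ) b.2)⟩

omit [IsUltrametricDist K] [CharZero K] in
/-- the values of the functions regular on `W` -/
noncomputable def An.onB (ζ : An G) (h : ζ.pt ∈ W) : B G W →ₐ[K] ζ.H :=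
  ζ.sl.hom.comp (Subalgebra.inclusion (B_le_O h))

theorem io_surj {ζ : An G} (h : ζ.pt ∈ W) : io hW hg (Sn.of (ζ.onB h)) = ζ :=
  An_ext_B hW (io_mem hW hg _) h fun b => io_val hW hg _ b

theorem cont_io : Continuous (io hW hg) := by
  refine continuous_An (fun U => isOpen_iff_mem_nhds.2 fun ξ hξ => ?_)
    fun y I hI => isOpen_iff_mem_nhds.2 fun ξ hξ => ?_
  · obtain ⟨f, hf, hu, hle⟩ := aff_exists_basic hW (io_mem hW hg ξ) hξ
    filter_upwards [(Sn.cont (⟨f, hf⟩ : B G W)).continuousAt.eventually_ne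
      ((io_isU hW hg (b := ⟨f, hf⟩)).1 hu)] with ξ' h
    exact hle ⟨io_mem hW hg ξ', (io_isU hW hg (b := ⟨f, hf⟩)).2 h⟩
  · obtain ⟨b, hb, hu, hby⟩ := aff_frac hW (io_mem hW hg ξ) hξ.1
    have h0 := (io_isU hW hg (b := ⟨b, hb⟩)).1 hu
    have key : ∀ ξ' : Sn K (B G W), ξ' ⟨b, hb⟩ ≠ 0 → y ∈ O G (io hW hg ξ').pt ∧
        ‖(io hW hg ξ').sl.ρ y‖ = ξ' ⟨_, hby⟩ / ξ' ⟨b, hb⟩ := fun ξ' h => by
      obtain ⟨h1, h2⟩ := G1_frac (io hW hg ξ').sl ((io_isU hW hg (b := ⟨b, hb⟩)).2 h)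
        (B_le_O (io_mem hW hg ξ') hby)
      exact ⟨h1, by rw [h2, norm_div, ← io_val hW hg, ← io_val hW hg]⟩
    have h3 : ContinuousAt (fun ξ' : Sn K (B G W) => ξ' ⟨_, hby⟩ / ξ' ⟨b, hb⟩) ξ :=
      (Sn.cont _).continuousAt.div (Sn.cont _).continuousAt h0
    filter_upwards [(Sn.cont (⟨b, hb⟩ : B G W)).continuousAt.eventually_ne h0,
      h3 (hI.mem_nhds (Set.mem_of_eq_of_mem (key ξ h0).2.symm hξ.2))] with ξ' h h'
    exact ⟨(key ξ' h).1, Set.mem_of_eq_of_mem (key ξ' h).2 h'⟩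

omit [IsUltrametricDist K] [CharZero K] in
theorem An.val_eq (ζ : An G) {y : Fn G} {c : K} (h : H.HasVal ζ.pt y c) :
    ζ.sl.ρ y = algebraMap K ζ.H c := by
  have h1 := H.hasVal_iff.1 h
  have h2 := (ζ.sl.ker _ (mem_O_of_mp h1)).2 h1
  rwa [ζ.sl.sub h.mem ((O G _).algebraMap_mem c), ζ.sl.alg, sub_eq_zero] at h2

theorem io_eq {ζ : An G} (h : ζ.pt ∈ W) {e : B G W →ₐ[K] K}
    (he : ∀ b : B G W, H.HasVal ζ.pt (b : Fn G) (e b)) : io hW hg (Sn.of e) = ζ :=
  An_ext_B hW (io_mem hW hg _) h fun b => by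
    rw [io_val, ζ.val_eq (he b), ζ.norm_alg, Sn.of_apply]

theorem io_pt {p : G.left} (h : p ∈ W) {e : B G W →ₐ[K] K}
    (he : ∀ b : B G W, H.HasVal p (b : Fn G) (e b)) : (io hW hg (Sn.of e)).pt = p := by
  refine G1_pt hW (io_mem hW hg _) h fun b => ?_
  have h1 := io_isU hW hg (ξ := Sn.of e) (b := b)
  rw [Sn.of_apply, norm_ne_zero_iff, ← (he b).isU, IsU, IsU,
    and_iff_right (B_le_O (io_mem hW hg _) b.2), and_iff_right (B_le_O h b.2)] at h1
  exact not_iff_not.1 h1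

end Pool.Agent.Work.MP_e120ef_ag.Br
end

-- merged part: Pool.Agent.Work.MP_e120ef_ag.Br.G7
section
/-!
# Connected reduced group schemes are integral; dimension and transcendence degree
-/

open CategoryTheory AlgebraicGeometry TopologicalSpace

namespace Pool.Agent.Work.MP_e120ef_ag.Br

theorem G7_top {T : Type} [TopologicalSpace T] [NoetherianSpace T] [JacobsonSpace T]
    [ConnectedSpace T] (h : ∀ x y : T, IsClosed ({x} : Set T) → IsClosed ({y} : Set T) →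
      ∃ φ : T ≃ₜ T, φ x = y) : IrreducibleSpace T := by
  have hfin := NoetherianSpace.finite_irreducibleComponents (α := T)
  have hcl : ∀ Z, IsClosed (⋃₀ (irreducibleComponents T \ {Z})) := fun Z => by
    rw [Set.sUnion_eq_biUnion]
    exact (hfin.subset Set.sdiff_subset).isClosed_biUnion fun W hW =>
      isClosed_of_mem_irreducibleComponents W hW.1
  obtain ⟨x₀⟩ : Nonempty T := inferInstance
  have hZ := irreducibleComponent_mem_irreducibleComponents x₀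
  set Z := irreducibleComponent x₀
  have h1 : (⋃₀ (irreducibleComponents T \ {Z}))ᶜ.Nonempty := by
    by_contra h2
    rw [Set.nonempty_compl, not_not] at h2
    exact (mem_of_subset_sUnion_irreducibleComponents Z hZ _ (hfin.subset Set.sdiff_subset)
      Set.sdiff_subset ((Set.subset_univ _).trans h2.ge)).2 rfl
  obtain ⟨y, hy, hyc⟩ := nonempty_inter_closedPoints h1 (hcl Z).isOpen_compl.isLocallyClosed
  have h2 : Zᶜ = ⋃₀ (irreducibleComponents T \ {Z}) := by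
    refine Set.Subset.antisymm (fun x hx => ⟨_, ⟨irreducibleComponent_mem_irreducibleComponents x,
      fun e => hx (Set.mem_singleton_iff.1 e ▸ mem_irreducibleComponent)⟩,
      mem_irreducibleComponent⟩) ?_
    rintro x ⟨W, hW, hx⟩ hx'
    obtain ⟨z, hz, hzc⟩ := nonempty_inter_closedPoints (Z := W ∩ Z) ⟨x, hx, hx'⟩
      ((isClosed_of_mem_irreducibleComponents W hW.1).inter
        (isClosed_of_mem_irreducibleComponents Z hZ)).isLocallyClosed
    obtain ⟨φ, hφ⟩ := h y z hyc hzc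
    have h3 : ∀ V ∈ irreducibleComponents T, z ∈ V → φ ⁻¹' V = Z := fun V hV hzV => by
      by_contra h4
      exact hy ⟨_, ⟨preimage_mem_irreducibleComponents hV φ.isOpenEmbedding
        ⟨z, hzV, φ.surjective z⟩, h4⟩, show φ y ∈ V from hφ ▸ hzV⟩
    exact hW.2 (φ.surjective.preimage_injective ((h3 W hW.1 hz.1).trans (h3 Z hZ hz.2).symm))
  have h3 : Z = Set.univ := IsClopen.eq_univ
    ⟨isClosed_of_mem_irreducibleComponents Z hZ, isClosed_compl_iff.1 (h2 ▸ hcl Z)⟩ hZ.1.1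
  exact (irreducibleSpace_def T).2 (show IsIrreducible Set.univ from h3 ▸ hZ.1)

variable {K : Type} [Field K] [IsAlgClosed K] (G : Sch K) [LocallyOfFiniteType G.hom]

theorem grp_integral [GrpObj G] [QuasiCompact G.hom] [ConnectedSpace G.left] [IsReduced G.left] :
    IsIntegral G.left := by
  have := LocallyOfFiniteType.isLocallyNoetherian G.hom
  have := QuasiCompact.compactSpace_of_compactSpace G.hom
  have : IsNoetherian G.left := {}
  have := LocallyOfFiniteType.jacobsonSpace G.hom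
  have := G7_top (T := G.left) fun x y hx hy => by
    obtain ⟨x', rfl⟩ := H.lft_pt hx
    obtain ⟨y', rfl⟩ := H.lft_pt hy
    obtain ⟨g, hg⟩ := exists_tr y' x'
    have : IsIso (tr g).left := inferInstanceAs (IsIso ((Over.forget _).map (tr g)))
    exact ⟨(tr g).left.homeomorph, hg⟩
  exact isIntegral_of_irreducibleSpace_of_isReduced _

omit [IsAlgClosed K] in
theorem dim_le [CharZero K] [IsIntegral G.left] {n : ℕ}
    (hn : (n : Cardinal) = Algebra.trdeg K (Fn G)) : topologicalKrullDim G.left ≤ n := by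
  let _ := specializationOrder G.left
  rw [topologicalKrullDim, Order.krullDim_eq_of_orderIso irreducibleSetEquivPoints,
    Order.krullDim_eq_iSup_coheight]
  refine iSup_le fun x => ?_
  obtain ⟨W, hW, hx, -⟩ := exists_aff (W := ⊤) (x := x) trivial
  have := H.lft_finiteType hW (gp_mem hx)
  obtain ⟨n', ⟨𝒩⟩⟩ := H.exists_ND (B G W) (aff_frac_field hW (gp_mem hx))
  obtain rfl : n = n' := by
    rw [← 𝒩.tb.cardinalMk_eq_trdeg, Cardinal.mk_fin] at hn
    exact_mod_cast hn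
  let _ := (Subalgebra.inclusion (B_le_O hx)).toRingHom.toAlgebra
  have := aff_isLocalization hW hx
  let _ : Algebra (MvPolynomial (Fin n) K) (B G W) := (H.ND.ae 𝒩.ND_z).toAlgebra
  have : Algebra.IsIntegral (MvPolynomial (Fin n) K) (B G W) := ⟨𝒩.ND_int⟩
  have h1 : ringKrullDim (B G W) ≤ ringKrullDim (MvPolynomial (Fin n) K) :=
    Order.krullDim_le_of_strictMono (PrimeSpectrum.comap (algebraMap _ _)) fun I J h =>
      Ideal.IsIntegral.comap_lt_comap (R := MvPolynomial (Fin n) K) h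
  rw [MvPolynomial.ringKrullDim_of_isNoetherianRing, ringKrullDim_eq_zero_of_field, zero_add,
    Nat.card_eq_fintype_card, Fintype.card_fin] at h1
  refine le_trans ?_ h1
  refine le_trans (le_of_eq ?_) (Ideal.height_le_ringKrullDim_of_isPrime (I := pr hx))
  rw [← IsLocalization.AtPrime.ringKrullDim_eq_height (pr hx) (O G x),
    ← ringKrullDim_eq_of_ringEquiv (stalkEquiv G x)]
  exact (ringKrullDim_stalk_eq_coheight x).symm

end Pool.Agent.Work.MP_e120ef_ag.Br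
end

-- merged part: Pool.Agent.Work.MP_e120ef_ag.Br.Base2
section
/-! Shared definitions for the blocks A and C: lines, the filter at a generic point. -/

open Filter Topology Polynomial

namespace Pool.Agent.Work.MP_e120ef_ag.Br

variable (K : Type) [NontriviallyNormedField K] {n : ℕ} {L : Type} [NormedField L]
  [IsUltrametricDist L] [NormedAlgebra K L]

/-- the line through `z₀` with direction `ν` -/
def ln (z₀ ν : Fin n → L) (t : L) : Fin n → L := fun i => z₀ i + t * ν i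

/-- restriction of polynomials to the line -/
noncomputable def lnP (z₀ ν : Fin n → L) : Pl K n →ₐ[K] L[X] :=
  MvPolynomial.aeval fun i => C (z₀ i) + X * C (ν i)

omit [IsUltrametricDist L] in
theorem eval_lnP (z₀ ν : Fin n → L) (P : Pl K n) (t : L) :
    (lnP K z₀ ν P).eval t = MvPolynomial.aeval (ln z₀ ν t) P := by
  induction P using MvPolynomial.induction_on with
  | C c => simp [lnP]
  | add p q hp hq => simp only [map_add, eval_add, hp, hq]
  | mul_X p i hp =>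
    simp only [map_mul, eval_mul, hp, MvPolynomial.aeval_X]
    rw [lnP, MvPolynomial.aeval_X, eval_add, eval_mul, eval_C, eval_C, eval_X, ln]

variable {K} (L)

/-- the points inducing `η`, and the germs of all lines at the points inducing `η` -/
def HH (η : Sn K (Pl K n)) : Filter (Fin n → L) :=
  𝓟 {z | pz K z = η} ⊔ ⨆ (z₀ : Fin n → L) (ν : Fin n → L) (a : L) (ρ : ℝ) (_ : 0 < ρ)
    (_ : ∀ P, gs a ρ (lnP K z₀ ν P) = η P), map (ln z₀ ν) (GG a ρ)

variable {L}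

/-- `Φ` agrees along `HH η` with a function analytic at `η` -/
def KL (η : Sn K (Pl K n)) (Φ : (Fin n → L) → L) : Prop :=
  ∃ φ, Oc 1 η φ ∧ Φ =ᶠ[HH L η] φ

/-- the line through `w` with direction `ν`, parametrised by the coordinate `i₀` if `ν i₀ = 1` -/
def vl (w : Fin n → L) (i₀ : Fin n) (ν : Fin n → K) : L → Fin n → L :=
  ln (fun i => w i - w i₀ * algebraMap K L (ν i)) fun i => algebraMap K L (ν i)

end Pool.Agent.Work.MP_e120ef_ag.Br
end

-- merged part: Pool.Agent.Work.MP_e120ef_ag.Br.V1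
section
/-! V1: division, coefficients, inverses on a disc, growth (owner helper45). -/

set_option linter.unusedSectionVars false

open Filter Topology Polynomial

namespace Pool.Agent.Work.MP_e120ef_ag.Br

variable {L : Type} [NontriviallyNormedField L] [IsUltrametricDist L] [IsAlgClosed L] [Om L]
  {a a' b c t : L} {ρ ρ' r s ε : ℝ} {p q : L[X]} {S E : Set L} {Φ Ψ : L → L}

theorem gs_monic (hρ : 0 ≤ ρ) {v : L[X]} (hv : v.Monic) (hr : ∀ b, v.eval b = 0 → ‖b - a‖ ≤ ρ) :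
    gs a ρ v = ρ ^ v.natDegree := by
  rw [gs, hv.leadingCoeff, norm_one, one_mul, ← IsAlgClosed.card_roots_eq_natDegree,
    Multiset.map_congr rfl (g := fun _ => ρ) fun b hb =>
      max_eq_left (by rw [norm_sub_rev]; exact hr b (isRoot_of_mem_roots hb))]
  simp

theorem V1_lin (hb : ‖b - a‖ ≤ ρ) (w : L[X]) (c : L) :
    gs a ρ w * ρ ≤ gs a ρ (w * (X - C b) + C c) := by
  have h1 := norm_eval_le hb (w * (X - C b) + C c)
  have h2 := gs_sub a ρ (w * (X - C b) + C c) (C c)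
  rw [add_sub_cancel_right, gs_mul, gs_X_sub_C, max_eq_left (by rwa [norm_sub_rev]), gs_C] at h2
  exact h2.trans (max_le le_rfl (by simpa using h1))

/-- division by a distinguished polynomial does not increase norms -/
theorem DM (hρ : 0 ≤ ρ) {v h u : L[X]} (hv : v.Monic) (hr : ∀ b, v.eval b = 0 → ‖b - a‖ ≤ ρ)
    (hu : u.degree < v.degree) :
    gs a ρ h * ρ ^ v.natDegree ≤ gs a ρ (h * v + u) ∧ gs a ρ u ≤ gs a ρ (h * v + u) := by
  suffices k : gs a ρ h * ρ ^ v.natDegree ≤ gs a ρ (h * v + u) by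
    refine ⟨k, ?_⟩
    have := gs_sub a ρ (h * v + u) (h * v)
    rw [add_sub_cancel_left, gs_mul, gs_monic hρ hv hr] at this
    exact this.trans (max_le le_rfl k)
  generalize hn : v.natDegree = n
  induction n generalizing v u with
  | zero =>
    obtain rfl := hv.natDegree_eq_zero.1 hn
    obtain rfl : u = 0 := degree_eq_bot.1 (by simpa using hu)
    simp
  | succ n ih =>
    obtain ⟨b, hb⟩ := IsAlgClosed.exists_root v (natDegree_pos_iff_degree_pos.1 (by omega)).ne'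
    have m := monic_X_sub_C b
    have e1 : (X - C b) * (v /ₘ (X - C b)) = v := mul_divByMonic_eq_iff_isRoot.2 hb
    have e2 := modByMonic_add_div u (X - C b)
    rw [modByMonic_X_sub_C_eq_C_eval] at e2
    have mv : (v /ₘ (X - C b)).Monic := m.of_mul_monic_left (by rw [e1]; exact hv)
    have dv : (v /ₘ (X - C b)).natDegree = n := by
      rw [natDegree_divByMonic _ m, hn, natDegree_X_sub_C]; rfl
    have du : (u /ₘ (X - C b)).degree < (v /ₘ (X - C b)).degree := by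
      by_cases z : u /ₘ (X - C b) = 0
      · rw [z, degree_zero]; exact bot_lt_iff_ne_bot.2 (degree_ne_bot.2 mv.ne_zero)
      have u0 : u ≠ 0 := fun k => z (by rw [k, zero_divByMonic])
      have h1 := natDegree_lt_natDegree u0 hu
      have h2 : ¬u.degree < (X - C b).degree := fun k => z ((divByMonic_eq_zero_iff m).2 k)
      have h3 := natDegree_le_natDegree (not_lt.1 h2)
      refine degree_lt_degree ?_
      rw [natDegree_divByMonic _ m, dv]
      rw [natDegree_X_sub_C] at h3 ⊢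
      omega
    have k1 := ih mv (fun c hc => hr c (by rw [← e1, eval_mul, hc, mul_zero])) du dv
    have k2 := V1_lin (hr b hb) (h * (v /ₘ (X - C b)) + u /ₘ (X - C b)) (u.eval b)
    have e3 : (h * (v /ₘ (X - C b)) + u /ₘ (X - C b)) * (X - C b) + C (u.eval b) = h * v + u := by
      linear_combination h * e1 + e2
    rw [e3] at k2
    rw [pow_succ, ← mul_assoc]
    exact (mul_le_mul_of_nonneg_right k1 hρ).trans k2

theorem coeff_le_gs (hρ : 0 ≤ ρ) (p : L[X]) (k : ℕ) : ‖p.coeff k‖ * ρ ^ k ≤ gs 0 ρ p := by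
  induction k generalizing p with
  | zero => simpa [coeff_zero_eq_eval_zero] using norm_eval_le (a := 0) (t := 0) (by simpa) p
  | succ k ih =>
    have h1 := V1_lin (a := (0 : L)) (b := 0) (ρ := ρ) (by simpa) p.divX (p.coeff 0)
    rw [C_0, sub_zero, divX_mul_X_add] at h1
    rw [← coeff_divX, pow_succ, ← mul_assoc]
    exact (mul_le_mul_of_nonneg_right (ih _) hρ).trans h1

theorem gs_le_of_coeff (hρ : 0 ≤ ρ) {M : ℝ} (h : ∀ k, ‖p.coeff k‖ * ρ ^ k ≤ M) : gs 0 ρ p ≤ M := by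
  rw [p.as_sum_support_C_mul_X_pow]
  refine gs_sum_le (le_trans (by positivity) (h 0)) fun k _ => ?_
  have := gs_X_sub_C (0 : L) ρ 0
  rw [C_0, sub_zero, sub_zero, norm_zero, max_eq_left hρ] at this
  rw [gs_mul, gs_C, gs_pow, this]
  exact h k

theorem exists_coeff_eq_gs (hρ : 0 ≤ ρ) (p : L[X]) : ∃ k, ‖p.coeff k‖ * ρ ^ k = gs 0 ρ p := by
  obtain ⟨k, -, hk⟩ := (Finset.range (p.natDegree + 1)).exists_max_image
    (fun k => ‖p.coeff k‖ * ρ ^ k) ⟨0, by simp⟩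
  refine ⟨k, le_antisymm (coeff_le_gs hρ p k) (gs_le_of_coeff hρ fun i => ?_)⟩
  rcases le_or_gt i p.natDegree with h | h
  · exact hk i (Finset.mem_range.2 (by omega))
  · rw [coeff_eq_zero_of_natDegree_lt h, norm_zero, zero_mul]; positivity

/-- a monic polynomial with integral coefficients has integral roots -/
theorem root_le_one {v : L[X]} (hv : v.Monic) (h : ∀ k, ‖v.coeff k‖ ≤ 1) (hb : v.eval b = 0) :
    ‖b‖ ≤ 1 := by
  have e1 : (X - C b) * (v /ₘ (X - C b)) = v := mul_divByMonic_eq_iff_isRoot.2 hb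
  have mv : (v /ₘ (X - C b)).Monic := (monic_X_sub_C b).of_mul_monic_left (by rw [e1]; exact hv)
  have h1 : gs 0 1 v ≤ 1 := gs_le_of_coeff zero_le_one fun k => by simpa using h k
  have h2 := coeff_le_gs zero_le_one (v /ₘ (X - C b)) (v /ₘ (X - C b)).natDegree
  rw [mv.coeff_natDegree, norm_one, one_pow, one_mul] at h2
  rw [← e1, gs_mul, gs_X_sub_C, zero_sub, norm_neg] at h1
  nlinarith [le_max_right 1 ‖b‖, norm_nonneg b]

theorem norm_eval_of_ne (h : ∀ t, ‖t - a‖ ≤ ρ → q.eval t ≠ 0) (ht : ‖t - a‖ ≤ ρ) :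
    ‖q.eval t‖ = gs a ρ q :=
  norm_eval_eq ht fun b hb => by
    have k : ρ < ‖a - b‖ := by
      rw [norm_sub_rev]; exact not_le.1 fun k => h b k hb
    rw [V0_eq (ht.trans_lt k)]
    exact k.le

theorem NR (hρ : 0 ≤ ρ) (h : ∀ t, ‖t - a‖ ≤ ρ → q.eval t ≠ 0) :
    gs a ρ (q - C (q.eval a)) < ‖q.eval a‖ := by
  refine poly_ind' (P := fun q => gs a ρ (q - C (q.eval a)) < ‖q.eval a‖) (Z := {b | ρ < ‖b - a‖})
    (fun c hc => by simpa [gs_zero] using hc) (fun b hb => ?_) (fun p q h1 h2 => ?_)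
    (fun e => h a (by simpa) (by simp [e])) fun b hb => not_le.1 fun k => h b k hb
  · have : (X - C b - C (eval a (X - C b)) : L[X]) = X - C a := by simp
    rw [this, gs_X_sub_C, sub_self, norm_zero, max_eq_left hρ]
    simpa [norm_sub_rev a b] using hb
  · have e : gs a ρ q = ‖q.eval a‖ := by
      have := gs_add_eq (a := a) (ρ := ρ) (p := C (q.eval a)) (q := q - C (q.eval a))
        (by rwa [gs_C])
      rwa [add_sub_cancel, gs_C] at this
    have e2 : p * q - C (eval a (p * q)) =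
        (p - C (p.eval a)) * q + C (p.eval a) * (q - C (q.eval a)) := by
      rw [eval_mul, C_mul]; ring
    rw [e2, eval_mul, norm_mul]
    refine (gs_add _ _ _ _).trans_lt (max_lt ?_ ?_)
    · rw [gs_mul, e]
      exact mul_lt_mul_of_pos_right h1 ((gs_nonneg _ _ _).trans_lt h2)
    · rw [gs_mul, gs_C]
      exact mul_lt_mul_of_pos_left h2 ((gs_nonneg _ _ _).trans_lt h1)

theorem RP (hρ : 0 ≤ ρ) (h : ∀ t, ‖t - a‖ ≤ ρ → q.eval t ≠ 0) (hε : 0 < ε) :
    ∃ g : L[X], gs a ρ (1 - g * q) ≤ ε := by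
  have c0 : q.eval a ≠ 0 := h a (by simpa)
  have e : (1 - C (q.eval a)⁻¹ * q : L[X]) = -(C (q.eval a)⁻¹ * (q - C (q.eval a))) := by
    rw [mul_sub, ← C_mul, inv_mul_cancel₀ c0, C_1]; ring
  have h1 : gs a ρ (1 - C (q.eval a)⁻¹ * q) < 1 := by
    rw [e, gs_neg, gs_mul, gs_C, norm_inv, inv_mul_lt_iff₀ (norm_pos_iff.2 c0), mul_one]
    exact NR hρ h
  obtain ⟨N, hN⟩ := exists_pow_lt_of_lt_one hε h1
  refine ⟨C (q.eval a)⁻¹ * ∑ i ∈ Finset.range N, (1 - C (q.eval a)⁻¹ * q) ^ i, ?_⟩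
  rw [← gs_pow] at hN
  refine le_trans (le_of_eq (congrArg _ ?_)) hN.le
  linear_combination -(mul_neg_geom_sum (1 - C (q.eval a)⁻¹ * q) N)

theorem gs_growth (hr : 0 < r) (h : r ≤ s) (p : L[X]) :
    gs a s p ≤ gs a r p * (s / r) ^ p.natDegree := by
  by_cases hp : p = 0
  · simp [hp, gs_zero]
  have one : 1 ≤ s / r := (one_le_div hr).2 h
  refine (poly_ind' (P := fun p => p ≠ 0 ∧ gs a s p ≤ gs a r p * (s / r) ^ p.natDegree)
    (Z := Set.univ) (fun c hc => ⟨C_ne_zero.2 hc, by simp [gs_C]⟩)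
    (fun b _ => ⟨X_sub_C_ne_zero b, ?_⟩) (fun p q h1 h2 => ⟨mul_ne_zero h1.1 h2.1, ?_⟩) hp
    fun _ _ => trivial).2
  · rw [gs_X_sub_C, gs_X_sub_C, natDegree_X_sub_C, pow_one]
    refine max_le ?_ ((le_max_right r _).trans
      (le_mul_of_one_le_right (hr.le.trans (le_max_left _ _)) one))
    calc s = r * (s / r) := by field_simp
      _ ≤ _ := mul_le_mul_of_nonneg_right (le_max_left _ _) (by linarith)
  · rw [gs_mul, gs_mul, natDegree_mul h1.1 h2.1, pow_add, mul_mul_mul_comm]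
    exact mul_le_mul h1.2 h2.2 (gs_nonneg _ _ _) ((gs_nonneg _ _ _).trans h1.2)

/-- Schwarz lemma -/
theorem norm_sub_eval_le (hr : 0 < r) (ht : ‖t - a‖ ≤ r) (p : L[X]) :
    ‖p.eval t - p.eval a‖ ≤ gs a r p * (‖t - a‖ / r) := by
  have e2 := modByMonic_add_div p (X - C a)
  rw [modByMonic_X_sub_C_eq_C_eval] at e2
  have k := V1_lin (a := a) (b := a) (ρ := r) (by simpa using hr.le) (p /ₘ (X - C a)) (p.eval a)
  rw [add_comm, mul_comm _ (X - C a), e2] at k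
  have e3 : p.eval t - p.eval a = (p /ₘ (X - C a)).eval t * (t - a) := by
    conv_lhs => rw [← e2]
    simp [mul_comm]
  rw [e3, norm_mul, ← mul_div_assoc, le_div_iff₀ hr, mul_right_comm]
  exact mul_le_mul_of_nonneg_right
    ((mul_le_mul_of_nonneg_right (norm_eval_le ht _) hr.le).trans k) (norm_nonneg _)

/-- the factor of `q` with roots in the disc -/
theorem exists_factor (hq : q ≠ 0) (Z : Set L) : ∃ v q₂ : L[X], v.Monic ∧ q = v * q₂ ∧
    (∀ b, v.eval b = 0 → b ∈ Z) ∧ ∀ b ∈ Z, q₂.eval b ≠ 0 := by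
  refine poly_ind' (P := fun q => ∃ v q₂ : L[X], v.Monic ∧ q = v * q₂ ∧
    (∀ b, v.eval b = 0 → b ∈ Z) ∧ ∀ b ∈ Z, q₂.eval b ≠ 0) (Z := Set.univ)
    (fun c hc => ⟨1, C c, monic_one, by simp, by simp, by simp [hc]⟩) (fun b _ => ?_) ?_ hq
    fun _ _ => trivial
  · by_cases h : b ∈ Z
    · exact ⟨X - C b, 1, monic_X_sub_C b, by simp, fun c hc => by
        rwa [show c = b by simpa [sub_eq_zero] using hc], by simp⟩
    · exact ⟨1, X - C b, monic_one, by simp, by simp, fun c hc e => h (by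
        rwa [show c = b by simpa [sub_eq_zero] using e] at hc)⟩
  · rintro _ _ ⟨v, q, h1, rfl, h3, h4⟩ ⟨v', q', k1, rfl, k3, k4⟩
    exact ⟨v * v', q * q', h1.mul k1, by ring, fun b hb => by
      rw [eval_mul, mul_eq_zero] at hb; exact hb.elim (h3 b) (k3 b), fun b hb => by
      rw [eval_mul]; exact mul_ne_zero (h4 b hb) (k4 b hb)⟩

theorem gs_le_of_circle (hρ : 0 < ρ) (hE : E.Finite)
    (h : ∀ t, ‖t - a‖ = ρ → t ∉ E → ‖p.eval t‖ ≤ ε) : gs a ρ p ≤ ε := by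
  obtain ⟨t, h1, h2, h3⟩ := GP1 a hρ hE p
  exact h3 ▸ h t h2 h1

theorem Mer.cp (hr : 0 ≤ r) (h : Mer Φ {t | ‖t - a‖ ≤ r}) :
    ∃ B : L[X], B ≠ 0 ∧ ∃ E : Set L, E.Finite ∧ CP a r E fun t => B.eval t * Φ t := by
  obtain ⟨B, hB, E, hE, k⟩ := h
  refine ⟨B, hB, E, hE, fun ε hε => ?_⟩
  obtain ⟨p, q, k1, k2⟩ := k ε hε
  have q0 : 0 < gs a r q := by
    rw [← norm_eval_of_ne (t := a) k1 (by simpa)]
    exact norm_pos_iff.2 (k1 a (by simpa))
  have p0 := gs_nonneg a r p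
  obtain ⟨g, hg⟩ := RP hr k1 (ε := ε * gs a r q / (gs a r p + 1)) (by positivity)
  refine ⟨p * g, fun t ht hE => (V0_tri _ (p.eval t / q.eval t) _).trans (max_le (k2 t ht hE) ?_)⟩
  have e : p.eval t / q.eval t - (p * g).eval t = p.eval t * (1 - g * q).eval t / q.eval t := by
    have := k1 t ht
    simp only [eval_mul, eval_sub, eval_one]
    field_simp
  rw [e, norm_div, norm_mul, norm_eval_of_ne k1 ht, div_le_iff₀ q0]
  refine (mul_le_mul (norm_eval_le ht p) ((norm_eval_le ht _).trans hg) (norm_nonneg _) p0).trans ?_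
  rw [← mul_div_assoc, div_le_iff₀ (by positivity)]
  nlinarith [mul_pos hε q0]

theorem CP.mer (hE : E.Finite) (h : CP a r E Φ) : Mer Φ {t | ‖t - a‖ ≤ r} :=
  ⟨1, one_ne_zero, E, hE, fun ε hε => let ⟨p, k⟩ := h ε hε
    ⟨p, 1, by simp, fun t ht m => by simpa using k t ht m⟩⟩

theorem CP.bdd (h : CP a r E Φ) : ∃ M, ∀ t, ‖t - a‖ ≤ r → t ∉ E → ‖Φ t‖ ≤ M := by
  obtain ⟨p, k⟩ := h 1 one_pos
  refine ⟨max 1 (gs a r p), fun t ht m => ?_⟩
  have := V0_tri (Φ t) (p.eval t) 0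
  rw [sub_zero, sub_zero] at this
  exact this.trans (max_le_max (k t ht m) (norm_eval_le ht p))

end Pool.Agent.Work.MP_e120ef_ag.Br
end

-- merged part: Pool.Agent.Work.MP_e120ef_ag.Br.V2
section
/-! V2 FILL. Plan: B1, E1, approximants p/q of B1 Phi on S; `Mer.cp` gives B2, E2 and polynomials p'
for B2 Phi on the disc D.  B = B1 B2, E = E1 u E2; P = B2 p, P' = B1 p' (S and D bounded:
`norm_eval_le`), so |B Phi - P/q| <= e on S - E, |B Phi - P'| <= e on D - E.  `exists_factor`: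
q = v q2, v monic with roots in D, q2 without root in D; IsCoprime v q2 (no common root), so
P = u q2 + p2 v with deg u < deg v (modByMonic).  g = gs b r.  W = P - P' q has g W <= e g v g q2
(`GP2` on the circle).  `RP` with 1/2: g (1 - h q2) <= 1/2, so g h g q2 = 1 (`gs_add_eq`), and
(p2 - P' q2) h v + u = W h + u (1 - h q2); `DM` gives g u <= max (e g v) (g u / 2), so
g u <= e g v, then g (p2 - P' q2) <= e g q2 from (p2 - P' q2) v = W - u q2.  New approximant p2/q2: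
on D use `norm_eval_le`, `norm_eval_of_ne`; for |t-b| = s > r: |v t| = s^deg v (`norm_eval_eq`,
`gs_monic`), |u t| <= gs b s u <= g u (s/r)^deg u (`gs_growth`), so |u/v| <= g u / g v <= e. -/

set_option linter.unusedSectionVars false

open Filter Topology Polynomial

namespace Pool.Agent.Work.MP_e120ef_ag.Br

variable {L : Type} [NontriviallyNormedField L] [IsUltrametricDist L] [IsAlgClosed L] [Om L]
  {a a' b c t : L} {ρ ρ' r s ε : ℝ} {p q : L[X]} {S E : Set L} {Φ Ψ : L → L}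

theorem V2_tri {x y z : L} (h : ‖x - y‖ ≤ ε) (h' : ‖y - z‖ ≤ ε) : ‖x - z‖ ≤ ε := by
  rw [← sub_add_sub_cancel x y z]
  exact (IsUltrametricDist.norm_add_le_max _ _).trans (max_le h h')

theorem V2_split {v q₂ : L[X]} (hv : v.Monic) (h : ∀ t, v.eval t = 0 → q₂.eval t ≠ 0) (P : L[X]) :
    ∃ u p₂ : L[X], u.degree < v.degree ∧ P = u * q₂ + p₂ * v := by
  obtain ⟨α, β, e⟩ : IsCoprime v q₂ :=
    (isCoprime_iff_aeval_ne_zero_of_isAlgClosed L L v q₂).2 fun t => by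
      simp only [coe_aeval_eq_eval]
      exact (em _).symm.imp_right (h t)
  refine ⟨P * β %ₘ v, P * α + P * β /ₘ v * q₂, degree_modByMonic_lt _ hv, ?_⟩
  have := modByMonic_add_div (P * β) v
  linear_combination (-q₂) * this - P * e

theorem V2_gs (hr : 0 < r) (hε : 0 ≤ ε) {v q₂ u w : L[X]} (hv : v.Monic)
    (h1 : ∀ t, v.eval t = 0 → ‖t - b‖ ≤ r) (h2 : ∀ t, ‖t - b‖ ≤ r → q₂.eval t ≠ 0)
    (hu : u.degree < v.degree) (hW : gs b r (u * q₂ + w * v) ≤ ε * gs b r v * gs b r q₂) :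
    gs b r u ≤ ε * gs b r v ∧ gs b r w ≤ ε * gs b r q₂ := by
  obtain ⟨h, hh⟩ := RP hr.le h2 (ε := 1 / 2) one_half_pos
  have pv := gs_pos (a := b) hr hv.ne_zero
  have e1 : gs b r h * gs b r q₂ = 1 := by
    have := gs_add_eq (a := b) (ρ := r) (p := 1) (q := -(1 - h * q₂))
      (by rw [gs_neg, gs_one]; linarith)
    rwa [show (1 : L[X]) + -(1 - h * q₂) = h * q₂ by ring, gs_mul, gs_one] at this
  have k1 := (DM (h := w * h) hr.le hv h1 hu).2
  rw [show w * h * v + u = (u * q₂ + w * v) * h + u * (1 - h * q₂) by ring] at k1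
  have k2 := k1.trans (gs_add _ _ _ _)
  rw [gs_mul, gs_mul] at k2
  have n1 := gs_nonneg b r u
  have k3 : gs b r (u * q₂ + w * v) * gs b r h ≤ ε * gs b r v := by
    refine (mul_le_mul_of_nonneg_right hW (gs_nonneg b r h)).trans_eq ?_
    rw [mul_assoc, mul_comm (gs b r q₂), e1, mul_one]
  have k4 : gs b r u ≤ ε * gs b r v := by
    rcases le_max_iff.1 k2 with k | k
    · exact k.trans k3
    · have := mul_le_mul_of_nonneg_left hh n1
      have := mul_nonneg hε pv.le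
      linarith
  refine ⟨k4, le_of_mul_le_mul_right ?_ pv⟩
  rw [← gs_mul, show w * v = (u * q₂ + w * v) - u * q₂ by ring, mul_right_comm]
  refine (gs_sub _ _ _ _).trans (max_le hW ?_)
  rw [gs_mul]
  exact mul_le_mul_of_nonneg_right k4 (gs_nonneg _ _ _)

theorem V2_out (hr : 0 < r) (hε : 0 ≤ ε) {v u : L[X]} (hv : v.Monic)
    (h1 : ∀ t, v.eval t = 0 → ‖t - b‖ ≤ r) (hu : u.degree < v.degree)
    (h : gs b r u ≤ ε * gs b r v) (ht : r < ‖t - b‖) : ‖u.eval t / v.eval t‖ ≤ ε := by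
  have ps := hr.trans ht
  have e1 : ‖v.eval t‖ = ‖t - b‖ ^ v.natDegree := by
    rw [← gs_monic ps.le hv fun c hc => (h1 c hc).trans ht.le]
    refine norm_eval_eq le_rfl fun c hc => ?_
    have := IsUltrametricDist.norm_add_le_max (t - c) (c - b)
    rw [sub_add_sub_cancel] at this
    exact (le_max_iff.1 this).resolve_right (not_le.2 ((h1 c hc).trans_lt ht))
  rw [norm_div, e1, div_le_iff₀ (pow_pos ps _)]
  refine ((norm_eval_le le_rfl u).trans (gs_growth hr ht.le u)).trans ?_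
  rw [gs_monic hr.le hv h1] at h
  refine (mul_le_mul h (pow_le_pow_right₀ ((one_le_div hr).2 ht.le) (natDegree_le_natDegree hu.le))
    (by positivity) (by positivity)).trans_eq ?_
  rw [mul_assoc, ← mul_pow, mul_div_cancel₀ _ hr.ne']

theorem V2_core (hr : 0 < r) (hε : 0 ≤ ε) (hE : E.Finite) (hc : ∀ t, ‖t - b‖ = r → t ∈ S)
    {P : L[X]} (h : Ap Ψ S E ε p q) (h' : ∀ t, ‖t - b‖ ≤ r → t ∉ E → ‖Ψ t - P.eval t‖ ≤ ε) :
    ∃ p₂ q₂, Ap Ψ (S ∪ {t | ‖t - b‖ ≤ r}) E ε p₂ q₂ := by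
  obtain ⟨t₀, t1, t2, t3, t4⟩ := GP2 b hr hE (p - P * q) q
  have n0 := h.1 t₀ (hc _ t2)
  obtain ⟨v, q₂, hv, rfl, h1, h2⟩ :=
    exists_factor (q := q) (fun e => n0 (by rw [e, eval_zero])) {t | ‖t - b‖ ≤ r}
  obtain ⟨u, p₂, hu, rfl⟩ := V2_split hv (fun t k => h2 t (h1 t k)) p
  have hW : gs b r (u * q₂ + (p₂ - P * q₂) * v) ≤ ε * gs b r v * gs b r q₂ := by
    have k := V2_tri ((norm_sub_rev _ _).trans_le (h.2 t₀ (hc _ t2) t1)) (h' t₀ t2.le t1)
    rw [div_sub' n0, norm_div, div_le_iff₀ (norm_pos_iff.2 n0), t4, gs_mul, ← mul_assoc] at k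
    rw [show u * q₂ + (p₂ - P * q₂) * v = u * q₂ + p₂ * v - P * (v * q₂) by ring, ← t3, eval_sub,
      eval_mul (p := P), mul_comm (eval t₀ P)]
    exact k
  obtain ⟨k1, k2⟩ := V2_gs hr hε hv h1 h2 hu hW
  refine ⟨p₂, q₂, fun t ht => ht.elim (fun k e => h.1 t k (by rw [eval_mul, e, mul_zero])) (h2 t),
    fun t ht hE => ?_⟩
  rcases le_or_gt ‖t - b‖ r with l | l
  · refine V2_tri (h' t l hE) ?_
    rw [norm_sub_rev, div_sub' (h2 t l), norm_div, div_le_iff₀ (norm_pos_iff.2 (h2 t l)),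
      norm_eval_of_ne h2 l, mul_comm (eval t q₂), ← eval_mul, ← eval_sub]
    exact (norm_eval_le l _).trans k2
  · have hS : t ∈ S := ht.resolve_right (not_le.2 l)
    refine V2_tri (h.2 t hS hE) ?_
    have n1 := h.1 t hS
    rw [eval_mul, mul_ne_zero_iff] at n1
    have e : eval t (u * q₂ + p₂ * v) / eval t (v * q₂) - eval t p₂ / eval t q₂ =
        eval t u / eval t v := by
      have := n1.1
      have := n1.2
      simp only [eval_add, eval_mul]
      field_simp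
      ring
    rw [e]
    exact V2_out hr hε hv h1 hu k1 l

theorem V2_mul {x y : L} {M : ℝ} (hε : 0 < ε) (hx : ‖x‖ ≤ M) (hy : ‖y‖ ≤ ε / (M + 1)) :
    ‖x * y‖ ≤ ε := by
  have h0 := (norm_nonneg x).trans hx
  rw [norm_mul]
  refine (mul_le_mul (hx.trans (le_add_of_nonneg_right zero_le_one)) hy (norm_nonneg _)
    (by positivity)).trans_eq ?_
  field_simp

theorem FILL {R : ℝ} (hr : 0 < r) (hb : ∀ t ∈ S, ‖t - b‖ ≤ R) (hc : ∀ t, ‖t - b‖ = r → t ∈ S)
    (h : Mer Φ S) (h' : Mer Φ {t | ‖t - b‖ ≤ r}) : Mer Φ (S ∪ {t | ‖t - b‖ ≤ r}) := by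
  obtain ⟨B₁, n1, E₁, f1, k1⟩ := h
  obtain ⟨B₂, n2, E₂, f2, k2⟩ := h'.cp hr.le
  refine mer_iff.2 ⟨B₁ * B₂, mul_ne_zero n1 n2, E₁ ∪ E₂, f1.union f2, fun ε hε => ?_⟩
  have := gs_nonneg b R B₂
  have := gs_nonneg b r B₁
  obtain ⟨p, q, m1, m2⟩ := k1 (ε / (gs b R B₂ + 1)) (by positivity)
  obtain ⟨P, m3⟩ := k2 (ε / (gs b r B₁ + 1)) (by positivity)
  refine V2_core (p := B₂ * p) (q := q) (P := B₁ * P) hr hε.le (f1.union f2) hc
    ⟨m1, fun t ht hE => ?_⟩ fun t ht hE => ?_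
  · have := V2_mul hε (norm_eval_le (hb t ht) B₂) (m2 t ht fun k => hE (Or.inl k))
    convert this using 2
    simp only [eval_mul]
    ring
  · have := V2_mul hε (norm_eval_le ht B₁) (m3 t ht fun k => hE (Or.inr k))
    convert this using 2
    simp only [eval_mul]
    ring

end Pool.Agent.Work.MP_e120ef_ag.Br
end

-- merged part: Pool.Agent.Work.MP_e120ef_ag.Br.V3
section
/-! V3 oneV. Plan: a pair (x, s), s >= 0, is bad if not Mer on the closed disc.  Suppose (a, r) bad.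
Step: for a bad (x, s) and k there is a bad (x', s') with |x' - x| <= s, s' <= s, such that every bad
(y, u) with |y - x| <= s, u <= s has s' < u + 1/(k+1) (sInf of the radii).  Recursion gives nested
discs (a_k, r_k); `Om.sph` gives x in all of them; rho = iInf r_k.  S in FF x rho with Mer Phi S.
rho <= 0: `FF_basis_nonpos`, some r_k < R, `Mer.mono`.  rho > 0: `FF_basis` (r', R, J); pick s in
(r', rho) different from all |b - b'| (b, b' in J; Ioo is infinite) and k with r_k < R and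
s + 1/(k+1) < rho; the discs (b, s), b in J, are not bad; the circle |t-b| = s lies in
S0 = {|t-x| <= r_k, |t-b'| > r' for b' in J}; Finset induction with `FILL` gives Mer on
S0 u (union of the discs), which contains the disc (x, r_k) = disc (a_k, r_k). -/

set_option linter.unusedSectionVars false

open Filter Topology Polynomial

namespace Pool.Agent.Work.MP_e120ef_ag.Br

variable {L : Type} [NontriviallyNormedField L] [IsUltrametricDist L] [IsAlgClosed L] [Om L]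
  {a a' b c t : L} {ρ ρ' r s ε : ℝ} {p q : L[X]} {S E : Set L} {Φ Ψ : L → L}

theorem V3_tri {x y z : L} {u : ℝ} (h1 : ‖x - y‖ ≤ u) (h2 : ‖y - z‖ ≤ u) : ‖x - z‖ ≤ u := by
  have := IsUltrametricDist.norm_add_le_max (x - y) (y - z)
  rw [sub_add_sub_cancel] at this
  exact this.trans (max_le h1 h2)

/-- the closed disc on which `Φ` is not meromorphic -/
def V3_Bad (Φ : L → L) (x : L) (s : ℝ) : Prop := 0 ≤ s ∧ ¬ Mer Φ {t | ‖t - x‖ ≤ s}

theorem V3_step {x : L} (hx : V3_Bad Φ x s) (k : ℕ) : ∃ x' s', V3_Bad Φ x' s' ∧ ‖x' - x‖ ≤ s ∧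
    s' ≤ s ∧ ∀ y u, V3_Bad Φ y u → ‖y - x‖ ≤ s → u ≤ s → s' < u + 1 / ((k : ℝ) + 1) := by
  set T : Set ℝ := {u | ∃ y, V3_Bad Φ y u ∧ ‖y - x‖ ≤ s ∧ u ≤ s} with hT
  have hne : T.Nonempty := ⟨s, x, hx, by simpa using hx.1, le_rfl⟩
  have hb : BddBelow T := ⟨0, fun u ⟨_, hy, _⟩ => hy.1⟩
  have hk : (0 : ℝ) < 1 / ((k : ℝ) + 1) := by positivity
  obtain ⟨u', ⟨y', h1, h2, h3⟩, h4⟩ := Real.lt_sInf_add_pos hne hk
  refine ⟨y', u', h1, h2, h3, fun y u k1 k2 k3 => ?_⟩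
  have := csInf_le hb (show u ∈ T from ⟨y, k1, k2, k3⟩)
  linarith

theorem V3_seq (ha : V3_Bad Φ a r) : ∃ (c : ℕ → L) (w : ℕ → ℝ), c 0 = a ∧ w 0 = r ∧
    (∀ k, V3_Bad Φ (c k) (w k)) ∧ (∀ k, ‖c (k + 1) - c k‖ ≤ w k) ∧ (∀ k, w (k + 1) ≤ w k) ∧
    ∀ k y u, V3_Bad Φ y u → ‖y - c k‖ ≤ w k → u ≤ w k → w (k + 1) < u + 1 / ((k : ℝ) + 1) := by
  have h (z : {z : L × ℝ // V3_Bad Φ z.1 z.2}) (k : ℕ) :
      ∃ z' : {z : L × ℝ // V3_Bad Φ z.1 z.2}, ‖z'.1.1 - z.1.1‖ ≤ z.1.2 ∧ z'.1.2 ≤ z.1.2 ∧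
        ∀ y u, V3_Bad Φ y u → ‖y - z.1.1‖ ≤ z.1.2 → u ≤ z.1.2 →
          z'.1.2 < u + 1 / ((k : ℝ) + 1) := by
    obtain ⟨x', s', h1, h2⟩ := V3_step z.2 k
    exact ⟨⟨(x', s'), h1⟩, h2⟩
  choose f hf using h
  let z : ℕ → {z : L × ℝ // V3_Bad Φ z.1 z.2} := fun k => Nat.rec ⟨(a, r), ha⟩ (fun k z => f z k) k
  exact ⟨fun k => (z k).1.1, fun k => (z k).1.2, rfl, rfl, fun k => (z k).2,
    fun k => (hf (z k) k).1, fun k => (hf (z k) k).2.1, fun k => (hf (z k) k).2.2⟩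

theorem V3_fill {x : L} {R : ℝ} {S₀ : Set L} (hs : 0 < s) (hsR : s ≤ R) (h0 : Mer Φ S₀)
    (hb : ∀ t ∈ S₀, ‖t - x‖ ≤ R) (J : Finset L) (hJ : ∀ b ∈ J, ‖b - x‖ ≤ R)
    (hc : ∀ b ∈ J, ∀ t, ‖t - b‖ = s → t ∈ S₀) (hm : ∀ b ∈ J, Mer Φ {t | ‖t - b‖ ≤ s}) :
    ∃ S', S₀ ⊆ S' ∧ (∀ t ∈ S', ‖t - x‖ ≤ R) ∧ Mer Φ S' ∧ ∀ b ∈ J, ∀ t, ‖t - b‖ ≤ s → t ∈ S' := by
  classical
  induction J using Finset.induction_on with
  | empty => exact ⟨S₀, subset_rfl, hb, h0, by simp⟩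
  | insert b J _ ih =>
    obtain ⟨S', h1, h2, h3, h4⟩ := ih (fun b hb => hJ b (Finset.mem_insert_of_mem hb))
      (fun b hb => hc b (Finset.mem_insert_of_mem hb))
      (fun b hb => hm b (Finset.mem_insert_of_mem hb))
    have hb' := hJ b (Finset.mem_insert_self _ _)
    refine ⟨S' ∪ {t | ‖t - b‖ ≤ s}, h1.trans Set.subset_union_left, ?_, ?_, ?_⟩
    · rintro t (ht | ht)
      · exact h2 t ht
      · exact V3_tri (le_trans ht hsR) hb'
    · refine FILL (R := R) hs (fun t ht => V3_tri (h2 t ht) (by rwa [norm_sub_rev]))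
        (fun t ht => h1 (hc b (Finset.mem_insert_self _ _) t ht)) h3
        (hm b (Finset.mem_insert_self _ _))
    · intro b' hb' t ht
      rcases Finset.mem_insert.mp hb' with rfl | hb'
      · exact Or.inr ht
      · exact Or.inl (h4 b' hb' t ht)

theorem oneV' (hr : 0 ≤ r) (h : ∀ x ρ, ‖x - a‖ ≤ r → 0 ≤ ρ → ρ ≤ r → LH x ρ Φ) :
    Mer Φ {t | ‖t - a‖ ≤ r} := by
  classical
  by_contra hbad
  obtain ⟨c, w, hc0, hw0, hB, hcs, hws, hmin⟩ := V3_seq (Φ := Φ) (a := a) ⟨hr, hbad⟩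
  have hwa : Antitone w := antitone_nat_of_succ_le hws
  obtain ⟨x, hx⟩ := Om.sph (L := L) c w (fun k => (hB k).1) (antitone_nat_of_succ_le fun k t ht => by
    rw [Metric.mem_closedBall, dist_eq_norm] at ht ⊢
    exact V3_tri (ht.trans (hws k)) (hcs k))
  simp only [Metric.mem_closedBall, dist_eq_norm] at hx
  have hbd : BddBelow (Set.range w) := ⟨0, fun _ ⟨k, hk⟩ => hk ▸ (hB k).1⟩
  set ρ := ⨅ k, w k with hρ
  have hρ0 : 0 ≤ ρ := le_ciInf fun k => (hB k).1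
  have hρw (k : ℕ) : ρ ≤ w k := ciInf_le hbd k
  have hfin (k : ℕ) {S' : Set L} (hS' : Mer Φ S') (hk : ∀ t, ‖t - x‖ ≤ w k → t ∈ S') : False :=
    (hB k).2 (hS'.mono fun t ht => hk t (V3_tri ht (by rw [norm_sub_rev]; exact hx k)))
  obtain ⟨S, hS, hM⟩ := h x ρ (hc0 ▸ hw0 ▸ hx 0) hρ0 (hw0 ▸ hρw 0)
  rcases le_or_gt ρ 0 with h0 | h0
  · obtain ⟨R, hR, hRS⟩ := FF_basis_nonpos h0 hS
    obtain ⟨k, hk⟩ := exists_lt_of_ciInf_lt (f := w) (h0.trans_lt hR)
    exact hfin k hM fun t ht => hRS t (ht.trans hk.le)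
  · obtain ⟨r', R, J, h1, h2, h3, h4, h5⟩ := FF_basis h0 hS
    obtain ⟨s, ⟨hs1, hs2⟩, hs3⟩ := (Set.Ioo_infinite h2).exists_notMem_finset
      ((J ×ˢ J).image fun z => ‖z.1 - z.2‖)
    obtain ⟨k₁, hk₁⟩ := exists_lt_of_ciInf_lt (f := w) h3
    obtain ⟨k₂, hk₂⟩ := exists_nat_one_div_lt (sub_pos.mpr hs2)
    have hkR : w (k₁ + k₂) < R := (hwa (Nat.le_add_right _ _)).trans_lt hk₁
    have hks : s + 1 / (((k₁ + k₂ : ℕ) : ℝ) + 1) < ρ := by
      have : 1 / (((k₁ + k₂ : ℕ) : ℝ) + 1) ≤ 1 / ((k₂ : ℝ) + 1) :=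
        one_div_le_one_div_of_le (by positivity) (by push_cast; linarith [Nat.cast_nonneg (α := ℝ) k₁])
      linarith
    generalize k₁ + k₂ = k at hkR hks
    have hsw : s ≤ w k := hs2.le.trans (hρw k)
    have hJ (b : L) (hb : b ∈ J) : ‖b - x‖ ≤ w k := (h4 b hb).trans (hρw k)
    obtain ⟨S', e1, -, e3, e4⟩ := V3_fill (Φ := Φ) (x := x)
      (S₀ := {t | ‖t - x‖ ≤ w k ∧ ∀ b ∈ J, r' < ‖t - b‖}) (h1.trans hs1) hsw
      (hM.mono fun t ht => h5 t (ht.1.trans_lt hkR) ht.2) (fun t ht => ht.1) J hJ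
      (fun b hb t ht => ⟨V3_tri (ht.le.trans hsw) (hJ b hb), fun b' hb' => by
        by_contra hlt
        have e1 : ‖t - b'‖ < s := (not_lt.mp hlt).trans_lt hs1
        have e2 : ‖b - b'‖ ≤ s := V3_tri (by rw [norm_sub_rev]; exact ht.le) e1.le
        have e3 : ‖b - b'‖ ≠ s := fun e => hs3 (Finset.mem_image.mpr
          ⟨(b, b'), Finset.mem_product.mpr ⟨hb, hb'⟩, e⟩)
        have e4 : ‖t - b‖ ≤ max ‖t - b'‖ ‖b - b'‖ :=
          V3_tri (le_max_left _ _) (by rw [norm_sub_rev]; exact le_max_right _ _)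
        exact absurd (ht ▸ e4) (not_le.mpr (max_lt e1 (lt_of_le_of_ne e2 e3)))⟩)
      (fun b hb => by
        by_contra hn
        have := hmin k b s ⟨(h1.trans hs1).le, hn⟩ (V3_tri (hJ b hb) (hx k)) hsw
        linarith [hρw (k + 1)])
    refine hfin k e3 fun t ht => ?_
    by_cases hall : ∀ b ∈ J, r' < ‖t - b‖
    · exact e1 ⟨ht, hall⟩
    · push Not at hall
      obtain ⟨b, hb, hlt⟩ := hall
      exact e4 b hb t (hlt.trans hs1.le)

theorem oneV (h : ∀ x ρ, LH x ρ Φ) (a : L) (hr : 0 ≤ r) : Mer Φ {t | ‖t - a‖ ≤ r} :=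
  oneV' hr fun x ρ _ _ _ => h x ρ

end Pool.Agent.Work.MP_e120ef_ag.Br
end

-- merged part: Pool.Agent.Work.MP_e120ef_ag.Br.C0
section
/-! The big field `L` and a generic point `w`. -/

open Filter Topology

namespace Pool.Agent.Work.MP_e120ef_ag.Br

open H.CS in
theorem C0_ult (K : Type) [NontriviallyNormedField K] [IsUltrametricDist K] [IsAlgClosed K] :
    ∃ (Kh : Type) (_ : NontriviallyNormedField Kh) (_ : IsUltrametricDist Kh) (_ : CompleteSpace Kh)
      (_ : IsAlgClosed Kh) (_ : NormedAlgebra K Kh), Om Kh := by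
  choose ν hν using Ult_lim (K := K)
  obtain ⟨ι, hι⟩ : ∃ ι : K →+* Ult_A K, ∀ c n, (ι c).1 n = c :=
    ⟨(Pi.constRingHom ℕ K).codRestrict (Ult_A K) fun c => ⟨‖c‖, fun _ => le_rfl⟩, fun _ _ => rfl⟩
  have hc : ∀ c, ν (ι c) = ‖c‖ := fun c =>
    tendsto_nhds_unique (hν _) (by simp only [hι]; exact tendsto_const_nhds)
  obtain ⟨Kh, i1, i2, π, hs, hπ⟩ := Ult_quot ν
    (fun a => ge_of_tendsto' (hν a) fun n => norm_nonneg _)
    (by rw [← map_one ι, hc, norm_one]) (by rw [← map_zero ι, hc, norm_zero])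
    (fun a b => tendsto_nhds_unique (hν _)
      (((hν a).mul (hν b)).congr fun n => (norm_mul _ _).symm))
    (fun a b => le_of_tendsto_of_tendsto' (hν _) ((hν a).max (hν b))
      fun n => IsUltrametricDist.norm_add_le_max _ _) (Ult_inv hν)
  have hS : Sph Kh := by
    intro c r hr hc
    choose a ha using fun i => hs (c i)
    obtain ⟨x, hx⟩ := Ult_sph hν a r hr fun i i' h => by
      rw [← hπ, map_sub, ha, ha, ← dist_eq_norm]
      exact hc h (Metric.mem_closedBall_self (hr i'))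
    refine ⟨π x, fun n => ?_⟩
    rw [Metric.mem_closedBall, dist_eq_norm, ← ha, ← map_sub, hπ]
    exact hx n
  have hA : IsAlgClosed Kh := by
    refine IsAlgClosed.of_exists_root Kh fun p hm hp => ?_
    obtain ⟨q, rfl, h1, h2⟩ := Polynomial.lifts_and_natDegree_eq_and_monic
      ((Polynomial.mem_lifts p).2 (Polynomial.map_surjective π hs p)) hm
    obtain ⟨y, hy⟩ := Ult_poly h2 (h1 ▸ hp.natDegree_pos)
    exact ⟨π y, by rw [Polynomial.eval_map, Polynomial.eval₂_at_apply, hy, map_zero]⟩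
  have hR : ∀ r : ℝ, 0 ≤ r → ∃ x : Kh, ‖x‖ = r := by
    intro r hr
    have h1 : ∀ n : ℕ, (0 : ℝ) < 1 / ((n : ℝ) + 1) := fun n => by positivity
    choose x hx1 hx2 using fun n : ℕ => norm_btw K hr (lt_add_of_pos_right r (h1 n))
    refine ⟨π ⟨x, r + 1, fun n => (hx2 n).le.trans (add_le_add le_rfl ?_)⟩, ?_⟩
    · rw [div_le_one (by positivity)]
      exact le_add_of_nonneg_left (Nat.cast_nonneg n)
    · rw [hπ]
      refine tendsto_nhds_unique (hν _) (Tendsto.mono_left ?_ Nat.hyperfilter_le_atTop)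
      have h4 := (tendsto_const_nhds (x := r)).add
        (tendsto_one_div_add_atTop_nhds_zero_nat (𝕜 := ℝ))
      rw [add_zero] at h4
      exact tendsto_const_nhds.squeeze h4 (fun n => (hx1 n).le) fun n => (hx2 n).le
  obtain ⟨x, hx⟩ := NontriviallyNormedField.non_trivial (α := K)
  let : Algebra K Kh := (π.comp ι).toAlgebra
  exact ⟨Kh, { i1 with non_trivial := ⟨π (ι x), by rwa [hπ, hc]⟩ }, i2, hS.complete, hA,
    { norm_smul_le := fun r y => by
        rw [Algebra.smul_def, norm_mul]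
        exact mul_le_mul_of_nonneg_right ((hπ _).trans (hc r)).le (norm_nonneg _) }, ⟨hS, hR⟩⟩

theorem Gen.map {K H H' : Type} [NontriviallyNormedField K] [NormedField H] [Algebra K H]
    [NormedField H'] [Algebra K H'] {m : ℕ} {t : Fin m → H} (h : Gen K t) (φ : H →ₐ[K] H')
    (hφ : ∀ x, ‖φ x‖ = ‖x‖) : Gen K fun i => φ (t i) := by
  refine ⟨fun i => (hφ _).trans_le (h.1 i), fun P I => (h.2 P I).trans_eq ?_⟩
  rw [← hφ, ← MvPolynomial.comp_aeval_apply]

theorem exists_Om (K : Type) [NontriviallyNormedField K] [IsUltrametricDist K] [CharZero K]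
    (n : ℕ) : ∃ (L : Type) (_ : NontriviallyNormedField L) (_ : IsUltrametricDist L)
      (_ : CompleteSpace L) (_ : IsAlgClosed L) (_ : NormedAlgebra K L) (_ : Om L)
      (w : Fin n → L), Gen K w := by
  obtain ⟨K₁, a1, a2, a3, a4, ⟨Γ⟩⟩ := H.exists_GD K n
  obtain ⟨K', b1, b2, b3, b4, b5, b6, b7, b8⟩ := H.exists_Kp K K₁
  obtain ⟨L, c1, c2, c3, c4, c5, c6⟩ := C0_ult K'
  let i6 : Algebra K L := ((algebraMap K' L).comp (algebraMap K K')).toAlgebra
  let i9 : NormedAlgebra K L :=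
    { i6 with
      norm_smul_le := fun r x => by
        change ‖algebraMap K' L (algebraMap K K' r) * x‖ ≤ _
        rw [norm_mul, norm_algebraMap', norm_algebraMap'] }
  have i10 : IsScalarTower K K' L := IsScalarTower.of_algebraMap_eq fun _ => rfl
  have h1 : Gen K Γ.w := ⟨fun i => (Γ.norm_w i).le, fun P I => by
    rw [← Γ.t_toT, Γ.Gauss_norm_t]
    exact (congrArg norm (MvPolynomial.coeff_coe P I)).symm.trans_le (H.le_gN (H.toT P) I)⟩
  have h2 := h1.map (IsScalarTower.toAlgHom K K₁ K') fun x => norm_algebraMap' K' x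
  exact ⟨L, c1, c2, c3, c4, i9, c6, _,
    h2.map (IsScalarTower.toAlgHom K K' L) fun x => norm_algebraMap' L x⟩

end Pool.Agent.Work.MP_e120ef_ag.Br
end

-- merged part: Pool.Agent.Work.MP_e120ef_ag.Br.V4
section
/-! V4 three circles and the zero criteria.  Plan ZA: t in the annulus off E, s = |t-c|, choose s' strictly
between s and s1, s = s0^th s'^(1-th), 0 < th < 1 (logarithms).  `poly_ind`: gs c s p <=
(gs c s0 p)^th (gs c s' p)^(1-th); `poly_ind'`: equality for q (every root has |b-c| outside the open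
interval).  |q t| = gs c s q (`norm_eval_eq`), gs c s' p / gs c s' q <= M + e at a generic point of
the circle s' (`GP2`); so |Psi t| <= e + e^th (M+e)^(1-th) for all e.
ZK, ZI: first shrink S so that Psi is bounded (approximant for e = 1, `gs_pos_of_ne` or `gs_pos`,
`tendsto_gs_div`), then `FF_basis` (r, R, J); r2 < rho above r and above all distances < rho between
points of insert a J.  Outer annulus: ZA at (a, rho, R).  Inner annuli: ZA at (b, rho, r2), `gs_congr`.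
If |t-a| <= rho and |t-b| >= rho for all b in J, the open disc (t, rho) lies in S, so
|q t| = gs a rho q (`norm_eval_eq`) and |Psi t| <= 2 e.  ZL: pass to the limit along GG. -/

set_option linter.unusedSectionVars false

open Filter Topology Polynomial

namespace Pool.Agent.Work.MP_e120ef_ag.Br

variable {L : Type} [NontriviallyNormedField L] [IsUltrametricDist L] [IsAlgClosed L] [Om L]
  {a a' b c t : L} {ρ ρ' r s ε : ℝ} {p q : L[X]} {S E : Set L} {Φ Ψ : L → L}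

theorem V4_tri (x y z : L) : ‖x - z‖ ≤ ‖x - y‖ ∨ ‖x - z‖ ≤ ‖z - y‖ := by
  have := IsUltrametricDist.norm_add_le_max (x - y) (y - z)
  rwa [sub_add_sub_cancel, le_max_iff, norm_sub_rev y z] at this

theorem V4_mid {s₀ s₁ : ℝ} (h₀ : 0 < s₀) (hs : 0 < s) (h : s ∈ Set.uIoo s₀ s₁) :
    ∃ (N : ℕ) (s' : ℝ), s' ∈ Set.uIoo s₀ s₁ ∧ s ^ (N + 1) = s' ^ N * s₀ := by
  have hq : 0 < s / s₀ := div_pos hs h₀
  have h1 : Continuous fun x : ℝ => s * (s / s₀) ^ x :=
    continuous_const.mul (Real.continuous_const_rpow hq.ne')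
  have h2 := (h1.tendsto 0).comp (tendsto_inv_atTop_nhds_zero_nat (𝕜 := ℝ))
  rw [Real.rpow_zero, mul_one] at h2
  obtain ⟨N, h3, h4⟩ := ((h2.eventually (isOpen_Ioo.mem_nhds h)).and (eventually_ne_atTop 0)).exists
  refine ⟨N, _, h3, ?_⟩
  simp only [Function.comp_apply]
  rw [mul_pow, Real.rpow_inv_natCast_pow hq.le h4, pow_succ]
  field_simp

theorem V4_conv {N : ℕ} {s₀ s' : ℝ} (h₀ : 0 ≤ s₀) (h' : 0 ≤ s') (e : s ^ (N + 1) = s' ^ N * s₀)
    (p : L[X]) : gs c s p ^ (N + 1) ≤ gs c s' p ^ N * gs c s₀ p := by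
  refine poly_ind (P := fun p => gs c s p ^ (N + 1) ≤ gs c s' p ^ N * gs c s₀ p) (fun x => ?_)
    (fun b => ?_) (fun p q hp hq => ?_) p
  · simp only [gs_C, pow_succ, le_refl]
  · simp only [gs_X_sub_C]
    have hd := norm_nonneg (c - b)
    rcases le_total s ‖c - b‖ with k | k
    · rw [max_eq_right k, pow_succ]
      exact mul_le_mul (pow_le_pow_left₀ hd (le_max_right _ _) _) (le_max_right _ _) hd
        (by positivity)
    · rw [max_eq_left k, e]
      exact mul_le_mul (pow_le_pow_left₀ h' (le_max_left _ _) _) (le_max_left _ _) h₀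
        (by positivity)
  · simp only [gs_mul, mul_pow] at *
    rw [mul_mul_mul_comm]
    exact mul_le_mul hp hq (pow_nonneg (gs_nonneg _ _ _) _)
      (mul_nonneg (pow_nonneg (gs_nonneg _ _ _) _) (gs_nonneg _ _ _))

theorem V4_eq {N : ℕ} {s₀ s₁ s' : ℝ} (e : s ^ (N + 1) = s' ^ N * s₀) (hs : s ∈ Set.uIoo s₀ s₁)
    (hs' : s' ∈ Set.uIoo s₀ s₁) (hq : q ≠ 0)
    (hZ : ∀ b, q.eval b = 0 → ‖b - c‖ ∉ Set.uIoo s₀ s₁) :
    gs c s q ^ (N + 1) = gs c s' q ^ N * gs c s₀ q := by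
  refine poly_ind' (P := fun p => gs c s p ^ (N + 1) = gs c s' p ^ N * gs c s₀ p)
    (Z := {b | ‖b - c‖ ∉ Set.uIoo s₀ s₁}) (fun x _ => ?_) (fun b hb => ?_)
    (fun p q hp hq => ?_) hq hZ
  · simp only [gs_C, pow_succ]
  · simp only [gs_X_sub_C]
    rw [norm_sub_rev c b]
    rcases not_and_or.1 hb with k | k
    · have k := not_lt.1 k
      rw [max_eq_left (k.trans hs.1.le), max_eq_left (k.trans hs'.1.le),
        max_eq_left (k.trans inf_le_left), e]
    · have k := not_lt.1 k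
      rw [max_eq_right (hs.2.le.trans k), max_eq_right (hs'.2.le.trans k),
        max_eq_right (le_sup_left.trans k), pow_succ]
  · simp only [gs_mul, mul_pow] at *
    rw [hp, hq, mul_mul_mul_comm]

theorem ZA {s₀ s₁ M : ℝ} (h₀ : 0 < s₀) (h₁ : 0 < s₁) (hE : E.Finite)
    (h : ∀ ε > 0, ∃ p q, Ap Ψ {t | ‖t - c‖ ∈ Set.uIoo s₀ s₁} E ε p q ∧ gs c s₀ p ≤ ε * gs c s₀ q)
    (hM : ∀ t, ‖t - c‖ ∈ Set.uIoo s₀ s₁ → t ∉ E → ‖Ψ t‖ ≤ M)
    (ht : ‖t - c‖ ∈ Set.uIoo s₀ s₁) (htE : t ∉ E) : Ψ t = 0 := by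
  have hm : 0 < min s₀ s₁ := lt_min h₀ h₁
  have hs : 0 < ‖t - c‖ := hm.trans ht.1
  obtain ⟨N, s', hs', e⟩ := V4_mid h₀ hs ht
  have hs'0 : 0 < s' := hm.trans hs'.1
  have hM0 : 0 ≤ M := (norm_nonneg _).trans (hM t ht htE)
  by_contra hne
  have hδ : 0 < ‖Ψ t‖ := norm_pos_iff.2 hne
  have hc : Continuous fun x : ℝ => (M + x) ^ N * x - (‖Ψ t‖ - x) ^ (N + 1) := by fun_prop
  have hev := ((hc.tendsto 0).eventually (gt_mem_nhds (a := 0) (by simpa using pow_pos hδ _))).filter_mono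
    (nhdsWithin_le_nhds (s := Set.Ioi 0))
  obtain ⟨x, k1, k2⟩ := (hev.and (Ioo_mem_nhdsGT hδ)).exists
  obtain ⟨p, q, hA, hpq⟩ := h x k2.1
  have hqt := hA.1 t ht
  have hq : q ≠ 0 := fun k => hqt (by simp [k])
  have hZ : ∀ b, q.eval b = 0 → ‖b - c‖ ∉ Set.uIoo s₀ s₁ := fun b hb k => hA.1 b k hb
  have a1 : ‖q.eval t‖ = gs c ‖t - c‖ q := by
    refine norm_eval_eq le_rfl fun b hb => ?_
    by_contra k
    have k := not_le.1 k
    refine hZ b hb ?_
    have : ‖b - c‖ = ‖t - c‖ := by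
      have m1 := V4_tri t b c
      have m2 := V4_tri b t c
      rw [norm_sub_rev c b] at m1
      rw [norm_sub_rev b t, norm_sub_rev c t] at m2
      rcases m1 with m1 | m1 <;> rcases m2 with m2 | m2 <;> linarith
    rwa [this]
  obtain ⟨u, huE, hu, hup, huq⟩ := GP2 c hs'0 hE p q
  have hu' : ‖u - c‖ ∈ Set.uIoo s₀ s₁ := hu ▸ hs'
  have a2 : gs c s' p ≤ (M + x) * gs c s' q := by
    have m1 := hA.2 u hu' huE
    have m2 := hM u hu' huE
    have m3 := norm_sub_norm_le (p.eval u / q.eval u) (Ψ u)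
    rw [norm_sub_rev, norm_div, hup, huq] at m3
    rw [← div_le_iff₀ (gs_pos hs'0 hq)]
    linarith
  have a3 : (‖Ψ t‖ - x) * gs c ‖t - c‖ q ≤ gs c ‖t - c‖ p := by
    have m1 := hA.2 t ht htE
    have m3 := norm_sub_norm_le (Ψ t) (p.eval t / q.eval t)
    rw [norm_div, a1] at m3
    refine le_trans ?_ (norm_eval_le le_rfl p)
    rw [← le_div_iff₀ (gs_pos hs hq)]
    linarith
  have a4 := pow_le_pow_left₀ (mul_nonneg (sub_pos.2 k2.2).le (gs_nonneg _ _ _)) a3 (N + 1)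
  have a5 := (a4.trans (V4_conv h₀.le hs'0.le e p)).trans (mul_le_mul
    (pow_le_pow_left₀ (gs_nonneg _ _ _) a2 N) hpq (gs_nonneg _ _ _)
    (pow_nonneg (mul_nonneg (add_nonneg hM0 k2.1.le) (gs_nonneg _ _ _)) _))
  rw [mul_pow, mul_pow, mul_mul_mul_comm, ← V4_eq e ht hs' hq hZ] at a5
  have a6 := le_of_mul_le_mul_right a5 (pow_pos (gs_pos hs hq) _)
  linarith

theorem V4_gap (h : r < ρ) (J J' : Finset L) : ∃ r₂, r ≤ r₂ ∧ r₂ < ρ ∧
    ∀ c ∈ J', ∀ b ∈ J, ‖c - b‖ < ρ → ‖c - b‖ ≤ r₂ := by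
  have h1 : ∀ᶠ x in 𝓝[<] ρ, ∀ c ∈ J', ∀ b ∈ J, ‖c - b‖ < ρ → ‖c - b‖ ≤ x := by
    refine (eventually_all_finset J').2 fun c _ => (eventually_all_finset J).2 fun b _ => ?_
    by_cases k : ‖c - b‖ < ρ
    · filter_upwards [Ico_mem_nhdsLT k] with x hx _ using hx.1
    · exact .of_forall fun x k' => (k k').elim
  obtain ⟨x, k1, k2⟩ := (h1.and (Ico_mem_nhdsLT h)).exists
  exact ⟨x, k2.1, k2.2, k1⟩

theorem V4_in {M r₂ : ℝ} {J : Finset L} (hE : E.Finite)
    (h : ∀ ε > 0, ∃ p q, Ap Ψ S E ε p q ∧ gs a ρ p ≤ ε * gs a ρ q)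
    (hr : 0 < r) (h₂ : r ≤ r₂) (h₃ : r₂ < ρ)
    (hS : ∀ t, ‖t - a‖ ≤ ρ → (∀ b ∈ J, r < ‖t - b‖) → t ∈ S ∧ (t ∉ E → ‖Ψ t‖ ≤ M))
    (hc : ‖c - a‖ ≤ ρ) (hg : ∀ b ∈ J, ‖c - b‖ < ρ → ‖c - b‖ ≤ r₂) (ht : r₂ < ‖t - c‖)
    (ht' : ‖t - c‖ < ρ) (htE : t ∉ E) : Ψ t = 0 := by
  have e : Set.uIoo ρ r₂ = Set.Ioo r₂ ρ := Set.uIoo_of_gt h₃
  have hA : ∀ u, ‖u - c‖ ∈ Set.uIoo ρ r₂ → u ∈ S ∧ (u ∉ E → ‖Ψ u‖ ≤ M) := by
    intro u hu
    rw [e] at hu
    refine hS u ?_ fun b hb => ?_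
    · have m := V4_tri u c a
      rw [norm_sub_rev a c] at m
      rcases m with m | m <;> linarith [hu.2]
    · have m1 := V4_tri u b c
      have m2 := V4_tri c u b
      rw [norm_sub_rev c u, norm_sub_rev b u] at m2
      by_cases k : ‖c - b‖ < ρ
      · have := hg b hb k
        rcases m1 with m | m <;> linarith [hu.1]
      · rcases m2 with m | m <;> linarith [hu.2]
  refine ZA (c := c) (s₀ := ρ) (s₁ := r₂) (M := M) (by linarith) (by linarith) hE
    (fun ε hε => ?_) (fun u hu => (hA u hu).2) (e ▸ ⟨ht, ht'⟩) htE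
  obtain ⟨p, q, k1, k2⟩ := h ε hε
  exact ⟨p, q, k1.mono (fun u hu => (hA u hu).1) subset_rfl le_rfl, by rwa [gs_congr hc]⟩

theorem V4_bdd (hq : 0 < gs a ρ q) (h : Ap Ψ S E ε p q) :
    ∃ M, ∀ᶠ t in FF a ρ, t ∈ S → t ∉ E → ‖Ψ t‖ ≤ M := by
  refine ⟨gs a ρ p / gs a ρ q + 1 + ε, ?_⟩
  filter_upwards [(tendsto_gs_div hq p).eventually (gt_mem_nhds (lt_add_one _))] with t ht k1 k2
  have m1 := h.2 t k1 k2
  have m2 := norm_sub_norm_le (Ψ t) (p.eval t / q.eval t)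
  linarith

theorem ZK (hρ : 0 < ρ) (hS : S ∈ FF a ρ) (hE : E.Finite)
    (h : ∀ ε > 0, ∃ p q, Ap Ψ S E ε p q ∧ gs a ρ p ≤ ε * gs a ρ q) : Ψ =ᶠ[GG a ρ] 0 := by
  obtain ⟨p₁, q₁, k₁, -⟩ := h 1 one_pos
  obtain ⟨M, hM⟩ := V4_bdd (gs_pos_of_ne hS k₁.1) k₁
  obtain ⟨r, R, J, hr, hrρ, hR, hJ, hT⟩ := FF_basis hρ (inter_mem hS hM)
  have hT' : ∀ t, ‖t - a‖ < R → (∀ b ∈ J, r < ‖t - b‖) → t ∈ S ∧ (t ∉ E → ‖Ψ t‖ ≤ M) :=
    fun t m1 m2 => ⟨(hT t m1 m2).1, (hT t m1 m2).2 (hT t m1 m2).1⟩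
  obtain ⟨r₂, h₂, h₃, hg⟩ := V4_gap hrρ J J
  have f1 : ∀ᶠ t in FF a ρ, ‖t - a‖ < R := ball_mem_FF hR (hρ.trans hR)
  have f2 : ∀ᶠ t in FF a ρ, ∀ b ∈ J, r₂ < ‖t - b‖ :=
    (eventually_all_finset J).2 fun b _ => hole_mem_FF (h₃.trans_le (le_max_left _ _))
  filter_upwards [(f1.and f2).filter_mono (GG_le a ρ), compl_mem_GG hE] with t ⟨t1, t2⟩ htE
  change Ψ t = 0
  rcases lt_or_ge ρ ‖t - a‖ with t3 | t3
  · have e : Set.uIoo ρ R = Set.Ioo ρ R := Set.uIoo_of_lt hR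
    have hA : ∀ u, ‖u - a‖ ∈ Set.uIoo ρ R → u ∈ S ∧ (u ∉ E → ‖Ψ u‖ ≤ M) := by
      intro u hu
      rw [e] at hu
      refine hT' u hu.2 fun b hb => ?_
      have m := V4_tri u b a
      rw [norm_sub_rev a b] at m
      rcases m with m | m <;> linarith [hu.1, hJ b hb]
    refine ZA (c := a) (s₀ := ρ) (s₁ := R) (M := M) hρ (hρ.trans hR) hE
      (fun ε hε => ?_) (fun u hu => (hA u hu).2) (e ▸ ⟨t3, t1⟩) htE
    obtain ⟨p, q, k1, k2⟩ := h ε hε
    exact ⟨p, q, k1.mono (fun u hu => (hA u hu).1) subset_rfl le_rfl, k2⟩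
  by_cases t4 : ∃ b ∈ J, ‖t - b‖ < ρ
  · obtain ⟨b, hb, t4⟩ := t4
    exact V4_in hE h hr h₂ h₃ (fun u m => hT' u (m.trans_lt hR)) (hJ b hb) (hg b hb) (t2 b hb) t4 htE
  push Not at t4
  have hD : ∀ u, ‖t - u‖ < ρ → u ∈ S := by
    intro u hu
    refine (hT' u ?_ fun b hb => ?_).1
    · have m := V4_tri u t a
      rw [norm_sub_rev u t, norm_sub_rev a t] at m
      rcases m with m | m <;> linarith
    · have m := V4_tri t u b
      rw [norm_sub_rev b u] at m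
      rcases m with m | m <;> linarith [t4 b hb]
  have htS : t ∈ S := hD t (by simpa using hρ)
  refine norm_le_zero_iff.1 (le_of_forall_pos_le_add fun ε hε => ?_)
  obtain ⟨p, q, k1, k2⟩ := h (ε / 2) (half_pos hε)
  have a1 : ‖q.eval t‖ = gs a ρ q :=
    norm_eval_eq t3 fun b hb => not_lt.1 fun m => k1.1 b (hD b m) hb
  have a2 : ‖p.eval t / q.eval t‖ ≤ ε / 2 := by
    rw [norm_div, div_le_iff₀ (norm_pos_iff.2 (k1.1 t htS)), a1]
    exact (norm_eval_le t3 p).trans k2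
  have m1 := k1.2 t htS htE
  have m2 := norm_sub_norm_le (Ψ t) (p.eval t / q.eval t)
  linarith

theorem ZL (hS : S ∈ FF a ρ) (hE : E.Finite) (h0 : Ψ =ᶠ[GG a ρ] 0) (h : Ap Ψ S E ε p q) :
    gs a ρ p ≤ ε * gs a ρ q := by
  have hq := gs_pos_of_ne hS h.1
  rw [← div_le_iff₀ hq]
  refine le_of_tendsto ((tendsto_gs_div hq p).mono_left (GG_le a ρ)) ?_
  filter_upwards [h0, GG_le a ρ hS, compl_mem_GG hE] with t k1 k2 k3
  have := h.2 t k2 k3
  rwa [k1, Pi.zero_apply, zero_sub, norm_neg] at this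

theorem ZI (hρ : 0 < ρ) (hS : S ∈ FF a ρ) (hE : E.Finite)
    (h : ∀ ε > 0, ∃ p q, Ap Ψ (S ∩ {t | ‖t - a‖ ≤ ρ}) E ε p q ∧ gs a ρ p ≤ ε * gs a ρ q) :
    ∃ r₀ < ρ, ∀ r ∈ Set.Ioo r₀ ρ, Ψ =ᶠ[GG a r] 0 := by
  obtain ⟨p₁, q₁, k₁, -⟩ := h 1 one_pos
  obtain ⟨t₀, m1, m2, -⟩ := exists_circle hρ hS hE
  have hq₁ : q₁ ≠ 0 := fun k => k₁.1 t₀ ⟨m1, m2.le⟩ (by simp [k])
  obtain ⟨M, hM⟩ := V4_bdd (gs_pos (a := a) hρ hq₁) k₁
  obtain ⟨r, R, J, hr, hrρ, hR, hJ, hT⟩ := FF_basis hρ (inter_mem hS hM)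
  obtain ⟨r₂, h₂, h₃, hg⟩ := V4_gap hrρ J {a}
  refine ⟨r₂, h₃, fun s hs => ?_⟩
  have f1 : ∀ᶠ t in FF a s, ‖t - a‖ < ρ := ball_mem_FF hs.2 hρ
  have f2 : ∀ᶠ t in FF a s, r₂ < ‖t - a‖ := hole_mem_FF (hs.1.trans_le (le_max_left _ _))
  filter_upwards [(f1.and f2).filter_mono (GG_le a s), compl_mem_GG hE] with t ⟨t1, t2⟩ htE
  refine V4_in (M := M) (J := J) hE h hr h₂ h₃ (fun u n1 n2 => ?_) (by simpa using hρ.le)
    (hg a (Finset.mem_singleton_self a)) t2 t1 htE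
  have n3 := hT u (n1.trans_lt hR) n2
  exact ⟨⟨n3.1, n1⟩, n3.2 ⟨n3.1, n1⟩⟩

end Pool.Agent.Work.MP_e120ef_ag.Br
end

-- merged part: Pool.Agent.Work.MP_e120ef_ag.Br.V5
section
/-! V5 ring operations on LH.  Plan: `LH.bdd`: approximant p0/q0 for e = 1, `gs_pos_of_ne`,
`tendsto_gs_div`, intersect S with the set where |p0/q0| < limit + 1 and with a ball
(`ball_mem_FF`).  add: B = B1 B2, approximant (B2 p1 q2 + B1 p2 q1)/(q1 q2), polynomials are bounded
on the ball (`norm_eval_le`).  mul: p1 p2/(q1 q2).  congr: `mem_GG`. -/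

set_option linter.unusedSectionVars false

open Filter Topology Polynomial

namespace Pool.Agent.Work.MP_e120ef_ag.Br

variable {L : Type} [NontriviallyNormedField L] [IsUltrametricDist L] [IsAlgClosed L] [Om L]
  {a a' b c t : L} {ρ ρ' r s ε : ℝ} {p q : L[X]} {S E : Set L} {Φ Ψ : L → L}

theorem LH.of_ap (hS : S ∈ FF a ρ) (hE : E.Finite) (h : ∀ ε > 0, ∃ p q, Ap Φ S E ε p q) :
    LH a ρ Φ := by
  refine ⟨S, hS, 1, one_ne_zero, E, hE, fun ε hε => ?_⟩
  obtain ⟨p, q, h1, h2⟩ := h ε hε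
  exact ⟨p, q, h1, fun t ht hn => by simpa using h2 t ht hn⟩

theorem LH.congr (h : LH a ρ Φ) (e : Φ =ᶠ[GG a ρ] Ψ) : LH a ρ Ψ := by
  obtain ⟨S, hS, B, hB, E, hE, k⟩ := h
  obtain ⟨S', hS', E', hE', k'⟩ := mem_GG.1 e
  refine ⟨S ∩ S', inter_mem hS hS', B, hB, E ∪ E', hE.union hE', fun ε hε => ?_⟩
  obtain ⟨p, q, h1, h2⟩ := k ε hε
  refine ⟨p, q, fun t ht => h1 t ht.1, fun t ht hn => ?_⟩
  have e1 : Φ t = Ψ t := k' t ht.2 fun m => hn (Or.inr m)
  rw [← e1]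
  exact h2 t ht.1 fun m => hn (Or.inl m)

theorem LH.of_center (e : ‖a - a'‖ ≤ ρ) (h : LH a ρ Φ) : LH a' ρ Φ := by
  obtain ⟨S, hS, k⟩ := h
  exact ⟨S, FF_congr e ▸ hS, k⟩

theorem LH.nhds (h : LH a ρ Φ) : ∀ᶠ r in 𝓝 ρ, LH a r Φ := by
  obtain ⟨S, hS, k⟩ := h
  exact (FF_nhds hS).mono fun r hr => ⟨S, hr, k⟩

theorem LH.bdd (h : LH a ρ Φ) : ∃ S ∈ FF a ρ, ∃ B : L[X], B ≠ 0 ∧ ∃ E : Set L, E.Finite ∧
    (∀ ε > 0, ∃ p q, Ap (fun t => B.eval t * Φ t) S E ε p q) ∧ ∃ R M : ℝ,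
      (∀ t ∈ S, ‖t - a‖ ≤ R) ∧ ∀ t ∈ S, t ∉ E → ‖B.eval t * Φ t‖ ≤ M := by
  obtain ⟨S, hS, B, hB, E, hE, k⟩ := h
  obtain ⟨p₀, q₀, h1, h2⟩ := k 1 one_pos
  have h3 : {t | ‖p₀.eval t / q₀.eval t‖ < gs a ρ p₀ / gs a ρ q₀ + 1} ∈ FF a ρ :=
    (tendsto_gs_div (gs_pos_of_ne hS h1) p₀).eventually (gt_mem_nhds (lt_add_one _))
  have h4 : {t | ‖t - a‖ < max ρ 0 + 1} ∈ FF a ρ :=
    ball_mem_FF (by linarith [le_max_left ρ 0]) (by linarith [le_max_right ρ 0])
  refine ⟨_, inter_mem hS (inter_mem h3 h4), B, hB, E, hE, fun ε hε => ?_, max ρ 0 + 1,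
    1 + (gs a ρ p₀ / gs a ρ q₀ + 1), fun t ht => le_of_lt ht.2.2, fun t ht hn => ?_⟩
  · obtain ⟨p, q, m⟩ := k ε hε
    exact ⟨p, q, Ap.mono (Ψ := fun t => B.eval t * Φ t) m Set.inter_subset_left subset_rfl le_rfl⟩
  · have h5 := norm_add_le (B.eval t * Φ t - p₀.eval t / q₀.eval t) (p₀.eval t / q₀.eval t)
    rw [sub_add_cancel] at h5
    exact h5.trans (add_le_add (h2 t ht.1 hn) (le_of_lt ht.2.1))

theorem LH.poly (a : L) (ρ : ℝ) (p : L[X]) : LH a ρ fun t => p.eval t := by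
  exact LH.of_ap univ_mem Set.finite_empty fun ε hε =>
    ⟨p, 1, fun t _ => by simp, fun t _ _ => by simpa using hε.le⟩

theorem LH.const (a : L) (ρ : ℝ) (c : L) : LH a ρ fun _ => c := by
  simpa using LH.poly a ρ (C c)

theorem LH.of_mul {B : L[X]} (hB : B ≠ 0) (h : LH a ρ fun t => B.eval t * Φ t) : LH a ρ Φ := by
  obtain ⟨S, hS, B', hB', E, hE, k⟩ := h
  refine ⟨S, hS, B' * B, mul_ne_zero hB' hB, E, hE, fun ε hε => ?_⟩
  obtain ⟨p, q, h1, h2⟩ := k ε hε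
  exact ⟨p, q, h1, fun t ht hn => by rw [eval_mul, mul_assoc]; exact h2 t ht hn⟩

theorem LH.add (h : LH a ρ Φ) (h' : LH a ρ Ψ) : LH a ρ (Φ + Ψ) := by
  obtain ⟨S₁, hS₁, B₁, hB₁, E₁, hE₁, k₁, R₁, M₁, r₁, -⟩ := h.bdd
  obtain ⟨S₂, hS₂, B₂, hB₂, E₂, hE₂, k₂, R₂, M₂, r₂, -⟩ := h'.bdd
  refine ⟨S₁ ∩ S₂, inter_mem hS₁ hS₂, B₁ * B₂, mul_ne_zero hB₁ hB₂, E₁ ∪ E₂, hE₁.union hE₂,
    fun ε hε => ?_⟩
  have n₁ := gs_nonneg a R₁ B₁
  have n₂ := gs_nonneg a R₂ B₂
  have hN : 0 < gs a R₁ B₁ + gs a R₂ B₂ + 1 := by linarith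
  have hδ : 0 < ε / (gs a R₁ B₁ + gs a R₂ B₂ + 1) := div_pos hε hN
  obtain ⟨p₁, q₁, a₁, b₁⟩ := k₁ _ hδ
  obtain ⟨p₂, q₂, a₂, b₂⟩ := k₂ _ hδ
  refine ⟨B₂ * p₁ * q₂ + B₁ * p₂ * q₁, q₁ * q₂, fun t ht => ?_, fun t ht hn => ?_⟩
  · rw [eval_mul]
    exact mul_ne_zero (a₁ t ht.1) (a₂ t ht.2)
  · have c₁ := a₁ t ht.1
    have c₂ := a₂ t ht.2
    have d₁ := b₁ t ht.1 fun m => hn (Or.inl m)
    have d₂ := b₂ t ht.2 fun m => hn (Or.inr m)
    have e : (B₁ * B₂).eval t * (Φ + Ψ) t -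
        (B₂ * p₁ * q₂ + B₁ * p₂ * q₁).eval t / (q₁ * q₂).eval t =
        B₂.eval t * (B₁.eval t * Φ t - p₁.eval t / q₁.eval t) +
          B₁.eval t * (B₂.eval t * Ψ t - p₂.eval t / q₂.eval t) := by
      simp only [eval_mul, eval_add, Pi.add_apply]
      field_simp
      ring
    rw [e]
    refine (norm_add_le _ _).trans ?_
    rw [norm_mul, norm_mul]
    have f₁ := mul_le_mul (norm_eval_le (r₂ t ht.2) B₂) d₁ (norm_nonneg _) n₂
    have f₂ := mul_le_mul (norm_eval_le (r₁ t ht.1) B₁) d₂ (norm_nonneg _) n₁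
    have g := mul_div_cancel₀ ε hN.ne'
    nlinarith

theorem LH.mul (h : LH a ρ Φ) (h' : LH a ρ Ψ) : LH a ρ (Φ * Ψ) := by
  obtain ⟨S₁, hS₁, B₁, hB₁, E₁, hE₁, k₁, R₁, M₁, -, m₁⟩ := h.bdd
  obtain ⟨S₂, hS₂, B₂, hB₂, E₂, hE₂, k₂, R₂, M₂, -, m₂⟩ := h'.bdd
  refine ⟨S₁ ∩ S₂, inter_mem hS₁ hS₂, B₁ * B₂, mul_ne_zero hB₁ hB₂, E₁ ∪ E₂, hE₁.union hE₂,
    fun ε hε => ?_⟩
  have n₁ := abs_nonneg M₁
  have n₂ := abs_nonneg M₂
  have hN : 0 < |M₁| + |M₂| + 1 := by linarith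
  have hδ : 0 < min 1 (ε / (|M₁| + |M₂| + 1)) := lt_min one_pos (div_pos hε hN)
  have l₁ := min_le_left 1 (ε / (|M₁| + |M₂| + 1))
  have l₂ := (le_div_iff₀ hN).1 (min_le_right 1 (ε / (|M₁| + |M₂| + 1)))
  obtain ⟨p₁, q₁, a₁, b₁⟩ := k₁ _ hδ
  obtain ⟨p₂, q₂, a₂, b₂⟩ := k₂ _ hδ
  generalize min 1 (ε / (|M₁| + |M₂| + 1)) = δ at hδ l₁ l₂ b₁ b₂
  refine ⟨p₁ * p₂, q₁ * q₂, fun t ht => ?_, fun t ht hn => ?_⟩
  · rw [eval_mul]
    exact mul_ne_zero (a₁ t ht.1) (a₂ t ht.2)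
  · have c₁ := a₁ t ht.1
    have c₂ := a₂ t ht.2
    have d₁ := b₁ t ht.1 fun m => hn (Or.inl m)
    have d₂ := b₂ t ht.2 fun m => hn (Or.inr m)
    have u₁ := (m₁ t ht.1 fun m => hn (Or.inl m)).trans (le_abs_self M₁)
    have u₂ := (m₂ t ht.2 fun m => hn (Or.inr m)).trans (le_abs_self M₂)
    have u₃ : ‖p₂.eval t / q₂.eval t‖ ≤ |M₂| + 1 := by
      have := norm_sub_le (B₂.eval t * Ψ t) (B₂.eval t * Ψ t - p₂.eval t / q₂.eval t)
      rw [sub_sub_cancel] at this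
      exact this.trans (add_le_add u₂ (d₂.trans l₁))
    have e : (B₁ * B₂).eval t * (Φ * Ψ) t - (p₁ * p₂).eval t / (q₁ * q₂).eval t =
        B₁.eval t * Φ t * (B₂.eval t * Ψ t - p₂.eval t / q₂.eval t) +
          (B₁.eval t * Φ t - p₁.eval t / q₁.eval t) * (p₂.eval t / q₂.eval t) := by
      simp only [eval_mul, Pi.mul_apply]
      field_simp
      ring
    rw [e]
    refine (norm_add_le _ _).trans ?_
    rw [norm_mul _ (_ - _), norm_mul (_ - _)]
    have f₁ := mul_le_mul u₁ d₂ (norm_nonneg _) n₁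
    have f₂ := mul_le_mul d₁ u₃ (norm_nonneg _) hδ.le
    nlinarith

theorem LH.neg (h : LH a ρ Φ) : LH a ρ (-Φ) := by
  have e : (fun _ => (-1 : L)) * Φ = -Φ := funext fun t => by simp
  exact e ▸ (LH.const a ρ (-1)).mul h

theorem LH.sub (h : LH a ρ Φ) (h' : LH a ρ Ψ) : LH a ρ (Φ - Ψ) := by
  rw [sub_eq_add_neg]
  exact h.add h'.neg

end Pool.Agent.Work.MP_e120ef_ag.Br
end

-- merged part: Pool.Agent.Work.MP_e120ef_ag.Br.V6
section
/-! V6 dichotomy.  Plan rho > 0: Psi = B Phi (`LH.bdd`).  If for all e there is an approximant with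
g p <= e g q: `ZK` and `eventually_eval_ne`.  Else e0 with e0 g q < g p for all approximants of error
<= e0; fix one of them, p0/q0; S' = S n {|p0/q0| > e0} - E - roots of B is in FF (`tendsto_gs_div`,
`GG_eq_FF`); on S' |Psi| > e0, every approximant of error e <= e0 has |p/q| > e0, and B q / p
approximates Phi^-1 = B / Psi with error |B| e / e0^2.
rho <= 0: a closed disc D = (a, r) in S, `Mer.cp`, E' = insert a E, Psi_k t = Psi t / (t-a)^k,
H k: CP a r E' Psi_k and |Psi_k| <= M / r^k on D - E'.  A k: for all e a polynomial p of error <= e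
with |p a| <= e.  H k and A k give H (k+1): h = p /m (X - C a), gs (h - h') r <= gs (p - p')
(`DM`, `gs_le_of_circle`), let the error of p' tend to 0 at a fixed t.  All H k: |Psi t| <=
M (|t-a|/r)^k, so Psi = 0 on the open disc off E'.  H k and not A k: e0 < |p a| for all p of error
<= e0; gs p <= max e0 (M/r^k); `norm_sub_eval_le` gives a small disc on which all |p t| > e0;
B / p approximates (t-a)^k Phi^-1; `LH.of_mul`. -/

set_option linter.unusedSectionVars false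

open Filter Topology Polynomial

namespace Pool.Agent.Work.MP_e120ef_ag.Br

variable {L : Type} [NontriviallyNormedField L] [IsUltrametricDist L] [IsAlgClosed L] [Om L]
  {a a' b c t : L} {ρ ρ' r s ε : ℝ} {p q : L[X]} {S E : Set L} {Φ Ψ : L → L}

/-- the dichotomy -/
def V6_D (a : L) (ρ : ℝ) (Φ : L → L) : Prop :=
  Φ =ᶠ[GG a ρ] 0 ∨ ((∀ᶠ t in GG a ρ, Φ t ≠ 0) ∧ LH a ρ Φ⁻¹)

theorem V6_lt {x y : L} (h : ‖x - y‖ ≤ ε) (k : ε < ‖y‖) : ε < ‖x‖ := by
  by_contra l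
  have := IsUltrametricDist.norm_add_le_max x (-(x - y))
  rw [norm_neg, neg_sub, add_sub_cancel] at this
  exact absurd (this.trans (max_le (not_lt.1 l) h)) k.not_ge

theorem V6_tr (hp : p ≠ 0) (hq : q ≠ 0) (e : ∀ᶠ t in GG a ρ, p.eval t * Φ t = q.eval t * Ψ t)
    (h : V6_D a ρ Ψ) : V6_D a ρ Φ := by
  have hp' := eventually_eval_ne (a := a) (ρ := ρ) hp
  have hq' := eventually_eval_ne (a := a) (ρ := ρ) hq
  rcases h with h | ⟨h, k⟩
  · left
    filter_upwards [e, hp', h] with t e hp h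
    rw [h, Pi.zero_apply, mul_zero] at e
    exact (mul_eq_zero.1 e).resolve_left hp
  · have h' : ∀ᶠ t in GG a ρ, Φ t ≠ 0 := by
      filter_upwards [e, hq', h] with t e hq h
      exact right_ne_zero_of_mul (e ▸ mul_ne_zero hq h)
    refine .inr ⟨h', LH.of_mul hq (((LH.poly a ρ p).mul k).congr ?_)⟩
    filter_upwards [e, h, h'] with t e h h'
    simp only [Pi.mul_apply, Pi.inv_apply]
    field_simp
    linear_combination e

theorem V6_inv (hS : S ∈ FF a ρ) (hE : E.Finite) (hs : 0 < s)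
    (h : ∀ ε > 0, ε ≤ s → ∃ p q, Ap Ψ S E ε p q ∧ ∀ t ∈ S, s < ‖p.eval t / q.eval t‖) :
    V6_D a ρ Ψ := by
  have h0 : ∀ t ∈ S, t ∉ E → s < ‖Ψ t‖ := fun t ht k => by
    obtain ⟨p, q, h1, h2⟩ := h s hs le_rfl
    exact V6_lt (h1.2 t ht k) (h2 t ht)
  refine .inr ⟨?_, LH.of_ap hS hE fun ε hε => ?_⟩
  · filter_upwards [GG_le a ρ hS, compl_mem_GG hE] with t ht k
    exact norm_pos_iff.1 (hs.trans (h0 t ht k))
  obtain ⟨p, q, h1, h2⟩ := h (min s (ε * (s * s))) (by positivity) (min_le_left _ _)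
  have h3 := fun t ht => norm_pos_iff.1 (hs.trans (h2 t ht))
  refine ⟨q, p, fun t ht => (div_ne_zero_iff.1 (h3 t ht)).1, fun t ht k => ?_⟩
  have h4 := h0 t ht k
  have h5 := h2 t ht
  rw [Pi.inv_apply, ← inv_div, inv_sub_inv (norm_pos_iff.1 (hs.trans h4)) (h3 t ht), norm_div,
    norm_mul, norm_sub_rev, div_le_iff₀ (mul_pos (hs.trans h4) (hs.trans h5))]
  refine ((h1.2 t ht k).trans (min_le_right _ _)).trans ?_
  gcongr

theorem LH.dich_pos (hρ : 0 < ρ) (h : LH a ρ Φ) :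
    Φ =ᶠ[GG a ρ] 0 ∨ ((∀ᶠ t in GG a ρ, Φ t ≠ 0) ∧ LH a ρ Φ⁻¹) := by
  obtain ⟨S, hS, h⟩ := h
  obtain ⟨B, hB, E, hE, h⟩ := mer_iff.1 h
  refine V6_tr (Ψ := fun t => B.eval t * Φ t) hB one_ne_zero (.of_forall fun t => by simp) ?_
  generalize (fun t => B.eval t * Φ t) = Ψ at h
  by_cases k : ∀ ε > 0, ∃ p q, Ap Ψ S E ε p q ∧ gs a ρ p ≤ ε * gs a ρ q
  · exact .inl (ZK hρ hS hE k)
  push Not at k
  obtain ⟨s, hs, k⟩ := k
  obtain ⟨p, q, h0⟩ := h s hs
  have hq := gs_pos_of_ne hS h0.1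
  have h1 := (tendsto_gs_div hq p).eventually_const_lt ((lt_div_iff₀ hq).2 (k p q h0))
  have h2 : ∀ᶠ t in FF a ρ, t ∉ E := GG_eq_FF (a := a) hρ ▸ compl_mem_GG hE
  refine V6_inv (inter_mem hS (h1.and h2)) hE hs fun ε hε l => ?_
  obtain ⟨p', q', h3⟩ := h ε hε
  refine ⟨p', q', h3.mono Set.inter_subset_left subset_rfl le_rfl, fun t ht => ?_⟩
  refine V6_lt ?_ (V6_lt (h0.2 t ht.1 ht.2.2) ht.2.1)
  rw [norm_sub_rev]
  exact (h3.2 t ht.1 ht.2.2).trans l

/-- `p` approximates `Ψ` on the disc off `E` -/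
def V6_Cl (a : L) (r : ℝ) (E : Set L) (Ψ : L → L) (p : L[X]) (ε : ℝ) : Prop :=
  ∀ t, ‖t - a‖ ≤ r → t ∉ E → ‖Ψ t - p.eval t‖ ≤ ε

theorem V6_gs (hr : 0 < r) (hE : E.Finite) (hp : V6_Cl a r E Ψ p ε) (hq : V6_Cl a r E Ψ q s) :
    gs a r (p - q) ≤ ε + s := by
  refine gs_le_of_circle hr hE fun t ht k => ?_
  rw [eval_sub, ← sub_sub_sub_cancel_left _ _ (Ψ t), add_comm]
  exact (norm_sub_le _ _).trans (add_le_add (hq t ht.le k) (hp t ht.le k))

theorem V6_key (hr : 0 < r) (hE : E.Finite)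
    (h : ∀ ε > 0, ∃ p, V6_Cl a r E Ψ p ε ∧ ‖p.eval a‖ ≤ ε) (hp : V6_Cl a r E Ψ p ε)
    (ht : ‖t - a‖ ≤ r) (k : t ∉ E) : ‖Ψ t - (p.eval t - p.eval a)‖ ≤ ε * (‖t - a‖ / r) := by
  refine le_of_forall_pos_le_add fun δ hδ => ?_
  obtain ⟨q, hq, hq'⟩ := h (δ / 3) (by positivity)
  have h1 := norm_sub_eval_le hr ht (p - q)
  have h2 := V6_gs hr hE hp hq
  have h3 := hq t ht k
  have h4 : ‖t - a‖ / r ≤ 1 := (div_le_one hr).2 ht
  have h5 : 0 ≤ ‖t - a‖ / r := by positivity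
  have e : Ψ t - (p.eval t - p.eval a) =
      Ψ t - q.eval t + q.eval a - ((p - q).eval t - (p - q).eval a) := by
    simp only [eval_sub]
    ring
  have h6 := norm_add_le (Ψ t - q.eval t) (q.eval a)
  have h7 := mul_le_mul_of_nonneg_right h2 h5
  rw [e]
  refine (norm_sub_le _ _).trans ?_
  nlinarith

theorem V6_step (hr : 0 < r) (hE : E.Finite) (ha : a ∈ E)
    (h : ∀ ε > 0, ∃ p, V6_Cl a r E Ψ p ε ∧ ‖p.eval a‖ ≤ ε) (hp : V6_Cl a r E Ψ p ε)
    (e : p - C (p.eval a) = (X - C a) * q) : V6_Cl a r E (fun t => Ψ t / (t - a)) q (ε / r) := by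
  intro t ht k
  have h0 : t - a ≠ 0 := sub_ne_zero.2 fun l => k (l ▸ ha)
  have h1 := V6_key hr hE h hp ht k
  have h2 := congrArg (eval t) e
  simp only [eval_sub, eval_mul, eval_C, eval_X] at h2
  rw [div_sub' h0, norm_div, div_le_iff₀ (norm_pos_iff.2 h0), ← h2]
  refine h1.trans_eq ?_
  ring

theorem V6_end (hρ : ρ ≤ 0) (hr : 0 < r) (hE : E.Finite) (hc : CP a r E Ψ)
    (h : ¬∀ ε > 0, ∃ p, V6_Cl a r E Ψ p ε ∧ ‖p.eval a‖ ≤ ε) : V6_D a ρ Ψ := by
  push Not at h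
  obtain ⟨s, hs, h⟩ := h
  obtain ⟨M, hM⟩ := hc.bdd
  have c : Continuous fun t : L => ‖t - a‖ := by fun_prop
  have h1 : ∀ᶠ t in 𝓝 a, ‖t - a‖ < r := c.continuousAt.eventually_lt_const (by simpa)
  have h2 : ∀ᶠ t in 𝓝 a, (s + M) * (‖t - a‖ / r) < s :=
    (continuous_const.mul (c.div_const r)).continuousAt.eventually_lt_const (by simpa)
  refine V6_inv (FF_nonpos (a := a) hρ ▸ h1.and h2) hE hs fun ε hε l => ?_
  obtain ⟨p, hp⟩ := hc ε hε
  have hp' : V6_Cl a r E Ψ p s := fun t ht k => (hp t ht k).trans l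
  refine ⟨p, 1, ⟨fun t _ => by simp, fun t ht k => by simpa using hp t ht.1.le k⟩, fun t ht => ?_⟩
  have h3 := V6_gs (q := 0) (s := M) hr hE hp' fun t ht k => by simpa using hM t ht k
  rw [sub_zero] at h3
  rw [eval_one, div_one]
  refine V6_lt ((norm_sub_eval_le hr ht.1.le p).trans (le_trans ?_ ht.2.le)) (h p hp')
  gcongr

theorem LH.dich_nonpos (hρ : ρ ≤ 0) (h : LH a ρ Φ) :
    Φ =ᶠ[GG a ρ] 0 ∨ ((∀ᶠ t in GG a ρ, Φ t ≠ 0) ∧ LH a ρ Φ⁻¹) := by
  obtain ⟨S, hS, h⟩ := h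
  obtain ⟨r, hr, hS⟩ := FF_basis_nonpos hρ hS
  obtain ⟨B, hB, E, hE, h⟩ := (h.mono hS).cp hr.le
  refine V6_tr (Ψ := fun t => B.eval t * Φ t) hB one_ne_zero (.of_forall fun t => by simp) ?_
  generalize (fun t => B.eval t * Φ t) = Ψ at h
  obtain ⟨M, hM⟩ := h.bdd
  have hE' := hE.insert a
  by_contra hD
  have H : ∀ k : ℕ, CP a r (insert a E) (fun t => Ψ t / (t - a) ^ k) ∧
      V6_Cl a r (insert a E) (fun t => Ψ t / (t - a) ^ k) 0 (M / r ^ k) := by
    intro k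
    induction k with
    | zero =>
      refine ⟨fun ε hε => (h ε hε).imp fun p hp t ht k => ?_, fun t ht k => ?_⟩
      · simpa using hp t ht fun l => k (.inr l)
      · simpa using hM t ht fun l => k (.inr l)
    | succ k ih =>
      by_cases A : ∀ ε > 0, ∃ p, V6_Cl a r (insert a E) (fun t => Ψ t / (t - a) ^ k) p ε ∧
        ‖p.eval a‖ ≤ ε
      · simp only [pow_succ, ← div_div]
        refine ⟨fun ε hε => ?_, V6_step hr hE' (.inl rfl) A ih.2 (by simp)⟩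
        obtain ⟨p, hp⟩ := ih.1 (ε * r) (mul_pos hε hr)
        obtain ⟨q, e⟩ := X_sub_C_dvd_sub_C_eval (p := p) (a := a)
        exact ⟨q, mul_div_cancel_right₀ ε hr.ne' ▸ V6_step hr hE' (.inl rfl) A hp e⟩
      · refine absurd (V6_tr one_ne_zero (pow_ne_zero k (X_sub_C_ne_zero a)) ?_
          (V6_end hρ hr hE' ih.1 A)) hD
        filter_upwards [compl_mem_GG hE'] with t ht
        have h0 : t - a ≠ 0 := sub_ne_zero.2 fun l => ht (.inl l)
        simp only [eval_pow, eval_sub, eval_X, eval_C, eval_one]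
        field_simp
  refine hD (.inl ?_)
  filter_upwards [GG_le a ρ (ball_mem_FF (hρ.trans_lt hr) hr), compl_mem_GG hE'] with t ht k
  have h0 : 0 < ‖t - a‖ := norm_pos_iff.2 (sub_ne_zero.2 fun l => k (.inl l))
  have h1 := (tendsto_pow_atTop_nhds_zero_of_lt_one (div_pos h0 hr).le
    ((div_lt_one hr).2 ht)).const_mul M
  refine norm_le_zero_iff.1 (mul_zero M ▸ ge_of_tendsto' h1 fun j => ?_)
  have h2 := (H j).2 t ht.le k
  rw [eval_zero, sub_zero, norm_div, norm_pow, div_le_iff₀ (pow_pos h0 j)] at h2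
  refine h2.trans_eq ?_
  rw [div_pow]
  ring

theorem LH.dich (h : LH a ρ Φ) : Φ =ᶠ[GG a ρ] 0 ∨ ((∀ᶠ t in GG a ρ, Φ t ≠ 0) ∧ LH a ρ Φ⁻¹) :=
  (lt_or_ge 0 ρ).elim (LH.dich_pos · h) (LH.dich_nonpos · h)

end Pool.Agent.Work.MP_e120ef_ag.Br
end

-- merged part: Pool.Agent.Work.MP_e120ef_ag.Br.V7
section
/-! V7 propagation of zeros along rays (both alternatives of `LH.dich` are open, `GG_nhds`). -/

set_option linter.unusedSectionVars false

open Filter Topology Polynomial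

namespace Pool.Agent.Work.MP_e120ef_ag.Br

variable {L : Type} [NontriviallyNormedField L] [IsUltrametricDist L] [IsAlgClosed L] [Om L]
  {a a' b c t : L} {ρ ρ' r s ε : ℝ} {p q : L[X]} {S E : Set L} {Φ Ψ : L → L}

theorem SL {I : Set ℝ} (hI : IsPreconnected I) (h : ∀ r ∈ I, LH a r Ψ) {r₀ : ℝ} (h₀ : r₀ ∈ I)
    (hz : Ψ =ᶠ[GG a r₀] 0) (hr : r ∈ I) : Ψ =ᶠ[GG a r] 0 := by
  let U : Set ℝ := {r | Ψ =ᶠ[GG a r] 0}
  let V : Set ℝ := {r | ∀ᶠ t in GG a r, Ψ t ≠ 0}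
  have oU : IsOpen U := isOpen_iff_mem_nhds.2 fun r hr => GG_nhds hr
  have oV : IsOpen V := isOpen_iff_mem_nhds.2 fun r hr => GG_nhds hr
  refine hI.subset_left_of_subset_union oU oV (Set.disjoint_left.2 fun r h1 h2 => ?_)
    (fun r hr => (h r hr).dich.imp id And.left) ⟨r₀, h₀, hz⟩ hr
  have h1' : ∀ᶠ t in GG a r, Ψ t = 0 := h1
  have h2' : ∀ᶠ t in GG a r, Ψ t ≠ 0 := h2
  obtain ⟨t, k1, k2⟩ := (h1'.and h2').exists
  exact k2 k1

theorem CN (h : ∀ x ρ, LH x ρ Ψ) (hz : Ψ =ᶠ[GG a ρ] 0) (a' : L) (ρ' : ℝ) : Ψ =ᶠ[GG a' ρ'] 0 := by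
  have h1 := SL isPreconnected_univ (fun r _ => h a r) trivial hz (r := ‖a - a'‖) trivial
  rw [GG_congr le_rfl] at h1
  exact SL isPreconnected_univ (fun r _ => h a' r) trivial h1 trivial

end Pool.Agent.Work.MP_e120ef_ag.Br
end

-- merged part: Pool.Agent.Work.MP_e120ef_ag.Br.C1
section
/-! C1: functions analytic at a point of the affine space, germ classes on lines. -/

set_option linter.unusedSectionVars false

open Filter Topology Polynomial

namespace Pool.Agent.Work.MP_e120ef_ag.Br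

variable {K : Type} [NontriviallyNormedField K] {n : ℕ} {L : Type} [NontriviallyNormedField L]
  [IsUltrametricDist L] [NormedAlgebra K L] {τ : Sn K (Pl K n)} {φ ψ : (Fin n → L) → L}
  {w : Fin n → L}

theorem oc_one : Oc 1 τ φ ↔ ∃ N ∈ 𝓝 τ, ∀ ε > 0, ∃ p q : Pl K n, ∀ z : Fin n → L, pz K z ∈ N →
    MvPolynomial.aeval z q ≠ 0 ∧ ‖φ z - MvPolynomial.aeval z p / MvPolynomial.aeval z q‖ ≤ ε := by
  simp only [Oc, map_one, ne_eq, one_ne_zero, not_false_eq_true, forall_true_left]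

theorem Oc.one {D : Pl K n} (h : Oc D τ φ) (hD : τ D ≠ 0) : Oc 1 τ φ := by
  obtain ⟨N, hN, k⟩ := h
  refine oc_one.2 ⟨N ∩ {ξ | ξ D ≠ 0}, inter_mem hN ((Sn.cont D).continuousAt.eventually_ne hD),
    fun ε hε => ?_⟩
  obtain ⟨p, q, m⟩ := k ε hε
  exact ⟨p, q, fun z hz => ⟨(m z hz.1).1, (m z hz.1).2 (norm_ne_zero_iff.1 hz.2)⟩⟩

theorem Oc.poly (τ : Sn K (Pl K n)) (P : Pl K n) :
    Oc 1 τ fun z : Fin n → L => MvPolynomial.aeval z P :=
  oc_one.2 ⟨Set.univ, univ_mem, fun ε hε => ⟨P, 1, fun z _ => by simpa using hε.le⟩⟩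

theorem Oc.add (h : Oc 1 τ φ) (h' : Oc 1 τ ψ) : Oc 1 τ (φ + ψ) := by
  obtain ⟨N, hN, k⟩ := oc_one.1 h
  obtain ⟨N', hN', k'⟩ := oc_one.1 h'
  refine oc_one.2 ⟨N ∩ N', inter_mem hN hN', fun ε hε => ?_⟩
  obtain ⟨p, q, m⟩ := k ε hε
  obtain ⟨p', q', m'⟩ := k' ε hε
  refine ⟨p * q' + p' * q, q * q', fun z hz => ?_⟩
  obtain ⟨a1, a2⟩ := m z hz.1
  obtain ⟨b1, b2⟩ := m' z hz.2
  refine ⟨by rw [map_mul]; exact mul_ne_zero a1 b1, ?_⟩
  have e : (φ + ψ) z - MvPolynomial.aeval z (p * q' + p' * q) / MvPolynomial.aeval z (q * q') =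
      (φ z - MvPolynomial.aeval z p / MvPolynomial.aeval z q) +
        (ψ z - MvPolynomial.aeval z p' / MvPolynomial.aeval z q') := by
    simp only [map_mul, map_add, Pi.add_apply]
    field_simp
    ring
  rw [e]
  exact (IsUltrametricDist.norm_add_le_max _ _).trans (max_le a2 b2)

theorem C1_le {x y : L} {M : ℝ} (h : ‖x - y‖ ≤ M) (h' : ‖y‖ ≤ M) : ‖x‖ ≤ M := by
  have := IsUltrametricDist.norm_add_le_max (x - y) y
  rw [sub_add_cancel] at this
  exact this.trans (max_le h h')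

theorem C1_eq {x y : L} (h : ‖x - y‖ < ‖y‖) : ‖x‖ = ‖y‖ := by
  have := IsUltrametricDist.norm_add_eq_max_of_norm_ne_norm h.ne
  rwa [sub_add_cancel, max_eq_right h.le] at this

theorem Oc.bdd (h : Oc 1 (pz K w) φ) :
    ∃ N ∈ 𝓝 (pz K w), ∃ M : ℝ, 1 ≤ M ∧ ∀ z, pz K z ∈ N → ‖φ z‖ ≤ M := by
  obtain ⟨N, hN, k⟩ := oc_one.1 h
  obtain ⟨p, q, m⟩ := k 1 one_pos
  have h1 : pz K w q ≠ 0 := norm_ne_zero_iff.2 (m w (mem_of_mem_nhds hN)).1
  have h2 : ContinuousAt (fun ξ : Sn K (Pl K n) => ξ p / ξ q) (pz K w) :=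
    (Sn.cont p).continuousAt.div (Sn.cont q).continuousAt h1
  refine ⟨N ∩ {ξ | ξ p / ξ q < pz K w p / pz K w q + 1},
    inter_mem hN (h2.eventually (gt_mem_nhds (lt_add_one _))), pz K w p / pz K w q + 1,
    le_add_of_nonneg_left (div_nonneg (norm_nonneg _) (norm_nonneg _)), fun z hz => ?_⟩
  refine C1_le ((m z hz.1).2.trans (le_add_of_nonneg_left
    (div_nonneg (norm_nonneg _) (norm_nonneg _)))) ?_
  rw [norm_div]
  exact le_of_lt hz.2

theorem Oc.mul (h : Oc 1 (pz K w) φ) (h' : Oc 1 (pz K w) ψ) : Oc 1 (pz K w) (φ * ψ) := by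
  obtain ⟨N₁, hN₁, M₁, c₁, d₁⟩ := h.bdd
  obtain ⟨N₂, hN₂, M₂, c₂, d₂⟩ := h'.bdd
  obtain ⟨N, hN, k⟩ := oc_one.1 h
  obtain ⟨N', hN', k'⟩ := oc_one.1 h'
  refine oc_one.2 ⟨(N ∩ N') ∩ (N₁ ∩ N₂), inter_mem (inter_mem hN hN') (inter_mem hN₁ hN₂),
    fun ε hε => ?_⟩
  have p₁ : 0 < M₁ := one_pos.trans_le c₁
  have p₂ : 0 < M₂ := one_pos.trans_le c₂
  obtain ⟨p, q, m⟩ := k (ε / M₂) (div_pos hε p₂)
  obtain ⟨p', q', m'⟩ := k' (min 1 (ε / M₁)) (lt_min one_pos (div_pos hε p₁))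
  refine ⟨p * p', q * q', fun z hz => ?_⟩
  obtain ⟨a1, a2⟩ := m z hz.1.1
  obtain ⟨b1, b2⟩ := m' z hz.1.2
  refine ⟨by rw [map_mul]; exact mul_ne_zero a1 b1, ?_⟩
  have e : (φ * ψ) z - MvPolynomial.aeval z (p * p') / MvPolynomial.aeval z (q * q') =
      φ z * (ψ z - MvPolynomial.aeval z p' / MvPolynomial.aeval z q') +
        (φ z - MvPolynomial.aeval z p / MvPolynomial.aeval z q) *
          (MvPolynomial.aeval z p' / MvPolynomial.aeval z q') := by
    simp only [map_mul, Pi.mul_apply]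
    field_simp
    ring
  have u : ‖MvPolynomial.aeval z p' / MvPolynomial.aeval z q'‖ ≤ M₂ :=
    C1_le (by rw [norm_sub_rev]; exact b2.trans ((min_le_left _ _).trans c₂)) (d₂ z hz.2.2)
  rw [e]
  refine (IsUltrametricDist.norm_add_le_max _ _).trans (max_le ?_ ?_) <;> rw [norm_mul]
  · exact (mul_le_mul (d₁ z hz.2.1) (b2.trans (min_le_right _ _)) (norm_nonneg _) p₁.le).trans_eq
      (mul_div_cancel₀ ε p₁.ne')
  · exact (mul_le_mul a2 u (norm_nonneg _) (div_pos hε p₂).le).trans_eq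
      (div_mul_cancel₀ ε p₂.ne')

theorem Oc.inv (h : Oc 1 (pz K w) φ) (h0 : φ w ≠ 0) :
    (∃ N ∈ 𝓝 (pz K w), ∀ z, pz K z ∈ N → φ z ≠ 0) ∧ Oc 1 (pz K w) φ⁻¹ := by
  obtain ⟨N, hN, k⟩ := oc_one.1 h
  obtain ⟨μ, hμ, hm⟩ : ∃ μ, 0 < μ ∧ μ < ‖φ w‖ := exists_between (norm_pos_iff.2 h0)
  obtain ⟨p₀, q₀, m₀⟩ := k μ hμ
  obtain ⟨a1, a2⟩ := m₀ w (mem_of_mem_nhds hN)
  have h2 : ContinuousAt (fun ξ : Sn K (Pl K n) => ξ p₀ / ξ q₀) (pz K w) :=
    (Sn.cont p₀).continuousAt.div (Sn.cont q₀).continuousAt (norm_ne_zero_iff.2 a1)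
  have h3 : μ < pz K w p₀ / pz K w q₀ := by
    rw [pz_apply, pz_apply, ← norm_div, C1_eq (by rw [norm_sub_rev]; exact a2.trans_lt hm)]
    exact hm
  have hN' := inter_mem hN (h2.eventually (lt_mem_nhds h3))
  have h4 : ∀ z : Fin n → L, pz K z ∈ N ∩ {ξ | μ < ξ p₀ / ξ q₀} → μ < ‖φ z‖ := fun z hz => by
    have h5 : μ < ‖MvPolynomial.aeval z p₀ / MvPolynomial.aeval z q₀‖ := by
      rw [norm_div]; exact hz.2
    rw [C1_eq ((m₀ z hz.1).2.trans_lt h5)]
    exact h5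
  refine ⟨⟨_, hN', fun z hz => norm_pos_iff.1 (hμ.trans (h4 z hz))⟩,
    oc_one.2 ⟨_, hN', fun ε hε => ?_⟩⟩
  obtain ⟨p, q, m⟩ := k (min μ (ε * (μ * μ))) (lt_min hμ (by positivity))
  refine ⟨q, p, fun z hz => ?_⟩
  obtain ⟨b1, b2⟩ := m z hz.1
  have h5 := h4 z hz
  have h6 : μ < ‖MvPolynomial.aeval z p / MvPolynomial.aeval z q‖ := by
    rw [C1_eq (by rw [norm_sub_rev]; exact (b2.trans (min_le_left _ _)).trans_lt h5)]
    exact h5
  have h7 : MvPolynomial.aeval z p / MvPolynomial.aeval z q ≠ 0 := norm_pos_iff.1 (hμ.trans h6)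
  have h8 : φ z ≠ 0 := norm_pos_iff.1 (hμ.trans h5)
  refine ⟨fun e => h7 (by rw [e, zero_div]), ?_⟩
  rw [← inv_div, Pi.inv_apply, inv_sub_inv h8 h7, norm_div, norm_mul, norm_sub_rev,
    div_le_iff₀ (mul_pos (hμ.trans h5) (hμ.trans h6))]
  exact (b2.trans (min_le_right _ _)).trans (mul_le_mul_of_nonneg_left
    (mul_le_mul h5.le h6.le hμ.le (norm_nonneg _)) hε.le)

variable [IsAlgClosed L] [Om L]

variable (K) in
/-- the image of the point `(a, ρ)` of a line -/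
noncomputable def lnS (z₀ ν : Fin n → L) (a : L) (ρ : ℝ) : Sn K (Pl K n) where
  toFun P := gs a ρ (lnP K z₀ ν P)
  nn _ := gs_nonneg _ _ _
  mul P Q := by rw [map_mul, gs_mul]
  add P Q := by rw [map_add]; exact gs_add _ _ _ _
  alg c := by rw [AlgHom.commutes, Polynomial.algebraMap_apply, gs_C, norm_algebraMap']

theorem tendsto_ln {z₀ ν : Fin n → L} {a : L} {ρ : ℝ} (h : ∀ P, gs a ρ (lnP K z₀ ν P) = τ P) :
    Tendsto (fun t => pz K (ln z₀ ν t)) (FF a ρ) (𝓝 τ) := by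
  refine (Sn.tendsto_iff τ).2 fun P => ?_
  simp only [pz_apply, ← eval_lnP, ← h]
  exact tendsto_gs a ρ _

theorem Oc.lh {z₀ ν : Fin n → L} {a : L} {ρ : ℝ} {D : Pl K n} (hD : lnP K z₀ ν D ≠ 0)
    (h : Oc D (lnS K z₀ ν a ρ) φ) : LH a ρ fun t => φ (ln z₀ ν t) := by
  obtain ⟨N, hN, k⟩ := h
  refine LH.of_ap (tendsto_ln (τ := lnS K z₀ ν a ρ) (fun _ => rfl) hN)
    (finite_setOfPred_isRoot hD) fun ε hε => ?_
  obtain ⟨p, q, m⟩ := k ε hε
  refine ⟨lnP K z₀ ν p, lnP K z₀ ν q, fun t ht => ?_, fun t ht hn => ?_⟩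
  · rw [eval_lnP]; exact (m _ ht).1
  · rw [eval_lnP, eval_lnP]
    exact (m _ ht).2 fun e => hn (by rw [← eval_lnP] at e; exact e)

/-- the germs at a point of a line -/
noncomputable def gcLine (z₀ ν : Fin n → L) (a : L) (ρ : ℝ)
    (hi : ∀ D : Pl K n, D ≠ 0 → lnP K z₀ ν D ≠ 0) (hb : Big (lnS K z₀ ν a ρ)) : GC K n L where
  F := map (ln z₀ ν) (GG a ρ)
  P Φ := LH a ρ fun t => Φ (ln z₀ ν t)
  τ := lnS K z₀ ν a ρ
  ne := inferInstance
  le := tendsto_map' ((tendsto_ln fun _ => rfl).mono_left (GG_le a ρ))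
  nz D hD := by
    refine eventually_map.2 ((eventually_eval_ne (hi D hD)).mono fun t ht => ?_)
    rwa [eval_lnP] at ht
  big := hb
  congr h e := h.congr (eventually_map.1 e)
  add h h' := LH.add h h'
  mul h h' := LH.mul h h'
  oc hD h := h.lh (hi _ hD)
  dich h := h.dich.imp (fun e => eventually_map.2 e) fun e => ⟨eventually_map.2 e.1, e.2⟩

end Pool.Agent.Work.MP_e120ef_ag.Br
end
end
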