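import Pool.Agent.Work.MP_e120ef_ag.Defs

/-! Definitions used in the statement: the Berkovich analytification of a reduced `K`-scheme,
analytic functions, analytic maps, `K`-analytically special. -/

open CategoryTheory AlgebraicGeometry

namespace Pool.Agent.Work.MP_e120ef_ag.Br

/-- the completion of a valued field -/
def Cp {F : Type} [Field F] (v : AbsoluteValue F ℝ) : Type := v.Completion

noncomputable instance instCp {F : Type} [Field F] (v : AbsoluteValue F ℝ) : NormedField (Cp v) :=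
  UniformSpace.Completion.instNormedFieldOfCompletableTopField (WithAbs v)

/-- the embedding of a valued field in its completion -/
noncomputable def toC {F : Type} [Field F] (v : AbsoluteValue F ℝ) : F →+* Cp v :=
  UniformSpace.Completion.coeRingHom.comp (WithAbs.equiv v).symm.toRingHom

/-- `b ≠ 0` and `x` is within `ε` of `a / b` -/
def Near {H : Type} [NormedField H] (x a b : H) (ε : ℝ) : Prop := b ≠ 0 ∧ ‖x - a / b‖ ≤ ε

variable {K : Type} [NontriviallyNormedField K]

/-- A point of the Berkovich analytification of `X`: a point of the scheme and an absolute value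
on its residue field extending the absolute value of `K`. -/
structure An (X : Sch K) where
  pt : X.left
  v : AbsoluteValue (X.left.residueField pt) ℝ
  ext : ∀ c : K, v (X.left.evaluation ⊤ pt trivial (cst X c)) = ‖c‖

variable {X G : Sch K}

/-- the completed residue field -/
def An.H (ζ : An X) : Type := Cp ζ.v

noncomputable instance (ζ : An X) : NormedField ζ.H := instCp ζ.v

/-- evaluation at `ζ` of the regular functions on `U` -/
noncomputable def An.ev (ζ : An X) (U : X.left.Opens) (h : ζ.pt ∈ U) : Γ(X.left, U) →+* ζ.H :=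
  (toC ζ.v).comp (X.left.evaluation U ζ.pt h).hom

/-- the value at `ζ` of the regular function `s` on `U` -/
noncomputable def An.val (ζ : An X) (U : X.left.Opens) (h : ζ.pt ∈ U) (s : Γ(X.left, U)) : ζ.H :=
  ζ.ev U h s

noncomputable instance (ζ : An X) : Algebra K ζ.H := ((ζ.ev ⊤ trivial).comp (cst X)).toAlgebra

/-- the coarsest topology making `pt` and all `ζ ↦ ‖s ζ‖` continuous -/
instance : TopologicalSpace (An X) :=
  .generateFrom {W | ∃ (U : X.left.Opens) (s : Γ(X.left, U)) (I : Set ℝ), IsOpen I ∧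
    W = {ζ | ∃ h : ζ.pt ∈ U, ‖ζ.val U h s‖ ∈ I}}

/-- `u` is analytic on `W`: locally a uniform limit of quotients of regular functions without
poles. -/
def IsAn (W : Set (An X)) (u : ∀ ζ : W, ζ.1.H) : Prop :=
  ∀ ζ ∈ W, ∃ (W' : Set (An X)) (hW : W' ⊆ W) (U : X.left.Opens) (hU : ∀ ξ ∈ W', ξ.pt ∈ U),
    IsOpen W' ∧ ζ ∈ W' ∧ ∀ ε > 0, ∃ s t : Γ(X.left, U), ∀ (ξ : An X) (h : ξ ∈ W'),
      Near (u ⟨ξ, hW h⟩) (ξ.val U (hU ξ h) s) (ξ.val U (hU ξ h) t) ε

/-- isometric `K`-algebra maps between completed residue fields -/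
structure Emb (ζ : An X) (ξ : An G) where
  φ : ζ.H →ₐ[K] ξ.H
  iso : ∀ x, ‖φ x‖ = ‖x‖

/-- the underlying map -/
noncomputable def Emb.ap {ζ : An X} {ξ : An G} (e : Emb ζ ξ) (x : ζ.H) : ξ.H := e.φ x

/-- the preimage of `W` under a map defined on `𝒰` -/
def Pre {𝒰 : Set (An G)} (f : 𝒰 → An X) (W : Set (An X)) : Set (An G) :=
  {ζ | ∃ h : ζ ∈ 𝒰, f ⟨ζ, h⟩ ∈ W}

theorem Pre.mem {𝒰 : Set (An G)} {f : 𝒰 → An X} {W : Set (An X)} (ζ : Pre f W) : ζ.1 ∈ 𝒰 :=
  ζ.2.fst

theorem Pre.map {𝒰 : Set (An G)} {f : 𝒰 → An X} {W : Set (An X)} (ζ : Pre f W) :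
    f ⟨ζ.1, Pre.mem ζ⟩ ∈ W := ζ.2.snd

/-- the pull-back of a function `u` on `W` -/
noncomputable def pbk {𝒰 : Set (An G)} {f : 𝒰 → An X} (e : ∀ ζ : 𝒰, Emb (f ζ) ζ.1)
    {W : Set (An X)} (u : ∀ ζ : W, ζ.1.H) (ζ : Pre f W) : ζ.1.H :=
  (e ⟨ζ.1, Pre.mem ζ⟩).ap (u ⟨_, Pre.map ζ⟩)

/-- An analytic map from the open subset `𝒰` of the analytification of `G` to the
analytification of `X`: a continuous map, with isometric maps of completed residue fields, that
pulls analytic functions back to analytic functions. -/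
structure Mor (𝒰 : Set (An G)) (X : Sch K) where
  f : 𝒰 → An X
  cont : Continuous f
  e : ∀ ζ : 𝒰, Emb (f ζ) ζ.1
  an : ∀ (W : Set (An X)) (u : ∀ ζ : W, ζ.1.H), IsOpen W → IsAn W u → IsAn (Pre f W) (pbk e u)

variable (K) in
/-- The `t i` are integral and their residue classes are algebraically independent over the
residue field of `K`. -/
def Gen {H : Type} [NormedField H] [Algebra K H] {m : ℕ} (t : Fin m → H) : Prop :=
  (∀ i, ‖t i‖ ≤ 1) ∧ ∀ (P : MvPolynomial (Fin m) K) (I : Fin m →₀ ℕ),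
    ‖P.coeff I‖ ≤ ‖MvPolynomial.aeval t P‖

/-- `K`-analytically special: there are a connected algebraic group `G`, a dense open subset `𝒰`
of its analytification whose complement has codimension at least two (at each of its points the
transcendence degree of the residue field of `H` is at most `dim G - 2`), and an analytic map
from `𝒰` to the analytification of `X` with Zariski dense image. -/
def Special (X : Sch K) : Prop :=
  ∃ (G : Sch K) (_ : GrpObj G) (_ : LocallyOfFiniteType G.hom) (_ : QuasiCompact G.hom)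
    (_ : ConnectedSpace G.left) (_ : IsReduced G.left) (𝒰 : Set (An G)), IsOpen 𝒰 ∧ Dense 𝒰 ∧
    (∀ ζ ∉ 𝒰, ∀ (m : ℕ) (t : Fin m → ζ.H), Gen K t →
      (m : WithBot ℕ∞) + 2 ≤ topologicalKrullDim G.left) ∧
    ∃ f : Mor 𝒰 X, DenseRange fun ζ => (f.f ζ).pt

end Pool.Agent.Work.MP_e120ef_ag.Br
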