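import Mathlib
import Pool.Agent.Work.MP_e120ef_ag.Br.Defs
import Pool.Agent.Work.MP_e120ef_ag.H.Line

attribute [-instance] Subalgebra.normedCommRing Subalgebra.seminormedCommRing
  Subalgebra.seminormedRing Subalgebra.normedRing
  Localization.subalgebra.instIsFractionRingSubtypeMemSubalgebra
attribute [local instance 2000] RingHomClass.toAddMonoidHomClass AddMonoidHomClass.toAddHomClass
  RingHom.instRingHomClass AlgHomClass.toRingHomClass IsDomain.to_noZeroDivisors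
  IsDomain.toNontrivial NeZero.one RingHomClass.toMonoidHomClass MonoidHomClass.toMulHomClass
  RingHomClass.toMonoidWithZeroHomClass AddMonoidHomClass.toZeroHomClass MonoidHomClass.toOneHomClass
attribute [-instance] instCharZeroOfIsSemireal AlgHom.instContinuousLinearMapClassOfAlgHomClass
  RingHomClass.toLinearMapClassRat RingHomClass.toLinearMapClassNNRat NumberField.to_charZero

-- merged part: Pool.Agent.Work.MP_e120ef_ag.C.Defs
section
/-! Definitions used in the statement: two kinds of valued fields. -/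

namespace Pool.Agent.Work.MP_e120ef_ag.H.CS

/-- spherical completeness: nested closed balls have a common point -/
def Sph (K : Type) [NormedField K] : Prop :=
  ∀ (c : ℕ → K) (r : ℕ → ℝ), (∀ n, 0 ≤ r n) → (Antitone fun n => Metric.closedBall (c n) (r n)) →
    ∃ x, ∀ n, x ∈ Metric.closedBall (c n) (r n)

/-- the elements algebraic over `k [S]` are dense, for a set `S` whose absolute values are
multiplicatively independent -/
def Abh (k K : Type) [Field k] [NormedField K] [Algebra k K] : Prop :=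
  ∃ S : Set K, LinearIndependent ℚ (fun t : S => Real.log ‖(t : K)‖) ∧
    Dense {x : K | IsAlgebraic (Algebra.adjoin k S) x}

end Pool.Agent.Work.MP_e120ef_ag.H.CS
end

-- merged part: Pool.Agent.Work.MP_e120ef_ag.Br.Base
section
/-! Shared definitions of the bridge (see `Br/PROOF.md`).  No proofs are missing here; do not
change the definitions. -/

open Filter Topology Polynomial

namespace Pool.Agent.Work.MP_e120ef_ag.Br

/-- the big field: spherically complete, every nonnegative real is a norm -/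
class Om (L : Type) [NormedField L] : Prop where
  sph : H.CS.Sph L
  sur : ∀ r : ℝ, 0 ≤ r → ∃ x : L, ‖x‖ = r

section Sn

variable (K : Type) [NormedField K] (R : Type) [CommRing R] [Algebra K R]

/-- multiplicative ultrametric seminorms on `R` extending the norm of `K` -/
structure Sn where
  toFun : R → ℝ
  nn : ∀ a, 0 ≤ toFun a
  mul : ∀ a b, toFun (a * b) = toFun a * toFun b
  add : ∀ a b, toFun (a + b) ≤ max (toFun a) (toFun b)
  alg : ∀ c : K, toFun (algebraMap K R c) = ‖c‖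

instance : CoeFun (Sn K R) fun _ => R → ℝ := ⟨Sn.toFun⟩

instance : TopologicalSpace (Sn K R) := .induced Sn.toFun inferInstance

variable {K R} {R' : Type} [CommRing R'] [Algebra K R']

/-- pull-back of a seminorm -/
def Sn.comap (φ : R →ₐ[K] R') (ξ : Sn K R') : Sn K R where
  toFun a := ξ (φ a)
  nn _ := ξ.nn _
  mul a b := by rw [map_mul, ξ.mul]
  add a b := by rw [map_add]; exact ξ.add _ _
  alg c := by rw [φ.commutes, ξ.alg]

variable {L : Type} [NormedField L] [IsUltrametricDist L] [NormedAlgebra K L]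

/-- the seminorm of a point with values in `L` -/
def Sn.of (c : R →ₐ[K] L) : Sn K R where
  toFun a := ‖c a‖
  nn _ := norm_nonneg _
  mul a b := by rw [map_mul, norm_mul]
  add a b := by rw [map_add]; exact IsUltrametricDist.norm_add_le_max _ _
  alg a := by rw [c.commutes, norm_algebraMap']

/-- `u` is, near `ξ`, a uniform limit of quotients of elements of `R` without poles -/
def Ac (ξ : Sn K R) (u : (R →ₐ[K] L) → L) : Prop :=
  ∃ N ∈ 𝓝 ξ, ∀ ε > 0, ∃ b₁ b₂ : R, (∀ ξ' ∈ N, ξ' b₂ ≠ 0) ∧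
    ∀ c : R →ₐ[K] L, Sn.of c ∈ N → ‖u c - c b₁ / c b₂‖ ≤ ε

end Sn

/-- the polynomial ring -/
abbrev Pl (K : Type) [Field K] (n : ℕ) : Type := MvPolynomial (Fin n) K

section An

variable {K : Type} [NontriviallyNormedField K] {n : ℕ}

section

variable (K) {L : Type} [NormedField L] [IsUltrametricDist L] [NormedAlgebra K L]

/-- the point of the affine space defined by `z` -/
noncomputable def pz (z : Fin n → L) : Sn K (Pl K n) :=
  Sn.of (MvPolynomial.aeval z : Pl K n →ₐ[K] L)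

variable {K}

/-- near `τ` and off the zeros of `D`, `φ` is a uniform limit of rational functions with
coefficients in `K` that have no pole near `τ` -/
def Oc (D : Pl K n) (τ : Sn K (Pl K n)) (φ : (Fin n → L) → L) : Prop :=
  ∃ N ∈ 𝓝 τ, ∀ ε > 0, ∃ p q : Pl K n, ∀ z : Fin n → L, pz K z ∈ N →
    MvPolynomial.aeval z q ≠ 0 ∧ (MvPolynomial.aeval z D ≠ 0 →
      ‖φ z - MvPolynomial.aeval z p / MvPolynomial.aeval z q‖ ≤ ε)

end

/-- the residue field of `τ` has transcendence degree at least `n - 1` -/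
def Big (τ : Sn K (Pl K n)) : Prop :=
  ∀ (H : Type) [NormedField H] [Algebra K H] (c : Pl K n →ₐ[K] H), (∀ a, ‖c a‖ = τ a) →
    ∃ (m : ℕ) (t : Fin m → H), n ≤ m + 1 ∧ Gen K t

variable (K n) (L : Type) [NontriviallyNormedField L] [IsUltrametricDist L] [NormedAlgebra K L]

/-- A class `P` of germs along a filter `F` converging to a big point `τ`; the germs form a
field containing the analytic germs at `τ`. -/
structure GC where
  F : Filter (Fin n → L)
  P : ((Fin n → L) → L) → Prop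
  τ : Sn K (Pl K n)
  ne : F.NeBot
  le : Tendsto (pz K) F (𝓝 τ)
  nz : ∀ D : Pl K n, D ≠ 0 → ∀ᶠ z in F, MvPolynomial.aeval z D ≠ 0
  big : Big τ
  congr : ∀ {Φ Ψ}, P Φ → Φ =ᶠ[F] Ψ → P Ψ
  add : ∀ {Φ Ψ}, P Φ → P Ψ → P (Φ + Ψ)
  mul : ∀ {Φ Ψ}, P Φ → P Ψ → P (Φ * Ψ)
  oc : ∀ {D : Pl K n} {Φ}, D ≠ 0 → Oc D τ Φ → P Φ
  dich : ∀ {Φ}, P Φ → Φ =ᶠ[F] 0 ∨ ((∀ᶠ z in F, Φ z ≠ 0) ∧ P Φ⁻¹)

variable [IsUltrametricDist K] [CompleteSpace L]

/-- The output of the analytic part: a family of germ classes such that a function whose germs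
are all in the classes is a quotient of two entire functions. -/
structure Core where
  Fam : Set (GC K n L)
  ext : ∀ Φ, (∀ γ ∈ Fam, γ.P Φ) → ∃ a b : H.Ent K (Fin n), b ≠ 0 ∧
    ∀ γ ∈ Fam, ∀ᶠ z in γ.F, H.evE z b * Φ z = H.evE z a
  nz : ∀ b : H.Ent K (Fin n), b ≠ 0 → ∀ γ ∈ Fam, ∀ᶠ z in γ.F, H.evE z b ≠ 0
  near : ∀ (z₀ : Fin n → K) (S : Set (Fin n → L)), (∀ γ ∈ Fam, S ∈ γ.F) → ∀ δ > 0,
    ∃ z ∈ S, ∀ i, ‖z i - algebraMap K L (z₀ i)‖ < δ

end An

section V

variable {L : Type} [NormedField L]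

/-- the Gauss norm on the disc with centre `a` and radius `ρ` -/
noncomputable def gs (a : L) (ρ : ℝ) (p : L[X]) : ℝ :=
  ‖p.leadingCoeff‖ * (p.roots.map fun b => max ρ ‖a - b‖).prod

/-- the trace on `L` of the neighbourhoods of the point `(a, ρ)` of the Berkovich line -/
def FF (a : L) (ρ : ℝ) : Filter L := ⨅ b, comap (fun t => ‖t - b‖) (𝓝 (max ρ ‖a - b‖))

/-- the same, off finite sets -/
def GG (a : L) (ρ : ℝ) : Filter L := FF a ρ ⊓ cofinite

/-- off a finite set, a multiple `B Φ` is on `S` a uniform limit of rational functions without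
poles in `S` -/
def Mer (Φ : L → L) (S : Set L) : Prop :=
  ∃ B : L[X], B ≠ 0 ∧ ∃ E : Set L, E.Finite ∧ ∀ ε > 0, ∃ p q : L[X], (∀ t ∈ S, q.eval t ≠ 0) ∧
    ∀ t ∈ S, t ∉ E → ‖B.eval t * Φ t - p.eval t / q.eval t‖ ≤ ε

/-- `Φ` is meromorphic at the point `(a, ρ)` -/
def LH (a : L) (ρ : ℝ) (Φ : L → L) : Prop := ∃ S ∈ FF a ρ, Mer Φ S

/-- off the finite set `E`, `Φ` is on the closed disc a uniform limit of polynomials -/
def CP (a : L) (r : ℝ) (E : Set L) (Φ : L → L) : Prop :=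
  ∀ ε > 0, ∃ p : L[X], ∀ t, ‖t - a‖ ≤ r → t ∉ E → ‖Φ t - p.eval t‖ ≤ ε

end V

end Pool.Agent.Work.MP_e120ef_ag.Br
end

-- merged part: Pool.Agent.Work.MP_e120ef_ag.H.ND
section
/-!
# Noether normalisation with a primitive element

Plans.  `exists_ND`: `exists_finite_inj_algHom_of_fg` gives `g : MvPolynomial (Fin n) K →ₐ B` finite and injective; `z l = g (X l)`.  `F` is finite and separable over `FractionRing (MvPolynomial (Fin n) K)`; take a primitive element (`Field.exists_primitive_element`), multiply it by a nonzero polynomial to make it integral and an element of `B`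
(every `x : F` has a nonzero polynomial multiple in `B`: if `b * x ∈ B`, `b` divides a nonzero polynomial in `B`).  `m = minpoly` over the polynomial ring (`minpoly.isIntegrallyClosed_eq_field_fractions'`).  Separability gives `a m + b m' = 1` over the fraction field; clear denominators to get `Δ₁`.  Each module generator `e k` is a polynomial in `θ` over the fraction field; clear denominators to get `Δ₂`; `Δ = Δ₁ Δ₂`.
`lift`: extend `aeval ζ` to the fraction field (`IsFractionRing.lift`), then use `PowerBasis.lift`/`AdjoinRoot.lift` with `F ≃ AdjoinRoot`, or define `j` on `F` through `den`, `frac` and `dvd_of_root`.  `dvd_of_root`: Gauss (`Polynomial.Monic.dvd_iff_fraction_map_dvd_fraction_map`/`map_dvd_map`), `minpoly.dvd`, `minpoly.eq_of_irreducible_of_monic`.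
`point`: for `b : B` choose `Q` from `den` and set `e b = (Q.eval₂ (eval z₀) ϑ) / eval z₀ Δ`; independent of `Q` by `dvd_of_root`.
`roots_nodup`: `bez` evaluated at `z₀` shows that `m (z₀, Y)` is separable.  `lying`: `B` is integral over the image of the polynomial ring; `Ideal.exists_ideal_over_maximal_of_isIntegral`, and the residue field is algebraic over `K` (`IsAlgClosed.algebraMap_bijective_of_isIntegral`, `IsAlgClosed.lift`).
-/

open Polynomial

namespace Pool.Agent.Work.MP_e120ef_ag.H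

variable {K F : Type} [Field K] [Field F] [Algebra K F]

/-- A finite map to affine space, a primitive element and its equation. -/
structure ND (B : Subalgebra K F) (n : ℕ) where
  z : Fin n → F
  θ : F
  m : (MvPolynomial (Fin n) K)[X]
  Δ : MvPolynomial (Fin n) K
  N : ℕ
  e : Fin N → F
  z_mem : ∀ l, z l ∈ B
  θ_mem : θ ∈ B
  e_mem : ∀ k, e k ∈ B
  tb : IsTranscendenceBasis K z
  monic : m.Monic
  irr : Irreducible (m.map (algebraMap _ (FractionRing (MvPolynomial (Fin n) K))))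
  root : m.eval₂ (MvPolynomial.aeval z : MvPolynomial (Fin n) K →ₐ[K] F).toRingHom θ = 0
  Δ_ne : Δ ≠ 0
  bez : ∃ a b, a * m + b * derivative m = C Δ
  den : ∀ b ∈ B, ∃ Q : (MvPolynomial (Fin n) K)[X], MvPolynomial.aeval z Δ * b =
    Q.eval₂ (MvPolynomial.aeval z : MvPolynomial (Fin n) K →ₐ[K] F).toRingHom θ
  gen : ∀ b ∈ B, ∃ γ : Fin N → MvPolynomial (Fin n) K,
    b = ∑ k, MvPolynomial.aeval z (γ k) * e k
  frac : ∀ x : F, ∃ γ : MvPolynomial (Fin n) K, γ ≠ 0 ∧ MvPolynomial.aeval z γ * x ∈ B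

theorem ND_core {P S : Type} [CommRing P] [IsDomain P] [IsIntegrallyClosed P] [CharZero P]
    [CommRing S] [IsDomain S] [Algebra P S] [Module.Finite P S] [Algebra S F] [Algebra P F]
    [IsScalarTower P S F] [FaithfulSMul P F]
    (h : ∀ x : F, ∃ b : S, b ≠ 0 ∧ ∃ c : S, algebraMap S F b * x = algebraMap S F c) :
    (∀ x : F, ∃ γ : P, γ ≠ 0 ∧ ∃ c : S, algebraMap P F γ * x = algebraMap S F c) ∧
    ∃ (θ : S) (m : P[X]) (Δ : P), m.Monic ∧ Irreducible (m.map (algebraMap P (FractionRing P))) ∧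
      aeval (algebraMap S F θ) m = 0 ∧ Δ ≠ 0 ∧ (∃ a b, a * m + b * derivative m = C Δ) ∧
      ∀ b : S, ∃ Q : P[X], algebraMap P F Δ * algebraMap S F b = aeval (algebraMap S F θ) Q := by
  have frac : ∀ x : F, ∃ γ : P, γ ≠ 0 ∧ ∃ c : S, algebraMap P F γ * x = algebraMap S F c := by
    intro x
    obtain ⟨b, hb, c, hc⟩ := h x
    obtain ⟨γ, hγ, d, hd⟩ := (Algebra.IsIntegral.isIntegral (R := P) b).isAlgebraic.exists_nonzero_dvd
      (mem_nonZeroDivisors_of_ne_zero hb)
    refine ⟨γ, hγ, d * c, ?_⟩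
    rw [IsScalarTower.algebraMap_apply P S F, hd, map_mul, map_mul, ← hc]
    ring
  refine ⟨frac, ?_⟩
  let _ := FractionRing.liftAlgebra P F
  have _ := FractionRing.isScalarTower_liftAlgebra P F
  have inj := IsFractionRing.injective P (FractionRing P)
  have am := IsScalarTower.algebraMap_apply P (FractionRing P) F
  have nz : ∀ γ : P, γ ≠ 0 → algebraMap P F γ ≠ 0 := fun γ hγ =>
    (map_ne_zero_iff _ (FaithfulSMul.algebraMap_injective P F)).2 hγ
  obtain ⟨N, e, he⟩ := Module.Finite.exists_fin (R := P) (M := S)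
  have gen : ∀ b : S, ∃ γ : Fin N → P, ∑ k, γ k • e k = b := fun b =>
    (Submodule.mem_span_range_iff_exists_fun _).1 (he ▸ Submodule.mem_top)
  have _ : FiniteDimensional (FractionRing P) F := by
    refine ⟨Submodule.fg_iff_exists_fin_generating_family.2
      ⟨N, fun k => algebraMap S F (e k), eq_top_iff.2 fun x _ => ?_⟩⟩
    obtain ⟨γ, hγ, c, hc⟩ := frac x
    obtain ⟨δ, rfl⟩ := gen c
    refine (Submodule.mem_span_range_iff_exists_fun _).2
      ⟨fun k => (algebraMap P _ γ)⁻¹ * algebraMap P _ (δ k), ?_⟩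
    refine mul_left_cancel₀ (nz γ hγ) ?_
    rw [hc, map_sum, Finset.mul_sum]
    refine Finset.sum_congr rfl fun k _ => ?_
    rw [Algebra.smul_def, Algebra.smul_def, map_mul, map_mul, map_inv₀, ← am, ← am,
      ← IsScalarTower.algebraMap_apply, mul_assoc, mul_inv_cancel_left₀ (nz γ hγ)]
  obtain ⟨α, hα⟩ := Field.exists_primitive_element (FractionRing P) F
  obtain ⟨γ, hγ, θ, hθ⟩ := frac α
  have int : IsIntegral P (algebraMap S F θ) :=
    (Algebra.IsIntegral.isIntegral (R := P) θ).algebraMap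
  have mp := minpoly.isIntegrallyClosed_eq_field_fractions' (FractionRing P) int
  have top : IntermediateField.adjoin (FractionRing P) {algebraMap S F θ} = ⊤ := by
    rw [eq_top_iff, ← hα, IntermediateField.adjoin_simple_le_iff]
    have : α = algebraMap (FractionRing P) F (algebraMap P _ γ)⁻¹ * algebraMap S F θ := by
      rw [map_inv₀, ← am, ← hθ, inv_mul_cancel_left₀ (nz γ hγ)]
    rw [this]
    exact mul_mem (IntermediateField.algebraMap_mem _ _)
      (IntermediateField.mem_adjoin_simple_self _ _)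
  have clr : ∀ q : (FractionRing P)[X], ∃ δ : P, δ ≠ 0 ∧ ∃ Q : P[X],
      Q.map (algebraMap P (FractionRing P)) = C (algebraMap P _ δ) * q := fun q => by
    obtain ⟨δ, h1, h2⟩ := IsLocalization.integerNormalization_spec (nonZeroDivisors P) q
    exact ⟨δ, nonZeroDivisors.ne_zero h1, _, by
      rw [h2, ← algebraMap_smul (FractionRing P) δ q, smul_eq_C_mul]⟩
  have pol : ∀ x : F, ∃ δ : P, δ ≠ 0 ∧ ∃ Q : P[X],
      algebraMap P F δ * x = aeval (algebraMap S F θ) Q := fun x => by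
    have : x ∈ (IntermediateField.adjoin (FractionRing P) {algebraMap S F θ}).toSubalgebra := by
      rw [top]
      trivial
    rw [IntermediateField.adjoin_simple_toSubalgebra_of_isAlgebraic
      (Algebra.IsAlgebraic.isAlgebraic _), Algebra.adjoin_singleton_eq_range_aeval] at this
    obtain ⟨q, rfl⟩ := this
    obtain ⟨δ, h1, Q, h2⟩ := clr q
    refine ⟨δ, h1, Q, ?_⟩
    rw [← aeval_map_algebraMap (FractionRing P), h2, map_mul, aeval_C, ← am]
    rfl
  choose δ hδ Q hQ using fun k => pol (algebraMap S F (e k))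
  obtain ⟨a, b, hab⟩ : IsCoprime (minpoly (FractionRing P) (algebraMap S F θ))
      (derivative (minpoly (FractionRing P) (algebraMap S F θ))) :=
    Algebra.IsSeparable.isSeparable (FractionRing P) (algebraMap S F θ)
  obtain ⟨s, hs, a₀, ha⟩ := clr a
  obtain ⟨t, ht, b₀, hb⟩ := clr b
  refine ⟨θ, minpoly P (algebraMap S F θ), s * t * ∏ k, δ k, minpoly.monic int,
    mp ▸ minpoly.irreducible (Algebra.IsIntegral.isIntegral _), minpoly.aeval _ _,
    mul_ne_zero (mul_ne_zero hs ht) (Finset.prod_ne_zero_iff.2 fun k _ => hδ k),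
    ⟨C (∏ k, δ k) * C t * a₀, C (∏ k, δ k) * C s * b₀, map_injective _ inj ?_⟩, fun c => ?_⟩
  · simp only [Polynomial.map_add, Polynomial.map_mul, map_C, ha, hb, ← derivative_map, ← mp,
      map_mul]
    linear_combination (C (algebraMap P (FractionRing P) s) * C (algebraMap P (FractionRing P) t) *
      C (algebraMap P (FractionRing P) (∏ k, δ k))) * hab
  · obtain ⟨η, rfl⟩ := gen c
    choose r hr using fun k => Finset.dvd_prod_of_mem δ (Finset.mem_univ k)
    refine ⟨∑ k, C (s * t * r k * η k) * Q k, ?_⟩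
    rw [map_sum, map_sum, Finset.mul_sum]
    refine Finset.sum_congr rfl fun k _ => ?_
    rw [hr k, Algebra.smul_def, map_mul (aeval _), aeval_C, ← hQ k]
    simp only [map_mul, ← IsScalarTower.algebraMap_apply]
    ring

theorem exists_ND [CharZero K] (B : Subalgebra K F) [Algebra.FiniteType K B]
    (h : ∀ x : F, ∃ b ∈ B, b ≠ 0 ∧ b * x ∈ B) : ∃ n, Nonempty (ND B n) := by
  obtain ⟨n, g, hg, fin⟩ := exists_finite_inj_algHom_of_fg K B
  let z : Fin n → F := fun l => g (MvPolynomial.X l)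
  have hz : ∀ γ, MvPolynomial.aeval z γ = (g γ : F) := fun γ =>
    DFunLike.congr_fun (MvPolynomial.algHom_ext (f := MvPolynomial.aeval z) (g := B.val.comp g)
      fun l => MvPolynomial.aeval_X _ _) γ
  have ind : AlgebraicIndependent K z := fun a b k =>
    hg (Subtype.ext ((hz a).symm.trans (k.trans (hz b))))
  let _ : Algebra (MvPolynomial (Fin n) K) B := g.toRingHom.toAlgebra
  let _ : Algebra (MvPolynomial (Fin n) K) F :=
    (MvPolynomial.aeval z : MvPolynomial (Fin n) K →ₐ[K] F).toRingHom.toAlgebra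
  have _ : IsScalarTower (MvPolynomial (Fin n) K) B F := .of_algebraMap_eq hz
  have _ : Module.Finite (MvPolynomial (Fin n) K) B := fin
  have _ : FaithfulSMul (MvPolynomial (Fin n) K) F :=
    (faithfulSMul_iff_algebraMap_injective _ _).2 ind
  obtain ⟨frac, θ, m, Δ, a1, a2, a3, a4, a5, a6⟩ :=
    ND_core (P := MvPolynomial (Fin n) K) (S := B) (F := F) fun x => by
      obtain ⟨b, b1, b2, b3⟩ := h x
      exact ⟨⟨b, b1⟩, fun k => b2 (congrArg Subtype.val k), ⟨_, b3⟩, rfl⟩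
  obtain ⟨N, e, he⟩ := Module.Finite.exists_fin (R := MvPolynomial (Fin n) K) (M := B)
  refine ⟨n, ⟨⟨z, θ, m, Δ, N, fun k => e k, fun l => (g _).2, θ.2, fun k => (e k).2, ?_, a1, a2,
    a3, a4, a5, fun b hb => a6 ⟨b, hb⟩, fun b hb => ?_, fun x => ?_⟩⟩⟩
  · refine ind.isTranscendenceBasis_iff_isAlgebraic.2 ⟨fun x => ?_⟩
    let _ : Algebra (MvPolynomial (Fin n) K) (Algebra.adjoin K (Set.range z)) :=
      ind.aevalEquiv.toRingEquiv.toRingHom.toAlgebra
    have _ : IsScalarTower (MvPolynomial (Fin n) K) (Algebra.adjoin K (Set.range z)) F :=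
      .of_algebraMap_eq fun _ => rfl
    obtain ⟨γ, hγ, c, hc⟩ := frac x
    refine IsAlgebraic.extendScalars (R := MvPolynomial (Fin n) K) ind.aevalEquiv.injective
      (IsAlgebraic.of_smul (mem_nonZeroDivisors_of_ne_zero hγ) ?_)
    rw [Algebra.smul_def, hc]
    exact (Algebra.IsIntegral.isIntegral c).algebraMap.isAlgebraic
  · obtain ⟨γ, hγ⟩ := (Submodule.mem_span_range_iff_exists_fun _).1
      (show (⟨b, hb⟩ : B) ∈ _ from he ▸ Submodule.mem_top)
    refine ⟨γ, (congrArg B.val hγ).symm.trans ?_⟩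
    rw [map_sum]
    exact Finset.sum_congr rfl fun k _ => by rw [hz]; rfl
  · obtain ⟨γ, hγ, c, hc⟩ := frac x
    exact ⟨γ, hγ, (show MvPolynomial.aeval z γ * x = c from hc) ▸ c.2⟩

theorem ND_ext {A S R : Type} [CommRing A] [CommRing S] [Field R] (ψ : A →+* S) (χ : A →+* R)
    (hk : ∀ a, ψ a = 0 → χ a = 0) (hx : ∀ x, ∃ a q, χ a ≠ 0 ∧ ψ a * x = ψ q) :
    ∃ e : S →+* R, ∀ a, e (ψ a) = χ a := by
  choose a q h1 h2 using hx
  have key : ∀ x a' q', ψ a' * x = ψ q' → χ a' * (χ (q x) / χ (a x)) = χ q' := fun x a' q' k => by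
    have := hk (a' * q x - a x * q') (by rw [map_sub, map_mul, map_mul, ← k, ← h2]; ring)
    rw [map_sub, map_mul, map_mul] at this
    rw [← mul_div_assoc, div_eq_iff (h1 x)]
    linear_combination this
  have k1 : ∀ b, χ (q (ψ b)) / χ (a (ψ b)) = χ b := fun b => by
    simpa using key (ψ b) 1 b (by simp)
  refine ⟨⟨⟨⟨fun x => χ (q x) / χ (a x), by simpa using k1 1⟩, fun x y => ?_⟩,
    by simpa using k1 0, fun x y => ?_⟩, k1⟩
  · have := key (x * y) (a x * a y) (q x * q y) (by rw [map_mul, map_mul, ← h2, ← h2]; ring)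
    refine mul_left_cancel₀ (mul_ne_zero (h1 x) (h1 y)) ?_
    rw [map_mul, map_mul] at this
    rw [this, div_mul_div_comm, mul_div_cancel₀ _ (mul_ne_zero (h1 x) (h1 y))]
  · have := key (x + y) (a x * a y) (q x * a y + a x * q y) (by
      rw [map_add, map_mul, map_mul, map_mul, ← h2, ← h2]; ring)
    refine mul_left_cancel₀ (mul_ne_zero (h1 x) (h1 y)) ?_
    rw [map_add, map_mul, map_mul, map_mul] at this
    rw [this, div_add_div _ _ (h1 x) (h1 y), mul_div_cancel₀ _ (mul_ne_zero (h1 x) (h1 y))]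

variable {B : Subalgebra K F} {n : ℕ} (𝒩 : ND B n)

namespace ND

/-- polynomials in the coordinates, evaluated at a point -/
noncomputable abbrev ae {R : Type} [CommRing R] [Algebra K R] (ζ : Fin n → R) :
    MvPolynomial (Fin n) K →+* R := (MvPolynomial.aeval ζ : MvPolynomial (Fin n) K →ₐ[K] R).toRingHom

/-- the coordinates of a point -/
def zv {R : Type} [CommRing R] [Algebra K R] (j : B →ₐ[K] R) (l : Fin n) : R := j ⟨𝒩.z l, 𝒩.z_mem l⟩

/-- the primitive element at a point -/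
def θv {R : Type} [CommRing R] [Algebra K R] (j : B →ₐ[K] R) : R := j ⟨𝒩.θ, 𝒩.θ_mem⟩

theorem ND_hom {R S : Type} [CommRing R] [Algebra K R] [CommRing S] [Algebra K S] (φ : R →ₐ[K] S)
    (ζ : Fin n → R) (x : R) (Q : (MvPolynomial (Fin n) K)[X]) :
    φ (Q.eval₂ (ae ζ) x) = Q.eval₂ (ae fun l => φ (ζ l)) (φ x) :=
  (hom_eval₂ Q (ae ζ) φ.toRingHom x).trans (congrArg (fun f => Q.eval₂ f (φ x))
    (RingHom.ext fun γ => MvPolynomial.comp_aeval_apply ζ φ γ))

/-- the coordinates as elements of the subalgebra -/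
def ND_z (l : Fin n) : B := ⟨𝒩.z l, 𝒩.z_mem l⟩

theorem ND_val (γ : MvPolynomial (Fin n) K) :
    (MvPolynomial.aeval 𝒩.ND_z γ : B) = MvPolynomial.aeval 𝒩.z γ :=
  MvPolynomial.comp_aeval_apply 𝒩.ND_z B.val γ

theorem ND_ev (Q : (MvPolynomial (Fin n) K)[X]) (b : B) :
    (Q.eval₂ (ae 𝒩.ND_z) b : B) = Q.eval₂ (ae 𝒩.z) (b : F) := ND_hom B.val 𝒩.ND_z b Q

theorem ae_mem (γ : MvPolynomial (Fin n) K) : MvPolynomial.aeval 𝒩.z γ ∈ B := by
  rw [← ND_val]
  exact Subtype.prop _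

theorem map_ae {R : Type} [CommRing R] [Algebra K R] (j : B →ₐ[K] R) (γ : MvPolynomial (Fin n) K) :
    j ⟨_, 𝒩.ae_mem γ⟩ = MvPolynomial.aeval (𝒩.zv j) γ :=
  (congrArg j (Subtype.ext (𝒩.ND_val γ).symm)).trans (MvPolynomial.comp_aeval_apply 𝒩.ND_z j γ)

theorem map_den {R : Type} [CommRing R] [Algebra K R] (j : B →ₐ[K] R) {b : B}
    {Q : (MvPolynomial (Fin n) K)[X]}
    (h : MvPolynomial.aeval 𝒩.z 𝒩.Δ * b = Q.eval₂ (ae 𝒩.z) 𝒩.θ) :
    MvPolynomial.aeval (𝒩.zv j) 𝒩.Δ * j b = Q.eval₂ (ae (𝒩.zv j)) (𝒩.θv j) := by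
  rw [← 𝒩.map_ae j, ← map_mul]
  exact (congrArg j (Subtype.ext (h.trans (𝒩.ND_ev Q ⟨_, 𝒩.θ_mem⟩).symm))).trans
    (ND_hom j 𝒩.ND_z ⟨_, 𝒩.θ_mem⟩ Q)

theorem root_v {R : Type} [CommRing R] [Algebra K R] (j : B →ₐ[K] R) :
    𝒩.m.eval₂ (ae (𝒩.zv j)) (𝒩.θv j) = 0 :=
  (ND_hom j 𝒩.ND_z ⟨_, 𝒩.θ_mem⟩ 𝒩.m).symm.trans
    ((congrArg j (Subtype.ext ((𝒩.ND_ev 𝒩.m ⟨_, 𝒩.θ_mem⟩).trans 𝒩.root))).trans (map_zero j))

theorem deg_pos : 0 < 𝒩.m.natDegree := by
  have := 𝒩.irr.natDegree_pos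
  rwa [𝒩.monic.natDegree_map] at this

theorem dvd_of_root {Q : (MvPolynomial (Fin n) K)[X]} (h : Q.eval₂ (ae 𝒩.z) 𝒩.θ = 0) : 𝒩.m ∣ Q := by
  let _ : Algebra (MvPolynomial (Fin n) K) F := (ae 𝒩.z).toAlgebra
  have _ : FaithfulSMul (MvPolynomial (Fin n) K) F :=
    (faithfulSMul_iff_algebraMap_injective _ _).2 𝒩.tb.1
  let _ := FractionRing.liftAlgebra (MvPolynomial (Fin n) K) F
  have _ := FractionRing.isScalarTower_liftAlgebra (MvPolynomial (Fin n) K) F
  rw [← map_dvd_map _ (IsFractionRing.injective _ (FractionRing (MvPolynomial (Fin n) K))) 𝒩.monic,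
    minpoly.eq_of_irreducible_of_monic (x := 𝒩.θ) 𝒩.irr
      ((aeval_map_algebraMap _ _ _).trans 𝒩.root) (𝒩.monic.map _)]
  exact minpoly.dvd _ _ ((aeval_map_algebraMap _ _ _).trans h)

theorem ND_int : (ae 𝒩.ND_z : MvPolynomial (Fin n) K →+* B).IsIntegral := by
  let _ : Algebra (MvPolynomial (Fin n) K) B := (ae 𝒩.ND_z).toAlgebra
  have _ : Module.Finite (MvPolynomial (Fin n) K) B := by
    refine ⟨Submodule.fg_iff_exists_fin_generating_family.2
      ⟨𝒩.N, fun k => ⟨𝒩.e k, 𝒩.e_mem k⟩, eq_top_iff.2 fun b _ => ?_⟩⟩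
    obtain ⟨γ, hγ⟩ := 𝒩.gen b b.2
    refine (Submodule.mem_span_range_iff_exists_fun _).2 ⟨γ, Subtype.ext ?_⟩
    rw [hγ]
    refine (map_sum B.val _ _).trans (Finset.sum_congr rfl fun k _ => ?_)
    rw [← ND_val]
    rfl
  exact fun b => Algebra.IsIntegral.isIntegral (R := MvPolynomial (Fin n) K) b

theorem integral (b : B) : ∃ Q : (MvPolynomial (Fin n) K)[X], Q.Monic ∧ Q.eval₂ (ae 𝒩.z) b = 0 := by
  obtain ⟨Q, h1, h2⟩ := 𝒩.ND_int b
  exact ⟨Q, h1, (𝒩.ND_ev Q b).symm.trans (congrArg Subtype.val h2)⟩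

theorem ND_pt {S R : Type} [CommRing S] [Algebra K S] [Field R] [Algebra K R] {ξ : Fin n → S}
    {η : S} {ζ : Fin n → R} {ϑ : R} (h : 𝒩.m.eval₂ (ae ζ) ϑ = 0)
    (h1 : ∀ Q : (MvPolynomial (Fin n) K)[X], Q.eval₂ (ae ξ) η = 0 → Q.eval₂ (ae 𝒩.z) 𝒩.θ = 0)
    (h2 : ∀ x : S, ∃ (γ : MvPolynomial (Fin n) K) (Q : (MvPolynomial (Fin n) K)[X]),
      MvPolynomial.aeval ζ γ ≠ 0 ∧ MvPolynomial.aeval ξ γ * x = Q.eval₂ (ae ξ) η) :
    ∃ j : S →ₐ[K] R, (∀ l, j (ξ l) = ζ l) ∧ j η = ϑ := by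
  obtain ⟨e, he⟩ := ND_ext (eval₂RingHom (ae (K := K) ξ) η) (eval₂RingHom (ae (K := K) ζ) ϑ)
    (fun Q k => by
      obtain ⟨Q', rfl⟩ := 𝒩.dvd_of_root (h1 Q k)
      rw [map_mul, coe_eval₂RingHom, h, zero_mul])
    (fun x => by
      obtain ⟨γ, Q, k1, k2⟩ := h2 x
      refine ⟨C γ, Q, ?_, ?_⟩
      · rw [coe_eval₂RingHom, eval₂_C]
        exact k1
      · rw [coe_eval₂RingHom, eval₂_C]
        exact k2)
  refine ⟨⟨e, fun c => ?_⟩, fun l => ?_, ?_⟩
  · simpa using he (C (MvPolynomial.C c))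
  · simpa using he (C (MvPolynomial.X l))
  · simpa using he X

theorem lift {L : Type} [Field L] [Algebra K L] {ζ : Fin n → L} (hζ : AlgebraicIndependent K ζ)
    {ϑ : L} (h : 𝒩.m.eval₂ (ae ζ) ϑ = 0) : ∃ j : F →ₐ[K] L, (∀ l, j (𝒩.z l) = ζ l) ∧ j 𝒩.θ = ϑ := by
  refine 𝒩.ND_pt h (fun _ k => k) fun x => ?_
  obtain ⟨γ, h1, h2⟩ := 𝒩.frac x
  obtain ⟨Q, h3⟩ := 𝒩.den _ h2
  exact ⟨𝒩.Δ * γ, Q, (map_ne_zero_iff _ hζ).2 (mul_ne_zero 𝒩.Δ_ne h1), by
    rw [map_mul, mul_assoc, h3]⟩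

theorem point {z₀ : Fin n → K} (hz : MvPolynomial.aeval z₀ 𝒩.Δ ≠ 0) {ϑ : K}
    (h : 𝒩.m.eval₂ (ae z₀) ϑ = 0) : ∃ e : B →ₐ[K] K, 𝒩.zv e = z₀ ∧ 𝒩.θv e = ϑ := by
  obtain ⟨e, h1, h2⟩ := 𝒩.ND_pt (ξ := 𝒩.ND_z) (η := ⟨_, 𝒩.θ_mem⟩) h
    (fun Q k => (𝒩.ND_ev Q ⟨_, 𝒩.θ_mem⟩).symm.trans (congrArg Subtype.val k)) fun b => by
      obtain ⟨Q, h3⟩ := 𝒩.den b b.2
      refine ⟨𝒩.Δ, Q, hz, Subtype.ext ?_⟩
      rw [ND_ev, MulMemClass.coe_mul, ND_val]
      exact h3
  exact ⟨e, funext h1, h2⟩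

theorem separable {R : Type} [Field R] [Algebra K R] {ζ : Fin n → R}
    (hz : MvPolynomial.aeval ζ 𝒩.Δ ≠ 0) : (𝒩.m.map (ae ζ)).Separable := by
  obtain ⟨a, b, h⟩ := 𝒩.bez
  have h1 := congrArg (Polynomial.map (ae ζ)) h
  rw [Polynomial.map_add, Polynomial.map_mul, Polynomial.map_mul, map_C, ← derivative_map] at h1
  refine ⟨C (ae ζ 𝒩.Δ)⁻¹ * a.map (ae ζ), C (ae ζ 𝒩.Δ)⁻¹ * b.map (ae ζ), ?_⟩
  rw [mul_assoc, mul_assoc, ← mul_add, h1, ← C_mul, inv_mul_cancel₀ (a := ae ζ 𝒩.Δ) hz, C_1]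

theorem lying [IsAlgClosed K] (z₀ : Fin n → K) : ∃ e : B →ₐ[K] K, 𝒩.zv e = z₀ := by
  let _ : Algebra (MvPolynomial (Fin n) K) B := (ae 𝒩.ND_z).toAlgebra
  have _ : Algebra.IsIntegral (MvPolynomial (Fin n) K) B := ⟨𝒩.ND_int⟩
  have _ : (RingHom.ker (ae (K := K) z₀)).IsMaximal :=
    RingHom.ker_isMaximal_of_surjective _ fun c => ⟨MvPolynomial.C c, by simp⟩
  obtain ⟨I, hI, h⟩ := Ideal.exists_ideal_over_maximal_of_isIntegral (S := B)
    (RingHom.ker (ae (K := K) z₀)) fun γ k => by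
      have : γ = 0 := (map_eq_zero_iff _ 𝒩.tb.1).1
        ((𝒩.ND_val γ).symm.trans (congrArg Subtype.val (RingHom.mem_ker.1 k)))
      rw [this]
      exact zero_mem _
  have key : ∀ l, Ideal.Quotient.mkₐ K I (𝒩.ND_z l) = algebraMap K _ (z₀ l) := fun l => by
    have : MvPolynomial.X l - MvPolynomial.C (z₀ l) ∈ RingHom.ker (ae (K := K) z₀) := by
      simp [RingHom.mem_ker]
    rw [← h, Ideal.mem_comap, map_sub] at this
    have h2 := Ideal.Quotient.eq.2 this
    simpa [RingHom.algebraMap_toAlgebra] using h2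
  have _ : Algebra.IsAlgebraic K (B ⧸ I) := ⟨fun x => by
    obtain ⟨b, rfl⟩ := Ideal.Quotient.mkₐ_surjective K I x
    obtain ⟨Q, h1, h2⟩ := 𝒩.ND_int b
    refine IsIntegral.isAlgebraic ⟨Q.map (ae z₀), h1.map _, ?_⟩
    have h3 := ND_hom (Ideal.Quotient.mkₐ K I) 𝒩.ND_z b Q
    rw [h2, map_zero] at h3
    rw [eval₂_map, h3, funext key]
    exact congrArg (fun f => Q.eval₂ f _)
      (RingHom.ext fun γ => MvPolynomial.comp_aeval_apply z₀ (Algebra.ofId K (B ⧸ I)) γ)⟩
  refine ⟨(IsAlgClosed.lift : (B ⧸ I) →ₐ[K] K).comp (Ideal.Quotient.mkₐ K I), funext fun l => ?_⟩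
  exact (congrArg (IsAlgClosed.lift : (B ⧸ I) →ₐ[K] K) (key l)).trans (AlgHom.commutes _ _)

end ND

end Pool.Agent.Work.MP_e120ef_ag.H
end

-- merged part: Pool.Agent.Work.MP_e120ef_ag.H.EntD
section
/-!
# Derivatives of series

Plans.  `ev_chain`: `d` is additive and bounded, hence continuous; apply it to `hasSum_ev` (`HasSum.map`).  On a monomial,
`d (mon z I) = ∑ s, I s * mon z (I - single s 1) * d (z s)` (or use `MvPolynomial.aeval` of `monomial I c` and `Derivation.apply_aeval_eq`-like chain rule); for fixed `s`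
reindex by the injection `I ↦ I + single s 1` (`Function.Injective.hasSum_iff`, `coeff_pderiv`) and add up (`hasSum_sum`).
`ent_zero_of_stable`: for `J` let `H J F` be the series with coefficients `(∏ l, (I l + J l).choose (J l)) * coeff (I + J) F` (Hasse derivative).
`pderiv l (H J F) = (J l + 1) • H (J + single l 1) F`, so by induction a nonzero integer multiple of `H J F` is in `S`, hence `ev (H J F) ζ = 0`.  Suppose `F ≠ 0`; take a real `R > 0` with `‖ζ l‖ ≤ R / 2`, and `J` maximising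
`‖coeff J F‖ * R ^ |J|` (the family tends to zero along `cofinite`).  In `ev (H J F) ζ` the term `I = 0` is `coeff J F`, and every other term has norm at most `‖coeff (I + J) F‖ (R / 2) ^ |I| ≤ ‖coeff J F‖ / 2`: contradiction.
`zero_of_stable`: induction on the degree of `I`, for all elements of `S` at once, with `coeff_pderiv`.
`cross_const`: let `I₀` be the least exponent of `b` (`MvPowerSeries.lexOrder`, `coeff_ne_zero_of_lexOrder`, `coeff_mul_of_add_lexOrder`), `c = a I₀ / b I₀`, `a' = a - C c * b`, which satisfies the same equations.  If `a' ≠ 0` has least exponent `I₁`, multiply the equation by `X l`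
(`coeff I (X l * pderiv l F) = I l * coeff I F`) and compare the coefficients at `I₀ + I₁` (only the pair `(I₁, I₀)` of the antidiagonal contributes): `I₀ l = I₁ l` for all `l`, but `a' I₀ = 0`.
-/

open Filter Topology MvPowerSeries

namespace Pool.Agent.Work.MP_e120ef_ag.H

theorem EntD_ind {σ : Type} {P : (σ →₀ ℕ) → Prop} (h0 : P 0)
    (hs : ∀ J l, P J → P (J + Finsupp.single l 1)) (I : σ →₀ ℕ) : P I := by
  induction I using WellFoundedLT.induction with
  | ind I ih =>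
    by_cases h : I = 0
    · rw [h]; exact h0
    obtain ⟨i, hi⟩ := Finsupp.ne_iff.mp h
    have hi' : I i ≠ 0 := by simpa using hi
    have hle : Finsupp.single i 1 ≤ I := by
      rw [Finsupp.single_le_iff]; omega
    have e : I - Finsupp.single i 1 + Finsupp.single i 1 = I := tsub_add_cancel_of_le hle
    rw [← e]
    refine hs _ _ (ih _ ?_)
    conv_rhs => rw [← e]
    refine lt_add_of_pos_right _ ?_
    exact pos_iff_ne_zero.mpr (by simp)

theorem zero_of_stable {K σ : Type} [Field K] [CharZero K] {S : Set (MvPowerSeries σ K)}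
    (h0 : ∀ F ∈ S, constantCoeff F = 0) (hd : ∀ F ∈ S, ∀ l, pderiv K l F ∈ S) :
    ∀ F ∈ S, F = 0 := by
  have key : ∀ I : σ →₀ ℕ, ∀ F ∈ S, coeff I F = 0 := by
    intro I
    induction I using EntD_ind with
    | h0 => intro F hF; rw [coeff_zero_eq_constantCoeff]; exact h0 F hF
    | hs J l ih =>
      intro F hF
      have h1 := ih _ (hd F hF l)
      rw [coeff_pderiv] at h1
      exact (mul_eq_zero.mp h1).resolve_right (Nat.cast_add_one_ne_zero _)
  intro F hF
  ext I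
  rw [key I F hF, map_zero]

theorem EntD_coeff_mul {K : Type} [Field K] {n : ℕ} {φ ψ : MvPowerSeries (Fin n) K}
    {p q : Fin n →₀ ℕ} (hp : ∀ u, toLex u < toLex p → coeff u φ = 0)
    (hq : ∀ v, toLex v < toLex q → coeff v ψ = 0) :
    coeff (p + q) (φ * ψ) = coeff p φ * coeff q ψ := by
  rw [coeff_mul, Finset.sum_eq_single_of_mem ⟨p, q⟩ (by simp)]
  rintro ⟨u, v⟩ h h'
  replace h : u + v = p + q := Finset.HasAntidiagonal.mem_antidiagonal.mp h
  rcases trichotomy_of_add_eq_add (congrArg toLex h) with h'' | h'' | h''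
  · exact False.elim (h' (by simp [h''.1, h''.2]))
  · rw [hp u h'', zero_mul]
  · rw [hq v h'', mul_zero]

theorem EntD_coeff_euler {K σ : Type} [Field K] (F : MvPowerSeries σ K) (l : σ) (I : σ →₀ ℕ) :
    coeff I (X l * pderiv K l F) = (I l : K) * coeff I F := by
  classical
  rw [X_def, coeff_monomial_mul]
  split_ifs with h
  · rw [one_mul, coeff_pderiv, tsub_add_cancel_of_le h]
    have h1 : 1 ≤ I l := by simpa using Finsupp.single_le_iff.mp h
    have h2 : (I - Finsupp.single l 1 : σ →₀ ℕ) l + 1 = I l := by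
      simp only [Finsupp.coe_tsub, Pi.sub_apply, Finsupp.single_eq_same]; omega
    rw [← h2, mul_comm]; push_cast; rfl
  · have h1 : I l = 0 := by
      rw [Finsupp.single_le_iff] at h; omega
    rw [h1]; simp

theorem cross_const {K : Type} [Field K] [CharZero K] {n : ℕ} {a b : MvPowerSeries (Fin n) K}
    (hb : b ≠ 0) (h : ∀ l, pderiv K l a * b = a * pderiv K l b) : ∃ c : K, a = C c * b := by
  obtain ⟨q, hq⟩ := exists_finsupp_eq_lexOrder_of_ne_zero hb
  have hq0 : coeff q b ≠ 0 := coeff_ne_zero_of_lexOrder hq.symm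
  have hq1 : ∀ v, toLex v < toLex q → coeff v b = 0 := fun v hv =>
    coeff_eq_zero_of_lt_lexOrder (by rw [hq]; exact_mod_cast hv)
  refine ⟨coeff q a / coeff q b, ?_⟩
  obtain ⟨a', ha'⟩ : ∃ a', a' = a - C (coeff q a / coeff q b) * b := ⟨_, rfl⟩
  have h' : ∀ l, pderiv K l a' * b = a' * pderiv K l b := by
    intro l
    rw [ha', map_sub, Derivation.leibniz, pderiv_C, smul_zero, add_zero, smul_eq_mul, sub_mul,
      sub_mul, h l]
    ring
  have hz : coeff q a' = 0 := by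
    rw [ha', map_sub, coeff_C_mul, div_mul_cancel₀ _ hq0, sub_self]
  suffices a' = 0 by rw [ha'] at this; exact sub_eq_zero.mp this
  by_contra hne
  obtain ⟨p, hp⟩ := exists_finsupp_eq_lexOrder_of_ne_zero hne
  have hp0 : coeff p a' ≠ 0 := coeff_ne_zero_of_lexOrder hp.symm
  have hp1 : ∀ v, toLex v < toLex p → coeff v a' = 0 := fun v hv =>
    coeff_eq_zero_of_lt_lexOrder (by rw [hp]; exact_mod_cast hv)
  have hpq : p = q := by
    ext l
    have e1 : (X l * pderiv K l a') * b = a' * (X l * pderiv K l b) := by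
      rw [mul_assoc, h' l]; ring
    have e2 := congrArg (coeff (p + q)) e1
    rw [EntD_coeff_mul (fun u hu => by rw [EntD_coeff_euler, hp1 u hu, mul_zero]) hq1,
      EntD_coeff_mul hp1 (fun u hu => by rw [EntD_coeff_euler, hq1 u hu, mul_zero]),
      EntD_coeff_euler, EntD_coeff_euler] at e2
    have e3 : ((p l : K) - (q l : K)) * (coeff p a' * coeff q b) = 0 := by
      linear_combination e2
    have e4 := (mul_eq_zero.mp e3).resolve_right (mul_ne_zero hp0 hq0)
    exact_mod_cast sub_eq_zero.mp e4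
  exact hp0 (hpq ▸ hz)

variable {K : Type} [NontriviallyNormedField K] [IsUltrametricDist K] {σ : Type} [Fintype σ]
  {L : Type} [NontriviallyNormedField L] [IsUltrametricDist L] [CompleteSpace L] [NormedAlgebra K L]

theorem EntD_chain {K L σ : Type} [CommRing K] [CommRing L] [Algebra K L] [Fintype σ]
    (d : Derivation K L L) (z : σ → L) (P : MvPolynomial σ K) :
    d (MvPolynomial.aeval z P) = ∑ s, MvPolynomial.aeval z (MvPolynomial.pderiv s P) * d (z s) := by
  classical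
  induction P using MvPolynomial.induction_on with
  | C a => simp
  | add p q hp hq => simp only [map_add, hp, hq, add_mul, Finset.sum_add_distrib]
  | mul_X p i hp =>
    have e : ∀ s, MvPolynomial.aeval z (MvPolynomial.pderiv s (p * MvPolynomial.X i)) * d (z s) =
        (if s = i then MvPolynomial.aeval z p * d (z s) else 0) +
          z i * (MvPolynomial.aeval z (MvPolynomial.pderiv s p) * d (z s)) := by
      intro s
      rw [Derivation.leibniz]
      by_cases hs : s = i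
      · subst hs
        simp only [MvPolynomial.pderiv_X_self, smul_eq_mul, mul_one, map_add, map_mul,
          MvPolynomial.aeval_X, if_true]
        ring
      · rw [MvPolynomial.pderiv_X_of_ne (Ne.symm hs), if_neg hs]
        simp only [smul_eq_mul, mul_zero, map_mul, zero_add, MvPolynomial.aeval_X]
        ring
    rw [Finset.sum_congr rfl fun s _ => e s, Finset.sum_add_distrib, ← Finset.mul_sum, ← hp,
      map_mul, Derivation.leibniz, MvPolynomial.aeval_X]
    simp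

theorem ev_chain (d : Derivation K L L) {C : ℝ} (hd : ∀ x, ‖d x‖ ≤ C * ‖x‖) (F : Ent K σ)
    (z : σ → L) : d (evE z F) = ∑ s, evE z (pdE K s F) * d (z s) := by
  have hc : Continuous d := AddMonoidHomClass.continuous_of_bound d C hd
  have h1 := (hasSum_ev (F := F.1) (z := z) (F.2 _)).map d hc
  have h2 : ∀ s, HasSum (fun I : σ →₀ ℕ => algebraMap K L (coeff I F.1 * (I s : K)) *
      mon z (I - Finsupp.single s 1)) (evE z (pdE K s F)) := by
    intro s
    have hinj : Function.Injective fun J : σ →₀ ℕ => J + Finsupp.single s 1 :=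
      add_left_injective _
    rw [← hinj.hasSum_iff]
    · have h3 := hasSum_ev (F := (pdE K s F).1) (z := z) ((pdE K s F).2 _)
      rw [evE_apply]
      convert h3 using 1
      funext J
      simp only [Function.comp, pdE_val, coeff_pderiv, add_tsub_cancel_right, Finsupp.add_apply,
        Finsupp.single_eq_same, Nat.cast_add, Nat.cast_one]
    · intro I hI
      have : I s = 0 := by
        by_contra hne
        refine hI ⟨I - Finsupp.single s 1, tsub_add_cancel_of_le ?_⟩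
        rw [Finsupp.single_le_iff]; omega
      rw [this]; simp
  have h4 := hasSum_sum (s := Finset.univ) fun s _ => (h2 s).mul_right (d (z s))
  rw [evE_apply]
  have e5 : (⇑d ∘ fun I => algebraMap K L (coeff I F.1) * mon z I) = fun I : σ →₀ ℕ =>
      ∑ s, algebraMap K L (coeff I F.1 * (I s : K)) * mon z (I - Finsupp.single s 1) * d (z s) := by
    funext I
    have e := EntD_chain d z (MvPolynomial.monomial I (coeff I F.1))
    simp only [MvPolynomial.pderiv_monomial, MvPolynomial.aeval_monomial] at e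
    exact e
  rw [e5] at h1
  exact h1.unique h4

/-- Hasse derivatives -/
noncomputable def EntD_H {K σ : Type} [Field K] [Fintype σ] (J : σ →₀ ℕ) (F : MvPowerSeries σ K) :
    MvPowerSeries σ K := fun I => ((∏ l, (I l + J l).choose (J l) : ℕ) : K) * coeff (I + J) F

theorem EntD_H_coeff {K σ : Type} [Field K] [Fintype σ] (J : σ →₀ ℕ) (F : MvPowerSeries σ K)
    (I : σ →₀ ℕ) : coeff I (EntD_H J F) =
      ((∏ l, (I l + J l).choose (J l) : ℕ) : K) * coeff (I + J) F := rfl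

theorem EntD_H_zero {K σ : Type} [Field K] [Fintype σ] (F : MvPowerSeries σ K) :
    EntD_H 0 F = F := by
  ext I
  simp [EntD_H_coeff]

theorem EntD_H_pderiv {K σ : Type} [Field K] [Fintype σ] (J : σ →₀ ℕ) (F : MvPowerSeries σ K)
    (l : σ) : pderiv K l (EntD_H J F) = ((J l : K) + 1) • EntD_H (J + Finsupp.single l 1) F := by
  classical
  ext I
  rw [coeff_pderiv, map_smul, EntD_H_coeff, EntD_H_coeff, smul_eq_mul]
  have e1 : I + Finsupp.single l 1 + J = I + (J + Finsupp.single l 1) := by abel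
  have e2 : (∏ m, ((I + Finsupp.single l 1 : σ →₀ ℕ) m + J m).choose (J m)) * (I l + 1) =
      (J l + 1) * ∏ m, (I m + (J + Finsupp.single l 1 : σ →₀ ℕ) m).choose
        ((J + Finsupp.single l 1 : σ →₀ ℕ) m) := by
    rw [← Finset.mul_prod_erase _ _ (Finset.mem_univ l),
      ← Finset.mul_prod_erase Finset.univ _ (Finset.mem_univ l)]
    have e3 : ∏ m ∈ Finset.univ.erase l,
        ((I + Finsupp.single l 1 : σ →₀ ℕ) m + J m).choose (J m) =
        ∏ m ∈ Finset.univ.erase l, (I m + (J + Finsupp.single l 1 : σ →₀ ℕ) m).choose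
        ((J + Finsupp.single l 1 : σ →₀ ℕ) m) := by
      refine Finset.prod_congr rfl fun m hm => ?_
      have hm' : m ≠ l := Finset.ne_of_mem_erase hm
      simp [Finsupp.single_eq_of_ne hm']
    rw [e3]
    have e4 := Nat.choose_succ_right_eq (I l + (J l + 1)) (J l)
    have e5 : I l + (J l + 1) - J l = I l + 1 := by omega
    have e6 : I l + 1 + J l = I l + (J l + 1) := by omega
    rw [e5] at e4
    simp only [Finsupp.add_apply, Finsupp.single_eq_same, e6]
    rw [mul_right_comm, ← e4]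
    ring
  have e7 := congrArg (Nat.cast : ℕ → K) e2
  rw [Nat.cast_mul, Nat.cast_mul, Nat.cast_add, Nat.cast_add, Nat.cast_one] at e7
  rw [e1, mul_right_comm, e7]
  ring

theorem EntD_prod_const {σ : Type} [Fintype σ] (x : ℝ) (I : σ →₀ ℕ) :
    I.prod (fun _ n => x ^ n) = x ^ (∑ l, I l) := by
  rw [Finsupp.prod_fintype _ _ (fun _ => pow_zero _), Finset.prod_pow_eq_pow_sum]

theorem ent_zero_of_stable [CharZero K] (ζ : σ → L) {S : Set (Ent K σ)}
    (h0 : ∀ F ∈ S, evE ζ F = 0) (hd : ∀ F ∈ S, ∀ l, pdE K l F ∈ S) : ∀ F ∈ S, F = 0 := by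
  classical
  intro F hF
  have key : ∀ J : σ →₀ ℕ, ∃ c : K, c ≠ 0 ∧ ∃ G ∈ S, G.1 = c • EntD_H J F.1 := by
    intro J
    induction J using EntD_ind with
    | h0 => exact ⟨1, one_ne_zero, F, hF, by rw [EntD_H_zero, one_smul]⟩
    | hs J l ih =>
      obtain ⟨c, hc, G, hG, e⟩ := ih
      refine ⟨c * ((J l : K) + 1), mul_ne_zero hc (Nat.cast_add_one_ne_zero _), _, hd G hG l, ?_⟩
      rw [pdE_val, e, Derivation.map_smul, EntD_H_pderiv, smul_smul]
  by_contra hne
  obtain ⟨I₀, hI₀⟩ : ∃ I₀, coeff I₀ F.1 ≠ 0 := by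
    by_contra hall
    push Not at hall
    exact hne (Subtype.ext (MvPowerSeries.ext fun I => by rw [hall I]; simp))
  obtain ⟨r, hr0, hr⟩ : ∃ r : ℝ, 0 < r ∧ ∀ l, ‖ζ l‖ ≤ r :=
    ⟨‖ζ‖ + 1, by positivity, fun l => (norm_le_pi_norm ζ l).trans (by linarith)⟩
  obtain ⟨g, hg⟩ : ∃ g : (σ →₀ ℕ) → ℝ, g = fun I => ‖coeff I F.1‖ * (2 * r) ^ (∑ l, I l) :=
    ⟨_, rfl⟩
  have hlim : Tendsto g cofinite (𝓝 0) := by
    have := F.2 (fun _ => 2 * r)
    unfold IsRestricted at this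
    rw [hg]
    simpa only [EntD_prod_const] using this
  have hpos : 0 < g I₀ := by
    rw [hg]
    exact mul_pos (norm_pos_iff.mpr hI₀) (by positivity)
  have hfin : {I | g I₀ ≤ g I}.Finite := by
    have := hlim.eventually (gt_mem_nhds hpos)
    rw [eventually_cofinite] at this
    simpa only [not_lt] using this
  obtain ⟨J, hJ, hmax⟩ := Set.exists_max_image _ g hfin ⟨I₀, le_refl (g I₀)⟩
  have hJ' : g I₀ ≤ g J := hJ
  have hmax' : ∀ I, g I ≤ g J := fun I => by
    by_cases h : g I₀ ≤ g I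
    · exact hmax I h
    · linarith [not_le.mp h]
  have hJ0 : coeff J F.1 ≠ 0 := by
    intro h
    have : g J = 0 := by rw [hg]; simp [h]
    linarith
  obtain ⟨c, hc, G, hG, e⟩ := key J
  have hG0 : coeff 0 G.1 = c * coeff J F.1 := by
    rw [e, map_smul, EntD_H_coeff]; simp
  have hev : evE ζ (G - algebraMap K (Ent K σ) (c * coeff J F.1)) =
      - algebraMap K L (c * coeff J F.1) := by
    rw [map_sub, h0 G hG, AlgHom.commutes, zero_sub]
  have hb : ‖ev (G - algebraMap K (Ent K σ) (c * coeff J F.1)).1 ζ‖ ≤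
      ‖c‖ * ‖coeff J F.1‖ / 2 := by
    refine norm_ev_le (by positivity) fun I => ?_
    have hval : (G - algebraMap K (Ent K σ) (c * coeff J F.1)).1 = G.1 - C (c * coeff J F.1) := rfl
    rw [hval, map_sub, coeff_C]
    split_ifs with hI
    · rw [hI, hG0, sub_self, norm_zero, zero_mul]; positivity
    · rw [sub_zero, e, map_smul, EntD_H_coeff, smul_eq_mul, norm_mul, norm_mul]
      have a1 : ‖((∏ l, (I l + J l).choose (J l) : ℕ) : K)‖ ≤ 1 :=
        IsUltrametricDist.norm_natCast_le_one _ _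
      have a2 : I.prod (fun s n => ‖ζ s‖ ^ n) ≤ r ^ (∑ l, I l) := by
        rw [← EntD_prod_const]
        exact Finset.prod_le_prod (fun s _ => by positivity)
          fun s _ => pow_le_pow_left₀ (norm_nonneg _) (hr s) _
      have a3 : 1 ≤ ∑ l, I l := by
        obtain ⟨i, hi⟩ := Finsupp.ne_iff.mp hI
        have hi' : 1 ≤ I i := Nat.one_le_iff_ne_zero.mpr (by simpa using hi)
        exact hi'.trans (Finset.single_le_sum (f := fun l => I l) (fun _ _ => Nat.zero_le _)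
          (Finset.mem_univ i))
      have a4 : ‖coeff (I + J) F.1‖ * (2 * r) ^ (∑ l, I l) ≤ ‖coeff J F.1‖ := by
        have := hmax' (I + J)
        rw [hg] at this
        simp only [Finsupp.add_apply, Finset.sum_add_distrib, pow_add] at this
        rw [← mul_assoc] at this
        exact le_of_mul_le_mul_right this (by positivity)
      have a5 : 2 * r ^ (∑ l, I l) ≤ (2 * r) ^ (∑ l, I l) := by
        rw [mul_pow]
        refine mul_le_mul_of_nonneg_right ?_ (by positivity)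
        calc (2 : ℝ) = 2 ^ 1 := by norm_num
          _ ≤ _ := pow_le_pow_right₀ (by norm_num) a3
      have a6 : ‖coeff (I + J) F.1‖ * r ^ (∑ l, I l) ≤ ‖coeff J F.1‖ / 2 := by
        have := mul_le_mul_of_nonneg_left a5 (norm_nonneg (coeff (I + J) F.1))
        linarith
      have a7 : 0 ≤ I.prod (fun s n => ‖ζ s‖ ^ n) :=
        Finset.prod_nonneg fun s _ => by positivity
      calc ‖c‖ * (‖((∏ l, (I l + J l).choose (J l) : ℕ) : K)‖ * ‖coeff (I + J) F.1‖) *
            I.prod (fun s n => ‖ζ s‖ ^ n)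
          ≤ ‖c‖ * (1 * ‖coeff (I + J) F.1‖) * r ^ (∑ l, I l) := by gcongr
        _ = ‖c‖ * (‖coeff (I + J) F.1‖ * r ^ (∑ l, I l)) := by ring
        _ ≤ ‖c‖ * (‖coeff J F.1‖ / 2) := by gcongr
        _ = _ := by ring
  rw [← evE_apply, hev, norm_neg, norm_algebraMap', norm_mul] at hb
  have : 0 < ‖c‖ * ‖coeff J F.1‖ := mul_pos (norm_pos_iff.mpr hc) (norm_pos_iff.mpr hJ0)
  linarith

end Pool.Agent.Work.MP_e120ef_ag.H
end

-- merged part: Pool.Agent.Work.MP_e120ef_ag.H.STR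
section
/-!
# Entire functions on a finite cover of affine space

Plans.  For a polynomial or series `G` and radii `c > 0` write `‖G‖_c` for `MvPowerSeries.gaussNorm norm c G` (submultiplicative and ultrametric: `gaussNorm_mul_le`, `gaussNorm_add_le_max`, `le_gaussNorm`; or work with the predicate `∀ J, ‖coeff J G‖ * J.prod (c · ^ ·) ≤ ε`).
`ent_sum`: let `E` have coefficients `∑' i, coeff J (u i)`.  Given `c` and `ε`, all but finitely many `i` have all terms `≤ ε`, and the finitely many other `u i` are polynomials.  For the values use summability of the double family `(i, J)` (it tends to zero along `cofinite`), `HasSum.prod_fiberwise` twice.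
`exists_str`: choose `γ i k k'` with `s i * e k = ∑ k', γ i k k' * e k'` and `γ₀` with `1 = ∑ γ₀ k * e k` (`gen`).  Define `P I : Fin N → MvPolynomial` with `mon s I = ∑ k, aeval z (P I k) * e k` by recursion on the degree of `I` (for `I ≠ 0` choose `i` in the support, `P I k' = ∑ k, P (I - single i 1) k * γ i k k'`); it is enough to prove the existence of a family `P` with this identity and,
for every `c`, a constant `A ≥ 1` with `‖P I k‖_c ≤ A ^ (degree I + 1)`.  Apply `ent_sum` to `u I = coeff I a • P I k`: `‖coeff I a‖ * A ^ degree I → 0` as `a` is entire.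
-/

open Filter Topology MvPowerSeries

namespace Pool.Agent.Work.MP_e120ef_ag.H

variable {K : Type} [NontriviallyNormedField K] [IsUltrametricDist K] [CompleteSpace K]

theorem STR_pos {σ : Type} {c : σ → ℝ} (hc : ∀ s, 0 < c s) (J : σ →₀ ℕ) : 0 < mon c J :=
  Finset.prod_pos fun s _ => pow_pos (hc s) _

/-- all terms of `P` are at most `ε` for the radii `c` -/
def STR_Bd {σ : Type} (c : σ → ℝ) (P : MvPolynomial σ K) (ε : ℝ) : Prop :=
  ∀ J, ‖P.coeff J‖ * mon c J ≤ ε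

omit [CompleteSpace K] in
theorem STR_sum {σ α : Type} {c : σ → ℝ} (hc : ∀ s, 0 < c s) (J : σ →₀ ℕ) {ε : ℝ} (hε : 0 ≤ ε)
    (t : Finset α) (x : α → K) (h : ∀ a ∈ t, ‖x a‖ * mon c J ≤ ε) :
    ‖∑ a ∈ t, x a‖ * mon c J ≤ ε := by
  rw [← le_div_iff₀ (STR_pos hc J)]
  exact IsUltrametricDist.norm_sum_le_of_forall_le_of_nonneg (div_nonneg hε (STR_pos hc J).le)
    fun a ha => (le_div_iff₀ (STR_pos hc J)).2 (h a ha)

omit [CompleteSpace K] in
theorem STR_step {σ α : Type} [Fintype α] {c : σ → ℝ} (hc : ∀ s, 0 < c s) {a b : ℝ} (ha : 0 ≤ a)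
    (hb : 0 ≤ b) {P Q : α → MvPolynomial σ K} (hP : ∀ k, STR_Bd c (P k) a)
    (hQ : ∀ k, STR_Bd c (Q k) b) : STR_Bd c (∑ k, P k * Q k) (a * b) := by
  classical
  intro J
  rw [MvPolynomial.coeff_sum]
  refine STR_sum hc J (mul_nonneg ha hb) _ _ fun k _ => ?_
  rw [MvPolynomial.coeff_mul]
  refine STR_sum hc J (mul_nonneg ha hb) _ _ fun p hp => ?_
  rw [← Finset.HasAntidiagonal.mem_antidiagonal.1 hp, Ent_mon_add, norm_mul, mul_mul_mul_comm]
  exact mul_le_mul (hP k _) (hQ k _) (mul_nonneg (norm_nonneg _) (STR_pos hc _).le) ha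

omit [IsUltrametricDist K] [CompleteSpace K] in
theorem STR_ex {σ α : Type} [Fintype α] {c : σ → ℝ} (hc : ∀ s, 0 < c s)
    (P : α → MvPolynomial σ K) : ∃ A, 0 < A ∧ ∀ k, STR_Bd c (P k) A := by
  have h0 : ∀ k J, 0 ≤ ‖(P k).coeff J‖ * mon c J := fun k J =>
    mul_nonneg (norm_nonneg _) (STR_pos hc _).le
  have h1 : ∀ k, 0 ≤ ∑ J ∈ (P k).support, ‖(P k).coeff J‖ * mon c J := fun k =>
    Finset.sum_nonneg fun J _ => h0 k J
  have h2 := Finset.sum_nonneg fun k (_ : k ∈ Finset.univ) => h1 k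
  refine ⟨1 + ∑ k, ∑ J ∈ (P k).support, ‖(P k).coeff J‖ * mon c J, by linarith, fun k J => ?_⟩
  by_cases hJ : J ∈ (P k).support
  · have h3 := Finset.single_le_sum (fun J _ => h0 k J) hJ
    have h4 := Finset.single_le_sum (fun k _ => h1 k) (Finset.mem_univ k)
    linarith
  · rw [MvPolynomial.notMem_support_iff.1 hJ, norm_zero, zero_mul]
    linarith

theorem STR_list {σ : Type} (I : σ →₀ ℕ) :
    ∃ l : List σ, ∀ (R : Type) [CommMonoid R] (s : σ → R), (l.map s).prod = mon s I := by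
  induction I using Finsupp.induction_linear with
  | zero => exact ⟨[], fun R _ s => by simp [mon]⟩
  | add I J hI hJ =>
    obtain ⟨l, hl⟩ := hI
    obtain ⟨l', hl'⟩ := hJ
    exact ⟨l ++ l', fun R _ s => by rw [List.map_append, List.prod_append, hl, hl', Ent_mon_add]⟩
  | single a m =>
    refine ⟨List.replicate m a, fun R _ s => ?_⟩
    rw [List.map_replicate, List.prod_replicate, mon,
      Finsupp.prod_single_index (h := fun t n => s t ^ n) (pow_zero _)]

/-- coordinates of a word in the generators -/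
noncomputable def STR_Q {σ α ρ : Type} [Fintype α] (γ₀ : α → MvPolynomial σ K)
    (γ : ρ → α → α → MvPolynomial σ K) : List ρ → α → MvPolynomial σ K
  | [] => γ₀
  | i :: l => fun k' => ∑ k, STR_Q γ₀ γ l k * γ i k k'

omit [CompleteSpace K] in
theorem STR_Q_bd {σ α ρ : Type} [Fintype α] {γ₀ : α → MvPolynomial σ K}
    {γ : ρ → α → α → MvPolynomial σ K} {c : σ → ℝ} (hc : ∀ s, 0 < c s) {A₀ A : ℝ} (h₀ : 0 < A₀)
    (hA : 0 < A) (h1 : ∀ k, STR_Bd c (γ₀ k) A₀) (h2 : ∀ i k k', STR_Bd c (γ i k k') A)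
    (l : List ρ) : 0 < (l.map fun _ => A).prod ∧
      ∀ k, STR_Bd c (STR_Q γ₀ γ l k) (A₀ * (l.map fun _ => A).prod) := by
  induction l with
  | nil => exact ⟨by simp, fun k => by simpa [STR_Q] using h1 k⟩
  | cons i l ih =>
    rw [List.map_cons, List.prod_cons]
    refine ⟨mul_pos hA ih.1, fun k' => ?_⟩
    rw [mul_comm A, ← mul_assoc]
    exact STR_step hc (mul_pos h₀ ih.1).le hA.le ih.2 fun k => h2 i k k'

omit [IsUltrametricDist K] [CompleteSpace K] in
theorem STR_Q_ev {σ α ρ R : Type} [Fintype α] [CommRing R] [Algebra K R]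
    {γ₀ : α → MvPolynomial σ K} {γ : ρ → α → α → MvPolynomial σ K} {z : σ → R} {e : α → R}
    {s : ρ → R} (h1 : 1 = ∑ k, MvPolynomial.aeval z (γ₀ k) * e k)
    (h2 : ∀ i k, s i * e k = ∑ k', MvPolynomial.aeval z (γ i k k') * e k') (l : List ρ) :
    (l.map s).prod = ∑ k, MvPolynomial.aeval z (STR_Q γ₀ γ l k) * e k := by
  induction l with
  | nil => exact h1
  | cons i l ih =>
    rw [List.map_cons, List.prod_cons, ih, Finset.mul_sum]
    simp only [STR_Q, map_sum, map_mul, Finset.sum_mul]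
    rw [Finset.sum_comm]
    refine Finset.sum_congr rfl fun k _ => ?_
    rw [mul_left_comm, h2, Finset.mul_sum]
    exact Finset.sum_congr rfl fun k' _ => (mul_assoc _ _ _).symm

theorem ent_sum {ι σ : Type} (u : ι → MvPolynomial σ K)
    (hu : ∀ c : σ → ℝ, (∀ s, 0 < c s) → ∀ ε > 0, ∀ᶠ i in cofinite,
      ∀ J, ‖(u i).coeff J‖ * J.prod (fun s m => c s ^ m) ≤ ε) :
    ∃ E : Ent K σ, ∀ (L : Type) [NontriviallyNormedField L] [IsUltrametricDist L] [CompleteSpace L]
      [NormedAlgebra K L] (z : σ → L),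
      HasSum (fun i => MvPolynomial.aeval z (u i)) (evE z E) := by
  have fin : ∀ c : σ → ℝ, (∀ s, 0 < c s) → ∀ ε > 0,
      {p : ι × (σ →₀ ℕ) | ¬ ‖(u p.1).coeff p.2‖ * mon c p.2 ≤ ε}.Finite := by
    intro c hc ε hε
    refine ((Filter.eventually_cofinite.1 (hu c hc ε hε)).biUnion fun i _ =>
      (u i).support.finite_toSet.image (Prod.mk i)).subset fun p hp => ?_
    refine Set.mem_biUnion (x := p.1) (fun h => hp (h p.2)) ⟨p.2, ?_, rfl⟩
    by_contra h
    rw [Finset.mem_coe, MvPolynomial.notMem_support_iff] at h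
    exact hp (by rw [h, norm_zero, zero_mul]; exact hε.le)
  have ten : ∀ c : σ → ℝ, (∀ s, 0 < c s) → Tendsto
      (fun p : ι × (σ →₀ ℕ) => ‖(u p.1).coeff p.2‖ * mon c p.2) cofinite (𝓝 0) := by
    intro c hc
    refine tendsto_order.2 ⟨fun a ha => Eventually.of_forall fun p =>
      ha.trans_le (mul_nonneg (norm_nonneg _) (STR_pos hc _).le), fun a ha => ?_⟩
    exact (Filter.eventually_cofinite.2 (fin c hc (a / 2) (half_pos ha))).mono fun p hp =>
      hp.trans_lt (half_lt_self ha)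
  have sm : ∀ J, Summable fun i => (u i).coeff J := by
    intro J
    refine NonarchimedeanAddGroup.summable_of_tendsto_cofinite_zero ?_
    rw [tendsto_zero_iff_norm_tendsto_zero]
    have h := ((ten (fun _ => 1) fun _ => one_pos).comp
      (Prod.mk_left_injective J).tendsto_cofinite)
    refine h.congr fun i => ?_
    simp [mon]
  let E : MvPowerSeries σ K := fun J => ∑' i, (u i).coeff J
  have hE : ∀ J, coeff J E = ∑' i, (u i).coeff J := fun _ => rfl
  have hr : ∀ c : σ → ℝ, (∀ s, 0 < c s) → IsRestricted c E := by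
    intro c hc
    refine tendsto_order.2 ⟨fun a ha => Eventually.of_forall fun J =>
      ha.trans_le (mul_nonneg (norm_nonneg _) (STR_pos hc _).le), fun a ha => ?_⟩
    refine Filter.eventually_cofinite.2
      (((fin c hc (a / 2) (half_pos ha)).image Prod.snd).subset fun J hJ => ?_)
    by_contra h
    refine hJ (lt_of_le_of_lt ?_ (half_lt_self ha))
    change _ * mon c J ≤ _
    rw [hE, ← le_div_iff₀ (STR_pos hc J)]
    refine IsUltrametricDist.norm_tsum_le_of_forall_le_of_nonneg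
      (div_nonneg (half_pos ha).le (STR_pos hc J).le) fun i => ?_
    rw [le_div_iff₀ (STR_pos hc J)]
    by_contra h'
    exact h ⟨(i, J), h', rfl⟩
  refine ⟨⟨E, fun c => ?_⟩, fun L _ _ _ _ z => ?_⟩
  · rw [← isRestricted_abs_iff]
    exact res_mono (hr (fun s => |c s| + 1) fun s => by positivity) (fun s => abs_nonneg _)
      fun s => le_add_of_nonneg_right zero_le_one
  have hs : Summable fun p : ι × (σ →₀ ℕ) => algebraMap K L ((u p.1).coeff p.2) * mon z p.2 := by
    refine NonarchimedeanAddGroup.summable_of_tendsto_cofinite_zero ?_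
    rw [tendsto_zero_iff_norm_tendsto_zero]
    refine tendsto_const_nhds.squeeze (ten (fun s => ‖z s‖ + 1) fun s => by positivity)
      (fun p => norm_nonneg _) fun p => ?_
    simp only [Ent_norm_term]
    refine mul_le_mul_of_nonneg_left ?_ (norm_nonneg _)
    exact Finset.prod_le_prod (fun s _ => pow_nonneg (norm_nonneg _) _) fun s _ =>
      pow_le_pow_left₀ (norm_nonneg _) (le_add_of_nonneg_right zero_le_one) _
  have h1 := hs.hasSum.prod_fiberwise (g := fun i => MvPolynomial.aeval z (u i)) fun i => by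
    have h := hasSum_ev (z := z) (coe_res _ (u i))
    rw [ev_coe] at h
    simpa only [MvPolynomial.coeff_coe] using h
  have h2 := ((Equiv.prodComm _ _).hasSum_iff.2 hs.hasSum).prod_fiberwise
    (g := fun J => algebraMap K L (coeff J E) * mon z J) fun J =>
      ((sm J).hasSum.map (algebraMap K L) (continuous_algebraMap K L)).mul_right (mon z J)
  rw [evE_apply, ev, h2.tsum_eq]
  exact h1

variable {F : Type} [Field F] [Algebra K F] {B : Subalgebra K F} {n : ℕ} (𝒩 : ND B n)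

theorem exists_str {r : ℕ} (s : Fin r → B) (a : Ent K (Fin r)) :
    ∃ E : Fin 𝒩.N → Ent K (Fin n), ∀ (L : Type) [NontriviallyNormedField L] [IsUltrametricDist L]
      [CompleteSpace L] [NormedAlgebra K L] (j : B →ₐ[K] L),
      evE (fun i => j (s i)) a = ∑ k, evE (𝒩.zv j) (E k) * j ⟨𝒩.e k, 𝒩.e_mem k⟩ := by
  choose γ hγ using fun (i : Fin r) (k : Fin 𝒩.N) =>
    𝒩.gen _ (B.mul_mem (s i).2 (𝒩.e_mem k))
  obtain ⟨γ₀, h₀⟩ := 𝒩.gen 1 B.one_mem
  choose l hl using fun I : Fin r →₀ ℕ => STR_list I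
  choose E hE using fun k : Fin 𝒩.N => ent_sum
    (fun I => MvPolynomial.C (coeff I a.1) * STR_Q γ₀ γ (l I) k) fun c hc ε hε => by
      obtain ⟨A₀, p₀, b₀⟩ := STR_ex hc γ₀
      obtain ⟨A, p, b⟩ := STR_ex hc fun x : Fin r × Fin 𝒩.N × Fin 𝒩.N => γ x.1 x.2.1 x.2.2
      have h := (a.2 fun _ => A).const_mul A₀
      rw [mul_zero] at h
      refine (h.eventually (ge_mem_nhds hε)).mono fun I hI J => le_trans ?_ hI
      have k1 := (STR_Q_bd hc p₀ p b₀ (fun i k k' => b (i, k, k')) (l I)).2 k J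
      rw [hl] at k1
      rw [MvPolynomial.coeff_C_mul, norm_mul, mul_assoc, mul_left_comm A₀]
      exact mul_le_mul_of_nonneg_left k1 (norm_nonneg (coeff I a.1))
  refine ⟨E, fun L _ _ _ _ j => ?_⟩
  have tr : ∀ (b : B) (δ : Fin 𝒩.N → MvPolynomial (Fin n) K),
      (b : F) = ∑ k, MvPolynomial.aeval 𝒩.z (δ k) * 𝒩.e k →
      j b = ∑ k, MvPolynomial.aeval (𝒩.zv j) (δ k) * j ⟨𝒩.e k, 𝒩.e_mem k⟩ := by
    intro b δ h
    have e : b = ∑ k, (⟨_, 𝒩.ae_mem (δ k)⟩ * ⟨𝒩.e k, 𝒩.e_mem k⟩ : B) :=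
      Subtype.ext (h.trans (by rw [AddSubmonoidClass.coe_finsetSum]; rfl))
    rw [e, map_sum]
    exact Finset.sum_congr rfl fun k _ => by rw [map_mul, 𝒩.map_ae]
  have k1 := fun I => STR_Q_ev (z := 𝒩.zv j) (e := fun k => j ⟨𝒩.e k, 𝒩.e_mem k⟩)
    (s := fun i => j (s i)) ((map_one j).symm.trans (tr 1 γ₀ h₀))
    (fun i k => (map_mul j _ _).symm.trans (tr _ _ (hγ i k))) (l I)
  have k2 := hasSum_sum (s := Finset.univ) fun k _ =>
    (hE k L (𝒩.zv j)).mul_right (j ⟨𝒩.e k, 𝒩.e_mem k⟩)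
  rw [evE_apply, ev, ← k2.tsum_eq]
  refine tsum_congr fun I => ?_
  rw [← hl, k1, Finset.mul_sum]
  refine Finset.sum_congr rfl fun k _ => ?_
  rw [map_mul, MvPolynomial.aeval_C, mul_assoc]

end Pool.Agent.Work.MP_e120ef_ag.H
end

-- merged part: Pool.Agent.Work.MP_e120ef_ag.Br.V0
section
/-! V0: the Gauss norm `gs` and the filters `FF`, `GG` (owner helper45). -/

set_option linter.unusedSectionVars false

open Filter Topology Polynomial

namespace Pool.Agent.Work.MP_e120ef_ag.Br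

variable {L : Type} [NontriviallyNormedField L] [IsUltrametricDist L] [IsAlgClosed L] [Om L]
  {a a' b c t : L} {ρ ρ' r s ε : ℝ} {p q : L[X]} {S E : Set L} {Φ Ψ : L → L}

/-- `p / q` has no pole in `S` and approximates `Ψ` on `S` off `E` up to `ε` -/
def Ap (Ψ : L → L) (S E : Set L) (ε : ℝ) (p q : L[X]) : Prop :=
  (∀ t ∈ S, q.eval t ≠ 0) ∧ ∀ t ∈ S, t ∉ E → ‖Ψ t - p.eval t / q.eval t‖ ≤ ε

/-- the same, remembering the roots -/
theorem poly_ind' {P : L[X] → Prop} {Z : Set L} (hC : ∀ c, c ≠ 0 → P (C c))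
    (hX : ∀ b ∈ Z, P (X - C b)) (hm : ∀ p q, P p → P q → P (p * q)) (hp : p ≠ 0)
    (hZ : ∀ b, p.eval b = 0 → b ∈ Z) : P p := by
  have e := (IsAlgClosed.splits p).eq_prod_roots
  have k : ∀ b ∈ p.roots, b ∈ Z := fun b hb => hZ b (isRoot_of_mem_roots hb)
  have h0 := hC _ (leadingCoeff_ne_zero.2 hp)
  rw [e]
  generalize p.roots = m at k
  induction m using Multiset.induction_on with
  | empty => simpa using h0
  | cons b m ih =>
    rw [Multiset.map_cons, Multiset.prod_cons, mul_left_comm]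
    exact hm _ _ (hX b (k b (Multiset.mem_cons_self _ _)))
      (ih fun c hc => k c (Multiset.mem_cons_of_mem hc))

/-- polynomials are products of constants and linear factors -/
theorem poly_ind {P : L[X] → Prop} (hC : ∀ c, P (C c)) (hX : ∀ b, P (X - C b))
    (hm : ∀ p q, P p → P q → P (p * q)) (p : L[X]) : P p := by
  by_cases hp : p = 0
  · rw [hp, ← C_0]; exact hC 0
  · exact poly_ind' (Z := Set.univ) (fun c _ => hC c) (fun b _ => hX b) hm hp fun _ _ => trivial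

theorem gs_nonneg (a : L) (ρ : ℝ) (p : L[X]) : 0 ≤ gs a ρ p := mul_nonneg (norm_nonneg _) (Multiset.prod_nonneg fun x hx => by
    obtain ⟨b, -, rfl⟩ := Multiset.mem_map.1 hx
    exact le_max_of_le_right (norm_nonneg _))

theorem gs_C (a : L) (ρ : ℝ) (c : L) : gs a ρ (C c) = ‖c‖ := by simp [gs]

theorem gs_zero (a : L) (ρ : ℝ) : gs a ρ 0 = 0 := by simp [gs]

theorem gs_one (a : L) (ρ : ℝ) : gs a ρ 1 = 1 := by simp [gs]

theorem gs_X_sub_C (a : L) (ρ : ℝ) (b : L) : gs a ρ (X - C b) = max ρ ‖a - b‖ := by simp [gs]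

theorem gs_mul (a : L) (ρ : ℝ) (p q : L[X]) : gs a ρ (p * q) = gs a ρ p * gs a ρ q := by
  by_cases hp : p = 0
  · simp [hp, gs_zero]
  by_cases hq : q = 0
  · simp [hq, gs_zero]
  simp only [gs, leadingCoeff_mul, norm_mul, roots_mul (mul_ne_zero hp hq), Multiset.map_add,
    Multiset.prod_add]
  ring

theorem gs_pow (a : L) (ρ : ℝ) (p : L[X]) (k : ℕ) : gs a ρ (p ^ k) = gs a ρ p ^ k := by
  induction k with
  | zero => simp [gs_one]
  | succ k ih => rw [pow_succ, gs_mul, ih, pow_succ]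

theorem gs_neg (a : L) (ρ : ℝ) (p : L[X]) : gs a ρ (-p) = gs a ρ p := by simp [gs]

theorem gs_pos (hρ : 0 < ρ) (hp : p ≠ 0) : 0 < gs a ρ p := poly_ind' (P := fun p => 0 < gs a ρ p) (Z := Set.univ)
    (fun c hc => by rw [gs_C]; exact norm_pos_iff.2 hc)
    (fun b _ => by rw [gs_X_sub_C]; exact lt_max_of_lt_left hρ)
    (fun p q h1 h2 => by rw [gs_mul]; exact mul_pos h1 h2) hp fun _ _ => trivial

theorem gs_nonpos (hρ : ρ ≤ 0) (p : L[X]) : gs a ρ p = ‖p.eval a‖ := poly_ind (P := fun p => gs a ρ p = ‖p.eval a‖) (fun c => by simp [gs_C])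
    (fun b => by simp [gs_X_sub_C, hρ.trans (norm_nonneg _)])
    (fun p q h1 h2 => by rw [gs_mul, eval_mul, norm_mul, h1, h2]) p

theorem gs_mono (h : r ≤ s) (p : L[X]) : gs a r p ≤ gs a s p := poly_ind (P := fun p => gs a r p ≤ gs a s p) (fun c => by simp [gs_C])
    (fun b => by rw [gs_X_sub_C, gs_X_sub_C]; exact max_le_max h le_rfl)
    (fun p q h1 h2 => by
      rw [gs_mul, gs_mul]; exact mul_le_mul h1 h2 (gs_nonneg _ _ _) (gs_nonneg _ _ _)) p

theorem continuous_gs (a : L) (p : L[X]) : Continuous fun ρ => gs a ρ p := poly_ind (P := fun p => Continuous fun ρ => gs a ρ p)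
    (fun c => by simp only [gs_C]; fun_prop) (fun b => by simp only [gs_X_sub_C]; fun_prop)
    (fun p q h1 h2 => by simp only [gs_mul]; exact h1.mul h2) p

theorem gs_taylor (a : L) (ρ : ℝ) (p : L[X]) : gs 0 ρ (taylor a p) = gs a ρ p := poly_ind (P := fun p => gs 0 ρ (taylor a p) = gs a ρ p) (fun c => by simp [gs_C])
    (fun b => by
      rw [map_sub, taylor_X, taylor_C, show X + C a - C b = X - C (b - a) by rw [C_sub]; ring,
        gs_X_sub_C, gs_X_sub_C, zero_sub, neg_sub])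
    (fun p q h1 h2 => by rw [taylor_mul, gs_mul, gs_mul, h1, h2]) p

theorem V0_tri (x y z : L) : ‖x - z‖ ≤ max ‖x - y‖ ‖y - z‖ := by
  simpa using IsUltrametricDist.norm_add_le_max (x - y) (y - z)

theorem V0_eq {x y z : L} (h : ‖x - y‖ < ‖y - z‖) : ‖x - z‖ = ‖y - z‖ := by
  have := IsUltrametricDist.norm_add_eq_max_of_norm_ne_norm (x := x - y) (y := y - z) h.ne
  rwa [sub_add_sub_cancel, max_eq_right h.le] at this

theorem max_congr (h : ‖a - a'‖ ≤ ρ) (b : L) : max ρ ‖a - b‖ = max ρ ‖a' - b‖ := le_antisymm (max_le (le_max_left _ _) ((V0_tri a a' b).trans (max_le_max h le_rfl)))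
    (max_le (le_max_left _ _)
      ((V0_tri a' a b).trans (max_le_max (by rwa [norm_sub_rev]) le_rfl)))

theorem gs_congr (h : ‖a - a'‖ ≤ ρ) : gs a ρ = gs a' ρ := by
  funext p
  simp only [gs, max_congr h]

theorem FF_congr (h : ‖a - a'‖ ≤ ρ) : FF a ρ = FF a' ρ := by simp only [FF, max_congr h]

theorem GG_congr (h : ‖a - a'‖ ≤ ρ) : GG a ρ = GG a' ρ := by rw [GG, GG, FF_congr h]

theorem norm_eval_le (h : ‖t - a‖ ≤ ρ) (p : L[X]) : ‖p.eval t‖ ≤ gs a ρ p := by
  rw [← gs_congr h, ← gs_nonpos le_rfl]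
  exact gs_mono ((norm_nonneg _).trans h) p

theorem norm_eval_eq (h : ‖t - a‖ ≤ ρ) (h' : ∀ b, p.eval b = 0 → ρ ≤ ‖t - b‖) :
    ‖p.eval t‖ = gs a ρ p := by
  by_cases hp : p = 0
  · simp [hp, gs_zero]
  rw [← gs_congr h]
  exact poly_ind' (P := fun p => ‖p.eval t‖ = gs t ρ p) (Z := {b | ρ ≤ ‖t - b‖})
    (fun c _ => by simp [gs_C]) (fun b hb => by rw [gs_X_sub_C, max_eq_right hb]; simp)
    (fun p q h1 h2 => by rw [gs_mul, eval_mul, norm_mul, h1, h2]) hp h'

theorem tendsto_FF (a : L) (ρ : ℝ) (b : L) :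
    Tendsto (fun t => ‖t - b‖) (FF a ρ) (𝓝 (max ρ ‖a - b‖)) := tendsto_iff_comap.2 (iInf_le _ b)

theorem tendsto_gs (a : L) (ρ : ℝ) (p : L[X]) :
    Tendsto (fun t => ‖p.eval t‖) (FF a ρ) (𝓝 (gs a ρ p)) := poly_ind (P := fun p => Tendsto (fun t => ‖p.eval t‖) (FF a ρ) (𝓝 (gs a ρ p)))
    (fun c => by simpa [gs_C] using tendsto_const_nhds) (fun b => by simpa [gs_X_sub_C] using tendsto_FF a ρ b)
    (fun p q h1 h2 => by simpa only [gs_mul, eval_mul, norm_mul] using h1.mul h2) p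

theorem GG_le (a : L) (ρ : ℝ) : GG a ρ ≤ FF a ρ := inf_le_left

theorem mem_GG : S ∈ GG a ρ ↔ ∃ S' ∈ FF a ρ, ∃ E : Set L, E.Finite ∧ ∀ t ∈ S', t ∉ E → t ∈ S := by
  rw [GG, mem_inf_iff_superset]
  exact ⟨fun ⟨S', h1, T, h2, h3⟩ => ⟨S', h1, Tᶜ, h2, fun t a b => h3 ⟨a, not_not.1 b⟩⟩,
    fun ⟨S', h1, E, h2, h3⟩ => ⟨S', h1, Eᶜ, h2.compl_mem_cofinite, fun t k => h3 t k.1 k.2⟩⟩

theorem compl_mem_GG (hE : E.Finite) : ∀ᶠ t in GG a ρ, t ∉ E := mem_inf_of_right hE.compl_mem_cofinite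

theorem eventually_eval_ne (hp : p ≠ 0) : ∀ᶠ t in GG a ρ, p.eval t ≠ 0 := compl_mem_GG (finite_setOfPred_isRoot hp)

theorem ball_mem_FF {R : ℝ} (h : ρ < R) (h0 : 0 < R) : {t | ‖t - a‖ < R} ∈ FF a ρ := (tendsto_FF a ρ a).eventually (gt_mem_nhds (by simp [h, h0]))

theorem hole_mem_FF (h : r < max ρ ‖a - b‖) : {t | r < ‖t - b‖} ∈ FF a ρ := (tendsto_FF a ρ b).eventually (lt_mem_nhds h)

theorem FF_nonpos (hρ : ρ ≤ 0) : FF a ρ = 𝓝 a := by
  refine le_antisymm (fun S hS => ?_) (le_iInf fun b => tendsto_iff_comap.1 ?_)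
  · obtain ⟨R, hR, k⟩ := Metric.mem_nhds_iff.1 hS
    exact mem_of_superset (ball_mem_FF (hρ.trans_lt hR) hR) fun t ht => k (mem_ball_iff_norm.2 ht)
  · rw [max_eq_right (hρ.trans (norm_nonneg _))]
    exact (continuous_id.sub continuous_const).norm.tendsto a

theorem GG_eq_FF (hρ : 0 < ρ) : GG a ρ = FF a ρ := by
  refine inf_eq_left.2 fun S hS => ?_
  have : ∀ᶠ t in FF a ρ, ∀ b ∈ Sᶜ, t ≠ b := (eventually_all_finite hS).2 fun b _ =>
    mem_of_superset (hole_mem_FF (r := 0) (b := b) (lt_max_of_lt_left hρ)) fun t ht e => by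
      simp [e] at ht
  filter_upwards [this] with t ht
  by_contra k
  exact ht t k rfl

theorem FF_basis (hρ : 0 < ρ) (hS : S ∈ FF a ρ) : ∃ (r R : ℝ) (J : Finset L), 0 < r ∧ r < ρ ∧
    ρ < R ∧ (∀ b ∈ J, ‖b - a‖ ≤ ρ) ∧ ∀ t, ‖t - a‖ < R → (∀ b ∈ J, r < ‖t - b‖) → t ∈ S := by
  refine iInf_sets_induct (p := fun S => ∃ (r R : ℝ) (J : Finset L), 0 < r ∧ r < ρ ∧
    ρ < R ∧ (∀ b ∈ J, ‖b - a‖ ≤ ρ) ∧ ∀ t, ‖t - a‖ < R → (∀ b ∈ J, r < ‖t - b‖) → t ∈ S) hS
    ⟨ρ / 2, ρ + 1, ∅, by linarith, by linarith, by linarith, by simp, fun _ _ _ => trivial⟩ ?_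
  classical
  rintro b S₁ S₂ ⟨U, hU, sU⟩ ⟨r, R, J, h1, h2, h3, h4, h5⟩
  obtain ⟨l, u, ⟨hl, hu⟩, lu⟩ := mem_nhds_iff_exists_Ioo_subset.1 hU
  rcases le_or_gt ‖a - b‖ ρ with k | k
  · rw [max_eq_left k] at hl hu
    refine ⟨max r l, min R u, insert b J, lt_max_of_lt_left h1, max_lt h2 hl, lt_min h3 hu, ?_,
      fun t ht hJ => ⟨sU (lu ⟨?_, ?_⟩), h5 t (ht.trans_le (min_le_left _ _)) fun c hc =>
        (le_max_left _ _).trans_lt (hJ c (Finset.mem_insert_of_mem hc))⟩⟩
    · intro c hc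
      rcases Finset.mem_insert.1 hc with rfl | hc
      exacts [by rwa [norm_sub_rev], h4 c hc]
    · exact (le_max_right _ _).trans_lt (hJ b (Finset.mem_insert_self _ _))
    · exact (V0_tri t a b).trans_lt (max_lt (ht.trans_le (min_le_right _ _)) (k.trans_lt hu))
  · rw [max_eq_right k.le] at hl hu
    refine ⟨r, min R ‖a - b‖, J, h1, h2, lt_min h3 k, h4, fun t ht hJ =>
      ⟨sU (lu ?_), h5 t (ht.trans_le (min_le_left _ _)) hJ⟩⟩
    show ‖t - b‖ ∈ _
    rw [V0_eq (ht.trans_le (min_le_right _ _))]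
    exact ⟨hl, hu⟩

theorem FF_basis_nonpos (hρ : ρ ≤ 0) (hS : S ∈ FF a ρ) : ∃ R > 0, ∀ t, ‖t - a‖ ≤ R → t ∈ S := by
  rw [FF_nonpos hρ] at hS
  obtain ⟨R, hR, k⟩ := Metric.nhds_basis_closedBall.mem_iff.1 hS
  exact ⟨R, hR, fun t ht => k (mem_closedBall_iff_norm.2 ht)⟩

theorem FF_nhds (hS : S ∈ FF a ρ) : ∀ᶠ r in 𝓝 ρ, S ∈ FF a r := by
  rcases lt_or_ge 0 ρ with hρ | hρ
  · obtain ⟨r, R, J, h1, h2, h3, -, h5⟩ := FF_basis hρ hS
    filter_upwards [Ioo_mem_nhds h2 h3] with s hs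
    have k : ∀ᶠ t in FF a s, ∀ b ∈ J, r < ‖t - b‖ :=
      (eventually_all_finset J).2 fun b _ => hole_mem_FF (lt_max_of_lt_left hs.1)
    filter_upwards [k, ball_mem_FF (a := a) hs.2 (hρ.trans h3)] with t k1 k2 using h5 t k2 k1
  · obtain ⟨R, hR, k⟩ := FF_basis_nonpos hρ hS
    filter_upwards [gt_mem_nhds (hρ.trans_lt hR)] with s hs
    exact mem_of_superset (ball_mem_FF hs hR) fun t ht => k t (le_of_lt ht)

theorem GG_nhds (hS : S ∈ GG a ρ) : ∀ᶠ r in 𝓝 ρ, S ∈ GG a r := by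
  obtain ⟨S', h1, E, h2, h3⟩ := mem_GG.1 hS
  filter_upwards [FF_nhds h1] with r hr using mem_GG.2 ⟨S', hr, E, h2, h3⟩

/-- a generic point of the circle -/
theorem GP0 (a : L) (hρ : 0 < ρ) (hE : E.Finite) : ∃ t, ‖t - a‖ = ρ ∧ ∀ b ∈ E, ρ ≤ ‖t - b‖ := by
  classical
  obtain ⟨c, hc⟩ := Om.sur (L := L) ρ hρ.le
  have c0 : c ≠ 0 := norm_pos_iff.1 (hc ▸ hρ)
  let J : Finset L := insert a (hE.toFinset.filter fun b => ‖b - a‖ ≤ ρ)
  have hJ : ∀ b ∈ J, ‖b - a‖ ≤ ρ := fun b hb => by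
    rcases Finset.mem_insert.1 hb with rfl | hb
    exacts [by simpa using hρ.le, (Finset.mem_filter.1 hb).2]
  have cJ : 0 < J.card := Finset.card_pos.2 ⟨a, Finset.mem_insert_self _ _⟩
  have dg : (∏ b ∈ J, (X - C b) : L[X]).natDegree = J.card := by
    rw [natDegree_prod_of_monic _ _ fun b _ => monic_X_sub_C b]; simp
  obtain ⟨t, ht⟩ := IsAlgClosed.exists_root (∏ b ∈ J, (X - C b) - C (c ^ J.card)) (by
    rw [degree_sub_C (natDegree_pos_iff_degree_pos.1 (dg ▸ cJ))]
    exact (natDegree_pos_iff_degree_pos.1 (dg ▸ cJ)).ne')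
  have e : ∏ b ∈ J, ‖t - b‖ = ∏ _b ∈ J, ρ := by
    have : ∏ b ∈ J, (t - b) = c ^ J.card := by simpa [eval_prod, sub_eq_zero] using ht
    rw [← norm_prod, this, norm_pow, hc, Finset.prod_const]
  have le : ‖t - a‖ ≤ ρ := by
    by_contra k
    push Not at k
    refine (Finset.prod_lt_prod_of_nonempty (fun _ _ => hρ) (fun b hb => ?_)
      (Finset.card_pos.1 cJ)).ne' e
    rw [norm_sub_rev, V0_eq ((hJ b hb).trans_lt (by rwa [norm_sub_rev])), norm_sub_rev]
    exact k
  have le' : ∀ b ∈ J, ‖t - b‖ ≤ ρ := fun b hb =>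
    (V0_tri t a b).trans (max_le le (by rw [norm_sub_rev]; exact hJ b hb))
  have ge : ∀ b ∈ J, ρ ≤ ‖t - b‖ := fun b hb => by
    by_contra k
    push Not at k
    have pos : ∀ b ∈ J, 0 < ‖t - b‖ := fun b hb => (norm_nonneg _).lt_of_ne' fun z =>
      (Finset.prod_pos fun _ _ => hρ).ne' (e.symm.trans (Finset.prod_eq_zero hb z))
    exact (Finset.prod_lt_prod pos le' ⟨b, hb, k⟩).ne e
  refine ⟨t, le_antisymm le (ge a (Finset.mem_insert_self _ _)), fun b hb => ?_⟩
  rcases le_or_gt ‖b - a‖ ρ with k | k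
  · exact ge b (Finset.mem_insert_of_mem (Finset.mem_filter.2 ⟨hE.mem_toFinset.2 hb, k⟩))
  · rw [norm_sub_rev] at k
    rw [V0_eq (le.trans_lt k)]
    exact k.le

theorem exists_circle (hρ : 0 < ρ) (hS : S ∈ FF a ρ) (hE : E.Finite) :
    ∃ t ∈ S, ‖t - a‖ = ρ ∧ ∀ b ∈ E, ρ ≤ ‖t - b‖ := by
  obtain ⟨r, R, J, -, h2, h3, -, h5⟩ := FF_basis hρ hS
  obtain ⟨t, ht, k⟩ := GP0 a hρ (hE.union J.finite_toSet)
  exact ⟨t, h5 t (ht ▸ h3) fun b hb => h2.trans_le (k b (Or.inr hb)), ht,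
    fun b hb => k b (Or.inl hb)⟩

theorem GP2 (a : L) (hρ : 0 < ρ) (hE : E.Finite) (p q : L[X]) :
    ∃ t, t ∉ E ∧ ‖t - a‖ = ρ ∧ ‖p.eval t‖ = gs a ρ p ∧ ‖q.eval t‖ = gs a ρ q := by
  have key : ∀ p : L[X], ∃ Z : Set L, Z.Finite ∧ ∀ t, ‖t - a‖ = ρ → (∀ b ∈ Z, ρ ≤ ‖t - b‖) →
      ‖p.eval t‖ = gs a ρ p := fun p => by
    by_cases hp : p = 0
    · exact ⟨∅, Set.finite_empty, fun _ _ _ => by simp [hp, gs_zero]⟩
    · exact ⟨_, finite_setOfPred_isRoot hp, fun t ht k => norm_eval_eq ht.le k⟩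
  obtain ⟨Z, hZ, k⟩ := key p
  obtain ⟨Z', hZ', k'⟩ := key q
  obtain ⟨t, ht, m⟩ := GP0 a hρ (hE.union (hZ.union hZ'))
  exact ⟨t, fun h => absurd (m t (Or.inl h)) (by simpa using hρ), ht,
    k t ht fun b hb => m b (Or.inr (Or.inl hb)), k' t ht fun b hb => m b (Or.inr (Or.inr hb))⟩

theorem GP1 (a : L) (hρ : 0 < ρ) (hE : E.Finite) (p : L[X]) :
    ∃ t, t ∉ E ∧ ‖t - a‖ = ρ ∧ ‖p.eval t‖ = gs a ρ p := let ⟨t, h1, h2, h3, _⟩ := GP2 a hρ hE p p
  ⟨t, h1, h2, h3⟩

instance GG_neBot (a : L) (ρ : ℝ) : (GG a ρ).NeBot := by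
  rcases lt_or_ge 0 ρ with hρ | hρ
  · rw [GG_eq_FF hρ]
    exact forall_mem_nonempty_iff_neBot.1 fun S hS =>
      let ⟨t, ht, _⟩ := exists_circle hρ hS Set.finite_empty
      ⟨t, ht⟩
  · rw [GG, FF_nonpos hρ]
    exact (NormedField.nhdsNE_neBot a).mono (le_inf nhdsWithin_le_nhds (nhdsNE_le_cofinite a))

instance FF_neBot (a : L) (ρ : ℝ) : (FF a ρ).NeBot := (GG_neBot a ρ).mono (GG_le a ρ)

theorem gs_add (a : L) (ρ : ℝ) (p q : L[X]) : gs a ρ (p + q) ≤ max (gs a ρ p) (gs a ρ q) := le_of_tendsto_of_tendsto' (tendsto_gs a ρ (p + q)) ((tendsto_gs a ρ p).max (tendsto_gs a ρ q))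
    fun t => by rw [eval_add]; exact IsUltrametricDist.norm_add_le_max _ _

theorem gs_sub (a : L) (ρ : ℝ) (p q : L[X]) : gs a ρ (p - q) ≤ max (gs a ρ p) (gs a ρ q) := by
  rw [sub_eq_add_neg, ← gs_neg a ρ q]
  exact gs_add _ _ _ _

theorem gs_add_eq (h : gs a ρ q < gs a ρ p) : gs a ρ (p + q) = gs a ρ p := by
  refine le_antisymm ((gs_add _ _ _ _).trans (max_le le_rfl h.le)) ?_
  have := gs_sub a ρ (p + q) q
  rw [add_sub_cancel_right] at this
  exact (le_max_iff.1 this).resolve_right h.not_ge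

theorem gs_sum_le {ι : Type} {I : Finset ι} {f : ι → L[X]} {M : ℝ} (hM : 0 ≤ M)
    (h : ∀ i ∈ I, gs a ρ (f i) ≤ M) : gs a ρ (∑ i ∈ I, f i) ≤ M := Finset.sum_induction f (fun p => gs a ρ p ≤ M)
    (fun p q h1 h2 => (gs_add a ρ p q).trans (max_le h1 h2)) (by rwa [gs_zero]) h

/-- the Gauss norm as a seminorm -/
noncomputable def gS (a : L) (ρ : ℝ) : Sn L L[X] where
  toFun := gs a ρ
  nn := gs_nonneg a ρ
  mul := gs_mul a ρ
  add := gs_add a ρ
  alg := gs_C a ρ

theorem gs_pos_of_ne (hS : S ∈ FF a ρ) (h : ∀ t ∈ S, q.eval t ≠ 0) : 0 < gs a ρ q := by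
  rcases lt_or_ge 0 ρ with hρ | hρ
  · obtain ⟨t, ht⟩ := (FF_neBot a ρ).nonempty_of_mem hS
    exact gs_pos hρ fun e => h t ht (by simp [e])
  · rw [gs_nonpos hρ, norm_pos_iff]
    rw [FF_nonpos hρ] at hS
    exact h a (mem_of_mem_nhds hS)

theorem tendsto_gs_div (h : 0 < gs a ρ q) (p : L[X]) :
    Tendsto (fun t => ‖p.eval t / q.eval t‖) (FF a ρ) (𝓝 (gs a ρ p / gs a ρ q)) := by
  simp only [norm_div]
  exact (tendsto_gs a ρ p).div (tendsto_gs a ρ q) h.ne'

theorem Ap.mono {S' E' : Set L} {ε' : ℝ} (h : Ap Ψ S E ε p q) (hS : S' ⊆ S) (hE : E ⊆ E')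
    (hε : ε ≤ ε') : Ap Ψ S' E' ε' p q :=
  ⟨fun t ht => h.1 t (hS ht), fun t ht k => (h.2 t (hS ht) fun m => k (hE m)).trans hε⟩

theorem mer_iff : Mer Φ S ↔ ∃ B : L[X], B ≠ 0 ∧ ∃ E : Set L, E.Finite ∧
    ∀ ε > 0, ∃ p q : L[X], Ap (fun t => B.eval t * Φ t) S E ε p q := Iff.rfl

theorem Mer.mono {S' : Set L} (h : Mer Φ S) (hS : S' ⊆ S) : Mer Φ S' := by
  obtain ⟨B, hB, E, hE, k⟩ := h
  exact ⟨B, hB, E, hE, fun ε hε => let ⟨p, q, m⟩ := k ε hε
    ⟨p, q, Ap.mono (Ψ := fun t => B.eval t * Φ t) m hS subset_rfl le_rfl⟩⟩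

end Pool.Agent.Work.MP_e120ef_ag.Br
end

-- merged part: Pool.Agent.Work.MP_e120ef_ag.Br.T0
section
/-!
# The Tate algebra as a closed subalgebra of `L`

`TW K w` is the closure of `K [w]` in `L`; for a generic tuple `w` it is the Tate algebra with its
Gauss norm.  `Co R w` says that `w` is a system of coordinates of `R`; `h.ev z hz` is the evaluation
at a point `z` of the unit polydisc, `h.res q hq` the restriction `z ↦ q z`.
-/

set_option linter.unusedSectionVars false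

open Filter Topology

namespace Pool.Agent.Work.MP_e120ef_ag.Br

variable {K : Type} [NontriviallyNormedField K] {n m : ℕ}
  {L : Type} [NormedField L] [IsUltrametricDist L] [NormedAlgebra K L]
  {L' : Type} [NormedField L'] [IsUltrametricDist L'] [NormedAlgebra K L']
  {L'' : Type} [NormedField L''] [IsUltrametricDist L''] [NormedAlgebra K L'']

theorem norm_aeval_le {z : Fin n → L'} (hz : ∀ i, ‖z i‖ ≤ 1) {P : Pl K n} {C : ℝ} (hC : 0 ≤ C)
    (h : ∀ I, ‖P.coeff I‖ ≤ C) : ‖MvPolynomial.aeval z P‖ ≤ C := by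
  rw [MvPolynomial.aeval_def, MvPolynomial.eval₂_eq']
  refine IsUltrametricDist.norm_sum_le_of_forall_le_of_nonneg hC fun I _ => ?_
  rw [norm_mul, norm_algebraMap', norm_prod]
  refine (mul_le_of_le_one_right (norm_nonneg _) (Finset.prod_le_one (fun _ _ => norm_nonneg _)
    fun i _ => ?_)).trans (h I)
  rw [norm_pow]
  exact pow_le_one₀ (norm_nonneg _) (hz i)

theorem Gen.norm_le {w : Fin n → L} (hw : Gen K w) {z : Fin n → L'} (hz : ∀ i, ‖z i‖ ≤ 1)
    (P : Pl K n) : ‖MvPolynomial.aeval z P‖ ≤ ‖MvPolynomial.aeval w P‖ :=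
  norm_aeval_le hz (norm_nonneg _) (hw.2 P)

theorem Gen.norm_eq_one {w : Fin n → L} (hw : Gen K w) (i : Fin n) : ‖w i‖ = 1 := by
  have := hw.2 (MvPolynomial.X i) (Finsupp.single i 1)
  rw [MvPolynomial.coeff_X_same, norm_one, MvPolynomial.aeval_X] at this
  exact (hw.1 i).antisymm this

theorem Gen.coeff_le {w : Fin n → L} (hw : Gen K w) (c : K) (P : Pl K n) (I : Fin n →₀ ℕ) :
    ‖P.coeff I‖ * ‖c‖ ^ I.degree ≤ ‖MvPolynomial.aeval (c • w) P‖ := by
  classical
  have h := hw.2 (∑ J ∈ P.support, MvPolynomial.monomial J (P.coeff J * c ^ J.degree)) I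
  have e1 : MvPolynomial.aeval w (∑ J ∈ P.support,
      MvPolynomial.monomial J (P.coeff J * c ^ J.degree)) = MvPolynomial.aeval (c • w) P := by
    rw [map_sum, MvPolynomial.aeval_def (c • w), MvPolynomial.eval₂_eq']
    refine Finset.sum_congr rfl fun J _ => ?_
    rw [MvPolynomial.aeval_monomial, Finsupp.prod_fintype _ _ fun _ => pow_zero _,
      Finsupp.degree_eq_sum]
    simp only [Pi.smul_apply, Algebra.smul_def, mul_pow, Finset.prod_mul_distrib,
      Finset.prod_pow_eq_pow_sum, map_mul, map_pow, mul_assoc]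
  rw [e1, MvPolynomial.coeff_sum] at h
  simp only [MvPolynomial.coeff_monomial, Finset.sum_ite_eq'] at h
  split_ifs at h with k
  · rwa [norm_mul, norm_pow] at h
  · rw [MvPolynomial.notMem_support_iff.1 k, norm_zero, zero_mul]
    exact norm_nonneg _

variable (K) in
/-- the closure of `K [w]` -/
noncomputable def TW (w : Fin n → L) : Subalgebra K L :=
  (MvPolynomial.aeval w : Pl K n →ₐ[K] L).range.topologicalClosure

theorem mem_TW {w : Fin n → L} {x : L} :
    x ∈ TW K w ↔ ∀ ε > 0, ∃ P : Pl K n, ‖x - MvPolynomial.aeval w P‖ ≤ ε := by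
  refine (Metric.mem_closure_iff (a := x)
    (s := ((MvPolynomial.aeval w : Pl K n →ₐ[K] L).range : Set L))).trans ⟨fun h ε hε => ?_,
      fun h ε hε => ?_⟩
  · obtain ⟨_, ⟨P, rfl⟩, hP⟩ := h ε hε
    exact ⟨P, (dist_eq_norm x _).symm.trans_le hP.le⟩
  · obtain ⟨P, hP⟩ := h (ε / 2) (half_pos hε)
    exact ⟨_, ⟨P, rfl⟩, (dist_eq_norm x _).trans_lt (hP.trans_lt (half_lt_self hε))⟩

theorem TW_closed (w : Fin n → L) : IsClosed (TW K w : Set L) :=
  Subalgebra.isClosed_topologicalClosure _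

theorem aeval_mem_TW (w : Fin n → L) (P : Pl K n) : MvPolynomial.aeval w P ∈ TW K w :=
  Subalgebra.le_topologicalClosure _ ⟨P, rfl⟩

theorem TW_le {w : Fin n → L} {R : Subalgebra K L} (hR : IsClosed (R : Set L))
    (h : ∀ i, w i ∈ R) : TW K w ≤ R := by
  refine Subalgebra.topologicalClosure_minimal ?_ hR
  rw [MvPolynomial.aeval_range]
  exact Algebra.adjoin_le (Set.range_subset_iff.2 h)

theorem unit_of_norm [CompleteSpace L] {R : Subalgebra K L} (hR : IsClosed (R : Set L)) {x : R}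
    (h : ‖(x : L) - 1‖ < 1) : IsUnit x := by
  have := hR.completeSpace_coe
  have h1 : ‖(1 - x : R)‖ < 1 := by
    change ‖(1 : L) - x‖ < 1
    rwa [norm_sub_rev]
  simpa using (Units.oneSub (1 - x) h1).isUnit

/-- `w` is a system of coordinates of `R` -/
structure Co (R : Subalgebra K L) (w : Fin n → L) : Prop where
  gen : Gen K w
  eq : TW K w = R

theorem Gen.co {w : Fin n → L} (hw : Gen K w) : Co (TW K w) w := ⟨hw, rfl⟩

namespace Co

variable {R : Subalgebra K L} {w : Fin n → L} (h : Co R w)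

include h

theorem closed : IsClosed (R : Set L) := h.eq ▸ TW_closed w

theorem aeval_mem (P : Pl K n) : MvPolynomial.aeval w P ∈ R := h.eq ▸ aeval_mem_TW w P

theorem mem (i : Fin n) : w i ∈ R := by simpa using h.aeval_mem (MvPolynomial.X i)

/-- polynomials as elements of `R` -/
noncomputable def tp : Pl K n →ₐ[K] R := (MvPolynomial.aeval w).codRestrict R h.aeval_mem

theorem tp_val (P : Pl K n) : (h.tp P : L) = MvPolynomial.aeval w P := rfl

theorem tp_X (i : Fin n) : h.tp (MvPolynomial.X i) = ⟨w i, h.mem i⟩ :=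
  Subtype.ext (MvPolynomial.aeval_X w i)

theorem approx (x : R) {ε : ℝ} (hε : 0 < ε) :
    ∃ P : Pl K n, ‖(x : L) - MvPolynomial.aeval w P‖ ≤ ε :=
  mem_TW.1 (h.eq ▸ x.2) ε hε

theorem dense : DenseRange h.tp := by
  refine Metric.denseRange_iff.2 fun x ε hε => ?_
  obtain ⟨P, hP⟩ := h.approx x (half_pos hε)
  exact ⟨P, (dist_eq_norm (x : L) _).trans_lt (hP.trans_lt (half_lt_self hε))⟩

theorem hom_ext {A : Type} [Ring A] [Algebra K A] [TopologicalSpace A] [T2Space A]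
    {e e' : R →ₐ[K] A} (he : Continuous e) (he' : Continuous e')
    (hi : ∀ i, e ⟨w i, h.mem i⟩ = e' ⟨w i, h.mem i⟩) : e = e' := by
  have k : e.comp h.tp = e'.comp h.tp := MvPolynomial.algHom_ext fun i => by
    rw [AlgHom.comp_apply, AlgHom.comp_apply, h.tp_X, hi]
  exact DFunLike.coe_injective (h.dense.equalizer he he' (funext fun P => DFunLike.congr_fun k P))

variable [CompleteSpace L'] [CompleteSpace L'']

theorem exists_ev (z : Fin n → L') (hz : ∀ i, ‖z i‖ ≤ 1) : ∃ e : R →ₐ[K] L',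
    (∀ P, e (h.tp P) = MvPolynomial.aeval z P) ∧ ∀ x, ‖e x‖ ≤ ‖(x : L)‖ := by
  let Γ : Subalgebra K (R × L') := (h.tp.prod (MvPolynomial.aeval z)).range.topologicalClosure
  have c : IsClosed (Γ : Set (R × L')) := Subalgebra.isClosed_topologicalClosure _
  have m : ∀ P, (h.tp P, MvPolynomial.aeval z P) ∈ Γ := fun P =>
    Subalgebra.le_topologicalClosure _ ⟨P, rfl⟩
  have b : ∀ p ∈ Γ, ‖p.2‖ ≤ ‖(p.1 : L)‖ := fun p hp =>
    closure_minimal (t := {p : R × L' | ‖p.2‖ ≤ ‖(p.1 : L)‖})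
      (by rintro _ ⟨P, rfl⟩; exact h.gen.norm_le hz P) (isClosed_le (by fun_prop) (by fun_prop)) hp
  have inj : Function.Injective ((AlgHom.fst K R L').comp Γ.val) := by
    refine (injective_iff_map_eq_zero _).2 fun p hp => Subtype.ext (Prod.ext hp ?_)
    have := b p.1 p.2
    rw [show p.1.1 = 0 from hp, ZeroMemClass.coe_zero, norm_zero] at this
    exact norm_le_zero_iff.1 this
  have sur : Function.Surjective ((AlgHom.fst K R L').comp Γ.val) := fun x => by
    obtain ⟨u, hu, hx⟩ := mem_closure_iff_seq_limit.1 (h.dense x)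
    choose P hP using hu
    have hc : CauchySeq fun k => MvPolynomial.aeval z (P k) := by
      refine Metric.cauchySeq_iff.2 fun ε hε => ?_
      obtain ⟨N, hN⟩ := Metric.cauchySeq_iff.1 hx.cauchySeq ε hε
      refine ⟨N, fun k hk l hl => lt_of_le_of_lt ?_ (hN k hk l hl)⟩
      rw [← hP, ← hP, dist_eq_norm, dist_eq_norm, ← map_sub, ← map_sub]
      exact h.gen.norm_le hz _
    obtain ⟨y, hy⟩ := cauchySeq_tendsto_of_complete hc
    exact ⟨⟨(x, y), c.mem_of_tendsto (hx.prodMk_nhds hy)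
      (Eventually.of_forall fun k => hP k ▸ m (P k))⟩, rfl⟩
  let φ := AlgEquiv.ofBijective _ ⟨inj, sur⟩
  refine ⟨((AlgHom.snd K R L').comp Γ.val).comp φ.symm.toAlgHom, fun P => ?_, fun x => ?_⟩
  · have : φ.symm (h.tp P) = ⟨_, m P⟩ := φ.symm_apply_eq.2 rfl
    exact congrArg (fun p : Γ => p.1.2) this
  · have := b _ (φ.symm x).2
    rwa [show (φ.symm x).1.1 = x from φ.apply_symm_apply x] at this

/-- evaluation at a point of the unit polydisc -/
noncomputable def ev (z : Fin n → L') (hz : ∀ i, ‖z i‖ ≤ 1) : R →ₐ[K] L' :=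
  (h.exists_ev z hz).choose

variable {z z' : Fin n → L'} (hz : ∀ i, ‖z i‖ ≤ 1) (hz' : ∀ i, ‖z' i‖ ≤ 1)

theorem ev_tp (P : Pl K n) : h.ev z hz (h.tp P) = MvPolynomial.aeval z P :=
  (h.exists_ev z hz).choose_spec.1 P

theorem norm_ev (x : R) : ‖h.ev z hz x‖ ≤ ‖(x : L)‖ := (h.exists_ev z hz).choose_spec.2 x

theorem ev_w (i : Fin n) : h.ev z hz ⟨w i, h.mem i⟩ = z i := by
  rw [← h.tp_X, ev_tp, MvPolynomial.aeval_X]

theorem ev_cont : Continuous (h.ev z hz) :=
  AddMonoidHomClass.continuous_of_bound _ 1 fun x => by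
    rw [one_mul]; exact h.norm_ev hz x

theorem eq_ev {e : R →ₐ[K] L'} (he : Continuous e) (hi : ∀ i, e ⟨w i, h.mem i⟩ = z i) :
    e = h.ev z hz :=
  h.hom_ext he (h.ev_cont hz) fun i => (hi i).trans (h.ev_w hz i).symm

theorem ev_sub (x : R) (P : Pl K n) :
    ‖h.ev z hz x - MvPolynomial.aeval z P‖ ≤ ‖(x : L) - MvPolynomial.aeval w P‖ := by
  have := h.norm_ev hz (x - h.tp P)
  rwa [map_sub, ev_tp] at this

theorem ev_mem {S : Subalgebra K L'} (hS : IsClosed (S : Set L')) (hi : ∀ i, z i ∈ S) (x : R) :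
    h.ev z hz x ∈ S := by
  refine h.dense.induction_on x (hS.preimage (h.ev_cont hz)) fun P => ?_
  rw [ev_tp]
  have : (MvPolynomial.aeval z : Pl K n →ₐ[K] L').range ≤ S := by
    rw [MvPolynomial.aeval_range]
    exact Algebra.adjoin_le (Set.range_subset_iff.2 hi)
  exact this ⟨P, rfl⟩

theorem ev_le_ev {y : Fin n → L''} (hy : ∀ i, ‖y i‖ ≤ 1)
    (hP : ∀ P : Pl K n, ‖MvPolynomial.aeval z P‖ ≤ ‖MvPolynomial.aeval y P‖) (x : R) :
    ‖h.ev z hz x‖ ≤ ‖h.ev y hy x‖ := by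
  refine h.dense.induction_on x (isClosed_le (h.ev_cont hz).norm (h.ev_cont hy).norm) fun P => ?_
  rw [ev_tp, ev_tp]
  exact hP P

theorem ev_map (φ : L' →ₐ[K] L'') (hφ : Continuous φ) (hy : ∀ i, ‖φ (z i)‖ ≤ 1) (x : R) :
    φ (h.ev z hz x) = h.ev (fun i => φ (z i)) hy x := by
  rw [← h.eq_ev hy (e := φ.comp (h.ev z hz)) (hφ.comp (h.ev_cont hz)) fun i => by
    rw [AlgHom.comp_apply, ev_w]]
  rfl

theorem ev_lip {δ : ℝ} (hδ : 0 ≤ δ) (hd : ∀ i, ‖z i - z' i‖ ≤ δ) (x : R) :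
    ‖h.ev z hz x - h.ev z' hz' x‖ ≤ δ * ‖(x : L)‖ := by
  refine h.dense.induction_on x (isClosed_le ((h.ev_cont hz).sub (h.ev_cont hz')).norm
    (continuous_const.mul continuous_subtype_val.norm)) fun P => ?_
  rw [ev_tp, ev_tp, tp_val]
  let S : Submonoid (L' × L') :=
    { carrier := {p | ‖p.1‖ ≤ 1 ∧ ‖p.2‖ ≤ 1 ∧ ‖p.1 - p.2‖ ≤ δ}
      one_mem' := by simpa using hδ
      mul_mem' := by
        rintro ⟨a, a'⟩ ⟨b, b'⟩ ⟨h1, h2, h3⟩ ⟨k1, k2, k3⟩
        refine ⟨(norm_mul a b).trans_le (mul_le_one₀ h1 (norm_nonneg _) k1),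
          (norm_mul a' b').trans_le (mul_le_one₀ h2 (norm_nonneg _) k2), ?_⟩
        change ‖a * b - a' * b'‖ ≤ δ
        rw [show a * b - a' * b' = a * (b - b') + (a - a') * b' by ring]
        refine (IsUltrametricDist.norm_add_le_max _ _).trans (max_le ?_ ?_) <;> rw [norm_mul]
        · exact (mul_le_of_le_one_left (norm_nonneg _) h1).trans k3
        · exact (mul_le_of_le_one_right (norm_nonneg _) k2).trans h3 }
  rw [MvPolynomial.aeval_def, MvPolynomial.eval₂_eq', MvPolynomial.aeval_def z',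
    MvPolynomial.eval₂_eq', ← Finset.sum_sub_distrib]
  refine IsUltrametricDist.norm_sum_le_of_forall_le_of_nonneg (by positivity) fun I _ => ?_
  have k : (∏ i, (z i, z' i) ^ I i) ∈ S :=
    prod_mem fun i _ => pow_mem (show (z i, z' i) ∈ S from ⟨hz i, hz' i, hd i⟩) _
  have k2 := k.2.2
  simp only [Prod.fst_prod, Prod.snd_prod, Prod.pow_fst, Prod.pow_snd] at k2
  rw [← mul_sub, norm_mul, norm_algebraMap', mul_comm]
  exact mul_le_mul k2 (h.gen.2 P I) (norm_nonneg _) hδ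

theorem ev_inj {u : Fin n → L'} (hu : Gen K u) {c : K} (hc : c ≠ 0)
    (hcu : ∀ i, ‖(c • u) i‖ ≤ 1) : Function.Injective (h.ev (c • u) hcu) := by
  refine (injective_iff_map_eq_zero _).2 fun x hx => Subtype.ext (norm_le_zero_iff.1 ?_)
  refine le_of_forall_pos_le_add fun ε hε => ?_
  obtain ⟨P, hP⟩ := h.approx x hε
  have key : ‖MvPolynomial.aeval w P‖ ≤ ε := norm_aeval_le h.gen.1 hε.le fun I => by
    have p : 0 < ‖c‖ ^ I.degree := pow_pos (norm_pos_iff.2 hc) _
    obtain ⟨Q, hQ⟩ := h.approx x (lt_min hε (mul_pos hε p))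
    have k1 : ‖Q.coeff I‖ ≤ ε := by
      have := h.ev_sub hcu x Q
      rw [hx, zero_sub, norm_neg] at this
      exact le_of_mul_le_mul_right
        ((hu.coeff_le c Q I).trans (this.trans (hQ.trans (min_le_right _ _)))) p
    have k2 : ‖P.coeff I - Q.coeff I‖ ≤ ε := by
      rw [← MvPolynomial.coeff_sub]
      refine (h.gen.2 _ I).trans ?_
      rw [map_sub, show MvPolynomial.aeval w P - MvPolynomial.aeval w Q =
        (x - MvPolynomial.aeval w Q) + -(x - MvPolynomial.aeval w P) by ring]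
      exact (IsUltrametricDist.norm_add_le_max _ _).trans
        (max_le (hQ.trans (min_le_left _ _)) (by rwa [norm_neg]))
    have k3 : ‖algebraMap K L (P.coeff I)‖ ≤ ε := by
      rw [← sub_add_cancel (P.coeff I) (Q.coeff I), map_add]
      refine (IsUltrametricDist.norm_add_le_max _ _).trans (max_le ?_ ?_) <;>
        rwa [norm_algebraMap']
    rwa [norm_algebraMap'] at k3
  rw [zero_add, ← sub_add_cancel (x : L) (MvPolynomial.aeval w P)]
  exact (IsUltrametricDist.norm_add_le_max _ _).trans (max_le hP key)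

variable [CompleteSpace L]

theorem ev_self (hw : ∀ i, ‖w i‖ ≤ 1) (x : R) : h.ev w hw x = x := by
  rw [← h.eq_ev hw (e := R.val) continuous_subtype_val fun _ => rfl]
  rfl

omit [CompleteSpace L] in
theorem smul_le {q : K} (hq : ‖q‖ ≤ 1) (i : Fin n) : ‖(q • w) i‖ ≤ 1 := by
  rw [Pi.smul_apply, norm_smul]
  exact mul_le_one₀ hq (norm_nonneg _) (h.gen.1 i)

/-- restriction to a smaller polydisc -/
noncomputable def res (q : K) (hq : ‖q‖ ≤ 1) : R →ₐ[K] R :=
  (h.ev (q • w) (h.smul_le hq)).codRestrict R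
    (h.ev_mem _ h.closed fun i => R.smul_mem (h.mem i) q)

variable {q : K} (hq : ‖q‖ ≤ 1)

theorem res_val (x : R) : (h.res q hq x : L) = h.ev (q • w) (h.smul_le hq) x := rfl

theorem norm_res (x : R) : ‖(h.res q hq x : L)‖ ≤ ‖(x : L)‖ := h.norm_ev _ x

theorem res_cont : Continuous (h.res q hq) := (h.ev_cont _).subtype_mk _

theorem res_inj (h0 : q ≠ 0) : Function.Injective (h.res q hq) := fun _ _ e =>
  h.ev_inj h.gen h0 _ (congrArg Subtype.val e)

theorem ev_res (hqz : ∀ i, ‖(q • z) i‖ ≤ 1) (x : R) :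
    h.ev z hz (h.res q hq x) = h.ev (q • z) hqz x := by
  rw [← h.eq_ev hqz (e := (h.ev z hz).comp (h.res q hq)) ((h.ev_cont hz).comp (h.res_cont hq))
    fun i => ?_]
  · rfl
  · have : h.res q hq ⟨w i, h.mem i⟩ = q • (⟨w i, h.mem i⟩ : R) := Subtype.ext (h.ev_w _ i)
    rw [AlgHom.comp_apply, this, map_smul, ev_w, Pi.smul_apply]

theorem res_eq {u : Fin m → L} (h' : Co R u) (M : Fin m → Fin n → K)
    (hM : ∀ i, u i = ∑ j, M i j • w j) : h.res q hq = h'.res q hq := by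
  refine h'.hom_ext (h.res_cont hq) (h'.res_cont hq) fun i => ?_
  have k : ∀ j, h.res q hq ⟨w j, h.mem j⟩ = q • (⟨w j, h.mem j⟩ : R) := fun j =>
    Subtype.ext (h.ev_w _ j)
  have e : (⟨u i, h'.mem i⟩ : R) = ∑ j, M i j • (⟨w j, h.mem j⟩ : R) := Subtype.ext (by
    rw [AddSubmonoidClass.coe_finsetSum]
    exact hM i)
  have k' : h'.res q hq ⟨u i, h'.mem i⟩ = q • (⟨u i, h'.mem i⟩ : R) := Subtype.ext (h'.ev_w _ i)
  rw [k', e, map_sum, Finset.smul_sum]
  exact Finset.sum_congr rfl fun j _ => by rw [map_smul, k, smul_comm]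

end Co

end Pool.Agent.Work.MP_e120ef_ag.Br
end

-- merged part: Pool.Agent.Work.MP_e120ef_ag.Br.T1b
section
/-!
# Points of the residue classes where norms are attained

Plans.  `T1_one`: let `t` be a root of `∏ (X - C b) - 1`, the product over the roots `b` of `p` with `‖b‖ ≤ 1` (any `t`, say `0`, if there is none); then `‖t‖ ≤ 1` (else the product has norm `> 1`) and `‖t - b‖ = max 1 ‖b‖` for all roots;
induction on the multiset of roots: the coefficients of `(X - C b) * p₁` are `c (i - 1) - b * c i`.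
`gp_one`: induction on `n` with `MvPolynomial.finSuccEquiv`, in the form: for all `P`, `I` there is `ν` with `‖coeff I P‖ ≤ ‖aeval ν P‖` (`finSuccEquiv_coeff_coeff`, `T1_one`); take `I` with the largest coefficient and use `norm_aeval_le`.
`gp`: apply `gp_one` to the product of the nonzero `P`; a product of inequalities `‖P ν‖ ≤ ‖P w‖` with equal nonzero products forces equality everywhere (`‖P w‖ ≠ 0` for `P ≠ 0`).
`homog`: `d = totalDegree P`, `Q = ∑ I ∈ support, monomial (φ I) (coeff I P)` with `φ I = mapDomain i₀.succAbove I + single i₀ (d - degree I)`; `φ` is injective (evaluate at `i₀.succAbove j`).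
-/

set_option linter.unusedSectionVars false

open Filter Topology

namespace Pool.Agent.Work.MP_e120ef_ag.Br

variable {K : Type} [NontriviallyNormedField K] [IsUltrametricDist K] {n m : ℕ}
  {L : Type} [NormedField L] [IsUltrametricDist L] [NormedAlgebra K L] {w : Fin n → L}

theorem homog (i₀ : Fin (n + 1)) (P : Pl K n) : ∃ (d : ℕ) (Q : Pl K (n + 1)),
    Q.IsHomogeneous d ∧ (∀ I, ∃ J, Q.coeff J = P.coeff I) ∧
    ∀ (H : Type) [Field H] [Algebra K H] (u : Fin (n + 1) → H), u i₀ ≠ 0 →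
      MvPolynomial.aeval u Q =
        u i₀ ^ d * MvPolynomial.aeval (fun j => u (i₀.succAbove j) / u i₀) P := by
  classical
  let φ : (Fin n →₀ ℕ) → (Fin (n + 1) →₀ ℕ) := fun I =>
    Finsupp.equivFunOnFinite.symm (i₀.insertNth (P.totalDegree - ∑ j, I j) I)
  have h0 : ∀ I, φ I i₀ = P.totalDegree - ∑ j, I j := fun I => by simp [φ]
  have h1 : ∀ I j, φ I (i₀.succAbove j) = I j := fun I j => by simp [φ]
  have inj : Function.Injective φ := fun I J e =>
    Finsupp.ext fun j => by rw [← h1 I j, e, h1]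
  have le : ∀ I ∈ P.support, ∑ j, I j ≤ P.totalDegree := fun I hI => by
    have := MvPolynomial.le_totalDegree hI
    rwa [Finsupp.sum_fintype _ _ fun _ => rfl] at this
  refine ⟨P.totalDegree, ∑ I ∈ P.support, MvPolynomial.monomial (φ I) (P.coeff I),
    MvPolynomial.IsHomogeneous.sum _ _ _ fun I hI => MvPolynomial.isHomogeneous_monomial _ ?_,
    fun I => ⟨φ I, ?_⟩, fun H _ _ u hu => ?_⟩
  · rw [Finsupp.degree_eq_sum, Fin.sum_univ_succAbove _ i₀, h0]
    simp only [h1]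
    exact Nat.sub_add_cancel (le I hI)
  · simp [MvPolynomial.coeff_sum, MvPolynomial.coeff_monomial, inj.eq_iff, eq_comm]
  · rw [map_sum, MvPolynomial.aeval_def (fun j => _), MvPolynomial.eval₂_eq', Finset.mul_sum]
    refine Finset.sum_congr rfl fun I hI => ?_
    rw [MvPolynomial.aeval_monomial, Finsupp.prod_fintype _ _ fun _ => pow_zero _,
      Fin.prod_univ_succAbove _ i₀, h0, pow_sub₀ _ hu (le I hI)]
    simp only [h1, div_pow, Finset.prod_div_distrib, Finset.prod_pow_eq_pow_sum]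
    ring

theorem T1b_add {x y : L} (h : ‖x - y‖ < ‖y‖) : ‖x‖ = ‖y‖ := by
  have := IsUltrametricDist.norm_add_eq_max_of_norm_ne_norm h.ne
  rwa [sub_add_cancel, max_eq_right h.le] at this

theorem T1b_eq_of_prod {ι : Type} {s : Finset ι} {a b : ι → ℝ} (h0 : ∀ i ∈ s, 0 ≤ a i)
    (h1 : ∀ i ∈ s, a i ≤ b i) (h2 : ∀ i ∈ s, 0 < b i) (e : ∏ i ∈ s, a i = ∏ i ∈ s, b i) :
    ∀ i ∈ s, a i = b i := fun i hi => by
  have pos : ∀ j ∈ s, 0 < a j := fun j hj => (h0 j hj).lt_of_ne' fun z =>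
    (Finset.prod_pos h2).ne' (e.symm.trans (Finset.prod_eq_zero hj z))
  by_contra k
  exact (Finset.prod_lt_prod pos h1 ⟨i, hi, (h1 i hi).lt_of_ne k⟩).ne e

variable [IsAlgClosed K]

open Polynomial in
theorem T1b_far (E : Finset K) : ∃ t : K, ‖t‖ ≤ 1 ∧ ∀ b ∈ E, 1 ≤ ‖t - b‖ ∧ ‖b‖ ≤ ‖t - b‖ := by
  classical
  let J : Finset K := insert 0 (E.filter fun b => ‖b‖ ≤ 1)
  have hJ : ∀ b ∈ J, ‖b‖ ≤ 1 := fun b hb => by
    rcases Finset.mem_insert.1 hb with rfl | hb
    exacts [by simp, (Finset.mem_filter.1 hb).2]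
  have cJ : 0 < J.card := Finset.card_pos.2 ⟨0, Finset.mem_insert_self _ _⟩
  have dg : (∏ b ∈ J, (X - C b) : K[X]).natDegree = J.card := by
    rw [natDegree_prod_of_monic _ _ fun b _ => monic_X_sub_C b]; simp
  obtain ⟨t, ht⟩ := IsAlgClosed.exists_root (∏ b ∈ J, (X - C b) - C 1) (by
    rw [degree_sub_C (natDegree_pos_iff_degree_pos.1 (dg ▸ cJ))]
    exact (natDegree_pos_iff_degree_pos.1 (dg ▸ cJ)).ne')
  have e : ∏ b ∈ J, ‖t - b‖ = ∏ _b ∈ J, (1 : ℝ) := by
    have : ∏ b ∈ J, (t - b) = 1 := by simpa [eval_prod, sub_eq_zero] using ht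
    rw [← norm_prod, this, norm_one, Finset.prod_const_one]
  have le : ‖t‖ ≤ 1 := by
    by_contra k
    push Not at k
    refine (Finset.prod_lt_prod_of_nonempty (fun _ _ => one_pos) (fun b hb => ?_)
      (Finset.card_pos.1 cJ)).ne' e
    rw [T1b_add (y := t) (by simpa using (hJ b hb).trans_lt k)]
    exact k
  have eq := T1b_eq_of_prod (fun _ _ => norm_nonneg _) (fun b hb => by
    rw [sub_eq_add_neg]
    exact (IsUltrametricDist.norm_add_le_max _ _).trans (max_le le (by simpa using hJ b hb)))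
    (fun _ _ => one_pos) e
  refine ⟨t, le, fun b hb => ?_⟩
  rcases le_or_gt ‖b‖ 1 with k | k
  · rw [eq b (Finset.mem_insert_of_mem (Finset.mem_filter.2 ⟨hb, k⟩))]
    exact ⟨le_rfl, k⟩
  · rw [norm_sub_rev, T1b_add (y := b) (by simpa using le.trans_lt k)]
    exact ⟨k.le, le_rfl⟩

open Polynomial in
theorem T1_one (p : Polynomial K) : ∃ t : K, ‖t‖ ≤ 1 ∧ ∀ i, ‖p.coeff i‖ ≤ ‖p.eval t‖ := by
  classical
  obtain ⟨t, h1, h2⟩ := T1b_far p.roots.toFinset
  refine ⟨t, h1, ?_⟩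
  have k : ∀ b ∈ p.roots, 1 ≤ ‖t - b‖ ∧ ‖b‖ ≤ ‖t - b‖ := fun b hb =>
    h2 b (Multiset.mem_toFinset.2 hb)
  rw [(IsAlgClosed.splits p).eq_prod_roots]
  generalize p.roots = m at k
  induction m using Multiset.induction_on with
  | empty =>
    intro i
    rw [Multiset.map_zero, Multiset.prod_zero, mul_one, coeff_C, eval_C]
    split_ifs
    exacts [le_rfl, norm_zero.trans_le (norm_nonneg _)]
  | cons b m ih =>
    intro i
    obtain ⟨k1, k2⟩ := k b (Multiset.mem_cons_self _ _)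
    rw [Multiset.map_cons, Multiset.prod_cons, mul_left_comm, coeff_mul, eval_mul, norm_mul]
    refine IsUltrametricDist.norm_sum_le_of_forall_le_of_nonneg (by positivity) fun j _ => ?_
    rw [norm_mul]
    refine mul_le_mul ?_ (ih (fun c hc => k c (Multiset.mem_cons_of_mem hc)) _) (norm_nonneg _)
      (norm_nonneg _)
    rw [eval_sub, eval_X, eval_C, coeff_sub, coeff_X, coeff_C]
    split_ifs with a1 a2 a2
    · omega
    · simpa using k1
    · simpa using k2
    · simp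

open Polynomial in
theorem T1b_coef (P : Pl K n) (I : Fin n →₀ ℕ) : ∃ ν : Fin n → K, (∀ i, ‖ν i‖ ≤ 1) ∧
    ‖P.coeff I‖ ≤ ‖MvPolynomial.aeval ν P‖ := by
  induction n with
  | zero =>
    refine ⟨0, fun i => i.elim0, ?_⟩
    rw [Subsingleton.elim I 0]
    nth_rewrite 2 [MvPolynomial.eq_C_of_isEmpty P]
    simp
  | succ n ih =>
    obtain ⟨s, h1, h2⟩ := ih ((MvPolynomial.finSuccEquiv K n P).coeff (I 0)) I.tail
    obtain ⟨t, h3, h4⟩ := T1_one ((MvPolynomial.finSuccEquiv K n P).map (MvPolynomial.eval s))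
    refine ⟨Fin.cons t s, fun i => Fin.cases h3 h1 i, ?_⟩
    rw [MvPolynomial.finSuccEquiv_coeff_coeff, Finsupp.cons_tail] at h2
    rw [MvPolynomial.aeval_eq_eval, MvPolynomial.eval_eq_eval_mv_eval']
    refine h2.trans (le_trans (le_of_eq ?_) (h4 (I 0)))
    rw [coeff_map, MvPolynomial.aeval_eq_eval]

theorem gp_one (P : Pl K n) : ∃ ν : Fin n → K, (∀ i, ‖ν i‖ ≤ 1) ∧
    ∀ I, ‖P.coeff I‖ ≤ ‖MvPolynomial.aeval ν P‖ := by
  rcases P.support.eq_empty_or_nonempty with h | h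
  · rw [MvPolynomial.support_eq_empty.1 h]
    exact ⟨0, fun _ => by simp, by simp⟩
  obtain ⟨I, -, hI⟩ := P.support.exists_max_image (fun I => ‖P.coeff I‖) h
  obtain ⟨ν, h1, h2⟩ := T1b_coef P I
  refine ⟨ν, h1, fun J => le_trans ?_ h2⟩
  by_cases k : J ∈ P.support
  · exact hI J k
  · rw [MvPolynomial.notMem_support_iff.1 k, norm_zero]
    exact norm_nonneg _

theorem Gen.gp (hw : Gen K w) (s : Finset (Pl K n)) : ∃ ν : Fin n → K, (∀ i, ‖ν i‖ ≤ 1) ∧
    ∀ P ∈ s, ‖MvPolynomial.aeval ν P‖ = ‖MvPolynomial.aeval w P‖ := by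
  classical
  obtain ⟨ν, h1, h2⟩ := gp_one (∏ P ∈ s.erase 0, P)
  have h3 := (hw.norm_le h1 _).antisymm (norm_aeval_le hw.1 (norm_nonneg _) h2)
  rw [map_prod, map_prod, norm_prod, norm_prod] at h3
  refine ⟨ν, h1, fun P hP => ?_⟩
  by_cases k : P = 0
  · rw [k, map_zero, map_zero, norm_zero, norm_zero]
  refine T1b_eq_of_prod (fun _ _ => norm_nonneg _) (fun P _ => hw.norm_le h1 P) (fun P hP => ?_) h3
    P (Finset.mem_erase.2 ⟨k, hP⟩)
  obtain ⟨I, hI⟩ := MvPolynomial.ne_zero_iff.1 (Finset.ne_of_mem_erase hP)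
  exact (norm_pos_iff.2 hI).trans_le (hw.2 P I)

end Pool.Agent.Work.MP_e120ef_ag.Br
end

-- merged part: Pool.Agent.Work.MP_e120ef_ag.Br.T7
section
/-!
# Entire functions

Plans.  `ent_approx`: with `r = max r 0` the family `‖coeff I a‖ * r ^ degree I` tends to zero along `cofinite`; `P` is the sum of the monomials over the finite set where it is `> ε`; `evE z (a - toE P)` is bounded by `H.norm_ev_le`.
`evE_cont`: on each bounded open set a uniform limit of continuous functions (`Metric.tendstoUniformlyOn_iff`-style, or an `ε / 3` argument with `Metric.continuous_iff`).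
`oc_evE`: `N = {ξ | ∀ i, ξ (X i) < τ (X i) + 1}` is a neighbourhood of `τ` (induced topology, `continuous_apply`); `q = 1`.
`ent_coeff`: approximate by `P` with the same coefficient at `I` (or let `ε → 0`: take truncations containing `I`), `Gen.coeff_le`.  `evE_inj` follows.
`evE_mem`, `ev_evE`: `ent_approx` at the radius `‖c‖`, `aeval (c • w) P = aeval w (aeval (fun i => C c * X i) P)`, `mem_TW`, `ev_sub`.
-/

set_option linter.unusedSectionVars false

open Filter Topology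

namespace Pool.Agent.Work.MP_e120ef_ag.Br

variable {K : Type} [NontriviallyNormedField K] [IsUltrametricDist K] {n : ℕ}
  {L : Type} [NontriviallyNormedField L] [IsUltrametricDist L] [CompleteSpace L] [NormedAlgebra K L]
  {L' : Type} [NontriviallyNormedField L'] [IsUltrametricDist L'] [CompleteSpace L']
  [NormedAlgebra K L']

theorem T7_bound (a : H.Ent K (Fin n)) {r ε : ℝ} (hε : 0 < ε) (P : Pl K n)
    (hP : ∀ J : Fin n →₀ ℕ, P.coeff J = MvPowerSeries.coeff J a.1 ∨ (P.coeff J = 0 ∧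
      ‖MvPowerSeries.coeff J a.1‖ * J.prod (fun _ k => max r 0 ^ k) ≤ ε))
    (z : Fin n → L) (hz : ∀ i, ‖z i‖ ≤ r) : ‖H.evE z a - MvPolynomial.aeval z P‖ ≤ ε := by
  rw [← H.evE_toE, ← map_sub, H.evE_apply]
  refine H.norm_ev_le hε.le fun J => ?_
  have e : MvPowerSeries.coeff J (a - H.toE P).1 = MvPowerSeries.coeff J a.1 - P.coeff J := by
    rw [← MvPolynomial.coeff_coe, ← map_sub]
    rfl
  rw [e]
  rcases hP J with h | ⟨h, h'⟩
  · rw [h, sub_self, norm_zero, zero_mul]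
    exact hε.le
  · rw [h, sub_zero]
    refine le_trans (mul_le_mul_of_nonneg_left ?_ (norm_nonneg _)) h'
    exact Finset.prod_le_prod (fun i _ => pow_nonneg (norm_nonneg _) _) fun i _ =>
      pow_le_pow_left₀ (norm_nonneg _) ((hz i).trans (le_max_left _ _)) _

theorem T7_scale {A : Type} [CommRing A] [Algebra K A] (c : K) (w : Fin n → A) (P : Pl K n) :
    MvPolynomial.aeval w (MvPolynomial.aeval (fun i => c • (MvPolynomial.X i : Pl K n)) P) =
      MvPolynomial.aeval (c • w) P := by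
  rw [← AlgHom.comp_apply, MvPolynomial.comp_aeval]
  congr 2
  funext i
  rw [map_smul, MvPolynomial.aeval_X, Pi.smul_apply]

theorem T7_norm {z : Fin n → L} (hz : ∀ i, ‖z i‖ ≤ 1) (c : K) (i : Fin n) : ‖(c • z) i‖ ≤ ‖c‖ := by
  rw [Pi.smul_apply, norm_smul]
  exact mul_le_of_le_one_right (norm_nonneg _) (hz i)

theorem ent_approx2 (a : H.Ent K (Fin n)) (r : ℝ) {ε : ℝ} (hε : 0 < ε) (I : Fin n →₀ ℕ) :
    ∃ P : Pl K n, P.coeff I = MvPowerSeries.coeff I a.1 ∧
      (∀ z : Fin n → L, (∀ i, ‖z i‖ ≤ r) → ‖H.evE z a - MvPolynomial.aeval z P‖ ≤ ε) ∧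
      ∀ z : Fin n → L', (∀ i, ‖z i‖ ≤ r) → ‖H.evE z a - MvPolynomial.aeval z P‖ ≤ ε := by
  classical
  have h1 : Tendsto (fun J : Fin n →₀ ℕ =>
      ‖MvPowerSeries.coeff J a.1‖ * J.prod (fun _ k => max r 0 ^ k)) cofinite (𝓝 0) :=
    a.2 fun _ => max r 0
  have h2 := Filter.eventually_cofinite.1 (h1.eventually (ge_mem_nhds hε))
  obtain ⟨P, hP⟩ : ∃ P : Pl K n, ∀ J, P.coeff J =
      if J ∈ insert I h2.toFinset then MvPowerSeries.coeff J a.1 else 0 := by
    refine ⟨∑ J ∈ insert I h2.toFinset, MvPolynomial.monomial J (MvPowerSeries.coeff J a.1),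
      fun J => ?_⟩
    rw [MvPolynomial.coeff_sum]
    simp only [MvPolynomial.coeff_monomial]
    rw [Finset.sum_ite_eq']
  have h3 : ∀ J : Fin n →₀ ℕ, P.coeff J = MvPowerSeries.coeff J a.1 ∨ (P.coeff J = 0 ∧
      ‖MvPowerSeries.coeff J a.1‖ * J.prod (fun _ k => max r 0 ^ k) ≤ ε) := fun J => by
    rw [hP J]
    split_ifs with k
    · exact Or.inl rfl
    · refine Or.inr ⟨rfl, by_contra fun k' => k ?_⟩
      exact Finset.mem_insert_of_mem (h2.mem_toFinset.2 k')
  exact ⟨P, by rw [hP I, if_pos (Finset.mem_insert_self _ _)], T7_bound a hε P h3,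
    T7_bound a hε P h3⟩

theorem ent_approx (a : H.Ent K (Fin n)) (r : ℝ) {ε : ℝ} (hε : 0 < ε) : ∃ P : Pl K n,
    ∀ z : Fin n → L, (∀ i, ‖z i‖ ≤ r) → ‖H.evE z a - MvPolynomial.aeval z P‖ ≤ ε :=
  let ⟨P, _, h, _⟩ := ent_approx2 (L := L) (L' := L) a r hε 0
  ⟨P, h⟩

theorem evE_cont (a : H.Ent K (Fin n)) : Continuous fun z : Fin n → L => H.evE z a := by
  refine continuous_of_locally_uniform_approx_of_continuousAt fun z u hu => ?_
  obtain ⟨ε, hε, h⟩ := Metric.mem_uniformity_dist.1 hu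
  obtain ⟨P, hP⟩ := ent_approx (L := L) a (‖z‖ + 1) (half_pos hε)
  refine ⟨Metric.ball z 1, Metric.ball_mem_nhds z one_pos, fun y => MvPolynomial.aeval y P,
    ?_, fun y hy => h ?_⟩
  · have : Continuous fun y : Fin n → L => MvPolynomial.aeval y P := by
      simp only [MvPolynomial.aeval_def, MvPolynomial.eval₂_eq']
      fun_prop
    exact this.continuousAt
  · rw [dist_eq_norm]
    refine (hP y fun i => (norm_le_pi_norm y i).trans ?_).trans_lt (half_lt_self hε)
    have := norm_lt_of_mem_ball hy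
    exact this.le

theorem oc_evE (D : Pl K n) (τ : Sn K (Pl K n)) (a : H.Ent K (Fin n)) :
    Oc D τ fun z : Fin n → L => H.evE z a := by
  refine ⟨{ξ | ∀ i, ξ (MvPolynomial.X i) < τ (MvPolynomial.X i) + 1}, ?_, fun ε hε => ?_⟩
  · refine Filter.eventually_all.2 fun i => ?_
    have hc : Continuous fun ξ : Sn K (Pl K n) => ξ (MvPolynomial.X i) :=
      (continuous_apply _).comp continuous_induced_dom
    exact hc.continuousAt.eventually (gt_mem_nhds (lt_add_one _))
  · obtain ⟨P, hP⟩ := ent_approx (L := L) a (∑ i, (τ (MvPolynomial.X i) + 1)) hε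
    refine ⟨P, 1, fun z hz => ⟨by simp, fun _ => ?_⟩⟩
    rw [map_one, div_one]
    refine hP z fun i => le_trans ?_ (Finset.single_le_sum
      (f := fun i => τ (MvPolynomial.X i) + 1) (fun j _ => add_nonneg (τ.nn _) zero_le_one)
      (Finset.mem_univ i))
    have h1 : ‖MvPolynomial.aeval z (MvPolynomial.X i : Pl K n)‖ < τ (MvPolynomial.X i) + 1 := hz i
    rw [MvPolynomial.aeval_X] at h1
    exact h1.le

variable {w : Fin n → L}

theorem ent_coeff (hw : Gen K w) (c : K) (a : H.Ent K (Fin n)) (I : Fin n →₀ ℕ) :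
    ‖MvPowerSeries.coeff I a.1‖ * ‖c‖ ^ I.degree ≤ ‖H.evE (c • w) a‖ := by
  refine le_of_forall_pos_le_add fun ε hε => ?_
  obtain ⟨P, h1, h2, -⟩ := ent_approx2 (L := L) (L' := L) a ‖c‖ hε I
  have h3 := h2 (c • w) (T7_norm hw.1 c)
  have h4 := hw.coeff_le c P I
  have h5 := norm_sub_norm_le (MvPolynomial.aeval (c • w) P) (H.evE (c • w) a)
  rw [norm_sub_rev] at h5
  rw [← h1]
  linarith

theorem evE_inj (hw : Gen K w) {c : K} (hc : c ≠ 0) {a : H.Ent K (Fin n)}
    (h : H.evE (c • w) a = 0) : a = 0 := by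
  refine Subtype.ext (MvPowerSeries.ext fun I => ?_)
  have h1 := ent_coeff hw c a I
  rw [h, norm_zero] at h1
  have h2 : 0 < ‖c‖ ^ I.degree := pow_pos (norm_pos_iff.2 hc) _
  exact norm_le_zero_iff.1 (le_of_mul_le_mul_right (by rwa [zero_mul]) h2)

variable {R : Subalgebra K L}

theorem Co.evE_mem (h : Co R w) (c : K) (a : H.Ent K (Fin n)) : H.evE (c • w) a ∈ R := by
  rw [← h.eq, mem_TW]
  intro ε hε
  obtain ⟨P, hP⟩ := ent_approx (L := L) a ‖c‖ hε
  refine ⟨MvPolynomial.aeval (fun i => c • (MvPolynomial.X i : Pl K n)) P, ?_⟩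
  rw [T7_scale]
  exact hP _ (T7_norm h.gen.1 c)

theorem Co.ev_evE (h : Co R w) (c : K) (a : H.Ent K (Fin n)) {z : Fin n → L'}
    (hz : ∀ i, ‖z i‖ ≤ 1) : h.ev z hz ⟨_, h.evE_mem c a⟩ = H.evE (c • z) a := by
  refine eq_of_sub_eq_zero (norm_le_zero_iff.1 (le_of_forall_pos_le_add fun ε hε => ?_))
  obtain ⟨P, -, h1, h2⟩ := ent_approx2 (L := L) (L' := L') a ‖c‖ hε 0
  have h3 := h.ev_sub hz ⟨_, h.evE_mem c a⟩
    (MvPolynomial.aeval (fun i => c • (MvPolynomial.X i : Pl K n)) P)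
  rw [T7_scale, T7_scale] at h3
  have h4 := h3.trans (h1 _ (T7_norm h.gen.1 c))
  have h5 := h2 _ (T7_norm hz c)
  rw [norm_sub_rev] at h5
  rw [zero_add, ← sub_add_sub_cancel _ (MvPolynomial.aeval (c • z) P)]
  exact (IsUltrametricDist.norm_add_le_max _ _).trans (max_le h4 h5)

end Pool.Agent.Work.MP_e120ef_ag.Br
end
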