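import Pool.Agent.Work.MP_e120ef_ag.H.Val
import Pool.Agent.Work.MP_e120ef_ag.H.Gauss
import Mathlib
import Pool.Agent.Work.MP_e120ef_ag.H.DerL
import Pool.Agent.Work.MP_e120ef_ag.Br.T7
import Pool.Agent.Work.MP_e120ef_ag.Br.C1

attribute [-instance] Subalgebra.normedCommRing Subalgebra.seminormedCommRing
  Subalgebra.seminormedRing Subalgebra.normedRing
  Localization.subalgebra.instIsFractionRingSubtypeMemSubalgebra
attribute [local instance 2000] RingHomClass.toAddMonoidHomClass AddMonoidHomClass.toAddHomClass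
  RingHom.instRingHomClass AlgHomClass.toRingHomClass IsDomain.to_noZeroDivisors
  IsDomain.toNontrivial NeZero.one RingHomClass.toMonoidHomClass MonoidHomClass.toMulHomClass
  RingHomClass.toMonoidWithZeroHomClass AddMonoidHomClass.toZeroHomClass MonoidHomClass.toOneHomClass
attribute [-instance] instCharZeroOfIsSemireal AlgHom.instContinuousLinearMapClassOfAlgHomClass
  RingHomClass.toLinearMapClassRat RingHomClass.toLinearMapClassNNRat NumberField.to_charZero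

-- merged part: Pool.Agent.Work.MP_e120ef_ag.C.AC
section
-- merged part: Pool.Agent.Work.MP_e120ef_ag.C.CD
section
/-!
# Derivations acting on the coefficients of series

Plans.  `exists_cD`: the map `F ↦ fun I => D (coeff I F)`; Leibniz by `coeff_mul`, `map_sum` (`Derivation.mk'`).  `cD_res`: squeeze as in `pderiv_res` (`H/Ent.lean`).
`cD_chain`: induction on `P` (`MvPolynomial.induction_on`), or expand `aeval` over monomials and use the chain rule for the monomial `monomial I 1`.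
`hc_cD`: `coeff_hc`.  `line_chain`: `cD_chain` with `Q = hc m (cD D F)`, then `euler_hc`.
`ev_chainD`: copy the proof of `ev_chain` (`H/EntD.lean`): `d` is additive and bounded, so it commutes with the sum `hasSum_ev`; on a term `d (algebraMap c * mon z I) = algebraMap (D c) * mon z I + algebraMap c * d (mon z I)`.
`exists_Dt`: copy `MI.exists_pd` (`H/MI.lean`) with the base field `k` (`AlgHom.restrictScalars`).
-/

open Filter Topology MvPowerSeries

namespace Pool.Agent.Work.MP_e120ef_ag.H.CS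

section formal

variable {k K σ : Type} [Field k] [Field K] [Algebra k K] (D : Derivation k K K)

variable (σ) in
theorem exists_cD : ∃ d : Derivation k (MvPowerSeries σ K) (MvPowerSeries σ K),
    ∀ F I, coeff I (d F) = D (coeff I F) := by
  classical
  refine ⟨Derivation.mk'
    { toFun := fun F => (fun I => D (coeff I F) : (σ →₀ ℕ) → K)
      map_add' := fun a b => ?_
      map_smul' := fun c b => ?_ } fun a b => ?_, fun _ _ => rfl⟩
  · ext I
    change D (coeff I (a + b)) = D (coeff I a) + D (coeff I b)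
    rw [map_add, map_add]
  · ext I
    exact D.map_smul c (coeff I b)
  · ext I
    change D (coeff I (a * b)) = coeff I _
    rw [smul_eq_mul, smul_eq_mul, mul_comm b, map_add, coeff_mul, coeff_mul, coeff_mul, map_sum,
      ← Finset.sum_add_distrib]
    refine Finset.sum_congr rfl fun p _ => ?_
    rw [Derivation.leibniz, smul_eq_mul, smul_eq_mul, mul_comm (coeff p.2 b)]
    rfl

/-- the derivation acting on coefficients -/
noncomputable def cD : Derivation k (MvPowerSeries σ K) (MvPowerSeries σ K) :=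
  (exists_cD σ D).choose

theorem coeff_cD (F : MvPowerSeries σ K) (I : σ →₀ ℕ) : coeff I (cD D F) = D (coeff I F) :=
  (exists_cD σ D).choose_spec F I

theorem cD_X (l : σ) : cD D (X l : MvPowerSeries σ K) = 0 := by
  classical
  ext I
  rw [coeff_cD, coeff_X]
  split_ifs <;> simp

theorem cD_C (c : K) : cD D (C c : MvPowerSeries σ K) = C (D c) := by
  classical
  ext I
  rw [coeff_cD, coeff_C, coeff_C]
  split_ifs <;> simp

variable [Fintype σ] {L : Type} [CommRing L] [Algebra K L] [Algebra k L] (d : Derivation k L L)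
  (hd : ∀ c, d (algebraMap K L c) = algebraMap K L (D c))
include hd

theorem CD_mon (z : σ → L) (I : σ →₀ ℕ) (c : K) :
    d (MvPolynomial.aeval z (MvPolynomial.monomial I c)) =
      MvPolynomial.aeval z (MvPolynomial.monomial I (D c)) +
        ∑ s, MvPolynomial.aeval z (MvPolynomial.pderiv s (MvPolynomial.monomial I c)) * d (z s) := by
  classical
  induction I using EntD_ind with
  | h0 =>
    simp only [MvPolynomial.monomial_zero', MvPolynomial.algHom_C, MvPolynomial.pderiv_C, map_zero,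
      zero_mul, Finset.sum_const_zero, add_zero]
    exact hd c
  | hs J i hp =>
    rw [MvPolynomial.monomial_add_single, MvPolynomial.monomial_add_single, pow_one]
    obtain ⟨p, hpe⟩ : ∃ p, p = MvPolynomial.monomial J c := ⟨_, rfl⟩
    rw [← hpe] at hp ⊢
    have e : ∀ s, MvPolynomial.aeval z (MvPolynomial.pderiv s (p * MvPolynomial.X i)) * d (z s) =
        (if s = i then MvPolynomial.aeval z p * d (z s) else 0) +
          z i * (MvPolynomial.aeval z (MvPolynomial.pderiv s p) * d (z s)) := by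
      intro s
      rw [Derivation.leibniz]
      by_cases hs : s = i
      · subst hs
        simp only [MvPolynomial.pderiv_X_self, smul_eq_mul, mul_one, map_add, map_mul,
          MvPolynomial.aeval_X, if_true]
        ring
      · rw [MvPolynomial.pderiv_X_of_ne (Ne.symm hs), if_neg hs]
        simp only [smul_eq_mul, mul_zero, map_mul, zero_add, MvPolynomial.aeval_X]
        ring
    rw [Finset.sum_congr rfl fun s _ => e s, Finset.sum_add_distrib, ← Finset.mul_sum,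
      map_mul, Derivation.leibniz, MvPolynomial.aeval_X, hp, map_mul, MvPolynomial.aeval_X]
    simp only [smul_eq_mul, Finset.sum_ite_eq', Finset.mem_univ, if_true]
    ring

theorem cD_chain (z : σ → L) {P Q : MvPolynomial σ K} (h : ∀ I, Q.coeff I = D (P.coeff I)) :
    d (MvPolynomial.aeval z P) =
      MvPolynomial.aeval z Q + ∑ s, MvPolynomial.aeval z (MvPolynomial.pderiv s P) * d (z s) := by
  classical
  have hQ : Q = ∑ I ∈ P.support, MvPolynomial.monomial I (D (P.coeff I)) := by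
    ext J
    rw [h, MvPolynomial.coeff_sum]
    simp only [MvPolynomial.coeff_monomial]
    rw [Finset.sum_ite_eq']
    split_ifs with hJ
    · rfl
    · rw [MvPolynomial.notMem_support_iff.1 hJ, map_zero]
  rw [hQ]
  conv_lhs => rw [P.as_sum]
  conv_rhs => arg 2; rw [P.as_sum]
  simp only [map_sum, Finset.sum_mul]
  rw [Finset.sum_comm, ← Finset.sum_add_distrib]
  exact Finset.sum_congr rfl fun I _ => CD_mon D d hd z I _

theorem line_chain (z : σ → L) (c : L) (hz : ∀ s, d (z s) = c * z s) (F : MvPowerSeries σ K)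
    (m : ℕ) : d (MvPolynomial.aeval z (hc m F)) =
      MvPolynomial.aeval z (hc m (cD D F)) + c * m * MvPolynomial.aeval z (hc m F) := by
  have hQ : ∀ I, (hc m (cD D F)).coeff I = D ((hc m F).coeff I) := by
    intro I
    rw [coeff_hc, coeff_hc, coeff_cD]
    split_ifs <;> simp
  rw [cD_chain D d hd z hQ]
  congr 1
  have e := congrArg (MvPolynomial.aeval z) (euler_hc m F)
  rw [map_sum, map_nsmul, nsmul_eq_mul] at e
  rw [mul_assoc, ← e, Finset.mul_sum]
  refine Finset.sum_congr rfl fun s _ => ?_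
  rw [hz, map_mul, MvPolynomial.aeval_X]
  ring

end formal

variable {k K σ : Type} [Field k] [NontriviallyNormedField K] [IsUltrametricDist K] [Algebra k K]
  {D : Derivation k K K} (hD : ∀ x, ‖D x‖ ≤ ‖x‖)

include hD in
theorem cD_res {c : σ → ℝ} {F : MvPowerSeries σ K} (h : IsRestricted c F) :
    IsRestricted c (cD D F) := by
  rw [← isRestricted_abs_iff] at h ⊢
  rw [IsRestricted] at h ⊢
  refine tendsto_const_nhds.squeeze h (fun I => ?_) fun I => ?_
  · exact mul_nonneg (norm_nonneg _) (Finset.prod_nonneg fun s _ => pow_nonneg (abs_nonneg _) _)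
  · refine mul_le_mul_of_nonneg_right ?_
      (Finset.prod_nonneg fun s _ => pow_nonneg (abs_nonneg _) _)
    rw [coeff_cD]
    exact hD _

/-- restriction to a stable subalgebra -/
noncomputable def cS (D : Derivation k K K) (S : Subalgebra K (MvPowerSeries σ K))
    (h : ∀ F ∈ S, cD D F ∈ S) : Derivation k S S :=
  Derivation.mk'
    { toFun := fun F => ⟨cD D F.1, h F F.2⟩
      map_add' := fun a b => Subtype.ext (map_add (cD D) a.1 b.1)
      map_smul' := fun c b => Subtype.ext ((cD D).map_smul c b.1) }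
    fun a b => Subtype.ext ((cD D).leibniz a.1 b.1)

/-- on entire series -/
noncomputable def DE : Derivation k (Ent K σ) (Ent K σ) := cS D _ fun _ h c => cD_res hD (h c)

variable {n : ℕ}

/-- on the Tate algebra -/
noncomputable def DT : Derivation k (T K n) (T K n) := cS D _ fun _ h => cD_res hD h

theorem DE_val (F : Ent K σ) : (DE hD F).1 = cD D F.1 := rfl

theorem DT_val (F : T K n) : (DT hD F).1 = cD D F.1 := rfl

/-- on the fractions -/
noncomputable def DF : Derivation k (FT K n) (FT K n) :=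
  (frac_ext (F := FT K n) (DT (n := n) hD)).choose

theorem DF_im (F : T K n) : DF (n := n) hD (imT F) = imT (DT hD F) :=
  (frac_ext (F := FT K n) (DT (n := n) hD)).choose_spec F

theorem DF_alg (c : K) : DF (n := n) hD (algebraMap K (FT K n) c) = algebraMap K (FT K n) (D c) := by
  rw [IsScalarTower.algebraMap_apply K (T K n) (FT K n) c,
    IsScalarTower.algebraMap_apply K (T K n) (FT K n) (D c)]
  refine (DF_im hD _).trans (congrArg imT (Subtype.ext ?_))
  exact cD_C D c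

theorem DF_X (l : Fin n) : DF (n := n) hD (imT (toT (MvPolynomial.X l) : T K n)) = 0 := by
  rw [DF_im]
  have : DT hD (toT (MvPolynomial.X l) : T K n) = 0 := by
    refine Subtype.ext ?_
    rw [DT_val, toT_val, MvPolynomial.coe_X]
    exact cD_X D l
  rw [this]
  exact map_zero _

theorem ev_chainD [Fintype σ] {L : Type} [NontriviallyNormedField L] [IsUltrametricDist L]
    [CompleteSpace L] [NormedAlgebra K L] [Algebra k L] (d : Derivation k L L) {C : ℝ}
    (hd : ∀ x, ‖d x‖ ≤ C * ‖x‖) (h : ∀ c, d (algebraMap K L c) = algebraMap K L (D c))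
    (F : Ent K σ) (z : σ → L) :
    d (evE z F) = evE z (DE hD F) + ∑ s, evE z (pdE K s F) * d (z s) := by
  have hc : Continuous d := AddMonoidHomClass.continuous_of_bound d C hd
  have h1 := (hasSum_ev (F := F.1) (z := z) (F.2 _)).map d hc
  have h2 : ∀ s, HasSum (fun I : σ →₀ ℕ => algebraMap K L (coeff I F.1 * (I s : K)) *
      mon z (I - Finsupp.single s 1)) (evE z (pdE K s F)) := by
    intro s
    have hinj : Function.Injective fun J : σ →₀ ℕ => J + Finsupp.single s 1 :=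
      add_left_injective _
    rw [← hinj.hasSum_iff]
    · have h3 := hasSum_ev (F := (pdE K s F).1) (z := z) ((pdE K s F).2 _)
      rw [evE_apply]
      convert h3 using 1
      funext J
      simp only [Function.comp, pdE_val, coeff_pderiv, add_tsub_cancel_right, Finsupp.add_apply,
        Finsupp.single_eq_same, Nat.cast_add, Nat.cast_one]
    · intro I hI
      have : I s = 0 := by
        by_contra hne
        refine hI ⟨I - Finsupp.single s 1, tsub_add_cancel_of_le ?_⟩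
        rw [Finsupp.single_le_iff]; omega
      rw [this]; simp
  have h3 := hasSum_ev (F := (DE hD F).1) (z := z) ((DE hD F).2 _)
  have h4 := h3.add (hasSum_sum (s := Finset.univ) fun s _ => (h2 s).mul_right (d (z s)))
  rw [evE_apply, evE_apply]
  have e5 : (⇑d ∘ fun I => algebraMap K L (coeff I F.1) * mon z I) = fun I : σ →₀ ℕ =>
      algebraMap K L (coeff I (DE hD F).1) * mon z I +
      ∑ s, algebraMap K L (coeff I F.1 * (I s : K)) * mon z (I - Finsupp.single s 1) * d (z s) := by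
    funext I
    have e := CD_mon D d h z I (coeff I F.1)
    simp only [MvPolynomial.pderiv_monomial, MvPolynomial.aeval_monomial] at e
    rw [DE_val, coeff_cD]
    exact e
  rw [e5] at h1
  exact h1.unique h4

theorem exists_Dt [CharZero k] {F : Type} [Field F] [Algebra K F] {B : Subalgebra K F}
    {𝒩 : ND B n} {M : Type} [Field M] [Algebra K M] [Algebra k M] [IsScalarTower k K M]
    (𝓜 : MI 𝒩 M) : ∃ Dt : Derivation k M M, ∀ a, Dt (𝓜.E a) = 𝓜.E (DE hD a) := by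
  obtain ⟨δ, hδ⟩ := frac_ext (F := Fr (Ent K (Fin n))) (DE (σ := Fin n) hD)
  obtain ⟨π, hπ⟩ : ∃ π : Fr (Ent K (Fin n)) →ₐ[k] M, ∀ a, π (algebraMap _ _ a) = 𝓜.E a :=
    ⟨IsFractionRing.liftAlgHom (g := 𝓜.E.restrictScalars k) 𝓜.inj, fun a =>
      IsFractionRing.lift_algebraMap (g := 𝓜.E.toRingHom) 𝓜.inj a⟩
  obtain ⟨D', hD', -⟩ := exists_der_ext π δ (ι := Empty) (fun i => i.elim) (fun P hP => by
    rw [P.eq_C_of_isEmpty] at hP ⊢
    rw [MvPolynomial.eval₂_C, _root_.map_eq_zero] at hP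
    rw [hP, map_zero]) fun i => i.elim
  exact ⟨D', fun a => by rw [← hπ, hD', hδ, hπ]⟩

end Pool.Agent.Work.MP_e120ef_ag.H.CS
end

-- merged part: Pool.Agent.Work.MP_e120ef_ag.C.LP
section
/-!
# Dual numbers of logarithmic type

`lam` is a rational linear form on the reals, `lv lam x` the rational number `lam (log ‖x‖)` seen in the field.
A dual number `x + y e` has property `LP` if it is zero or `‖y - lv x * x‖ < ‖x‖`.
Plans.  `norm_rat`: `‖r‖ * ‖r⁻¹‖ = 1` and both factors are at most one.  `lv_mul`: `norm_mul`, `Real.log_mul`, `map_add`, `Rat.cast_add`.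
`LP.le`: `y = (y - lv x * x) + lv x * x`.  `LP.mul`: with `a = x + y e`, `b = u + v e` one has `x v + y u - (lv x + lv u) x u = x (v - lv u * u) + u (y - lv x * x)`.
`LP.of_mul`: if `a.fst = 0` then `(a * b).fst = 0`, so `a * b = 0`, `a.snd * b.fst = 0`, `a = 0`; otherwise solve the same identity for `u (y - lv x * x)`.
`LP.sum`: let `x = (∑ f i).fst`.  If `x = 0` all `f i` vanish.  Otherwise `snd - lv x * x = ∑ (snd (f i) - lv x * fst (f i))` and every term has norm `< ‖x‖`: if `‖fst (f i)‖ = ‖x‖` by `lv_congr` and `LP (f i)`, if `‖fst (f i)‖ < ‖x‖` by `LP.le` and `norm_lv`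
(`IsUltrametricDist.exists_norm_finsetSum_le_of_nonempty` or induction).
`LP.near`: `‖b.fst‖ = ‖a.fst‖`, so `lv` agrees; ultrametric inequality.
`eq_one_of_lv`: `lam (log ‖x‖) = 0` for all `lam` by `norm_rat`; linear forms separate points (`Module.forall_dual_apply_eq_zero_iff`), so `log ‖x‖ = 0`.
-/

namespace Pool.Agent.Work.MP_e120ef_ag.H.CS

variable {L : Type} [NormedField L] (lam : ℝ →ₗ[ℚ] ℚ)

/-- the logarithmic weight -/
noncomputable def lv (x : L) : L := ((lam (Real.log ‖x‖) : ℚ) : L)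

/-- dual numbers of logarithmic type -/
def LP (a : DualNumber L) : Prop := a = 0 ∨ ‖a.snd - lv lam a.fst * a.fst‖ < ‖a.fst‖

/-- the rational numbers have absolute value at most one -/
def RQ (L : Type) [NormedField L] : Prop := ∀ r : ℚ, ‖(r : L)‖ ≤ 1

variable {lam}

theorem RQ.norm_rat [CharZero L] (h : RQ L) {r : ℚ} (hr : r ≠ 0) : ‖(r : L)‖ = 1 := by
  have h1 : ‖(r : L)‖ * ‖((r⁻¹ : ℚ) : L)‖ = 1 := by
    rw [← norm_mul, ← Rat.cast_mul, mul_inv_cancel₀ hr, Rat.cast_one, norm_one]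
  have h2 := h r
  have h3 := h r⁻¹
  have h4 := norm_nonneg (r : L)
  nlinarith

theorem RQ.norm_nat [CharZero L] (h : RQ L) {n : ℕ} (hn : n ≠ 0) : ‖(n : L)‖ = 1 := by
  have := h.norm_rat (r := (n : ℚ)) (by exact_mod_cast hn)
  rwa [Rat.cast_natCast] at this

theorem RQ.norm_lv (h : RQ L) (x : L) : ‖lv lam x‖ ≤ 1 := h _

theorem RQ.map {L' : Type} [NormedField L'] [CharZero L] (h : RQ L) (φ : L →+* L')
    (hφ : ∀ x, ‖φ x‖ = ‖x‖) : RQ L' := by
  intro r
  have : CharZero L' := (RingHom.charZero_iff φ.injective).1 inferInstance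
  rw [← map_ratCast φ r, hφ]
  exact h r

theorem lv_congr {x y : L} (h : ‖x‖ = ‖y‖) : lv lam x = lv lam y := by
  rw [lv, lv, h]

theorem lv_map {L' : Type} [NormedField L'] [CharZero L] (φ : L →+* L') {x : L} {y : L'}
    (h : ‖y‖ = ‖x‖) : φ (lv lam x) = lv lam y := by
  have : CharZero L' := (RingHom.charZero_iff φ.injective).1 inferInstance
  rw [lv, lv, h, map_ratCast]

theorem lv_of_norm_one {x : L} (h : ‖x‖ = 1) : lv lam x = 0 := by
  rw [lv, h, Real.log_one, map_zero, Rat.cast_zero]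

theorem lv_mul [CharZero L] {x y : L} (hx : x ≠ 0) (hy : y ≠ 0) :
    lv lam (x * y) = lv lam x + lv lam y := by
  rw [lv, lv, lv, norm_mul, Real.log_mul (norm_ne_zero_iff.2 hx) (norm_ne_zero_iff.2 hy), map_add,
    Rat.cast_add]

theorem lv_pow [CharZero L] (x : L) (n : ℕ) : lv lam (x ^ n) = n * lv lam x := by
  rw [lv, lv, norm_pow, Real.log_pow, ← nsmul_eq_mul, map_nsmul, nsmul_eq_mul, Rat.cast_mul,
    Rat.cast_natCast]

theorem LP.zero : LP lam (0 : DualNumber L) := Or.inl rfl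

theorem LP.eq_zero {a : DualNumber L} (h : LP lam a) (h0 : a.fst = 0) : a = 0 := by
  rcases h with h | h
  · exact h
  · rw [h0, norm_zero] at h
    exact absurd h (not_lt.2 (norm_nonneg _))

theorem LP.lt {a : DualNumber L} (h : LP lam a) (h0 : a.fst ≠ 0) :
    ‖a.snd - lv lam a.fst * a.fst‖ < ‖a.fst‖ := by
  rcases h with h | h
  · exact absurd (by rw [h]; rfl) h0
  · exact h

theorem LP.inl {c : L} (h : c = 0 ∨ ‖c‖ = 1) : LP lam (TrivSqZeroExt.inl c : DualNumber L) := by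
  rcases h with h | h
  · left
    rw [h, TrivSqZeroExt.inl_zero]
  · right
    simp [lv_of_norm_one h, h]

theorem LP.log {y : L} (hy : y ≠ 0) :
    LP lam (TrivSqZeroExt.inl y + TrivSqZeroExt.inr (lv lam y * y) : DualNumber L) := by
  right
  simpa using hy

variable [IsUltrametricDist L] [CharZero L] (hQ : RQ L)
include hQ

theorem LP.le {a : DualNumber L} (h : LP lam a) : ‖a.snd‖ ≤ ‖a.fst‖ := by
  by_cases h0 : a.fst = 0
  · rw [h.eq_zero h0]
    simp
  · have h1 := h.lt h0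
    have h2 : ‖lv lam a.fst * a.fst‖ ≤ ‖a.fst‖ := by
      rw [norm_mul]
      exact mul_le_of_le_one_left (norm_nonneg _) (hQ.norm_lv _)
    have h3 := IsUltrametricDist.norm_add_le_max (a.snd - lv lam a.fst * a.fst) (lv lam a.fst * a.fst)
    rw [sub_add_cancel] at h3
    exact h3.trans (max_le h1.le h2)

theorem LP.mul {a b : DualNumber L} (ha : LP lam a) (hb : LP lam b) : LP lam (a * b) := by
  by_cases h0 : a.fst = 0
  · left
    rw [ha.eq_zero h0, zero_mul]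
  by_cases h1 : b.fst = 0
  · left
    rw [hb.eq_zero h1, mul_zero]
  right
  have e : (a * b).snd - lv lam (a * b).fst * (a * b).fst =
      a.fst * (b.snd - lv lam b.fst * b.fst) + (a.snd - lv lam a.fst * a.fst) * b.fst := by
    rw [DualNumber.snd_mul, TrivSqZeroExt.fst_mul, lv_mul h0 h1]
    ring
  rw [e, TrivSqZeroExt.fst_mul, norm_mul]
  refine (IsUltrametricDist.norm_add_le_max _ _).trans_lt (max_lt ?_ ?_)
  · rw [norm_mul]
    exact mul_lt_mul_of_pos_left (hb.lt h1) (norm_pos_iff.2 h0)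
  · rw [norm_mul]
    exact mul_lt_mul_of_pos_right (ha.lt h0) (norm_pos_iff.2 h1)

theorem LP.pow {a : DualNumber L} (ha : LP lam a) (n : ℕ) : LP lam (a ^ n) := by
  induction n with
  | zero =>
    rw [pow_zero, ← TrivSqZeroExt.inl_one]
    exact LP.inl (Or.inr norm_one)
  | succ n ih =>
    rw [pow_succ]
    exact ih.mul hQ ha

theorem LP.of_mul {a b : DualNumber L} (hab : LP lam (a * b)) (hb : LP lam b) (h0 : b.fst ≠ 0) :
    LP lam a := by
  by_cases h1 : a.fst = 0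
  · left
    have h2 := hab.eq_zero (by rw [TrivSqZeroExt.fst_mul, h1, zero_mul])
    have h3 : (a * b).snd = 0 := by rw [h2]; rfl
    rw [DualNumber.snd_mul, h1, zero_mul, zero_add] at h3
    exact TrivSqZeroExt.ext h1 ((mul_eq_zero.1 h3).resolve_right h0)
  right
  have h2 := hab.lt (by rw [TrivSqZeroExt.fst_mul]; exact mul_ne_zero h1 h0)
  have e : (a.snd - lv lam a.fst * a.fst) * b.fst = ((a * b).snd - lv lam (a * b).fst * (a * b).fst) +
      -(a.fst * (b.snd - lv lam b.fst * b.fst)) := by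
    rw [DualNumber.snd_mul, TrivSqZeroExt.fst_mul, lv_mul h1 h0]
    ring
  have h3 : ‖(a.snd - lv lam a.fst * a.fst) * b.fst‖ < ‖a.fst‖ * ‖b.fst‖ := by
    rw [e]
    refine (IsUltrametricDist.norm_add_le_max _ _).trans_lt (max_lt ?_ ?_)
    · rw [← norm_mul, ← TrivSqZeroExt.fst_mul]
      exact h2
    · rw [norm_neg, norm_mul]
      exact mul_lt_mul_of_pos_left (hb.lt h0) (norm_pos_iff.2 h1)
  rw [norm_mul] at h3
  exact lt_of_mul_lt_mul_right h3 (norm_nonneg _)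

theorem LP.sum {ι : Type} (s : Finset ι) (f : ι → DualNumber L) (h : ∀ i ∈ s, LP lam (f i))
    (h' : ∀ i ∈ s, ‖(f i).fst‖ ≤ ‖(∑ i ∈ s, f i).fst‖) : LP lam (∑ i ∈ s, f i) := by
  by_cases h0 : (∑ i ∈ s, f i).fst = 0
  · left
    refine Finset.sum_eq_zero fun i hi => (h i hi).eq_zero ?_
    have := h' i hi
    rwa [h0, norm_zero, norm_le_zero_iff] at this
  right
  obtain ⟨x, hx⟩ : ∃ x, x = (∑ i ∈ s, f i).fst := ⟨_, rfl⟩
  rw [← hx] at h0 h'
  have hp : 0 < ‖x‖ := norm_pos_iff.2 h0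
  have e : (∑ i ∈ s, f i).snd - lv lam x * x = ∑ i ∈ s, ((f i).snd - lv lam x * (f i).fst) := by
    rw [Finset.sum_sub_distrib, ← Finset.mul_sum, TrivSqZeroExt.snd_sum, ← TrivSqZeroExt.fst_sum, ← hx]
  rw [← hx, e]
  refine Finset.sum_induction _ (fun y => ‖y‖ < ‖x‖) (fun a b ha hb => ?_) (by simpa using h0)
    fun i hi => ?_
  · exact (IsUltrametricDist.norm_add_le_max _ _).trans_lt (max_lt ha hb)
  · rcases (h' i hi).lt_or_eq with h1 | h1
    · rw [sub_eq_add_neg]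
      refine (IsUltrametricDist.norm_add_le_max _ _).trans_lt (max_lt ?_ ?_)
      · exact ((h i hi).le hQ).trans_lt h1
      · rw [norm_neg, norm_mul]
        exact (mul_le_of_le_one_left (norm_nonneg _) (hQ.norm_lv _)).trans_lt h1
    · rw [← lv_congr h1, ← h1]
      exact (h i hi).lt (norm_pos_iff.1 (h1 ▸ hp))

theorem LP.near {a b : DualNumber L} (hb : LP lam b) (h1 : ‖a.fst - b.fst‖ < ‖a.fst‖)
    (h2 : ‖a.snd - b.snd‖ < ‖a.fst‖) : LP lam a := by
  right
  have h3 : ‖b.fst‖ = ‖a.fst‖ := by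
    have := IsUltrametricDist.norm_add_eq_max_of_norm_ne_norm (x := a.fst) (y := -(a.fst - b.fst))
      (by rw [norm_neg]; exact h1.ne')
    rw [norm_neg, max_eq_left h1.le, neg_sub, add_sub_cancel] at this
    exact this
  have hp : 0 < ‖a.fst‖ := (norm_nonneg _).trans_lt h1
  have h4 := hb.lt (norm_pos_iff.1 (h3 ▸ hp))
  rw [lv_congr h3, h3] at h4
  have e : a.snd - lv lam a.fst * a.fst = (a.snd - b.snd) + ((b.snd - lv lam a.fst * b.fst) +
      -(lv lam a.fst * (a.fst - b.fst))) := by ring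
  rw [e]
  refine (IsUltrametricDist.norm_add_le_max _ _).trans_lt (max_lt h2
    ((IsUltrametricDist.norm_add_le_max _ _).trans_lt (max_lt h4 ?_)))
  rw [norm_neg, norm_mul]
  exact (mul_le_of_le_one_left (norm_nonneg _) (hQ.norm_lv _)).trans_lt h1

omit [IsUltrametricDist L] in
theorem eq_one_of_lv {x : L} (hx : x ≠ 0) (h : ∀ lam : ℝ →ₗ[ℚ] ℚ, ‖lv lam x‖ < 1) : ‖x‖ = 1 := by
  have h1 : ∀ lam : Module.Dual ℚ ℝ, lam (Real.log ‖x‖) = 0 := fun lam => by
    by_contra hc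
    have := h lam
    rw [lv, hQ.norm_rat hc] at this
    exact lt_irrefl _ this
  have h2 := (Module.forall_dual_apply_eq_zero_iff ℚ _).1 h1
  exact Real.eq_one_of_pos_of_log_eq_zero (norm_pos_iff.2 hx) h2

omit [IsUltrametricDist L] [CharZero L] hQ

/-- a derivation of logarithmic type -/
def LD {k : Type} [Field k] [Algebra k L] (lam : ℝ →ₗ[ℚ] ℚ) (D : Derivation k L L) : Prop :=
  ∀ x, x ≠ 0 → ‖D x - lv lam x * x‖ < ‖x‖

theorem LD.le [IsUltrametricDist L] {k : Type} [Field k] [Algebra k L] {D : Derivation k L L}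
    (hQ : RQ L) (h : LD lam D) (x : L) : ‖D x‖ ≤ ‖x‖ := by
  by_cases h0 : x = 0
  · rw [h0, map_zero]
  · have h2 : ‖lv lam x * x‖ ≤ ‖x‖ := by
      rw [norm_mul]
      exact mul_le_of_le_one_left (norm_nonneg _) (hQ.norm_lv _)
    have h3 := IsUltrametricDist.norm_add_le_max (D x - lv lam x * x) (lv lam x * x)
    rw [sub_add_cancel] at h3
    exact h3.trans (max_le (h x h0).le h2)

theorem LD.ker [CharZero L] {k : Type} [Field k] [Algebra k L]
    {D : (ℝ →ₗ[ℚ] ℚ) → Derivation k L L} (hQ : RQ L) (h : ∀ lam, LD lam (D lam)) {x : L}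
    (hx : ∀ lam, D lam x = 0) : ‖x‖ ≤ 1 := by
  by_cases h0 : x = 0
  · rw [h0, norm_zero]
    exact zero_le_one
  · refine (eq_one_of_lv hQ h0 fun lam => ?_).le
    have := h lam x h0
    rw [hx, zero_sub, norm_neg, norm_mul] at this
    exact (mul_lt_iff_lt_one_left (norm_pos_iff.2 h0)).1 this

end Pool.Agent.Work.MP_e120ef_ag.H.CS
end

-- merged part: Pool.Agent.Work.MP_e120ef_ag.C.GDD
section
/-!
# The derivation on the field of the Gauss point

Plans.  `exists_GD'`: copy `Gauss_compl` and `exists_GD` (`H/Gauss.lean`), keeping `Completion.denseRange_coe`.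
`ext_add`: the closure of the graph `{(τ x, d x)}` in `L × L` is an additive subgroup on which `‖b‖ ≤ ‖a‖`, and its first projection is onto (Cauchy sequences); or extend from `τ.range` (`IsUniformInducing`, `uniformly_extend_spec`, `DenseRange.induction_on₂`).
`ext_der`: `ext_add`; Leibniz and `k`-linearity by density (`DenseRange.induction_on₂`, `isClosed_eq`); `d₁ (algebraMap c) = 0` as `algebraMap c = τ (algebraMap c)`.
`lp_T`: let `F ≠ 0`, `r = gN F`, `c = lam (log r)`.  Every coefficient of `DT F - c • F` has norm `< r` (if `‖coeff I F‖ = r` by `LD`, `lv_congr`; otherwise `LD.le`, `RQ`), and the supremum is attained (`GN_attain`); `Γ.norm_τ`.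
`lp_F`: `FT_rep`, `LP.of_mul` (Leibniz for `imT b * x = imT a`).  `exists_D₁`: `ext_der` (bound from `LP.le`), then `LP.near` for `x ≠ 0` with `τ y` such that `‖x - τ y‖ < ‖x‖`.
-/

open Filter Topology

namespace Pool.Agent.Work.MP_e120ef_ag.H.CS

theorem ext_add {A L : Type} [AddCommGroup A] [NormedAddCommGroup L] [CompleteSpace L]
    (τ d : A →+ L) (hτ : DenseRange τ) (h : ∀ x, ‖d x‖ ≤ ‖τ x‖) :
    ∃ d₁ : L →+ L, (∀ x, d₁ (τ x) = d x) ∧ ∀ y, ‖d₁ y‖ ≤ ‖y‖ := by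
  let : SeminormedAddCommGroup A := SeminormedAddCommGroup.induced A L τ
  have hn : ∀ x : A, ‖x‖ = ‖τ x‖ := fun _ => rfl
  have hi : IsUniformInducing τ :=
    (AddMonoidHomClass.isometry_of_norm τ fun x => (hn x).symm).isUniformInducing
  have hd : UniformContinuous d :=
    (AddMonoidHomClass.lipschitz_of_bound d 1 fun x => by
      rw [one_mul, hn]; exact h x).uniformContinuous
  have hc : Continuous ((hi.isDenseInducing hτ).extend d) :=
    (uniformContinuous_uniformly_extend hi hτ hd).continuous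
  have he : ∀ x, (hi.isDenseInducing hτ).extend d (τ x) = d x :=
    uniformly_extend_of_ind hi hτ hd
  generalize (hi.isDenseInducing hτ).extend d = g at hc he
  refine ⟨AddMonoidHom.mk' g fun x y => ?_, he, fun y => ?_⟩
  · refine hτ.induction_on₂ (p := fun x y => g (x + y) = g x + g y) ?_ (fun a b => ?_) x y
    · apply isClosed_eq <;> fun_prop
    · rw [← map_add, he, he, he, map_add]
  · refine hτ.induction_on (p := fun y => ‖g y‖ ≤ ‖y‖) y ?_ fun a => ?_
    · apply isClosed_le <;> fun_prop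
    · rw [he]; exact h a

theorem ext_der {k A L : Type} [Field k] [CommRing A] [NormedField L] [CompleteSpace L]
    [Algebra k A] [Algebra k L] (τ : A →ₐ[k] L) (hτ : DenseRange τ) (d : Derivation k A A)
    (h : ∀ x, ‖τ (d x)‖ ≤ ‖τ x‖) :
    ∃ d₁ : Derivation k L L, (∀ x, d₁ (τ x) = τ (d x)) ∧ ∀ y, ‖d₁ y‖ ≤ ‖y‖ := by
  obtain ⟨g, he, hg⟩ := ext_add (τ.toLinearMap.toAddMonoidHom)
    ((τ.toLinearMap.comp d.toLinearMap).toAddMonoidHom) hτ h
  replace he : ∀ x, g (τ x) = τ (d x) := he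
  have hc : Continuous g := AddMonoidHomClass.continuous_of_bound g 1 fun x => by
    rw [one_mul]; exact hg x
  have hl : ∀ x y, g (x * y) = x * g y + y * g x := fun x y => by
    refine hτ.induction_on₂ (p := fun x y => g (x * y) = x * g y + y * g x) ?_ (fun a b => ?_) x y
    · apply isClosed_eq <;> fun_prop
    · rw [← map_mul, he, he, he, d.leibniz, smul_eq_mul, smul_eq_mul, map_add, map_mul, map_mul]
  refine ⟨Derivation.mk'
    { toFun := g
      map_add' := g.map_add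
      map_smul' := fun c x => ?_ } hl, he, hg⟩
  have h0 : g (algebraMap k L c) = 0 := by
    rw [← τ.commutes, he, d.map_algebraMap, map_zero]
  rw [RingHom.id_apply, Algebra.smul_def, Algebra.smul_def, hl, h0, mul_zero, add_zero]

open UniformSpace in
theorem GDD_compl (K F : Type) [NontriviallyNormedField K] [NormedField F] [IsUltrametricDist F]
    [NormedAlgebra K F] : ∃ (K₁ : Type) (_ : NontriviallyNormedField K₁) (_ : IsUltrametricDist K₁)
    (_ : CompleteSpace K₁) (_ : NormedAlgebra K K₁) (τ : F →ₐ[K] K₁), (∀ x, ‖τ x‖ = ‖x‖) ∧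
    DenseRange τ := by
  have hnt : ∃ x : Completion F, 1 < ‖x‖ := by
    obtain ⟨c, hc⟩ := NormedField.exists_one_lt_norm K
    exact ⟨algebraMap K _ c, by rwa [norm_algebraMap']⟩
  have hu : IsUltrametricDist (Completion F) := by
    refine IsUltrametricDist.isUltrametricDist_of_forall_norm_add_le_max_norm fun x y => ?_
    induction x, y using Completion.induction_on₂ with
    | hp => apply isClosed_le <;> fun_prop
    | ih x y =>
      simpa only [← Completion.coe_add, Completion.norm_coe] using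
        IsUltrametricDist.norm_add_le_max x y
  exact ⟨Completion F, { (inferInstance : NormedField (Completion F)) with non_trivial := hnt }, hu,
    inferInstance, (inferInstance : NormedAlgebra K (Completion F)),
    { Completion.coeRingHom with commutes' := fun c => rfl }, fun x => Completion.norm_coe x,
    Completion.denseRange_coe⟩

theorem exists_GD' (K : Type) [NontriviallyNormedField K] [IsUltrametricDist K] (n : ℕ) :
    ∃ (K₁ : Type) (_ : NontriviallyNormedField K₁) (_ : IsUltrametricDist K₁)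
      (_ : CompleteSpace K₁) (_ : NormedAlgebra K K₁) (Γ : GD K n K₁), DenseRange Γ.τ := by
  obtain ⟨v, hv, hu⟩ := Gauss_abs (FT K n) (gN (K := K) (n := n)) gN_nonneg
    (fun _ => gN_eq_zero) gN_add gN_mul
  have hD : ∀ l x, v (pdF K l x) ≤ v x := fun l =>
    Gauss_der (R := T K n) v hu _ fun a => by
      rw [pdF_im, hv, hv]
      exact gN_pdT l a
  let : NormedField (FT K n) := v.toNormedField
  have : IsUltrametricDist (FT K n) :=
    IsUltrametricDist.isUltrametricDist_of_forall_norm_add_le_max_norm hu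
  let : NormedAlgebra K (FT K n) :=
    { norm_smul_le := fun c x => by
        change v (c • x) ≤ ‖c‖ * v x
        rw [Algebra.smul_def, map_mul, IsScalarTower.algebraMap_apply K (T K n), hv, gN_alg] }
  obtain ⟨K₁, i1, i2, i3, i4, τ, h1, h2⟩ := GDD_compl K (FT K n)
  choose d hd hd' using fun l => ext_der τ h2 (pdF K l) fun x => by
    rw [h1, h1]
    exact hD l x
  exact ⟨K₁, i1, i2, i3, i4, ⟨τ, fun F => (h1 _).trans (hv F), d, hd, hd'⟩, h2⟩

variable {k K : Type} [Field k] [NontriviallyNormedField K] [IsUltrametricDist K] [CharZero K]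
  [Algebra k K] {n : ℕ} {K₁ : Type} [NontriviallyNormedField K₁] [IsUltrametricDist K₁]
  [NormedAlgebra K K₁] (Γ : GD K n K₁) {lam : ℝ →ₗ[ℚ] ℚ} {D : Derivation k K K} (hQ : RQ K)
  (hP : LD lam D) (hD : ∀ x, ‖D x‖ ≤ ‖x‖)
include hQ hP

theorem lp_T (F : T K n) : LP lam (TrivSqZeroExt.inl (Γ.τ (imT F)) +
    TrivSqZeroExt.inr (Γ.τ (imT (DT hD F))) : DualNumber K₁) := by
  by_cases hF : F = 0
  · subst hF
    exact Or.inl (by simp [imT])
  have hr : 0 < gN F := (gN_nonneg F).lt_of_ne' fun e => hF (gN_eq_zero.1 e)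
  let c : K := ((lam (Real.log (gN F)) : ℚ) : K)
  have hc : lv lam (Γ.τ (imT F)) = algebraMap K K₁ c := by
    rw [lv, Γ.norm_τ, map_ratCast]
  refine Or.inr ?_
  simp only [TrivSqZeroExt.snd_add, TrivSqZeroExt.fst_add, TrivSqZeroExt.snd_inl,
    TrivSqZeroExt.snd_inr, TrivSqZeroExt.fst_inl, TrivSqZeroExt.fst_inr, zero_add, add_zero]
  have e : Γ.τ (imT (DT hD F)) - algebraMap K K₁ c * Γ.τ (imT F) =
      Γ.τ (imT (DT hD F - algebraMap K (T K n) c * F)) := by
    rw [← Γ.t_apply, ← Γ.t_apply, ← Γ.t_apply, map_sub, map_mul, AlgHom.commutes]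
  rw [hc, e, Γ.norm_τ, Γ.norm_τ]
  obtain ⟨I, hI⟩ := GN_attain (DT hD F - algebraMap K (T K n) c * F)
  have e2 : MvPowerSeries.coeff I (DT hD F - algebraMap K (T K n) c * F).1 =
      D (MvPowerSeries.coeff I F.1) - c * MvPowerSeries.coeff I F.1 := by
    change MvPowerSeries.coeff I (cD D F.1 - MvPowerSeries.C c * F.1) = _
    rw [map_sub, coeff_cD, MvPowerSeries.coeff_C_mul]
  rw [← hI, e2]
  rcases (le_gN F I).eq_or_lt with h | h
  · have h0 : MvPowerSeries.coeff I F.1 ≠ 0 := norm_pos_iff.1 (h ▸ hr)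
    have h1 := hP _ h0
    rwa [lv, h] at h1
  · rw [sub_eq_add_neg]
    refine (IsUltrametricDist.norm_add_le_max _ _).trans_lt (max_lt ((hD _).trans_lt h) ?_)
    rw [norm_neg, norm_mul]
    exact (mul_le_of_le_one_left (norm_nonneg _) (hQ _)).trans_lt h

theorem lp_F (x : FT K n) : LP lam (TrivSqZeroExt.inl (Γ.τ x) +
    TrivSqZeroExt.inr (Γ.τ (DF (n := n) hD x)) : DualNumber K₁) := by
  have : CharZero K₁ := charZero_of_injective_algebraMap (algebraMap K K₁).injective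
  have hQ₁ : RQ K₁ := hQ.map (algebraMap K K₁) (norm_algebraMap' K₁)
  obtain ⟨a, b, hb, hx⟩ := FT_rep x
  have hb' : imT b ≠ 0 := fun e => hb (imT_inj (e.trans (map_zero _).symm))
  have e : x * imT b = imT a := by rw [hx, div_mul_cancel₀ _ hb']
  have e' : x * imT (DT hD b) + imT b * DF (n := n) hD x = imT (DT hD a) := by
    rw [← DF_im, ← DF_im, ← e, (DF (n := n) hD).leibniz, smul_eq_mul, smul_eq_mul]
  refine LP.of_mul hQ₁ ?_ (lp_T Γ hQ hP hD b) ?_
  · convert lp_T Γ hQ hP hD a using 1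
    refine TrivSqZeroExt.ext ?_ ?_
    · simp [← e]
    · simp [← e', mul_comm, add_comm]
  · rw [TrivSqZeroExt.fst_add, TrivSqZeroExt.fst_inl, TrivSqZeroExt.fst_inr, add_zero]
    exact (_root_.map_ne_zero Γ.τ).2 hb'

theorem exists_D₁ [CompleteSpace K₁] [Algebra k K₁] [IsScalarTower k K K₁] (hΓ : DenseRange Γ.τ) :
    ∃ D₁ : Derivation k K₁ K₁, (∀ x, D₁ (Γ.τ x) = Γ.τ (DF (n := n) hD x)) ∧ LD lam D₁ := by
  have : CharZero K₁ := charZero_of_injective_algebraMap (algebraMap K K₁).injective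
  have hQ₁ : RQ K₁ := hQ.map (algebraMap K K₁) (norm_algebraMap' K₁)
  obtain ⟨D₁, he, hle⟩ := ext_der (Γ.τ.restrictScalars k) hΓ (DF (n := n) hD) fun x => by
    simpa using LP.le hQ₁ (lp_F Γ hQ hP hD x)
  replace he : ∀ x, D₁ (Γ.τ x) = Γ.τ (DF (n := n) hD x) := he
  refine ⟨D₁, he, fun x hx => ?_⟩
  obtain ⟨y, hy⟩ := hΓ.exists_dist_lt x (norm_pos_iff.2 hx)
  rw [dist_eq_norm] at hy
  have h := LP.near (a := TrivSqZeroExt.inl x + TrivSqZeroExt.inr (D₁ x)) hQ₁
    (lp_F Γ hQ hP hD y) (by simpa using hy) (by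
      have := (hle (x - Γ.τ y)).trans_lt hy
      rw [map_sub, he] at this
      simpa using this)
  simpa using h.lt (by simpa using hx)

end Pool.Agent.Work.MP_e120ef_ag.H.CS
end

-- merged part: Pool.Agent.Work.MP_e120ef_ag.C.Zer
section
/-!
# A function which is not small takes infinitely many integer values on a bounded annulus

Plans.  `nr_sub_nat`: if `nr w y > 1` then `nr w (y - n) = nr w y` for all `n`; otherwise `nr w (y - n) ≤ 1`, and `nr w (y - n) < 1`, `nr w (y - n') < 1` force `‖n - n'‖ < 1`, so `n = n'` (`RQ.norm_rat`); `Set.Subsingleton.finite`.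
`val_unique`: the difference `algebraMap (c' - c)` is a nonunit (`regV_nonunits`, `ord_alg`).
`T_bdd`: `N.jensen u _ (Pt1.one ..)` has one integer for all `w`; the points of the annulus `[1, R]` with `ord z u ≠ 0` form a finite set (`N.fin`), `wp one w z ≤ log ‖w‖` (`NevE_wp`), and `wp one w z ≠ 0` forces `1 ≤ ‖z‖ ≤ ‖w‖` (`Jen_wt_ne`).
`T_le`: for `‖w₁‖ < ‖z‖` one has `wp one w z = wp w₁ w z` (unfold `wt`); the finitely many poles in `[1, w₁]` contribute at most `C * log ‖w‖`.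
`many_val`: fix `w₁`, `w₂` with `1 < ‖w₁‖ < ‖w₂‖` (`NormedField.exists_lt_norm`), suppose all the sets finite, put `A w = posLog (nr w y) + ∑ᶠ z, max (-ord z y) 0 * wp w₁ w z`.  For `‖w₂‖ ≤ ‖w‖` choose `n` outside the exceptional sets of `nr_sub_nat` for `w₁`, `w₂`, `w` and not a value on `[w₁, w]` (`val_unique`, `Set.Finite.exists_notMem`).
Then `y - n ≠ 0` (else `sm_alg`), and `ord z (y - n) = -max (-ord z y) 0` on `[w₁, w]` (`ord_add`, `ord_alg`, `regV`); Jensen for `y - n` at the base `w₁` gives `A w = A₁ + m log (‖w‖ / ‖w₁‖)`, `A w₂ = A₁ + m log (‖w₂‖ / ‖w₁‖)`, `A₁ = posLog (nr w₁ y)`; so `m` does not depend on `w`.  Conclude with `T_le`, `T_bdd`.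
-/

namespace Pool.Agent.Work.MP_e120ef_ag.H.CS

variable {K M : Type} [NontriviallyNormedField K] [Field M] [Algebra K M]

theorem val_unique {P : Rad} (N : Nev K P M) {z : Pt1 K P} {y : M} {c c' : K} (h : N.Val z y c)
    (h' : N.Val z y c') : c = c' := by
  have h1 := (N.regV z).nonunits.sub_mem h h'
  rw [sub_sub_sub_cancel_left, ← map_sub, N.regV_nonunits, N.ord_alg, map_eq_zero, sub_eq_zero] at h1
  exact (h1.resolve_right (lt_irrefl _)).symm

theorem nr_sub_nat [CharZero K] (hQ : RQ K) {P : Rad} (N : Nev K P M) (y : M) (w : Pt1 K P) :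
    {n : ℕ | Real.log (N.nr w (y - algebraMap K M n)) ≠ Real.posLog (N.nr w y)}.Finite := by
  have h1 : ∀ n : ℕ, N.nr w (algebraMap K M n) ≤ 1 := fun n => by
    rw [N.nr_alg]
    exact_mod_cast hQ n
  rcases lt_or_ge 1 (N.nr w y) with h | h
  · refine Set.finite_empty.subset fun n hn => hn ?_
    have h2 := NevA_nr_sub N w y (algebraMap K M n)
    have h3 := N.nr_add w (y - algebraMap K M n) (algebraMap K M n)
    rw [sub_add_cancel, le_max_iff] at h3
    rw [max_eq_left ((h1 n).trans h.le)] at h2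
    rw [le_antisymm h2 (h3.resolve_right ((h1 n).trans_lt h).not_ge),
      Real.posLog_eq_log (h.le.trans (le_abs_self _))]
  · rw [(Real.posLog_eq_zero_iff _).2 (by rwa [abs_of_nonneg (N.nr_nonneg w y)])]
    have h2 : ∀ n : ℕ, Real.log (N.nr w (y - algebraMap K M n)) ≠ 0 →
        N.nr w (y - algebraMap K M n) < 1 := fun n hn =>
      ((NevA_nr_sub N w y _).trans (max_le h (h1 n))).lt_of_ne fun e => hn (by rw [e, Real.log_one])
    refine Set.Subsingleton.finite fun n hn n' hn' => by_contra fun e => ?_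
    have h3 := (NevA_nr_sub N w _ _).trans_lt (max_lt (h2 n hn) (h2 n' hn'))
    have h4 := hQ.norm_rat (r := n' - n) (sub_ne_zero.2 fun k => e (Nat.cast_injective k).symm)
    rw [sub_sub_sub_cancel_left, ← map_sub, N.nr_alg] at h3
    push_cast at h4
    exact h3.ne h4

theorem Zer_ord {P : Rad} (N : Nev K P M) {z : Pt1 K P} {y : M} {c : K} (h : ¬ N.Val z y c) :
    N.ord z (y - algebraMap K M c) = -max (-N.ord z y) 0 := by
  rw [Nev.Val, N.regV_nonunits, not_or, not_lt] at h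
  rcases le_or_gt 0 (N.ord z y) with k | k
  · have := N.mem_regV.1 (sub_mem (N.mem_regV.2 k) (N.regV_alg z c))
    omega
  by_cases c0 : algebraMap K M c = 0
  · rw [c0, sub_zero]
    omega
  have y0 : y ≠ 0 := fun e => by
    rw [e, N.ord_zero] at k
    exact k.false
  have h1 := N.ord_add z _ _ h.1 c0 (by rwa [sub_add_cancel])
  have h2 := N.ord_add z y (-algebraMap K M c) y0 (neg_ne_zero.2 c0)
    (by rw [← sub_eq_add_neg]; exact h.1)
  rw [sub_add_cancel, N.ord_alg] at h1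
  rw [← sub_eq_add_neg, NevA_ord_neg, N.ord_alg] at h2
  omega

variable (N : Nev K Rad.out M)

theorem Zer_sum (u : M) (R : Pt1 K Rad.out) (φ : ℤ → ℝ) (hφ : φ 0 = 0) : ∃ C, 0 ≤ C ∧
    ∀ (ω : Pt1 K Rad.out → ℝ) (L : ℝ), (∀ z, |ω z| ≤ L) → (∀ z, ω z ≠ 0 → ‖z.v‖ ≤ ‖R.v‖) →
      ∑ᶠ z, φ (N.ord z u) * ω z ≤ C * L := by
  refine ⟨∑ z ∈ (N.fin u (Pt1.one K _) R).toFinset, |φ (N.ord z u)|,
    Finset.sum_nonneg fun _ _ => abs_nonneg _, fun ω L h1 h2 => ?_⟩
  rw [finsum_eq_sum_of_support_subset (s := (N.fin u (Pt1.one K _) R).toFinset), Finset.sum_mul]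
  · refine Finset.sum_le_sum fun z _ => (le_abs_self _).trans ?_
    rw [abs_mul]
    exact mul_le_mul_of_nonneg_left (h1 z) (abs_nonneg _)
  · intro z hz
    refine (Set.Finite.mem_toFinset _).2 ⟨?_, h2 z (right_ne_zero_of_mul hz),
      fun e => left_ne_zero_of_mul hz (by rw [e, hφ])⟩
    rw [show (Pt1.one K Rad.out).v = 1 from rfl, norm_one]
    exact z.2

theorem T_bdd (u : M) (R : Pt1 K Rad.out) : ∃ C, ∀ w : Pt1 K Rad.out, ‖w.v‖ ≤ ‖R.v‖ → N.T u w ≤ C := by
  obtain ⟨C1, -, h1⟩ := Zer_sum N u R (fun n => ((max (-n) 0 : ℤ) : ℝ)) (by simp)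
  obtain ⟨C2, -, h2⟩ := Zer_sum N u R (fun n => (n : ℝ)) (by simp)
  have k1 : ∀ w : Pt1 K Rad.out, ‖w.v‖ ≤ ‖R.v‖ → Real.log ‖w.v‖ ≤ Real.log ‖R.v‖ := fun w hw =>
    Real.log_le_log (norm_pos_iff.2 w.1.ne_zero) hw
  have k2 : ∀ w : Pt1 K Rad.out, ‖w.v‖ ≤ ‖R.v‖ → ∀ z, |wp (Pt1.one K _) w z| ≤ Real.log ‖R.v‖ :=
    fun w hw z => (abs_of_nonneg (wt_nonneg _ _ _)).trans_le ((NevE_wp w.2 z).trans (k1 w hw))
  have k3 : ∀ w : Pt1 K Rad.out, ‖w.v‖ ≤ ‖R.v‖ → ∀ z, wp (Pt1.one K _) w z ≠ 0 →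
      ‖z.v‖ ≤ ‖R.v‖ := fun w hw z hz => (Jen_wt_ne hz).elim (fun h => h.2.trans hw) fun h =>
    h.2.trans (by
      rw [Pt1.one_val, Units.val_one, norm_one]
      exact R.2)
  suffices h : ∃ C, ∀ w : Pt1 K Rad.out, ‖w.v‖ ≤ ‖R.v‖ → Real.log (N.nr w u) ≤ C by
    obtain ⟨C, hC⟩ := h
    exact ⟨max 0 C + C1 * Real.log ‖R.v‖, fun w hw =>
      add_le_add (max_le_max le_rfl (hC w hw)) (h1 _ _ (k2 w hw) (k3 w hw))⟩
  by_cases hu : u = 0
  · exact ⟨0, fun w _ => by rw [(N.nr_eq_zero w u).2 hu, Real.log_zero]⟩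
  obtain ⟨n, hn⟩ := N.jensen u hu (Pt1.one K _)
  refine ⟨Real.log (N.nr (Pt1.one K _) u) + |(n : ℝ)| * Real.log ‖R.v‖ + C2 * Real.log ‖R.v‖,
    fun w hw => ?_⟩
  rw [hn w, show (Pt1.one K Rad.out).v = 1 from rfl, norm_one, div_one]
  exact add_le_add (add_le_add le_rfl (mul_le_mul (le_abs_self _) (k1 w hw) (Real.log_nonneg w.2)
    (abs_nonneg _))) (h2 _ _ (k2 w hw) (k3 w hw))

theorem T_le (u : M) (w₁ : Pt1 K Rad.out) : ∃ C, ∀ w : Pt1 K Rad.out, ‖w₁.v‖ ≤ ‖w.v‖ →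
    N.T u w ≤ Real.posLog (N.nr w u) + ∑ᶠ z, ((max (-N.ord z u) 0 : ℤ) : ℝ) * wp w₁ w z +
      C * Real.log ‖w.v‖ := by
  obtain ⟨C, -, h1⟩ := Zer_sum N u w₁ (fun n => ((max (-n) 0 : ℤ) : ℝ)) (by simp)
  refine ⟨C, fun w hw => ?_⟩
  have k1 : ∀ z : Pt1 K Rad.out, ‖w₁.v‖ < ‖z.v‖ → wp (Pt1.one K _) w z - wp w₁ w z = 0 := by
    intro z hz
    rw [wp, wp, wt, wt, if_pos hz, if_pos, sub_self]
    rw [Pt1.one_val, Units.val_one, norm_one]
    exact lt_of_le_of_lt w₁.2 hz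
  have h2 := h1 (fun z => wp (Pt1.one K _) w z - wp w₁ w z) (Real.log ‖w.v‖) (fun z => by
    rcases lt_or_ge ‖w₁.v‖ ‖z.v‖ with k | k
    · rw [k1 z k, abs_zero]
      exact Real.log_nonneg w.2
    · have : wp w₁ w z = 0 := by
        rw [wp, wt, if_neg k.not_gt, Real.posLog_eq_zero_iff, abs_of_nonneg (by positivity),
          div_le_one (norm_pos_iff.2 w.1.ne_zero)]
        exact k.trans hw
      rw [this, sub_zero, abs_of_nonneg (wt_nonneg _ _ _)]
      exact NevE_wp w.2 z) fun z hz => not_lt.1 fun k => hz (k1 z k)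
  simp only [mul_sub] at h2
  rw [finsum_sub_distrib (NevT_fin' N u w)
    (NevT_fin N u w₁ w (fun n => ((max (-n) 0 : ℤ) : ℝ)) (by simp))] at h2
  rw [Nev.T]
  linarith

theorem many_val [CharZero K] (hQ : RQ K) {y : M} (hy : ¬ N.Sm y) :
    ∃ w₁ w₃ : Pt1 K Rad.out, 1 < ‖w₁.v‖ ∧ {z : Pt1 K Rad.out | ‖w₁.v‖ ≤ ‖z.v‖ ∧ ‖z.v‖ ≤ ‖w₃.v‖ ∧
      ∃ n : ℕ, N.Val z y n}.Infinite := by
  by_contra hc
  have hf : ∀ w₁ w₃ : Pt1 K Rad.out, 1 < ‖w₁.v‖ →
      {n : ℕ | ∃ z : Pt1 K Rad.out, ‖w₁.v‖ ≤ ‖z.v‖ ∧ ‖z.v‖ ≤ ‖w₃.v‖ ∧ N.Val z y n}.Finite := by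
    intro w₁ w₃ h
    refine ((Set.not_infinite.1 fun k => hc ⟨w₁, w₃, h, k⟩).biUnion
      (t := fun z => {n : ℕ | N.Val z y n}) fun z _ => Set.Subsingleton.finite fun n hn n' hn' =>
        Nat.cast_injective (val_unique N hn hn')).subset ?_
    rintro n ⟨z, h1, h2, h3⟩
    exact Set.mem_biUnion ⟨h1, h2, n, h3⟩ h3
  have ex : ∀ r : ℝ, 1 ≤ r → ∃ w : Pt1 K Rad.out, r < ‖w.v‖ := fun r hr => by
    obtain ⟨x, hx⟩ := NormedField.exists_lt_norm K r
    exact ⟨⟨Units.mk0 x (norm_pos_iff.1 (by linarith)), hr.trans hx.le⟩, hx⟩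
  obtain ⟨w₁, h1⟩ := ex 1 le_rfl
  obtain ⟨w₂, h2⟩ := ex _ h1.le
  obtain ⟨A, hA⟩ : ∃ A : Pt1 K Rad.out → ℝ, ∀ w, A w = Real.posLog (N.nr w y) +
      ∑ᶠ z, ((max (-N.ord z y) 0 : ℤ) : ℝ) * wp w₁ w z := ⟨_, fun _ => rfl⟩
  obtain ⟨a, ha⟩ : ∃ a, a = Real.posLog (N.nr w₁ y) := ⟨_, rfl⟩
  have p1 : 0 < ‖w₁.v‖ := by linarith
  have l0 : 0 < Real.log (‖w₂.v‖ / ‖w₁.v‖) := Real.log_pos ((one_lt_div p1).2 h2)
  have key : ∀ w : Pt1 K Rad.out, ‖w₂.v‖ ≤ ‖w.v‖ →
      A w = a + (A w₂ - a) / Real.log (‖w₂.v‖ / ‖w₁.v‖) * Real.log (‖w.v‖ / ‖w₁.v‖) := by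
    intro w hw
    obtain ⟨n, hn⟩ := ((hf w₁ w h1).union ((nr_sub_nat hQ N y w₁).union
      ((nr_sub_nat hQ N y w₂).union (nr_sub_nat hQ N y w)))).exists_notMem
    simp only [Set.mem_union, Set.mem_setOf_eq, not_or, ne_eq, not_not] at hn
    obtain ⟨n0, n1, n2, n3⟩ := hn
    obtain ⟨m, hm⟩ := N.jensen (y - algebraMap K M n)
      (fun e => hy (by rw [sub_eq_zero.1 e]; exact Nev.sm_alg _)) w₁
    have k : ∀ w' : Pt1 K Rad.out, ‖w₂.v‖ ≤ ‖w'.v‖ → ‖w'.v‖ ≤ ‖w.v‖ →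
        Real.log (N.nr w' (y - algebraMap K M n)) = Real.posLog (N.nr w' y) →
        A w' = a + m * Real.log (‖w'.v‖ / ‖w₁.v‖) := by
      intro w' k1 k2 k3
      have k4 : ∑ᶠ z, (N.ord z (y - algebraMap K M n) : ℝ) * wp w₁ w' z =
          -∑ᶠ z, ((max (-N.ord z y) 0 : ℤ) : ℝ) * wp w₁ w' z := by
        rw [← finsum_neg_distrib]
        refine finsum_congr fun z => ?_
        by_cases k5 : wp w₁ w' z = 0
        · rw [k5, mul_zero, mul_zero, neg_zero]
        rcases Jen_wt_ne k5 with k6 | k6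
        · rw [Zer_ord N fun k7 => n0 ⟨z, k6.1, k6.2.trans k2, k7⟩, Int.cast_neg, neg_mul]
        · exact absurd (k1.trans (k6.1.trans k6.2)) h2.not_ge
      have k5 := hm w'
      rw [k3, k4, n1, ← ha] at k5
      rw [hA]
      linarith
    rw [k w₂ le_rfl hw n2, add_sub_cancel_left, mul_div_cancel_right₀ _ l0.ne']
    exact k w hw le_rfl n3
  generalize (A w₂ - a) / Real.log (‖w₂.v‖ / ‖w₁.v‖) = μ at key
  obtain ⟨C, hC⟩ := T_le N y w₁
  obtain ⟨C', hC'⟩ := T_bdd N y w₂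
  refine hy ⟨|a| + |μ| + |C| + |C'|, fun w hw => ?_⟩
  have l1 := Real.log_nonneg hw
  have q1 := mul_nonneg (abs_nonneg a) l1
  have q2 := mul_nonneg (abs_nonneg μ) l1
  have q3 := mul_nonneg (abs_nonneg C) l1
  have q4 := mul_nonneg (abs_nonneg C') l1
  have q5 := abs_nonneg a
  have q6 := abs_nonneg μ
  have q7 := abs_nonneg C
  have q8 := abs_nonneg C'
  rcases le_total ‖w.v‖ ‖w₂.v‖ with k | k
  · linarith [hC' w k, le_abs_self C']
  · have r1 := hC w (h2.le.trans k)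
    have r2 := mul_le_mul (le_abs_self μ)
      (Real.log_le_log (by positivity) (div_le_self (norm_nonneg w.v) h1.le))
      (Real.log_nonneg ((one_le_div p1).2 (h2.le.trans k))) q6
    have r3 := mul_le_mul_of_nonneg_right (le_abs_self C) l1
    rw [← hA, key w k] at r1
    linarith [le_abs_self a]

end Pool.Agent.Work.MP_e120ef_ag.H.CS
end

-- merged part: Pool.Agent.Work.MP_e120ef_ag.C.Mx
section
/-!
# A maximal subfield with a derivation of logarithmic type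

Plans.  `exists_mx`: Zorn (`zorn_le_nonempty₀`, `Subring.mem_sSup_of_directedOn`) on the subrings `S ≥ S₀` of `DualNumber K` all of whose elements satisfy `LP`; let `S` be maximal.  `fst` is injective on `S` (`LP.eq_zero`).
Inverses: `{a | ∃ b ∈ S, b.fst ≠ 0 ∧ a * b ∈ S}` is a subring containing `S` whose elements satisfy `LP` (`LP.of_mul`), so it equals `S`; for `b ∈ S`, `b.fst ≠ 0` the dual number `inl x⁻¹ + inr (-(x⁻¹ ^ 2 * b.snd))` times `b` is one.
Closure: `{a | ∀ η > 0, ∃ b ∈ S, ‖a.fst - b.fst‖ < η ∧ ‖a.snd - b.snd‖ < η}` (or `Subring.topologicalClosure`) is a subring; its elements satisfy `LP` (`LP.near` if `a.fst ≠ 0`, `LP.le` in the limit otherwise), so it equals `S`.  If `fst (b n) → x` then `snd (b n)` is Cauchy by `LP.le` applied to `b n - b m`.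
`F` is the image of `S` under `fst`, `σ` the inverse of the bijection `S → F`.  `adj`: the range of `Polynomial.eval₂RingHom σ y` contains `S`.
`Mx.orth`: write `q.eval₂ σ y = ∑ i ∈ range (natDegree + 1), σ (coeff i) * y ^ i`, use `LP.sum`, `LP.mul`, `LP.pow`, and `fst` of the sum is `aeval y.fst q` (`Mx.fst_eval`).
`Mx.mem_of_root`: `q.eval₂ σ y = (q %ₘ p).eval₂ σ y` (`Polynomial.eval₂_modByMonic_eq_self_of_root`, `degree_modByMonic_lt`).
`init`: the range of `MvPolynomial.aeval` (over `k`, variables indexed by `S`) at the dual numbers `inl t + inr (lv t * t)`; for a polynomial `Q` the terms `inl (coeff α) * ∏ (..) ^ α i`, `α ∈ Q.support`, satisfy `LP` (`LP.inl`, `LP.log`, `LP.mul`, `LP.pow`), and their first components have pairwise distinct norms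
(`log ‖∏ t ^ α t‖ = ∑ α t * log ‖t‖`, linear independence), so the norm of the sum is the largest one (`IsUltrametricDist.norm_sum_eq_sup'_of_pairwise_ne` or `nnnorm_sum_eq_sup_of_pairwise_ne`); elements of `S` are nonzero (`LinearIndependent.ne_zero`).
-/

open Polynomial

namespace Pool.Agent.Work.MP_e120ef_ag.H.CS

variable {K : Type} [NormedField K] (lam : ℝ →ₗ[ℚ] ℚ)

/-- a closed subfield with a derivation of logarithmic type which cannot be enlarged -/
structure Mx (K : Type) [NormedField K] where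
  F : Subfield K
  σ : F →+* DualNumber K
  fst : ∀ a, (σ a).fst = a
  lp : ∀ a, LP lam (σ a)
  closed : IsClosed (F : Set K)
  adj : ∀ y : DualNumber K, (∀ q : F[X], LP lam (q.eval₂ σ y)) → y.fst ∈ F

variable {lam} [IsUltrametricDist K] [CharZero K] (hQ : RQ K)

omit [IsUltrametricDist K] [CharZero K] in
theorem Mx_max (S₀ : Subring (DualNumber K)) (h : ∀ a ∈ S₀, LP lam a) :
    ∃ S : Subring (DualNumber K), S₀ ≤ S ∧ (∀ a ∈ S, LP lam a) ∧
      ∀ T : Subring (DualNumber K), (∀ a ∈ T, LP lam a) → S ≤ T → T ≤ S := by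
  obtain ⟨S, h1, h2⟩ := zorn_le_nonempty₀ {T : Subring (DualNumber K) | ∀ a ∈ T, LP lam a}
    (fun c hc hch y hy => ⟨sSup c, fun a ha => by
      obtain ⟨T, hT, haT⟩ := (Subring.mem_sSup_of_directedOn ⟨y, hy⟩ hch.directedOn).1 ha
      exact hc hT a haT, fun z hz => le_sSup hz⟩) S₀ h
  exact ⟨S, h1, h2.1, fun T hT hle => h2.2 hT hle⟩

include hQ in
theorem Mx_inv {S : Subring (DualNumber K)} (hS : ∀ a ∈ S, LP lam a)
    (hmax : ∀ T : Subring (DualNumber K), (∀ a ∈ T, LP lam a) → S ≤ T → T ≤ S) {b : DualNumber K}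
    (hb : b ∈ S) : ∃ a ∈ S, a.fst = b.fst⁻¹ := by
  by_cases h0 : b.fst = 0
  · exact ⟨b, hb, by rw [h0, inv_zero]⟩
  have h1 : (1 : DualNumber K).fst ≠ 0 := one_ne_zero
  let T : Subring (DualNumber K) :=
    { carrier := {a | ∃ b ∈ S, b.fst ≠ 0 ∧ a * b ∈ S}
      mul_mem' := by
        rintro a a' ⟨c, h1, h2, h3⟩ ⟨c', h1', h2', h3'⟩
        refine ⟨c * c', mul_mem h1 h1', mul_ne_zero h2 h2', ?_⟩
        rw [mul_mul_mul_comm]
        exact mul_mem h3 h3'
      one_mem' := ⟨1, S.one_mem, h1, mul_mem S.one_mem S.one_mem⟩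
      add_mem' := by
        rintro a a' ⟨c, h1, h2, h3⟩ ⟨c', h1', h2', h3'⟩
        refine ⟨c * c', mul_mem h1 h1', mul_ne_zero h2 h2', ?_⟩
        rw [show (a + a') * (c * c') = a * c * c' + a' * c' * c by ring]
        exact add_mem (mul_mem h3 h1') (mul_mem h3' h1)
      zero_mem' := ⟨1, S.one_mem, h1, mul_mem S.zero_mem S.one_mem⟩
      neg_mem' := by
        rintro a ⟨c, h1, h2, h3⟩
        exact ⟨c, h1, h2, by rw [neg_mul]; exact neg_mem h3⟩ }
  have hT : T ≤ S := hmax T (by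
    rintro a ⟨c, h1, h2, h3⟩
    exact LP.of_mul hQ (hS _ h3) (hS _ h1) h2) fun a ha => ⟨1, S.one_mem, h1, mul_mem ha S.one_mem⟩
  obtain ⟨a, ha⟩ := (TrivSqZeroExt.isUnit_iff_isUnit_fst.2 (Ne.isUnit h0)).exists_left_inv
  refine ⟨a, hT ⟨b, hb, h0, ha ▸ S.one_mem⟩, eq_inv_of_mul_eq_one_left ?_⟩
  rw [← TrivSqZeroExt.fst_mul, ha, TrivSqZeroExt.fst_one]

include hQ in
theorem Mx_closed [CompleteSpace K] {S : Subring (DualNumber K)} (hS : ∀ a ∈ S, LP lam a)
    (hmax : ∀ T : Subring (DualNumber K), (∀ a ∈ T, LP lam a) → S ≤ T → T ≤ S) :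
    IsClosed {x : K | ∃ a ∈ S, a.fst = x} := by
  have c1 : Continuous (TrivSqZeroExt.fst : DualNumber K → K) := TrivSqZeroExt.continuous_fst
  have c2 : Continuous (TrivSqZeroExt.snd : DualNumber K → K) := TrivSqZeroExt.continuous_snd
  have hT : S.topologicalClosure ≤ S := by
    refine hmax _ (fun a ha => ?_) S.le_topologicalClosure
    by_cases h0 : a.fst = 0
    · have h1 : ‖a.snd‖ ≤ ‖a.fst‖ := closure_minimal (t := {b : DualNumber K | ‖b.snd‖ ≤ ‖b.fst‖})
        (fun b hb => (hS b hb).le hQ) (isClosed_le c2.norm c1.norm) ha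
      rw [h0, norm_zero, norm_le_zero_iff] at h1
      exact Or.inl (TrivSqZeroExt.ext h0 h1)
    · obtain ⟨b, ⟨h1, h2⟩, hb⟩ := mem_closure_iff.1 ha
        ({b | ‖a.fst - b.fst‖ < ‖a.fst‖} ∩ {b | ‖a.snd - b.snd‖ < ‖a.fst‖})
        ((isOpen_lt (continuous_const.sub c1).norm continuous_const).inter
          (isOpen_lt (continuous_const.sub c2).norm continuous_const))
        ⟨by simpa using h0, by simpa using h0⟩
      exact (hS b hb).near hQ h1 h2
  refine IsSeqClosed.isClosed fun x p hx hp => ?_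
  choose b b1 b2 using hx
  have hc : CauchySeq fun n => (b n).snd := by
    refine Metric.cauchySeq_iff.2 fun ε hε => ?_
    obtain ⟨n0, h⟩ := Metric.cauchySeq_iff.1 hp.cauchySeq ε hε
    refine ⟨n0, fun m hm n hn => lt_of_le_of_lt ?_ (h m hm n hn)⟩
    rw [dist_eq_norm, dist_eq_norm, ← b2, ← b2]
    exact (hS _ (sub_mem (b1 m) (b1 n))).le hQ
  obtain ⟨y, hy⟩ := cauchySeq_tendsto_of_complete hc
  refine ⟨(p, y), hT (mem_closure_of_tendsto (f := b) (b := Filter.atTop) ?_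
    (Filter.Eventually.of_forall b1)), rfl⟩
  have hp' : Filter.Tendsto (fun n => (b n).fst) Filter.atTop (nhds p) := by
    simpa only [b2] using hp
  exact hp'.prodMk_nhds hy

include hQ in
theorem exists_mx [CompleteSpace K] (S₀ : Subring (DualNumber K)) (h : ∀ a ∈ S₀, LP lam a) :
    ∃ 𝓕 : Mx lam K, ∀ a ∈ S₀, ∃ h : a.fst ∈ 𝓕.F, 𝓕.σ ⟨a.fst, h⟩ = a := by
  obtain ⟨S, h0, hS, hmax⟩ := Mx_max S₀ h
  have inj : ∀ a ∈ S, ∀ b ∈ S, a.fst = b.fst → a = b := fun a ha b hb e =>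
    sub_eq_zero.1 ((hS _ (sub_mem ha hb)).eq_zero (by rw [TrivSqZeroExt.fst_sub, e, sub_self]))
  let F : Subfield K :=
    { S.map (TrivSqZeroExt.fstHom K K K).toRingHom with
      inv_mem' := by
        rintro _ ⟨b, hb, rfl⟩
        exact Mx_inv hQ hS hmax hb }
  have hF : ∀ x, x ∈ F ↔ ∃ a ∈ S, a.fst = x := fun _ => Iff.rfl
  choose g g1 g2 using fun x : F => (hF x).1 x.2
  let σ : F →+* DualNumber K :=
    { toFun := g
      map_one' := inj _ (g1 _) _ S.one_mem (g2 _)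
      map_zero' := inj _ (g1 _) _ S.zero_mem (g2 _)
      map_mul' := fun x y => inj _ (g1 _) _ (mul_mem (g1 x) (g1 y)) (by
        rw [TrivSqZeroExt.fst_mul, g2, g2, g2]
        rfl)
      map_add' := fun x y => inj _ (g1 _) _ (add_mem (g1 x) (g1 y)) (by
        rw [TrivSqZeroExt.fst_add, g2, g2, g2]
        rfl) }
  have hσ : ∀ a (ha : a ∈ S), σ ⟨a.fst, (hF _).2 ⟨a, ha, rfl⟩⟩ = a := fun a ha =>
    inj _ (g1 _) _ ha (g2 _)
  refine ⟨⟨F, σ, g2, fun a => hS _ (g1 a), Mx_closed hQ hS hmax, fun y hy => ?_⟩,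
    fun a ha => ⟨_, hσ a (h0 ha)⟩⟩
  refine (hF _).2 ⟨y, hmax (eval₂RingHom σ y).range ?_ 
    (fun a ha => ⟨C _, (eval₂_C σ y).trans (hσ a ha)⟩) ⟨X, eval₂_X _ _⟩, rfl⟩
  rintro _ ⟨q, rfl⟩
  exact hy q

omit [IsUltrametricDist K] [CharZero K] in
theorem Mx.fst_eval (𝓕 : Mx lam K) (q : 𝓕.F[X]) (y : DualNumber K) :
    (q.eval₂ 𝓕.σ y).fst = aeval y.fst q := by
  have e : (TrivSqZeroExt.fstHom K K K).toRingHom.comp 𝓕.σ = algebraMap 𝓕.F K :=
    RingHom.ext 𝓕.fst
  rw [aeval_def, ← e]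
  exact hom_eval₂ q 𝓕.σ (TrivSqZeroExt.fstHom K K K).toRingHom y

include hQ

theorem Mx.orth (𝓕 : Mx lam K) {y : DualNumber K} (hy : LP lam y) {q : 𝓕.F[X]}
    (h : ∀ i, ‖(q.coeff i : K) * y.fst ^ i‖ ≤ ‖aeval y.fst q‖) : LP lam (q.eval₂ 𝓕.σ y) := by
  rw [← 𝓕.fst_eval] at h
  rw [eval₂_eq_sum_range] at h ⊢
  refine LP.sum hQ _ _ (fun i _ => (𝓕.lp _).mul hQ (hy.pow hQ i)) fun i _ => ?_
  rw [TrivSqZeroExt.fst_mul, TrivSqZeroExt.fst_pow, 𝓕.fst]
  exact h i

theorem Mx.mem_of_orth (𝓕 : Mx lam K) {y : DualNumber K} (hy : LP lam y)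
    (h : ∀ (q : 𝓕.F[X]) i, ‖(q.coeff i : K) * y.fst ^ i‖ ≤ ‖aeval y.fst q‖) : y.fst ∈ 𝓕.F :=
  𝓕.adj y fun q => 𝓕.orth hQ hy (h q)

theorem Mx.mem_of_root (𝓕 : Mx lam K) {y : DualNumber K} (hy : LP lam y) {p : 𝓕.F[X]}
    (hp : p.Monic) (h0 : p.eval₂ 𝓕.σ y = 0)
    (h : ∀ q : 𝓕.F[X], q.degree < p.degree → ∀ i,
      ‖(q.coeff i : K) * y.fst ^ i‖ ≤ ‖aeval y.fst q‖) : y.fst ∈ 𝓕.F := by
  refine 𝓕.adj y fun q => ?_
  rw [← eval₂_modByMonic_eq_self_of_root h0]
  exact 𝓕.orth hQ hy (h _ (degree_modByMonic_lt _ hp))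

omit hQ [IsUltrametricDist K] [CharZero K] in
theorem Mx_ne {S : Set K} (hS : LinearIndependent ℚ fun t : S => Real.log ‖(t : K)‖) (t : S) :
    (t : K) ≠ 0 := fun h => hS.ne_zero t (by rw [h, norm_zero, Real.log_zero])

omit hQ [IsUltrametricDist K] [CharZero K] in
theorem Mx_mon {S : Set K} (hS : LinearIndependent ℚ fun t : S => Real.log ‖(t : K)‖)
    {d d' : S →₀ ℕ} (h : ‖∏ t ∈ d.support, (t : K) ^ d t‖ = ‖∏ t ∈ d'.support, (t : K) ^ d' t‖) :
    d = d' := by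
  have e : ∀ d : S →₀ ℕ, Finsupp.linearCombination ℚ (fun t : S => Real.log ‖(t : K)‖)
      (d.mapRange Nat.cast Nat.cast_zero) = Real.log ‖∏ t ∈ d.support, (t : K) ^ d t‖ := fun d => by
    rw [Finsupp.linearCombination_apply, Finsupp.sum_mapRange_index (by simp),
      norm_prod, Real.log_prod fun t _ => norm_ne_zero_iff.2 (pow_ne_zero _ (Mx_ne hS t))]
    refine Finset.sum_congr rfl fun t _ => ?_
    rw [norm_pow, Real.log_pow, ← nsmul_eq_mul]
    exact Nat.cast_smul_eq_nsmul ℚ _ _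
  exact Finsupp.mapRange_injective _ Nat.cast_zero Nat.cast_injective
    (hS (by rw [e, e, h]))

theorem init {k : Type} [Field k] [Algebra k K] (hk : ∀ c : k, ‖algebraMap k K c‖ ≤ 1)
    {S : Set K} (hS : LinearIndependent ℚ fun t : S => Real.log ‖(t : K)‖) :
    ∃ S₀ : Subring (DualNumber K), (∀ a ∈ S₀, LP lam a) ∧
      (∀ c : k, TrivSqZeroExt.inl (algebraMap k K c) ∈ S₀) ∧ ∀ t ∈ S, ∃ a ∈ S₀, a.fst = t := by
  have h1 : ∀ c : k, c ≠ 0 → ‖algebraMap k K c‖ = 1 := fun c hc => by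
    refine le_antisymm (hk c) ?_
    have e : ‖algebraMap k K c‖ * ‖algebraMap k K c⁻¹‖ = 1 := by
      rw [← norm_mul, ← map_mul, mul_inv_cancel₀ hc, map_one, norm_one]
    rw [← e]
    exact mul_le_of_le_one_right (norm_nonneg _) (hk _)
  refine ⟨(MvPolynomial.eval₂Hom ((TrivSqZeroExt.inlHom K K).comp (algebraMap k K)) fun t : S =>
    (TrivSqZeroExt.inl (t : K) + TrivSqZeroExt.inr (lv lam (t : K) * t) : DualNumber K)).range,
    ?_, fun c => ⟨MvPolynomial.C c, MvPolynomial.eval₂Hom_C _ _ _⟩, fun t ht =>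
      ⟨_, ⟨MvPolynomial.X ⟨t, ht⟩, MvPolynomial.eval₂Hom_X' _ _ _⟩, by simp⟩⟩
  rintro _ ⟨Q, rfl⟩
  rw [MvPolynomial.coe_eval₂Hom, MvPolynomial.eval₂_eq]
  have hn : ∀ d ∈ Q.support, ‖(((TrivSqZeroExt.inlHom K K).comp (algebraMap k K)) (Q.coeff d) *
      ∏ t ∈ d.support, (TrivSqZeroExt.inl (t : K) + TrivSqZeroExt.inr (lv lam (t : K) * t) :
        DualNumber K) ^ d t).fst‖ = ‖∏ t ∈ d.support, (t : K) ^ d t‖ := fun d hd => by
    have e := map_prod (TrivSqZeroExt.fstHom K K K) (fun t : S => (TrivSqZeroExt.inl (t : K) +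
      TrivSqZeroExt.inr (lv lam (t : K) * t) : DualNumber K) ^ d t) d.support
    simp only [TrivSqZeroExt.fstHom_apply, TrivSqZeroExt.fst_pow, TrivSqZeroExt.fst_add,
      TrivSqZeroExt.fst_inl, TrivSqZeroExt.fst_inr, add_zero] at e
    rw [TrivSqZeroExt.fst_mul, e, norm_mul]
    exact mul_eq_right₀ (norm_ne_zero_iff.2 (Finset.prod_ne_zero_iff.2 fun t _ =>
      pow_ne_zero _ (Mx_ne hS t))) |>.2 (h1 _ (MvPolynomial.mem_support_iff.1 hd))
  refine LP.sum hQ _ _ (fun d hd => LP.mul hQ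
    (LP.inl (Or.inr (h1 _ (MvPolynomial.mem_support_iff.1 hd)))) ?_) fun d hd => ?_
  · exact Finset.prod_induction _ _ (fun _ _ => LP.mul hQ) (LP.inl (c := 1) (Or.inr norm_one))
      fun t _ => (LP.log (Mx_ne hS t)).pow hQ _
  · rw [TrivSqZeroExt.fst_sum, IsUltrametricDist.norm_sum_eq_sup'_of_pairwise_ne ⟨d, hd⟩
      fun x hx y hy hxy e => hxy (Mx_mon hS (by rw [← hn x hx, ← hn y hy]; exact e))]
    exact Finset.le_sup' (f := fun d => ‖(((TrivSqZeroExt.inlHom K K).comp (algebraMap k K))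
      (Q.coeff d) * ∏ t ∈ d.support, (TrivSqZeroExt.inl (t : K) +
        TrivSqZeroExt.inr (lv lam (t : K) * t) : DualNumber K) ^ d t).fst‖) hd

end Pool.Agent.Work.MP_e120ef_ag.H.CS
end

-- merged part: Pool.Agent.Work.MP_e120ef_ag.C.Imm
section
/-!
# The big field is an immediate extension of the maximal subfield

Plans.  `Imm_dist`: if the nonzero terms `coeff i * y ^ i` have pairwise distinct norms, the norm of the sum over `q.support` is the largest (`IsUltrametricDist.norm_sum_eq_sup'_of_pairwise_ne`; `aeval_def`, `eval₂_eq_sum`).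
`Mx.val`: suppose no element of `F` has the norm of `y ≠ 0`.  If `‖y‖ ^ n ≠ ‖a‖` for all `n > 0`, `a ∈ F`, then `‖a y ^ i‖ = ‖b y ^ j‖`, `i < j`, `a, b ≠ 0` is impossible, so `mem_of_orth` with `LP.log` gives `y ∈ F`.
Otherwise let `n > 0` be least with `‖y‖ ^ n = ‖a‖` (`Nat.find`), `y' ^ n = a` (`IsAlgClosed.exists_pow_nat_eq`), `‖y'‖ = ‖y‖`, and take the dual number `inl y' + inr (y' * (σ a).snd / (n * a))`: its `n`-th power is `σ a` (`TrivSqZeroExt.snd_pow`), it satisfies `LP` (`lv_pow`, `norm_nat`, `LP.lt`);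
`mem_of_root` with `p = X ^ n - C a` and minimality of `n`.
`Mx.res`: let `‖y‖ = 1`.  Call `q` bad if some coefficient has norm `> ‖aeval y q‖`.  If nothing is bad use `mem_of_orth` with `inl y` (`LP.inl`).  Otherwise take a bad `q` of least `natDegree` `n`; `eraseLead q` is not bad, which forces the leading coefficient to have the largest norm;
so `p = q * C (leadingCoeff q)⁻¹` is monic with coefficients of norm `≤ 1`, `‖aeval y p‖ < 1`, `n > 0`.  As `aeval y p = ∏ (y - α)` over the roots in `K` there is a root `y'` with `‖y - y'‖ < 1`.  For `degree r < n`: `‖aeval y' r - aeval y r‖ < max ‖coeff‖ = ‖aeval y r‖`, so `r` is not bad for `y'`.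
In particular `‖aeval y' (derivative p)‖ ≥ ‖n‖ = 1`.  Let `u = (p.eval₂ σ (inl y')).snd = ∑ (σ (coeff i)).snd * y' ^ i`, `‖u‖ < 1` (`LP.lt` with `lv_of_norm_one`, or `LP.le`), `z = -u / aeval y' (derivative p)`; then `p.eval₂ σ (inl y' + inr z) = 0` (`Imm_eval`), and `mem_of_root` gives `y' ∈ F`.
`Mx.imm`: `val`, then `res` for `y / a`.
-/

open Polynomial

namespace Pool.Agent.Work.MP_e120ef_ag.H.CS

variable {K : Type} [NormedField K] {lam : ℝ →ₗ[ℚ] ℚ} (𝓕 : Mx lam K)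

theorem Imm_eval (q : 𝓕.F[X]) (y z : K) :
    (q.eval₂ 𝓕.σ (TrivSqZeroExt.inl y + TrivSqZeroExt.inr z)).snd =
      (q.eval₂ 𝓕.σ (TrivSqZeroExt.inl y)).snd + aeval y (derivative q) * z := by
  induction q using Polynomial.induction_on' with
  | add p q hp hq =>
    rw [eval₂_add, eval₂_add, TrivSqZeroExt.snd_add, TrivSqZeroExt.snd_add, hp, hq,
      derivative_add, map_add]
    ring
  | monomial n a =>
    rw [eval₂_monomial, eval₂_monomial, derivative_monomial, aeval_monomial, DualNumber.snd_mul,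
      DualNumber.snd_mul, TrivSqZeroExt.snd_pow, TrivSqZeroExt.snd_pow, TrivSqZeroExt.fst_pow,
      TrivSqZeroExt.fst_pow, 𝓕.fst, map_mul, map_natCast]
    simp only [TrivSqZeroExt.fst_add, TrivSqZeroExt.snd_add, TrivSqZeroExt.fst_inl,
      TrivSqZeroExt.fst_inr, TrivSqZeroExt.snd_inl, TrivSqZeroExt.snd_inr, add_zero, zero_add,
      smul_eq_mul, nsmul_eq_mul, mul_zero, Nat.pred_eq_sub_one]
    change _ = _ + (a : K) * n * y ^ (n - 1) * z
    ring

variable [IsUltrametricDist K]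

omit [IsUltrametricDist K] in
theorem Imm_quot {y : K} (hy : y ≠ 0) {a b : 𝓕.F} (hb : b ≠ 0) {i j : ℕ} (hij : i < j)
    (h : ‖(a : K) * y ^ i‖ = ‖(b : K) * y ^ j‖) : ∃ c ∈ 𝓕.F, ‖c‖ = ‖y‖ ^ (j - i) := by
  have hb' : ‖(b : K)‖ ≠ 0 := norm_ne_zero_iff.2 fun k => hb (Subtype.ext k)
  have hy' : ‖y‖ ^ i ≠ 0 := pow_ne_zero _ (norm_ne_zero_iff.2 hy)
  refine ⟨a / b, div_mem a.2 b.2, ?_⟩
  obtain ⟨k, rfl⟩ := Nat.exists_eq_add_of_le hij.le
  rw [norm_mul, norm_mul, norm_pow, norm_pow, pow_add, mul_left_comm, mul_comm,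
    mul_right_inj' hy'] at h
  rw [norm_div, Nat.add_sub_cancel_left, h, mul_div_cancel_left₀ _ hb']

theorem Imm_le {u v : K} (h : ‖u - v‖ < ‖u‖) : ‖u‖ ≤ ‖v‖ := by
  have k := IsUltrametricDist.norm_add_le_max (u - v) v
  rw [sub_add_cancel] at k
  exact (le_max_iff.1 k).resolve_left (not_le.2 h)

theorem Imm_pow {y y' : K} (hy : ‖y‖ ≤ 1) (hy' : ‖y'‖ ≤ 1) (i : ℕ) :
    ‖y ^ i - y' ^ i‖ ≤ ‖y - y'‖ := by
  induction i with
  | zero => simp
  | succ i ih =>
    have e : y ^ (i + 1) - y' ^ (i + 1) = y * (y ^ i - y' ^ i) + (y - y') * y' ^ i := by ring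
    rw [e]
    refine (IsUltrametricDist.norm_add_le_max _ _).trans (max_le ?_ ?_)
    · rw [norm_mul]
      exact (mul_le_of_le_one_left (norm_nonneg _) hy).trans ih
    · rw [norm_mul, norm_pow]
      exact mul_le_of_le_one_right (norm_nonneg _) (pow_le_one₀ (norm_nonneg _) hy')

theorem Imm_pert {y y' : K} (hy : ‖y‖ ≤ 1) (hy' : ‖y'‖ ≤ 1) (h : ‖y - y'‖ < 1) {r : 𝓕.F[X]}
    (hr : ∀ i, ‖(r.coeff i : K)‖ ≤ ‖aeval y r‖) : ‖aeval y r‖ ≤ ‖aeval y' r‖ := by
  rcases (norm_nonneg (aeval y r)).eq_or_lt with h0 | h0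
  · rw [← h0]
    exact norm_nonneg _
  refine Imm_le (lt_of_le_of_lt ?_ (mul_lt_of_lt_one_right h0 h))
  conv_lhs => rw [aeval_eq_sum_range, aeval_eq_sum_range, ← Finset.sum_sub_distrib]
  refine IsUltrametricDist.norm_sum_le_of_forall_le_of_nonneg (by positivity) fun i _ => ?_
  rw [← smul_sub]
  change ‖(r.coeff i : K) * _‖ ≤ _
  rw [norm_mul]
  exact mul_le_mul (hr i) (Imm_pow hy hy' i) (norm_nonneg _) h0.le

omit [IsUltrametricDist K] in
theorem Imm_prod {y : K} (s : Multiset K) (h : ∀ α ∈ s, 1 ≤ ‖y - α‖) :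
    1 ≤ ‖(s.map (y - ·)).prod‖ := by
  induction s using Multiset.induction_on with
  | empty => simp
  | cons a s ih =>
    rw [Multiset.map_cons, Multiset.prod_cons, norm_mul]
    exact one_le_mul_of_one_le_of_one_le (h a (Multiset.mem_cons_self a s))
      (ih fun α hα => h α (Multiset.mem_cons_of_mem hα))

theorem Imm_lead {y : K} (hy : ‖y‖ = 1) {q : 𝓕.F[X]} (hq : ∃ i, ‖aeval y q‖ < ‖(q.coeff i : K)‖)
    (he : ∀ i, ‖(q.eraseLead.coeff i : K)‖ ≤ ‖aeval y q.eraseLead‖) :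
    ‖aeval y q‖ < ‖(q.leadingCoeff : K)‖ ∧ ∀ i, ‖(q.coeff i : K)‖ ≤ ‖(q.leadingCoeff : K)‖ := by
  have e : aeval y q.eraseLead = aeval y q + -((q.leadingCoeff : K) * y ^ q.natDegree) := by
    conv_rhs => rw [← eraseLead_add_monomial_natDegree_leadingCoeff q, map_add, aeval_monomial]
    rw [eraseLead_add_monomial_natDegree_leadingCoeff]
    exact (add_neg_cancel_right _ _).symm
  have k : ‖aeval y q.eraseLead‖ ≤ max ‖aeval y q‖ ‖(q.leadingCoeff : K)‖ := by
    rw [e]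
    refine (IsUltrametricDist.norm_add_le_max _ _).trans (le_of_eq ?_)
    rw [norm_neg, norm_mul, norm_pow, hy, one_pow, mul_one]
  have h1 : ‖aeval y q‖ < ‖(q.leadingCoeff : K)‖ := by
    obtain ⟨i, hi⟩ := hq
    by_cases hn : i = q.natDegree
    · rwa [hn] at hi
    · rw [← eraseLead_coeff_of_ne i hn] at hi
      exact (lt_max_iff.1 ((hi.trans_le (he i)).trans_le k)).resolve_left (lt_irrefl _)
  refine ⟨h1, fun i => ?_⟩
  by_cases hn : i = q.natDegree
  · rw [hn]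
    exact le_rfl
  · rw [← eraseLead_coeff_of_ne i hn]
    exact (he i).trans (k.trans (max_le h1.le le_rfl))

theorem Imm_min {y : K} (hy : ‖y‖ = 1) (h : ∃ (q : 𝓕.F[X]) (i : ℕ), ‖aeval y q‖ < ‖(q.coeff i : K)‖) :
    ∃ p : 𝓕.F[X], p.Monic ∧ ‖aeval y p‖ < 1 ∧ (∀ i, ‖(p.coeff i : K)‖ ≤ 1) ∧
      ∀ r : 𝓕.F[X], r.degree < p.degree → ∀ i, ‖(r.coeff i : K)‖ ≤ ‖aeval y r‖ := by
  classical
  have hex : ∃ n, ∃ q : 𝓕.F[X], q.natDegree = n ∧ ∃ i, ‖aeval y q‖ < ‖(q.coeff i : K)‖ := by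
    obtain ⟨q, hq⟩ := h
    exact ⟨_, q, rfl, hq⟩
  obtain ⟨q, hn, hq⟩ := Nat.find_spec hex
  have hmin : ∀ r : 𝓕.F[X], r.natDegree < q.natDegree ∨ r = 0 →
      ∀ i, ‖(r.coeff i : K)‖ ≤ ‖aeval y r‖ := by
    rintro r (hr | rfl) i
    · by_contra k
      exact Nat.find_min hex (hn ▸ hr) ⟨r, rfl, i, not_le.1 k⟩
    · simp
  obtain ⟨h1, h2⟩ := Imm_lead 𝓕 hy hq (hmin _ (eraseLead_natDegree_lt_or_eraseLead_eq_zero q))
  have hc : 0 < ‖(q.leadingCoeff : K)‖ := (norm_nonneg _).trans_lt h1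
  have h0 : q ≠ 0 := by
    rintro rfl
    simp at hc
  refine ⟨q * C q.leadingCoeff⁻¹, monic_mul_leadingCoeff_inv h0, ?_, fun i => ?_, fun r hr => ?_⟩
  · rw [map_mul, aeval_C, map_inv₀, norm_mul, norm_inv]
    exact (mul_inv_lt_iff₀ hc).2 (by rwa [one_mul])
  · rw [coeff_mul_C, Subfield.coe_mul, Subfield.coe_inv, norm_mul, norm_inv]
    exact (mul_inv_le_iff₀ hc).2 (by rw [one_mul]; exact h2 i)
  · rw [degree_mul_leadingCoeff_inv q h0] at hr
    by_cases k : r = 0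
    · exact hmin r (Or.inr k)
    · exact hmin r (Or.inl (natDegree_lt_natDegree k hr))

theorem Imm_dist {y : K} {q : 𝓕.F[X]}
    (h : ∀ i j, i < j → q.coeff i ≠ 0 → q.coeff j ≠ 0 →
      ‖(q.coeff i : K) * y ^ i‖ ≠ ‖(q.coeff j : K) * y ^ j‖) (i : ℕ) :
    ‖(q.coeff i : K) * y ^ i‖ ≤ ‖aeval y q‖ := by
  by_cases h0 : q.coeff i = 0
  · rw [h0, ZeroMemClass.coe_zero, zero_mul, norm_zero]
    exact norm_nonneg _
  have hi : i ∈ q.support := mem_support_iff.2 h0
  have e : aeval y q = ∑ j ∈ q.support, (q.coeff j : K) * y ^ j := by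
    rw [aeval_def, eval₂_eq_sum]
    rfl
  rw [e, IsUltrametricDist.norm_sum_eq_sup'_of_pairwise_ne ⟨i, hi⟩]
  · exact Finset.le_sup' (fun j => ‖(q.coeff j : K) * y ^ j‖) hi
  · intro a ha b hb hab
    rcases lt_or_gt_of_ne hab with k | k
    · exact h a b k (mem_support_iff.1 ha) (mem_support_iff.1 hb)
    · exact (h b a k (mem_support_iff.1 hb) (mem_support_iff.1 ha)).symm

variable [CharZero K] [IsAlgClosed K] (hQ : RQ K)
include hQ

theorem Mx.val (y : K) : ∃ a ∈ 𝓕.F, ‖a‖ = ‖y‖ := by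
  classical
  by_contra h
  have hy : y ≠ 0 := fun k => h ⟨0, zero_mem _, by rw [k]⟩
  by_cases hex : ∃ n, 0 < n ∧ ∃ a ∈ 𝓕.F, ‖a‖ = ‖y‖ ^ n
  · obtain ⟨hn, a, ha, e⟩ := Nat.find_spec hex
    set n := Nat.find hex with hdef
    obtain ⟨y', hy'⟩ := IsAlgClosed.exists_pow_nat_eq a hn
    have e1 : ‖y'‖ = ‖y‖ := by
      rw [← hy', norm_pow] at e
      exact (pow_left_inj₀ (norm_nonneg _) (norm_nonneg _) hn.ne').1 e
    have y0 : y' ≠ 0 := norm_ne_zero_iff.1 (e1 ▸ norm_ne_zero_iff.2 hy)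
    have a0 : a ≠ 0 := hy' ▸ pow_ne_zero _ y0
    have n0 : (n : K) ≠ 0 := Nat.cast_ne_zero.2 hn.ne'
    obtain ⟨Y, f1, f2⟩ : ∃ Y : DualNumber K, Y.fst = y' ∧
        Y.snd = y' * (𝓕.σ ⟨a, ha⟩).snd / (n * a) := ⟨(_, _), rfl, rfl⟩
    have l1 := (𝓕.lp ⟨a, ha⟩).lt (by rw [𝓕.fst]; exact a0)
    rw [𝓕.fst] at l1
    change ‖_ - lv lam a * a‖ < ‖a‖ at l1
    have l2 : LP lam Y := by
      refine Or.inr ?_
      have e2 : Y.snd - lv lam Y.fst * Y.fst =
          y' * (((𝓕.σ ⟨a, ha⟩).snd - lv lam a * a) / (n * a)) := by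
        have e3 : lv lam a = n * lv lam y' := by rw [← lv_pow, hy']
        rw [f1, f2, e3]
        field_simp
      rw [e2, f1, norm_mul, norm_div, norm_mul, hQ.norm_nat hn.ne', one_mul]
      exact mul_lt_of_lt_one_right (norm_pos_iff.2 y0) ((div_lt_one (norm_pos_iff.2 a0)).2 l1)
    have l3 : (X ^ n - C (⟨a, ha⟩ : 𝓕.F)).eval₂ 𝓕.σ Y = 0 := by
      rw [eval₂_sub, eval₂_X_pow, eval₂_C, sub_eq_zero]
      refine TrivSqZeroExt.ext ?_ ?_
      · rw [TrivSqZeroExt.fst_pow, f1, hy', 𝓕.fst]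
      · have e4 : y' ^ n.pred * y' = a := by rw [← pow_succ, ← hy', ← Nat.succ_eq_add_one,
          Nat.succ_pred_eq_of_pos hn]
        rw [TrivSqZeroExt.snd_pow, f1, f2, smul_eq_mul, nsmul_eq_mul, mul_div_assoc, ← mul_assoc _ y',
          e4]
        field_simp
    have l4 := 𝓕.mem_of_root hQ l2 (monic_X_pow_sub_C (⟨a, ha⟩ : 𝓕.F) hn.ne') l3 fun q hq i => by
      refine Imm_dist 𝓕 (fun i j hij _ hj k => ?_) i
      rw [f1] at k
      rw [degree_X_pow_sub_C hn] at hq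
      have hj' : j < n := by exact_mod_cast (le_degree_of_ne_zero hj).trans_lt hq
      have k' := Imm_quot 𝓕 y0 hj hij k
      rw [e1] at k'
      exact Nat.find_min hex (by omega : j - i < n) ⟨by omega, k'⟩
    exact h ⟨y', f1 ▸ l4, e1⟩
  · have f1 : (TrivSqZeroExt.inl y + TrivSqZeroExt.inr (lv lam y * y) : DualNumber K).fst = y := by
      simp
    have l4 := 𝓕.mem_of_orth hQ (LP.log hy) fun q i => by
      refine Imm_dist 𝓕 (fun i j hij _ hj k => ?_) i
      rw [f1] at k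
      exact hex ⟨j - i, by omega, Imm_quot 𝓕 hy hj hij k⟩
    exact h ⟨y, f1 ▸ l4, rfl⟩

omit [IsAlgClosed K] in
theorem Imm_snd {y : K} (hy : ‖y‖ = 1) {p : 𝓕.F[X]} (hp : ∀ i, ‖(p.coeff i : K)‖ ≤ 1) :
    ‖(p.eval₂ 𝓕.σ (TrivSqZeroExt.inl y)).snd‖ < 1 := by
  rw [eval₂_eq_sum_range, TrivSqZeroExt.snd_sum]
  obtain ⟨i, -, hi⟩ := IsUltrametricDist.exists_norm_finsetSum_le_of_nonempty
    (Finset.nonempty_range_add_one (n := p.natDegree))
    fun i => (𝓕.σ (p.coeff i) * (TrivSqZeroExt.inl y : DualNumber K) ^ i).snd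
  refine hi.trans_lt ?_
  rw [DualNumber.snd_mul, TrivSqZeroExt.inl_pow, TrivSqZeroExt.snd_inl, TrivSqZeroExt.fst_inl,
    mul_zero, zero_add, norm_mul, norm_pow, hy, one_pow, mul_one]
  rcases (hp i).eq_or_lt with k | k
  · have l := (𝓕.lp (p.coeff i)).lt (by rw [𝓕.fst, ← norm_ne_zero_iff, k]; exact one_ne_zero)
    rwa [𝓕.fst, lv_of_norm_one k, zero_mul, sub_zero, k] at l
  · have l := LP.le hQ (𝓕.lp (p.coeff i))
    rw [𝓕.fst] at l
    exact l.trans_lt k

theorem Mx.res {y : K} (hy : ‖y‖ = 1) : ∃ a ∈ 𝓕.F, ‖y - a‖ < 1 := by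
  by_cases h : ∃ (q : 𝓕.F[X]) (i : ℕ), ‖aeval y q‖ < ‖(q.coeff i : K)‖
  · obtain ⟨p, hp, h1, h2, h3⟩ := Imm_min 𝓕 hy h
    obtain ⟨y', hr, hd⟩ : ∃ y' ∈ p.aroots K, ‖y - y'‖ < 1 := by
      by_contra k
      rw [(IsAlgClosed.splits _).aeval_eq_prod_aroots_of_monic hp] at h1
      exact not_le.2 h1 (Imm_prod _ fun α hα => not_lt.1 fun k' => k ⟨α, hα, k'⟩)
    have r0 : aeval y' p = 0 := (mem_aroots.1 hr).2
    have e1 : ‖y'‖ = 1 := by
      refine le_antisymm ?_ (hy ▸ Imm_le (hy ▸ hd))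
      have k := IsUltrametricDist.norm_add_le_max y (-(y - y'))
      rw [norm_neg, hy, ← sub_eq_add_neg, sub_sub_cancel] at k
      exact k.trans (max_le le_rfl hd.le)
    have h4 : ∀ r : 𝓕.F[X], r.degree < p.degree → ∀ i, ‖(r.coeff i : K)‖ ≤ ‖aeval y' r‖ :=
      fun r hr i => (h3 r hr i).trans (Imm_pert 𝓕 hy.le e1.le hd (h3 r hr))
    have hn : p.natDegree ≠ 0 := fun k => by
      rw [hp.natDegree_eq_zero.1 k] at h1
      simp at h1
    have hD : 1 ≤ ‖aeval y' (derivative p)‖ := by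
      obtain ⟨n, hn'⟩ := Nat.exists_eq_add_one_of_ne_zero hn
      have k := h4 _ (degree_derivative_lt hp.ne_zero) n
      rw [coeff_derivative, ← hn', hp.coeff_natDegree, one_mul] at k
      refine le_trans (le_of_eq ?_) k
      rw [← hQ.norm_nat (Nat.succ_ne_zero n)]
      simp
    have D0 : aeval y' (derivative p) ≠ 0 := norm_pos_iff.1 (one_pos.trans_le hD)
    have hu := Imm_snd 𝓕 hQ e1 h2
    set u := (p.eval₂ 𝓕.σ (TrivSqZeroExt.inl y')).snd with hdef
    have f1 : (TrivSqZeroExt.inl y' + TrivSqZeroExt.inr (-u / aeval y' (derivative p)) :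
        DualNumber K).fst = y' := by simp
    have l2 : LP lam (TrivSqZeroExt.inl y' + TrivSqZeroExt.inr (-u / aeval y' (derivative p)) :
        DualNumber K) := by
      refine Or.inr ?_
      rw [f1, lv_of_norm_one e1, zero_mul, sub_zero, e1, TrivSqZeroExt.snd_add,
        TrivSqZeroExt.snd_inl, TrivSqZeroExt.snd_inr, zero_add, norm_div, norm_neg]
      exact (div_le_self (norm_nonneg _) hD).trans_lt hu
    have l4 := 𝓕.mem_of_root hQ l2 hp (TrivSqZeroExt.ext (by rw [𝓕.fst_eval, f1, r0]; rfl) (by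
      rw [Imm_eval, ← hdef, mul_div_cancel₀ _ D0, add_neg_cancel]; rfl)) fun q hq i => by
        rw [f1, norm_mul, norm_pow, e1, one_pow, mul_one]
        exact h4 q hq i
    exact ⟨y', f1 ▸ l4, hd⟩
  · refine ⟨y, 𝓕.mem_of_orth hQ (LP.inl (Or.inr hy)) fun q i => ?_, by simp⟩
    rw [TrivSqZeroExt.fst_inl, norm_mul, norm_pow, hy, one_pow, mul_one]
    exact not_lt.1 fun k => h ⟨q, i, k⟩

theorem Mx.imm {y : K} (hy : y ≠ 0) : ∃ a ∈ 𝓕.F, ‖y - a‖ < ‖y‖ := by
  obtain ⟨a, ha, e⟩ := 𝓕.val hQ y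
  have hn : 0 < ‖y‖ := norm_pos_iff.2 hy
  have a0 : a ≠ 0 := norm_pos_iff.1 (e ▸ hn)
  obtain ⟨b, hb, k⟩ := 𝓕.res hQ (y := y / a) (by rw [norm_div, e, div_self hn.ne'])
  refine ⟨a * b, mul_mem ha hb, ?_⟩
  have e2 : y - a * b = a * (y / a - b) := by field_simp
  rw [e2, norm_mul, e]
  exact mul_lt_of_lt_one_right hn k

end Pool.Agent.Work.MP_e120ef_ag.H.CS
end

-- merged part: Pool.Agent.Work.MP_e120ef_ag.C.AC
section
/-!
# Derivations of logarithmic type exist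

Plans.  `conj_norm`: `F` is a complete nontrivially normed field (closed subfield; `IsClosed.completeSpace_coe`), `K` a normed `F`-algebra.  Either use `spectralNorm` (`NormedAlgebra.norm_eq_spectralNorm` on the algebraic closure of `F` in `K`, `spectralNorm` only depends on `minpoly`), or:
the `F`-algebra map `F⟮x⟯ → K`, `x ↦ y` (`IntermediateField.adjoinRootEquivAdjoin`, `PowerBasis.lift`) is a linear map from a finite dimensional space, so `‖y ^ n‖ ≤ C ‖x ^ n‖` for all `n` (`LinearMap.continuous_of_finiteDimensional`), hence `‖y‖ ≤ ‖x‖`; symmetric.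
`Mx.alg`: let `p = minpoly F y` of degree `n > 0`, with roots `α` in `K`, and `a = -(nextCoeff p) / n ∈ F` their mean (`Polynomial.Splits.nextCoeff_eq_neg_sum_roots_of_monic` or Vieta).  For `b ∈ F` each `α - b` is conjugate to `y - b` (`minpoly.sub_algebraMap`, `IsConjRoot.sub_algebraMap`), so `‖a - b‖ ≤ ‖y - b‖` (`norm_nat`), hence `‖y - a‖ ≤ ‖y - b‖`.
If `y ≠ a`, `imm` for `y - a` contradicts this.
`Mx.top_of_sph`: let `y ∉ F`, `r a = ‖y - a‖ > 0`, `D a = (σ a).snd`.  By `imm` for `y - a` no `a` minimises `r`.  Choose `a n ∈ F` with `r (a n)` antitone and tending to the infimum (`exists_seq_tendsto_sInf`).  If `r a' ≤ r a` then `‖D a' - D a‖ ≤ ‖a' - a‖ ≤ r a` (`LP.le`), so the balls `closedBall (D (a n)) (r (a n))` are nested; let `z` be in all of them.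
For `a ∈ F` take `n` with `r (a n) < r a`; `LP.near` with `b = σ (a n - a)` shows `LP (inl y + inr z - σ a)`.  `F` is algebraically closed (`IsAlgClosed.of_exists_root`, `alg`), so every `q` is a product of a constant and linear factors (`Polynomial.Splits`, induction on the degree with `IsAlgClosed.exists_root`), and `LP.mul`, `adj` give `y ∈ F`.
`exists_LD`: `init` (with `S = ∅` in the first case), `exists_mx`; in the second case `adjoin k S ≤ F`, so everything algebraic over it is in `F` by `alg`, and `F` is closed and dense.  `D x = (σ x).snd`; linearity over `k` from `σ (c) = inl c`.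
-/

open Polynomial

namespace Pool.Agent.Work.MP_e120ef_ag.H.CS

variable {K : Type} [NontriviallyNormedField K] [IsUltrametricDist K] [CompleteSpace K]

theorem conj_norm (F : Subfield K) (hF : IsClosed (F : Set K)) (hnt : ∃ a ∈ F, 1 < ‖a‖) {x y : K}
    (hx : IsIntegral F x) (h : aeval y (minpoly F x) = 0) : ‖y‖ = ‖x‖ := by
  let _ : NontriviallyNormedField F :=
    { SubfieldClass.toNormedField F with
      non_trivial := by
        obtain ⟨a, ha, h1⟩ := hnt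
        exact ⟨⟨a, ha⟩, h1⟩ }
  have : CompleteSpace F := hF.completeSpace_coe
  have : IsUltrametricDist F :=
    IsUltrametricDist.isUltrametricDist_of_forall_norm_add_le_max_norm fun a b =>
      IsUltrametricDist.norm_add_le_max (a : K) (b : K)
  let f : AbsoluteValue (algebraicClosure F K) ℝ :=
    { toFun := fun a => ‖(a : K)‖
      map_mul' := fun a b => norm_mul (a : K) (b : K)
      nonneg' := fun a => norm_nonneg _
      eq_zero' := fun a => by simp
      add_le' := fun a b => norm_add_le (a : K) (b : K) }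
  have key : ∀ z : K, IsIntegral F z → ‖z‖ = spectralNorm F K z := by
    intro z hz
    have h1 := spectralNorm_unique_field_norm_ext (K := F) (f := f) (fun a => rfl)
      (⟨z, mem_algebraicClosure_iff'.2 hz⟩ : algebraicClosure F K)
    rw [spectralNorm.eq_of_tower (L := K)] at h1
    exact h1
  have hc : IsConjRoot F x y := isConjRoot_of_aeval_eq_zero hx h
  rw [key x hx, key y (hc.isIntegral hx), spectralNorm, spectralNorm, isConjRoot_def.1 hc]

omit [CompleteSpace K] in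
theorem AC_sub (x y z : K) : ‖x - z‖ ≤ max ‖x - y‖ ‖y - z‖ := by
  simpa using IsUltrametricDist.norm_add_le_max (x - y) (y - z)

omit [CompleteSpace K] in
theorem AC_sum (s : Multiset K) (b : K) {r : ℝ} (hr : 0 ≤ r) (h : ∀ α ∈ s, ‖α - b‖ ≤ r) :
    ‖s.sum - (s.card : K) * b‖ ≤ r := by
  induction s using Multiset.induction_on with
  | empty => simpa using hr
  | cons a s ih =>
    have e : (a ::ₘ s).sum - ((a ::ₘ s).card : K) * b = (a - b) + (s.sum - (s.card : K) * b) := by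
      simp only [Multiset.sum_cons, Multiset.card_cons]
      push_cast
      ring
    rw [e]
    exact (IsUltrametricDist.norm_add_le_max _ _).trans (max_le (h a (Multiset.mem_cons_self _ _))
      (ih fun α hα => h α (Multiset.mem_cons_of_mem hα)))

variable [CharZero K] [IsAlgClosed K] {lam : ℝ →ₗ[ℚ] ℚ} (𝓕 : Mx lam K) (hQ : RQ K)
include hQ

omit [CompleteSpace K] in
theorem AC_better {y : K} (hy : y ∉ 𝓕.F) (a : 𝓕.F) : ∃ b : 𝓕.F, ‖y - b‖ < ‖y - a‖ := by
  have h0 : y - a ≠ 0 := fun h => hy (sub_eq_zero.1 h ▸ a.2)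
  obtain ⟨b, hb, h⟩ := 𝓕.imm hQ h0
  refine ⟨a + ⟨b, hb⟩, ?_⟩
  rwa [Subfield.coe_add, ← sub_sub]

theorem Mx.alg {y : K} (hy : IsAlgebraic 𝓕.F y) : y ∈ 𝓕.F := by
  by_contra hn
  have hi := hy.isIntegral
  have hnt : ∃ a ∈ 𝓕.F, 1 < ‖a‖ := by
    obtain ⟨t, ht⟩ := NormedField.exists_one_lt_norm K
    obtain ⟨a, ha, h⟩ := 𝓕.val hQ t
    exact ⟨a, ha, h ▸ ht⟩
  have hm : ((minpoly 𝓕.F y).map (algebraMap 𝓕.F K)).Monic := (minpoly.monic hi).map _
  have hs : ((minpoly 𝓕.F y).map (algebraMap 𝓕.F K)).Splits := IsAlgClosed.splits _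
  have h1 := hs.nextCoeff_eq_neg_sum_roots_of_monic hm
  have h2 := hs.natDegree_eq_card_roots
  rw [nextCoeff_map_eq] at h1
  rw [natDegree_map] at h2
  have h3 : (minpoly 𝓕.F y).natDegree ≠ 0 := (minpoly.natDegree_pos hi).ne'
  have h4 : (((minpoly 𝓕.F y).natDegree : ℕ) : K) ≠ 0 := Nat.cast_ne_zero.2 h3
  obtain ⟨b, hb⟩ := AC_better 𝓕 hQ hn (-(minpoly 𝓕.F y).nextCoeff / (minpoly 𝓕.F y).natDegree)
  have h5 := AC_sum ((minpoly 𝓕.F y).map (algebraMap 𝓕.F K)).roots (b : K) (norm_nonneg (y - b))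
    fun α hα => by
      have hc : IsConjRoot 𝓕.F y α := isConjRoot_of_aeval_eq_zero hi (by
        rw [aeval_def, ← eval_map]
        exact (mem_roots hm.ne_zero).1 hα)
      exact (conj_norm 𝓕.F 𝓕.closed hnt (hi.sub (isIntegral_algebraMap (x := b)))
        (hc.sub_algebraMap b).aeval_eq_zero).le
  generalize ha : -(minpoly 𝓕.F y).nextCoeff / (minpoly 𝓕.F y).natDegree = a at hb
  have h6 : ((minpoly 𝓕.F y).map (algebraMap 𝓕.F K)).roots.sum =
      ((minpoly 𝓕.F y).natDegree : K) * a := by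
    rw [← ha, ← neg_neg (Multiset.sum _), ← h1]
    push_cast
    rw [mul_div_cancel₀ _ h4]
    rfl
  rw [h6, ← h2, ← mul_sub, norm_mul, hQ.norm_nat h3, one_mul, norm_sub_rev] at h5
  exact absurd ((AC_sub y b a).trans (max_le le_rfl h5)) (not_le.2 hb)

theorem AC_closed : IsAlgClosed 𝓕.F := by
  refine IsAlgClosed.of_exists_root _ fun p hp hi => ?_
  obtain ⟨y, hy⟩ := IsAlgClosed.exists_aeval_eq_zero K p (degree_pos_of_irreducible hi).ne'
  have h := 𝓕.alg hQ ⟨p, hp.ne_zero, hy⟩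
  refine ⟨⟨y, h⟩, (algebraMap 𝓕.F K).injective ?_⟩
  rw [map_zero, ← aeval_algebraMap_apply_eq_algebraMap_eval]
  exact hy

theorem Mx.top_of_sph (h : Sph K) (y : K) : y ∈ 𝓕.F := by
  by_contra hn
  have hb : BddBelow (Set.range fun a : 𝓕.F => ‖y - a‖) :=
    ⟨0, by rintro _ ⟨a, rfl⟩; exact norm_nonneg _⟩
  obtain ⟨u, hu, ht, hm⟩ := exists_seq_tendsto_sInf (Set.range_nonempty _) hb
  choose a ha using hm
  have hD : ∀ b c : 𝓕.F, ‖(𝓕.σ b).snd - (𝓕.σ c).snd‖ ≤ ‖(b : K) - c‖ := by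
    intro b c
    have := (𝓕.lp (b - c)).le hQ
    rwa [𝓕.fst, map_sub, TrivSqZeroExt.snd_sub] at this
  obtain ⟨z, hz⟩ := h (fun n => (𝓕.σ (a n)).snd) u (fun n => ha n ▸ norm_nonneg _) (by
    intro n m hnm x hx
    rw [mem_closedBall_iff_norm] at hx ⊢
    refine (AC_sub x (𝓕.σ (a m)).snd _).trans (max_le (hx.trans (hu hnm)) ((hD _ _).trans ?_))
    refine (AC_sub _ y _).trans (max_le ?_ (ha n).le)
    rw [norm_sub_rev]
    exact (ha m).le.trans (hu hnm))
  have hlin : ∀ b : 𝓕.F,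
      LP lam (TrivSqZeroExt.inl y + TrivSqZeroExt.inr z - 𝓕.σ b : DualNumber K) := by
    intro b
    obtain ⟨c, hc⟩ := AC_better 𝓕 hQ hn b
    obtain ⟨n, hn⟩ := (ht.eventually
      (gt_mem_nhds ((csInf_le hb (Set.mem_range_self c)).trans_lt hc))).exists
    have e1 : (TrivSqZeroExt.inl y + TrivSqZeroExt.inr z - 𝓕.σ b : DualNumber K).fst = y - b := by
      simp [𝓕.fst]
    have e2 : (TrivSqZeroExt.inl y + TrivSqZeroExt.inr z - 𝓕.σ b : DualNumber K).snd =
        z - (𝓕.σ b).snd := by simp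
    refine LP.near hQ (𝓕.lp (a n - b)) ?_ ?_
    · rw [e1, 𝓕.fst, Subfield.coe_sub, sub_sub_sub_cancel_right]
      exact (ha n).trans_lt hn
    · rw [e1, e2, map_sub, TrivSqZeroExt.snd_sub, sub_sub_sub_cancel_right]
      exact (mem_closedBall_iff_norm.1 (hz n)).trans_lt hn
  have := AC_closed 𝓕 hQ
  refine hn ?_
  have hy := 𝓕.adj (TrivSqZeroExt.inl y + TrivSqZeroExt.inr z) fun q => ?_
  · simpa using hy
  have hq : q.Splits := IsAlgClosed.splits q
  induction hq using Submonoid.closure_induction with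
  | mem p hp =>
    rcases hp with ⟨c, rfl⟩ | ⟨c, rfl⟩
    · rw [eval₂_C]
      exact 𝓕.lp c
    · have := hlin (-c)
      rw [map_neg, sub_neg_eq_add] at this
      rwa [eval₂_add, eval₂_X, eval₂_C]
  | one => rw [eval₂_one, ← map_one 𝓕.σ]; exact 𝓕.lp 1
  | mul p q _ _ hp hq => rw [eval₂_mul]; exact hp.mul hQ hq

omit hQ 𝓕

omit [IsUltrametricDist K] [CompleteSpace K] [CharZero K] [IsAlgClosed K] in
theorem rq_of {k : Type} [Field k] [CharZero k] [Algebra k K]
    (hk : ∀ c : k, ‖algebraMap k K c‖ ≤ 1) : RQ K := fun r => by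
  simpa using hk r

theorem exists_LD {k : Type} [Field k] [CharZero k] [Algebra k K]
    (hk : ∀ c : k, ‖algebraMap k K c‖ ≤ 1) (h : Sph K ∨ Abh k K) (lam : ℝ →ₗ[ℚ] ℚ) :
    ∃ D : Derivation k K K, LD lam D := by
  have hQ : RQ K := rq_of hk
  obtain ⟨𝓕, hc, hall⟩ : ∃ 𝓕 : Mx lam K, (∀ c : k, ∃ h : algebraMap k K c ∈ 𝓕.F,
      𝓕.σ ⟨algebraMap k K c, h⟩ = TrivSqZeroExt.inl (algebraMap k K c)) ∧ ∀ x, x ∈ 𝓕.F := by
    rcases h with h | ⟨S, hS, hd⟩
    · obtain ⟨S₀, h1, h2, -⟩ := init (lam := lam) hQ hk (S := ∅) linearIndependent_empty_type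
      obtain ⟨𝓕, h3⟩ := exists_mx hQ S₀ h1
      exact ⟨𝓕, fun c => h3 _ (h2 c), 𝓕.top_of_sph hQ h⟩
    · obtain ⟨S₀, h1, h2, h4⟩ := init (lam := lam) hQ hk hS
      obtain ⟨𝓕, h3⟩ := exists_mx hQ S₀ h1
      refine ⟨𝓕, fun c => h3 _ (h2 c), fun x => ?_⟩
      have hA : ∀ t ∈ Algebra.adjoin k S, t ∈ 𝓕.F := by
        intro t ht
        induction ht using Algebra.adjoin_induction with
        | mem t ht =>
          obtain ⟨a, ha, rfl⟩ := h4 t ht
          exact (h3 a ha).1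
        | algebraMap c => exact (h3 _ (h2 c)).1
        | add s t _ _ hs ht => exact add_mem hs ht
        | mul s t _ _ hs ht => exact mul_mem hs ht
      let φ : Algebra.adjoin k S →+* 𝓕.F :=
        (algebraMap (Algebra.adjoin k S) K).codRestrict 𝓕.F fun t => hA t t.2
      have hφ : Function.Injective φ := fun s t e =>
        Subtype.ext (congrArg (fun u : 𝓕.F => (u : K)) e)
      refine 𝓕.closed.closure_subset_iff.2 ?_ (hd x)
      rintro t ⟨p, hp, h0⟩
      refine 𝓕.alg hQ ⟨p.map φ, (Polynomial.map_ne_zero_iff hφ).2 hp, ?_⟩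
      rw [aeval_def, eval₂_map]
      exact h0
  have hmul : ∀ x y : K, (𝓕.σ ⟨x * y, hall _⟩).snd =
      x * (𝓕.σ ⟨y, hall _⟩).snd + (𝓕.σ ⟨x, hall _⟩).snd * y := by
    intro x y
    have e : (⟨x * y, hall _⟩ : 𝓕.F) = ⟨x, hall _⟩ * ⟨y, hall _⟩ := rfl
    rw [e, map_mul, DualNumber.snd_mul, 𝓕.fst, 𝓕.fst]
  let d : K →ₗ[k] K :=
    { toFun := fun x => (𝓕.σ ⟨x, hall x⟩).snd
      map_add' := fun x y => by
        have e : (⟨x + y, hall _⟩ : 𝓕.F) = ⟨x, hall _⟩ + ⟨y, hall _⟩ := rfl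
        rw [e, map_add, TrivSqZeroExt.snd_add]
      map_smul' := fun c x => by
        simp only [Algebra.smul_def, RingHom.id_apply]
        rw [hmul, (hc c).2, TrivSqZeroExt.snd_inl, zero_mul, add_zero] }
  refine ⟨Derivation.mk' d fun x y => ?_, fun x hx => ?_⟩
  · change (𝓕.σ ⟨x * y, hall _⟩).snd = x • (𝓕.σ ⟨y, hall _⟩).snd + y • (𝓕.σ ⟨x, hall _⟩).snd
    rw [hmul, smul_eq_mul, smul_eq_mul, mul_comm y]
  · have := (𝓕.lp ⟨x, hall x⟩).lt (by rwa [𝓕.fst])
    rw [𝓕.fst] at this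
    exact this

end Pool.Agent.Work.MP_e120ef_ag.H.CS
end
end

-- merged part: Pool.Agent.Work.MP_e120ef_ag.Br.C4
section
-- merged part: Pool.Agent.Work.MP_e120ef_ag.Br.A0
section
/-! Polynomial estimates at a generic point, the shear.

Plans.  `A0_le`: sum over the support, `IsUltrametricDist.norm_sum_le_of_forall_le`, `hw.2`.
`A0_lip`: first for monomials (induction: `‖u ^ I - v ^ I‖ ≤ δ`), then sum over the support.
`A0_GP`: induction on `n` (`MvPolynomial.finSuccEquiv`), or lift a point of the infinite residue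
field; a convenient form: for every exponent `I` there is `ν` in the unit polydisc of `K` with
`‖coeff I P‖ ≤ ‖P(ν)‖`; one variable: write `P = c ∏ (X - b)`, take a root `ν` of
`∏_{‖b‖ ≤ 1} (X - b) - 1` (or `ν = 0` if the product is empty).
`A0_shear`: `Sn.basis` gives a finite set `s` and `ε`.  For `0 ≠ P ∈ s` let `D` be the largest
degree whose homogeneous component `H` has `‖H(w)‖ = ‖P(w)‖` (all components have norm
`≤ ‖P(w)‖` by coefficients, `MvPolynomial.sum_homogeneousComponent`).  `A0_GP` for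
`X 0 * ∏ H` gives `ν'` with `‖ν' 0‖ = 1`, `‖H ν'‖ = ‖H w‖`; put `ν = ν' / ν' 0` (`A0_hom`).  For
`z = t ν + (0, y)`, `r = ‖t‖ > 1`: `z / t` is within `1 / r < 1` of `ν`, so `‖H z‖ = ‖P w‖ r ^ D`
(`A0_lip`, `A0_hom`); the components of degree `i < D` are at most `‖P w‖ r ^ i`, those of degree
`i > D` at most `‖H_i w‖ r ^ i < ‖P w‖` for `r` near `1`.  So `‖P z‖ = ‖P w‖ r ^ D`, within `ε` of
`‖P w‖` for `r` near `1` (use `∀ᶠ r in 𝓝 1` and `Filter.eventually_all_finset`).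
`A0_near`: `A0_lip` with `δ = ‖t - w i₀‖`.  `A0_gs`: `≤` by `GP1`, `eval_lnP`, `A0_le`; `≥` by
`norm_eval_le` at `t = w i₀`. -/

set_option linter.unusedSectionVars false

open Filter Topology Polynomial

namespace Pool.Agent.Work.MP_e120ef_ag.Br

variable {K : Type} [NontriviallyNormedField K] {n : ℕ} {L : Type} [NontriviallyNormedField L]
  [IsUltrametricDist L] [NormedAlgebra K L] {w : Fin n → L}

theorem A0_add {x y : L} (h : ‖x - y‖ < ‖y‖) : ‖x‖ = ‖y‖ := by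
  have := IsUltrametricDist.norm_add_eq_max_of_norm_ne_norm h.ne
  rwa [sub_add_cancel, max_eq_right h.le] at this

theorem A0_bd {z : Fin n → L} (hz : ∀ i, ‖z i‖ ≤ 1) {P : Pl K n} {C : ℝ} (hC : 0 ≤ C)
    (h : ∀ I, ‖P.coeff I‖ ≤ C) : ‖MvPolynomial.aeval z P‖ ≤ C := by
  rw [MvPolynomial.aeval_def, MvPolynomial.eval₂_eq']
  refine IsUltrametricDist.norm_sum_le_of_forall_le_of_nonneg hC fun I _ => ?_
  rw [norm_mul, norm_algebraMap', norm_prod]
  refine (mul_le_of_le_one_right (norm_nonneg _) (Finset.prod_le_one (fun _ _ => norm_nonneg _)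
    fun i _ => ?_)).trans (h I)
  rw [norm_pow]
  exact pow_le_one₀ (norm_nonneg _) (hz i)

theorem A0_le (hw : Gen K w) {z : Fin n → L} (hz : ∀ i, ‖z i‖ ≤ 1) (P : Pl K n) :
    ‖MvPolynomial.aeval z P‖ ≤ ‖MvPolynomial.aeval w P‖ := by
  exact A0_bd hz (norm_nonneg _) (hw.2 P)

theorem A0_one (hw : Gen K w) (i : Fin n) : ‖w i‖ = 1 := by
  have := hw.2 (MvPolynomial.X i) (Finsupp.single i 1)
  rw [MvPolynomial.coeff_X_same, norm_one, MvPolynomial.aeval_X] at this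
  exact (hw.1 i).antisymm this

theorem A0_lip (hw : Gen K w) {u v : Fin n → L} (hu : ∀ i, ‖u i‖ ≤ 1) (hv : ∀ i, ‖v i‖ ≤ 1)
    {δ : ℝ} (hδ : 0 ≤ δ) (h : ∀ i, ‖u i - v i‖ ≤ δ) (P : Pl K n) :
    ‖MvPolynomial.aeval u P - MvPolynomial.aeval v P‖ ≤ ‖MvPolynomial.aeval w P‖ * δ := by
  let S : Submonoid (L × L) :=
    { carrier := {p | ‖p.1‖ ≤ 1 ∧ ‖p.2‖ ≤ 1 ∧ ‖p.1 - p.2‖ ≤ δ}
      one_mem' := by simpa using hδ
      mul_mem' := by
        rintro ⟨a, a'⟩ ⟨b, b'⟩ ⟨h1, h2, h3⟩ ⟨k1, k2, k3⟩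
        refine ⟨(norm_mul a b).trans_le (mul_le_one₀ h1 (norm_nonneg _) k1),
          (norm_mul a' b').trans_le (mul_le_one₀ h2 (norm_nonneg _) k2), ?_⟩
        change ‖a * b - a' * b'‖ ≤ δ
        rw [show a * b - a' * b' = a * (b - b') + (a - a') * b' by ring]
        refine (IsUltrametricDist.norm_add_le_max _ _).trans (max_le ?_ ?_) <;> rw [norm_mul]
        · exact (mul_le_of_le_one_left (norm_nonneg _) h1).trans k3
        · exact (mul_le_of_le_one_right (norm_nonneg _) k2).trans h3 }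
  rw [MvPolynomial.aeval_def, MvPolynomial.eval₂_eq', MvPolynomial.aeval_def v,
    MvPolynomial.eval₂_eq', ← Finset.sum_sub_distrib]
  refine IsUltrametricDist.norm_sum_le_of_forall_le_of_nonneg (by positivity) fun I _ => ?_
  have k : (∏ i, (u i, v i) ^ I i) ∈ S :=
    prod_mem fun i _ => pow_mem (show (u i, v i) ∈ S from ⟨hu i, hv i, h i⟩) _
  have k2 := k.2.2
  simp only [Prod.fst_prod, Prod.snd_prod, Prod.pow_fst, Prod.pow_snd] at k2
  rw [← mul_sub, norm_mul, norm_algebraMap']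
  exact mul_le_mul (hw.2 P I) k2 (norm_nonneg _) (norm_nonneg _)

theorem A0_hom {P : Pl K n} {d : ℕ} (h : P.IsHomogeneous d) (t : L) (v : Fin n → L) :
    MvPolynomial.aeval (fun i => t * v i) P = t ^ d * MvPolynomial.aeval v P := by
  rw [MvPolynomial.aeval_def, MvPolynomial.eval₂_eq', MvPolynomial.aeval_def,
    MvPolynomial.eval₂_eq', Finset.mul_sum]
  refine Finset.sum_congr rfl fun I hI => ?_
  have e : ∑ i, I i = d := by
    rw [← Finsupp.degree_eq_sum, Finsupp.degree_eq_weight_one]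
    exact h (MvPolynomial.mem_support_iff.1 hI)
  simp only [mul_pow, Finset.prod_mul_distrib, Finset.prod_pow_eq_pow_sum, e]
  ring

theorem vl_self (w : Fin n → L) (i₀ : Fin n) (ν : Fin n → K) : vl w i₀ ν (w i₀) = w := by
  funext i
  simp [vl, ln]

theorem vl_le (hw : Gen K w) (i₀ : Fin n) {ν : Fin n → K} (hν : ∀ i, ‖ν i‖ ≤ 1) {t : L}
    (ht : ‖t‖ ≤ 1) (i : Fin n) : ‖vl w i₀ ν t i‖ ≤ 1 := by
  have k : ∀ x : L, ‖x‖ ≤ 1 → ‖x * algebraMap K L (ν i)‖ ≤ 1 := fun x hx => by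
    rw [norm_mul, norm_algebraMap']
    exact mul_le_one₀ hx (norm_nonneg _) (hν i)
  refine (IsUltrametricDist.norm_add_le_max _ _).trans (max_le ?_ (k t ht))
  change ‖w i - w i₀ * algebraMap K L (ν i)‖ ≤ 1
  rw [sub_eq_add_neg]
  refine (IsUltrametricDist.norm_add_le_max _ _).trans (max_le (hw.1 i) ?_)
  rw [norm_neg]
  exact k _ (hw.1 i₀)

theorem A0_close (hw : Gen K w) {u v : Fin n → L} (hu : ∀ i, ‖u i‖ ≤ 1) (hv : ∀ i, ‖v i‖ ≤ 1)
    {δ : ℝ} (hδ : 0 ≤ δ) (d1 : δ < 1) (h : ∀ i, ‖u i - v i‖ ≤ δ) {P : Pl K n}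
    (e : ‖MvPolynomial.aeval v P‖ = ‖MvPolynomial.aeval w P‖) :
    ‖MvPolynomial.aeval u P‖ = ‖MvPolynomial.aeval w P‖ := by
  rcases (norm_nonneg (MvPolynomial.aeval w P)).eq_or_lt with k | k
  · exact (A0_le hw hu P).antisymm (k ▸ norm_nonneg _)
  · rw [← e]
    refine A0_add ((A0_lip hw hu hv hδ h P).trans_lt ?_)
    rw [e]
    exact mul_lt_of_lt_one_right k d1

theorem A0_near (hw : Gen K w) (i₀ : Fin n) {ν : Fin n → K} (hν : ∀ i, ‖ν i‖ ≤ 1) {t : L}
    (ht : ‖t - w i₀‖ < 1) : pz K (vl w i₀ ν t) = pz K w := by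
  have t1 : ‖t‖ ≤ 1 := by
    rw [← sub_add_cancel t (w i₀)]
    exact (IsUltrametricDist.norm_add_le_max _ _).trans (max_le ht.le (hw.1 i₀))
  refine Sn.ext' fun P => A0_close hw (vl_le hw i₀ hν t1) hw.1 (norm_nonneg _) ht (fun i => ?_) rfl
  rw [show vl w i₀ ν t i - w i = (t - w i₀) * algebraMap K L (ν i) by simp only [vl, ln]; ring,
    norm_mul, norm_algebraMap']
  exact mul_le_of_le_one_right (norm_nonneg _) (hν i)

theorem A0_gs [IsAlgClosed L] [Om L] (hw : Gen K w) (i₀ : Fin n) {ν : Fin n → K}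
    (hν : ∀ i, ‖ν i‖ ≤ 1) (P : Pl K n) :
    gs 0 1 (lnP K (fun i => w i - w i₀ * algebraMap K L (ν i)) (fun i => algebraMap K L (ν i)) P) =
      pz K w P := by
  apply le_antisymm
  · obtain ⟨t, -, h1, h2⟩ := GP1 (0 : L) one_pos Set.finite_empty
      (lnP K (fun i => w i - w i₀ * algebraMap K L (ν i)) (fun i => algebraMap K L (ν i)) P)
    rw [← h2, eval_lnP]
    exact A0_le hw (vl_le hw i₀ hν (by rw [← h1, sub_zero])) P
  · refine le_trans (le_of_eq ?_) (norm_eval_le (t := w i₀) (by rw [sub_zero]; exact hw.1 i₀) _)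
    rw [eval_lnP]
    exact congrArg (fun z => ‖MvPolynomial.aeval z P‖) (vl_self w i₀ ν).symm

variable [IsUltrametricDist K] [IsAlgClosed K]

theorem A0_eq_of_prod {ι : Type} {s : Finset ι} {a b : ι → ℝ} (h0 : ∀ i ∈ s, 0 ≤ a i)
    (h1 : ∀ i ∈ s, a i ≤ b i) (h2 : ∀ i ∈ s, 0 < b i) (e : ∏ i ∈ s, a i = ∏ i ∈ s, b i) :
    ∀ i ∈ s, a i = b i := fun i hi => by
  have pos : ∀ j ∈ s, 0 < a j := fun j hj => (h0 j hj).lt_of_ne' fun z =>
    (Finset.prod_pos h2).ne' (e.symm.trans (Finset.prod_eq_zero hj z))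
  by_contra k
  exact (Finset.prod_lt_prod pos h1 ⟨i, hi, (h1 i hi).lt_of_ne k⟩).ne e

theorem A0_far (E : Finset K) : ∃ t : K, ‖t‖ ≤ 1 ∧ ∀ b ∈ E, 1 ≤ ‖t - b‖ ∧ ‖b‖ ≤ ‖t - b‖ := by
  classical
  let J : Finset K := insert 0 (E.filter fun b => ‖b‖ ≤ 1)
  have hJ : ∀ b ∈ J, ‖b‖ ≤ 1 := fun b hb => by
    rcases Finset.mem_insert.1 hb with rfl | hb
    exacts [by simp, (Finset.mem_filter.1 hb).2]
  have cJ : 0 < J.card := Finset.card_pos.2 ⟨0, Finset.mem_insert_self _ _⟩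
  have dg : (∏ b ∈ J, (X - C b) : K[X]).natDegree = J.card := by
    rw [natDegree_prod_of_monic _ _ fun b _ => monic_X_sub_C b]; simp
  obtain ⟨t, ht⟩ := IsAlgClosed.exists_root (∏ b ∈ J, (X - C b) - C 1) (by
    rw [degree_sub_C (natDegree_pos_iff_degree_pos.1 (dg ▸ cJ))]
    exact (natDegree_pos_iff_degree_pos.1 (dg ▸ cJ)).ne')
  have e : ∏ b ∈ J, ‖t - b‖ = ∏ _b ∈ J, (1 : ℝ) := by
    have : ∏ b ∈ J, (t - b) = 1 := by simpa [eval_prod, sub_eq_zero] using ht
    rw [← norm_prod, this, norm_one, Finset.prod_const_one]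
  have le : ‖t‖ ≤ 1 := by
    by_contra k
    push Not at k
    refine (Finset.prod_lt_prod_of_nonempty (fun _ _ => one_pos) (fun b hb => ?_)
      (Finset.card_pos.1 cJ)).ne' e
    rw [A0_add (y := t) (by simpa using (hJ b hb).trans_lt k)]
    exact k
  have eq := A0_eq_of_prod (fun _ _ => norm_nonneg _) (fun b hb => by
    rw [sub_eq_add_neg]
    exact (IsUltrametricDist.norm_add_le_max _ _).trans (max_le le (by simpa using hJ b hb)))
    (fun _ _ => one_pos) e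
  refine ⟨t, le, fun b hb => ?_⟩
  rcases le_or_gt ‖b‖ 1 with k | k
  · rw [eq b (Finset.mem_insert_of_mem (Finset.mem_filter.2 ⟨hb, k⟩))]
    exact ⟨le_rfl, k⟩
  · rw [norm_sub_rev, A0_add (y := b) (by simpa using le.trans_lt k)]
    exact ⟨k.le, le_rfl⟩

theorem A0_one_var (p : K[X]) : ∃ t : K, ‖t‖ ≤ 1 ∧ ∀ i, ‖p.coeff i‖ ≤ ‖p.eval t‖ := by
  classical
  obtain ⟨t, h1, h2⟩ := A0_far p.roots.toFinset
  refine ⟨t, h1, ?_⟩
  have k : ∀ b ∈ p.roots, 1 ≤ ‖t - b‖ ∧ ‖b‖ ≤ ‖t - b‖ := fun b hb =>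
    h2 b (Multiset.mem_toFinset.2 hb)
  rw [(IsAlgClosed.splits p).eq_prod_roots]
  generalize p.roots = m at k
  induction m using Multiset.induction_on with
  | empty =>
    intro i
    rw [Multiset.map_zero, Multiset.prod_zero, mul_one, coeff_C, eval_C]
    split_ifs
    exacts [le_rfl, norm_zero.trans_le (norm_nonneg _)]
  | cons b m ih =>
    intro i
    obtain ⟨k1, k2⟩ := k b (Multiset.mem_cons_self _ _)
    rw [Multiset.map_cons, Multiset.prod_cons, mul_left_comm, coeff_mul, eval_mul, norm_mul]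
    refine IsUltrametricDist.norm_sum_le_of_forall_le_of_nonneg (by positivity) fun j _ => ?_
    rw [norm_mul]
    refine mul_le_mul ?_ (ih (fun c hc => k c (Multiset.mem_cons_of_mem hc)) _) (norm_nonneg _)
      (norm_nonneg _)
    rw [eval_sub, eval_X, eval_C, coeff_sub, coeff_X, coeff_C]
    split_ifs with a1 a2 a2
    · omega
    · simpa using k1
    · simpa using k2
    · simp

theorem A0_coef (P : Pl K n) (I : Fin n →₀ ℕ) : ∃ ν : Fin n → K, (∀ i, ‖ν i‖ ≤ 1) ∧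
    ‖P.coeff I‖ ≤ ‖MvPolynomial.aeval ν P‖ := by
  induction n with
  | zero =>
    refine ⟨0, fun i => i.elim0, ?_⟩
    rw [Subsingleton.elim I 0]
    nth_rewrite 2 [MvPolynomial.eq_C_of_isEmpty P]
    simp
  | succ n ih =>
    obtain ⟨s, h1, h2⟩ := ih ((MvPolynomial.finSuccEquiv K n P).coeff (I 0)) I.tail
    obtain ⟨t, h3, h4⟩ := A0_one_var ((MvPolynomial.finSuccEquiv K n P).map (MvPolynomial.eval s))
    refine ⟨Fin.cons t s, fun i => Fin.cases h3 h1 i, ?_⟩
    rw [MvPolynomial.finSuccEquiv_coeff_coeff, Finsupp.cons_tail] at h2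
    rw [MvPolynomial.aeval_eq_eval, MvPolynomial.eval_eq_eval_mv_eval']
    refine h2.trans (le_trans (le_of_eq ?_) (h4 (I 0)))
    rw [coeff_map, MvPolynomial.aeval_eq_eval]

theorem A0_GP (hw : Gen K w) (P : Pl K n) : ∃ ν : Fin n → K, (∀ i, ‖ν i‖ ≤ 1) ∧
    ‖MvPolynomial.aeval ν P‖ = ‖MvPolynomial.aeval w P‖ := by
  rcases P.support.eq_empty_or_nonempty with h | h
  · rw [MvPolynomial.support_eq_empty.1 h]
    exact ⟨0, fun _ => by simp, by simp⟩
  obtain ⟨I, -, hI⟩ := P.support.exists_max_image (fun I => ‖P.coeff I‖) h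
  obtain ⟨ν, h1, h2⟩ := A0_coef P I
  refine ⟨ν, h1, (A0_bd h1 (norm_nonneg _) (hw.2 P)).antisymm
    ((A0_bd hw.1 (norm_nonneg _) fun J => ?_).trans h2)⟩
  by_cases k : J ∈ P.support
  · exact hI J k
  · rw [MvPolynomial.notMem_support_iff.1 k, norm_zero]
    exact norm_nonneg _

omit [IsUltrametricDist K] [IsAlgClosed K] in
theorem A0_pos (hw : Gen K w) {P : Pl K n} (hP : P ≠ 0) : 0 < pz K w P := by
  obtain ⟨I, hI⟩ := MvPolynomial.ne_zero_iff.1 hP
  exact (norm_pos_iff.2 hI).trans_le (hw.2 P I)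

theorem A0_GPs (hw : Gen K w) (s : Finset (Pl K n)) (hs : ∀ P ∈ s, P ≠ 0) :
    ∃ ν : Fin n → K, (∀ i, ‖ν i‖ ≤ 1) ∧
      ∀ P ∈ s, ‖MvPolynomial.aeval ν P‖ = ‖MvPolynomial.aeval w P‖ := by
  obtain ⟨ν, h1, h2⟩ := A0_GP hw (∏ P ∈ s, P)
  rw [map_prod, map_prod, norm_prod, norm_prod] at h2
  exact ⟨ν, h1, A0_eq_of_prod (fun _ _ => norm_nonneg _)
    (fun P _ => A0_bd h1 (norm_nonneg _) (hw.2 P)) (fun P hP => A0_pos hw (hs P hP)) h2⟩

omit [IsUltrametricDist K] [IsAlgClosed K] in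
theorem A0_comp (hw : Gen K w) (P : Pl K n) (i : ℕ) :
    pz K w (MvPolynomial.homogeneousComponent i P) ≤ pz K w P := by
  refine A0_bd hw.1 (norm_nonneg _) fun I => ?_
  rw [MvPolynomial.coeff_homogeneousComponent]
  split_ifs
  exacts [hw.2 P I, norm_zero.trans_le (norm_nonneg _)]

omit [IsUltrametricDist K] [IsAlgClosed K] in
theorem A0_top (hw : Gen K w) {P : Pl K n} (hP : P ≠ 0) :
    ∃ D, D ∈ Finset.range (P.totalDegree + 1) ∧
      pz K w (MvPolynomial.homogeneousComponent D P) = pz K w P ∧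
      ∀ i ∈ Finset.range (P.totalDegree + 1), D < i →
        pz K w (MvPolynomial.homogeneousComponent i P) < pz K w P := by
  have ne : ((Finset.range (P.totalDegree + 1)).filter fun i =>
      pz K w (MvPolynomial.homogeneousComponent i P) = pz K w P).Nonempty := by
    by_contra k
    have := (pz K w).sum_lt (Finset.range (P.totalDegree + 1))
      (fun i => MvPolynomial.homogeneousComponent i P) (A0_pos hw hP) fun i hi =>
        (A0_comp hw P i).lt_of_ne fun e => k ⟨i, Finset.mem_filter.2 ⟨hi, e⟩⟩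
    rw [MvPolynomial.sum_homogeneousComponent] at this
    exact this.false
  obtain ⟨D, h1, h2⟩ := Finset.exists_max_image _ id ne
  exact ⟨D, (Finset.mem_filter.1 h1).1, (Finset.mem_filter.1 h1).2, fun i hi k =>
    (A0_comp hw P i).lt_of_ne fun e => k.not_ge (h2 i (Finset.mem_filter.2 ⟨hi, e⟩))⟩

omit [IsUltrametricDist K] [IsAlgClosed K] in
theorem A0_val (hw : Gen K w) {P : Pl K n} (hP : P ≠ 0) {D : ℕ}
    (d1 : D ∈ Finset.range (P.totalDegree + 1))
    (d3 : ∀ i ∈ Finset.range (P.totalDegree + 1), D < i →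
      pz K w (MvPolynomial.homogeneousComponent i P) < pz K w P) :
    ∀ᶠ r in 𝓝 (1 : ℝ), ∀ (t : L) (v : Fin n → L), ‖t‖ = r → 1 < r → (∀ i, ‖v i‖ ≤ 1) →
      pz K v (MvPolynomial.homogeneousComponent D P) = pz K w P →
      pz K (fun i => t * v i) P = r ^ D * pz K w P := by
  have p0 := A0_pos hw hP
  have ev : ∀ᶠ r in 𝓝 (1 : ℝ), ∀ i ∈ Finset.range (P.totalDegree + 1), D < i →
      r ^ i * pz K w (MvPolynomial.homogeneousComponent i P) < pz K w P := by
    rw [Filter.eventually_all_finset]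
    intro i hi
    by_cases k : D < i
    · have c : Continuous fun r : ℝ => r ^ i * pz K w (MvPolynomial.homogeneousComponent i P) := by
        fun_prop
      exact (c.continuousAt.eventually_lt continuousAt_const (by simpa using d3 i hi k)).mono
        fun _ h _ => h
    · exact Eventually.of_forall fun _ h => absurd h k
  filter_upwards [ev] with r hr t v ht r1 hv e
  have r0 : 0 < r := one_pos.trans r1
  have hc : ∀ i, pz K (fun i => t * v i) (MvPolynomial.homogeneousComponent i P) =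
      r ^ i * pz K v (MvPolynomial.homogeneousComponent i P) := fun i => by
    rw [pz_apply, A0_hom (MvPolynomial.homogeneousComponent_isHomogeneous _ _), norm_mul, norm_pow,
      ht, pz_apply]
  have h2 : pz K (fun i => t * v i) (∑ i ∈ (Finset.range (P.totalDegree + 1)).erase D,
      MvPolynomial.homogeneousComponent i P) < r ^ D * pz K w P := by
    refine Sn.sum_lt _ _ _ (by positivity) fun i hi => ?_
    have l1 : pz K v (MvPolynomial.homogeneousComponent i P) ≤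
      pz K w (MvPolynomial.homogeneousComponent i P) := A0_le hw hv _
    rw [hc]
    refine (mul_le_mul_of_nonneg_left l1 (by positivity)).trans_lt ?_
    rcases lt_or_gt_of_ne (Finset.ne_of_mem_erase hi) with k | k
    · exact (mul_le_mul_of_nonneg_left (A0_comp hw P i) (by positivity)).trans_lt
        (mul_lt_mul_of_pos_right (pow_lt_pow_right₀ r1 k) p0)
    · exact (hr i (Finset.mem_of_mem_erase hi) k).trans_le
        (le_mul_of_one_le_left p0.le (one_le_pow₀ r1.le))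
  nth_rewrite 1 [← MvPolynomial.sum_homogeneousComponent P]
  rw [← Finset.add_sum_erase _ _ d1, Sn.add_eq _ (by rw [hc, e]; exact h2), hc, e]

theorem A0_shear {m : ℕ} {w : Fin (m + 1) → L} (hw : Gen K w) {N : Set (Sn K (Pl K (m + 1)))}
    (hN : N ∈ 𝓝 (pz K w)) : ∃ ν : Fin (m + 1) → K, ν 0 = 1 ∧ (∀ i, ‖ν i‖ ≤ 1) ∧ ∃ r₀ > 1,
      ∀ (t : L) (y : Fin m → L), 1 < ‖t‖ → ‖t‖ < r₀ → (∀ i, ‖y i‖ ≤ 1) →
        pz K (ln (Fin.cons 0 y) (fun i => algebraMap K L (ν i)) t) ∈ N := by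
  classical
  obtain ⟨s, ε, hε, hs⟩ := Sn.basis _ hN
  choose! D d1 d2 d3 using fun (P : Pl K (m + 1)) (hP : P ≠ 0) => A0_top hw hP
  obtain ⟨ν, n1, n2⟩ := A0_GPs hw (insert (MvPolynomial.X 0)
    ((s.erase 0).image fun P => MvPolynomial.homogeneousComponent (D P) P)) fun Q hQ => by
      rcases Finset.mem_insert.1 hQ with rfl | hQ
      · exact MvPolynomial.X_ne_zero _
      · obtain ⟨P, hP, rfl⟩ := Finset.mem_image.1 hQ
        intro e
        have := d2 P (Finset.ne_of_mem_erase hP)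
        rw [e, Sn.zero] at this
        exact (A0_pos hw (Finset.ne_of_mem_erase hP)).ne this
  have n0 : ‖ν 0‖ = 1 := by
    have := n2 _ (Finset.mem_insert_self _ _)
    rwa [MvPolynomial.aeval_X, MvPolynomial.aeval_X, A0_one hw] at this
  have n3 : ν 0 ≠ 0 := norm_pos_iff.1 (n0 ▸ one_pos)
  have n4 : ∀ i, ‖(ν 0)⁻¹ * ν i‖ ≤ 1 := fun i => by
    rw [norm_mul, norm_inv, n0, inv_one, one_mul]
    exact n1 i
  have ev : ∀ᶠ r in 𝓝 (1 : ℝ), ∀ P ∈ s.erase 0, |r ^ D P * pz K w P - pz K w P| < ε ∧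
      ∀ (t : L) (v : Fin (m + 1) → L), ‖t‖ = r → 1 < r → (∀ i, ‖v i‖ ≤ 1) →
        pz K v (MvPolynomial.homogeneousComponent (D P) P) = pz K w P →
        pz K (fun i => t * v i) P = r ^ D P * pz K w P := by
    rw [Filter.eventually_all_finset]
    intro P hP
    have h0 := Finset.ne_of_mem_erase hP
    refine Eventually.and ?_ (A0_val hw h0 (d1 P h0) (d3 P h0))
    have c : Continuous fun r : ℝ => |r ^ D P * pz K w P - pz K w P| := by fun_prop
    exact c.continuousAt.eventually_lt continuousAt_const (by simpa using hε)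
  obtain ⟨l, r₀, ⟨r1, r2⟩, r3⟩ := mem_nhds_iff_exists_Ioo_subset.1 ev
  refine ⟨fun i => (ν 0)⁻¹ * ν i, inv_mul_cancel₀ n3, n4, r₀, r2, fun t y t1 t2 hy =>
    hs _ fun P hP => ?_⟩
  by_cases h0 : P = 0
  · rw [h0, Sn.zero, Sn.zero, sub_zero, abs_zero]
    exact hε
  have hP' := Finset.mem_erase.2 ⟨h0, hP⟩
  obtain ⟨e1, e2⟩ := r3 ⟨r1.trans t1, t2⟩ P hP'
  have t0 : t ≠ 0 := norm_pos_iff.1 (one_pos.trans t1)
  have i1 : ‖t‖⁻¹ < 1 := inv_lt_one_of_one_lt₀ t1
  have y1 : ∀ i, ‖t⁻¹ * (Fin.cons 0 y : Fin (m + 1) → L) i‖ ≤ ‖t‖⁻¹ := fun i => by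
    rw [norm_mul, norm_inv]
    exact mul_le_of_le_one_right (by positivity) (Fin.cases (by simp) hy i)
  have a1 : ∀ i, ‖algebraMap K L ((ν 0)⁻¹ * ν i)‖ ≤ 1 := fun i => by
    rw [norm_algebraMap']
    exact n4 i
  have v1 : ∀ i, ‖t⁻¹ * (Fin.cons 0 y : Fin (m + 1) → L) i + algebraMap K L ((ν 0)⁻¹ * ν i)‖ ≤ 1 :=
    fun i => (IsUltrametricDist.norm_add_le_max _ _).trans (max_le ((y1 i).trans i1.le) (a1 i))
  have e3 : ln (Fin.cons 0 y) (fun i => algebraMap K L ((ν 0)⁻¹ * ν i)) t = fun i =>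
      t * (t⁻¹ * (Fin.cons 0 y : Fin (m + 1) → L) i + algebraMap K L ((ν 0)⁻¹ * ν i)) := by
    funext i
    rw [mul_add, mul_inv_cancel_left₀ t0]
    rfl
  rw [e3, e2 t _ rfl t1 v1 ?_]
  · exact e1
  rw [← d2 P h0]
  refine A0_close hw v1 a1 (by positivity) i1 (fun i => by rw [add_sub_cancel_right]; exact y1 i) ?_
  refine (congrArg norm (MvPolynomial.aeval_algebraMap_apply L (fun i => (ν 0)⁻¹ * ν i) _)).trans ?_
  rw [norm_algebraMap',
    A0_hom (MvPolynomial.homogeneousComponent_isHomogeneous _ _), norm_mul, norm_pow, norm_inv, n0,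
    inv_one, one_pow, one_mul]
  exact n2 _ (Finset.mem_insert_of_mem (Finset.mem_image_of_mem _ hP'))

end Pool.Agent.Work.MP_e120ef_ag.Br
end

-- merged part: Pool.Agent.Work.MP_e120ef_ag.Br.V8
section
/-! V8 the unit circle, identity theorem, zeros.  Plan UD': `poly_ind'` with Z = {|b| != 1}; product of
c X^k + e and c' X^k' + e'.  UD from `coeff_le_gs`.  LC: `gs_le_of_circle`, `coeff_le_gs`,
`gs_le_of_coeff`, `norm_eval_le`; LCz: multiply by s^m.  CP.exists_zero: M = |Psi t1|, p0 of error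
< M, N = natDegree p0, G = gs p0 >= M.  Every p of error < M has gs p = G and at most N roots in the
disc (p = v p2 by `exists_factor`; if deg v > N then p0 is the remainder of p0 - p modulo v after
replacing 1 by h p2, or compare the last index where the Taylor coefficients attain G), hence
|p t| < G gives a root b with G (|t-b|/r)^N <= |p t|.  Roots t_(k+1) of p_k near t_k form a Cauchy
sequence, Psi is continuous on the disc. -/

set_option linter.unusedSectionVars false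

open Filter Topology Polynomial

namespace Pool.Agent.Work.MP_e120ef_ag.Br

variable {L : Type} [NontriviallyNormedField L] [IsUltrametricDist L] [IsAlgClosed L] [Om L]
  {a a' b c t : L} {ρ ρ' r s ε : ℝ} {p q : L[X]} {S E : Set L} {Φ Ψ : L → L}

theorem V8_mon (c : L) (k : ℕ) : gs 0 1 (C c * X ^ k) = ‖c‖ := by
  have h : gs 0 1 (X : L[X]) = 1 := by simpa using gs_X_sub_C (0 : L) 1 0
  rw [gs_mul, gs_pow, gs_C, h, one_pow, mul_one]

theorem V8_eq {x y : L} (h : ‖x - y‖ < ‖y‖) : ‖x‖ = ‖y‖ := by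
  have := IsUltrametricDist.norm_add_eq_max_of_norm_ne_norm h.ne
  rwa [sub_add_cancel, max_eq_right h.le] at this

theorem V8_le {x y : L} {M : ℝ} (h : ‖x - y‖ ≤ M) (h' : ‖y‖ ≤ M) : ‖x‖ ≤ M := by
  have := IsUltrametricDist.norm_add_le_max (x - y) y
  rw [sub_add_cancel] at this
  exact this.trans (max_le h h')

theorem V8_tri {x y z : L} {M : ℝ} (h : ‖x - y‖ ≤ M) (h' : ‖y - z‖ ≤ M) : ‖x - z‖ ≤ M :=
  V8_le (y := y - z) (by rwa [sub_sub_sub_cancel_right]) h'

theorem UD' (h : ∀ s : L, ‖s‖ = 1 → p.eval s ≠ 0) :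
    ∃ (c : L) (k : ℕ), gs 0 1 (p - C c * X ^ k) < ‖c‖ := by
  refine poly_ind' (P := fun p => ∃ (c : L) (k : ℕ), gs 0 1 (p - C c * X ^ k) < ‖c‖)
    (Z := {b | ‖b‖ ≠ 1}) (fun c hc => ⟨c, 0, ?_⟩) (fun b hb => ?_) ?_
    (fun e => h 1 norm_one (by rw [e, eval_zero])) fun b hb e => h b e hb
  · simpa [gs_zero] using hc
  · rcases lt_or_gt_of_ne hb with hb | hb
    · refine ⟨1, 1, ?_⟩
      have e : X - C b - C 1 * X ^ 1 = -C b := by simp
      rwa [e, gs_neg, gs_C, norm_one]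
    · refine ⟨-b, 0, ?_⟩
      have e : X - C b - C (-b) * X ^ 0 = C 1 * X ^ 1 := by simp
      rwa [e, V8_mon, norm_one, norm_neg]
  · rintro p q ⟨c, k, hp⟩ ⟨c', k', hq⟩
    refine ⟨c * c', k + k', ?_⟩
    have e : p * q - C (c * c') * X ^ (k + k') =
        (p - C c * X ^ k) * q + C c * X ^ k * (q - C c' * X ^ k') := by
      rw [map_mul]; ring
    have h1 : gs 0 1 q ≤ ‖c'‖ := by
      have := gs_add 0 1 (q - C c' * X ^ k') (C c' * X ^ k')
      rw [sub_add_cancel, V8_mon] at this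
      exact this.trans (max_le hq.le le_rfl)
    have h2 : 0 < ‖c‖ := (gs_nonneg _ _ _).trans_lt hp
    have h3 : 0 < ‖c'‖ := (gs_nonneg _ _ _).trans_lt hq
    rw [e, norm_mul]
    refine (gs_add _ _ _ _).trans_lt (max_lt ?_ ?_)
    · rw [gs_mul]
      exact (mul_le_mul_of_nonneg_left h1 (gs_nonneg _ _ _)).trans_lt
        (mul_lt_mul_of_pos_right hp h3)
    · rw [gs_mul, V8_mon]
      exact mul_lt_mul_of_pos_left hq h2

theorem UD (h : ∀ s : L, ‖s‖ = 1 → p.eval s ≠ 0) :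
    ∃ k, p.coeff k ≠ 0 ∧ ∀ i, i ≠ k → ‖p.coeff i‖ < ‖p.coeff k‖ := by
  obtain ⟨c, k, hc⟩ := UD' h
  have h1 : ∀ i, ‖(p - C c * X ^ k).coeff i‖ < ‖c‖ := fun i => by
    have := coeff_le_gs zero_le_one (p - C c * X ^ k) i
    rw [one_pow, mul_one] at this
    exact this.trans_lt hc
  have h2 : ‖p.coeff k‖ = ‖c‖ := V8_eq (by simpa using h1 k)
  refine ⟨k, norm_pos_iff.1 (h2 ▸ (norm_nonneg _).trans_lt (h1 0)), fun i hi => ?_⟩
  have := h1 i
  rwa [coeff_sub, coeff_C_mul_X_pow, if_neg hi, sub_zero, ← h2] at this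

theorem LC (hE : E.Finite) :
    (∀ s : L, ‖s‖ = 1 → s ∉ E → ‖p.eval s‖ ≤ ε) ↔ ∀ i, ‖p.coeff i‖ ≤ ε := by
  refine ⟨fun h i => ?_, fun h s hs _ => ?_⟩
  · have h1 : gs 0 1 p ≤ ε := gs_le_of_circle one_pos hE fun t ht => h t (by simpa using ht)
    have := coeff_le_gs zero_le_one p i
    rw [one_pow, mul_one] at this
    exact this.trans h1
  · exact (norm_eval_le (a := 0) (ρ := 1) (by simpa using hs.le) p).trans
      (gs_le_of_coeff zero_le_one fun k => by simpa using h k)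

theorem LCz (hE : E.Finite) (F : ℤ →₀ L) :
    (∀ s : L, ‖s‖ = 1 → s ∉ E → ‖F.sum fun i c => c * s ^ i‖ ≤ ε) ↔ ∀ i, ‖F i‖ ≤ ε := by
  refine ⟨fun h i => ?_, fun h s hs _ => ?_⟩
  · obtain ⟨m, hm⟩ : ∃ m : ℕ, ∀ j ∈ F.support, 0 ≤ j + m := by
      refine ⟨∑ j ∈ F.support, j.natAbs, fun j hj => ?_⟩
      have := Finset.single_le_sum (f := fun j : ℤ => j.natAbs) (fun _ _ => Nat.zero_le _) hj
      omega
    have h1 := (LC (p := ∑ j ∈ F.support, C (F j) * X ^ (j + m).toNat) (ε := ε) hE).1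
      fun s hs hsE => by
        have h0 : s ≠ 0 := norm_pos_iff.1 (hs ▸ one_pos)
        have e : eval s (∑ j ∈ F.support, C (F j) * X ^ (j + m).toNat) =
            (F.sum fun i c => c * s ^ i) * s ^ m := by
          rw [eval_finsetSum, Finsupp.sum, Finset.sum_mul]
          refine Finset.sum_congr rfl fun j hj => ?_
          rw [eval_mul, eval_C, eval_pow, eval_X, ← zpow_natCast, Int.toNat_of_nonneg (hm j hj),
            zpow_add₀ h0, zpow_natCast, mul_assoc]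
        rw [e, norm_mul, norm_pow, hs, one_pow, mul_one]
        exact h s hs hsE
    by_cases hi : i ∈ F.support
    · have := h1 (i + m).toNat
      rwa [finsetSum_coeff, Finset.sum_eq_single i, coeff_C_mul_X_pow, if_pos rfl] at this
      · intro j hj hji
        rw [coeff_C_mul_X_pow, if_neg]
        have := hm i hi
        have := hm j hj
        omega
      · exact fun k => absurd hi k
    · rw [Finsupp.notMem_support_iff.1 hi, norm_zero]
      exact (norm_nonneg _).trans (h1 0)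
  · refine IsUltrametricDist.norm_sum_le_of_forall_le_of_nonneg
      ((norm_nonneg _).trans (h 0)) fun i _ => ?_
    rw [norm_mul, norm_zpow, hs, one_zpow, mul_one]
    exact h i

theorem ID {E' : Set L} (hr : 0 < r) (hE : E.Finite) (hE' : E'.Finite) (h : CP a r E Ψ)
    (h0 : ∀ t, ‖t - a‖ = r → t ∉ E' → Ψ t = 0) (ht : ‖t - a‖ ≤ r) (htE : t ∉ E) : Ψ t = 0 := by
  refine norm_le_zero_iff.1 (le_of_forall_pos_le_add fun ε hε => ?_)
  obtain ⟨p, hp⟩ := h ε hε
  have h1 : gs a r p ≤ ε := gs_le_of_circle hr (hE.union hE') fun u hu huE => by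
    have := hp u hu.le fun k => huE (Or.inl k)
    rwa [h0 u hu fun k => huE (Or.inr k), zero_sub, norm_neg] at this
  rw [zero_add]
  exact V8_le (hp t ht htE) ((norm_eval_le ht p).trans h1)

theorem no_root (h : ∀ t, ‖t - a‖ ≤ ρ → p.eval t ≠ 0) (ht : ‖t - a‖ ≤ ρ) :
    ‖p.eval t - p.eval a‖ < ‖p.eval a‖ := by
  have := norm_eval_le ht (p - C (p.eval a))
  rw [eval_sub, eval_C] at this
  exact this.trans_lt (NR ((norm_nonneg _).trans ht) h)

theorem exists_root (ht : ‖t - a‖ ≤ ρ) (h : ‖p.eval t‖ < gs a ρ p) :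
    ∃ b, p.eval b = 0 ∧ ‖t - b‖ < ρ := by
  by_contra k
  exact h.ne (norm_eval_eq ht fun b hb => not_lt.1 fun k' => k ⟨b, hb, k'⟩)

/-- a disc on which `Ψ` is bounded by `g` and has a norm that is not constant -/
def V8_Q (a : L) (r : ℝ) (Ψ : L → L) (g : ℝ) (x : L × ℝ) : Prop :=
  ‖x.1 - a‖ ≤ r ∧ 0 ≤ x.2 ∧ x.2 ≤ r ∧ (∀ t, ‖t - x.1‖ ≤ x.2 → ‖Ψ t‖ ≤ g) ∧
    ∃ t₀ t₁, ‖t₀ - x.1‖ ≤ x.2 ∧ ‖t₁ - x.1‖ ≤ x.2 ∧ ‖Ψ t₀‖ < ‖Ψ t₁‖

theorem V8_step (h : CP a r ∅ Ψ) {g : ℝ} {x : L × ℝ} (hx : V8_Q a r Ψ g x) :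
    ∃ y, V8_Q a r Ψ (g / 2) y ∧ ‖y.1 - x.1‖ ≤ x.2 ∧ y.2 ≤ x.2 := by
  obtain ⟨b, s⟩ := x
  obtain ⟨h1, h2, h3, h4, t₀, t₁, k0, k1, hlt⟩ := hx
  simp only at h1 h2 h3 h4 k0 k1 ⊢
  have hM : 0 < ‖Ψ t₁‖ := (norm_nonneg _).trans_lt hlt
  have hg := h4 t₁ k1
  obtain ⟨p, hp⟩ := h (‖Ψ t₁‖ / 4) (by positivity)
  have hp' : ∀ t, ‖t - b‖ ≤ s → ‖Ψ t - p.eval t‖ ≤ ‖Ψ t₁‖ / 4 := fun t ht =>
    hp t (V8_tri (ht.trans h3) h1) fun k => k
  have e1 : ‖p.eval t₁‖ = ‖Ψ t₁‖ :=
    V8_eq (by rw [norm_sub_rev]; exact (hp' t₁ k1).trans_lt (by linarith))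
  have e2 : ‖Ψ t₁‖ ≤ gs b s p := e1 ▸ norm_eval_le k1 p
  have e3 : ‖p.eval t₀‖ ≤ max (‖Ψ t₁‖ / 4) ‖Ψ t₀‖ :=
    V8_le (by rw [norm_sub_rev]; exact (hp' t₀ k0).trans (le_max_left _ _)) (le_max_right _ _)
  obtain ⟨b', hb', hb⟩ := exists_root k0 ((e3.trans_lt (max_lt (by linarith) hlt)).trans_le e2)
  have hbb : ‖b' - b‖ ≤ s := V8_tri (by rw [norm_sub_rev]; exact hb.le) k0
  have e4 : gs b' 0 p = 0 := by rw [gs_nonpos le_rfl, hb', norm_zero]
  obtain ⟨s', ⟨hs0, hs⟩, hs'⟩ := intermediate_value_Icc h2 (continuous_gs b' p).continuousOn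
    (show ‖Ψ t₁‖ / 2 ∈ Set.Icc (gs b' 0 p) (gs b' s p) by
      rw [e4, gs_congr hbb]
      constructor <;> linarith)
  simp only at hs'
  have hpos : 0 < s' := hs0.lt_of_ne fun e => by
    rw [← e, e4] at hs'
    linarith
  obtain ⟨u, -, hu, hu'⟩ := GP1 b' hpos Set.finite_empty p
  have hd : ∀ t, ‖t - b'‖ ≤ s' → ‖t - b‖ ≤ s := fun t ht => V8_tri (ht.trans hs) hbb
  refine ⟨(b', s'), ⟨V8_tri (hbb.trans h3) h1, hs0, hs.trans h3, fun t ht => ?_, b', u,
    by simpa using hs0, hu.le, ?_⟩, hbb, hs⟩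
  · exact V8_le ((hp' t (hd t ht)).trans (by linarith))
      ((norm_eval_le ht p).trans (by rw [hs']; linarith))
  · have e5 := hp' b' hbb
    rw [hb', sub_zero] at e5
    have e6 : ‖Ψ u‖ = ‖p.eval u‖ :=
      V8_eq ((hp' u (hd u hu.le)).trans_lt (by rw [hu', hs']; linarith))
    rw [e6, hu', hs']
    linarith

theorem CP.exists_zero [CompleteSpace L] (hr : 0 < r) (h : CP a r ∅ Ψ) {t₀ t₁ : L}
    (h₀ : ‖t₀ - a‖ ≤ r) (h₁ : ‖t₁ - a‖ ≤ r) (hlt : ‖Ψ t₀‖ < ‖Ψ t₁‖) :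
    ∃ t, ‖t - a‖ ≤ r ∧ Ψ t = 0 := by
  obtain ⟨g, hg⟩ := h.bdd
  have h0 : V8_Q a r Ψ (g / 2 ^ 0) (a, r) :=
    ⟨by simpa using hr.le, hr.le, le_rfl, fun t ht => by simpa using hg t ht fun k => k,
      t₀, t₁, h₀, h₁, hlt⟩
  have st : ∀ (n : ℕ) (x : {x // V8_Q a r Ψ (g / 2 ^ n) x}),
      ∃ y : {x // V8_Q a r Ψ (g / 2 ^ (n + 1)) x}, ‖y.1.1 - x.1.1‖ ≤ x.1.2 ∧ y.1.2 ≤ x.1.2 := by
    intro n x
    obtain ⟨y, hy, k⟩ := V8_step h x.2
    exact ⟨⟨y, by rwa [pow_succ, ← div_div]⟩, k⟩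
  choose f hf using st
  let u : ∀ n : ℕ, {x // V8_Q a r Ψ (g / 2 ^ n) x} := fun n => Nat.rec ⟨_, h0⟩ f n
  obtain ⟨x, hx⟩ := Om.sph (L := L) (fun n => (u n).1.1) (fun n => (u n).1.2)
    (fun n => (u n).2.2.1) (antitone_nat_of_succ_le fun n t ht => by
      rw [mem_closedBall_iff_norm] at ht ⊢
      exact V8_tri (ht.trans (hf n (u n)).2) (hf n (u n)).1)
  simp only [mem_closedBall_iff_norm] at hx
  refine ⟨x, hx 0, norm_le_zero_iff.1 ?_⟩
  have hl : Tendsto (fun n : ℕ => g / 2 ^ n) atTop (𝓝 0) :=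
    tendsto_const_nhds.div_atTop (tendsto_pow_atTop_atTop_of_one_lt one_lt_two)
  exact ge_of_tendsto' hl fun n => (u n).2.2.2.2.1 x (hx n)

end Pool.Agent.Work.MP_e120ef_ag.Br
end

-- merged part: Pool.Agent.Work.MP_e120ef_ag.Br.A1
section
/-! Functions without zeros on the tube `‖z 0‖ = 1`, `‖z i‖ ≤ 1`; Laurent approximation.

Plans.  `A1_norm`: for `z` in the tube put `f = lnP K z (w - z) q`; `f.eval 1 = q(w)`, so
`‖q w‖ ≤ gs 0 1 f` (`norm_eval_le`); if `‖q z‖ < ‖q w‖`, `exists_root` (at `t = 0`) gives a root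
`b`, `‖b‖ < 1`, and `ln z (w - z) b` is in the tube.  So `‖q z‖ = ‖q w‖` (`A0_le`).
`tube`: `Q = MvPolynomial.finSuccEquiv K m q`, `w' = Fin.tail w` (`Gen K w'`: `A1_tail`, rename
along `Fin.succ`); `aeval (Fin.cons s y) q = (Q.map (aeval y)).eval s`.  `UD` for
`Q.map (aeval w')` gives `k`; `‖q w‖ = ‖Q_k(w')‖` (dominant term, `A0_one`).  For `y` in the
polydisc, `q (1, y) = ∑ Q_i(y)`, `‖Q_i(y)‖ ≤ ‖Q_i(w')‖`, so `‖Q_k(y)‖ = ‖q w‖ ≠ 0`.  `no_root` for
`lnP K 0 w' Q_k` gives `‖Q_k(w') - c‖ < ‖c‖`, `c = constantCoeff Q_k`.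
`tube_lau`: with `e = q - c X₀ ^ k`, `x = e / (c s ^ k)`, `‖x‖ ≤ δ < 1` on the tube (`A0_le`),
`1 / q - (c s ^ k)⁻¹ ∑_{j < M} (-x) ^ j = (-x) ^ M / q`; everything is the image under the ring map
`LaurentPolynomial.eval₂` of an expression in `toLaurent (finSuccEquiv ..)`, `C`, `T`. -/

open Filter Topology Polynomial LaurentPolynomial

namespace Pool.Agent.Work.MP_e120ef_ag.Br

variable {K : Type} [NontriviallyNormedField K] {m : ℕ} {L : Type} [NontriviallyNormedField L]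
  [IsUltrametricDist L] [NormedAlgebra K L] [IsAlgClosed L] [Om L] {w : Fin (m + 1) → L}

omit [IsUltrametricDist L] [IsAlgClosed L] [Om L] in
theorem A1_tail (hw : Gen K w) : Gen K (Fin.tail w) := ⟨fun i => hw.1 _, fun P I => by
  have := hw.2 (MvPolynomial.rename Fin.succ P) (I.mapDomain Fin.succ)
  rwa [MvPolynomial.coeff_rename_mapDomain _ (Fin.succ_injective m),
    MvPolynomial.aeval_rename] at this⟩

omit [IsUltrametricDist L] [IsAlgClosed L] [Om L] in
theorem A1_cons {y : Fin m → L} {s : L} (hy : ∀ i, ‖y i‖ ≤ 1) (hs : ‖s‖ ≤ 1) (i : Fin (m + 1)) :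
    ‖(Fin.cons s y : Fin (m + 1) → L) i‖ ≤ 1 := Fin.cases hs hy i

/-- `q (·, y)` as a polynomial in one variable -/
noncomputable def A1_p (y : Fin m → L) (q : Pl K (m + 1)) : L[X] :=
  (MvPolynomial.finSuccEquiv K m q).map (MvPolynomial.aeval y : Pl K m →ₐ[K] L).toRingHom

omit [IsUltrametricDist L] [IsAlgClosed L] [Om L] in
theorem A1_coeff (y : Fin m → L) (q : Pl K (m + 1)) (i : ℕ) : (A1_p y q).coeff i =
    MvPolynomial.aeval y ((MvPolynomial.finSuccEquiv K m q).coeff i) := coeff_map _ _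

omit [IsUltrametricDist L] [IsAlgClosed L] [Om L] in
theorem A1_ev (y : Fin m → L) (s : L) (q : Pl K (m + 1)) :
    (A1_p y q).eval s = MvPolynomial.aeval (Fin.cons s y : Fin (m + 1) → L) q := by
  induction q using MvPolynomial.induction_on with
  | C c => simp [A1_p, MvPolynomial.finSuccEquiv_apply]
  | add p q hp hq =>
    rw [map_add, ← hp, ← hq, A1_p, A1_p, A1_p, map_add, Polynomial.map_add, eval_add]
  | mul_X p i hp =>
    rw [map_mul, ← hp, A1_p, A1_p, map_mul, Polynomial.map_mul, eval_mul]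
    congr 1
    refine Fin.cases ?_ (fun j => ?_) i
    · simp [MvPolynomial.finSuccEquiv_X_zero]
    · simp [MvPolynomial.finSuccEquiv_X_succ]

theorem A1_lt {p : L[X]} {s : L} {G : ℝ} (hs : ‖s‖ ≤ 1) (h : ∀ i, ‖p.coeff i‖ < G) :
    ‖p.eval s‖ < G := by
  obtain ⟨k, e⟩ := exists_coeff_eq_gs zero_le_one p
  rw [one_pow, mul_one] at e
  exact ((norm_eval_le (by rwa [sub_zero]) p).trans e.ge).trans_lt (h k)

theorem A1_norm (hw : Gen K w) {q : Pl K (m + 1)}
    (hq : ∀ z : Fin (m + 1) → L, (∀ i, ‖z i‖ ≤ 1) → ‖z 0‖ = 1 → MvPolynomial.aeval z q ≠ 0)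
    {z : Fin (m + 1) → L} (hz : ∀ i, ‖z i‖ ≤ 1) (h0 : ‖z 0‖ = 1) :
    ‖MvPolynomial.aeval z q‖ = ‖MvPolynomial.aeval w q‖ := by
  refine (A0_le hw hz q).antisymm (le_of_not_gt fun h => ?_)
  have e1 : ln z (w - z) 1 = w := funext fun i => by simp [ln]
  have e0 : ln z (w - z) 0 = z := funext fun i => by simp [ln]
  have h1 := norm_eval_le (a := 0) (t := 1) (ρ := 1) (by simp) (lnP K z (w - z) q)
  rw [eval_lnP, e1] at h1
  obtain ⟨b, hb, hb1⟩ := exists_root (a := 0) (t := 0) (ρ := 1) (p := lnP K z (w - z) q) (by simp)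
    (by rw [eval_lnP, e0]; exact h.trans_le h1)
  rw [zero_sub, norm_neg] at hb1
  have h2 : ∀ i, ‖ln z (w - z) b i - z i‖ < 1 := fun i => by
    have : ‖w i - z i‖ ≤ 1 := V8_tri (y := 0) (by simpa using hw.1 i) (by simpa using hz i)
    rw [ln, add_sub_cancel_left, norm_mul]
    exact mul_lt_one_of_nonneg_of_lt_one_left (norm_nonneg _) hb1 this
  rw [eval_lnP] at hb
  exact hq _ (fun i => V8_le (h2 i).le (hz i)) ((V8_eq (h0 ▸ h2 0)).trans h0) hb

theorem tube (hw : Gen K w) {q : Pl K (m + 1)}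
    (hq : ∀ z : Fin (m + 1) → L, (∀ i, ‖z i‖ ≤ 1) → ‖z 0‖ = 1 → MvPolynomial.aeval z q ≠ 0) :
    ∃ (c : K) (k : ℕ),
      ‖MvPolynomial.aeval w (q - MvPolynomial.C c * MvPolynomial.X 0 ^ k)‖ < ‖c‖ := by
  have hw' := A1_tail hw
  obtain ⟨k, hk0, hk⟩ := UD (p := A1_p (Fin.tail w) q) fun s hs => by
    rw [A1_ev]
    exact hq _ (A1_cons hw'.1 hs.le) hs
  set G := ‖(A1_p (Fin.tail w) q).coeff k‖ with hG
  have hG0 : 0 < G := norm_pos_iff.2 hk0
  have h1 : G ≤ ‖MvPolynomial.aeval w q‖ := by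
    obtain ⟨t, -, ht, e⟩ := GP1 (0 : L) one_pos Set.finite_empty (A1_p (Fin.tail w) q)
    have := coeff_le_gs zero_le_one (A1_p (Fin.tail w) q) k
    rw [one_pow, mul_one, ← e, A1_ev] at this
    exact this.trans (A0_le hw (A1_cons hw'.1 (by rw [← ht, sub_zero])) q)
  have h2 : ∀ y : Fin m → L, (∀ i, ‖y i‖ ≤ 1) →
      MvPolynomial.aeval y ((MvPolynomial.finSuccEquiv K m q).coeff k) ≠ 0 := fun y hy h0 => by
    have := A1_lt (p := A1_p y q) (s := 1) (G := G) norm_one.le fun i => by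
      by_cases hi : i = k
      · rw [hi, A1_coeff, h0, norm_zero]; exact hG0
      · refine lt_of_le_of_lt ?_ (hk i hi)
        rw [A1_coeff, A1_coeff]
        exact A0_le hw' hy _
    rw [A1_ev, A1_norm hw hq (A1_cons hy norm_one.le) norm_one] at this
    exact this.not_ge h1
  have h3 := no_root (a := 0) (ρ := 1) (t := 1)
    (p := lnP K 0 (Fin.tail w) ((MvPolynomial.finSuccEquiv K m q).coeff k)) (fun t ht => by
      rw [eval_lnP]
      refine h2 _ fun i => ?_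
      rw [ln, Pi.zero_apply, zero_add, norm_mul]
      exact mul_le_one₀ (by rwa [sub_zero] at ht) (norm_nonneg _) (hw'.1 i)) (by simp)
  have e1 : ln 0 (Fin.tail w) 1 = Fin.tail w := funext fun i => by simp [ln]
  have e0 : ln 0 (Fin.tail w) 0 = 0 := funext fun i => by simp [ln]
  rw [eval_lnP, eval_lnP, e1, e0, MvPolynomial.aeval_zero, ← A1_coeff] at h3
  have h4 := V8_eq h3
  refine ⟨MvPolynomial.constantCoeff ((MvPolynomial.finSuccEquiv K m q).coeff k), k, ?_⟩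
  generalize MvPolynomial.constantCoeff ((MvPolynomial.finSuccEquiv K m q).coeff k) = c at h3 h4
  have := A1_lt (p := A1_p (Fin.tail w) q - Polynomial.C (algebraMap K L c) * X ^ k) (s := w 0)
    (G := ‖algebraMap K L c‖) (hw.1 0) fun i => by
      rw [coeff_sub, coeff_C_mul_X_pow]
      by_cases hi : i = k
      · rw [if_pos hi, hi]; exact h3
      · rw [if_neg hi, sub_zero, ← h4]; exact hk i hi
  rw [norm_algebraMap', eval_sub, A1_ev, Fin.cons_self_tail] at this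
  simpa using this

theorem tube_lau (hw : Gen K w) {φ : (Fin (m + 1) → L) → L}
    (h : ∀ ε > 0, ∃ p q : Pl K (m + 1), ∀ z : Fin (m + 1) → L, (∀ i, ‖z i‖ ≤ 1) → ‖z 0‖ = 1 →
      MvPolynomial.aeval z q ≠ 0 ∧ ‖φ z - MvPolynomial.aeval z p / MvPolynomial.aeval z q‖ ≤ ε)
    {ε : ℝ} (hε : 0 < ε) : ∃ F : (Pl K m)[T;T⁻¹], ∀ (y : Fin m → L) (s : Lˣ), (∀ i, ‖y i‖ ≤ 1) →
      ‖(s : L)‖ = 1 → ‖φ (Fin.cons s y) - LaurentPolynomial.eval₂
        (MvPolynomial.aeval y : Pl K m →ₐ[K] L).toRingHom s F‖ ≤ ε := by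
  obtain ⟨p, q, hpq⟩ := h ε hε
  obtain ⟨c, k, hc⟩ := tube hw fun z hz h0 => (hpq z hz h0).1
  set e := q - MvPolynomial.C c * MvPolynomial.X 0 ^ k with he
  have hc0 : 0 < ‖c‖ := (norm_nonneg _).trans_lt hc
  have hδ : ‖MvPolynomial.aeval w e‖ / ‖c‖ < 1 := (div_lt_one hc0).2 hc
  obtain ⟨M, hM⟩ := (((tendsto_pow_atTop_nhds_zero_of_lt_one (by positivity) hδ).const_mul
    (‖MvPolynomial.aeval w p‖ / ‖c‖)).eventually_le_const (u := ε) (by rwa [mul_zero])).exists
  refine ⟨toLaurent (MvPolynomial.finSuccEquiv K m p) *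
    (LaurentPolynomial.C (MvPolynomial.C c⁻¹) * T (-k)) * ∑ j ∈ Finset.range M,
      (-(toLaurent (MvPolynomial.finSuccEquiv K m e) *
        (LaurentPolynomial.C (MvPolynomial.C c⁻¹) * T (-k)))) ^ j, fun y s hy hs => ?_⟩
  have hz := A1_cons hy hs.le
  obtain ⟨hq0, h1⟩ := hpq _ hz hs
  refine V8_tri h1 (le_trans ?_ hM)
  have ev : ∀ P, LaurentPolynomial.eval₂ (MvPolynomial.aeval y : Pl K m →ₐ[K] L).toRingHom s
      (toLaurent (MvPolynomial.finSuccEquiv K m P)) =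
      MvPolynomial.aeval (Fin.cons s y : Fin (m + 1) → L) P := fun P => by
    rw [eval₂_toLaurent, eval₂_eq_eval_map, ← A1_ev, A1_p]
  set u : L := algebraMap K L c * s ^ k with hu
  have hun : ‖u‖ = ‖c‖ := by rw [hu, norm_mul, norm_pow, hs, one_pow, mul_one, norm_algebraMap']
  have hu0 : u ≠ 0 := norm_pos_iff.1 (hun ▸ hc0)
  have eu : LaurentPolynomial.eval₂ (MvPolynomial.aeval y : Pl K m →ₐ[K] L).toRingHom s
      (LaurentPolynomial.C (MvPolynomial.C c⁻¹) * T (-k)) = u⁻¹ := by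
    rw [eval₂_C_mul_T_neg_n, hu]
    simp [mul_comm]
  simp only [map_mul _ _ (∑ j ∈ _, _), map_mul _ (toLaurent _), map_sum, map_pow, map_neg, ev, eu]
  have ee : MvPolynomial.aeval (Fin.cons s y : Fin (m + 1) → L) e =
      MvPolynomial.aeval (Fin.cons s y : Fin (m + 1) → L) q - u := by simp [he, hu]
  have he1 := A0_le hw hz e
  have hp1 := A0_le hw hz p
  have hq1 : ‖MvPolynomial.aeval (Fin.cons s y : Fin (m + 1) → L) q‖ = ‖c‖ := by
    rw [← hun]
    exact V8_eq (by rw [← ee, hun]; exact he1.trans_lt hc)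
  generalize MvPolynomial.aeval (Fin.cons s y : Fin (m + 1) → L) q = Q at *
  generalize MvPolynomial.aeval (Fin.cons s y : Fin (m + 1) → L) p = P at *
  generalize MvPolynomial.aeval (Fin.cons s y : Fin (m + 1) → L) e = E at *
  have e2 : P / Q - P * u⁻¹ * ∑ j ∈ Finset.range M, (-(E * u⁻¹)) ^ j =
      P / Q * (-(E * u⁻¹)) ^ M := by
    have g := mul_neg_geom_sum (-(E * u⁻¹)) M
    have : 1 - -(E * u⁻¹) = Q * u⁻¹ := by rw [ee]; field_simp; ring
    rw [this] at g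
    rw [eq_sub_iff_add_eq, ← eq_sub_iff_add_eq'] at g
    rw [g]
    field_simp
  rw [e2, norm_mul, norm_div, hq1, norm_pow, norm_neg, norm_mul, norm_inv, hun, ← div_eq_mul_inv]
  gcongr

end Pool.Agent.Work.MP_e120ef_ag.Br
end

-- merged part: Pool.Agent.Work.MP_e120ef_ag.Br.A2
section
/-! A Kronecker type lemma: a denominator over `L` can be replaced by one over the closed subring
`R` containing the Laurent coefficients.

Plans.  `A2_lin`: `L` is an algebra over the subfield `k` of quotients of elements of `R`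
(`Subfield.closure`, or `FractionRing R` with `IsFractionRing.lift`); take a `k`-linear functional
`λ : L → k` with `λ (B l₀) ≠ 0` (`Module.exists_dual_forall_apply_eq_zero`-like,
`Module.Projective.exists_dual_ne_zero`, `Module.forall_dual_apply_eq_zero_iff`), apply it to the
relations, clear denominators.
`A2_ev`: `eval₂ (RingHom.id L) s F = F.coeff.sum fun i c => c * s ^ i` (`induction_on'`), so `LCz`
says: `‖eval₂ s F‖ ≤ ε` on the circle off a finite set iff all `‖F.coeff i‖ ≤ ε`.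
`AK`: take `F j` for `ε = 1 / (j + 1)`; each `j ↦ (F j).coeff i` is Cauchy uniformly in `i`, with
limit `φ i ∈ R`, `‖(F j).coeff i - φ i‖ ≤ 1 / (j + 1)`.  The coefficient of `toLaurent B * F` at `i`
is `∑ l ∈ range (natDegree B + 1), B.coeff l * F.coeff (i - l)` (`A2_coeff`).  For `i < 0` compare
`toLaurent B * F j` with `toLaurent h`: `∑ B_l φ (i - l) = 0`.  `A2_lin` gives `B'`; put
`h' = trunc (toLaurent B' * F j)`; the negative coefficients of `toLaurent B' * F j` are at most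
`C / (j + 1)`. -/

open Filter Topology Polynomial LaurentPolynomial

namespace Pool.Agent.Work.MP_e120ef_ag.Br

theorem A2_lin {L : Type} [Field L] (R : Subring L) {ι : Type} {d : ℕ} (v : ι → Fin d → L)
    (hv : ∀ i l, v i l ∈ R) {B : Fin d → L} (hB : B ≠ 0) (h : ∀ i, ∑ l, B l * v i l = 0) :
    ∃ B' : Fin d → L, B' ≠ 0 ∧ (∀ l, B' l ∈ R) ∧ ∀ i, ∑ l, B' l * v i l = 0 := by
  classical
  let k : Subfield L := Subfield.closure (R : Set L)
  obtain ⟨l₀, h₀⟩ := Function.ne_iff.1 hB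
  obtain ⟨f, hf⟩ := Module.Projective.exists_dual_ne_zero k (show B l₀ ≠ 0 from h₀)
  have hq : ∀ x : k, ∃ z ∈ R, z ≠ 0 ∧ z * (x : L) ∈ R := fun x => by
    obtain ⟨y, hy, z, hz, e⟩ := Subfield.mem_closure_iff.1 x.2
    rw [Subring.closure_eq] at hy hz
    by_cases z0 : z = 0
    · exact ⟨1, R.one_mem, one_ne_zero, by rw [← e, z0, div_zero, mul_zero]; exact R.zero_mem⟩
    · exact ⟨z, hz, z0, by rw [← e, mul_div_cancel₀ _ z0]; exact hy⟩
  choose z hz z0 hzx using fun l => hq (f (B l))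
  refine ⟨fun l => (∏ m, z m) * (f (B l) : L), Function.ne_iff.2 ⟨l₀, mul_ne_zero
    (Finset.prod_ne_zero_iff.2 fun m _ => z0 m) fun e => hf (Subtype.ext e)⟩, fun l => ?_,
    fun i => ?_⟩
  · show (∏ m, z m) * (f (B l) : L) ∈ R
    rw [← Finset.prod_erase_mul _ _ (Finset.mem_univ l), mul_assoc]
    exact R.mul_mem (R.prod_mem fun m _ => hz m) (hzx l)
  · let w : Fin d → k := fun l => ⟨v i l, Subfield.subset_closure (hv i l)⟩
    have e : f (∑ l, w l • B l) = 0 := by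
      have e2 : ∑ l, w l • B l = 0 := by
        rw [← h i]
        exact Finset.sum_congr rfl fun l _ => mul_comm _ _
      rw [e2, map_zero]
    have e3 := congrArg ((↑) : k → L) e
    simp only [map_sum, map_smul, smul_eq_mul] at e3
    push_cast at e3
    simp only [mul_assoc]
    rw [← Finset.mul_sum]
    refine mul_eq_zero_of_right _ ?_
    rw [← e3]
    exact Finset.sum_congr rfl fun l _ => mul_comm _ _

theorem A2_ev {L : Type} [Field L] (s : Lˣ) (F : L[T;T⁻¹]) :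
    LaurentPolynomial.eval₂ (RingHom.id L) s F = F.coeff.sum fun i c => c * (s : L) ^ i := by
  induction F using LaurentPolynomial.induction_on' with
  | add p q hp hq =>
    rw [map_add, hp, hq, AddMonoidAlgebra.coeff_add, Finsupp.sum_add_index']
    · simp
    · intro _ _ _; ring
  | C_mul_T n a =>
    rw [eval₂_C_mul_T, ← single_eq_C_mul_T, AddMonoidAlgebra.coeff_single,
      Finsupp.sum_single_index (by simp)]
    simp

theorem A2_toL {L : Type} [Field L] (p : L[X]) (i : ℤ) :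
    (toLaurent p).coeff i = if 0 ≤ i then p.coeff i.toNat else 0 := by
  induction p using Polynomial.induction_on' with
  | add p q hp hq =>
    rw [map_add, AddMonoidAlgebra.coeff_add, Finsupp.add_apply, hp, hq, Polynomial.coeff_add]
    split_ifs <;> simp
  | monomial n a =>
    rw [toLaurent_C_mul_T, ← single_eq_C_mul_T, AddMonoidAlgebra.coeff_single,
      Finsupp.single_apply, coeff_monomial]
    split_ifs <;> first | rfl | omega

theorem A2_trunc {L : Type} [Field L] (F : L[T;T⁻¹]) (k : ℕ) : (trunc F).coeff k = F.coeff k := by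
  induction F using LaurentPolynomial.induction_on' with
  | add p q hp hq =>
    rw [map_add, AddMonoidAlgebra.coeff_add, Finsupp.add_apply, Polynomial.coeff_add, hp, hq]
  | C_mul_T n a =>
    rw [trunc_C_mul_T, ← single_eq_C_mul_T, AddMonoidAlgebra.coeff_single, Finsupp.single_apply]
    split_ifs with h1 h2 h2
    · rw [coeff_monomial, if_pos (by omega)]
    · rw [coeff_monomial, if_neg (by omega)]
    · omega
    · rfl

theorem A2_coeff {L : Type} [Field L] {d : ℕ} (b : Fin d → L) (F : L[T;T⁻¹]) (i : ℤ) :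
    (toLaurent (∑ l : Fin d, monomial (l : ℕ) (b l)) * F).coeff i =
      ∑ l, b l * F.coeff (i - (l : ℕ)) := by
  rw [map_sum, Finset.sum_mul, AddMonoidAlgebra.coeff_sum, Finsupp.finsetSum_apply]
  refine Finset.sum_congr rfl fun l _ => ?_
  rw [toLaurent_C_mul_T, ← single_eq_C_mul_T, AddMonoidAlgebra.coeff_single_mul_apply,
    neg_add_eq_sub]

variable {L : Type} [NontriviallyNormedField L] [IsUltrametricDist L] [IsAlgClosed L] [Om L]
  [CompleteSpace L]

omit [CompleteSpace L] in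
theorem A2_LC {E : Set L} (hE : E.Finite) (F : L[T;T⁻¹]) {ε : ℝ} :
    (∀ s : Lˣ, ‖(s : L)‖ = 1 → (s : L) ∉ E → ‖LaurentPolynomial.eval₂ (RingHom.id L) s F‖ ≤ ε) ↔
      ∀ i, ‖F.coeff i‖ ≤ ε := by
  rw [← LCz hE]
  refine ⟨fun h s hs hsE => ?_, fun h s hs hsE => by rw [A2_ev]; exact h s hs hsE⟩
  have := h (Units.mk0 s (norm_pos_iff.1 (hs ▸ one_pos))) hs hsE
  rwa [A2_ev] at this

omit [CompleteSpace L] in
theorem A2_bound (B : L[X]) :
    ∃ c : ℝ, 1 ≤ c ∧ (∀ i, ‖B.coeff i‖ ≤ c) ∧ ∀ s : L, ‖s‖ = 1 → ‖B.eval s‖ ≤ c := by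
  have h : ∀ i, ‖B.coeff i‖ ≤ 1 + ∑ j ∈ B.support, ‖B.coeff j‖ := fun i => by
    by_cases hi : i ∈ B.support
    · have := Finset.single_le_sum (f := fun j => ‖B.coeff j‖) (fun _ _ => norm_nonneg _) hi
      linarith
    · rw [notMem_support_iff.1 hi, norm_zero]
      positivity
  exact ⟨_, le_add_of_nonneg_right (by positivity), h,
    fun s hs => (LC Set.finite_empty).2 h s hs (Set.notMem_empty s)⟩

theorem AK (R : Subring L) (hR : IsClosed (R : Set L)) {Ψ : L → L}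
    (h : ∀ ε > 0, ∃ F : L[T;T⁻¹], (∀ i, F.coeff i ∈ R) ∧ ∀ s : Lˣ, ‖(s : L)‖ = 1 →
      ‖Ψ s - LaurentPolynomial.eval₂ (RingHom.id L) s F‖ ≤ ε)
    {B : L[X]} (hB : B ≠ 0) {E : Set L} (hE : E.Finite)
    (h' : ∀ ε > 0, ∃ p : L[X], ∀ s, ‖s‖ = 1 → s ∉ E → ‖B.eval s * Ψ s - p.eval s‖ ≤ ε) :
    ∃ B' : L[X], B' ≠ 0 ∧ (∀ i, B'.coeff i ∈ R) ∧ ∀ ε > 0, ∃ p : L[X], (∀ i, p.coeff i ∈ R) ∧
      ∀ s, ‖s‖ = 1 → ‖B'.eval s * Ψ s - p.eval s‖ ≤ ε := by
  let e : ℕ → ℝ := fun j => 1 / ((j : ℝ) + 1)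
  have e0 : ∀ j, 0 < e j := fun j => Nat.one_div_pos_of_nat
  have e1 : ∀ {N j}, N ≤ j → e j ≤ e N := fun k => Nat.one_div_le_one_div k
  have e2 : Tendsto e atTop (𝓝 0) := tendsto_one_div_add_atTop_nhds_zero_nat
  choose F hF hF' using fun j => h (e j) (e0 j)
  have c1 : ∀ i j m N, N ≤ j → N ≤ m → ‖(F j).coeff i - (F m).coeff i‖ ≤ e N := by
    intro i j m N hj hm
    refine (A2_LC Set.finite_empty (F j - F m)).1 (fun s hs _ => ?_) i
    rw [map_sub]
    exact V8_tri (by rw [norm_sub_rev]; exact (hF' j s hs).trans (e1 hj))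
      ((hF' m s hs).trans (e1 hm))
  choose φ hφ using fun i => cauchySeq_tendsto_of_complete (cauchySeq_of_le_tendsto_0
    (s := fun j => (F j).coeff i) e (fun j m N hj hm => by
      rw [dist_eq_norm]; exact c1 i j m N hj hm) e2)
  have φR : ∀ i, φ i ∈ R := fun i => hR.mem_of_tendsto (hφ i) (.of_forall fun j => hF j i)
  have c2 : ∀ i j, ‖(F j).coeff i - φ i‖ ≤ e j := fun i j =>
    le_of_tendsto (tendsto_const_nhds.sub (hφ i)).norm
      (eventually_atTop.2 ⟨j, fun m hm => c1 i j m j le_rfl hm⟩)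
  have c3 : ∀ (A : L[X]) (c : ℝ), (∀ s : L, ‖s‖ = 1 → ‖A.eval s‖ ≤ c) → ∀ j, ∀ s : Lˣ,
      ‖(s : L)‖ = 1 → ‖A.eval (s : L) * Ψ s -
        LaurentPolynomial.eval₂ (RingHom.id L) s (toLaurent A * F j)‖ ≤ c * e j := by
    intro A c hc j s hs
    rw [map_mul, eval₂_toLaurent, eval₂_id, ← mul_sub, norm_mul]
    exact mul_le_mul (hc s hs) (hF' j s hs) (norm_nonneg _) ((norm_nonneg _).trans (hc s hs))
  have eB : B = ∑ l : Fin (B.natDegree + 1), monomial (l : ℕ) (B.coeff l) :=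
    B.as_sum_range.trans (Finset.sum_range _)
  have rel : ∀ i : {i : ℤ // i < 0}, ∑ l : Fin (B.natDegree + 1),
      B.coeff l * φ (i.1 - (l : ℕ)) = 0 := by
    rintro ⟨i, hi⟩
    obtain ⟨c, c1, -, hc⟩ := A2_bound B
    have t1 : Tendsto (fun j => ∑ l : Fin (B.natDegree + 1),
        B.coeff l * (F j).coeff (i - (l : ℕ))) atTop
        (𝓝 (∑ l : Fin (B.natDegree + 1), B.coeff l * φ (i - (l : ℕ)))) :=
      tendsto_finsetSum _ fun l _ => (hφ _).const_mul _
    refine tendsto_nhds_unique t1 (squeeze_zero_norm (a := fun j => c * e j) (fun j => ?_)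
      (by simpa using e2.const_mul c))
    obtain ⟨p, hp⟩ := h' (e j) (e0 j)
    have k := (A2_LC (ε := c * e j) hE (toLaurent B * F j - toLaurent p)).1 (fun s hs hsE => by
      rw [map_sub, eval₂_toLaurent, eval₂_id]
      exact V8_tri (by rw [norm_sub_rev]; exact c3 B c hc j s hs)
        ((hp s hs hsE).trans (le_mul_of_one_le_left (e0 j).le c1))) i
    rw [AddMonoidAlgebra.coeff_sub, Finsupp.sub_apply, A2_toL, if_neg (not_le.2 hi), sub_zero] at k
    rwa [← A2_coeff, ← eB]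
  obtain ⟨b, b0, bR, hb⟩ := A2_lin R (fun (i : {i : ℤ // i < 0}) (l : Fin (B.natDegree + 1)) =>
    φ (i.1 - (l : ℕ))) (fun _ _ => φR _) (B := fun l => B.coeff l) (fun k => hB (by
      rw [eB]
      exact Finset.sum_eq_zero fun l _ => by rw [congrFun k l]; simp)) rel
  have bc : ∀ l : Fin (B.natDegree + 1),
      (∑ m : Fin (B.natDegree + 1), monomial (m : ℕ) (b m)).coeff l = b l := fun l => by
    rw [finsetSum_coeff, Finset.sum_eq_single l, coeff_monomial, if_pos rfl]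
    · intro m _ hm
      rw [coeff_monomial, if_neg fun k => hm (Fin.ext k)]
    · simp
  refine ⟨∑ m : Fin (B.natDegree + 1), monomial m.val (b m), fun k => b0 (funext fun l => by
    rw [← bc, k]; rfl), fun i => ?_, fun ε hε => ?_⟩
  · rw [finsetSum_coeff]
    refine R.sum_mem fun m _ => ?_
    rw [coeff_monomial]
    split_ifs
    exacts [bR m, R.zero_mem]
  obtain ⟨c, c1, hc', hc⟩ := A2_bound (∑ m : Fin (B.natDegree + 1), monomial (m : ℕ) (b m))
  obtain ⟨j, hj⟩ := ((by simpa using e2.const_mul c :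
    Tendsto (fun j => c * e j) atTop (𝓝 0)).eventually (eventually_le_nhds hε)).exists
  refine ⟨trunc (toLaurent (∑ m : Fin _, monomial m.val (b m)) * F j), fun i => ?_, fun s hs => ?_⟩
  · rw [A2_trunc, A2_coeff]
    exact R.sum_mem fun m _ => R.mul_mem (bR m) (hF j _)
  have k := (A2_LC (ε := c * e j) Set.finite_empty
    (toLaurent (∑ m : Fin _, monomial m.val (b m)) * F j -
      toLaurent (trunc (toLaurent (∑ m : Fin _, monomial m.val (b m)) * F j)))).2 (fun i => by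
    have ce : 0 ≤ c * e j := mul_nonneg (zero_le_one.trans c1) (e0 j).le
    rw [AddMonoidAlgebra.coeff_sub, Finsupp.sub_apply, A2_toL]
    split_ifs with hi
    · rw [A2_trunc, Int.toNat_of_nonneg hi, sub_self, norm_zero]
      exact ce
    · rw [← hb ⟨i, not_le.1 hi⟩, A2_coeff, ← Finset.sum_sub_distrib]
      refine IsUltrametricDist.norm_sum_le_of_forall_le_of_nonneg ce fun l _ => ?_
      rw [← mul_sub, norm_mul]
      exact mul_le_mul (bc l ▸ hc' l) (c2 _ j) (norm_nonneg _) (zero_le_one.trans c1))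
    (Units.mk0 s (norm_pos_iff.1 (hs ▸ one_pos))) hs (Set.notMem_empty _)
  rw [map_sub, eval₂_toLaurent, eval₂_id] at k
  exact (V8_tri (c3 _ c hc j (Units.mk0 s (norm_pos_iff.1 (hs ▸ one_pos))) hs) k).trans hj

end Pool.Agent.Work.MP_e120ef_ag.Br
end

-- merged part: Pool.Agent.Work.MP_e120ef_ag.Br.A3
section
/-! Auxiliary lemmas for Theorem A.

Plans.  `A3_key`: for `ε > 0` take `P, Q`; `GP2` gives `s₁ ∉ E` on the circle with
`‖B s₁‖ = gs B`, `‖P s₁‖ = gs P`; `‖Q‖` is constant on the disc (`norm_eval_of_ne`), so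
`‖P s₀ / Q s₀‖ ≤ ‖P s₁ / Q s₁‖` (`norm_eval_le`); let `ε → 0` (`le_of_forall_pos_le_add`).
`A3_map`: `LaurentPolynomial.induction_on'` on the statement with an existential `F'` is awkward
for the coefficients; use `AddMonoidAlgebra.mapRingHom`-like maps, or `exists_T_pow` and
`F' = toLaurent (f.map ι) * T (-k)`.
`A3_sub`: `closure_mono`; `aeval w' P = aeval w (aeval (fun i => X i.succ - C (ν i.succ) * X 0) P)`.
`A3_ne`: replacing `B` by `B.comp (C lam⁻¹ * X)` (coefficients `B.coeff i * lam⁻¹ ^ i`, still in the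
closure, which is a subalgebra) reduce to `lam = 1`.  For `ε > 0` choose `P i` with
`‖B.coeff i - aeval w' (P i)‖ ≤ ε`, `p = ∑ monomial i (aeval w' (P i))`, and
`P̂ = ∑ (P i)(X' - ν' X₀) * X₀ ^ i`; then `p.eval s = aeval (vl w 0 ν s) P̂`, so by `A0_le`, `vl_le`,
`vl_self`, `‖p.eval s‖ ≤ ‖p.eval (w 0)‖ ≤ ε` on the unit circle if `B.eval (w 0) = 0`; `LC` gives
`‖B.coeff i‖ ≤ ε`. -/

open Filter Topology Polynomial LaurentPolynomial

namespace Pool.Agent.Work.MP_e120ef_ag.Br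

variable {K : Type} [NontriviallyNormedField K] {m : ℕ} {L : Type} [NontriviallyNormedField L]
  [IsUltrametricDist L] [NormedAlgebra K L]

variable (K) in
/-- the closure of `K[w]` in `L` -/
noncomputable def Cl {n : ℕ} (w : Fin n → L) : Subalgebra K L :=
  (MvPolynomial.aeval w : Pl K n →ₐ[K] L).range.topologicalClosure

theorem Cl_closed {n : ℕ} (w : Fin n → L) : IsClosed (Cl K w : Set L) :=
  Subalgebra.isClosed_topologicalClosure _

theorem Cl_aeval {n : ℕ} (w : Fin n → L) (P : Pl K n) : MvPolynomial.aeval w P ∈ Cl K w :=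
  Subalgebra.le_topologicalClosure _ ⟨P, rfl⟩

theorem mem_Cl {n : ℕ} {w : Fin n → L} {x : L} :
    x ∈ Cl K w ↔ ∀ ε > 0, ∃ P : Pl K n, ‖x - MvPolynomial.aeval w P‖ ≤ ε := by
  refine (Metric.mem_closure_iff (a := x)
    (s := ((MvPolynomial.aeval w : Pl K n →ₐ[K] L).range : Set L))).trans ⟨fun h ε hε => ?_,
      fun h ε hε => ?_⟩
  · obtain ⟨_, ⟨P, rfl⟩, hP⟩ := h ε hε
    exact ⟨P, (dist_eq_norm x _).symm.trans_le hP.le⟩
  · obtain ⟨P, hP⟩ := h (ε / 2) (half_pos hε)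
    exact ⟨_, ⟨P, rfl⟩, ((dist_eq_norm x _).trans_le hP).trans_lt (half_lt_self hε)⟩

theorem A3_map {R S : Type} [CommRing R] [CommRing S] (ι : R →+* S) (F : R[T;T⁻¹]) :
    ∃ F' : S[T;T⁻¹], (∀ i, F'.coeff i = ι (F.coeff i)) ∧
      ∀ s : Sˣ, LaurentPolynomial.eval₂ (RingHom.id S) s F' = LaurentPolynomial.eval₂ ι s F := by
  induction F using LaurentPolynomial.induction_on' with
  | add p q hp hq =>
    obtain ⟨p', p1, p2⟩ := hp
    obtain ⟨q', q1, q2⟩ := hq
    exact ⟨p' + q', fun i => by simp [p1, q1], fun s => by rw [map_add, map_add, p2, q2]⟩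
  | C_mul_T k a =>
    refine ⟨LaurentPolynomial.C (ι a) * T k, fun i => ?_, fun s => by simp⟩
    simp only [← LaurentPolynomial.single_eq_C_mul_T, AddMonoidAlgebra.coeff_single,
      Finsupp.single_apply]
    split_ifs <;> simp

/-- the transversal coordinates of the line `vl w 0 ν` -/
def wt (w : Fin (m + 1) → L) (ν : Fin (m + 1) → K) (i : Fin m) : L :=
  w i.succ - w 0 * algebraMap K L (ν i.succ)

theorem vl_eq (w : Fin (m + 1) → L) {ν : Fin (m + 1) → K} (h : ν 0 = 1) :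
    vl w 0 ν = ln (Fin.cons 0 (wt w ν)) fun i => algebraMap K L (ν i) := by
  funext t i
  refine Fin.cases ?_ (fun j => rfl) i
  simp [vl, ln, h]

theorem wt_le {w : Fin (m + 1) → L} (hw : Gen K w) {ν : Fin (m + 1) → K} (hν : ∀ i, ‖ν i‖ ≤ 1)
    (i : Fin m) : ‖wt w ν i‖ ≤ 1 := by
  rw [wt, sub_eq_add_neg]
  refine (IsUltrametricDist.norm_add_le_max _ _).trans (max_le (hw.1 _) ?_)
  rw [norm_neg, norm_mul, norm_algebraMap']
  exact mul_le_one₀ (hw.1 _) (norm_nonneg _) (hν _)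

theorem A3_aeval {z : Fin (m + 1) → L} {y : Fin m → L} {ν : Fin (m + 1) → K}
    (h : ∀ i, y i = z i.succ - algebraMap K L (ν i.succ) * z 0) (P : Pl K m) :
    MvPolynomial.aeval z (MvPolynomial.aeval (fun i : Fin m => (MvPolynomial.X i.succ -
      MvPolynomial.C (ν i.succ) * MvPolynomial.X 0 : Pl K (m + 1))) P) =
      MvPolynomial.aeval y P := by
  rw [← AlgHom.comp_apply, MvPolynomial.comp_aeval]
  simp [funext h]

theorem A3_sub (w : Fin (m + 1) → L) (ν : Fin (m + 1) → K) : Cl K (wt w ν) ≤ Cl K w := by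
  refine Subalgebra.topologicalClosure_minimal ?_ (Cl_closed w)
  rintro _ ⟨P, rfl⟩
  have := A3_aeval (z := w) (y := wt w ν) (ν := ν) (fun i => by rw [wt, mul_comm]) P
  exact this ▸ Cl_aeval w _

variable [IsAlgClosed L] [Om L]

theorem A3_key {s₀ : L} {δ M : ℝ} (hδ : 0 < δ) (B : L[X]) {E : Set L} (hE : E.Finite) {Ψ : L → L}
    (h : ∀ ε > 0, ∃ P Q : L[X], ∀ s, ‖s - s₀‖ ≤ δ →
      Q.eval s ≠ 0 ∧ ‖Ψ s - P.eval s / Q.eval s‖ ≤ ε)
    (hM : ∀ s, ‖s - s₀‖ ≤ δ → s ∉ E → ‖B.eval s * Ψ s‖ ≤ M) : gs s₀ δ B * ‖Ψ s₀‖ ≤ M := by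
  have hB := gs_nonneg s₀ δ B
  refine le_of_forall_pos_le_add fun ε hε => ?_
  obtain ⟨P, Q, hPQ⟩ := h (ε / (2 * (gs s₀ δ B + 1))) (by positivity)
  obtain ⟨s, s1, s2, s3, s4⟩ := GP2 s₀ hδ hE B P
  have z : ‖s₀ - s₀‖ ≤ δ := by simpa using hδ.le
  have hQ := fun t ht => (hPQ t ht).1
  have h1 : ‖P.eval s₀ / Q.eval s₀‖ ≤ ‖P.eval s / Q.eval s‖ := by
    rw [norm_div, norm_div, norm_eval_of_ne hQ z, norm_eval_of_ne hQ s2.le, s4]
    exact div_le_div_of_nonneg_right (norm_eval_le z P) (gs_nonneg _ _ _)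
  have h2 := (abs_le.1 ((abs_norm_sub_norm_le _ _).trans (hPQ s₀ z).2)).2
  have h3 := (abs_le.1 ((abs_norm_sub_norm_le _ _).trans (hPQ s s2.le).2)).1
  have h4 := hM s s2.le s1
  rw [norm_mul, s3] at h4
  have h5 : (gs s₀ δ B + 1) * (2 * (ε / (2 * (gs s₀ δ B + 1)))) = ε := by field_simp
  have h6 : 0 < ε / (2 * (gs s₀ δ B + 1)) := by positivity
  nlinarith [mul_le_mul_of_nonneg_left
    (show ‖Ψ s₀‖ ≤ ‖Ψ s‖ + 2 * (ε / (2 * (gs s₀ δ B + 1))) by linarith) hB]

theorem A3_ne1 {w : Fin (m + 1) → L} (hw : Gen K w) {ν : Fin (m + 1) → K} (h0 : ν 0 = 1)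
    (hν : ∀ i, ‖ν i‖ ≤ 1) {B : L[X]} (hB : B ≠ 0) (h : ∀ i, B.coeff i ∈ Cl K (wt w ν)) :
    B.eval (w 0) ≠ 0 := by
  intro hz
  refine hB (Polynomial.ext fun i => norm_le_zero_iff.1 (le_of_forall_pos_le_add fun ε hε => ?_))
  rw [zero_add]
  choose P hP using fun i => mem_Cl.1 (h i) ε hε
  let p : L[X] := ∑ i ∈ Finset.range (B.natDegree + 1),
    monomial i (MvPolynomial.aeval (wt w ν) (P i))
  let Q : Pl K (m + 1) := ∑ i ∈ Finset.range (B.natDegree + 1),
    MvPolynomial.aeval (fun i : Fin m => (MvPolynomial.X i.succ -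
      MvPolynomial.C (ν i.succ) * MvPolynomial.X 0 : Pl K (m + 1))) (P i) * MvPolynomial.X 0 ^ i
  have e : ∀ s, MvPolynomial.aeval (vl w 0 ν s) Q = p.eval s := fun s => by
    have e0 : vl w 0 ν s 0 = s := by simp [vl, ln, h0]
    simp only [Q, p, map_sum, map_mul, map_pow, MvPolynomial.aeval_X, e0, eval_finsetSum,
      eval_monomial]
    refine Finset.sum_congr rfl fun i _ => ?_
    rw [A3_aeval (y := wt w ν) fun j => by rw [e0]; simp only [vl, ln, wt]; ring]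
  have h1 : gs 0 1 (B - p) ≤ ε := gs_le_of_coeff zero_le_one fun k => by
    simp only [one_pow, mul_one, p, Polynomial.coeff_sub, finsetSum_coeff, coeff_monomial,
      Finset.sum_ite_eq', Finset.mem_range]
    split_ifs with hk
    · exact hP k
    · rw [coeff_eq_zero_of_natDegree_lt (by omega), sub_zero, norm_zero]
      exact hε.le
  have h2 : ∀ s : L, ‖s‖ ≤ 1 → ‖B.eval s - p.eval s‖ ≤ ε := fun s hs => by
    rw [← eval_sub]
    exact (norm_eval_le (by simpa using hs) _).trans h1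
  refine (LC Set.finite_empty).1 (fun s hs _ => V8_le (h2 s hs.le) ?_) i
  have h3 := h2 _ (hw.1 0)
  rw [hz, zero_sub, norm_neg, ← e, vl_self] at h3
  rw [← e]
  exact (A0_le hw (vl_le hw 0 hν hs.le) Q).trans h3

theorem A3_ne {w : Fin (m + 1) → L} (hw : Gen K w) {ν : Fin (m + 1) → K} (h0 : ν 0 = 1)
    (hν : ∀ i, ‖ν i‖ ≤ 1) {lam : K} (hl : lam ≠ 0) {B : L[X]} (hB : B ≠ 0)
    (h : ∀ i, B.coeff i ∈ Cl K (wt w ν)) : B.eval (w 0 / algebraMap K L lam) ≠ 0 := by
  have l0 : algebraMap K L lam⁻¹ ≠ 0 := (_root_.map_ne_zero _).2 (inv_ne_zero hl)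
  have := A3_ne1 hw h0 hν (B := B.comp (Polynomial.C (algebraMap K L lam⁻¹) * X)) (fun k => hB ?_)
    fun i => by
      rw [comp_C_mul_X_coeff]
      exact mul_mem (h i) (pow_mem (Subalgebra.algebraMap_mem _ _) _)
  · simpa [eval_comp, div_eq_inv_mul] using this
  · ext i
    have := congrArg (Polynomial.coeff · i) k
    simp only [comp_C_mul_X_coeff, Polynomial.coeff_zero] at this
    exact (mul_eq_zero.1 this).resolve_right (pow_ne_zero _ l0)

end Pool.Agent.Work.MP_e120ef_ag.Br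
end

-- merged part: Pool.Agent.Work.MP_e120ef_ag.Br.A4
section
/-! Theorem A: the value at the generic point is a quotient of two elements of the closure of
`K[w]`. -/

open Filter Topology Polynomial LaurentPolynomial

namespace Pool.Agent.Work.MP_e120ef_ag.Br

variable {K : Type} [NontriviallyNormedField K] {L : Type} [NontriviallyNormedField L]
  [IsUltrametricDist L] [NormedAlgebra K L] [IsAlgClosed L] [Om L]

omit [IsAlgClosed L] [Om L] in
theorem HH_pt {n : ℕ} {η : Sn K (Pl K n)} {p : (Fin n → L) → Prop} (h : ∀ᶠ z in HH L η, p z)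
    {z : Fin n → L} (hz : pz K z = η) : p z :=
  eventually_principal.1 (eventually_sup.1 h).1 z hz

omit [IsAlgClosed L] [Om L] in
theorem HH_ln {n : ℕ} {η : Sn K (Pl K n)} {p : (Fin n → L) → Prop} (h : ∀ᶠ z in HH L η, p z)
    (z₀ ν : Fin n → L) (a : L) {ρ : ℝ} (hρ : 0 < ρ) (e : ∀ P, gs a ρ (lnP K z₀ ν P) = η P) :
    ∀ᶠ t in GG a ρ, p (ln z₀ ν t) := by
  have h2 := (eventually_sup.1 h).2
  simp only [eventually_iSup] at h2
  exact h2 z₀ ν a ρ hρ e

/-- from the circle to the disc -/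
theorem A4_disc {B B' : L[X]} {E E' : Set L} (hE : E.Finite) (hE' : E'.Finite) {Θ Ψ : L → L}
    (h : CP 0 1 E fun s => B.eval s * Θ s) (e : ∀ s, ‖s‖ = 1 → s ∉ E' → Θ s = Ψ s) {p : L[X]}
    {ε : ℝ} (hε : 0 ≤ ε) (hp : ∀ s, ‖s‖ = 1 → ‖B'.eval s * Ψ s - p.eval s‖ ≤ ε) {s : L}
    (hs : ‖s‖ ≤ 1) (hsE : s ∉ E) : ‖B.eval s * (B'.eval s * Θ s - p.eval s)‖ ≤ gs 0 1 B * ε := by
  refine le_of_forall_pos_le_add fun δ hδ => ?_
  have hg := gs_nonneg (0 : L) 1 B'
  obtain ⟨q, hq⟩ := h (δ / (gs 0 1 B' + 1)) (by positivity)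
  have k : ∀ t : L, ‖t‖ ≤ 1 → t ∉ E → ‖B'.eval t * (B.eval t * Θ t - q.eval t)‖ ≤ δ := by
    intro t ht htE
    rw [norm_mul]
    calc _ ≤ (gs 0 1 B' + 1) * (δ / (gs 0 1 B' + 1)) :=
          mul_le_mul ((norm_eval_le (a := 0) (ρ := 1) (by simpa using ht) B').trans (by linarith))
            (hq t (by simpa using ht) htE) (norm_nonneg _) (by positivity)
      _ = δ := by field_simp
  have hM : 0 ≤ gs 0 1 B * ε := mul_nonneg (gs_nonneg _ _ _) hε
  have k2 : gs 0 1 (B' * q - B * p) ≤ gs 0 1 B * ε + δ := by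
    refine gs_le_of_circle one_pos (hE.union hE') fun t ht htE => ?_
    rw [sub_zero] at ht
    rw [Set.mem_union, not_or] at htE
    have h1 := k t ht.le htE.1
    have h2 : ‖B.eval t * (B'.eval t * Ψ t - p.eval t)‖ ≤ gs 0 1 B * ε := by
      rw [norm_mul]
      exact mul_le_mul (norm_eval_le (by simpa using ht.le) B) (hp t ht) (norm_nonneg _)
        (gs_nonneg _ _ _)
    have h3 : (B' * q - B * p).eval t = B.eval t * (B'.eval t * Ψ t - p.eval t) -
        B'.eval t * (B.eval t * Θ t - q.eval t) := by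
      rw [e t ht htE.2, eval_sub, eval_mul, eval_mul]; ring
    rw [h3]
    exact (norm_sub_le _ _).trans (add_le_add h2 h1)
  have h3 : B.eval s * (B'.eval s * Θ s - p.eval s) = (B' * q - B * p).eval s +
      B'.eval s * (B.eval s * Θ s - q.eval s) := by
    rw [eval_sub, eval_mul, eval_mul]; ring
  rw [h3]
  exact (IsUltrametricDist.norm_add_le_max _ _).trans
    (max_le ((norm_eval_le (by simpa using hs) _).trans k2) ((k s hs hsE).trans (by linarith)))

variable [IsUltrametricDist K] [IsAlgClosed K] [CompleteSpace L]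

theorem thmA' {n : ℕ} {w : Fin n → L} (hw : Gen K w) {Φ : (Fin n → L) → L}
    (h1 : KL (pz K w) Φ) (h2 : ∀ (i₀ : Fin n) (ν : Fin n → K), ν i₀ = 1 → (∀ i, ‖ν i‖ ≤ 1) →
      ∀ a ρ, LH a ρ fun s => Φ (vl w i₀ ν s)) :
    ∃ a ∈ Cl K w, ∃ b ∈ Cl K w, b ≠ 0 ∧ b * Φ w = a := by
  obtain ⟨φ, ⟨N, hN, happ⟩, hΦ⟩ := h1
  have hNw := mem_of_mem_nhds hN
  cases n with
  | zero =>
    refine ⟨Φ w, mem_Cl.2 fun ε hε => ?_, 1, one_mem _, one_ne_zero, one_mul _⟩
    obtain ⟨p, q, h⟩ := happ ε hε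
    have h4 := (h w hNw).2 (by simp)
    rw [MvPolynomial.eq_C_of_isEmpty p, MvPolynomial.eq_C_of_isEmpty q] at h4
    refine ⟨MvPolynomial.C (p.coeff 0 / q.coeff 0), ?_⟩
    rw [HH_pt hΦ rfl]
    simpa using h4
  | succ m =>
    obtain ⟨ν, h0, hν, r₀, hr₀, hsh⟩ := A0_shear hw hN
    obtain ⟨S', hS', E', hE', hSE⟩ := mem_GG.1 (HH_ln hΦ _ _ 0 one_pos (A0_gs hw 0 hν))
    obtain ⟨r, R, J, -, hr1, hR, hJ, hb⟩ := FF_basis one_pos hS'
    obtain ⟨lam, hl1, hl2⟩ := norm_btw K zero_le_one (lt_min hr₀ hR)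
    obtain ⟨l, hl⟩ : ∃ l, l = algebraMap K L lam := ⟨_, rfl⟩
    have hn : ‖l‖ = ‖lam‖ := by rw [hl, norm_algebraMap']
    have hlam : lam ≠ 0 := norm_pos_iff.1 (one_pos.trans hl1)
    have hl0 : l ≠ 0 := norm_pos_iff.1 (hn ▸ one_pos.trans hl1)
    have fin : ∀ {E : Set L}, E.Finite → ((fun s => l * s) ⁻¹' E).Finite := fun hE =>
      hE.preimage (mul_right_injective₀ hl0).injOn
    have circ : ∀ s : L, ‖s‖ = 1 → s ∉ (fun s => l * s) ⁻¹' E' →
        Φ (vl w 0 ν (l * s)) = φ (vl w 0 ν (l * s)) := by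
      intro s hs hsE
      have h3 : ‖l * s‖ = ‖lam‖ := by rw [norm_mul, hs, mul_one, hn]
      refine hSE _ (hb _ (by rw [sub_zero, h3]; exact hl2.trans_le (min_le_right _ _))
        fun b hb' => ?_) hsE
      have h4 : ‖b‖ < ‖l * s‖ := by
        have := hJ b hb'
        rw [sub_zero] at this
        rw [h3]; exact this.trans_lt hl1
      rw [sub_eq_add_neg, IsUltrametricDist.norm_add_eq_max_of_norm_ne_norm
        (by rw [norm_neg]; exact h4.ne'), h3]
      exact (hr1.trans hl1).trans_le (le_max_left _ _)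
    obtain ⟨σ, hσ⟩ : ∃ σ : Fin (m + 1) → Pl K (m + 1), ∀ (z : Fin (m + 1) → L) (P : Pl K (m + 1)),
        MvPolynomial.aeval z (MvPolynomial.aeval σ P) = MvPolynomial.aeval
          (ln (Fin.cons 0 (Fin.tail z)) (fun i => algebraMap K L (ν i)) (l * z 0)) P := by
      refine ⟨fun i => (Fin.cons 0 (fun j => MvPolynomial.X j.succ) : Fin (m + 1) → _) i +
        MvPolynomial.C lam * MvPolynomial.X 0 * MvPolynomial.C (ν i), fun z P => ?_⟩
      rw [MvPolynomial.comp_aeval_apply]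
      congr 2
      funext i
      cases i using Fin.cases <;> simp [ln, hl, Fin.tail]
    have lau := fun ε (hε : 0 < ε) => tube_lau hw (φ := fun z =>
      φ (ln (Fin.cons 0 (Fin.tail z)) (fun i => algebraMap K L (ν i)) (l * z 0))) (fun ε hε => by
        obtain ⟨p, q, h⟩ := happ ε hε
        refine ⟨MvPolynomial.aeval σ p, MvPolynomial.aeval σ q, fun z hz hz0 => ?_⟩
        have h3 : ‖l * z 0‖ = ‖lam‖ := by rw [norm_mul, hz0, mul_one, hn]
        have h4 := h _ (hsh (l * z 0) (Fin.tail z) (h3 ▸ hl1)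
          (h3 ▸ hl2.trans_le (min_le_left _ _)) fun i => hz i.succ)
        rw [hσ, hσ]
        exact ⟨h4.1, h4.2 (by simp)⟩) hε
    obtain ⟨B, hB, E, hE, hcp⟩ := (oneV (h2 0 ν h0 hν) 0 (norm_nonneg l)).cp (norm_nonneg l)
    have ev : ∀ (p : L[X]) (s : L), (p.comp (Polynomial.C l * X)).eval s = p.eval (l * s) := by
      intro p s
      simp [eval_comp]
    have hB1 : B.comp (Polynomial.C l * X) ≠ 0 := by
      intro h
      refine hB (Polynomial.funext fun t => ?_)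
      have h3 := ev B (t / l)
      rw [h, mul_div_cancel₀ _ hl0, eval_zero] at h3
      rw [← h3, eval_zero]
    have hcp1 : CP 0 1 ((fun s => l * s) ⁻¹' E) fun s =>
        (B.comp (Polynomial.C l * X)).eval s * Φ (vl w 0 ν (l * s)) := fun ε hε => by
      obtain ⟨p, hp⟩ := hcp ε hε
      refine ⟨p.comp (Polynomial.C l * X), fun t ht htE => ?_⟩
      simp only [ev]
      refine hp _ ?_ htE
      rw [sub_zero] at ht ⊢
      rw [norm_mul]
      exact mul_le_of_le_one_right (norm_nonneg _) ht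
    obtain ⟨B', hB', hR', hap⟩ := AK (Cl K (wt w ν)).toSubring (Cl_closed _)
      (Ψ := fun s => φ (vl w 0 ν (l * s))) (fun ε hε => by
        obtain ⟨F, hF⟩ := lau ε hε
        obtain ⟨F', k1, k2⟩ :=
          A3_map (MvPolynomial.aeval (wt w ν) : Pl K m →ₐ[K] L).toRingHom F
        refine ⟨F', fun i => k1 i ▸ Cl_aeval _ _, fun s hs => ?_⟩
        rw [k2, vl_eq w h0]
        simpa using hF _ s (wt_le hw hν) hs) hB1 ((fin hE).union (fin hE')) fun ε hε => by
      obtain ⟨p, hp⟩ := hcp1 ε hε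
      refine ⟨p, fun s hs hsE => ?_⟩
      rw [Set.mem_union, not_or] at hsE
      rw [← circ s hs hsE.2]
      exact hp s (by simpa using hs.le) hsE.1
    have mem : ∀ p : L[X], (∀ i, p.coeff i ∈ (Cl K (wt w ν)).toSubring) →
        p.eval (w 0 / l) ∈ Cl K w := by
      intro p hp
      rw [eval_eq_sum_range]
      refine sum_mem fun i _ => mul_mem (A3_sub w ν (hp i)) (pow_mem ?_ _)
      have h3 := Cl_aeval w (MvPolynomial.C lam⁻¹ * MvPolynomial.X 0)
      simpa [hl, div_eq_inv_mul] using h3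
    refine ⟨_, ?_, _, mem B' hR', hl ▸ A3_ne hw h0 hν hlam hB' hR', rfl⟩
    have hδ : 0 < 1 / (2 * ‖l‖) := by have := norm_pos_iff.2 hl0; positivity
    have hβ := gs_pos (a := w 0 / l) hδ hB1
    have near : ∀ s, ‖s - w 0 / l‖ ≤ 1 / (2 * ‖l‖) → ‖l * s - w 0‖ < 1 := by
      intro s hs
      have h3 : l * s - w 0 = l * (s - w 0 / l) := by field_simp
      have h4 := norm_pos_iff.2 hl0
      rw [h3, norm_mul]
      calc _ ≤ ‖l‖ * (1 / (2 * ‖l‖)) := by gcongr
        _ = 1 / 2 := by field_simp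
        _ < 1 := by norm_num
    have le1 : ∀ s, ‖l * s - w 0‖ < 1 → ‖s‖ ≤ 1 := by
      intro s hs
      have h3 : ‖l * s‖ ≤ 1 := by
        rw [← sub_add_cancel (l * s) (w 0)]
        exact (IsUltrametricDist.norm_add_le_max _ _).trans (max_le hs.le (hw.1 0))
      rw [norm_mul, hn] at h3
      nlinarith [norm_nonneg s]
    refine (Cl_closed w).closure_subset (Metric.mem_closure_iff.2 fun ε hε => ?_)
    have hg := gs_nonneg (0 : L) 1 (B.comp (Polynomial.C l * X))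
    obtain ⟨p, hp, hp'⟩ := hap (gs (w 0 / l) (1 / (2 * ‖l‖)) (B.comp (Polynomial.C l * X)) * ε /
      (gs 0 1 (B.comp (Polynomial.C l * X)) + 1)) (by positivity)
    refine ⟨_, mem p hp, ?_⟩
    have key := A3_key hδ (B.comp (Polynomial.C l * X)) (fin hE)
      (Ψ := fun s => B'.eval s * Φ (vl w 0 ν (l * s)) - p.eval s) (fun η hη => by
        have hg' := gs_nonneg (0 : L) 1 B'
        obtain ⟨P, Q, h⟩ := happ (η / (gs 0 1 B' + 1)) (by positivity)
        obtain ⟨Λ, hΛ⟩ : ∃ Λ : Pl K (m + 1) → L[X], ∀ P t,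
            (Λ P).eval t = MvPolynomial.aeval (vl w 0 ν t) P := ⟨_, fun P t => eval_lnP K _ _ P t⟩
        refine ⟨B' * (Λ P).comp (Polynomial.C l * X) -
          p * (Λ Q).comp (Polynomial.C l * X), (Λ Q).comp (Polynomial.C l * X), fun s hs => ?_⟩
        have h3 := A0_near hw 0 hν (near s hs)
        obtain ⟨h4, h5⟩ := h _ (h3 ▸ hNw)
        rw [eval_sub, eval_mul, eval_mul, ev, ev, hΛ, hΛ, HH_pt hΦ h3]
        refine ⟨h4, ?_⟩
        have h6 := h5 (by simp)
        rw [sub_div, mul_div_cancel_right₀ _ h4, sub_sub_sub_cancel_right, mul_div_assoc, ← mul_sub,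
          norm_mul]
        calc _ ≤ (gs 0 1 B' + 1) * (η / (gs 0 1 B' + 1)) :=
            mul_le_mul ((norm_eval_le (a := 0) (ρ := 1) (by simpa using le1 s (near s hs))
              B').trans (by linarith))
              h6 (norm_nonneg _) (by positivity)
          _ = η := by field_simp)
      fun s hs hsE => A4_disc (fin hE) (fin hE') hcp1 circ (by positivity) hp'
        (le1 s (near s hs)) hsE
    rw [mul_div_cancel₀ _ hl0, vl_self] at key
    rw [dist_eq_norm]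
    refine lt_of_mul_lt_mul_left (key.trans_lt ?_) hβ.le
    rw [← mul_div_assoc, div_lt_iff₀ (by positivity)]
    nlinarith [mul_pos hβ hε]

end Pool.Agent.Work.MP_e120ef_ag.Br
end

-- merged part: Pool.Agent.Work.MP_e120ef_ag.Br.C2
section
/-! C2: big points, affine changes of coordinates, germs at the generic point. -/

set_option linter.unusedSectionVars false

open Filter Topology Polynomial

namespace Pool.Agent.Work.MP_e120ef_ag.Br

variable {K : Type} [NontriviallyNormedField K] {n : ℕ} {L : Type} [NontriviallyNormedField L]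
  [IsUltrametricDist L] [NormedAlgebra K L] {w : Fin n → L}

theorem C2_pos (hw : Gen K w) {D : Pl K n} (hD : D ≠ 0) : 0 < ‖MvPolynomial.aeval w D‖ := by
  obtain ⟨I, hI⟩ := MvPolynomial.ne_zero_iff.1 hD
  exact (norm_pos_iff.2 hI).trans_le (hw.2 D I)

theorem C2_sub (hw : Gen K w) {m : ℕ} {f : Fin m → Fin n} (hf : Function.Injective f) :
    Gen K fun i => w (f i) := by
  refine ⟨fun i => hw.1 _, fun P I => ?_⟩
  have := hw.2 (MvPolynomial.rename f P) (I.mapDomain f)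
  rwa [MvPolynomial.coeff_rename_mapDomain f hf, MvPolynomial.aeval_rename] at this

theorem C2_hom {m : ℕ} (P : Pl K m) : ∃ (d : ℕ) (Q : Pl K (m + 1)), ∀ (H : Type) [Field H]
    [Algebra K H] (z : Fin (m + 1) → H), z 0 ≠ 0 →
      MvPolynomial.aeval z Q = z 0 ^ d * MvPolynomial.aeval (fun i => z i.succ / z 0) P := by
  induction P using MvPolynomial.induction_on with
  | C c => exact ⟨0, MvPolynomial.C c, fun H _ _ z _ => by simp⟩
  | add p q hp hq =>
    obtain ⟨d, Q, h⟩ := hp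
    obtain ⟨d', Q', h'⟩ := hq
    refine ⟨d + d', Q * MvPolynomial.X 0 ^ d' + Q' * MvPolynomial.X 0 ^ d, fun H _ _ z hz => ?_⟩
    simp only [map_add, map_mul, map_pow, MvPolynomial.aeval_X, h H z hz, h' H z hz]
    ring
  | mul_X p i hp =>
    obtain ⟨d, Q, h⟩ := hp
    refine ⟨d + 1, Q * MvPolynomial.X i.succ, fun H _ _ z hz => ?_⟩
    simp only [map_mul, MvPolynomial.aeval_X, h H z hz]
    field_simp
    ring

theorem C2_aeval {H : Type} [CommRing H] [Algebra K H] (c : Pl K n →ₐ[K] H) (P : Pl K n) :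
    MvPolynomial.aeval (fun i => c (MvPolynomial.X i)) P = c P := by
  rw [← MvPolynomial.comp_aeval_apply, MvPolynomial.aeval_X_left_apply]

theorem big_gen (hw : Gen K w) : Big (pz K w) := fun H _ _ c hc =>
  ⟨n, fun i => c (MvPolynomial.X i), n.le_succ, fun i => by
    rw [hc, pz_apply, MvPolynomial.aeval_X]; exact hw.1 i, fun P I => by
    rw [C2_aeval, hc]; exact hw.2 P I⟩

/-- the affine map `z ↦ z₀ + R z` -/
def af (z₀ : Fin n → K) (R : K) (z : Fin n → L) : Fin n → L :=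
  fun i => algebraMap K L (z₀ i) + algebraMap K L R * z i

/-- the corresponding substitution -/
noncomputable def afP (z₀ : Fin n → K) (R : K) : Pl K n →ₐ[K] Pl K n :=
  MvPolynomial.aeval fun i => MvPolynomial.C (z₀ i) + MvPolynomial.C R * MvPolynomial.X i

theorem aeval_afP (z₀ : Fin n → K) (R : K) (z : Fin n → L) (P : Pl K n) :
    MvPolynomial.aeval z (afP z₀ R P) = MvPolynomial.aeval (af z₀ R z) P := by
  rw [afP, MvPolynomial.comp_aeval_apply]
  simp only [map_add, map_mul, MvPolynomial.aeval_C, MvPolynomial.aeval_X]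
  rfl

theorem afP_comp (z₀ z₁ : Fin n → K) (R R₁ : K) (h : ∀ i, z₁ i + R₁ * z₀ i = 0) (h' : R₁ * R = 1)
    (P : Pl K n) : afP z₀ R (afP z₁ R₁ P) = P := by
  have e : (afP z₀ R).comp (afP z₁ R₁) = AlgHom.id K (Pl K n) := by
    refine MvPolynomial.algHom_ext fun i => ?_
    have a1 := congrArg (MvPolynomial.C : K → Pl K n) (h i)
    have a2 := congrArg (MvPolynomial.C : K → Pl K n) h'
    simp only [map_add, map_mul, map_zero, map_one] at a1 a2
    simp only [afP, AlgHom.comp_apply, map_add, map_mul, MvPolynomial.aeval_C, MvPolynomial.aeval_X,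
      AlgHom.id_apply, MvPolynomial.algebraMap_eq]
    linear_combination a1 + (MvPolynomial.X i : Pl K n) * a2
  exact DFunLike.congr_fun e P

theorem afP_inv (z₀ : Fin n → K) {R : K} (hR : R ≠ 0) (P : Pl K n) :
    afP z₀ R (afP (fun i => -z₀ i / R) R⁻¹ P) = P ∧ afP (fun i => -z₀ i / R) R⁻¹ (afP z₀ R P) = P :=
  ⟨afP_comp _ _ _ _ (fun i => by field_simp; ring) (inv_mul_cancel₀ hR) P,
    afP_comp _ _ _ _ (fun i => by field_simp; ring) (mul_inv_cancel₀ hR) P⟩

theorem afP_ne (z₀ : Fin n → K) {R : K} (hR : R ≠ 0) {P : Pl K n} (hP : P ≠ 0) : afP z₀ R P ≠ 0 :=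
  fun e => hP (by rw [← (afP_inv z₀ hR P).2, e, map_zero])

theorem pz_af (z₀ : Fin n → K) (R : K) (z : Fin n → L) :
    pz K (af z₀ R z) = (pz K z).comap (afP z₀ R) :=
  Sn.ext' fun P => by rw [Sn.comap_apply, pz_apply, pz_apply, aeval_afP]

theorem Oc.af {z₀ : Fin n → K} {R : K} {D : Pl K n} {τ : Sn K (Pl K n)} {φ : (Fin n → L) → L}
    (h : Oc D (τ.comap (afP z₀ R)) φ) : Oc (afP z₀ R D) τ fun z => φ (af z₀ R z) := by
  obtain ⟨N, hN, k⟩ := h
  refine ⟨_, (Sn.cont_comap (afP z₀ R)).continuousAt hN, fun ε hε => ?_⟩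
  obtain ⟨p, q, m⟩ := k ε hε
  refine ⟨afP z₀ R p, afP z₀ R q, fun z hz => ?_⟩
  simp only [aeval_afP]
  exact m _ (by rw [pz_af]; exact hz)

/-- transport of a germ class along an affine map -/
noncomputable def GC.af (γ : GC K n L) (z₀ : Fin n → K) {R : K} (hR : R ≠ 0) : GC K n L where
  F := map (Br.af z₀ R) γ.F
  P Φ := γ.P fun z => Φ (Br.af z₀ R z)
  τ := γ.τ.comap (afP z₀ R)
  ne := γ.ne.map _
  le := tendsto_map' (((Sn.cont_comap (afP z₀ R)).tendsto _).comp γ.le |>.congr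
    fun z => (pz_af z₀ R z).symm)
  nz D hD := eventually_map.2 ((γ.nz _ (afP_ne z₀ hR hD)).mono fun z hz => by
    rwa [aeval_afP] at hz)
  big H _ _ c hc := γ.big H (c.comp (afP (fun i => -z₀ i / R) R⁻¹)) fun a => by
    rw [AlgHom.comp_apply, hc, Sn.comap_apply, (afP_inv z₀ hR a).1]
  congr h e := γ.congr h (eventually_map.1 e)
  add h h' := γ.add h h'
  mul h h' := γ.mul h h'
  oc hD h := γ.oc (afP_ne z₀ hR hD) h.af
  dich h := (γ.dich h).imp (fun e => eventually_map.2 e) fun e => ⟨eventually_map.2 e.1, e.2⟩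

theorem C2_le_add {x y : L} (hx : ‖x‖ ≤ 1) (hy : ‖y‖ ≤ 1) : ‖x + y‖ ≤ 1 :=
  (IsUltrametricDist.norm_add_le_max _ _).trans (max_le hx hy)

theorem C2_tr (hw : Gen K w) {z₀ : Fin n → K} (h : ∀ i, ‖z₀ i‖ ≤ 1) (P : Pl K n) :
    ‖MvPolynomial.aeval w P‖ ≤ ‖MvPolynomial.aeval (af z₀ 1 w) P‖ := by
  have h1 := A0_le hw (z := af (fun i => -z₀ i) 1 w) (fun i => C2_le_add
    (by rw [norm_algebraMap', norm_neg]; exact h i) (by rw [map_one, one_mul]; exact hw.1 i))
    (afP z₀ 1 P)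
  rw [aeval_afP, aeval_afP] at h1
  convert h1 using 4
  funext i
  simp [af]

variable [IsAlgClosed L] [Om L]

theorem rad_gs (hw : Gen K w) {z₀ : Fin n → K} (h : ∀ i, ‖z₀ i‖ ≤ 1) {l : L} (hl : l ≠ 0)
    (P : Pl K n) :
    gs 0 ‖l‖ (lnP K (fun i => algebraMap K L (z₀ i)) (fun i => l⁻¹ * w i) P) = pz K w P := by
  refine le_antisymm ?_ ((C2_tr hw h P).trans ?_)
  · obtain ⟨t, -, h1, h2⟩ := GP1 (0 : L) (norm_pos_iff.2 hl) Set.finite_empty
      (lnP K (fun i => algebraMap K L (z₀ i)) (fun i => l⁻¹ * w i) P)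
    rw [← h2, eval_lnP]
    refine A0_le hw (fun i => C2_le_add (by rw [norm_algebraMap']; exact h i) ?_) P
    rw [sub_zero] at h1
    rw [← mul_assoc, norm_mul, norm_mul, norm_inv, h1, mul_inv_cancel₀ (norm_ne_zero_iff.2 hl),
      one_mul]
    exact hw.1 i
  · refine le_trans (le_of_eq ?_) (norm_eval_le (t := l) (by rw [sub_zero]) _)
    rw [eval_lnP]
    congr 3
    funext i
    simp [af, ln, hl]

theorem rad_ne (hw : Gen K w) (D : Pl K n) (hD : D ≠ 0) : lnP K 0 w D ≠ 0 := fun e => by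
  have h := eval_lnP K 0 w D 1
  have h1 : ln 0 w 1 = w := funext fun i => by simp [ln]
  rw [e, eval_zero, h1] at h
  exact (C2_pos hw hD).ne' (by rw [← h, norm_zero])

theorem big_rad (hw : Gen K w) {ρ : ℝ} (hρ : 0 < ρ) : Big (lnS K 0 w 0 ρ) := by
  intro H _ _ c hc
  cases n with
  | zero =>
    refine ⟨0, Fin.elim0, Nat.zero_le _, fun i => i.elim0, fun P I => ?_⟩
    rw [MvPolynomial.eq_C_of_isEmpty P, Subsingleton.elim I 0, MvPolynomial.coeff_zero_C,
      MvPolynomial.aeval_C, ← c.commutes, hc, Sn.alg]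
  | succ m =>
    have hx : ∀ i, ‖c (MvPolynomial.X i)‖ = ρ := fun i => by
      obtain ⟨t, -, h1, h2⟩ := GP1 (0 : L) hρ Set.finite_empty (lnP K 0 w (MvPolynomial.X i))
      rw [sub_zero] at h1
      refine (hc _).trans (h2.symm.trans ?_)
      rw [eval_lnP, MvPolynomial.aeval_X, ln, Pi.zero_apply, zero_add, norm_mul, h1, A0_one hw,
        mul_one]
    refine ⟨m, fun i => c (MvPolynomial.X i.succ) / c (MvPolynomial.X 0), le_rfl, fun i => by
      rw [norm_div, hx, hx, div_self hρ.ne'], fun P I => ?_⟩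
    obtain ⟨d, Q, hQ⟩ := C2_hom P
    have h1 := hQ H (fun i => c (MvPolynomial.X i)) (norm_pos_iff.1 (hx 0 ▸ hρ))
    obtain ⟨t, -, h2, h3⟩ := GP1 (0 : L) hρ Set.finite_empty (lnP K 0 w Q)
    rw [sub_zero] at h2
    have t0 : t ≠ 0 := norm_pos_iff.1 (h2 ▸ hρ)
    have w0 : w 0 ≠ 0 := norm_pos_iff.1 (by rw [A0_one hw]; exact one_pos)
    have h4 := hQ L (ln 0 w t) (by simp [ln, t0, w0])
    have h5 := hQ L w w0
    have h6 := hQ L (Fin.cons 1 fun i => w i.succ) one_ne_zero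
    have h7 := A0_le hw (z := Fin.cons 1 fun i => w i.succ)
      (Fin.cases norm_one.le fun i => hw.1 _) Q
    simp only [Fin.cons_zero, Fin.cons_succ, one_pow, div_one, one_mul] at h6
    simp only [ln, Pi.zero_apply, zero_add, mul_div_mul_left _ _ t0] at h4
    rw [h5, h6, norm_mul, norm_pow, A0_one hw, one_pow, one_mul] at h7
    refine ((C2_sub hw (Fin.succ_injective m)).2 P I).trans (h7.trans (le_of_eq ?_))
    rw [C2_aeval] at h1
    have h8 := (hc Q).trans h3.symm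
    rw [h1, eval_lnP] at h8
    have h9 : MvPolynomial.aeval (ln 0 w t) Q = _ := h4
    rw [h9, norm_mul, norm_mul, norm_pow, norm_pow, norm_mul, hx, h2, A0_one hw, mul_one] at h8
    exact (mul_left_cancel₀ (pow_pos hρ d).ne' h8).symm

theorem vert_ne (hw : Gen K w) (i₀ : Fin n) {ν : Fin n → K} (hν : ∀ i, ‖ν i‖ ≤ 1) (D : Pl K n)
    (hD : D ≠ 0) :
    lnP K (fun i => w i - w i₀ * algebraMap K L (ν i)) (fun i => algebraMap K L (ν i)) D ≠ 0 :=
  fun e => by
    have h := A0_gs hw i₀ hν D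
    rw [e, gs_zero] at h
    exact (C2_pos hw hD).ne h

theorem big_vert (hw : Gen K w) (i₀ : Fin n) {ν : Fin n → K} (h1 : ν i₀ = 1)
    (hν : ∀ i, ‖ν i‖ ≤ 1) (a : L) (ρ : ℝ) :
    Big (lnS K (fun i => w i - w i₀ * algebraMap K L (ν i)) (fun i => algebraMap K L (ν i)) a ρ) := by
  intro H _ _ c hc
  obtain ⟨m, rfl⟩ := Nat.exists_eq_succ_of_ne_zero i₀.pos.ne'
  let σ : Fin m → Pl K (m + 1) := fun i =>
    MvPolynomial.X (i₀.succAbove i) - MvPolynomial.C (ν (i₀.succAbove i)) * MvPolynomial.X i₀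
  have key : ∀ P : Pl K m, ‖MvPolynomial.aeval (fun i => c (σ i)) P‖ =
      ‖MvPolynomial.aeval w (MvPolynomial.aeval σ P)‖ := fun P => by
    rw [← MvPolynomial.comp_aeval_apply, hc, ← gs_C a ρ]
    refine congrArg (gs a ρ) ?_
    refine Polynomial.funext fun t => ?_
    rw [eval_lnP, eval_C, MvPolynomial.comp_aeval_apply, MvPolynomial.comp_aeval_apply]
    congr 2
    funext i
    simp only [σ, ln, h1, map_sub, map_mul, map_one, MvPolynomial.aeval_X, MvPolynomial.aeval_C]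
    ring
  refine ⟨m, fun i => c (σ i), le_rfl, fun i => ?_, fun P I => ?_⟩
  · have := key (MvPolynomial.X i)
    simp only [MvPolynomial.aeval_X, σ, map_sub, map_mul, MvPolynomial.aeval_C] at this
    simp only [σ, map_sub, map_mul]
    rw [this, sub_eq_add_neg]
    refine C2_le_add (hw.1 _) ?_
    rw [norm_neg, norm_mul, norm_algebraMap']
    exact mul_le_one₀ (hν _) (norm_nonneg _) (hw.1 _)
  · rw [key]
    refine ((C2_sub hw (Fin.succAbove_right_injective (p := i₀))).2 P I).trans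
      (le_trans (le_of_eq ?_) (A0_le hw (z := Function.update w i₀ 0) (fun i => ?_) _))
    · rw [MvPolynomial.comp_aeval_apply]
      congr 3
      funext i
      simp [σ]
    · by_cases e : i = i₀
      · simp [e]
      · rw [Function.update_of_ne e]; exact hw.1 i

end Pool.Agent.Work.MP_e120ef_ag.Br
end

-- merged part: Pool.Agent.Work.MP_e120ef_ag.Br.C3
section
/-! C3: germs at the generic point, the family, propagation of zeros. -/

set_option linter.unusedSectionVars false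

open Filter Topology Polynomial

namespace Pool.Agent.Work.MP_e120ef_ag.Br

variable {K : Type} [NontriviallyNormedField K] {n : ℕ} {L : Type} [NontriviallyNormedField L]
  [IsUltrametricDist L] [NormedAlgebra K L] [IsAlgClosed L] [Om L] {w : Fin n → L}
  {η : Sn K (Pl K n)} {Φ Ψ φ : (Fin n → L) → L}

theorem eventually_HH {p : (Fin n → L) → Prop} : (∀ᶠ z in HH L η, p z) ↔
    (∀ z, pz K z = η → p z) ∧ ∀ (z₀ ν : Fin n → L) (a : L) (ρ : ℝ), 0 < ρ →
      (∀ P, gs a ρ (lnP K z₀ ν P) = η P) → ∀ᶠ t in GG a ρ, p (ln z₀ ν t) := by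
  simp only [HH, eventually_sup, eventually_principal, eventually_iSup, eventually_map,
    Set.mem_ofPred_eq]

theorem HH_le : Tendsto (pz K) (HH L η) (𝓝 η) := fun _ hN =>
  eventually_HH.2 ⟨fun z hz => by rw [← hz] at hN; exact mem_of_mem_nhds hN,
    fun _ _ a ρ _ h => (tendsto_ln h).mono_left (GG_le a ρ) hN⟩

theorem Oc.zero (h : Oc 1 (pz K w) φ) (h0 : φ w = 0) : φ =ᶠ[HH L (pz K w)] 0 := by
  obtain ⟨N, hN, k⟩ := oc_one.1 h
  have hw := mem_of_mem_nhds hN
  refine eventually_HH.2 ⟨fun z hz => norm_le_zero_iff.1 (le_of_forall_pos_le_add fun ε hε => ?_),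
    fun z₀ ν a ρ hρ e => ZK hρ (tendsto_ln e hN) Set.finite_empty fun ε hε => ?_⟩
  · obtain ⟨p, q, m⟩ := k ε hε
    have h1 := (m w hw).2
    rw [h0, zero_sub, norm_neg, norm_div, ← pz_apply, ← pz_apply, ← hz, pz_apply, pz_apply,
      ← norm_div] at h1
    rw [zero_add]
    exact C1_le (m z (by rw [hz]; exact hw)).2 h1
  · obtain ⟨p, q, m⟩ := k ε hε
    refine ⟨lnP K z₀ ν p, lnP K z₀ ν q, ⟨fun t ht => ?_, fun t ht _ => ?_⟩, ?_⟩
    · rw [eval_lnP]; exact (m _ ht).1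
    · rw [eval_lnP, eval_lnP]; exact (m _ ht).2
    · have h1 := (m w hw).2
      rw [h0, zero_sub, norm_neg, norm_div, div_le_iff₀ (norm_pos_iff.2 (m w hw).1)] at h1
      rw [e, e]
      exact h1

/-- the germs at the generic point -/
noncomputable def gcGen (hw : Gen K w) : GC K n L where
  F := HH L (pz K w)
  P := KL (pz K w)
  τ := pz K w
  ne := forall_mem_nonempty_iff_neBot.1 fun _ hS => ⟨w, (eventually_HH.1 hS).1 w rfl⟩
  le := HH_le
  nz D hD := by
    have h : pz K w D ≠ 0 := (C2_pos hw hD).ne'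
    exact (HH_le.eventually ((Sn.cont D).continuousAt.eventually_ne h)).mono
      fun _ hz => norm_ne_zero_iff.1 hz
  big := big_gen hw
  congr := fun ⟨φ, h, e⟩ e' => ⟨φ, h, e'.symm.trans e⟩
  add := fun ⟨φ, h, e⟩ ⟨ψ, h', e'⟩ => ⟨φ + ψ, h.add h', e.add e'⟩
  mul := fun ⟨φ, h, e⟩ ⟨ψ, h', e'⟩ => ⟨φ * ψ, h.mul h', e.mul e'⟩
  oc hD h := ⟨_, h.one (C2_pos hw hD).ne', EventuallyEq.rfl⟩
  dich := fun ⟨φ, h, e⟩ => by
    by_cases h0 : φ w = 0
    · exact Or.inl (e.trans (h.zero h0))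
    · obtain ⟨⟨N, hN, h1⟩, h2⟩ := h.inv h0
      refine Or.inr ⟨?_, φ⁻¹, h2, e.inv⟩
      filter_upwards [e, HH_le hN] with z hz hz'
      rw [hz]
      exact h1 z hz'

theorem KL.zero_iff (hw : Gen K w) (h : KL (pz K w) Ψ) : Ψ =ᶠ[HH L (pz K w)] 0 ↔ Ψ w = 0 :=
  ⟨fun e => (eventually_HH.1 e).1 w rfl, fun e => ((gcGen hw).dich h).resolve_right fun k =>
    (eventually_HH.1 k.1).1 w rfl e⟩

theorem KL.link (hw : Gen K w) (h : KL (pz K w) Ψ) {z₀ ν : Fin n → L} {a : L} {ρ : ℝ} (hρ : 0 < ρ)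
    (e : ∀ P, gs a ρ (lnP K z₀ ν P) = pz K w P) :
    (fun t => Ψ (ln z₀ ν t)) =ᶠ[GG a ρ] 0 ↔ Ψ w = 0 := by
  refine ⟨fun k => (h.zero_iff hw).1 (((gcGen hw).dich h).resolve_right fun k' => ?_),
    fun k => (eventually_HH.1 ((h.zero_iff hw).2 k)).2 z₀ ν a ρ hρ e⟩
  obtain ⟨t, h1, h2⟩ := (k.and ((eventually_HH.1 k'.1).2 z₀ ν a ρ hρ e)).exists
  exact h2 h1

/-- germs on the line through `w` with direction `ν` -/
noncomputable def gcV (hw : Gen K w) (i₀ : Fin n) {ν : Fin n → K} (h1 : ν i₀ = 1)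
    (hν : ∀ i, ‖ν i‖ ≤ 1) (a : L) (ρ : ℝ) : GC K n L :=
  gcLine _ _ a ρ (vert_ne hw i₀ hν) (big_vert hw i₀ h1 hν a ρ)

/-- germs on the line through `0` with direction `w` -/
noncomputable def gcR (hw : Gen K w) {ρ : ℝ} (hρ : 0 < ρ) : GC K n L :=
  gcLine 0 w 0 ρ (rad_ne hw) (big_rad hw hρ)

/-- the family of germ classes -/
def Fam (hw : Gen K w) : Set (GC K n L) :=
  {γ | (∃ (R : K) (hR : R ≠ 0), γ = (gcGen hw).af 0 hR) ∨
    (∃ (R : K) (hR : R ≠ 0) (i₀ : Fin n) (ν : Fin n → K) (h1 : ν i₀ = 1) (hν : ∀ i, ‖ν i‖ ≤ 1)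
      (a : L) (ρ : ℝ), γ = (gcV hw i₀ h1 hν a ρ).af 0 hR) ∨
    ∃ (z₀ : Fin n → K) (ρ : ℝ) (hρ : 0 < ρ), γ = (gcR hw hρ).af z₀ one_ne_zero}

variable {hw : Gen K w}

theorem fam_gen (h : ∀ γ ∈ Fam hw, γ.P Ψ) {R : K} (hR : R ≠ 0) :
    KL (pz K w) fun z => Ψ (af 0 R z) := h _ (Or.inl ⟨R, hR, rfl⟩)

theorem fam_vert (h : ∀ γ ∈ Fam hw, γ.P Ψ) {R : K} (hR : R ≠ 0) (i₀ : Fin n) (ν : Fin n → K)
    (h1 : ν i₀ = 1) (hν : ∀ i, ‖ν i‖ ≤ 1) (a : L) (ρ : ℝ) :
    LH a ρ fun s => Ψ (af 0 R (vl w i₀ ν s)) := h _ (Or.inr (Or.inl ⟨R, hR, i₀, ν, h1, hν, a, ρ, rfl⟩))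

theorem fam_rad (h : ∀ γ ∈ Fam hw, γ.P Ψ) (z₀ : Fin n → K) {ρ : ℝ} (hρ : 0 < ρ) :
    LH 0 ρ fun t => Ψ (af z₀ 1 (ln 0 w t)) := h _ (Or.inr (Or.inr ⟨z₀, ρ, hρ, rfl⟩))

theorem C3_af (w : Fin n → L) (z₀ : Fin n → K) {R : K} (hR : R ≠ 0) (t : L) :
    af z₀ 1 (ln 0 w t) = af 0 R (ln (fun i => algebraMap K L (z₀ i / R))
      (fun i => (algebraMap K L R)⁻¹ * w i) t) := by
  have : algebraMap K L R ≠ 0 := (_root_.map_ne_zero _).2 hR
  funext i
  simp only [af, ln, Pi.zero_apply, map_zero, map_one, map_div₀]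
  field_simp
  ring

theorem rad_link (h : ∀ γ ∈ Fam hw, γ.P Ψ) {z₀ : Fin n → K} {R : K} (hR : R ≠ 0)
    (hz : ∀ i, ‖z₀ i‖ ≤ ‖R‖) {ρ : ℝ} (hρ : 0 < ρ) :
    (fun t => Ψ (af z₀ 1 (ln 0 w t))) =ᶠ[GG 0 ρ] 0 ↔ Ψ (af 0 R w) = 0 := by
  have h0 : algebraMap K L R ≠ 0 := (_root_.map_ne_zero _).2 hR
  have h1 := norm_pos_iff.2 h0
  have h2 := (fam_gen h hR).link hw h1 (rad_gs hw (z₀ := fun i => z₀ i / R) (fun i => by
    rw [norm_div]; exact div_le_one_of_le₀ (hz i) (norm_nonneg _)) h0)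
  simp only [← C3_af w z₀ hR] at h2
  rw [← h2]
  exact ⟨fun e => SL isPreconnected_Ioi (fun r hr => fam_rad h z₀ hr) hρ e h1,
    fun e => SL isPreconnected_Ioi (fun r hr => fam_rad h z₀ hr) h1 e hρ⟩

theorem gen_link (h : ∀ γ ∈ Fam hw, γ.P Ψ) {R : K} (hR : R ≠ 0) :
    Ψ (af 0 R w) = 0 ↔ Ψ (af 0 (1 : K) w) = 0 :=
  (rad_link h hR (z₀ := 0) (fun _ => by simp) one_pos).symm.trans
    (rad_link h one_ne_zero (z₀ := 0) (fun _ => by simp) one_pos)

theorem fam_link (h : ∀ γ ∈ Fam hw, γ.P Ψ) {γ : GC K n L} (hγ : γ ∈ Fam hw) :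
    Ψ =ᶠ[γ.F] 0 ↔ Ψ (af 0 (1 : K) w) = 0 := by
  rcases hγ with ⟨R, hR, rfl⟩ | ⟨R, hR, i₀, ν, h1, hν, a, ρ, rfl⟩ | ⟨z₀, ρ, hρ, rfl⟩
  · exact ((fam_gen h hR).zero_iff hw).trans (gen_link h hR)
  · refine Iff.trans ?_ (((fam_gen h hR).link hw one_pos (A0_gs hw i₀ hν)).trans (gen_link h hR))
    exact ⟨fun e => CN (fam_vert h hR i₀ ν h1 hν) e 0 1,
      fun e => CN (fam_vert h hR i₀ ν h1 hν) e a ρ⟩
  · obtain ⟨R, hR⟩ := NormedField.exists_lt_norm K ‖z₀‖
    have R0 : R ≠ 0 := norm_pos_iff.1 ((norm_nonneg _).trans_lt hR)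
    exact (rad_link h R0 (fun i => (norm_le_pi_norm z₀ i).trans hR.le) hρ).trans (gen_link h R0)

theorem fam_near (z₀ : Fin n → K) (S : Set (Fin n → L)) (hS : ∀ γ ∈ Fam hw, S ∈ γ.F) {δ : ℝ}
    (hδ : 0 < δ) : ∃ z ∈ S, ∀ i, ‖z i - algebraMap K L (z₀ i)‖ < δ := by
  have h1 : ∀ᶠ t in GG (0 : L) (δ / 2), af z₀ 1 (ln 0 w t) ∈ S :=
    hS _ (Or.inr (Or.inr ⟨z₀, δ / 2, half_pos hδ, rfl⟩))
  obtain ⟨t, h2, h3⟩ := (h1.and (GG_le _ _ (ball_mem_FF (half_lt_self hδ) hδ))).exists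
  refine ⟨_, h2, fun i => ?_⟩
  have h4 : ‖t‖ < δ := by simpa using h3
  simp only [af, ln, Pi.zero_apply, map_one, one_mul, zero_add, add_sub_cancel_left, norm_mul]
  exact (mul_le_of_le_one_right (norm_nonneg _) (hw.1 i)).trans_lt h4

end Pool.Agent.Work.MP_e120ef_ag.Br
end

-- merged part: Pool.Agent.Work.MP_e120ef_ag.Br.C4
section
/-! C4: a relation at the generic point of a polydisc holds at the generic point of a smaller
polydisc. -/

set_option linter.unusedSectionVars false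

open Filter Topology Polynomial

namespace Pool.Agent.Work.MP_e120ef_ag.Br

variable {K : Type} [NontriviallyNormedField K] {n : ℕ} {L : Type} [NontriviallyNormedField L]
  [IsUltrametricDist L] [NormedAlgebra K L] {w : Fin n → L} {Φ φ a b : (Fin n → L) → L}

variable (K) in
/-- uniform limits of polynomials on the unit polydisc -/
def UP (a : (Fin n → L) → L) : Prop :=
  ∀ ε > 0, ∃ P : Pl K n, ∀ z, (∀ i, ‖z i‖ ≤ 1) → ‖a z - MvPolynomial.aeval z P‖ ≤ ε

theorem C4_ap (hw : Gen K w) (h : Oc 1 (pz K w) φ) (ha : UP K a) (hb : UP K b) :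
    ∃ N ∈ 𝓝 (pz K w), ∀ ε > 0, ∃ p q : Pl K n, ∀ z, pz K z ∈ N → (∀ i, ‖z i‖ ≤ 1) →
      MvPolynomial.aeval z q ≠ 0 ∧
        ‖b z * φ z - a z - MvPolynomial.aeval z p / MvPolynomial.aeval z q‖ ≤ ε := by
  obtain ⟨N₁, hN₁, M, c₁, d₁⟩ := h.bdd
  obtain ⟨N, hN, k⟩ := oc_one.1 h
  refine ⟨N ∩ N₁, inter_mem hN hN₁, fun ε hε => ?_⟩
  have M0 : 0 < M := one_pos.trans_le c₁
  obtain ⟨A, hA⟩ := ha ε hε
  obtain ⟨B, hB⟩ := hb (ε / M) (div_pos hε M0)
  have B0 : 0 < ‖MvPolynomial.aeval w B‖ + 1 := by positivity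
  obtain ⟨p, q, m⟩ := k _ (div_pos hε B0)
  refine ⟨B * p - A * q, q, fun z hz hD => ⟨(m z hz.1).1, ?_⟩⟩
  obtain ⟨a1, a2⟩ := m z hz.1
  have e : b z * φ z - a z - MvPolynomial.aeval z (B * p - A * q) / MvPolynomial.aeval z q =
      ((b z - MvPolynomial.aeval z B) * φ z + MvPolynomial.aeval z B *
        (φ z - MvPolynomial.aeval z p / MvPolynomial.aeval z q)) +
        -(a z - MvPolynomial.aeval z A) := by
    simp only [map_mul, map_sub]
    field_simp
    ring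
  rw [e]
  refine (IsUltrametricDist.norm_add_le_max _ _).trans (max_le
    ((IsUltrametricDist.norm_add_le_max _ _).trans (max_le ?_ ?_)) ?_)
  · rw [norm_mul]
    exact (mul_le_mul (hB z hD) (d₁ z hz.2) (norm_nonneg _) (div_pos hε M0).le).trans_eq
      (div_mul_cancel₀ ε M0.ne')
  · rw [norm_mul]
    exact (mul_le_mul ((A0_le hw hD B).trans (le_add_of_nonneg_right zero_le_one)) a2
      (norm_nonneg _) B0.le).trans_eq (mul_div_cancel₀ ε B0.ne')
  · rw [norm_neg]; exact hA z hD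

theorem UP.oc (hw : Gen K w) (ha : UP K a) {q : K} (q0 : q ≠ 0) (hq : ‖q‖ < 1) :
    Oc 1 (pz K w) fun z => a (af 0 q z) := by
  have h0 := norm_pos_iff.2 q0
  have hN : ∀ᶠ ξ in 𝓝 (pz K w), ∀ i, ξ (MvPolynomial.X i) < ‖q‖⁻¹ :=
    eventually_all.2 fun i => (Sn.cont _).continuousAt.eventually (gt_mem_nhds (by
      beta_reduce
      rw [pz_apply, MvPolynomial.aeval_X]
      exact (hw.1 i).trans_lt ((one_lt_inv₀ h0).2 hq)))
  refine oc_one.2 ⟨_, hN, fun ε hε => ?_⟩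
  obtain ⟨P, hP⟩ := ha ε hε
  refine ⟨afP 0 q P, 1, fun z hz => ⟨by simp, ?_⟩⟩
  rw [map_one, div_one, aeval_afP]
  refine hP _ fun i => ?_
  have h1 := hz i
  rw [pz_apply, MvPolynomial.aeval_X] at h1
  rw [af, Pi.zero_apply, map_zero, zero_add, norm_mul, norm_algebraMap']
  exact (mul_le_mul_of_nonneg_left h1.le h0.le).trans_eq (mul_inv_cancel₀ h0.ne')

theorem C4_le (hw : Gen K w) {l t : L} (ht : ‖t‖ ≤ ‖l‖) (i : Fin n) :
    ‖ln (fun i => algebraMap K L ((0 : Fin n → K) i)) (fun i => l⁻¹ * w i) t i‖ ≤ 1 := by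
  rw [ln, Pi.zero_apply, map_zero, zero_add, ← mul_assoc, norm_mul, ← div_eq_mul_inv, norm_div]
  exact mul_le_one₀ (div_le_one_of_le₀ ht (norm_nonneg _)) (norm_nonneg _) (hw.1 i)

variable [IsAlgClosed L] [Om L]

theorem UP.lh (hw : Gen K w) (ha : UP K a) {l : L} {r : ℝ} (hr : r ∈ Set.Ioo 0 ‖l‖) :
    LH 0 r fun t => a (ln (fun i => algebraMap K L ((0 : Fin n → K) i)) (fun i => l⁻¹ * w i) t) := by
  refine LH.of_ap (ball_mem_FF hr.2 (hr.1.trans hr.2)) Set.finite_empty fun ε hε => ?_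
  obtain ⟨P, hP⟩ := ha ε hε
  refine ⟨lnP K (fun i => algebraMap K L ((0 : Fin n → K) i)) (fun i => l⁻¹ * w i) P, 1,
    fun t _ => by simp, fun t ht _ => ?_⟩
  rw [eval_one, div_one, eval_lnP]
  exact hP _ (C4_le hw (le_of_lt (by simpa using ht)))

theorem compat {hw : Gen K w} (h : ∀ γ ∈ Fam hw, γ.P Φ) {R q : K} (hR : R ≠ 0) (q0 : q ≠ 0)
    (hq : ‖q‖ < 1) (ha : UP K a) (hb : UP K b) (e : b w * Φ (af 0 R w) = a w) :
    b (af 0 q w) * Φ (af 0 (q * R) w) = a (af 0 q w) := by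
  have l0 : algebraMap K L R ≠ 0 := (_root_.map_ne_zero _).2 hR
  have l1 : algebraMap K L q ≠ 0 := (_root_.map_ne_zero _).2 q0
  have l2 : algebraMap K L (q * R) ≠ 0 := (_root_.map_ne_zero _).2 (mul_ne_zero q0 hR)
  have hρ := norm_pos_iff.2 l0
  have g1 := rad_gs hw (z₀ := 0) (fun _ => by simp) l0
  have g2 := rad_gs hw (z₀ := 0) (fun _ => by simp) l2
  have k1 := fun t => C4_le hw (l := algebraMap K L R) (t := t)
  have k2 := fun r => ha.lh hw (l := algebraMap K L R) (r := r)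
  have k3 := fun r => hb.lh hw (l := algebraMap K L R) (r := r)
  have e1 : ∀ t, af 0 (1 : K) (ln 0 w t) = af 0 R (ln (fun i => algebraMap K L ((0 : Fin n → K) i))
      (fun i => (algebraMap K L R)⁻¹ * w i) t) := fun t => funext fun i => by
    simp only [af, ln, Pi.zero_apply, map_zero, map_one]
    field_simp
    ring
  have e2 : ∀ t, af 0 q (ln (fun i => algebraMap K L ((0 : Fin n → K) i))
      (fun i => (algebraMap K L (q * R))⁻¹ * w i) t) = ln (fun i => algebraMap K L ((0 : Fin n → K) i))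
      (fun i => (algebraMap K L R)⁻¹ * w i) t := fun t => funext fun i => by
    simp only [af, ln, Pi.zero_apply, map_zero, map_mul]
    field_simp
    ring
  have e3 : ∀ t, af 0 (q * R) (ln (fun i => algebraMap K L ((0 : Fin n → K) i))
      (fun i => (algebraMap K L (q * R))⁻¹ * w i) t) = af 0 R (ln (fun i => algebraMap K L
      ((0 : Fin n → K) i)) (fun i => (algebraMap K L R)⁻¹ * w i) t) := fun t => funext fun i => by
    simp only [af, ln, Pi.zero_apply, map_zero, map_mul]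
    field_simp
    ring
  have k4 := fun r (hr : 0 < r) => fam_rad h 0 hr
  simp only [e1] at k4
  generalize (fun i => algebraMap K L ((0 : Fin n → K) i)) = o at *
  generalize (fun i => (algebraMap K L R)⁻¹ * w i) = u at *
  obtain ⟨φ, hφ, e'⟩ := fam_gen h hR
  obtain ⟨N, hN, k⟩ := C4_ap hw hφ ha hb
  have s1 := (eventually_HH.1 e').2 _ _ _ _ hρ g1
  rw [GG_eq_FF hρ] at s1
  have e4 : Φ (af 0 R w) = φ w := (eventually_HH.1 e').1 w rfl
  obtain ⟨r₀, hr₀, z1⟩ := ZI (Ψ := fun t => b (ln o u t) * Φ (af 0 R (ln o u t)) - a (ln o u t)) hρ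
    (inter_mem (tendsto_ln g1 hN) s1) Set.finite_empty fun ε hε => by
      obtain ⟨p, q, m⟩ := k ε hε
      refine ⟨lnP K o u p, lnP K o u q, ⟨fun t ht => ?_, fun t ht _ => ?_⟩, ?_⟩
      · rw [eval_lnP]; exact (m _ ht.1.1 (k1 t (by simpa using ht.2))).1
      · have e5 : Φ (af 0 R (ln o u t)) = φ (ln o u t) := ht.1.2
        beta_reduce
        rw [eval_lnP, eval_lnP, e5]
        exact (m _ ht.1.1 (k1 t (by simpa using ht.2))).2
      · obtain ⟨m1, m2⟩ := m w (mem_of_mem_nhds hN) hw.1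
        rw [← e4, e, sub_self, zero_sub, norm_neg, norm_div, div_le_iff₀ (norm_pos_iff.2 m1)] at m2
        rw [g1, g1]
        exact m2
  obtain ⟨r, hr1, hr2⟩ := exists_between (max_lt hr₀ hρ)
  have z2 := SL (Ψ := fun t => b (ln o u t) * Φ (af 0 R (ln o u t)) - a (ln o u t))
    isPreconnected_Ioo (fun r hr => ((k3 r hr).mul (k4 r hr.1)).sub (k2 r hr))
    ⟨(le_max_right _ _).trans_lt hr1, hr2⟩ (z1 r ⟨(le_max_left _ _).trans_lt hr1, hr2⟩)
    (r := ‖algebraMap K L (q * R)‖) ⟨norm_pos_iff.2 l2, by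
      rw [map_mul, norm_mul, norm_algebraMap' L q]
      exact mul_lt_of_lt_one_left hρ hq⟩
  have m1 := (gcGen hw).oc one_ne_zero (ha.oc hw q0 hq)
  have m2 := (gcGen hw).oc one_ne_zero (hb.oc hw q0 hq)
  have m3 := (gcGen hw).oc one_ne_zero (Oc.poly (L := L) (pz K w) (-1))
  have m4 : KL (pz K w) _ := (gcGen hw).add ((gcGen hw).mul m2 (fam_gen h (mul_ne_zero q0 hR)))
    ((gcGen hw).mul m3 m1)
  have := (m4.link hw (norm_pos_iff.2 l2) g2).1 (z2.mono fun t ht => by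
    simp only [Pi.add_apply, Pi.mul_apply, e2, e3, map_neg, map_one, neg_one_mul, ← sub_eq_add_neg]
    exact ht)
  simp only [Pi.add_apply, Pi.mul_apply, map_neg, map_one, neg_one_mul, ← sub_eq_add_neg] at this
  exact sub_eq_zero.1 this

end Pool.Agent.Work.MP_e120ef_ag.Br
end
end
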