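import Pool.Agent.Work.MP_e120ef_ag.H.RatG
import Pool.Agent.Work.MP_e120ef_ag.C.Dsc2
import Pool.Agent.Work.MP_e120ef_ag.Br.C4
import Pool.Agent.Work.MP_e120ef_ag.Br.C1
import Pool.Agent.Work.MP_e120ef_ag.Br.T7
import Pool.Agent.Work.MP_e120ef_ag.C.BMI

attribute [-instance] Subalgebra.normedCommRing Subalgebra.seminormedCommRing
  Subalgebra.seminormedRing Subalgebra.normedRing
  Localization.subalgebra.instIsFractionRingSubtypeMemSubalgebra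
attribute [local instance 2000] RingHomClass.toAddMonoidHomClass AddMonoidHomClass.toAddHomClass
  RingHom.instRingHomClass AlgHomClass.toRingHomClass IsDomain.to_noZeroDivisors
  IsDomain.toNontrivial NeZero.one RingHomClass.toMonoidHomClass MonoidHomClass.toMulHomClass
  RingHomClass.toMonoidWithZeroHomClass AddMonoidHomClass.toZeroHomClass MonoidHomClass.toOneHomClass
attribute [-instance] instCharZeroOfIsSemireal AlgHom.instContinuousLinearMapClassOfAlgHomClass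
  RingHomClass.toLinearMapClassRat RingHomClass.toLinearMapClassNNRat NumberField.to_charZero

-- merged part: Pool.Agent.Work.MP_e120ef_ag.C.Ndg
section
-- merged part: Pool.Agent.Work.MP_e120ef_ag.C.Cop
section
/-!
# Denominators without common zero on a bounded annulus

Plans.  `val_div`: `im p / im q - c = im (p - c q) / im q`; `regV_nonunits`, `nev_ord_div`, `Mer_unit`, `ord₀_eq_zero`.
`val_cop`: `im p / im q - a = im (p - a q) / im q` is zero or has positive order, so `(p - a q) z = 0` (`nev_ord_div`, `ord₀_eq_zero`); hence `q z ≠ 0`.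
`exists_cop`: `im_rep`, `factor` for `q`, then induction on the multiset `s` for the statement: for all `p`, `im p / im (prod s * g)` has a representation; if `p` and `q = prod s * g` have a common zero `z` in the annulus then `z ∈ s` (`Div_eq`), `p = lin z * p'` (`exists_div`), cancel and use `s.erase z` (strong induction on `card`).
`unit_lb`: `no_zero` gives `n` with `IsTop w g n` on the annulus; `IsBot w g n` too (`exists_isBot`, `bot_le_top`, `exists_zero`), so the term `n` dominates: `‖g z‖ = ‖coef g n‖ ‖z‖ ^ n` (or `Zero_key`-free: `hasSum_coef`, ultrametric inequality), bounded below by the minimum at the two ends.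
`cop_lb`: `factor` for `q`; for `ζ ∈ s` one has `p ζ ≠ 0`; choose `η > 0` with `η ≤ ‖w₁‖` and `η * (gn ζ p / ‖ζ‖) < ‖p ζ‖` for all `ζ ∈ s`.  If `‖z - ζ‖ < η` for some `ζ ∈ s` then `‖z‖ = ‖ζ‖` and `‖p z‖ = ‖p ζ‖` (`Zero_lip`); otherwise `‖q z‖ ≥ η ^ card s * c`.
-/

namespace Pool.Agent.Work.MP_e120ef_ag.H.CS

variable {K : Type} [NontriviallyNormedField K] [IsUltrametricDist K] [IsAlgClosed K]
  [CompleteSpace K] {P : Rad}

omit [IsAlgClosed K] in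
theorem Cop_mul (f g : L1 K P) (z : Pt1 K P) : (f * g).1 z = f.1 z * g.1 z := rfl

theorem Cop_ind {g : L1 K P} (hg0 : g ≠ 0) {w₁ w₃ : Pt1 K P}
    (hg : ∀ z : Pt1 K P, ‖w₁.v‖ ≤ ‖z.v‖ → ‖z.v‖ ≤ ‖w₃.v‖ → g.1 z ≠ 0) (p : L1 K P)
    (s : Multiset (Pt1 K P)) : ∃ p' q' : L1 K P, q' ≠ 0 ∧
      im p / im ((s.map fun z => (lin z.v : L1 K P)).prod * g) = im p' / im q' ∧
      ∀ z : Pt1 K P, ‖w₁.v‖ ≤ ‖z.v‖ → ‖z.v‖ ≤ ‖w₃.v‖ → p'.1 z ≠ 0 ∨ q'.1 z ≠ 0 := by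
  induction s using Multiset.induction_on with
  | empty => exact ⟨p, g, hg0, by simp, fun z h1 h2 => Or.inr (hg z h1 h2)⟩
  | cons ζ s ih =>
    obtain ⟨p', q', hq', he, hc⟩ := ih
    have hl : im (lin ζ.v : L1 K P) ≠ 0 := im_ne (lin_ne_zero _)
    have he' : im p / im (((ζ ::ₘ s).map fun z => (lin z.v : L1 K P)).prod * g) =
        im p' / im (lin ζ.v * q') := by
      rw [Multiset.map_cons, Multiset.prod_cons, mul_assoc]
      simp only [im, map_mul] at he ⊢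
      rw [mul_comm (algebraMap _ _ (lin ζ.v : L1 K P)), mul_comm (algebraMap _ _ (lin ζ.v : L1 K P)),
        ← div_div, ← div_div _ (algebraMap _ _ q'), he]
    by_cases hz : p'.1 ζ = 0
    · obtain ⟨p'', rfl⟩ := exists_div hz
      refine ⟨p'', q', hq', ?_, fun z h1 h2 => (hc z h1 h2).imp_left fun h h' => h ?_⟩
      · rw [he']
        simp only [im, map_mul] at hl ⊢
        exact mul_div_mul_left _ _ hl
      · rw [Cop_mul, h', mul_zero]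
    · refine ⟨p', lin ζ.v * q', mul_ne_zero (lin_ne_zero _) hq', he', fun z h1 h2 => ?_⟩
      by_cases hp : p'.1 z = 0
      · refine Or.inr ?_
        rw [Cop_mul]
        refine mul_ne_zero (fun h => hz ?_) ((hc z h1 h2).resolve_left (not_not.2 hp))
        rwa [Div_eq h] at hp
      · exact Or.inl hp

theorem exists_cop (y : MM K P) (w₁ w₃ : Pt1 K P) : ∃ p q : L1 K P, q ≠ 0 ∧ y = im p / im q ∧
    ∀ z : Pt1 K P, ‖w₁.v‖ ≤ ‖z.v‖ → ‖z.v‖ ≤ ‖w₃.v‖ → p.1 z ≠ 0 ∨ q.1 z ≠ 0 := by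
  obtain ⟨p, q, hq, rfl⟩ := im_rep y
  obtain ⟨s, g, -, hg, rfl⟩ := factor hq w₁ w₃
  exact Cop_ind (right_ne_zero_of_mul hq) hg p s

theorem Cop_zpow {a x b : ℝ} (ha : 0 < a) (h1 : a ≤ x) (h2 : x ≤ b) (n : ℤ) :
    min (a ^ n) (b ^ n) ≤ x ^ n := by
  obtain ⟨k, rfl | rfl⟩ := Int.eq_nat_or_neg n
  · refine (min_le_left _ _).trans ?_
    rw [zpow_natCast, zpow_natCast]
    exact pow_le_pow_left₀ ha.le h1 k
  · refine (min_le_right _ _).trans ?_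
    rw [zpow_neg, zpow_neg, zpow_natCast, zpow_natCast]
    exact inv_anti₀ (pow_pos (ha.trans_le h1) k) (pow_le_pow_left₀ (ha.le.trans h1) h2 k)

theorem Cop_dom {g : L1 K P} (hg : g ≠ 0) {z : Pt1 K P} {n : ℤ} (h₁ : IsBot z g n)
    (h₂ : IsTop z g n) : gn z g ≤ ‖g.1 z‖ := by
  by_contra h
  have hp := Zero_pos hg z
  obtain ⟨y, -, -, hy⟩ := Zero_key (d := 0) (δ := 0) (ε := gn z g / 2) hg h₁ (by simpa using h₂)
    le_rfl (by positivity) (by linarith) (by rw [pow_zero, one_mul]; linarith) rfl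
    (by rw [pow_zero, one_mul]; exact not_le.1 h)
  rw [zero_mul] at hy
  exact absurd hy (not_lt.2 (norm_nonneg _))

theorem unit_lb {g : L1 K P} {w₁ w₃ : Pt1 K P}
    (h : ∀ z : Pt1 K P, ‖w₁.v‖ ≤ ‖z.v‖ → ‖z.v‖ ≤ ‖w₃.v‖ → g.1 z ≠ 0) :
    ∃ c : ℝ, 0 < c ∧ ∀ z : Pt1 K P, ‖w₁.v‖ ≤ ‖z.v‖ → ‖z.v‖ ≤ ‖w₃.v‖ → c ≤ ‖g.1 z‖ := by
  by_cases hw : ‖w₁.v‖ ≤ ‖w₃.v‖
  swap
  · exact ⟨1, one_pos, fun z h1 h2 => absurd (h1.trans h2) hw⟩
  have hg : g ≠ 0 := Mer_val (h w₁ le_rfl hw)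
  obtain ⟨n, hn⟩ := no_zero h
  have hc : 0 < ‖coef g n‖ := by
    have h1 := (hn w₁ le_rfl hw).1
    have h2 := Zero_pos hg w₁
    rw [← h1, norm_pos_iff] at h2
    exact norm_pos_iff.2 (left_ne_zero_of_mul h2)
  refine ⟨‖coef g n‖ * min (‖w₁.v‖ ^ n) (‖w₃.v‖ ^ n),
    mul_pos hc (lt_min (zpow_pos (Zero_vpos w₁) n) (zpow_pos (Zero_vpos w₃) n)), fun z h1 h2 => ?_⟩
  have ht := hn z h1 h2
  obtain ⟨m, hm⟩ := exists_isBot hg z
  have hmn : m = n := by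
    refine (bot_le_top le_rfl hg hm ht).eq_of_not_lt fun hlt => ?_
    obtain ⟨y, hy, hy0⟩ := exists_zero hg hm ht hlt
    exact h y (hy ▸ h1) (hy ▸ h2) hy0
  subst hmn
  refine le_trans ?_ (Cop_dom hg hm ht)
  rw [← ht.1, norm_mul, norm_zpow]
  exact mul_le_mul_of_nonneg_left (Cop_zpow (Zero_vpos w₁) h1 h2 m) hc.le

theorem Cop_near {p : L1 K P} {ζ : Pt1 K P} (hp : p.1 ζ ≠ 0) : ∃ η : ℝ, 0 < η ∧
    ∀ z : Pt1 K P, ‖z.v - ζ.v‖ < η → ‖p.1 ζ‖ / 2 ≤ ‖p.1 z‖ := by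
  have hζ := Zero_vpos ζ
  have hA : 0 ≤ gn ζ p / ‖ζ.v‖ := div_nonneg (gn_nonneg p ζ) hζ.le
  have hpp : 0 < ‖p.1 ζ‖ := norm_pos_iff.2 hp
  refine ⟨min ‖ζ.v‖ (‖p.1 ζ‖ / 2 / (gn ζ p / ‖ζ.v‖ + 1)), lt_min hζ (by positivity), fun z hz => ?_⟩
  have h1 : ‖z.v‖ = ‖ζ.v‖ := by
    have h := Div_eq_l (a := ζ.v) (b := ζ.v - z.v) rfl
      (by rw [norm_sub_rev]; exact hz.trans_le (min_le_left _ _))
    rwa [sub_sub_cancel] at h
  have h2 := Zero_lip p h1 (rfl : ‖ζ.v‖ = ‖ζ.v‖)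
  have h3 : ‖z.v - ζ.v‖ * (gn ζ p / ‖ζ.v‖ + 1) ≤ ‖p.1 ζ‖ / 2 :=
    (le_div_iff₀ (by positivity)).1 (hz.le.trans (min_le_right _ _))
  have h4 : ‖p.1 ζ‖ ≤ ‖p.1 z‖ + ‖p.1 z - p.1 ζ‖ := by
    have h := norm_sub_le (p.1 z) (p.1 z - p.1 ζ)
    rwa [sub_sub_cancel] at h
  nlinarith [norm_nonneg (z.v - ζ.v)]

theorem Cop_lb {g : L1 K P} {w₁ w₃ : Pt1 K P}
    (hg : ∀ z : Pt1 K P, ‖w₁.v‖ ≤ ‖z.v‖ → ‖z.v‖ ≤ ‖w₃.v‖ → g.1 z ≠ 0) (p : L1 K P)
    (s : Multiset (Pt1 K P)) (hs : ∀ z ∈ s, ‖w₁.v‖ ≤ ‖z.v‖ ∧ ‖z.v‖ ≤ ‖w₃.v‖)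
    (h : ∀ z : Pt1 K P, ‖w₁.v‖ ≤ ‖z.v‖ → ‖z.v‖ ≤ ‖w₃.v‖ →
      p.1 z ≠ 0 ∨ ((s.map fun z => (lin z.v : L1 K P)).prod * g).1 z ≠ 0) :
    ∃ c : ℝ, 0 < c ∧ ∀ z : Pt1 K P, ‖w₁.v‖ ≤ ‖z.v‖ → ‖z.v‖ ≤ ‖w₃.v‖ →
      c ≤ max ‖p.1 z‖ ‖((s.map fun z => (lin z.v : L1 K P)).prod * g).1 z‖ := by
  induction s using Multiset.induction_on with
  | empty =>
    obtain ⟨c, hc, h'⟩ := unit_lb hg
    refine ⟨c, hc, fun z h1 h2 => le_max_of_le_right ?_⟩
    simpa using h' z h1 h2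
  | cons ζ s ih =>
    rw [Multiset.map_cons, Multiset.prod_cons, mul_assoc] at h ⊢
    obtain ⟨c, hc, h'⟩ := ih (fun z hz => hs z (Multiset.mem_cons_of_mem hz)) fun z h1 h2 =>
      (h z h1 h2).imp_right fun h3 => right_ne_zero_of_mul (by rwa [Cop_mul] at h3)
    obtain ⟨hζ1, hζ2⟩ := hs ζ (Multiset.mem_cons_self _ _)
    have hp : p.1 ζ ≠ 0 := (h ζ hζ1 hζ2).resolve_right (by
      rw [Cop_mul, lin_apply, sub_self, zero_mul]; exact not_not.2 rfl)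
    obtain ⟨η, hη, hn⟩ := Cop_near hp
    have hpp : 0 < ‖p.1 ζ‖ := norm_pos_iff.2 hp
    refine ⟨min (‖p.1 ζ‖ / 2) (min c (η * c)), by positivity, fun z h1 h2 => ?_⟩
    by_cases hz : ‖z.v - ζ.v‖ < η
    · exact (min_le_left _ _).trans (le_max_of_le_left (hn z hz))
    · refine (min_le_right _ _).trans ?_
      rcases le_max_iff.1 (h' z h1 h2) with h3 | h3
      · exact (min_le_left _ _).trans (le_max_of_le_left h3)
      · refine (min_le_right _ _).trans (le_max_of_le_right ?_)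
        rw [Cop_mul, norm_mul, lin_apply]
        exact mul_le_mul (not_lt.1 hz) h3 hc.le (norm_nonneg _)

theorem cop_lb {p q : L1 K P} (hq : q ≠ 0) {w₁ w₃ : Pt1 K P}
    (h : ∀ z : Pt1 K P, ‖w₁.v‖ ≤ ‖z.v‖ → ‖z.v‖ ≤ ‖w₃.v‖ → p.1 z ≠ 0 ∨ q.1 z ≠ 0) :
    ∃ c : ℝ, 0 < c ∧ ∀ z : Pt1 K P, ‖w₁.v‖ ≤ ‖z.v‖ → ‖z.v‖ ≤ ‖w₃.v‖ →
      c ≤ max ‖p.1 z‖ ‖q.1 z‖ := by
  obtain ⟨s, g, hs, hg, rfl⟩ := factor hq w₁ w₃
  exact Cop_lb hg p s hs h

variable [CharZero K]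

omit [CharZero K] in
theorem Cop_sub (p : L1 K P) {q : L1 K P} (hq : q ≠ 0) (a : K) :
    im p / im q - algebraMap K (MM K P) a = im (p - algebraMap K (L1 K P) a * q) / im q := by
  have h := im_ne hq
  rw [IsScalarTower.algebraMap_apply K (L1 K P) (MM K P) a]
  simp only [im, map_sub, map_mul] at h ⊢
  field_simp

omit [IsAlgClosed K] [CharZero K] in
theorem Cop_ev (p q : L1 K P) (a : K) (z : Pt1 K P) :
    (p - algebraMap K (L1 K P) a * q).1 z = p.1 z - a * q.1 z := rfl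

theorem val_div (p : L1 K P) {q : L1 K P} {z : Pt1 K P} (hq : q.1 z ≠ 0) :
    (nev K P).Val z (im p / im q) (p.1 z / q.1 z) := by
  have hq0 : q ≠ 0 := Mer_val hq
  rw [Nev.Val, Nev.regV_nonunits, Cop_sub p hq0]
  by_cases h : p - algebraMap K (L1 K P) (p.1 z / q.1 z) * q = 0
  · left
    rw [h]
    simp [im]
  · right
    rw [nev_ord_div z h hq0, Mer_unit hq]
    have h1 : ord₀ z (p - algebraMap K (L1 K P) (p.1 z / q.1 z) * q) ≠ 0 := by
      rw [Ne, ord₀_eq_zero h, not_not, Cop_ev, div_mul_cancel₀ _ hq, sub_self]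
    omega

theorem val_cop {p q : L1 K P} (hq : q ≠ 0) {z : Pt1 K P} {a : K}
    (h : (nev K P).Val z (im p / im q) a) : p.1 z = a * q.1 z := by
  rw [Nev.Val, Nev.regV_nonunits, Cop_sub p hq] at h
  rw [← sub_eq_zero, ← Cop_ev]
  by_cases h0 : p - algebraMap K (L1 K P) a * q = 0
  · rw [h0]
    rfl
  · rcases h with h | h
    · exact absurd h (div_ne_zero (im_ne h0) (im_ne hq))
    · rw [nev_ord_div z h0 hq] at h
      by_contra h1
      rw [Mer_unit h1] at h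
      omega

theorem exists_den (y : MM K P) (w₁ w₃ : Pt1 K P) : ∃ (p q : L1 K P) (c : ℝ), 0 < c ∧ q ≠ 0 ∧
    y = im p / im q ∧ ∀ (z : Pt1 K P) (a : K), ‖w₁.v‖ ≤ ‖z.v‖ → ‖z.v‖ ≤ ‖w₃.v‖ → ‖a‖ ≤ 1 →
      (nev K P).Val z y a → c ≤ ‖q.1 z‖ ∧ p.1 z = a * q.1 z := by
  obtain ⟨p, q, hq, rfl, h⟩ := exists_cop y w₁ w₃
  obtain ⟨c, hc, h'⟩ := cop_lb hq h
  refine ⟨p, q, c, hc, hq, rfl, fun z a h1 h2 ha hv => ⟨?_, val_cop hq hv⟩⟩
  refine (h' z h1 h2).trans (max_le ?_ le_rfl)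
  rw [val_cop hq hv, norm_mul]
  exact mul_le_of_le_one_left (norm_nonneg _) ha

end Pool.Agent.Work.MP_e120ef_ag.H.CS
end

-- merged part: Pool.Agent.Work.MP_e120ef_ag.C.Itp
section
/-!
# Interpolation over a trivially valued field

Plans.  `green`: `jensen₀ hg z₀` at `w₄` and at `one`, with the same integer `n`.  Put `a = log ‖z₀‖`, `b = log (‖w₄‖ / ‖z₀‖)`; `a` times the first plus `b` times the second identity eliminates `n`:
`a log gn w₄ + b log gn one = (a + b) log gn z₀ + ∑ᶠ ord₀ z g * (a * wp z₀ w₄ z + b * wp z₀ one z)`, `a + b = log ‖w₄‖`.  All terms are nonnegative (`wt_nonneg`); for `z ∈ S`, `ord₀ z g ≥ 1` (`ord₀_eq_zero`) and, unfolding `wt`, either `‖z₀‖ < ‖z‖` and `wp z₀ w₄ z = log (‖w₄‖ / ‖z‖) ≥ log (‖w₄‖ / ‖w₃‖)`, `a ≥ log ‖w₁‖`,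
or `‖z‖ ≤ ‖z₀‖` and `wp z₀ one z = log ‖z‖ ≥ log ‖w₁‖`, `b ≥ log (‖w₄‖ / ‖w₃‖)`.  Finite sums: `Jen_fin`, `finsum_eq_sum_of_support_subset`.
`exists_vanish`: a linear map from `Fin (N + 1) × Fin (N + 1) → k` to `S → k` has a nonzero kernel (`LinearMap.ker_ne_bot_of_finrank_lt`).
`interp`: `exists_den` for `y 0 = p₀ / q₀`, `y 1 = p₁ / q₁`, constants `c₀`, `c₁`; choose the values `a z`, `b z ∈ k₀` on the infinite set `Z`, and `w₄` with `‖w₃‖ < ‖w₄‖` (`Rat_big`).  For `N` take `S ⊆ Z` of size `(N + 1) ^ 2 - 1` (`Set.Infinite.exists_subset_card_eq`), `c` from `exists_vanish`, and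
`g = ∑ c i j • (p₀ ^ i * q₀ ^ (N - i) * p₁ ^ j * q₁ ^ (N - j))`.  If `g = 0`, divide by `im (q₀ ^ N q₁ ^ N)`: the polynomial `∑ C (c i j) X₀ ^ i X₁ ^ j ≠ 0` kills `y`.  Otherwise `g z = (q₀ z * q₁ z) ^ N * ∑ c i j * a z ^ i * b z ^ j` on `Z`; `g` has finitely many zeros in the annulus (`finite_zeros`), so there is `z₀ ∈ Z` with `g z₀ ≠ 0`;
the sum is a nonzero element of `k₀`, of norm one, so `gn z₀ g ≥ ‖g z₀‖ ≥ (c₀ c₁) ^ N` (`norm_le_gn`), while `gn w g ≤ A ^ N` for `w = one, w₄` with `A` independent of `N` (`gn_mul`, `gn_add_le`, `gn_algebraMap`).  `green` gives `((N + 1) ^ 2 - 1) * γ ≤ N * C`, `γ > 0`, false for large `N`.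
-/

namespace Pool.Agent.Work.MP_e120ef_ag.H.CS

theorem Itp_indep {K M : Type} [Field K] [CommRing M] [Algebra K M] {y : Fin 2 → M}
    (h : AlgebraicIndependent K y) {N : ℕ} (c : Fin N × Fin N → K)
    (hc : ∑ ij, algebraMap K M (c ij) * y 0 ^ (ij.1 : ℕ) * y 1 ^ (ij.2 : ℕ) = 0) : c = 0 := by
  classical
  have e : ∀ ij : Fin N × Fin N, (MvPolynomial.monomial
      (Finsupp.single (0 : Fin 2) (ij.1 : ℕ) + Finsupp.single 1 (ij.2 : ℕ)) (c ij)) =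
      MvPolynomial.C (c ij) * MvPolynomial.X 0 ^ (ij.1 : ℕ) * MvPolynomial.X 1 ^ (ij.2 : ℕ) := by
    intro ij
    rw [MvPolynomial.monomial_add_single, MvPolynomial.C_mul_X_pow_eq_monomial]
  have h1 := algebraicIndependent_iff.1 h (∑ ij : Fin N × Fin N, MvPolynomial.monomial
      (Finsupp.single (0 : Fin 2) (ij.1 : ℕ) + Finsupp.single 1 (ij.2 : ℕ)) (c ij)) (by
    rw [map_sum, ← hc]
    refine Finset.sum_congr rfl fun ij _ => ?_
    rw [e, map_mul, map_mul, map_pow, map_pow, MvPolynomial.aeval_C, MvPolynomial.aeval_X,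
      MvPolynomial.aeval_X])
  funext ij
  have h2 := congrArg (MvPolynomial.coeff
    (Finsupp.single (0 : Fin 2) (ij.1 : ℕ) + Finsupp.single 1 (ij.2 : ℕ))) h1
  rw [MvPolynomial.coeff_sum, Finset.sum_eq_single ij, MvPolynomial.coeff_monomial,
    if_pos rfl] at h2
  · simpa using h2
  · intro kl _ hkl
    rw [MvPolynomial.coeff_monomial, if_neg]
    intro he
    have a0 := DFunLike.congr_fun he 0
    have a1 := DFunLike.congr_fun he 1
    simp at a0 a1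
    exact hkl (Prod.ext (Fin.ext a0) (Fin.ext a1))
  · simp

theorem Itp_hom {R : Type} [CommRing R] {N : ℕ} (c : Fin (N + 1) × Fin (N + 1) → R)
    {p₀ q₀ p₁ q₁ a b : R} (h₀ : p₀ = a * q₀) (h₁ : p₁ = b * q₁) :
    ∑ ij, c ij * (p₀ ^ (ij.1 : ℕ) * q₀ ^ (N - ij.1) * (p₁ ^ (ij.2 : ℕ) * q₁ ^ (N - ij.2))) =
      (q₀ * q₁) ^ N * ∑ ij, c ij * a ^ (ij.1 : ℕ) * b ^ (ij.2 : ℕ) := by
  rw [Finset.mul_sum]
  refine Finset.sum_congr rfl fun ij _ => ?_
  have e₀ : q₀ ^ N = q₀ ^ (ij.1 : ℕ) * q₀ ^ (N - ij.1) := by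
    rw [← pow_add, Nat.add_sub_cancel' (Nat.lt_succ_iff.1 ij.1.2)]
  have e₁ : q₁ ^ N = q₁ ^ (ij.2 : ℕ) * q₁ ^ (N - ij.2) := by
    rw [← pow_add, Nat.add_sub_cancel' (Nat.lt_succ_iff.1 ij.2.2)]
  rw [mul_pow q₀, e₀, e₁, h₀, h₁, mul_pow, mul_pow]
  ring

theorem Itp_finsum {ι : Type} {f : ι → ℝ} (hf : (Function.support f).Finite) (h0 : ∀ z, 0 ≤ f z)
    (S : Finset ι) : ∑ z ∈ S, f z ≤ ∑ᶠ z, f z := by
  classical
  rw [finsum_eq_sum_of_support_subset f (s := S ∪ hf.toFinset) (fun z hz => by simp [hz])]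
  exact Finset.sum_le_sum_of_subset_of_nonneg Finset.subset_union_left fun z _ _ => h0 z

theorem exists_vanish {k ι : Type} [Field k] (N : ℕ) (S : Finset ι) (hS : S.card < (N + 1) ^ 2)
    (a b : ι → k) : ∃ c : Fin (N + 1) × Fin (N + 1) → k, c ≠ 0 ∧
      ∀ z ∈ S, ∑ ij, c ij * a z ^ (ij.1 : ℕ) * b z ^ (ij.2 : ℕ) = 0 := by
  let L : (Fin (N + 1) × Fin (N + 1) → k) →ₗ[k] (S → k) :=
    Matrix.mulVecLin (Matrix.of fun (z : S) (ij : Fin (N + 1) × Fin (N + 1)) =>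
      a z ^ (ij.1 : ℕ) * b z ^ (ij.2 : ℕ))
  have h : LinearMap.ker L ≠ ⊥ := by
    refine LinearMap.ker_ne_bot_of_finrank_lt ?_
    simpa [pow_two] using hS
  obtain ⟨c, hc, hc0⟩ := Submodule.exists_mem_ne_zero_of_ne_bot h
  refine ⟨c, hc0, fun z hz => ?_⟩
  have h1 := congrFun (LinearMap.mem_ker.1 hc) ⟨z, hz⟩
  simp only [L, Matrix.mulVecLin_apply, Matrix.mulVec, dotProduct, Matrix.of_apply,
    Pi.zero_apply] at h1
  rw [← h1]
  exact Finset.sum_congr rfl fun ij _ => by ring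

variable {K : Type} [NontriviallyNormedField K] [IsUltrametricDist K] [IsAlgClosed K]
  [CompleteSpace K]

omit [IsUltrametricDist K] [IsAlgClosed K] [CompleteSpace K] in
theorem Itp_one_le (w : Pt1 K Rad.out) : 1 ≤ ‖w.v‖ := w.2

theorem Itp_gn_pow {P : Rad} (w : Pt1 K P) (f : L1 K P) (n : ℕ) : gn w (f ^ n) = gn w f ^ n := by
  induction n with
  | zero => simpa using gn_algebraMap w (1 : K)
  | succ n ih => rw [pow_succ, gn_mul, ih, pow_succ]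

theorem Itp_gn_sum {P : Rad} (w : Pt1 K P) {ι : Type} (s : Finset ι) (f : ι → L1 K P) {C : ℝ}
    (hC : 0 ≤ C) (h : ∀ i, gn w (f i) ≤ C) : gn w (∑ i ∈ s, f i) ≤ C := by
  classical
  induction s using Finset.induction_on with
  | empty => rwa [Finset.sum_empty, gn_zero]
  | insert i s hi ih =>
    rw [Finset.sum_insert hi]
    exact (gn_add_le w _ _).trans (max_le (h i) ih)

/-- the auxiliary function -/
noncomputable def Itp_G {P : Rad} (N : ℕ) (c : Fin (N + 1) × Fin (N + 1) → K)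
    (p₀ q₀ p₁ q₁ : L1 K P) : L1 K P :=
  ∑ ij, algebraMap K (L1 K P) (c ij) *
    (p₀ ^ (ij.1 : ℕ) * q₀ ^ (N - ij.1) * (p₁ ^ (ij.2 : ℕ) * q₁ ^ (N - ij.2)))

theorem Itp_G_le {P : Rad} (N : ℕ) {c : Fin (N + 1) × Fin (N + 1) → K} (hc : ∀ ij, ‖c ij‖ ≤ 1)
    {p₀ q₀ p₁ q₁ : L1 K P} {w : Pt1 K P} {M : ℝ} (a₀ : gn w p₀ ≤ M) (b₀ : gn w q₀ ≤ M)
    (a₁ : gn w p₁ ≤ M) (b₁ : gn w q₁ ≤ M) : gn w (Itp_G N c p₀ q₀ p₁ q₁) ≤ M ^ (2 * N) := by
  have hM : 0 ≤ M := (gn_nonneg p₀ w).trans a₀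
  refine Itp_gn_sum w _ _ (by positivity) fun ij => ?_
  have e : 2 * N = ij.1 + (N - ij.1) + (ij.2 + (N - ij.2)) := by
    have := ij.1.2
    have := ij.2.2
    omega
  have := gn_nonneg p₀ w
  have := gn_nonneg q₀ w
  have := gn_nonneg p₁ w
  have := gn_nonneg q₁ w
  have := hc ij
  rw [gn_mul, gn_mul, gn_mul, gn_mul, gn_algebraMap, Itp_gn_pow, Itp_gn_pow, Itp_gn_pow,
    Itp_gn_pow, e, pow_add, pow_add, pow_add, ← one_mul (_ * _ * (M ^ (ij.2 : ℕ) * _))]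
  gcongr

omit [IsAlgClosed K] in
theorem Itp_G_map {P : Rad} {R : Type} [CommRing R] [Algebra K R] (φ : L1 K P →ₐ[K] R) (N : ℕ)
    (c : Fin (N + 1) × Fin (N + 1) → K) {p₀ q₀ p₁ q₁ : L1 K P} {a b : R}
    (h₀ : φ p₀ = a * φ q₀) (h₁ : φ p₁ = b * φ q₁) : φ (Itp_G N c p₀ q₀ p₁ q₁) =
      (φ q₀ * φ q₁) ^ N * ∑ ij, algebraMap K R (c ij) * a ^ (ij.1 : ℕ) * b ^ (ij.2 : ℕ) := by
  rw [← Itp_hom _ h₀ h₁, Itp_G, map_sum]
  refine Finset.sum_congr rfl fun ij _ => ?_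
  simp only [map_mul, map_pow, AlgHom.commutes]

omit [IsAlgClosed K] in
theorem Itp_G_val {P : Rad} (z : Pt1 K P) (N : ℕ)
    (c : Fin (N + 1) × Fin (N + 1) → K) {p₀ q₀ p₁ q₁ : L1 K P} {a b : K}
    (h₀ : p₀.1 z = a * q₀.1 z) (h₁ : p₁.1 z = b * q₁.1 z) : (Itp_G N c p₀ q₀ p₁ q₁).1 z =
      (q₀.1 z * q₁.1 z) ^ N * ∑ ij, c ij * a ^ (ij.1 : ℕ) * b ^ (ij.2 : ℕ) :=
  Itp_G_map ((Pi.evalAlgHom K (fun _ : Pt1 K P => K) z).comp (L1 K P).val) N c h₀ h₁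

theorem green {g : L1 K Rad.out} (hg : g ≠ 0) {w₁ w₃ w₄ z₀ : Pt1 K Rad.out}
    (h₁ : ‖w₁.v‖ ≤ ‖z₀.v‖) (h₃ : ‖z₀.v‖ ≤ ‖w₃.v‖) (h₄ : ‖w₃.v‖ ≤ ‖w₄.v‖)
    (S : Finset (Pt1 K Rad.out))
    (hS : ∀ z ∈ S, ‖w₁.v‖ ≤ ‖z.v‖ ∧ ‖z.v‖ ≤ ‖w₃.v‖ ∧ g.1 z = 0) {A : ℝ}
    (hA : Real.log (gn (Pt1.one K Rad.out) g) ≤ A) (hA' : Real.log (gn w₄ g) ≤ A) :
    S.card * (Real.log ‖w₁.v‖ * Real.log (‖w₄.v‖ / ‖w₃.v‖)) ≤
      Real.log ‖w₄.v‖ * (A - Real.log (gn z₀ g)) := by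
  obtain ⟨n, hn⟩ := jensen₀ hg z₀
  have J1 := hn w₄
  have J2 := hn (Pt1.one K Rad.out)
  have p1 := Itp_one_le w₁
  have pz : 0 < ‖z₀.v‖ := Zero_vpos z₀
  have p3 : 0 < ‖w₃.v‖ := Zero_vpos w₃
  have p4 : 0 < ‖w₄.v‖ := Zero_vpos w₄
  have e1 : ‖(Pt1.one K Rad.out).v‖ = 1 := by simp [Pt1.v]
  rw [e1, one_div, Real.log_inv] at J2
  have l1 : 0 ≤ Real.log ‖w₁.v‖ := Real.log_nonneg p1
  have l2 : 0 ≤ Real.log (‖w₄.v‖ / ‖w₃.v‖) := Real.log_nonneg ((one_le_div p3).2 h₄)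
  have ha : Real.log ‖w₁.v‖ ≤ Real.log ‖z₀.v‖ := Real.log_le_log (by linarith) h₁
  have hb : Real.log (‖w₄.v‖ / ‖w₃.v‖) ≤ Real.log (‖w₄.v‖ / ‖z₀.v‖) :=
    Real.log_le_log (by positivity) (by gcongr)
  have hab : Real.log ‖w₄.v‖ = Real.log ‖z₀.v‖ + Real.log (‖w₄.v‖ / ‖z₀.v‖) := by
    rw [Real.log_div p4.ne' pz.ne']
    ring
  have s1 := Itp_finsum (Jen_fin g z₀ w₄)
    (fun z => mul_nonneg (Nat.cast_nonneg _) (wt_nonneg _ _ _)) S
  have s2 := Itp_finsum (Jen_fin g z₀ (Pt1.one K Rad.out))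
    (fun z => mul_nonneg (Nat.cast_nonneg _) (wt_nonneg _ _ _)) S
  have key : ∀ z ∈ S, Real.log ‖w₁.v‖ * Real.log (‖w₄.v‖ / ‖w₃.v‖) ≤
      Real.log ‖z₀.v‖ * ((ord₀ z g : ℝ) * wp z₀ w₄ z) + Real.log (‖w₄.v‖ / ‖z₀.v‖) *
        ((ord₀ z g : ℝ) * wp z₀ (Pt1.one K Rad.out) z) := by
    intro z hz
    obtain ⟨k1, k2, k3⟩ := hS z hz
    have pz' : 0 < ‖z.v‖ := Zero_vpos z
    have o1 : (1 : ℝ) ≤ ord₀ z g := by
      have : ord₀ z g ≠ 0 := fun h => (ord₀_eq_zero hg z).1 h k3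
      exact_mod_cast Nat.one_le_iff_ne_zero.2 this
    have n1 : 0 ≤ wp z₀ w₄ z := wt_nonneg _ _ _
    have n2 : 0 ≤ wp z₀ (Pt1.one K Rad.out) z := wt_nonneg _ _ _
    have m1 : wp z₀ w₄ z ≤ (ord₀ z g : ℝ) * wp z₀ w₄ z := le_mul_of_one_le_left n1 o1
    have m2 : wp z₀ (Pt1.one K Rad.out) z ≤ (ord₀ z g : ℝ) * wp z₀ (Pt1.one K Rad.out) z :=
      le_mul_of_one_le_left n2 o1
    by_cases hlt : ‖z₀.v‖ < ‖z.v‖
    · have w1 : Real.log (‖w₄.v‖ / ‖w₃.v‖) ≤ wp z₀ w₄ z := by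
        unfold wp wt
        rw [if_pos hlt]
        exact (Real.log_le_log (by positivity) (by gcongr)).trans (le_max_right _ _)
      have t1 := mul_le_mul ha (w1.trans m1) l2 (l1.trans ha)
      have t2 := mul_nonneg (l2.trans hb) (n2.trans m2)
      linarith
    · have w1 : Real.log ‖w₁.v‖ ≤ wp z₀ (Pt1.one K Rad.out) z := by
        unfold wp wt
        rw [if_neg hlt]
        refine (Real.log_le_log (by linarith) ?_).trans (le_max_right _ _)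
        simpa using k1
      have t1 := mul_le_mul hb (w1.trans m2) l1 (l2.trans hb)
      have t2 := mul_nonneg (l1.trans ha) (n1.trans m1)
      linarith
  have s3 := Finset.sum_le_sum key
  rw [Finset.sum_const, nsmul_eq_mul, Finset.sum_add_distrib, ← Finset.mul_sum,
    ← Finset.mul_sum] at s3
  have t1 := mul_le_mul_of_nonneg_left s1 (l1.trans ha)
  have t2 := mul_le_mul_of_nonneg_left s2 (l2.trans hb)
  have t3 := mul_le_mul_of_nonneg_left hA' (l1.trans ha)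
  have t4 := mul_le_mul_of_nonneg_left hA (l2.trans hb)
  rw [J1] at t3
  rw [J2] at t4
  rw [hab]
  linarith

variable [CharZero K]

theorem interp (k₀ : Subfield K) (hk : ∀ a ∈ k₀, ‖a‖ ≤ 1) (y : Fin 2 → MM K Rad.out)
    {w₁ w₃ : Pt1 K Rad.out} (h₁ : 1 < ‖w₁.v‖)
    (hZ : {z : Pt1 K Rad.out | ‖w₁.v‖ ≤ ‖z.v‖ ∧ ‖z.v‖ ≤ ‖w₃.v‖ ∧
      ∀ i, ∃ a ∈ k₀, (nev K Rad.out).Val z (y i) a}.Infinite) :
    ¬ AlgebraicIndependent K y := by
  intro hy
  set Z := {z : Pt1 K Rad.out | ‖w₁.v‖ ≤ ‖z.v‖ ∧ ‖z.v‖ ≤ ‖w₃.v‖ ∧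
      ∀ i, ∃ a ∈ k₀, (nev K Rad.out).Val z (y i) a} with hZdef
  obtain ⟨p₀, q₀, c₀, hc₀, hq₀, e₀, v₀⟩ := exists_den (y 0) w₁ w₃
  obtain ⟨p₁, q₁, c₁, hc₁, hq₁, e₁, v₁⟩ := exists_den (y 1) w₁ w₃
  have hch : ∀ (i : Fin 2) (z : Pt1 K Rad.out), ∃ a : k₀,
      z ∈ Z → (nev K Rad.out).Val z (y i) a := by
    intro i z
    by_cases hz : z ∈ Z
    · obtain ⟨a, ha, h⟩ := hz.2.2 i
      exact ⟨⟨a, ha⟩, fun _ => h⟩
    · exact ⟨0, fun h => absurd h hz⟩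
  choose a ha using hch
  obtain ⟨w₄, -, h₄⟩ := Rat_big (K := K) ‖w₃.v‖
  have p3 : 0 < ‖w₃.v‖ := Zero_vpos w₃
  have hγ : 0 < Real.log ‖w₁.v‖ * Real.log (‖w₄.v‖ / ‖w₃.v‖) :=
    mul_pos (Real.log_pos h₁) (Real.log_pos ((one_lt_div p3).2 h₄))
  obtain ⟨M, hM1, hM⟩ : ∃ M : ℝ, 0 < M ∧ ∀ w ∈ [Pt1.one K Rad.out, w₄],
      ∀ f ∈ [p₀, q₀, p₁, q₁], gn w f ≤ M := by
    obtain ⟨M, hM⟩ := (([Pt1.one K Rad.out, w₄].finite_toSet.prod
      [p₀, q₀, p₁, q₁].finite_toSet).image fun x => gn x.1 x.2).bddAbove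
    exact ⟨max M 1, by positivity, fun w hw f hf =>
      (hM ⟨(w, f), ⟨hw, hf⟩, rfl⟩).trans (le_max_left _ _)⟩
  obtain ⟨N₀, hN₀⟩ := exists_nat_gt (Real.log ‖w₄.v‖ * (2 * Real.log M - Real.log (c₀ * c₁)) /
    (Real.log ‖w₁.v‖ * Real.log (‖w₄.v‖ / ‖w₃.v‖)))
  obtain ⟨N, hN⟩ : ∃ N, N = N₀ + 1 := ⟨_, rfl⟩
  obtain ⟨S, hSZ, hS⟩ := hZ.exists_subset_card_eq (N * (N + 2))
  obtain ⟨c, hc0, hc⟩ := exists_vanish N S (by rw [hS]; nlinarith) (a 0) (a 1)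
  have hval : ∀ z ∈ Z, (Itp_G N (fun ij => (c ij : K)) p₀ q₀ p₁ q₁).1 z =
      (q₀.1 z * q₁.1 z) ^ N * ((∑ ij, c ij * a 0 z ^ (ij.1 : ℕ) * a 1 z ^ (ij.2 : ℕ) : k₀) : K) := by
    intro z hz
    rw [Itp_G_val z N _ (v₀ z _ hz.1 hz.2.1 (hk _ (a 0 z).2) (ha 0 z hz)).2
      (v₁ z _ hz.1 hz.2.1 (hk _ (a 1 z).2) (ha 1 z hz)).2]
    push_cast
    rfl
  by_cases hg : Itp_G N (fun ij => (c ij : K)) p₀ q₀ p₁ q₁ = 0
  · have h1 := Itp_G_map (IsScalarTower.toAlgHom K (L1 K Rad.out) (MM K Rad.out)) N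
      (fun ij => (c ij : K)) (p₀ := p₀) (q₀ := q₀) (p₁ := p₁) (q₁ := q₁) (a := y 0) (b := y 1)
      (by rw [e₀]; exact (div_mul_cancel₀ _ (im_ne hq₀)).symm)
      (by rw [e₁]; exact (div_mul_cancel₀ _ (im_ne hq₁)).symm)
    rw [hg, map_zero] at h1
    have h2 := (mul_eq_zero.1 h1.symm).resolve_left
      (pow_ne_zero _ (mul_ne_zero (im_ne hq₀) (im_ne hq₁)))
    have h3 := Itp_indep hy _ h2
    exact hc0 (funext fun ij => Subtype.ext (congrFun h3 ij))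
  obtain ⟨z₀, hz₀, hz₀'⟩ := hZ.exists_notMem_finite (finite_zeros hg w₁ w₃)
  have hne : (Itp_G N (fun ij => (c ij : K)) p₀ q₀ p₁ q₁).1 z₀ ≠ 0 := fun h =>
    hz₀' ⟨hz₀.1, hz₀.2.1, h⟩
  have hlow : (c₀ * c₁) ^ N ≤ gn z₀ (Itp_G N (fun ij => (c ij : K)) p₀ q₀ p₁ q₁) := by
    refine le_trans ?_ (norm_le_gn _ rfl)
    rw [hval z₀ hz₀] at hne ⊢
    generalize (∑ ij, c ij * a 0 z₀ ^ (ij.1 : ℕ) * a 1 z₀ ^ (ij.2 : ℕ) : k₀) = x at hne ⊢
    have hx : (x : K) ≠ 0 := right_ne_zero_of_mul hne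
    have hx1 : 1 ≤ ‖(x : K)‖ := by
      have := hk _ (k₀.inv_mem x.2)
      rwa [norm_inv, inv_le_one₀ (norm_pos_iff.2 hx)] at this
    have u₀ := (v₀ z₀ _ hz₀.1 hz₀.2.1 (hk _ (a 0 z₀).2) (ha 0 z₀ hz₀)).1
    have u₁ := (v₁ z₀ _ hz₀.1 hz₀.2.1 (hk _ (a 1 z₀).2) (ha 1 z₀ hz₀)).1
    rw [norm_mul, norm_pow, norm_mul, ← mul_one ((c₀ * c₁) ^ N)]
    gcongr
  have hup : ∀ w ∈ [Pt1.one K Rad.out, w₄],
      Real.log (gn w (Itp_G N (fun ij => (c ij : K)) p₀ q₀ p₁ q₁)) ≤ 2 * N * Real.log M := by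
    intro w hw
    refine (Real.log_le_log (Zero_pos hg w) (Itp_G_le N (fun ij => hk _ (c ij).2)
      (hM w hw _ (by simp)) (hM w hw _ (by simp)) (hM w hw _ (by simp))
      (hM w hw _ (by simp)))).trans_eq ?_
    rw [Real.log_pow]
    push_cast
    rfl
  have hG := green hg hz₀.1 hz₀.2.1 h₄.le S (fun z hz => ⟨(hSZ hz).1, (hSZ hz).2.1, by
    rw [hval z (hSZ hz), hc z hz]
    simp⟩) (hup _ (by simp)) (hup _ (by simp))
  have hl := Real.log_le_log (by positivity) hlow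
  rw [Real.log_pow] at hl
  have l4 : 0 ≤ Real.log ‖w₄.v‖ := Real.log_nonneg (Itp_one_le w₄)
  have t1 := mul_le_mul_of_nonneg_left (sub_le_sub_left hl (2 * N * Real.log M)) l4
  rw [div_lt_iff₀ hγ] at hN₀
  rw [hS] at hG
  have hN' : (N : ℝ) = N₀ + 1 := by rw [hN]; push_cast; rfl
  have hN0 : (0 : ℝ) < N := by rw [hN']; positivity
  have t2 := mul_lt_mul_of_pos_left hN₀ hN0
  have t3 := mul_pos hN0 hγ
  push_cast at hG
  generalize Real.log ‖w₁.v‖ * Real.log (‖w₄.v‖ / ‖w₃.v‖) = γ at hG t2 t3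
  rw [show (N₀ : ℝ) = N - 1 by linarith] at t2
  linarith

end Pool.Agent.Work.MP_e120ef_ag.H.CS
end

-- merged part: Pool.Agent.Work.MP_e120ef_ag.C.Chn
section
/-!
# The chain rule at algebraic points; algebraic constants

Plans.  `val_alg`, `chain_val`: let `L₂ = L ⊔ adjoin K₁ {z.v}`, finite dimensional (see `DC_cancel`); all terms `coef f m * z ^ m` and the sum are in `L₂` (`DC_mem`).  `δ` is bounded on `L₂` (`fin_der`), so it commutes with the sum (as in `DC_leib`); `δ (a * z ^ m) = δ a * z ^ m + m * a * z ^ m * (δ z / z)` (`Derivation.leibniz_zpow`), `hasSum_coef`, `hasSum_D1` or `coef_D1`.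
`ker_norm`: let `p = minpoly K₁ b`, monic of degree `n`.  Differentiating `aeval b p = 0` gives `∑ i < n, algebraMap (d (coeff i)) * b ^ i = 0` (as `δ b = 0`, `d 1 = 0`), so by minimality all `d (coeff i)` vanish (`minpoly.degree_le_of_ne_zero` or `linearIndependent_pow`) and `‖coeff i‖ ≤ 1`.  If `‖b‖ > 1` the term `b ^ n` dominates.
`exists_k₀`: the algebraic elements killed by all `δ i` form a subfield (`IsAlgebraic.add`, `.mul`, `.inv`, `Derivation.leibniz_inv`).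
-/

namespace Pool.Agent.Work.MP_e120ef_ag.H.CS

variable {k K₁ K' : Type} [Field k] [NontriviallyNormedField K₁] [NontriviallyNormedField K']
  [IsUltrametricDist K'] [NormedAlgebra K₁ K'] [Algebra k K₁] [Algebra k K']

theorem ker_norm {Λ : Type} (d : Λ → Derivation k K₁ K₁) (δ : Λ → Derivation k K' K')
    (hδ : ∀ i x, δ i (algebraMap K₁ K' x) = algebraMap K₁ K' (d i x))
    (hker : ∀ x, (∀ i, d i x = 0) → ‖x‖ ≤ 1) {b : K'} (hb : IsAlgebraic K₁ b)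
    (h0 : ∀ i, δ i b = 0) : ‖b‖ ≤ 1 := by
  have hi := hb.isIntegral
  set p := minpoly K₁ b with hp
  have h1 : b ^ p.natDegree + ∑ j : Fin p.natDegree, p.coeff j • b ^ (j : ℕ) = 0 := by
    have h := minpoly.aeval K₁ b
    rw [← hp, Polynomial.aeval_eq_sum_range, Finset.sum_range_succ,
      (minpoly.monic hi).coeff_natDegree, one_smul, add_comm, Finset.sum_range] at h
    exact h
  have h2 : ∀ i (j : Fin p.natDegree), d i (p.coeff j) = 0 := fun i => by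
    refine Fintype.linearIndependent_iff.1 (linearIndependent_pow (K := K₁) b)
      (fun j => d i (p.coeff j)) ?_
    have h := congrArg (δ i) h1
    rw [map_add, map_sum, map_zero, Derivation.leibniz_pow, h0, smul_zero, smul_zero,
      zero_add] at h
    refine (Finset.sum_congr rfl fun j _ => ?_).trans h
    rw [Algebra.smul_def, Algebra.smul_def, Derivation.leibniz, Derivation.leibniz_pow, h0, hδ,
      smul_zero, smul_zero, smul_zero, zero_add, smul_eq_mul, mul_comm]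
  by_contra h3
  have h4 := not_le.1 h3
  have h5 : 0 < p.natDegree := minpoly.natDegree_pos hi
  have h6 : ‖∑ j : Fin p.natDegree, p.coeff j • b ^ (j : ℕ)‖ ≤ ‖b‖ ^ (p.natDegree - 1) := by
    refine IsUltrametricDist.norm_sum_le_of_forall_le_of_nonneg (by positivity) fun j _ => ?_
    rw [norm_smul, norm_pow]
    refine (mul_le_of_le_one_left (by positivity) (hker _ fun i => h2 i j)).trans ?_
    exact pow_le_pow_right₀ h4.le (by omega)
  rw [← neg_eq_of_add_eq_zero_right h1, norm_neg, norm_pow] at h6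
  exact (pow_lt_pow_right₀ h4 (by omega : p.natDegree - 1 < p.natDegree)).not_ge h6

theorem exists_k₀ {Λ : Type} (d : Λ → Derivation k K₁ K₁) (δ : Λ → Derivation k K' K')
    (hδ : ∀ i x, δ i (algebraMap K₁ K' x) = algebraMap K₁ K' (d i x))
    (hker : ∀ x, (∀ i, d i x = 0) → ‖x‖ ≤ 1) : ∃ k₀ : Subfield K', (∀ a ∈ k₀, ‖a‖ ≤ 1) ∧
      ∀ b, IsAlgebraic K₁ b → (∀ i, δ i b = 0) → b ∈ k₀ := by
  refine ⟨{ carrier := {b | IsAlgebraic K₁ b ∧ ∀ i, δ i b = 0}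
            mul_mem' := fun {x y} hx hy => ⟨hx.1.mul hy.1, fun i => ?_⟩
            one_mem' := ⟨isAlgebraic_one, fun i => (δ i).map_one_eq_zero⟩
            add_mem' := fun {x y} hx hy => ⟨hx.1.add hy.1, fun i => ?_⟩
            zero_mem' := ⟨isAlgebraic_zero, fun i => map_zero _⟩
            neg_mem' := fun {x} hx => ⟨hx.1.neg, fun i => ?_⟩
            inv_mem' := fun x hx => ⟨hx.1.inv, fun i => ?_⟩ },
    fun a ha => ker_norm d δ hδ hker ha.1 ha.2, fun b h1 h2 => ⟨h1, h2⟩⟩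
  · rw [Derivation.leibniz, hx.2, hy.2, smul_zero, smul_zero, add_zero]
  · rw [map_add, hx.2, hy.2, add_zero]
  · rw [map_neg, hx.2, neg_zero]
  · rw [Derivation.leibniz_inv, hx.2, smul_zero]

variable [CompleteSpace K₁] [CompleteSpace K'] [IsAlgClosed K'] {P : Rad}
  {L : IntermediateField K₁ K'} [FiniteDimensional K₁ L]

omit [CompleteSpace K₁] [IsAlgClosed K'] in
theorem Chn_ex {f : L1 K' P} (hf : ∀ m, coef f m ∈ L) {z : Pt1 K' P}
    (hz : IsAlgebraic K₁ z.v) : ∃ (L₂ : IntermediateField K₁ K') (_ : FiniteDimensional K₁ L₂),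
      ∀ m, coef f m * z.v ^ m ∈ L₂ := by
  have := IntermediateField.adjoin.finiteDimensional hz.isIntegral
  have hz : z.v ∈ L ⊔ IntermediateField.adjoin K₁ {z.v} :=
    le_sup_right (a := L) (IntermediateField.mem_adjoin_simple_self K₁ z.v)
  exact ⟨_, inferInstance, fun m => mul_mem (le_sup_left (a := L) (hf m)) (zpow_mem hz m)⟩

omit [IsAlgClosed K'] in
theorem val_alg {f : L1 K' P} (hf : ∀ m, coef f m ∈ L) {z : Pt1 K' P}
    (hz : IsAlgebraic K₁ z.v) : IsAlgebraic K₁ (f.1 z) := by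
  obtain ⟨L₂, _, h⟩ := Chn_ex hf hz
  exact ((Algebra.IsIntegral.isIntegral (R := K₁)
    (⟨_, DC_mem (hasSum_coef f z) h⟩ : L₂)).map L₂.val).isAlgebraic

theorem chain_val [CharZero K'] (d : Derivation k K₁ K₁) {C : ℝ} (hd : ∀ x, ‖d x‖ ≤ C * ‖x‖)
    (δ : Derivation k K' K') (hδ : ∀ x, δ (algebraMap K₁ K' x) = algebraMap K₁ K' (d x))
    {f g : L1 K' P} (hf : ∀ m, coef f m ∈ L) (hg : ∀ m, coef g m = δ (coef f m)) {z : Pt1 K' P}
    (hz : IsAlgebraic K₁ z.v) :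
    δ (f.1 z) = g.1 z + (D1 K' P f).1 z * (δ z.v / z.v) := by
  obtain ⟨L₂, _, h2⟩ := Chn_ex hf hz
  obtain ⟨-, C₂, -, hC⟩ := fin_der d hd δ hδ L₂
  have h0 : z.v ≠ 0 := z.1.ne_zero
  have h1 := hasSum_coef f z
  refine (((hasSum_coef g z).add ((hasSum_coef (D1 K' P f) z).mul_right (δ z.v / z.v))).unique
    (tendsto_iff_norm_sub_tendsto_zero.2 (squeeze_zero (fun _ => norm_nonneg _) (fun S => ?_)
      (by simpa only [mul_zero] using
        (tendsto_iff_norm_sub_tendsto_zero.1 h1).const_mul C₂)))).symm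
  refine le_trans (le_of_eq ?_) (hC _ (sub_mem (sum_mem fun n _ => h2 n) (DC_mem h1 h2)))
  rw [map_sub, map_sum]
  congr 2
  refine Finset.sum_congr rfl fun n _ => ?_
  beta_reduce
  rw [hg, coef_D1, Derivation.leibniz, Derivation.leibniz_zpow, zpow_sub_one₀ h0]
  simp only [smul_eq_mul, zsmul_eq_mul]
  ring

end Pool.Agent.Work.MP_e120ef_ag.H.CS
end

-- merged part: Pool.Agent.Work.MP_e120ef_ag.C.Ndg
section
/-!
# A curve which is tangent to all its arithmetic derivatives is algebraic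

Plan.  `RQ K'`: rationals are killed by all derivations (`hker`, `norm_algebraMap'`).  `many_val` for `y 0` gives an infinite set `Z₀`.  Let `W = D1 (p 0) * q 0 - p 0 * D1 (q 0)`; `W ≠ 0`, since otherwise `D (y 0) = 0` (`Mer_D`/`nev_D`, `leibniz_div`) and `y 0` is constant (`Nev.D_const`, `sm_alg`).
Remove from `Z₀` the zeros of `q 0`, `q 1`, `W` (`finite_zeros`).  At a remaining `z`: `p 0 z = n * q 0 z` (`val_cop`), and `p 0 - n • q 0 ≠ 0` has coefficients in `L`, so `z` is algebraic over `K₁` (`DC_alg`).  Let `b = p 1 z / q 1 z` (`val_div`, `val_alg`).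
For each `i` take `g j`, `h j` with coefficients `δ i (coef (p j) m)`, `δ i (coef (q j) m)` (`fin_der`, `DC_ex`); `hdeg` becomes `A 0 * W 1 = A 1 * W 0` in `L1` with `A j = g j * q j - p j * h j`, `W j = D1 (p j) * q j - p j * D1 (q j)` (clear denominators, `IsFractionRing.injective`).
With `τ = δ z / z`, `chain_val` gives `δ (p j z / q j z) * (q j z) ^ 2 = A j z + W j z * τ`; for `j = 0` the left side is zero (`Derivation.map_natCast`), hence `W 0 z * (A 1 z + W 1 z * τ) = 0` and `δ i b = 0`.  So `n, b ∈ k₀` (`exists_k₀`), and `interp` applies.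
-/

namespace Pool.Agent.Work.MP_e120ef_ag.H.CS

theorem Ndg_quot {R F : Type} [CommRing R] [Field F] [Algebra R F] (D : Derivation R F F)
    (a : F) {b : F} (hb : b ≠ 0) : D (a / b) * b ^ 2 = D a * b - a * D b := by
  rw [Derivation.leibniz_div]
  simp only [smul_eq_mul]
  field_simp

theorem Ndg_alg {F : Type} [Field F] {A₀ A₁ W₀ W₁ τ x b : F} (h : A₀ * W₁ = A₁ * W₀)
    (h0 : 0 = A₀ + W₀ * τ) (hW : W₀ ≠ 0) (hb : b ≠ 0) (hx : x * b ^ 2 = A₁ + W₁ * τ) : x = 0 := by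
  have h1 : W₀ * (x * b ^ 2) = 0 := by
    rw [hx]
    linear_combination -h - W₁ * h0
  exact (mul_eq_zero.1 ((mul_eq_zero.1 h1).resolve_left hW)).resolve_right (pow_ne_zero 2 hb)

variable {k K₁ K' : Type} [Field k] [NontriviallyNormedField K₁] [CompleteSpace K₁]
  [NontriviallyNormedField K'] [IsUltrametricDist K'] [CompleteSpace K'] [IsAlgClosed K']
  [CharZero K'] [NormedAlgebra K₁ K'] [Algebra k K₁] [Algebra k K']

omit [CharZero K'] in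
theorem Ndg_mer {R : Type} [CommRing R] {P : Rad} [Algebra R (MM K' P)]
    (D : Derivation R (MM K' P) (MM K' P)) {p q g h : L1 K' P} (hq : q ≠ 0)
    (hg : D (im p) = im g) (hh : D (im q) = im h) :
    D (im p / im q) * im q ^ 2 = im (g * q - p * h) := by
  rw [Ndg_quot D _ (im_ne hq), hg, hh]
  simp only [im, map_sub, map_mul]

omit [CharZero K'] in
theorem Ndg_cross {P : Rad} {u₀ u₁ v₀ v₁ b₀ b₁ : MM K' P} {A₀ A₁ W₀ W₁ : L1 K' P}
    (h : u₀ * v₁ = u₁ * v₀) (a0 : u₀ * b₀ = im A₀) (a1 : u₁ * b₁ = im A₁)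
    (w0 : v₀ * b₀ = im W₀) (w1 : v₁ * b₁ = im W₁) : A₀ * W₁ = A₁ * W₀ := by
  by_contra hc
  refine im_ne (sub_ne_zero.2 hc) ?_
  have e : im (A₀ * W₁ - A₁ * W₀) = im A₀ * im W₁ - im A₁ * im W₀ := by
    simp only [im, map_sub, map_mul]
  rw [e, ← a0, ← a1, ← w0, ← w1]
  linear_combination b₀ * b₁ * h

theorem Ndg_val {P : Rad} (d : Derivation k K₁ K₁) (hd : ∀ x, ‖d x‖ ≤ 1 * ‖x‖)
    (δ : Derivation k K' K') (hδ : ∀ x, δ (algebraMap K₁ K' x) = algebraMap K₁ K' (d x))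
    {L : IntermediateField K₁ K'} [FiniteDimensional K₁ L] {p q g h : L1 K' P}
    (hp : ∀ m, coef p m ∈ L) (hq : ∀ m, coef q m ∈ L) (hg : ∀ m, coef g m = δ (coef p m))
    (hh : ∀ m, coef h m = δ (coef q m)) {z : Pt1 K' P} (hz : IsAlgebraic K₁ z.v)
    (h0 : q.1 z ≠ 0) : δ (p.1 z / q.1 z) * q.1 z ^ 2 =
      (g * q - p * h).1 z + (D1 K' P p * q - p * D1 K' P q).1 z * (δ z.v / z.v) := by
  rw [Ndg_quot δ _ h0, chain_val d hd δ hδ hp hg hz, chain_val d hd δ hδ hq hh hz]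
  show _ = g.1 z * q.1 z - p.1 z * h.1 z +
    ((D1 K' P p).1 z * q.1 z - p.1 z * (D1 K' P q).1 z) * (δ z.v / z.v)
  ring

theorem ndg {Λ : Type} (d : Λ → Derivation k K₁ K₁) (hd : ∀ i x, ‖d i x‖ ≤ ‖x‖)
    (hker : ∀ x, (∀ i, d i x = 0) → ‖x‖ ≤ 1) (δ : Λ → Derivation k K' K')
    (hδ : ∀ i x, δ i (algebraMap K₁ K' x) = algebraMap K₁ K' (d i x))
    (L : IntermediateField K₁ K') [FiniteDimensional K₁ L]
    (𝒟 : Λ → Derivation k (MM K' Rad.out) (MM K' Rad.out))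
    (h𝒟 : ∀ i (f g : L1 K' Rad.out), (∀ m, coef f m ∈ L) → (∀ m, coef g m = δ i (coef f m)) →
      𝒟 i (im f) = im g)
    (y : Fin 2 → MM K' Rad.out) (p q : Fin 2 → L1 K' Rad.out) (hp : ∀ j m, coef (p j) m ∈ L)
    (hq : ∀ j m, coef (q j) m ∈ L) (hq0 : ∀ j, q j ≠ 0) (hy : ∀ j, y j = im (p j) / im (q j))
    (h0 : ¬ (nev K' Rad.out).Sm (y 0))
    (hdeg : ∀ i, 𝒟 i (y 0) * (nev K' Rad.out).D (y 1) = 𝒟 i (y 1) * (nev K' Rad.out).D (y 0)) :
    ¬ AlgebraicIndependent K' y := by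
  obtain ⟨k₀, hk, hk'⟩ := exists_k₀ d δ hδ hker
  have hQ : RQ K' := fun r => hk _ (SubfieldClass.ratCast_mem k₀ r)
  obtain ⟨w₁, w₃, hw, hZ⟩ := many_val (nev K' Rad.out) hQ h0
  have hd' : ∀ i x, ‖d i x‖ ≤ 1 * ‖x‖ := fun i x => by rw [one_mul]; exact hd i x
  have hD : ∀ j, (nev K' Rad.out).D (y j) * im (q j) ^ 2 =
      im (D1 K' Rad.out (p j) * q j - p j * D1 K' Rad.out (q j)) := fun j => by
    rw [hy j]
    exact Ndg_mer _ (hq0 j) (nev_D _) (nev_D _)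
  have hW : D1 K' Rad.out (p 0) * q 0 - p 0 * D1 K' Rad.out (q 0) ≠ 0 := by
    intro e
    have h1 := hD 0
    rw [e, im, im, map_zero] at h1
    obtain ⟨c, hc⟩ := (nev K' Rad.out).D_const
      ((mul_eq_zero.1 h1).resolve_right (pow_ne_zero 2 (im_ne (hq0 0))))
    exact h0 (hc ▸ (nev K' Rad.out).sm_alg c)
  have hF := finite_zeros (mul_ne_zero (mul_ne_zero (hq0 0) (hq0 1)) hW) w₁ w₃
  refine interp k₀ hk y (w₃ := w₃) hw ((hZ.sdiff hF).mono ?_)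
  rintro z ⟨⟨z1, z2, n, hn⟩, hz⟩
  have hz' : (q 0).1 z * (q 1).1 z *
      (D1 K' Rad.out (p 0) * q 0 - p 0 * D1 K' Rad.out (q 0)).1 z ≠ 0 := fun e => hz ⟨z1, z2, e⟩
  have q0 : (q 0).1 z ≠ 0 := left_ne_zero_of_mul (left_ne_zero_of_mul hz')
  have q1 : (q 1).1 z ≠ 0 := right_ne_zero_of_mul (left_ne_zero_of_mul hz')
  have W0 := right_ne_zero_of_mul hz'
  have hv : (p 0).1 z = n * (q 0).1 z := val_cop (hq0 0) (hy 0 ▸ hn)
  have hza : IsAlgebraic K₁ z.v := by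
    refine DC_alg (L := L) (f := p 0 + (-(n : K')) • q 0) (fun e => hW ?_) (fun m => ?_) ?_
    · have e2 : p 0 = (n : K') • q 0 := by
        rw [neg_smul, ← sub_eq_add_neg, sub_eq_zero] at e
        exact e
      rw [e2, Derivation.map_smul, smul_mul_assoc, smul_mul_assoc, mul_comm, sub_self]
    · rw [coef_add, coef_smul]
      exact add_mem (hp 0 m) (mul_mem (neg_mem (natCast_mem L n)) (hq 0 m))
    · show (p 0).1 z + -(n : K') * (q 0).1 z = 0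
      rw [hv]
      ring
  have hb : (p 1).1 z / (q 1).1 z ∈ k₀ := by
    refine hk' _ ?_ fun i => ?_
    · rw [div_eq_mul_inv]
      exact (val_alg (hp 1) hza).mul (val_alg (hq 1) hza).inv
    · obtain ⟨-, C, -, hC⟩ := fin_der (d i) (hd' i) (δ i) (hδ i) L
      choose g hg using fun j => DC_ex hC (hp j)
      choose h hh using fun j => DC_ex hC (hq j)
      have hA : ∀ j, 𝒟 i (y j) * im (q j) ^ 2 = im (g j * q j - p j * h j) := fun j => by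
        rw [hy j]
        exact Ndg_mer _ (hq0 j) (h𝒟 i _ _ (hp j) (hg j)) (h𝒟 i _ _ (hq j) (hh j))
      have h1 := Ndg_cross (hdeg i) (hA 0) (hA 1) (hD 0) (hD 1)
      have h2 : (g 0 * q 0 - p 0 * h 0).1 z *
          (D1 K' Rad.out (p 1) * q 1 - p 1 * D1 K' Rad.out (q 1)).1 z =
          (g 1 * q 1 - p 1 * h 1).1 z *
            (D1 K' Rad.out (p 0) * q 0 - p 0 * D1 K' Rad.out (q 0)).1 z :=
        congrFun (congrArg Subtype.val h1) z
      have h3 := Ndg_val (d i) (hd' i) (δ i) (hδ i) (hp 0) (hq 0) (hg 0) (hh 0) hza q0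
      rw [hv, mul_div_cancel_right₀ _ q0, Derivation.map_natCast, zero_mul] at h3
      exact Ndg_alg h2 h3 W0 q1
        (Ndg_val (d i) (hd' i) (δ i) (hδ i) (hp 1) (hq 1) (hg 1) (hh 1) hza q1)
  refine ⟨z1, z2, Fin.forall_fin_two.2 ⟨⟨n, natCast_mem k₀ n, hn⟩, ⟨_, hb, ?_⟩⟩⟩
  rw [hy 1]
  exact val_div (p 1) q1

end Pool.Agent.Work.MP_e120ef_ag.H.CS
end
end

-- merged part: Pool.Agent.Work.MP_e120ef_ag.Br.G6
section
-- merged part: Pool.Agent.Work.MP_e120ef_ag.Br.S1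
section
/-! The projection `pi` of a Noether normalisation is proper.

Plans.  `S1_bound`: for `b : B` take a monic `Q` with `Q(z, b) = 0` (`ND.integral`); if
`ξ (z l) ≤ r` for all `l` the coefficients are bounded by a constant `C ≥ 1` (induction on
polynomials or a sum over the support), and `ξ b ≤ C` (otherwise the top term dominates).
`compact_le`: a closed subset of `Sn.compact`.  `cpt_nhds`: `{ξ' | ∀ l, ξ' (z l) ≤ r}` is a compact
neighbourhood for large `r`; a compact Hausdorff space is locally compact (regular)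
(`exists_mem_nhds_isCompact_mapsTo`, `WeaklyLocallyCompactSpace`).  `proper`: with `O` open
(interior), the image of the compact set `{ξ (z l) ≤ r} \ O` is compact, so closed, and misses `τ`;
take its complement inside `{τ' | τ' (X l) < r}`. -/

open Filter Topology Polynomial

namespace Pool.Agent.Work.MP_e120ef_ag.Br

variable {K : Type} [NontriviallyNormedField K] {F : Type} [Field F] [Algebra K F]
  {B : Subalgebra K F} {n : ℕ} (𝒩 : H.ND B n)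

/-- the Noether normalisation -/
noncomputable def zA : Pl K n →ₐ[K] B := MvPolynomial.aeval 𝒩.ND_z

/-- the projection to the affine space -/
noncomputable def pi (ξ : Sn K B) : Sn K (Pl K n) := ξ.comap (zA 𝒩)

theorem pi_apply (ξ : Sn K B) (P : Pl K n) : pi 𝒩 ξ P = ξ (zA 𝒩 P) := rfl

theorem cont_pi : Continuous (pi 𝒩) := Sn.cont_comap _

theorem zA_inj : Function.Injective (zA 𝒩) := by
  intro P Q h
  apply 𝒩.tb.1
  have := congrArg (Subtype.val) h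
  simpa only [zA, 𝒩.ND_val] using this

theorem map_zA {R : Type} [CommRing R] [Algebra K R] (c : B →ₐ[K] R) (P : Pl K n) :
    c (zA 𝒩 P) = MvPolynomial.aeval (𝒩.zv c) P :=
  𝒩.map_ae c P |>.symm ▸ congrArg c (Subtype.ext (𝒩.ND_val P))

theorem pi_of {L : Type} [NormedField L] [IsUltrametricDist L] [NormedAlgebra K L]
    (c : B →ₐ[K] L) : pi 𝒩 (Sn.of c) = pz K (𝒩.zv c) := by
  refine Sn.ext' fun P => ?_
  rw [pi_apply, Sn.of_apply, pz_apply, map_zA]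

theorem S1_X (l : Fin n) : zA 𝒩 (MvPolynomial.X l) = 𝒩.ND_z l := MvPolynomial.aeval_X _ _

theorem S1_poly (r : ℝ) (P : Pl K n) : ∃ C : ℝ, 0 ≤ C ∧
    ∀ ξ : Sn K B, (∀ l, ξ (𝒩.ND_z l) ≤ r) → ξ (zA 𝒩 P) ≤ C := by
  induction P using MvPolynomial.induction_on with
  | C a =>
    refine ⟨‖a‖, norm_nonneg _, fun ξ _ => ?_⟩
    rw [← MvPolynomial.algebraMap_eq, AlgHom.commutes, ξ.alg]
  | add p q hp hq =>
    obtain ⟨C, hC, hp⟩ := hp
    obtain ⟨C', -, hq⟩ := hq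
    refine ⟨max C C', le_max_of_le_left hC, fun ξ h => ?_⟩
    rw [map_add]
    exact (ξ.add _ _).trans (max_le_max (hp ξ h) (hq ξ h))
  | mul_X p l hp =>
    obtain ⟨C, hC, hp⟩ := hp
    refine ⟨C * max r 0, mul_nonneg hC (le_max_right _ _), fun ξ h => ?_⟩
    rw [map_mul, ξ.mul, S1_X]
    exact mul_le_mul (hp ξ h) ((h l).trans (le_max_left _ _)) (ξ.nn _) hC

theorem S1_nhds {R : Type} [CommRing R] [Algebra K R] (ξ : Sn K R) (z : Fin n → R) :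
    ∃ r : ℝ, {ξ' : Sn K R | ∀ l, ξ' (z l) ≤ r} ∈ 𝓝 ξ := by
  refine ⟨∑ l, ξ (z l) + 1, ?_⟩
  have : ∀ l, ∀ᶠ ξ' : Sn K R in 𝓝 ξ, ξ' (z l) ≤ ∑ l, ξ (z l) + 1 := fun l =>
    (Sn.cont (z l)).continuousAt.eventually_le_const (lt_add_of_le_of_pos
      (Finset.single_le_sum (f := fun l => ξ (z l)) (fun i _ => ξ.nn _) (Finset.mem_univ l))
      one_pos)
  exact eventually_all.2 this

theorem S1_bound (r : ℝ) (b : B) : ∃ C : ℝ, ∀ ξ : Sn K B, (∀ l, ξ (𝒩.ND_z l) ≤ r) → ξ b ≤ C := by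
  obtain ⟨Q, hQ, h0⟩ := 𝒩.ND_int b
  choose C hC hb using fun i => S1_poly 𝒩 r (Q.coeff i)
  refine ⟨1 + ∑ i ∈ Finset.range Q.natDegree, C i, fun ξ h => ?_⟩
  by_contra hlt
  rw [not_le] at hlt
  have hs : 0 ≤ ∑ i ∈ Finset.range Q.natDegree, C i := Finset.sum_nonneg fun i _ => hC i
  have h1 : 1 ≤ ξ b := by linarith
  rw [eval₂_eq_sum_range, Finset.sum_range_succ, hQ.coeff_natDegree, map_one, one_mul] at h0
  have h2 := ξ.sum_lt (Finset.range Q.natDegree)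
    (fun i => H.ND.ae 𝒩.ND_z (Q.coeff i) * b ^ i) (C := ξ b ^ Q.natDegree) (by positivity)
    fun i hi => by
      have h3 : C i ≤ ∑ i ∈ Finset.range Q.natDegree, C i :=
        Finset.single_le_sum (fun i _ => hC i) hi
      have h4 : ξ (H.ND.ae 𝒩.ND_z (Q.coeff i)) < ξ b := (hb i ξ h).trans_lt (by linarith)
      rw [ξ.mul, ξ.pow]
      refine (mul_lt_mul_of_pos_right h4 (by positivity)).trans_le ?_
      rw [← pow_succ']
      exact pow_le_pow_right₀ h1 (Finset.mem_range.1 hi)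
  rw [eq_neg_of_add_eq_zero_left h0, ξ.neg, ξ.pow] at h2
  exact lt_irrefl _ h2

theorem compact_le (r : ℝ) : IsCompact {ξ : Sn K B | ∀ l, ξ (𝒩.ND_z l) ≤ r} := by
  choose C hC using S1_bound 𝒩 r
  refine (Sn.compact C).of_isClosed_subset ?_ fun ξ h b => hC b ξ h
  rw [Set.ofPred_forall]
  exact isClosed_iInter fun l => isClosed_le (Sn.cont _) continuous_const

include 𝒩 in
theorem cpt_nhds {ξ : Sn K B} {N : Set (Sn K B)} (h : N ∈ 𝓝 ξ) :
    ∃ N' ∈ 𝓝 ξ, N' ⊆ N ∧ IsCompact N' := by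
  have : WeaklyLocallyCompactSpace (Sn K B) := ⟨fun ξ => by
    obtain ⟨r, hr⟩ := S1_nhds ξ 𝒩.ND_z
    exact ⟨_, compact_le 𝒩 r, hr⟩⟩
  exact local_compact_nhds h

theorem proper {τ : Sn K (Pl K n)} {O : Set (Sn K B)} (h : ∀ ξ, pi 𝒩 ξ = τ → O ∈ 𝓝 ξ) :
    ∃ N ∈ 𝓝 τ, ∀ ξ, pi 𝒩 ξ ∈ N → ξ ∈ O := by
  obtain ⟨r, hr⟩ := S1_nhds τ (fun l => MvPolynomial.X l)
  have hc := (((compact_le 𝒩 r).diff (isOpen_interior (s := O))).image (cont_pi 𝒩)).isClosed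
  refine ⟨_, inter_mem hr (hc.isOpen_compl.mem_nhds ?_), fun ξ hξ => ?_⟩
  · rintro ⟨ξ, h1, h2⟩
    exact h1.2 (mem_interior_iff_mem_nhds.2 (h ξ h2))
  · by_contra hO
    refine hξ.2 ⟨ξ, ⟨fun l => ?_, fun k => hO (interior_subset k)⟩, rfl⟩
    have := hξ.1 l
    rwa [pi_apply, S1_X] at this

end Pool.Agent.Work.MP_e120ef_ag.Br
end

-- merged part: Pool.Agent.Work.MP_e120ef_ag.Br.G2
section
/-!
# Analytic functions as functions of `L`-valued points; big points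
-/

open CategoryTheory AlgebraicGeometry Filter Topology

namespace Pool.Agent.Work.MP_e120ef_ag.Br

variable {K : Type} [NontriviallyNormedField K] [IsUltrametricDist K] [CharZero K] {G : Sch K}
  [IsIntegral G.left] {W : G.left.Opens} (hW : IsAffineOpen W) (hg : gp G ∈ W)
  {L : Type} [NormedField L] [IsUltrametricDist L] [CompleteSpace L] [NormedAlgebra K L]

theorem exists_jc (c : B G W →ₐ[K] L) : ∃ j : (io hW hg (Sn.of c)).H →ₐ[K] L, (∀ x, ‖j x‖ = ‖x‖) ∧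
    ∀ b : B G W, j ((io hW hg (Sn.of c)).sl.ρ b) = c b := by
  obtain ⟨s, hs, hc⟩ := exists_sl hW hg c
  obtain ⟨ζ, h1, h2⟩ := exists_An s
  have e : io hW hg (Sn.of c) = ζ := An_ext_B hW (io_mem hW hg _) (h1 ▸ hs) fun b => by
    rw [io_val, h2 _ (B_le_O hs b.2), hc, Sn.of_apply]
  rw [e]
  obtain ⟨j, h3, h4⟩ := exists_j ζ s h1.symm fun y hy => (h2 y (h1 ▸ hy)).symm
  exact ⟨j, h3, fun b => (h4 _ (h1 ▸ B_le_O hs b.2)).trans (hc b)⟩

/-- the embedding of the completed residue field defined by an `L`-valued point -/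
noncomputable def jc (c : B G W →ₐ[K] L) : (io hW hg (Sn.of c)).H →ₐ[K] L :=
  (exists_jc hW hg c).choose

theorem norm_jc (c : B G W →ₐ[K] L) (x : (io hW hg (Sn.of c)).H) : ‖jc hW hg c x‖ = ‖x‖ :=
  (exists_jc hW hg c).choose_spec.1 x

theorem jc_val (c : B G W →ₐ[K] L) (b : B G W) :
    jc hW hg c ((io hW hg (Sn.of c)).sl.ρ b) = c b :=
  (exists_jc hW hg c).choose_spec.2 b

theorem Ac_of_IsAn {O : Set (An G)} {u : ∀ ζ : O, ζ.1.H} (hu : IsAn O u) {ξ : Sn K (B G W)}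
    (h : io hW hg ξ ∈ O) {v : (B G W →ₐ[K] L) → L}
    (hv : ∀ c (h : io hW hg (Sn.of c) ∈ O), v c = jc hW hg c (u ⟨_, h⟩)) : Ac ξ v := by
  obtain ⟨W', hO, U, hU, ho, hm, happ⟩ := hu _ h
  obtain ⟨f, hf, hfu, hle⟩ := aff_exists_basic hW (io_mem hW hg ξ) (hU _ hm)
  have hgU : gp G ∈ U := gp_mem (hU _ hm)
  refine ⟨io hW hg ⁻¹' W' ∩ {ξ' | ξ' ⟨f, hf⟩ ≠ 0}, inter_mem
    ((cont_io hW hg).continuousAt (ho.mem_nhds hm))
    ((Sn.cont (⟨f, hf⟩ : B G W)).continuousAt.eventually_ne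
      ((io_isU hW hg (b := ⟨f, hf⟩)).1 hfu)), fun ε hε => ?_⟩
  obtain ⟨s, t, hst⟩ := happ ε hε
  obtain ⟨k, hk⟩ := aff_ext hW hf hg hfu.ne_zero (B_anti hle (germ_mem_B hgU s))
  obtain ⟨l, hl⟩ := aff_ext hW hf hg hfu.ne_zero (B_anti hle (germ_mem_B hgU t))
  have key : ∀ ξ' : Sn K (B G W), ∀ h' : io hW hg ξ' ∈ W', ∀ (m n : ℕ) (r : Γ(G.left, U)),
      (io hW hg ξ').sl.ρ (f ^ m * (f ^ n * germ G U hgU r)) =
        (io hW hg ξ').sl.ρ f ^ (m + n) * (io hW hg ξ').ev U (hU _ h') r := fun ξ' h' m n r => by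
    have h1 : f ∈ MP_e120ef_ag.O G (io hW hg ξ').sl.η := B_le_O (io_mem hW hg ξ') hf
    rw [← mul_assoc, ← pow_add, (io hW hg ξ').sl.mul _ (pow_mem h1 _) _
      (Fn_germ_mem_O (hU _ h') r), (io hW hg ξ').sl.pow h1, An.sl_germ]
  refine ⟨⟨_, mul_mem (pow_mem hf l) hk⟩, ⟨_, mul_mem (pow_mem hf k) hl⟩, fun ξ' h' => ?_,
    fun c h' => ?_⟩
  · rw [← io_val hW hg, norm_ne_zero_iff, key ξ' h'.1]
    refine mul_ne_zero (pow_ne_zero _ ?_) (hst _ h'.1).1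
    rw [← norm_ne_zero_iff, io_val hW hg ξ' ⟨f, hf⟩]
    exact h'.2
  · have h0 : (io hW hg (Sn.of c)).sl.ρ f ^ (k + l) ≠ 0 := by
      refine pow_ne_zero _ ?_
      rw [← norm_ne_zero_iff, io_val hW hg _ ⟨f, hf⟩]
      exact h'.2
    rw [hv c (hO h'.1), ← jc_val hW hg, ← jc_val hW hg, key _ h'.1, key _ h'.1, ← map_div₀,
      ← map_sub, norm_jc, add_comm l k, mul_div_mul_left _ _ h0]
    exact (hst _ h'.1).2

theorem big_mem {𝒰 : Set (An G)} (h𝒰 : ∀ ζ ∉ 𝒰, ∀ (m : ℕ) (t : Fin m → ζ.H), Gen K t →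
    (m : Cardinal) + 2 ≤ Algebra.trdeg K (Fn G)) {n : ℕ} (𝒩 : H.ND (B G W) n) {ξ : Sn K (B G W)}
    (h : Big (pi 𝒩 ξ)) : io hW hg ξ ∈ 𝒰 := by
  by_contra hn
  obtain ⟨m, t, h1, h2⟩ := h _ (((io hW hg ξ).onB (io_mem hW hg ξ)).comp (zA 𝒩)) fun a =>
    io_val hW hg ξ (zA 𝒩 a)
  have h3 := h𝒰 _ hn m t h2
  rw [← 𝒩.tb.cardinalMk_eq_trdeg, Cardinal.mk_fin] at h3
  have h4 : m + 2 ≤ n := by exact_mod_cast h3
  omega

end Pool.Agent.Work.MP_e120ef_ag.Br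
end

-- merged part: Pool.Agent.Work.MP_e120ef_ag.Br.S2
section
/-! Separation of finitely many seminorms; the fibres of `pi` are finite.

Plans.  `S2_pair`: if `ξ b₀ < ξ' b₀` take `(a, b) = (λ, b₀)` with `λ : K` in between
(`norm_btw`), otherwise `(a, b) = (b₀, λ)`.  `S2_perturb`: replace `a` by `a + δ`, `δ : K` small;
for each seminorm at most one `δ` gives `0`, and there are infinitely many small `δ`.
`sep`: induction on `T`, carrying the stronger statement that `a` vanishes at no point of a fixed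
finite set `T₀ ⊇ T`: given `(a, b)` for `T` and `(a', b')` for the new point `ξ'`; if `ξ' a < ξ' b`
keep `(a, b)`, otherwise take `(a ^ N * a', b ^ N * a' + b' * a ^ N)` with `N` large.
`fib_finite`: if `T` is a finite subset of the fibre with more than `𝒩.N` points, `sep` gives
`β ξ` with `ξ (β ξ') < ξ (β ξ)` for `ξ' ≠ ξ`: with `(a_ξ, b_ξ)` from `sep` (`ξ b < ξ a`, others
reversed) put `d_ξ = a_ξ + b_ξ` (nonzero at all points of `T`), `β ξ = a_ξ * ∏_{ξ' ≠ ξ} d_ξ'`.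
Write `β ξ = ∑ γ ξ k * e k` (`𝒩.gen`); over the domain `A ⧸ ker τ` the `γ ξ` are linearly dependent:
there are `α ξ : A`, not all with `τ (α ξ) = 0`, with `τ (∑ α ξ * γ ξ k) = 0` for all `k`
(`Module.Finite.not_linearIndependent_of_finrank_lt` style: `LinearIndependent.fintype_card_le_finrank`).
At a `ξ` maximising `τ (α ξ)`, `ξ (∑ α ξ' * β ξ') = τ (α ξ) * ξ (β ξ) > 0`, but it is `0`. -/

open Filter Topology

namespace Pool.Agent.Work.MP_e120ef_ag.Br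

variable {K : Type} [NontriviallyNormedField K] [IsAlgClosed K]

section

variable {R : Type} [CommRing R] [Algebra K R]

omit [IsAlgClosed K] in
theorem S2_mul_pos {η : Sn K R} {a b : R} (ha : 0 < η a) (hb : 0 < η b) : 0 < η (a * b) := by
  rw [η.mul]
  exact mul_pos ha hb

theorem S2_pair {ξ ξ' : Sn K R} (h : ξ ≠ ξ') (T₀ : Finset (Sn K R)) :
    ∃ a b : R, ξ b < ξ a ∧ ξ' a < ξ' b ∧ ∀ η ∈ T₀, 0 < η a := by
  obtain ⟨b₀, hb⟩ : ∃ b₀, ξ b₀ ≠ ξ' b₀ := by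
    by_contra hc
    exact h (Sn.ext' fun a => not_not.mp fun ha => hc ⟨a, ha⟩)
  rcases lt_or_gt_of_ne hb with hb | hb
  · obtain ⟨l, h1, h2⟩ := norm_btw K (ξ.nn b₀) hb
    refine ⟨algebraMap K R l, b₀, by rwa [ξ.alg], by rwa [ξ'.alg], fun η _ => ?_⟩
    rw [η.alg]
    exact (ξ.nn b₀).trans_lt h1
  · obtain ⟨l, h1, h2⟩ := norm_btw K (ξ'.nn b₀) hb
    have hl : 0 < ‖l‖ := (ξ'.nn b₀).trans_lt h1
    have he : ∀ᶠ ε in 𝓝[>] (0 : ℝ), 0 < ε ∧ ε < ‖l‖ ∧ ∀ η ∈ T₀, 0 < η b₀ → ε < η b₀ := by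
      refine Eventually.and self_mem_nhdsWithin (Eventually.filter_mono nhdsWithin_le_nhds ?_)
      refine (eventually_lt_nhds hl).and ((eventually_all_finset T₀).2 fun η _ => ?_)
      by_cases hη : 0 < η b₀
      · exact (eventually_lt_nhds hη).mono fun _ h _ => h
      · exact Eventually.of_forall fun _ h => absurd h hη
    obtain ⟨ε, e0, e1, e2⟩ := he.exists
    obtain ⟨δ, d0, d1⟩ := norm_btw K le_rfl e0
    refine ⟨b₀ + algebraMap K R δ, algebraMap K R l, ?_, ?_, fun η hη => ?_⟩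
    · rw [ξ.add_eq (by rw [ξ.alg]; linarith), ξ.alg]
      exact h2
    · refine (ξ'.add _ _).trans_lt ?_
      rw [ξ'.alg, ξ'.alg]
      exact max_lt h1 (d1.trans e1)
    · by_cases h0 : 0 < η b₀
      · rw [η.add_eq (by rw [η.alg]; exact d1.trans (e2 η hη h0))]
        exact h0
      · rw [add_comm, η.add_eq (by rw [η.alg]; exact (not_lt.mp h0).trans_lt d0), η.alg]
        exact d0

theorem S2_large {x y c d : ℝ} (hx : 0 ≤ x) (hxy : x < y) (hd : 0 < d) :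
    ∀ᶠ N : ℕ in atTop, c * x ^ N < y ^ N * d := by
  have hy : 0 < y := hx.trans_lt hxy
  have h := (tendsto_pow_atTop_nhds_zero_of_lt_one (div_nonneg hx hy.le)
    ((div_lt_one hy).2 hxy)).const_mul c
  rw [mul_zero] at h
  refine (h.eventually (eventually_lt_nhds hd)).mono fun N hN => ?_
  rw [div_pow, ← mul_div_assoc, div_lt_iff₀ (pow_pos hy N)] at hN
  rwa [mul_comm (y ^ N)]

theorem S2_sep (ξ : Sn K R) (T₀ : Finset (Sn K R)) (T : Finset (Sn K R)) :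
    ξ ∉ T → T ⊆ T₀ → ∃ a b : R, ξ b < ξ a ∧ (∀ η ∈ T, η a < η b) ∧ ∀ η ∈ T₀, 0 < η a := by
  classical
  induction T using Finset.induction_on with
  | empty =>
    intro _ _
    refine ⟨1, 0, by rw [ξ.zero, ξ.one]; exact one_pos, fun _ h => absurd h (Finset.notMem_empty _),
      fun η _ => by rw [η.one]; exact one_pos⟩
  | insert ξ' T _ ih =>
    intro h hT
    rw [Finset.mem_insert, not_or] at h
    obtain ⟨a, b, h1, h2, h3⟩ := ih h.2 ((Finset.subset_insert _ _).trans hT)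
    by_cases hk : ξ' a < ξ' b
    · exact ⟨a, b, h1, fun η hη => (Finset.mem_insert.mp hη).elim (fun e => e ▸ hk) (h2 η), h3⟩
    obtain ⟨a', b', g1, g2, g3⟩ := S2_pair h.1 T₀
    have hN : ∀ᶠ N : ℕ in atTop, 0 < N ∧ ∀ η ∈ T, η b' * η a ^ N < η b ^ N * η a' :=
      (eventually_gt_atTop 0).and ((eventually_all_finset T).2 fun η hη =>
        S2_large (η.nn a) (h2 η hη) (g3 η (hT (Finset.mem_insert_of_mem hη))))
    obtain ⟨N, N0, hN⟩ := hN.exists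
    refine ⟨a ^ N * a', b ^ N * a' + b' * a ^ N, ?_, fun η hη => ?_, fun η hη => ?_⟩
    · refine (ξ.add _ _).trans_lt (max_lt ?_ ?_)
      · rw [ξ.mul, ξ.mul, ξ.pow, ξ.pow]
        exact mul_lt_mul_of_pos_right (pow_lt_pow_left₀ h1 (ξ.nn b) N0.ne') ((ξ.nn b').trans_lt g1)
      · rw [ξ.mul, ξ.mul, ξ.pow, mul_comm]
        exact mul_lt_mul_of_pos_left g1 (pow_pos ((ξ.nn b).trans_lt h1) N)
    · rcases Finset.mem_insert.mp hη with rfl | hη
      · have h0 : 0 < η a := h3 η (hT (Finset.mem_insert_self _ _))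
        have e1 : η (a ^ N * a') < η (b' * a ^ N) := by
          rw [η.mul, η.mul, η.pow, mul_comm]
          exact mul_lt_mul_of_pos_right g2 (pow_pos h0 N)
        have e2 : η (b ^ N * a') ≤ η (a ^ N * a') := by
          rw [η.mul, η.mul, η.pow, η.pow]
          exact mul_le_mul_of_nonneg_right (pow_le_pow_left₀ (η.nn b) (not_lt.mp hk) N) (η.nn a')
        rwa [add_comm, η.add_eq (e2.trans_lt e1)]
      · have e1 : η (b' * a ^ N) < η (b ^ N * a') := by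
          rw [η.mul, η.mul, η.pow, η.pow]
          exact hN η hη
        rw [η.add_eq e1, η.mul, η.mul, η.pow, η.pow]
        exact mul_lt_mul_of_pos_right (pow_lt_pow_left₀ (h2 η hη) (η.nn a) N0.ne')
          (g3 η (hT (Finset.mem_insert_of_mem hη)))
    · refine S2_mul_pos ?_ (g3 η hη)
      rw [η.pow]
      exact pow_pos (h3 η hη) N

end

theorem sep {R : Type} [CommRing R] [Algebra K R] (ξ : Sn K R) (T : Finset (Sn K R))
    (h : ξ ∉ T) : ∃ a b : R, ξ b < ξ a ∧ ∀ ξ' ∈ T, 0 < ξ' a ∧ ξ' a < ξ' b := by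
  obtain ⟨a, b, h1, h2, h3⟩ := S2_sep ξ T T h subset_rfl
  exact ⟨a, b, h1, fun η hη => ⟨h3 η hη, h2 η hη⟩⟩

theorem S2_dom {R : Type} [CommRing R] [Algebra K R] (T : Finset (Sn K R)) :
    ∃ β : Sn K R → R, ∀ ξ ∈ T, 0 < ξ (β ξ) ∧ ∀ η ∈ T, η ≠ ξ → ξ (β η) < ξ (β ξ) := by
  classical
  choose a b h1 h2 using fun ξ : Sn K R => sep ξ (T.erase ξ) (Finset.notMem_erase ξ T)
  have e1 (ξ : Sn K R) : ξ (a ξ + b ξ) = ξ (a ξ) := ξ.add_eq (h1 ξ)
  have e2 (ξ : Sn K R) (hξ : ξ ∈ T) (η : Sn K R) (h : η ≠ ξ) :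
      0 < ξ (a η) ∧ ξ (a η) < ξ (a η + b η) := by
    have h3 := h2 η ξ (Finset.mem_erase.mpr ⟨h.symm, hξ⟩)
    rw [add_comm, ξ.add_eq h3.2]
    exact h3
  have e3 (ξ : Sn K R) (hξ : ξ ∈ T) (η : Sn K R) : 0 < ξ (a η + b η) := by
    by_cases h : η = ξ
    · rw [h, e1]
      exact (ξ.nn _).trans_lt (h1 ξ)
    · exact (e2 ξ hξ η h).1.trans (e2 ξ hξ η h).2
  refine ⟨fun ξ => a ξ * ∏ η ∈ T.erase ξ, (a η + b η), fun ξ hξ => ?_⟩
  have e4 : ξ (a ξ * ∏ η ∈ T.erase ξ, (a η + b η)) = ∏ η ∈ T, ξ (a η + b η) := by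
    rw [ξ.mul, ξ.prod, ← e1, Finset.mul_prod_erase T (fun η => ξ (a η + b η)) hξ]
  refine ⟨?_, fun η hη h => ?_⟩
  · rw [e4]
    exact Finset.prod_pos fun η _ => e3 ξ hξ η
  · rw [e4, ξ.mul, ξ.prod, ← Finset.mul_prod_erase T (fun η => ξ (a η + b η)) hη]
    exact mul_lt_mul_of_pos_right (e2 ξ hξ η h).2 (Finset.prod_pos fun η _ => e3 ξ hξ η)

omit [IsAlgClosed K] in
theorem S2_rel {A ι : Type} [CommRing A] [Algebra K A] [Fintype ι] (τ : Sn K A) {N : ℕ}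
    (hN : N < Fintype.card ι) (γ : ι → Fin N → A) :
    ∃ α : ι → A, (∃ i, 0 < τ (α i)) ∧ ∀ k, τ (∑ i, α i * γ i k) = 0 := by
  let p : Ideal A :=
    { carrier := {a | τ a = 0}
      add_mem' := fun {a b} ha hb => le_antisymm
        ((τ.add a b).trans (max_le (le_of_eq ha) (le_of_eq hb))) (τ.nn _)
      zero_mem' := τ.zero
      smul_mem' := fun c a ha => by
        change τ (c * a) = 0
        rw [τ.mul, (ha : τ a = 0), mul_zero] }
  have hp (a : A) : a ∈ p ↔ τ a = 0 := Iff.rfl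
  have : p.IsPrime := by
    refine ⟨fun h => ?_, fun {a b} h => ?_⟩
    · have h1 : (1 : A) ∈ p := h ▸ Submodule.mem_top
      rw [hp, τ.one] at h1
      exact one_ne_zero h1
    · rw [hp, τ.mul] at h
      exact mul_eq_zero.mp h
  have hli : ¬ LinearIndependent (A ⧸ p) fun i k => Ideal.Quotient.mk p (γ i k) := by
    intro h
    have h1 := h.fintype_card_le_finrank
    rw [Module.finrank_fin_fun] at h1
    exact absurd hN (not_lt.mpr h1)
  obtain ⟨g, h1, i, hi⟩ := Fintype.not_linearIndependent_iff.mp hli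
  choose α hα using fun i => Ideal.Quotient.mk_surjective (g i)
  refine ⟨α, ⟨i, lt_of_le_of_ne (τ.nn _) fun h => hi ?_⟩, fun k => ?_⟩
  · rw [← hα, Ideal.Quotient.eq_zero_iff_mem, hp, ← h]
  · rw [← hp, ← Ideal.Quotient.eq_zero_iff_mem, map_sum]
    have h2 := congrFun h1 k
    simp only [Finset.sum_apply, Pi.smul_apply, smul_eq_mul, Pi.zero_apply] at h2
    simpa only [map_mul, hα] using h2

variable {F : Type} [Field F] [Algebra K F] {B : Subalgebra K F} {n : ℕ} (𝒩 : H.ND B n)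

omit [IsAlgClosed K] in
theorem S2_gen (b : B) :
    ∃ γ : Fin 𝒩.N → Pl K n, b = ∑ k, zA 𝒩 (γ k) * ⟨𝒩.e k, 𝒩.e_mem k⟩ := by
  obtain ⟨γ, h⟩ := 𝒩.gen b b.2
  refine ⟨γ, Subtype.ext ?_⟩
  rw [h, AddSubmonoidClass.coe_finsetSum]
  refine Finset.sum_congr rfl fun k _ => ?_
  rw [MulMemClass.coe_mul, ← 𝒩.ND_val]
  rfl

theorem fib_finite (τ : Sn K (Pl K n)) : {ξ : Sn K B | pi 𝒩 ξ = τ}.Finite := by
  classical
  by_contra hinf
  obtain ⟨T, hT, hc⟩ := Set.Infinite.exists_subset_card_eq hinf (𝒩.N + 1)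
  obtain ⟨β, hβ⟩ := S2_dom T
  choose γ hγ using fun ξ : T => S2_gen 𝒩 (β ξ)
  obtain ⟨α, ⟨i, hi⟩, hα⟩ := S2_rel τ (ι := T) (by rw [Fintype.card_coe, hc]; omega) γ
  obtain ⟨ξ, -, hξ⟩ := Finset.exists_max_image Finset.univ (fun j => τ (α j))
    ⟨i, Finset.mem_univ i⟩
  have h0 : 0 < τ (α ξ) := hi.trans_le (hξ i (Finset.mem_univ i))
  have hτ (P : Pl K n) : ξ.1 (zA 𝒩 P) = τ P := by
    rw [← pi_apply, (hT ξ.2 : pi 𝒩 ξ.1 = τ)]
  have e1 : ∑ j : T, zA 𝒩 (α j) * β j =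
      ∑ k, zA 𝒩 (∑ j : T, α j * γ j k) * ⟨𝒩.e k, 𝒩.e_mem k⟩ := by
    simp only [map_sum, map_mul, Finset.sum_mul]
    rw [Finset.sum_comm]
    refine Finset.sum_congr rfl fun j _ => ?_
    rw [hγ j, Finset.mul_sum]
    simp only [mul_assoc]
  have e2 : ξ.1 (∑ j : T, zA 𝒩 (α j) * β j) ≤ 0 := by
    rw [e1]
    refine ξ.1.sum_le _ _ le_rfl fun k _ => ?_
    rw [ξ.1.mul, hτ, hα, zero_mul]
  have e3 : 0 < ξ.1 (zA 𝒩 (α ξ) * β ξ) := by
    rw [ξ.1.mul, hτ]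
    exact mul_pos h0 (hβ ξ ξ.2).1
  have e4 : ξ.1 (∑ j ∈ Finset.univ.erase ξ, zA 𝒩 (α j) * β j) < ξ.1 (zA 𝒩 (α ξ) * β ξ) := by
    refine ξ.1.sum_lt _ _ e3 fun j hj => ?_
    rw [ξ.1.mul, ξ.1.mul, hτ, hτ]
    have h1 := (hβ ξ ξ.2).2 j j.2 fun h => (Finset.mem_erase.mp hj).1 (Subtype.ext h)
    exact (mul_le_mul_of_nonneg_right (hξ j (Finset.mem_univ j)) (ξ.1.nn _)).trans_lt
      (mul_lt_mul_of_pos_left h1 h0)
  rw [← Finset.add_sum_erase _ _ (Finset.mem_univ ξ), ξ.1.add_eq e4] at e2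
  exact absurd e3 (not_lt.mpr e2)

end Pool.Agent.Work.MP_e120ef_ag.Br
end

-- merged part: Pool.Agent.Work.MP_e120ef_ag.Br.S3
section
/-! The roots of the specialised minimal polynomial of `b` are values of `b`.

Plans.  `values`: make `B` an algebra over `A = Pl K n` by `zA` (integral by `ND_int`, faithful by
`zA_inj`), `M = minpoly A b`; `A` is integrally closed (a UFD), so `minpoly.equivAdjoin` or
`minpoly.ker_eval` gives a ring map `A[b] → L` with `X l ↦ z l`, `b ↦ x`; extend it to the integral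
extension `B` (lying over a prime, `Ideal.exists_ideal_over_prime_of_isIntegral`, fraction fields
and `IsAlgClosed.lift`; see also `RingHom.IsIntegral`, `IsAlgClosed.surjective_comp_algebraMap_of_isAlgebraic`,
`Algebra.IsIntegral` + `AlgHom` extension lemmas).  `conj`: `a₀ = -M.coeff 0`, `b' = M.divX (b)`;
for seminorms use `Sn.exists_rep` and `pi_of`. -/

open Filter Topology Polynomial

namespace Pool.Agent.Work.MP_e120ef_ag.Br

variable {K : Type} [NontriviallyNormedField K] {F : Type} [Field F] [Algebra K F]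
  {B : Subalgebra K F} {n : ℕ} (𝒩 : H.ND B n)

theorem S3_ext {A S L : Type} [CommRing A] [CommRing S] [Field L] [IsAlgClosed L] (ψ : A →+* S)
    (hψ : ψ.IsIntegral) (χ : A →+* L) (hk : ∀ a, ψ a = 0 → χ a = 0) :
    ∃ e : S →+* L, ∀ a, e (ψ a) = χ a := by
  let _ := ψ.toAlgebra
  have _ : Algebra.IsIntegral A S := ⟨hψ⟩
  have _ := RingHom.ker_isPrime χ
  obtain ⟨Q, -, hQ, e⟩ := Ideal.exists_ideal_over_prime_of_isIntegral (S := S) (RingHom.ker χ) ⊥ hk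
  let _ := (Ideal.Quotient.lift (Q.comap (algebraMap A S)) χ fun a ha => e.le ha).toAlgebra
  have _ := (faithfulSMul_iff_algebraMap_injective _ _).2
    (Ideal.algebraMap_quotient_injective (R := A) (I := Q))
  have _ := (faithfulSMul_iff_algebraMap_injective (A ⧸ Q.comap (algebraMap A S)) L).2
    ((Ideal.injective_lift_iff _).2 e.symm)
  let f : S ⧸ Q →ₐ[A ⧸ Q.comap (algebraMap A S)] L := IsAlgClosed.lift
  exact ⟨(f : S ⧸ Q →+* L).comp (Ideal.Quotient.mk Q),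
    fun a => f.commutes (Ideal.Quotient.mk _ a)⟩

theorem S3_val (b : B) : ∃ M : (Pl K n)[X], M.Monic ∧ M.eval₂ (zA 𝒩 : Pl K n →+* B) b = 0 ∧
    (∀ Q : (Pl K n)[X], Q.eval₂ (zA 𝒩 : Pl K n →+* B) b = 0 → M ∣ Q) ∧
    ∀ (L : Type) [Field L] [IsAlgClosed L] [Algebra K L] (z : Fin n → L) (x : L),
      M.eval₂ (H.ND.ae z) x = 0 → ∃ c : B →ₐ[K] L, 𝒩.zv c = z ∧ c b = x := by
  let _ := (zA 𝒩 : Pl K n →+* B).toAlgebra
  have _ := (faithfulSMul_iff_algebraMap_injective (Pl K n) B).2 (zA_inj 𝒩)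
  have hi : IsIntegral (Pl K n) b := 𝒩.ND_int b
  have hd := fun Q => minpoly.isIntegrallyClosed_dvd hi (p := Q)
  refine ⟨_, minpoly.monic hi, minpoly.aeval _ b, hd, fun L _ _ _ z x h => ?_⟩
  obtain ⟨e, he⟩ := S3_ext (eval₂RingHom (zA 𝒩 : Pl K n →+* B) b)
    (RingHom.IsIntegral.tower_top C _ (by
      rw [show (eval₂RingHom _ b).comp C = (zA 𝒩 : Pl K n →+* B) from
        RingHom.ext fun a => eval₂_C _ _]
      exact 𝒩.ND_int)) (eval₂RingHom (H.ND.ae z) x) fun Q hQ => by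
    obtain ⟨P, rfl⟩ := hd Q hQ
    rw [map_mul, coe_eval₂RingHom, h, zero_mul]
  have h1 : ∀ P, e (zA 𝒩 P) = MvPolynomial.aeval z P := fun P => by
    simpa using he (C P)
  refine ⟨⟨e, fun a => ?_⟩, funext fun l => ?_, by simpa using he X⟩
  · simpa using h1 (algebraMap K _ a)
  · simpa [zA] using! h1 (MvPolynomial.X l)

theorem values (b : B) : ∃ M : (Pl K n)[X], M.Monic ∧ M.eval₂ (zA 𝒩 : Pl K n →+* B) b = 0 ∧
    ∀ (L : Type) [Field L] [IsAlgClosed L] [Algebra K L] (z : Fin n → L) (x : L),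
      M.eval₂ (H.ND.ae z) x = 0 → ∃ c : B →ₐ[K] L, 𝒩.zv c = z ∧ c b = x := by
  obtain ⟨M, h1, h2, -, h3⟩ := S3_val 𝒩 b
  exact ⟨M, h1, h2, h3⟩

theorem conj [IsUltrametricDist K] [CharZero K] (b : B) : ∃ (a₀ : Pl K n) (b' : B),
    b * b' = zA 𝒩 a₀ ∧ (b ≠ 0 → a₀ ≠ 0) ∧
    (∀ (L : Type) [Field L] [IsAlgClosed L] [Algebra K L] (z : Fin n → L),
      MvPolynomial.aeval z a₀ = 0 → ∃ c : B →ₐ[K] L, 𝒩.zv c = z ∧ c b = 0) ∧
    ∀ τ : Sn K (Pl K n), τ a₀ = 0 → ∃ ξ, pi 𝒩 ξ = τ ∧ ξ b = 0 := by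
  obtain ⟨M, h1, h2, h3, h4⟩ := S3_val 𝒩 b
  have h5 : ∀ (L : Type) [Field L] [IsAlgClosed L] [Algebra K L] (z : Fin n → L),
      MvPolynomial.aeval z (M.coeff 0) = 0 → ∃ c : B →ₐ[K] L, 𝒩.zv c = z ∧ c b = 0 :=
    fun L _ _ _ z h => h4 L z 0 ((eval₂_at_zero _).trans h)
  have h6 := M.divX_mul_X_add
  rw [← h6, eval₂_add, eval₂_mul_X, eval₂_C] at h2
  refine ⟨M.coeff 0, -M.divX.eval₂ (zA 𝒩 : Pl K n →+* B) b, ?_, fun hb e => ?_, h5, fun τ h => ?_⟩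
  · rw [mul_neg, mul_comm]
    exact neg_eq_of_add_eq_zero_right h2
  · rw [e, map_zero, add_zero] at h2 h6
    rw [eq_zero_of_dvd_of_degree_lt (h3 _ ((mul_eq_zero.1 h2).resolve_right hb))
      (degree_divX_lt h1.ne_zero), zero_mul] at h6
    exact h1.ne_zero h6.symm
  · obtain ⟨L, _, _, _, _, _, c, rfl⟩ := τ.exists_rep
    obtain ⟨c', e, e'⟩ := h5 L (c ∘ MvPolynomial.X)
      (MvPolynomial.aeval_unique c ▸ norm_eq_zero.1 h)
    exact ⟨Sn.of c', by rw [pi_of, e, pz, ← MvPolynomial.aeval_unique], norm_eq_zero.2 e'⟩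

end Pool.Agent.Work.MP_e120ef_ag.Br
end

-- merged part: Pool.Agent.Work.MP_e120ef_ag.Br.S5
section
/-! `pi` is open.

Plan.  `τ = pi ξ`, `T` the fibre without `ξ`, `(a, b)` from `sep`; `O = (N ∩ {b < a}) ∪ {a < b}`
is a neighbourhood of every point of the fibre, `proper` gives `N₁`.  `conj a` gives `a a' = a₀`
with `τ a₀ ≠ 0` (no point of the fibre kills `a`).  `β = b a'`, `M` from `values β`.  From
`M(β) = 0`, `ξ β < τ a₀` (or `ξ β = 0`; note `ξ a * ξ a' = τ a₀`) get `k ≥ 1` with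
`τ (M.coeff 0) < τ (M.coeff k) * τ a₀ ^ k` (`Sn.sum_lt`; the maximum of the right sides is positive
as `M` is monic of positive degree).  This is an open condition `N₂`.  For `z` with
`pz z ∈ N₁ ∩ N₂`: if all roots `x` of the monic polynomial `z(M)` had `ρ ≤ ‖x‖` then
`‖coeff k‖ * ρ ^ k ≤ ‖coeff 0‖` (`S5_vieta`, induction on the multiset of roots), so some root
has `‖x‖ < ‖z a₀‖`; `values` gives `c` with `c β = x`, hence `‖c b‖ < ‖c a‖`, so `Sn.of c ∈ N`. -/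

open Filter Topology Polynomial

namespace Pool.Agent.Work.MP_e120ef_ag.Br

theorem S5_vieta {L : Type} [NormedField L] [IsUltrametricDist L] {ρ : ℝ} (hρ : 0 ≤ ρ)
    (s : Multiset L) (hs : ∀ x ∈ s, ρ ≤ ‖x‖) (k : ℕ) :
    ‖(s.map fun x => X - C x).prod.coeff k‖ * ρ ^ k ≤ ‖(s.map fun x => X - C x).prod.coeff 0‖ := by
  induction s using Multiset.induction_on generalizing k with
  | empty =>
    cases k with
    | zero => simp
    | succ k => simp [coeff_one]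
  | cons x s ih =>
    have ih' := ih fun y hy => hs y (Multiset.mem_cons_of_mem hy)
    have hx : ρ ≤ ‖x‖ := hs x (Multiset.mem_cons_self x s)
    rw [Multiset.map_cons, Multiset.prod_cons]
    generalize (s.map fun x => X - C x).prod = Q at ih'
    cases k with
    | zero => simp
    | succ k =>
      have e0 : ((X - C x) * Q).coeff 0 = -(x * Q.coeff 0) := by
        rw [sub_mul, coeff_sub, coeff_X_mul_zero, coeff_C_mul, zero_sub]
      have e1 : ((X - C x) * Q).coeff (k + 1) = Q.coeff k + -(x * Q.coeff (k + 1)) := by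
        rw [sub_mul, coeff_sub, coeff_X_mul, coeff_C_mul, sub_eq_add_neg]
      rw [e0, e1, norm_neg, norm_mul]
      have h1 := IsUltrametricDist.norm_add_le_max (Q.coeff k) (-(x * Q.coeff (k + 1)))
      rw [norm_neg, norm_mul] at h1
      have hp : 0 ≤ ρ ^ (k + 1) := pow_nonneg hρ _
      refine (mul_le_mul_of_nonneg_right h1 hp).trans ?_
      rw [max_mul_of_nonneg _ _ hp]
      refine max_le ?_ ?_
      · calc ‖Q.coeff k‖ * ρ ^ (k + 1) = ρ * (‖Q.coeff k‖ * ρ ^ k) := by ring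
          _ ≤ ‖x‖ * ‖Q.coeff 0‖ :=
            mul_le_mul hx (ih' k) (mul_nonneg (norm_nonneg _) (pow_nonneg hρ _)) (norm_nonneg _)
      · rw [mul_assoc]
        exact mul_le_mul_of_nonneg_left (ih' (k + 1)) (norm_nonneg _)

theorem S5_root {L : Type} [NormedField L] [IsUltrametricDist L] [IsAlgClosed L] {ρ : ℝ}
    (hρ : 0 ≤ ρ) {P : L[X]} (hP : P.Monic) {k : ℕ} (h : ‖P.coeff 0‖ < ‖P.coeff k‖ * ρ ^ k) :
    ∃ x, P.eval x = 0 ∧ ‖x‖ < ρ := by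
  by_contra hn
  have e : (P.roots.map fun x => X - C x).prod = P :=
    prod_multiset_X_sub_C_of_monic_of_roots_card_eq hP IsAlgClosed.card_roots_eq_natDegree
  have := S5_vieta hρ P.roots (fun x hx => by
    by_contra hlt
    exact hn ⟨x, (mem_roots hP.ne_zero).1 hx, not_le.1 hlt⟩) k
  rw [e] at this
  exact absurd h (not_lt.2 this)

theorem S5_newton {K : Type} [NormedField K] {A R : Type} [CommRing A] [Algebra K A] [CommRing R]
    [Algebra K R] (φ : A →ₐ[K] R) (ξ : Sn K R) {M : A[X]} (hM : M.Monic) {β : R}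
    (h0 : M.eval₂ (φ : A →+* R) β = 0) {ρ : ℝ} (hρ : ξ β < ρ) :
    ∃ k, 1 ≤ k ∧ ξ (φ (M.coeff 0)) < ξ (φ (M.coeff k)) * ρ ^ k := by
  by_contra hn
  have hle : ∀ k, 1 ≤ k → ξ (φ (M.coeff k)) * ρ ^ k ≤ ξ (φ (M.coeff 0)) := fun k hk =>
    not_lt.1 fun hlt => hn ⟨k, hk, hlt⟩
  have hρ0 : 0 < ρ := (ξ.nn β).trans_lt hρ
  have hd : 1 ≤ M.natDegree := by
    by_contra hd
    have h1 : M = 1 := hM.natDegree_eq_zero.1 (by omega)
    rw [h1, eval₂_one] at h0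
    have h2 := ξ.one
    rw [h0, ξ.zero] at h2
    exact zero_ne_one h2
  have hc : 0 < ξ (φ (M.coeff 0)) := by
    have h1 := hle _ hd
    rw [hM.coeff_natDegree, map_one, ξ.one, one_mul] at h1
    exact (pow_pos hρ0 _).trans_le h1
  rw [eval₂_eq_sum_range, Finset.sum_range_succ', pow_zero, mul_one] at h0
  have h1 : ξ (∑ i ∈ Finset.range M.natDegree, (φ : A →+* R) (M.coeff (i + 1)) * β ^ (i + 1)) <
      ξ (φ (M.coeff 0)) := by
    refine ξ.sum_lt _ _ hc fun i _ => ?_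
    rw [ξ.mul, ξ.pow]
    have h2 := hle (i + 1) (by omega)
    rcases (ξ.nn (φ (M.coeff (i + 1)))).eq_or_lt with h3 | h3
    · have h4 : ξ ((φ : A →+* R) (M.coeff (i + 1))) = 0 := h3.symm
      rw [h4, zero_mul]
      exact hc
    · exact (mul_lt_mul_of_pos_left (pow_lt_pow_left₀ hρ (ξ.nn β) (by omega)) h3).trans_le h2
  rw [eq_neg_of_add_eq_zero_left h0, ξ.neg] at h1
  exact lt_irrefl _ h1

variable {K : Type} [NontriviallyNormedField K] [IsUltrametricDist K] [IsAlgClosed K] [CharZero K]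
  {F : Type} [Field F] [Algebra K F] {B : Subalgebra K F} {n : ℕ} (𝒩 : H.ND B n)

theorem op {ξ : Sn K B} {N : Set (Sn K B)} (h : N ∈ 𝓝 ξ) : ∃ N' ∈ 𝓝 (pi 𝒩 ξ),
    ∀ (L : Type) [NormedField L] [IsUltrametricDist L] [IsAlgClosed L] [NormedAlgebra K L]
      (z : Fin n → L), pz K z ∈ N' → ∃ c : B →ₐ[K] L, 𝒩.zv c = z ∧ Sn.of c ∈ N := by
  classical
  obtain ⟨a, b, hab, hT⟩ := sep ξ ((fib_finite 𝒩 (pi 𝒩 ξ)).toFinset.erase ξ)
    (Finset.notMem_erase _ _)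
  have hT' : ∀ η, pi 𝒩 η = pi 𝒩 ξ → η ≠ ξ → 0 < η a ∧ η a < η b := fun η h1 h2 =>
    hT η (Finset.mem_erase.2 ⟨h2, (Set.Finite.mem_toFinset _).2 h1⟩)
  obtain ⟨N₁, hN₁, hO⟩ := proper 𝒩 (τ := pi 𝒩 ξ)
    (O := (N ∩ {η : Sn K B | η b < η a}) ∪ {η : Sn K B | η a < η b}) (fun η hη => by
      by_cases he : η = ξ
      · rw [he]
        exact mem_of_superset (inter_mem h
          ((isOpen_lt (Sn.cont b) (Sn.cont a)).mem_nhds hab)) Set.subset_union_left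
      · exact mem_of_superset ((isOpen_lt (Sn.cont a) (Sn.cont b)).mem_nhds (hT' η hη he).2)
          Set.subset_union_right)
  obtain ⟨a₀, a', haa, -, -, hz⟩ := conj 𝒩 a
  have h0 : pi 𝒩 ξ a₀ ≠ 0 := fun h0 => by
    obtain ⟨η, h1, h2⟩ := hz _ h0
    by_cases he : η = ξ
    · rw [he] at h2
      exact absurd ((ξ.nn b).trans_lt hab) (by rw [h2]; exact lt_irrefl _)
    · exact absurd (hT' η h1 he).1 (by rw [h2]; exact lt_irrefl _)
  have e0 : pi 𝒩 ξ a₀ = ξ a * ξ a' := by rw [pi_apply, ← haa, ξ.mul]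
  have ha' : 0 < ξ a' := (ξ.nn a').lt_of_ne fun h1 => h0 (by rw [e0, ← h1, mul_zero])
  obtain ⟨M, hM, hev, hval⟩ := values 𝒩 (b * a')
  have hβ : ξ (b * a') < pi 𝒩 ξ a₀ := by
    rw [e0, ξ.mul]
    exact mul_lt_mul_of_pos_right hab ha'
  obtain ⟨k, -, hk⟩ := S5_newton (zA 𝒩) ξ hM hev hβ
  have hopen : IsOpen {σ : Sn K (Pl K n) | σ (M.coeff 0) < σ (M.coeff k) * σ a₀ ^ k} :=
    isOpen_lt (Sn.cont _) ((Sn.cont _).mul ((Sn.cont _).pow k))
  refine ⟨_, inter_mem hN₁ (hopen.mem_nhds hk), fun L _ _ _ _ z hzN => ?_⟩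
  have h2 : ‖(M.map (H.ND.ae z)).coeff 0‖ <
      ‖(M.map (H.ND.ae z)).coeff k‖ * ‖MvPolynomial.aeval z a₀‖ ^ k := by
    rw [coeff_map, coeff_map]
    exact hzN.2
  obtain ⟨x, hx, hlt⟩ := S5_root (norm_nonneg _) (hM.map _) h2
  rw [eval_map] at hx
  obtain ⟨c, hc, hcx⟩ := hval L z x hx
  refine ⟨c, hc, ?_⟩
  have h3 : ‖c b‖ < ‖c a‖ := by
    rw [← hcx, ← hc, ← map_zA, ← haa, map_mul, map_mul, norm_mul, norm_mul] at hlt
    exact lt_of_mul_lt_mul_right hlt (norm_nonneg _)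
  have h4 := hO (Sn.of c) (by rw [pi_of, hc]; exact hzN.1)
  rcases h4 with h4 | h4
  · exact h4.1
  · exact absurd h3 (not_lt.2 (le_of_lt h4))

end Pool.Agent.Work.MP_e120ef_ag.Br
end

-- merged part: Pool.Agent.Work.MP_e120ef_ag.Br.S6
section
/-! Rational points are dense.

Plans.  `S6_one`: `k` an algebraically closed subfield of `L` containing (the image of) `K`,
`y : L`, finitely many `a ∈ k`, `ε > 0`: there is `y' ∈ k` with `| ‖y' - a‖ - ‖y - a‖ | < ε` for all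
these `a` (take `a₀` nearest to `y`, at distance `r`, and `y' = a₀ + λ`, `λ : K` with `‖λ‖`
slightly larger than `r`, `norm_btw`).  As a filter statement: for finitely many polynomials over
`k` the norms of the values at `y'` are close to those at `y` (factor into linear factors).
`dens_Pl`: strong induction on `n`; `n = 0`: `Sn.eq_of_ker`.  For `n + 1`: `Sn.exists_rep` gives
`(z, y)` in `L ^ (n + 1)`, `k` = algebraic closure of `K(z)` in `L`, `Sn.basis`, `S6_one` give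
`y' ∈ k` with `pz (z, y') ∈ interior N`.  `B' = K[z, y'] ⊆ F' = K(z, y')`, `H.exists_ND` gives
`𝒩' : ND B' n'`; `n' ≤ n` since `F'` is algebraic over `K(z)` (transcendence bases,
`Algebra.trdeg`, `IsTranscendenceBasis.cardinalMk_eq_trdeg`, `Algebra.IsAlgebraic.trdeg_le_cardinalMk`);
`op` and the induction hypothesis give a rational point of `B'` near the inclusion `B' → L`;
compose with `A → B'`.  Avoiding `D ≠ 0`: move from `z₀` towards a point `z₁` with `D z₁ ≠ 0`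
(`MvPolynomial.funext`) along `z₀ + δ (z₁ - z₀)`, finitely many bad `δ`, `cont_pz`.
`dens`: `H.exists_ND`, `conj h`, `op`, `dens_Pl` with `D = a₀`. -/

open Filter Topology Polynomial

namespace Pool.Agent.Work.MP_e120ef_ag.Br

variable {K : Type} [NontriviallyNormedField K] [IsUltrametricDist K] [IsAlgClosed K] [CharZero K]

theorem S6_dim {k L : Type} [Field k] [Field L] [Algebra k L] {m n : ℕ} {u : Fin m → L}
    {z : Fin n → L} (hu : AlgebraicIndependent k u)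
    (h : ∀ i, IsAlgebraic (Algebra.adjoin k (Set.range z)) (u i)) : m ≤ n := by
  have h1 : (AlgebraicIndependent.matroid k L).Indep (Set.range u) :=
    AlgebraicIndependent.matroid_indep_iff.2 hu.to_subtype_range
  have h2 : Set.range u ⊆ (AlgebraicIndependent.matroid k L).closure (Set.range z) := by
    rintro _ ⟨i, rfl⟩
    rw [AlgebraicIndependent.matroid_closure_eq]
    exact h i
  have h3 := h1.encard_le_eRk_of_subset h2
  rw [Matroid.eRk_closure_eq] at h3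
  have h4 : (Set.range z).encard ≤ n := by
    rw [← Set.image_univ]
    exact (Set.encard_image_le _ _).trans (by simp)
  have h5 := hu.injective.encard_range.trans (h3.trans ((Matroid.eRk_le_encard _ _).trans h4))
  simpa using h5

omit [IsUltrametricDist K] [CharZero K] in
theorem S6_neBot {r : ℝ} (hr : 0 ≤ r) : (comap (fun x : K => ‖x‖) (𝓝[>] r)).NeBot := by
  refine comap_neBot fun t ht => ?_
  obtain ⟨u, hu, h⟩ := mem_nhdsGT_iff_exists_Ioo_subset.1 ht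
  obtain ⟨x, h1, h2⟩ := norm_btw K hr hu
  exact ⟨x, h ⟨h1, h2⟩⟩

section

variable {L : Type} [NormedField L] [IsUltrametricDist L] [NormedAlgebra K L]

omit [IsUltrametricDist K] [IsAlgClosed K] [CharZero K] in
theorem S6_one {y a₀ a : L} (h : ‖y - a₀‖ ≤ ‖y - a‖) :
    Tendsto (fun x : K => ‖a₀ + algebraMap K L x - a‖) (comap (fun x : K => ‖x‖) (𝓝[>] ‖y - a₀‖))
      (𝓝 ‖y - a‖) := by
  have e1 : ∀ x : K, a₀ + algebraMap K L x - a = (a₀ - a) + algebraMap K L x := fun x => by ring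
  have e2 : a₀ - a = (y - a) + -(y - a₀) := by ring
  rcases h.eq_or_lt with h | h
  · have h1 : ‖a₀ - a‖ ≤ ‖y - a₀‖ := by
      rw [e2]
      refine (IsUltrametricDist.norm_add_le_max _ _).trans ?_
      rw [norm_neg, h, max_self]
    rw [← h]
    refine (tendsto_comap.mono_right nhdsWithin_le_nhds).congr' ?_
    filter_upwards [preimage_mem_comap self_mem_nhdsWithin] with x hx
    have h2 : ‖a₀ - a‖ < ‖algebraMap K L x‖ := by
      rw [norm_algebraMap']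
      exact h1.trans_lt hx
    rw [e1, IsUltrametricDist.norm_add_eq_max_of_norm_ne_norm h2.ne, max_eq_right h2.le,
      norm_algebraMap']
  · have h1 : ‖a₀ - a‖ = ‖y - a‖ := by
      rw [e2, IsUltrametricDist.norm_add_eq_max_of_norm_ne_norm (by rw [norm_neg]; exact h.ne'),
        norm_neg, max_eq_left h.le]
    refine tendsto_const_nhds.congr' ?_
    filter_upwards [preimage_mem_comap (mem_nhdsWithin_of_mem_nhds (Iio_mem_nhds h))] with x hx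
    have h2 : ‖algebraMap K L x‖ < ‖a₀ - a‖ := by
      rw [norm_algebraMap', h1]
      exact hx
    rw [e1, IsUltrametricDist.norm_add_eq_max_of_norm_ne_norm h2.ne', max_eq_left h2.le, h1]

omit [IsUltrametricDist K] [CharZero K] in
/-- a point of the line is a limit of points that are algebraic over `A` -/
theorem S6_line [IsAlgClosed L] (A : Subalgebra K L) (y : L) (S : Finset A[X]) {ε : ℝ}
    (hε : 0 < ε) : ∃ t : L, IsAlgebraic A t ∧ ∀ q ∈ S, |‖aeval t q‖ - ‖aeval y q‖| < ε := by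
  classical
  obtain ⟨J, hJ⟩ : ∃ J : Finset L,
    J = insert 0 (S.biUnion fun q => (q.map (algebraMap A L)).roots.toFinset) := ⟨_, rfl⟩
  obtain ⟨a₀, h1, h2⟩ := J.exists_min_image (fun a => ‖y - a‖) (hJ ▸ Finset.insert_nonempty _ _)
  have h3 : IsAlgebraic A a₀ := by
    rw [hJ, Finset.mem_insert, Finset.mem_biUnion] at h1
    rcases h1 with rfl | ⟨q, -, hq⟩
    · exact isAlgebraic_zero
    · rw [Multiset.mem_toFinset, mem_roots'] at hq
      refine ⟨q, fun k => hq.1 (by rw [k, Polynomial.map_zero]), ?_⟩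
      rw [← eval_map_algebraMap]
      exact hq.2
  have h4 : ∀ (q : A[X]) (t : L), ‖aeval t q‖ = ‖(q.map (algebraMap A L)).leadingCoeff‖ *
      ((q.map (algebraMap A L)).roots.map fun a => ‖t - a‖).prod := by
    intro q t
    rw [← eval_map_algebraMap, (IsAlgClosed.splits _).eval_eq_prod_roots, norm_mul]
    refine congrArg _ ((map_multiset_prod (normHom : L →*₀ ℝ) _).trans ?_)
    rw [Multiset.map_map]
    rfl
  have := S6_neBot (K := K) (norm_nonneg (y - a₀))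
  have h5 : ∀ q ∈ S, ∀ᶠ x : K in comap (fun x : K => ‖x‖) (𝓝[>] ‖y - a₀‖),
      |‖aeval (a₀ + algebraMap K L x) q‖ - ‖aeval y q‖| < ε := by
    intro q hq
    have h6 : Tendsto (fun x : K => ‖aeval (a₀ + algebraMap K L x) q‖)
        (comap (fun x : K => ‖x‖) (𝓝[>] ‖y - a₀‖)) (𝓝 ‖aeval y q‖) := by
      simp only [h4]
      refine Tendsto.const_mul _ (tendsto_multiset_prod _ fun a ha => S6_one (h2 a ?_))
      rw [hJ]
      exact Finset.mem_insert_of_mem (Finset.mem_biUnion.2 ⟨q, hq, Multiset.mem_toFinset.2 ha⟩)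
    exact Metric.tendsto_nhds.1 h6 ε hε
  obtain ⟨x, hx⟩ := ((eventually_all_finset S).2 h5).exists
  exact ⟨_, h3.add (isAlgebraic_algebraMap (algebraMap K A x)), hx⟩

omit [IsUltrametricDist K] [CharZero K] in
/-- the first coordinate can be made algebraic over the others -/
theorem S6_move [IsAlgClosed L] {n : ℕ} (y : L) (z : Fin n → L) {N : Set (Sn K (Pl K (n + 1)))}
    (h : N ∈ 𝓝 (pz K (Fin.cons y z : Fin (n + 1) → L))) :
    ∃ t : L, IsAlgebraic (Algebra.adjoin K (Set.range z)) t ∧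
      pz K (Fin.cons t z : Fin (n + 1) → L) ∈ N := by
  classical
  obtain ⟨s, ε, hε, hs⟩ := Sn.basis _ h
  obtain ⟨φ, hφ⟩ : ∃ φ : Pl K (n + 1) →ₐ[K] (Algebra.adjoin K (Set.range z))[X],
      φ = MvPolynomial.aeval (Fin.cons X fun i =>
        C (⟨z i, Algebra.subset_adjoin ⟨i, rfl⟩⟩ : Algebra.adjoin K (Set.range z))) := ⟨_, rfl⟩
  have h1 : ∀ (t : L) (P : Pl K (n + 1)),
      aeval t (φ P) = MvPolynomial.aeval (Fin.cons t z : Fin (n + 1) → L) P := by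
    intro t P
    have h2 : ((aeval t).restrictScalars K).comp φ =
        MvPolynomial.aeval (Fin.cons t z : Fin (n + 1) → L) := by
      refine MvPolynomial.algHom_ext fun i => ?_
      refine Fin.cases ?_ (fun j => ?_) i
      · simp [hφ]
      · simp [hφ]
    exact DFunLike.congr_fun h2 P
  obtain ⟨t, h3, h4⟩ := S6_line (Algebra.adjoin K (Set.range z)) y (s.image φ) hε
  refine ⟨t, h3, hs _ fun P hP => ?_⟩
  rw [pz_apply, pz_apply, ← h1, ← h1]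
  exact h4 _ (Finset.mem_image_of_mem _ hP)

end

/-- rational points are dense in the affine space -/
theorem S6_dens (n : ℕ) : ∀ (τ : Sn K (Pl K n)) (N : Set (Sn K (Pl K n))), N ∈ 𝓝 τ →
    ∃ z : Fin n → K, pz K z ∈ N := by
  induction n using Nat.strong_induction_on with
  | _ n ih =>
  intro τ N h
  rcases n with _ | n
  · refine ⟨fun _ => 0, ?_⟩
    have e : τ = pz K (fun _ : Fin 0 => (0 : K)) := by
      refine Sn.ext' fun P => ?_
      rw [MvPolynomial.eq_C_of_isEmpty P, pz_apply, MvPolynomial.aeval_C]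
      exact τ.alg _
    exact e ▸ mem_of_mem_nhds h
  obtain ⟨L, _, _, _, _, _, c, rfl⟩ := Sn.exists_rep τ
  have e : Sn.of c = pz K (Fin.cons (c (MvPolynomial.X 0))
      (fun i => c (MvPolynomial.X (Fin.succ i))) : Fin (n + 1) → L) := by
    refine congrArg Sn.of (MvPolynomial.algHom_ext fun i => ?_)
    rw [MvPolynomial.aeval_X]
    exact Fin.cases rfl (fun _ => rfl) i
  rw [e] at h
  generalize c (MvPolynomial.X 0) = y at h
  generalize (fun i => c (MvPolynomial.X (Fin.succ i))) = z at h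
  obtain ⟨t, h1, h2⟩ := S6_move y z (interior_mem_nhds.2 h)
  obtain ⟨w, hw⟩ : ∃ w : Fin (n + 1) → L, w = Fin.cons t z := ⟨_, rfl⟩
  have h3 : ∀ i, IsAlgebraic (Algebra.adjoin K (Set.range z)) (w i) := by
    intro i
    rw [hw]
    exact Fin.cases h1 (fun j => isAlgebraic_algebraMap
      (⟨z j, Algebra.subset_adjoin ⟨j, rfl⟩⟩ : Algebra.adjoin K (Set.range z))) i
  rw [← hw] at h2
  have h4 : ∀ P : Pl K (n + 1),
      IsAlgebraic (Algebra.adjoin K (Set.range z)) (MvPolynomial.aeval w P) := by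
    intro P
    induction P using MvPolynomial.induction_on with
    | C a =>
      rw [MvPolynomial.aeval_C]
      exact isAlgebraic_algebraMap (algebraMap K (Algebra.adjoin K (Set.range z)) a)
    | add p q hp hq => rw [map_add]; exact hp.add hq
    | mul_X p i hp => rw [map_mul, MvPolynomial.aeval_X]; exact hp.mul (h3 i)
  obtain ⟨F, hF⟩ : ∃ F : IntermediateField K L, F = IntermediateField.adjoin K (Set.range w) :=
    ⟨_, rfl⟩
  have h5 : ∀ x : F, ∃ r s : Pl K (n + 1),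
      (x : L) = MvPolynomial.aeval w r / MvPolynomial.aeval w s := fun x =>
    (IntermediateField.mem_adjoin_range_iff K w x).1 (hF ▸ x.2)
  obtain ⟨ψ, hψ⟩ : ∃ ψ : Pl K (n + 1) →ₐ[K] F, ∀ P, (ψ P : L) = MvPolynomial.aeval w P :=
    ⟨MvPolynomial.aeval fun i => ⟨w i, hF ▸ IntermediateField.subset_adjoin _ _ ⟨i, rfl⟩⟩,
      fun P => MvPolynomial.comp_aeval_apply _ F.val P⟩
  have : Algebra.FiniteType K ψ.range :=
    Algebra.FiniteType.of_surjective ψ.rangeRestrict ψ.rangeRestrict_surjective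
  obtain ⟨m, ⟨𝒩⟩⟩ := H.exists_ND ψ.range fun x => by
    obtain ⟨r, s, k⟩ := h5 x
    by_cases hs : MvPolynomial.aeval w s = 0
    · have k0 : x = 0 := Subtype.ext (by rw [k, hs, div_zero]; rfl)
      exact ⟨1, one_mem _, one_ne_zero, by rw [k0, mul_zero]; exact zero_mem _⟩
    · refine ⟨ψ s, ⟨s, rfl⟩, fun k0 => hs (by rw [← hψ, k0]; rfl), r, Subtype.ext ?_⟩
      change (ψ r : L) = (ψ s : L) * x
      rw [hψ, hψ, k, mul_div_cancel₀ _ hs]
  have hm : m ≤ n := by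
    refine S6_dim (𝒩.tb.1.map' (f := F.val) Subtype.val_injective) (z := z) fun i => ?_
    obtain ⟨r, s, k⟩ := h5 (𝒩.z i)
    change IsAlgebraic _ (𝒩.z i : L)
    rw [k, div_eq_mul_inv]
    exact (h4 r).mul (h4 s).inv
  have h6 : (Sn.of (F.val.comp ψ.range.val)).comap ψ.rangeRestrict = pz K w :=
    Sn.ext' fun P => congrArg norm (hψ P)
  have h7 : Sn.comap ψ.rangeRestrict ⁻¹' interior N ∈ 𝓝 (Sn.of (F.val.comp ψ.range.val)) :=
    (Sn.cont_comap _).continuousAt.preimage_mem_nhds (h6 ▸ isOpen_interior.mem_nhds h2)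
  obtain ⟨N', k1, k2⟩ := op 𝒩 h7
  obtain ⟨z', k3⟩ := ih m (by omega) _ N' k1
  obtain ⟨c', -, k4⟩ := k2 K z' k3
  refine ⟨fun i => c' (ψ.rangeRestrict (MvPolynomial.X i)), interior_subset ?_⟩
  have e' : pz K (fun i => c' (ψ.rangeRestrict (MvPolynomial.X i))) =
      (Sn.of c').comap ψ.rangeRestrict := by
    rw [Sn.comap_of]
    exact congrArg Sn.of (MvPolynomial.algHom_ext fun i => MvPolynomial.aeval_X _ _)
  rw [e']
  exact k4

theorem dens_Pl (n : ℕ) (τ : Sn K (Pl K n)) {N : Set (Sn K (Pl K n))} (h : N ∈ 𝓝 τ) {D : Pl K n}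
    (hD : D ≠ 0) : ∃ z : Fin n → K, pz K z ∈ N ∧ MvPolynomial.aeval z D ≠ 0 := by
  obtain ⟨z₀, h0⟩ := S6_dens n τ _ (interior_mem_nhds.2 h)
  obtain ⟨z₁, h1⟩ : ∃ z₁ : Fin n → K, MvPolynomial.aeval z₁ D ≠ 0 := by
    by_contra k
    push Not at k
    exact hD (MvPolynomial.funext fun x => by rw [map_zero]; exact k x)
  obtain ⟨p, hp⟩ : ∃ p : K[X],
      p = MvPolynomial.aeval (fun i => C (z₀ i) + X * C (z₁ i - z₀ i)) D := ⟨_, rfl⟩
  have h2 : ∀ δ : K, aeval δ p = MvPolynomial.aeval (fun i => z₀ i + δ * (z₁ i - z₀ i)) D := by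
    intro δ
    rw [hp, MvPolynomial.comp_aeval_apply]
    simp
  have h3 : p ≠ 0 := fun k => h1 (by
    have := h2 1
    rw [k, map_zero] at this
    simpa using this.symm)
  have h4 : Tendsto (fun δ : K => pz K fun i => z₀ i + δ * (z₁ i - z₀ i)) (𝓝 0) (𝓝 (pz K z₀)) := by
    have h5 : Continuous fun δ : K => pz K fun i => z₀ i + δ * (z₁ i - z₀ i) :=
      cont_pz.comp (by fun_prop)
    simpa using h5.tendsto 0
  have h6 : ∀ᶠ δ in 𝓝[≠] (0 : K), δ ∉ {x | p.IsRoot x} :=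
    (finite_setOfPred_isRoot h3).eventually_cofinite_notMem.filter_mono (nhdsNE_le_cofinite _)
  obtain ⟨δ, k1, k2⟩ := (((h4.eventually (isOpen_interior.mem_nhds h0)).filter_mono
    nhdsWithin_le_nhds).and h6).exists
  exact ⟨_, interior_subset k1, fun k => k2 ((h2 δ).trans k)⟩

theorem dens {F : Type} [Field F] [Algebra K F] (B : Subalgebra K F) [Algebra.FiniteType K B]
    (hB : ∀ x : F, ∃ b ∈ B, b ≠ 0 ∧ b * x ∈ B) (ξ : Sn K B) {N : Set (Sn K B)} (h : N ∈ 𝓝 ξ)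
    {b : B} (hb : b ≠ 0) : ∃ e : B →ₐ[K] K, Sn.of e ∈ N ∧ e b ≠ 0 := by
  obtain ⟨n, ⟨𝒩⟩⟩ := H.exists_ND B hB
  obtain ⟨a₀, b', h1, h2, -⟩ := conj 𝒩 b
  obtain ⟨N', k1, k2⟩ := op 𝒩 h
  obtain ⟨z, k3, k4⟩ := dens_Pl n _ k1 (h2 hb)
  obtain ⟨c, rfl, k5⟩ := k2 K z k3
  refine ⟨c, k5, fun k => k4 ?_⟩
  rw [← map_zA, ← h1, map_mul, k, zero_mul]

end Pool.Agent.Work.MP_e120ef_ag.Br
end

-- merged part: Pool.Agent.Work.MP_e120ef_ag.Br.G3
section
/-!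
# The pull-back of rational functions by an analytic map
-/

open CategoryTheory AlgebraicGeometry Filter Topology

namespace Pool.Agent.Work.MP_e120ef_ag.Br

/-- the image of a point under an embedding of fields -/
def slC {K : Type} [Field K] {X : Sch K} [IsIntegral X.left] {M M' : Type} [Field M] [Algebra K M]
    [Field M'] [Algebra K M'] (s : Sl X M) (j : M →ₐ[K] M') : Sl X M' where
  η := s.η
  ρ y := j (s.ρ y)
  add a ha b hb := by rw [s.add a ha b hb, map_add]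
  mul a ha b hb := by rw [s.mul a ha b hb, map_mul]
  alg c := by rw [s.alg, j.commutes]
  ker a ha := (map_eq_zero j).trans (s.ker a ha)

variable {K : Type} [NontriviallyNormedField K] {G X : Sch K} [IsIntegral X.left]

theorem isAn_val (y : Fn X) : IsAn {ζ : An X | ζ.pt ∈ reg y} fun ζ => ζ.1.sl.ρ y := by
  intro ζ hζ
  obtain ⟨U, -, hU, s, rfl⟩ := Fn_exists_germ (U := ⊤) trivial hζ
  refine ⟨{ξ | ξ.pt ∈ U}, fun ξ h => Fn_germ_mem_O h s, U, fun _ h => h, isOpen_pt U, hU,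
    fun ε hε => ⟨s, 1, fun ξ h => ?_⟩⟩
  show ξ.ev U h 1 ≠ 0 ∧ ‖ξ.sl.ρ _ - ξ.ev U h s / ξ.ev U h 1‖ ≤ ε
  rw [map_one, div_one, ← ξ.sl_germ h s, sub_self, norm_zero]
  exact ⟨one_ne_zero, hε.le⟩

variable {𝒰 : Set (An G)} (f : Mor 𝒰 X)

namespace Mor

/-- the image of `ζ`, with values in the completed residue field of `ζ` -/
noncomputable def sl (ζ : 𝒰) : Sl X ζ.1.H := slC (f.f ζ).sl (f.e ζ).φ

omit [IsIntegral X.left] in
/-- the points mapped into `V` -/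
def good (V : X.left.Opens) : Set (An G) := {ζ | ∃ h : ζ ∈ 𝒰, (f.f ⟨ζ, h⟩).pt ∈ V}

omit [IsIntegral X.left] in
theorem good_mono {V V' : X.left.Opens} (h : V ≤ V') : f.good V ⊆ f.good V' :=
  fun _ h' => ⟨h'.fst, h h'.snd⟩

omit [IsIntegral X.left] in
theorem good_open (h : IsOpen 𝒰) (V : X.left.Opens) : IsOpen (f.good V) := by
  have := h.isOpenMap_subtype_val _ ((isOpen_pt V).preimage f.cont)
  convert this using 1
  ext ζ
  exact ⟨fun ⟨h, h'⟩ => ⟨⟨ζ, h⟩, h', rfl⟩, fun ⟨ξ, h, e⟩ => e ▸ ⟨ξ.2, h⟩⟩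

open Classical in
/-- the value at `ζ` of the pull-back of `y` -/
noncomputable def Y (y : Fn X) (ζ : An G) : ζ.H := if h : ζ ∈ 𝒰 then (f.sl ⟨ζ, h⟩).ρ y else 0

theorem Y_eq (y : Fn X) {ζ : An G} (h : ζ ∈ 𝒰) : f.Y y ζ = (f.sl ⟨ζ, h⟩).ρ y := dif_pos h

variable {f} {y y' : Fn X} {ζ : An G}

theorem Y_add (h : ζ ∈ f.good (reg y)) (h' : ζ ∈ f.good (reg y')) :
    f.Y (y + y') ζ = f.Y y ζ + f.Y y' ζ := by
  rw [f.Y_eq _ h.fst, f.Y_eq _ h.fst, f.Y_eq _ h.fst]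
  exact (f.sl _).add _ h.snd _ h'.snd

theorem Y_mul (h : ζ ∈ f.good (reg y)) (h' : ζ ∈ f.good (reg y')) :
    f.Y (y * y') ζ = f.Y y ζ * f.Y y' ζ := by
  rw [f.Y_eq _ h.fst, f.Y_eq _ h.fst, f.Y_eq _ h.fst]
  exact (f.sl _).mul _ h.snd _ h'.snd

theorem Y_alg (h : ζ ∈ 𝒰) (c : K) : f.Y (algebraMap K (Fn X) c) ζ = algebraMap K ζ.H c := by
  rw [f.Y_eq _ h]
  exact (f.sl _).alg c

theorem Y_div {b : Fn X} (h : ζ ∈ f.good (ul b)) (h' : ζ ∈ f.good (reg (b * y))) :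
    f.Y y ζ = f.Y (b * y) ζ / f.Y b ζ := by
  rw [f.Y_eq _ h.fst, f.Y_eq _ h.fst, f.Y_eq _ h.fst]
  exact (G1_frac (f.sl ⟨ζ, h.fst⟩) h.snd h'.snd).2

theorem Y_eq_zero (h : ζ ∈ 𝒰) (hy : y ∈ O X (f.f ⟨ζ, h⟩).pt) :
    f.Y y ζ = 0 ↔ y ∈ mp X (f.f ⟨ζ, h⟩).pt 1 := by
  rw [f.Y_eq _ h]
  exact (f.sl ⟨ζ, h⟩).ker y hy

variable (f) [IsUltrametricDist K] [CharZero K] [IsIntegral G.left] {W : G.left.Opens}
  (hW : IsAffineOpen W) (hg : gp G ∈ W) {L : Type} [NormedField L] [IsUltrametricDist L]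
  [CompleteSpace L] [NormedAlgebra K L]

/-- the pull-back of `y` as a function of `L`-valued points -/
noncomputable def g (y : Fn X) (c : B G W →ₐ[K] L) : L := jc hW hg c (f.Y y (io hW hg (Sn.of c)))

theorem g_Ac {ξ : Sn K (B G W)} (h : io hW hg ξ ∈ f.good (reg y)) :
    Ac ξ (f.g hW hg y : (B G W →ₐ[K] L) → L) :=
  Ac_of_IsAn hW hg (f.an _ _ (isOpen_pt _) (isAn_val y)) h fun c h =>
    congrArg (jc hW hg c) (f.Y_eq y h.fst)

variable [IsAlgClosed K] [LocallyOfFiniteType G.hom]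

omit [IsIntegral X.left] in
theorem G3_pt {O : Set (An G)} (hO : IsOpen O) {ζ : An G} (h : ζ ∈ O) (hζ : ζ.pt ∈ W) {b : B G W}
    (hb : b ≠ 0) : ∃ e : B G W →ₐ[K] K, io hW hg (Sn.of e) ∈ O ∧ e b ≠ 0 := by
  have := H.lft_finiteType hW hg
  exact dens (B G W) (aff_frac_field hW hg) (Sn.of (ζ.onB hζ))
    ((cont_io hW hg).continuousAt (hO.mem_nhds ((io_surj hW hg hζ).symm ▸ h))) hb

omit [IsIntegral X.left] in
theorem G3_open {O : Set (An G)} (hO : IsOpen O) {ζ : An G} (h : ζ ∈ O) :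
    ∃ e : B G W →ₐ[K] K, io hW hg (Sn.of e) ∈ O := by
  obtain ⟨U, hU, hζ, -⟩ := exists_aff (W := ⊤) (x := ζ.pt) trivial
  obtain ⟨b, hb, hu, hle⟩ := aff_exists_basic hU (gp_mem hζ) hg
  obtain ⟨e, h1, h2⟩ := G3_pt hU (gp_mem hζ) hO h hζ (b := ⟨b, hb⟩)
    fun h0 => hu.ne_zero (congrArg Subtype.val h0)
  obtain ⟨e', h3, -⟩ := G3_pt hW hg hO h1 (hle ⟨io_mem _ _ _,
    (io_isU hU _ (b := ⟨b, hb⟩)).2 (norm_ne_zero_iff.2 h2)⟩) (b := 1) one_ne_zero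
  exact ⟨e', h3⟩

theorem good_pt (ho : IsOpen 𝒰) (hd : DenseRange fun ζ => (f.f ζ).pt) {V : X.left.Opens}
    (hV : gp X ∈ V) : ∃ e : B G W →ₐ[K] K, io hW hg (Sn.of e) ∈ f.good V := by
  obtain ⟨ζ, h⟩ := hd.exists_mem_open V.isOpen ⟨_, hV⟩
  exact G3_open hW hg (f.good_open ho V) (ζ := ζ.1) ⟨ζ.2, h⟩

end Mor

end Pool.Agent.Work.MP_e120ef_ag.Br
end

-- merged part: Pool.Agent.Work.MP_e120ef_ag.Br.L0
section
/-! Push-forward of functions along the finite map: interpolation coefficients.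

Plans.  For `Δ(z) ≠ 0`: `θv` is injective on the fibre (`ND.map_den`, `𝒩.den`), maps it into the
roots of `z(m)` (`ND.root_v`) and onto them (`ND.ND_pt`, as in `ND.point`); `z(m)` is monic,
separable (`ND.separable`) and splits, so the fibre has `d` elements.  `kapP_unique`:
`Lagrange.eq_interpolate_of_eval_eq`.  `kap_B`: `Δ b = Q(θ)`, take `Q %ₘ m`.  `kap_bound`: by
`𝒩.bez`, `Δ(z) = b(z, θ c) * m_z'(θ c)` and `m_z'(θ c) = ∏ (θ c - θ c')`, so the interpolation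
polynomial is `∑ C (u c * b(z, θ c)) * ∏ (X - C (θ c'))` (check with `kapP_unique`); the `θ c` and
`b(z, θ c)` are values of elements of `B`, bounded by `S1_bound`; coefficients of a product of at
most `d` factors `X - C x` with `‖x‖ ≤ C`, `1 ≤ C`, are at most `C ^ d`. -/

open Filter Topology Polynomial

namespace Pool.Agent.Work.MP_e120ef_ag.Br

section alg

variable {K : Type} [Field K] {F : Type} [Field F] [Algebra K F] {B : Subalgebra K F} {n : ℕ}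
  (𝒩 : H.ND B n) {L : Type} [Field L] [Algebra K L]

open Classical in
/-- the points over `z` -/
noncomputable def fib (z : Fin n → L) : Finset (B →ₐ[K] L) :=
  if h : {c : B →ₐ[K] L | 𝒩.zv c = z}.Finite then h.toFinset else ∅

open Classical in
/-- the polynomial of degree `< d` with value `Δ(z) u(c)` at `θ(c)` -/
noncomputable def kapP (u : (B →ₐ[K] L) → L) (z : Fin n → L) : L[X] :=
  Lagrange.interpolate (fib 𝒩 z) 𝒩.θv fun c => MvPolynomial.aeval z 𝒩.Δ * u c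

/-- its coefficients -/
noncomputable def kap (i : ℕ) (u : (B →ₐ[K] L) → L) (z : Fin n → L) : L := (kapP 𝒩 u z).coeff i

variable {z : Fin n → L} {u v : (B →ₐ[K] L) → L} {i : ℕ}

theorem L0_fib {c : B →ₐ[K] L} (h : c ∈ fib 𝒩 z) : 𝒩.zv c = z := by
  unfold fib at h
  split_ifs at h with h1
  · exact h1.mem_toFinset.1 h
  · exact absurd h (Finset.notMem_empty c)

theorem kap_add (i : ℕ) (u v : (B →ₐ[K] L) → L) : kap 𝒩 i (u + v) = kap 𝒩 i u + kap 𝒩 i v := by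
  funext z
  rw [Pi.add_apply, kap, kap, kap, ← coeff_add, kapP, kapP, kapP, ← map_add]
  congr 2
  funext c
  exact mul_add _ _ _

theorem kap_congr (h : ∀ c, 𝒩.zv c = z → u c = v c) (i : ℕ) : kap 𝒩 i u z = kap 𝒩 i v z := by
  classical
  rw [kap, kap, kapP, kapP]
  congr 1
  exact Lagrange.interpolate_eq_of_values_eq_on _ _ fun c hc => by rw [h c (L0_fib 𝒩 hc)]

theorem kap_smul (φ : (Fin n → L) → L) (i : ℕ) (u : (B →ₐ[K] L) → L) :
    kap 𝒩 i (fun c => φ (𝒩.zv c) * u c) = φ * kap 𝒩 i u := by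
  funext z
  rw [kap_congr 𝒩 (v := fun c => φ z * u c) (fun c hc => by rw [hc]), Pi.mul_apply, kap, kap,
    ← smul_eq_mul, ← coeff_smul, kapP, kapP, ← map_smul]
  congr 2
  funext c
  exact mul_left_comm _ _ _

theorem L0_zero (z : Fin n → L) : kapP 𝒩 (0 : (B →ₐ[K] L) → L) z = 0 := by
  have h : (fun c : B →ₐ[K] L => MvPolynomial.aeval z 𝒩.Δ * (0 : (B →ₐ[K] L) → L) c) = 0 :=
    funext fun _ => mul_zero _
  rw [kapP, h, map_zero]

theorem kap_finsum {ι : Type} (s : Finset ι) (u : ι → (B →ₐ[K] L) → L) (i : ℕ) :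
    kap 𝒩 i (∑ j ∈ s, u j) = ∑ j ∈ s, kap 𝒩 i (u j) := by
  classical
  induction s using Finset.induction_on with
  | empty =>
    funext z
    rw [Finset.sum_empty, Finset.sum_empty, kap, L0_zero, coeff_zero, Pi.zero_apply]
  | insert j s hj ih => rw [Finset.sum_insert hj, Finset.sum_insert hj, kap_add, ih]

theorem L0_inj (hz : MvPolynomial.aeval z 𝒩.Δ ≠ 0) :
    Set.InjOn 𝒩.θv {c : B →ₐ[K] L | 𝒩.zv c = z} := by
  intro c hc c' hc' h
  refine AlgHom.ext fun b => ?_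
  obtain ⟨Q, hQ⟩ := 𝒩.den b b.2
  have h1 := 𝒩.map_den c hQ
  have h2 := 𝒩.map_den c' hQ
  rw [show 𝒩.zv c = z from hc, h] at h1
  rw [show 𝒩.zv c' = z from hc', ← h1] at h2
  exact (mul_left_cancel₀ hz h2).symm

theorem L0_pt (hz : MvPolynomial.aeval z 𝒩.Δ ≠ 0) {ϑ : L} (h : 𝒩.m.eval₂ (H.ND.ae z) ϑ = 0) :
    ∃ c : B →ₐ[K] L, 𝒩.zv c = z ∧ 𝒩.θv c = ϑ := by
  obtain ⟨e, h1, h2⟩ := 𝒩.ND_pt (ξ := 𝒩.ND_z) (η := ⟨_, 𝒩.θ_mem⟩) h
    (fun Q k => (𝒩.ND_ev Q ⟨_, 𝒩.θ_mem⟩).symm.trans (congrArg Subtype.val k)) fun b => by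
      obtain ⟨Q, h3⟩ := 𝒩.den b b.2
      refine ⟨𝒩.Δ, Q, hz, Subtype.ext ?_⟩
      rw [H.ND.ND_ev, MulMemClass.coe_mul, H.ND.ND_val]
      exact h3
  exact ⟨e, funext h1, h2⟩

theorem L0_root {c : B →ₐ[K] L} (hc : 𝒩.zv c = z) : 𝒩.θv c ∈ (𝒩.m.map (H.ND.ae z)).roots := by
  rw [mem_roots (𝒩.monic.map _).ne_zero, IsRoot.def, eval_map, ← hc]
  exact 𝒩.root_v c

theorem L0_mem (hz : MvPolynomial.aeval z 𝒩.Δ ≠ 0) {c : B →ₐ[K] L} :
    c ∈ fib 𝒩 z ↔ 𝒩.zv c = z := by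
  classical
  have h : {c : B →ₐ[K] L | 𝒩.zv c = z}.Finite := by
    refine Set.Finite.of_finite_image
      ((𝒩.m.map (H.ND.ae z)).roots.toFinset.finite_toSet.subset ?_) (L0_inj 𝒩 hz)
    rintro _ ⟨c, hc, rfl⟩
    exact Multiset.mem_toFinset.2 (L0_root 𝒩 hc)
  rw [fib, dif_pos h, h.mem_toFinset]
  rfl

theorem L0_injOn (hz : MvPolynomial.aeval z 𝒩.Δ ≠ 0) :
    Set.InjOn 𝒩.θv (fib 𝒩 z : Set (B →ₐ[K] L)) :=
  (L0_inj 𝒩 hz).mono fun _ hc => L0_fib 𝒩 hc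

theorem L0_coeff {L : Type} [NormedField L] [IsUltrametricDist L] {ι : Type} (s : Finset ι)
    (x : ι → L) {M : ℝ} (hM : 1 ≤ M) (hx : ∀ i ∈ s, ‖x i‖ ≤ M) (k : ℕ) :
    ‖(Lagrange.nodal s x).coeff k‖ ≤ M ^ s.card := by
  classical
  induction s using Finset.induction_on generalizing k with
  | empty =>
    rw [Lagrange.nodal_empty, coeff_one]
    split_ifs <;> simp
  | insert a s ha ih =>
    have ih' := ih fun i hi => hx i (Finset.mem_insert_of_mem hi)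
    have h1 (k : ℕ) : ‖x a * (Lagrange.nodal s x).coeff k‖ ≤ M ^ (s.card + 1) := by
      rw [norm_mul, pow_succ']
      exact mul_le_mul (hx a (Finset.mem_insert_self _ _)) (ih' k) (norm_nonneg _)
        (zero_le_one.trans hM)
    rw [Lagrange.nodal_insert_eq_nodal ha, Finset.card_insert_of_notMem ha]
    cases k with
    | zero => simpa using h1 0
    | succ k =>
      rw [coeff_X_sub_C_mul, sub_eq_add_neg]
      refine (IsUltrametricDist.norm_add_le_max _ _).trans (max_le ?_ ?_)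
      · exact (ih' k).trans (pow_le_pow_right₀ hM (Nat.le_succ _))
      · rw [norm_neg]
        exact h1 _

variable [IsAlgClosed L]

omit [IsAlgClosed L] in
theorem mem_fib (hz : MvPolynomial.aeval z 𝒩.Δ ≠ 0) {c : B →ₐ[K] L} :
    c ∈ fib 𝒩 z ↔ 𝒩.zv c = z := L0_mem 𝒩 hz

theorem fib_prod (hz : MvPolynomial.aeval z 𝒩.Δ ≠ 0) :
    𝒩.m.map (H.ND.ae z) = ∏ c ∈ fib 𝒩 z, (X - C (𝒩.θv c)) := by
  have h : (𝒩.m.map (H.ND.ae z)).roots = (fib 𝒩 z).val.map 𝒩.θv := by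
    refine (Multiset.Nodup.ext (nodup_roots (𝒩.separable hz))
      (Multiset.Nodup.map_on (L0_injOn 𝒩 hz) (fib 𝒩 z).nodup)).2 fun a => ⟨fun ha => ?_, ?_⟩
    · rw [mem_roots (𝒩.monic.map _).ne_zero, IsRoot.def, eval_map] at ha
      obtain ⟨c, h1, h2⟩ := L0_pt 𝒩 hz ha
      exact Multiset.mem_map.2 ⟨c, (mem_fib 𝒩 hz).2 h1, h2⟩
    · intro ha
      obtain ⟨c, h1, rfl⟩ := Multiset.mem_map.1 ha
      exact L0_root 𝒩 (L0_fib 𝒩 h1)
  rw [(IsAlgClosed.splits _).eq_prod_roots_of_monic (𝒩.monic.map (H.ND.ae z)), h,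
    Multiset.map_map]
  rfl

theorem L0_card (hz : MvPolynomial.aeval z 𝒩.Δ ≠ 0) : (fib 𝒩 z).card = 𝒩.m.natDegree := by
  rw [← 𝒩.monic.natDegree_map (H.ND.ae z), fib_prod 𝒩 hz]
  exact Lagrange.natDegree_nodal.symm

theorem kapP_deg (hz : MvPolynomial.aeval z 𝒩.Δ ≠ 0) :
    (kapP 𝒩 u z).degree < 𝒩.m.natDegree := by
  classical
  rw [← L0_card 𝒩 hz]
  exact Lagrange.degree_interpolate_lt _ (L0_injOn 𝒩 hz)

theorem kapP_unique (hz : MvPolynomial.aeval z 𝒩.Δ ≠ 0) {P : L[X]}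
    (hP : P.degree < 𝒩.m.natDegree)
    (h : ∀ c, 𝒩.zv c = z → P.eval (𝒩.θv c) = MvPolynomial.aeval z 𝒩.Δ * u c) :
    kapP 𝒩 u z = P := by
  classical
  rw [← L0_card 𝒩 hz] at hP
  exact (Lagrange.eq_interpolate_of_eval_eq _ (L0_injOn 𝒩 hz) hP
    fun c hc => h c (L0_fib 𝒩 hc)).symm

/-- a polynomial of degree `< d` vanishing at all `θ c` is zero -/
theorem fib_zero (hz : MvPolynomial.aeval z 𝒩.Δ ≠ 0) {P : L[X]} (hP : P.degree < 𝒩.m.natDegree)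
    (h : ∀ c, 𝒩.zv c = z → P.eval (𝒩.θv c) = 0) : P = 0 := by
  rw [← kapP_unique 𝒩 (u := 0) hz hP fun c hc => by rw [h c hc, Pi.zero_apply, mul_zero], L0_zero]

theorem kap_sum {c : B →ₐ[K] L} (hz : MvPolynomial.aeval (𝒩.zv c) 𝒩.Δ ≠ 0)
    (u : (B →ₐ[K] L) → L) : ∑ i ∈ Finset.range 𝒩.m.natDegree, kap 𝒩 i u (𝒩.zv c) * 𝒩.θv c ^ i =
      MvPolynomial.aeval (𝒩.zv c) 𝒩.Δ * u c := by
  classical
  have h : (kapP 𝒩 u (𝒩.zv c)).natDegree < 𝒩.m.natDegree := by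
    by_cases h0 : kapP 𝒩 u (𝒩.zv c) = 0
    · rw [h0, natDegree_zero]
      exact 𝒩.deg_pos
    · exact (natDegree_lt_iff_degree_lt h0).2 (kapP_deg 𝒩 hz)
  refine (eval_eq_sum_range' h _).symm.trans ?_
  exact Lagrange.eval_interpolate_at_node _ (L0_injOn 𝒩 hz) ((mem_fib 𝒩 hz).2 rfl)

theorem kap_B (b : B) : ∃ Q : ℕ → Pl K n, ∀ z : Fin n → L, MvPolynomial.aeval z 𝒩.Δ ≠ 0 →
    ∀ i, kap 𝒩 i (fun c => c b) z = MvPolynomial.aeval z (Q i) := by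
  obtain ⟨Q, hQ⟩ := 𝒩.den b b.2
  refine ⟨fun i => (Q %ₘ 𝒩.m).coeff i, fun z hz i => ?_⟩
  rw [kap, kapP_unique 𝒩 hz (P := (Q %ₘ 𝒩.m).map (H.ND.ae z)), coeff_map]
  · rfl
  · rw [← degree_eq_natDegree 𝒩.monic.ne_zero]
    exact degree_map_le.trans_lt (degree_modByMonic_lt Q 𝒩.monic)
  · rintro c rfl
    rw [eval_map, eval₂_modByMonic_eq_self_of_root (𝒩.root_v c), 𝒩.map_den c hQ]

end alg

variable {K : Type} [NontriviallyNormedField K] {F : Type} [Field F] [Algebra K F]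
  {B : Subalgebra K F} {n : ℕ} (𝒩 : H.ND B n) {L : Type} [NormedField L] [IsUltrametricDist L]
  [NormedAlgebra K L] [IsAlgClosed L]

theorem kap_bound (r : ℝ) : ∃ C : ℝ, 0 < C ∧ ∀ (z : Fin n → L) (u : (B →ₐ[K] L) → L) (ε : ℝ),
    0 ≤ ε → (∀ l, ‖z l‖ ≤ r) → MvPolynomial.aeval z 𝒩.Δ ≠ 0 →
      (∀ c, 𝒩.zv c = z → ‖u c‖ ≤ ε) → ∀ i, ‖kap 𝒩 i u z‖ ≤ C * ε := by
  classical
  obtain ⟨a, b, hab⟩ := 𝒩.bez
  let β : B := b.eval₂ (H.ND.ae 𝒩.ND_z) ⟨_, 𝒩.θ_mem⟩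
  obtain ⟨C₁, h₁⟩ := S1_bound 𝒩 r ⟨_, 𝒩.θ_mem⟩
  obtain ⟨C₂, h₂⟩ := S1_bound 𝒩 r β
  refine ⟨max 1 C₂ * max 1 C₁ ^ 𝒩.m.natDegree, by positivity, fun z u ε hε hr hz hu i => ?_⟩
  have hb (c : B →ₐ[K] L) (hc : 𝒩.zv c = z) (l : Fin n) : Sn.of c (𝒩.ND_z l) ≤ r := by
    rw [← hc] at hr
    exact hr l
  have hβ (c : B →ₐ[K] L) (hc : 𝒩.zv c = z) : MvPolynomial.aeval z 𝒩.Δ =
      c β * (Lagrange.nodal ((fib 𝒩 z).erase c) 𝒩.θv).eval (𝒩.θv c) := by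
    have h1 : c β = b.eval₂ (H.ND.ae z) (𝒩.θv c) := hc ▸ H.ND.ND_hom c 𝒩.ND_z _ b
    have h2 := congrArg (eval₂ (H.ND.ae z) (𝒩.θv c)) hab
    have h3 := 𝒩.root_v c
    rw [hc] at h3
    rw [eval₂_add, eval₂_mul, eval₂_mul, h3, mul_zero, zero_add, eval₂_C, ← h1,
      ← eval_map (p := derivative 𝒩.m), ← derivative_map, fib_prod 𝒩 hz] at h2
    rw [← Lagrange.eval_nodal_derivative_eval_node_eq ((mem_fib 𝒩 hz).2 hc)]
    exact h2.symm
  rw [kap, kapP_unique 𝒩 hz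
    (P := ∑ c ∈ fib 𝒩 z, C (u c * c β) * Lagrange.nodal ((fib 𝒩 z).erase c) 𝒩.θv), finsetSum_coeff]
  · refine IsUltrametricDist.norm_sum_le_of_forall_le_of_nonneg (by positivity) fun c hc => ?_
    have hc' := L0_fib 𝒩 hc
    have h3 := L0_coeff ((fib 𝒩 z).erase c) 𝒩.θv (le_max_left 1 C₁) (fun c' h' =>
      (h₁ _ (hb c' (L0_fib 𝒩 (Finset.mem_of_mem_erase h')))).trans (le_max_right _ _)) i
    have h4 : max 1 C₁ ^ ((fib 𝒩 z).erase c).card ≤ max 1 C₁ ^ 𝒩.m.natDegree :=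
      pow_le_pow_right₀ (le_max_left _ _) (L0_card 𝒩 hz ▸ Finset.card_erase_le)
    have h5 : ‖c β‖ ≤ max 1 C₂ := (h₂ _ (hb c hc')).trans (le_max_right _ _)
    rw [coeff_C_mul, norm_mul, norm_mul, mul_assoc, mul_comm _ ε]
    exact mul_le_mul (hu c hc') (mul_le_mul h5 (h3.trans h4) (norm_nonneg _) (by positivity))
      (by positivity) hε
  · refine (degree_sum_le _ _).trans_lt ((Finset.sup_lt_iff (WithBot.bot_lt_coe _)).2 fun c hc => ?_)
    rw [← smul_eq_C_mul, ← L0_card 𝒩 hz]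
    refine (degree_smul_le _ _).trans_lt ?_
    rw [Lagrange.degree_nodal]
    exact Nat.cast_lt.2 (Finset.card_erase_lt_of_mem hc)
  · intro c hc
    rw [eval_finsetSum, Finset.sum_eq_single_of_mem c ((mem_fib 𝒩 hz).2 hc), eval_mul, eval_C,
      hβ c hc]
    · ring
    · intro c' _ h'
      rw [eval_mul, Lagrange.eval_nodal_at_node
        (Finset.mem_erase.2 ⟨h'.symm, (mem_fib 𝒩 hz).2 hc⟩), mul_zero]

end Pool.Agent.Work.MP_e120ef_ag.Br
end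

-- merged part: Pool.Agent.Work.MP_e120ef_ag.Br.S4
section
/-! Gluing of approximants over a fibre of `pi`.

Plan.  The fibre `T` is finite.  For `ξ ∈ T` take `(a, b)` from `sep ξ (T.erase ξ)` and a real
`κ < 1` with `ξ b < κ * ξ a`, `ξ' a < κ * ξ' b`.  Choose for each `ξ ∈ T` a compact neighbourhood
`N ξ` (`cpt_nhds`) inside the neighbourhood of `Ac ξ u` on which all these finitely many strict
inequalities persist.  `proper` gives `N ∈ 𝓝 τ` with `pi ⁻¹ N ⊆ ⋃ N ξ`.  Given `ε`, take `b₁, b₂`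
for `ξ`; by compactness `m ≤ ξ' b₂` on `N ξ` (`m > 0`) and `ξ' b₁, ξ' b₂ ≤ C` on all `N ξ'`.
For large `M` the quotient `b₁ a ^ M / (b₂ a ^ M + b ^ M)` has a denominator of norm `|b₂ a ^ M|` on
`N ξ` and `|b ^ M|` on `N ξ'`, is within `C κ ^ M / m ^ 2` of `b₁ / b₂` on `N ξ` and of norm at most
`C κ ^ M` on `N ξ'`.  Add the quotients (common denominator = product; induction on a finset:
a finite sum of quotients `c p / c q` with `c q ≠ 0` is such a quotient). -/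

open Filter Topology

namespace Pool.Agent.Work.MP_e120ef_ag.Br

variable {K : Type} [NontriviallyNormedField K] [IsAlgClosed K] {F : Type} [Field F] [Algebra K F]
  {B : Subalgebra K F} {n : ℕ} (𝒩 : H.ND B n) {L : Type} [NormedField L] [IsUltrametricDist L]
  [NormedAlgebra K L]

theorem S4_add {x y : L} (h : ‖y‖ < ‖x‖) : ‖x + y‖ = ‖x‖ := by
  rw [IsUltrametricDist.norm_add_eq_max_of_norm_ne_norm h.ne', max_eq_left h.le]

theorem S4_near {x₁ x₂ P Q : L} {m C δ ε : ℝ} (hP : P ≠ 0) (hQ : ‖Q‖ ≤ δ * ‖P‖) (hm : 0 < m)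
    (h2 : m ≤ ‖x₂‖) (h1 : ‖x₁‖ ≤ C) (d1 : δ < m) (d2 : C * δ ≤ ε * m ^ 2) (hε : 0 ≤ ε) :
    x₂ * P + Q ≠ 0 ∧ ‖x₁ / x₂ - x₁ * P / (x₂ * P + Q)‖ ≤ ε := by
  have p0 : 0 < ‖P‖ := norm_pos_iff.2 hP
  have x0 : 0 < ‖x₂‖ := hm.trans_le h2
  have e : ‖x₂ * P + Q‖ = ‖x₂‖ * ‖P‖ := by
    rw [S4_add, norm_mul]
    rw [norm_mul]
    exact hQ.trans_lt (mul_lt_mul_of_pos_right (d1.trans_le h2) p0)
  have n0 : x₂ * P + Q ≠ 0 := norm_pos_iff.1 (e ▸ mul_pos x0 p0)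
  have n1 : x₂ ≠ 0 := norm_pos_iff.1 x0
  refine ⟨n0, ?_⟩
  have : x₁ / x₂ - x₁ * P / (x₂ * P + Q) = x₁ * Q / (x₂ * (x₂ * P + Q)) := by
    field_simp
    ring
  rw [this, norm_div, norm_mul, norm_mul, e, div_le_iff₀ (by positivity)]
  calc ‖x₁‖ * ‖Q‖ ≤ C * (δ * ‖P‖) :=
        mul_le_mul h1 hQ (norm_nonneg _) ((norm_nonneg _).trans h1)
    _ = C * δ * ‖P‖ := by ring
    _ ≤ ε * m ^ 2 * ‖P‖ := by gcongr
    _ ≤ ε * ‖x₂‖ ^ 2 * ‖P‖ := by gcongr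
    _ = _ := by ring

theorem S4_far {x₁ x₂ P Q : L} {C δ ε : ℝ} (hQ : Q ≠ 0) (hP : ‖P‖ ≤ δ * ‖Q‖) (h1 : ‖x₁‖ ≤ C)
    (h2 : ‖x₂‖ ≤ C) (d1 : C * δ < 1) (d2 : C * δ ≤ ε) :
    x₂ * P + Q ≠ 0 ∧ ‖x₁ * P / (x₂ * P + Q)‖ ≤ ε := by
  have q0 : 0 < ‖Q‖ := norm_pos_iff.2 hQ
  have k : ∀ x : L, ‖x‖ ≤ C → ‖x * P‖ ≤ C * δ * ‖Q‖ := fun x hx => by
    rw [norm_mul, mul_assoc]
    exact mul_le_mul hx hP (norm_nonneg _) ((norm_nonneg _).trans hx)
  have e : ‖x₂ * P + Q‖ = ‖Q‖ := by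
    rw [add_comm, S4_add]
    exact (k _ h2).trans_lt (mul_lt_of_lt_one_left q0 d1)
  refine ⟨norm_pos_iff.1 (e ▸ q0), ?_⟩
  rw [norm_div, e, div_le_iff₀ q0]
  exact (k _ h1).trans (mul_le_mul_of_nonneg_right d2 q0.le)

section

variable {R : Type} [CommRing R] [Algebra K R]

omit [IsAlgClosed K] in
theorem S4_ev {N : Set (Sn K R)} (hN : IsCompact N) {a b : R} (h : ∀ η ∈ N, η b < η a) {δ : ℝ}
    (hδ : 0 < δ) : ∀ᶠ M : ℕ in atTop, ∀ η ∈ N, η b ^ M ≤ δ * η a ^ M := by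
  have pos : ∀ η ∈ N, 0 < η a := fun η k => (η.nn b).trans_lt (h η k)
  obtain ⟨d, d0, hd⟩ := hN.exists_forall_le' (f := fun η => 1 - η b / η a) (a := 0)
    (continuousOn_const.sub ((Sn.cont b).continuousOn.div (Sn.cont a).continuousOn
      fun η k => (pos η k).ne')) fun η k => sub_pos.2 ((div_lt_one (pos η k)).2 (h η k))
  have t := tendsto_pow_atTop_nhds_zero_of_lt_one (le_max_right (1 - d) 0)
    (max_lt (by linarith) one_pos)
  filter_upwards [t.eventually (gt_mem_nhds hδ)] with M hM η k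
  have e : η b ≤ max (1 - d) 0 * η a := by
    rw [← div_le_iff₀ (pos η k)]
    exact le_trans (by linarith [hd η k]) (le_max_left _ _)
  calc η b ^ M ≤ (max (1 - d) 0 * η a) ^ M := pow_le_pow_left₀ (η.nn b) e M
    _ = max (1 - d) 0 ^ M * η a ^ M := mul_pow _ _ _
    _ ≤ _ := mul_le_mul_of_nonneg_right hM.le (pow_nonneg (η.nn a) M)

omit [IsAlgClosed K] in
theorem S4_loc {N N' : Set (Sn K R)} (hN : IsCompact N) (hN' : IsCompact N') {a b : R}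
    (h : ∀ η ∈ N, η b < η a) (h' : ∀ η ∈ N', η a < η b) (b₁ : R) {b₂ : R}
    (h2 : ∀ η ∈ N, η b₂ ≠ 0) {ε : ℝ} (hε : 0 < ε) : ∃ p q : R,
      (∀ c : R →ₐ[K] L, Sn.of c ∈ N → c q ≠ 0 ∧ ‖c b₁ / c b₂ - c p / c q‖ ≤ ε) ∧
      ∀ c : R →ₐ[K] L, Sn.of c ∈ N' → c q ≠ 0 ∧ ‖c p / c q‖ ≤ ε := by
  obtain ⟨m, m0, hm⟩ := hN.exists_forall_le' (f := fun η => η b₂) (a := 0)
    (Sn.cont b₂).continuousOn fun η k => (η.nn b₂).lt_of_ne' (h2 η k)
  obtain ⟨C, hC⟩ := (hN.union hN').bddAbove_image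
    (f := fun η => max (η b₁) (η b₂)) ((Sn.cont b₁).max (Sn.cont b₂)).continuousOn
  have c1 : ∀ η ∈ N ∪ N', η b₁ ≤ C := fun η k => (le_max_left _ _).trans (hC ⟨η, k, rfl⟩)
  have c2 : ∀ η ∈ N ∪ N', η b₂ ≤ C := fun η k => (le_max_right _ _).trans (hC ⟨η, k, rfl⟩)
  obtain ⟨δ, ⟨d1, d2, d3, d4⟩, d0⟩ : ∃ δ : ℝ,
      (δ < m ∧ C * δ < ε * m ^ 2 ∧ C * δ < 1 ∧ C * δ < ε) ∧ 0 < δ := by
    have t : Tendsto (fun δ : ℝ => C * δ) (𝓝 0) (𝓝 0) := by
      simpa using (tendsto_id (x := 𝓝 (0 : ℝ))).const_mul C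
    have : ∀ᶠ δ : ℝ in 𝓝 0, δ < m ∧ C * δ < ε * m ^ 2 ∧ C * δ < 1 ∧ C * δ < ε :=
      (gt_mem_nhds m0 : ∀ᶠ δ : ℝ in 𝓝 0, δ < m).and ((t.eventually (gt_mem_nhds (by positivity))).and
        ((t.eventually (gt_mem_nhds one_pos)).and (t.eventually (gt_mem_nhds hε))))
    exact ((this.filter_mono nhdsWithin_le_nhds).and (self_mem_nhdsWithin (s := Set.Ioi 0))).exists
  obtain ⟨M, e1, e2⟩ := ((S4_ev hN h d0).and (S4_ev hN' h' d0)).exists
  refine ⟨b₁ * a ^ M, b₂ * a ^ M + b ^ M, fun c k => ?_, fun c k => ?_⟩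
  · simp only [map_add, map_mul, map_pow]
    exact S4_near (pow_ne_zero _ (norm_pos_iff.1 ((norm_nonneg _).trans_lt (h _ k))))
      (by rw [norm_pow, norm_pow]; exact e1 _ k) m0 (hm _ k) (c1 _ (Or.inl k)) d1 d2.le hε.le
  · simp only [map_add, map_mul, map_pow]
    exact S4_far (pow_ne_zero _ (norm_pos_iff.1 ((norm_nonneg _).trans_lt (h' _ k))))
      (by rw [norm_pow, norm_pow]; exact e2 _ k) (c1 _ (Or.inr k)) (c2 _ (Or.inr k)) d3 d4.le

omit [IsAlgClosed K] [IsUltrametricDist L] in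
theorem S4_sum {ι : Type} (s : Finset ι) (p q : ι → R) : ∃ P Q : R, ∀ c : R →ₐ[K] L,
    (∀ i ∈ s, c (q i) ≠ 0) → c Q ≠ 0 ∧ c P / c Q = ∑ i ∈ s, c (p i) / c (q i) := by
  classical
  induction s using Finset.induction_on with
  | empty => exact ⟨0, 1, fun c _ => by simp⟩
  | insert i s hi ih =>
    obtain ⟨P, Q, k⟩ := ih
    refine ⟨p i * Q + q i * P, q i * Q, fun c hc => ?_⟩
    obtain ⟨k1, k2⟩ := k c fun j hj => hc j (Finset.mem_insert_of_mem hj)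
    have k3 := hc i (Finset.mem_insert_self i s)
    rw [Finset.sum_insert hi, ← k2, map_add, map_mul, map_mul, map_mul, div_add_div _ _ k3 k1]
    exact ⟨mul_ne_zero k3 k1, rfl⟩

end

theorem lemP {τ : Sn K (Pl K n)} {u : (B →ₐ[K] L) → L} (h : ∀ ξ, pi 𝒩 ξ = τ → Ac ξ u) :
    ∃ N ∈ 𝓝 τ, ∀ ε > 0, ∃ b₁ b₂ : B, ∀ c : B →ₐ[K] L, pz K (𝒩.zv c) ∈ N →
      c b₂ ≠ 0 ∧ ‖u c - c b₁ / c b₂‖ ≤ ε := by
  classical
  obtain ⟨T, hT⟩ : ∃ T : Finset (Sn K B), ∀ ξ, ξ ∈ T ↔ pi 𝒩 ξ = τ :=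
    ⟨(fib_finite 𝒩 τ).toFinset, fun ξ => by simp⟩
  choose a b hab hba using fun ξ : Sn K B => sep ξ (T.erase ξ) (Finset.notMem_erase ξ T)
  have H1 : ∀ ξ ∈ T, ∃ N ∈ 𝓝 ξ, IsCompact N ∧ (∀ η ∈ N, η (b ξ) < η (a ξ)) ∧
      (∀ ξ' ∈ T, ξ ≠ ξ' → ∀ η ∈ N, η (a ξ') < η (b ξ')) ∧ ∀ ε > 0, ∃ b₁ b₂ : B,
        (∀ η ∈ N, η b₂ ≠ 0) ∧ ∀ c : B →ₐ[K] L, Sn.of c ∈ N → ‖u c - c b₁ / c b₂‖ ≤ ε := by
    intro ξ hξ
    obtain ⟨N₀, n0, hA⟩ := h ξ ((hT ξ).1 hξ)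
    have e1 : ∀ᶠ η : Sn K B in 𝓝 ξ, η (b ξ) < η (a ξ) :=
      (Sn.cont _).continuousAt.eventually_lt (Sn.cont _).continuousAt (hab ξ)
    have e2 : ∀ᶠ η : Sn K B in 𝓝 ξ, ∀ ξ' ∈ T, ξ ≠ ξ' → η (a ξ') < η (b ξ') := by
      rw [Filter.eventually_all_finset]
      intro ξ' _
      by_cases e : ξ = ξ'
      · exact Eventually.of_forall fun _ k => absurd e k
      · exact ((Sn.cont _).continuousAt.eventually_lt (Sn.cont _).continuousAt
          (hba ξ' ξ (Finset.mem_erase.2 ⟨e, hξ⟩)).2).mono fun _ k _ => k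
    obtain ⟨N, n1, n2, n3⟩ := cpt_nhds 𝒩 (inter_mem n0 (e1.and e2))
    refine ⟨N, n1, n3, fun η k => (n2 k).2.1, fun ξ' k e η k' => (n2 k').2.2 ξ' k e,
      fun ε hε => ?_⟩
    obtain ⟨b₁, b₂, k1, k2⟩ := hA ε hε
    exact ⟨b₁, b₂, fun η k => k1 η (n2 k).1, fun c k => k2 c (n2 k).1⟩
  choose! N n1 n2 n3 n4 n5 using H1
  obtain ⟨N', m1, m2⟩ := proper 𝒩 (τ := τ) (O := ⋃ ξ ∈ T, N ξ) fun ξ hξ =>
    mem_of_superset (n1 ξ ((hT ξ).2 hξ)) (Set.subset_biUnion_of_mem (u := N) ((hT ξ).2 hξ))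
  refine ⟨N', m1, fun ε hε => ?_⟩
  have H2 : ∀ ξ ∈ T, ∃ p q : B, (∀ c : B →ₐ[K] L, Sn.of c ∈ N ξ →
      c q ≠ 0 ∧ ‖u c - c p / c q‖ ≤ ε) ∧ ∀ ξ' ∈ T, ξ' ≠ ξ → ∀ c : B →ₐ[K] L, Sn.of c ∈ N ξ' →
        c q ≠ 0 ∧ ‖c p / c q‖ ≤ ε := by
    intro ξ hξ
    obtain ⟨b₁, b₂, k1, k2⟩ := n5 ξ hξ ε hε
    obtain ⟨p, q, l1, l2⟩ := S4_loc (L := L) (n2 ξ hξ)
      ((T.erase ξ).isCompact_biUnion fun ξ' k => n2 ξ' (Finset.mem_of_mem_erase k)) (n3 ξ hξ)
      (fun η k => by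
        obtain ⟨ξ', k1, k2⟩ := Set.mem_iUnion₂.1 k
        exact n4 ξ' (Finset.mem_of_mem_erase k1) ξ hξ (Finset.ne_of_mem_erase k1) η k2)
      b₁ k1 hε
    refine ⟨p, q, fun c k => ⟨(l1 c k).1, ?_⟩, fun ξ' k e c k' =>
      l2 c (Set.mem_iUnion₂.2 ⟨ξ', Finset.mem_erase.2 ⟨e, k⟩, k'⟩)⟩
    rw [← sub_add_sub_cancel _ (c b₁ / c b₂)]
    exact (IsUltrametricDist.norm_add_le_max _ _).trans (max_le (k2 c k) (l1 c k).2)
  choose! p q l1 l2 using H2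
  obtain ⟨P, Q, hPQ⟩ := S4_sum (K := K) (L := L) T p q
  refine ⟨P, Q, fun c hc => ?_⟩
  obtain ⟨ξ, hξ, k⟩ := Set.mem_iUnion₂.1 (m2 (Sn.of c) (by rwa [pi_of]))
  obtain ⟨r1, r2⟩ := hPQ c fun ξ' k' => by
    by_cases e : ξ = ξ'
    · exact e ▸ (l1 ξ hξ c k).1
    · exact (l2 ξ' k' ξ hξ e c k).1
  refine ⟨r1, ?_⟩
  rw [r2, ← Finset.add_sum_erase T _ hξ, sub_add_eq_sub_sub, sub_eq_add_neg]
  refine (IsUltrametricDist.norm_add_le_max _ _).trans (max_le (l1 ξ hξ c k).2 ?_)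
  rw [norm_neg]
  exact IsUltrametricDist.norm_sum_le_of_forall_le_of_nonneg hε.le fun ξ' k' =>
    (l2 ξ' (Finset.mem_of_mem_erase k') ξ hξ (Finset.ne_of_mem_erase k').symm c k).2

end Pool.Agent.Work.MP_e120ef_ag.Br
end

-- merged part: Pool.Agent.Work.MP_e120ef_ag.Br.L1
section
/-! The push-forward of an analytic function is analytic.

Plan.  `lemP` gives `N`; shrink it to `{τ' | ∀ l, τ' (X l) < r}`.  Given `ε` take `b₁, b₂` for
`ε / C` (`kap_bound`), `conj b₂` gives `b₂ b' = a₀` with `a₀(z) ≠ 0` on `N`; on the fibre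
`c b₁ / c b₂ = (a₀ z)⁻¹ * c (b₁ b')`, so by `kap_congr`, `kap_smul`, `kap_B` the coefficient is
`Q i (z) / a₀(z)`; `kap_add` and `kap_bound` for the difference. -/

open Filter Topology

namespace Pool.Agent.Work.MP_e120ef_ag.Br

variable {K : Type} [NontriviallyNormedField K] [IsUltrametricDist K] [IsAlgClosed K] [CharZero K]
  {F : Type} [Field F] [Algebra K F] {B : Subalgebra K F} {n : ℕ} (𝒩 : H.ND B n) {L : Type}
  [NormedField L] [IsUltrametricDist L] [NormedAlgebra K L] [IsAlgClosed L]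

theorem pf {τ : Sn K (Pl K n)} {u : (B →ₐ[K] L) → L} (h : ∀ ξ, pi 𝒩 ξ = τ → Ac ξ u) (i : ℕ) :
    Oc 𝒩.Δ τ (kap 𝒩 i u) := by
  obtain ⟨N, hN, hP⟩ := lemP 𝒩 h
  obtain ⟨C, hC, hb⟩ := kap_bound (L := L) 𝒩 (∑ l, τ (MvPolynomial.X l) + 1)
  have hN' : ∀ᶠ τ' : Sn K (Pl K n) in 𝓝 τ, ∀ l, τ' (MvPolynomial.X l) < τ (MvPolynomial.X l) + 1 :=
    eventually_all.2 fun l => (Sn.cont _).continuousAt.eventually_lt_const (lt_add_one _)
  refine ⟨_, inter_mem hN hN', fun ε hε => ?_⟩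
  obtain ⟨b₁, b₂, hb₁⟩ := hP (ε / C) (div_pos hε hC)
  obtain ⟨a₀, b', e, -, h₀, -⟩ := conj 𝒩 b₂
  obtain ⟨Q, hQ⟩ := kap_B (L := L) 𝒩 (b₁ * b')
  refine ⟨Q i, a₀, fun z hz => ?_⟩
  have ha : MvPolynomial.aeval z a₀ ≠ 0 := fun k => by
    obtain ⟨c, rfl, hc⟩ := h₀ L z k
    exact (hb₁ c hz.1).1 hc
  refine ⟨ha, fun hΔ => ?_⟩
  have k1 := congrFun (kap_smul 𝒩 (fun z => (MvPolynomial.aeval z a₀)⁻¹) i fun c => c (b₁ * b')) z
  set w : (B →ₐ[K] L) → L := fun c => (MvPolynomial.aeval (𝒩.zv c) a₀)⁻¹ * c (b₁ * b')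
  have k2 := congrFun (kap_add 𝒩 i (u - w) w) z
  rw [sub_add_cancel, Pi.add_apply, k1, Pi.mul_apply, hQ z hΔ, ← div_eq_inv_mul] at k2
  rw [k2, add_sub_cancel_right, ← mul_div_cancel₀ ε hC.ne']
  refine hb z _ _ (div_pos hε hC).le (fun l => ?_) hΔ (fun c hc => ?_) i
  · have := hz.2 l
    rw [pz_apply, MvPolynomial.aeval_X] at this
    refine this.le.trans (add_le_add_left ?_ 1)
    exact Finset.single_le_sum (f := fun l => τ (MvPolynomial.X l)) (fun l _ => τ.nn _)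
      (Finset.mem_univ l)
  · subst hc
    obtain ⟨h2, h3⟩ := hb₁ c hz.1
    have k3 : w c = c b₁ / c b₂ := by
      have k4 := map_zA 𝒩 c a₀
      rw [← e, map_mul] at k4
      rw [← k4] at ha
      have := right_ne_zero_of_mul ha
      simp only [w, ← k4, map_mul]
      field_simp
    rwa [Pi.sub_apply, k3]

end Pool.Agent.Work.MP_e120ef_ag.Br
end

-- merged part: Pool.Agent.Work.MP_e120ef_ag.Br.L2
section
/-! The functions whose push-forwards lie in a germ class are stable under the field operations.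

Plans.  `GC.poly`: `γ.oc` with `D = 1`, `p = P`, `q = 1`.  `GC.inv_poly`: `γ.dich`, `γ.nz`, `γ.ne`.
`Rg.mul`: where `Δ(z) ≠ 0`, `Δ ^ 2 * (u * v) c = ∑ i j, kap i u z * kap j v z * c (θ ^ (i + j))`
(`kap_sum`), so `kap k (u * v) = Δ⁻¹ * Δ⁻¹ * ∑ kap i u * kap j v * kap k (θ ^ (i + j))` eventually
(`kap_congr`, `kap_smul`, `kap_finsum`, `kap_B`).
`Rg.inv`: let `R` be the subring of `Filter.Germ γ.F L` of germs of functions in `γ.P`
(nontrivial as `γ.ne`).  The `d + 1` vectors `(kap i (u ^ j))_{i < d}`, `j ≤ d`, of `Fin d → R` are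
not linearly independent (`LinearIndependent.fintype_card_le_finrank`, `Module.finrank_fin_fun`),
so there are `φ j` in `γ.P`, not all eventually zero, with `∑ φ j * kap i (u ^ j) = 0` eventually,
hence `∑ φ j (z) * u c ^ j = 0` on the fibre (`kap_sum`).  Take `j₀` minimal with `φ j₀` not
eventually zero, `γ.dich`; `y = -∑_{j > j₀} (φ j₀)⁻¹ φ j * u ^ (j - j₀ - 1)` is in `Rg` and
`u c * y c = 1` when `u c ≠ 0`, so `u⁻¹ = u * y ^ 2` on fibres, eventually. -/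

open Filter Topology

namespace Pool.Agent.Work.MP_e120ef_ag.Br

variable {K : Type} [NontriviallyNormedField K] {n : ℕ} {L : Type} [NontriviallyNormedField L]
  [IsUltrametricDist L] [NormedAlgebra K L] (γ : GC K n L)

theorem GC.poly (P : Pl K n) : γ.P fun z => MvPolynomial.aeval z P :=
  γ.oc (D := 1) one_ne_zero ⟨Set.univ, univ_mem, fun ε hε => ⟨P, 1, fun z _ =>
    ⟨by simp, fun _ => by simp [hε.le]⟩⟩⟩

theorem GC.inv_poly {P : Pl K n} (h : P ≠ 0) : γ.P fun z => (MvPolynomial.aeval z P)⁻¹ := by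
  have := γ.ne
  rcases γ.dich (γ.poly P) with h0 | h1
  · obtain ⟨z, h2, h3⟩ := (h0.and (γ.nz P h)).exists
    exact absurd h2 h3
  · exact h1.2

theorem L2_zero : γ.P 0 := γ.congr (γ.poly 0) (Eventually.of_forall fun z => by simp)

theorem L2_one : γ.P 1 := γ.congr (γ.poly 1) (Eventually.of_forall fun z => by simp)

theorem L2_neg {Φ : (Fin n → L) → L} (h : γ.P Φ) : γ.P (-Φ) :=
  γ.congr (γ.mul (γ.poly (-1)) h) (Eventually.of_forall fun z => by simp)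

/-- the germs of the functions of the class -/
def L2_ring : Subring (Germ γ.F L) where
  carrier := {g | ∃ φ, γ.P φ ∧ (φ : Germ γ.F L) = g}
  mul_mem' := by
    rintro _ _ ⟨φ, h, rfl⟩ ⟨ψ, h', rfl⟩
    exact ⟨φ * ψ, γ.mul h h', rfl⟩
  one_mem' := ⟨1, L2_one γ, rfl⟩
  add_mem' := by
    rintro _ _ ⟨φ, h, rfl⟩ ⟨ψ, h', rfl⟩
    exact ⟨φ + ψ, γ.add h h', rfl⟩
  zero_mem' := ⟨0, L2_zero γ, rfl⟩
  neg_mem' := by
    rintro _ ⟨φ, h, rfl⟩
    exact ⟨-φ, L2_neg γ h, rfl⟩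

theorem L2_dep {d : ℕ} (Φ : Fin (d + 1) → Fin d → (Fin n → L) → L) (h : ∀ j i, γ.P (Φ j i)) :
    ∃ φ : Fin (d + 1) → (Fin n → L) → L, (∀ j, γ.P (φ j)) ∧ (∃ j, ¬ φ j =ᶠ[γ.F] 0) ∧
      ∀ᶠ z in γ.F, ∀ i, ∑ j, φ j z * Φ j i z = 0 := by
  have := γ.ne
  let V : Fin (d + 1) → Fin d → L2_ring γ := fun j i => ⟨(Φ j i : Germ γ.F L), Φ j i, h j i, rfl⟩
  have hV : ¬ LinearIndependent (L2_ring γ) V := fun k => by
    have := k.fintype_card_le_finrank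
    rw [Module.finrank_fin_fun, Fintype.card_fin] at this
    omega
  obtain ⟨g, h1, j, h2⟩ := Fintype.not_linearIndependent_iff.1 hV
  choose φ h3 h4 using fun j => (g j).2
  refine ⟨φ, h3, ⟨j, fun k => h2 (Subtype.ext ?_)⟩, eventually_all.2 fun i => ?_⟩
  · rw [← h4 j]
    exact Germ.coe_eq.2 k
  · have h5 := congrArg (L2_ring γ).subtype (congrFun h1 i)
    rw [Finset.sum_apply, map_sum] at h5
    have h6 : Germ.coeRingHom γ.F (∑ j, φ j * Φ j i) = Germ.coeRingHom γ.F 0 := by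
      rw [map_sum, map_zero]
      refine Eq.trans (Finset.sum_congr rfl fun j _ => ?_) h5
      change ((φ j : Germ γ.F L) * (Φ j i : Germ γ.F L)) = (g j).1 * (Φ j i : Germ γ.F L)
      rw [h4 j]
    refine (Germ.coe_eq.1 h6).mono fun z hz => ?_
    simpa [Finset.sum_apply] using hz

theorem GC.sum {ι : Type} (s : Finset ι) {Φ : ι → (Fin n → L) → L} (h : ∀ i ∈ s, γ.P (Φ i)) :
    γ.P (∑ i ∈ s, Φ i) :=
  Finset.sum_induction Φ γ.P (fun _ _ => γ.add) (L2_zero γ) h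

variable {F : Type} [Field F] [Algebra K F] {B : Subalgebra K F} (𝒩 : H.ND B n)

/-- all push-forwards of `u` are in the class `γ` -/
def Rg (u : (B →ₐ[K] L) → L) : Prop := ∀ i, γ.P (kap 𝒩 i u)

variable {γ 𝒩} {u v : (B →ₐ[K] L) → L}

theorem Rg.congr (h : Rg γ 𝒩 u) (e : ∀ᶠ z in γ.F, ∀ c, 𝒩.zv c = z → u c = v c) : Rg γ 𝒩 v :=
  fun i => γ.congr (h i) (e.mono fun _ hz => kap_congr 𝒩 hz i)

theorem Rg.add (hu : Rg γ 𝒩 u) (hv : Rg γ 𝒩 v) : Rg γ 𝒩 (u + v) := fun i => by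
  rw [kap_add]
  exact γ.add (hu i) (hv i)

theorem Rg.smul {φ : (Fin n → L) → L} (hφ : γ.P φ) (hu : Rg γ 𝒩 u) :
    Rg γ 𝒩 fun c => φ (𝒩.zv c) * u c := fun i => by
  rw [kap_smul]
  exact γ.mul hφ (hu i)

variable [IsAlgClosed L]

theorem Rg.elt (b : B) : Rg γ 𝒩 fun c : B →ₐ[K] L => c b := fun i => by
  obtain ⟨Q, hQ⟩ := kap_B 𝒩 (L := L) b
  exact γ.congr (γ.poly (Q i)) ((γ.nz _ 𝒩.Δ_ne).mono fun z hz => (hQ z hz i).symm)

omit [IsAlgClosed L] in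
theorem Rg.sum {ι : Type} (s : Finset ι) {u : ι → (B →ₐ[K] L) → L} (h : ∀ i ∈ s, Rg γ 𝒩 (u i)) :
    Rg γ 𝒩 (∑ i ∈ s, u i) := fun k => by
  rw [kap_finsum]
  exact γ.sum s fun i hi => h i hi k

theorem Rg.mul (hu : Rg γ 𝒩 u) (hv : Rg γ 𝒩 v) : Rg γ 𝒩 (u * v) := by
  have hΔ := γ.inv_poly 𝒩.Δ_ne
  let φ : ℕ → ℕ → (Fin n → L) → L := fun i j =>
    ((fun z => (MvPolynomial.aeval z 𝒩.Δ)⁻¹) * kap 𝒩 i u) *
      ((fun z => (MvPolynomial.aeval z 𝒩.Δ)⁻¹) * kap 𝒩 j v)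
  let θ : B := ⟨𝒩.θ, 𝒩.θ_mem⟩
  let w : ℕ → ℕ → (B →ₐ[K] L) → L := fun i j c => φ i j (𝒩.zv c) * c (θ ^ (i + j))
  have h0 : ∀ i j, Rg γ 𝒩 (w i j) := fun i j =>
    Rg.smul (φ := φ i j) (u := fun c : B →ₐ[K] L => c (θ ^ (i + j)))
      (γ.mul (γ.mul hΔ (hu i)) (γ.mul hΔ (hv j))) (Rg.elt _)
  have h1 : Rg γ 𝒩 (∑ i ∈ Finset.range 𝒩.m.natDegree, ∑ j ∈ Finset.range 𝒩.m.natDegree, w i j) :=
    Rg.sum _ fun i _ => Rg.sum _ fun j _ => h0 i j
  refine h1.congr ((γ.nz _ 𝒩.Δ_ne).mono fun z hz c hc => ?_)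
  subst hc
  have e1 := kap_sum 𝒩 hz u
  have e2 := kap_sum 𝒩 hz v
  have e3 (i j : ℕ) : w i j c = (MvPolynomial.aeval (𝒩.zv c) 𝒩.Δ)⁻¹ ^ 2 *
      (kap 𝒩 i u (𝒩.zv c) * 𝒩.θv c ^ i * (kap 𝒩 j v (𝒩.zv c) * 𝒩.θv c ^ j)) := by
    have e4 : c (θ ^ (i + j)) = 𝒩.θv c ^ (i + j) := map_pow c θ _
    change ((MvPolynomial.aeval (𝒩.zv c) 𝒩.Δ)⁻¹ * kap 𝒩 i u (𝒩.zv c)) *
      ((MvPolynomial.aeval (𝒩.zv c) 𝒩.Δ)⁻¹ * kap 𝒩 j v (𝒩.zv c)) * c (θ ^ (i + j)) = _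
    rw [e4]
    ring
  simp only [Finset.sum_apply, e3, ← Finset.mul_sum, ← Finset.sum_mul, e1, e2, Pi.mul_apply]
  field_simp

theorem L2_pow (hu : Rg γ 𝒩 u) (j : ℕ) : Rg γ 𝒩 (u ^ j) := by
  induction j with
  | zero =>
    exact (Rg.elt (γ := γ) (𝒩 := 𝒩) 1).congr (Eventually.of_forall fun z c _ => by simp)
  | succ j ih =>
    rw [pow_succ]
    exact ih.mul hu

theorem L2_inv (hu : Rg γ 𝒩 u) (k : ℕ) : ∀ φ : Fin k → (Fin n → L) → L, (∀ j, γ.P (φ j)) →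
    (∃ j, ¬ φ j =ᶠ[γ.F] 0) →
    (∀ᶠ z in γ.F, ∀ c, 𝒩.zv c = z → u c ≠ 0 → ∑ j, φ j z * u c ^ (j : ℕ) = 0) →
    Rg γ 𝒩 u⁻¹ := by
  induction k with
  | zero => exact fun _ _ ⟨j, _⟩ => j.elim0
  | succ k ih =>
    intro φ h1 ⟨j, h2⟩ h3
    have key : ∀ᶠ z in γ.F, ∀ c, 𝒩.zv c = z → u c ≠ 0 →
        φ 0 z + u c * ∑ j : Fin k, φ j.succ z * u c ^ (j : ℕ) = 0 := by
      refine h3.mono fun z hz c hc h0 => ?_
      rw [← hz c hc h0, Fin.sum_univ_succ, Finset.mul_sum]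
      simp only [Fin.val_zero, pow_zero, mul_one, Fin.val_succ, pow_succ]
      congr 1
      exact Finset.sum_congr rfl fun j _ => by ring
    rcases γ.dich (h1 0) with h0 | ⟨h0, h4⟩
    · refine ih (fun j => φ j.succ) (fun j => h1 _) ?_ ?_
      · rcases Fin.eq_zero_or_eq_succ j with rfl | ⟨j, rfl⟩
        · exact absurd h0 h2
        · exact ⟨j, h2⟩
      · refine (key.and h0).mono fun z hz c hc h5 => ?_
        have h6 := hz.1 c hc h5
        rw [hz.2, Pi.zero_apply, zero_add] at h6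
        exact (mul_eq_zero.1 h6).resolve_left h5
    · have h5 := Rg.smul (L2_neg γ h4) (Rg.sum (Finset.univ : Finset (Fin k)) fun j _ =>
        Rg.smul (h1 j.succ) (L2_pow hu j))
      refine (hu.mul (h5.mul h5)).congr ((key.and h0).mono fun z hz c hc => ?_)
      subst hc
      by_cases h6 : u c = 0
      · simp [h6]
      · have h7 := hz.1 c rfl h6
        have h8 := hz.2
        simp only [Pi.mul_apply, Pi.inv_apply, Pi.neg_apply, Finset.sum_apply, Pi.pow_apply]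
        generalize ∑ j : Fin k, φ j.succ (𝒩.zv c) * u c ^ (j : ℕ) = s at h7 ⊢
        have h9 : s = -φ 0 (𝒩.zv c) / u c := by
          field_simp
          linear_combination h7
        rw [h9]
        field_simp

theorem Rg.inv (hu : Rg γ 𝒩 u) : Rg γ 𝒩 u⁻¹ := by
  obtain ⟨φ, h1, h2, h3⟩ := L2_dep γ (d := 𝒩.m.natDegree)
    (fun j i => kap 𝒩 i (u ^ (j : ℕ))) fun j i => L2_pow hu j i
  refine L2_inv hu _ φ h1 h2 ((h3.and (γ.nz _ 𝒩.Δ_ne)).mono fun z hz c hc _ => ?_)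
  subst hc
  refine (mul_eq_zero.1 ?_).resolve_left hz.2
  have e (j : Fin (𝒩.m.natDegree + 1)) := kap_sum 𝒩 hz.2 (u ^ (j : ℕ))
  calc _ = ∑ j : Fin (𝒩.m.natDegree + 1), ∑ i : Fin 𝒩.m.natDegree,
        φ j (𝒩.zv c) * kap 𝒩 i (u ^ (j : ℕ)) (𝒩.zv c) * 𝒩.θv c ^ (i : ℕ) := by
        rw [Finset.mul_sum]
        refine Finset.sum_congr rfl fun j _ => ?_
        rw [mul_left_comm, ← Pi.pow_apply, ← e j, Finset.sum_range, Finset.mul_sum]
        simp only [mul_assoc]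
    _ = 0 := by
        rw [Finset.sum_comm]
        refine Finset.sum_eq_zero fun i _ => ?_
        rw [← Finset.sum_mul, hz.1 i, zero_mul]

end Pool.Agent.Work.MP_e120ef_ag.Br
end

-- merged part: Pool.Agent.Work.MP_e120ef_ag.Br.L3
section
/-! Locality: a function that is near every point over `γ.τ` a rational expression in analytic
functions has its push-forwards in `γ`.

Plan.  The fibre `T` over `γ.τ` is finite; take pairwise disjoint neighbourhoods `W ξ`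
(`Set.Finite.exists_pairwise_disjoint`-like: `Set.Finite.t2_separation`), shrunk into the given
`N ξ`.  `ε ξ c = 1` if `Sn.of c ∈ W ξ`, else `0`.  By induction on `Loc ξ v`, `Rg γ 𝒩 (ε ξ * v)`:
for `Ac ξ v` the function `ε ξ * v` is `Ac` at every point of `T` (`Ac.congr`, `Ac_elt _ 0`), so
`pf` and `γ.oc 𝒩.Δ_ne`; `ε (u + v) = ε u + ε v`, `ε (u v) = (ε u) (ε v)`, `ε u⁻¹ = (ε u)⁻¹`.
`proper` with `O = ⋃ W ξ` and `γ.le`, `pi_of`: eventually `u = ∑ ξ ∈ T, ε ξ * v ξ` on fibres. -/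

open Filter Topology

namespace Pool.Agent.Work.MP_e120ef_ag.Br

variable {K : Type} [NontriviallyNormedField K] {R : Type} [CommRing R] [Algebra K R] {L : Type}
  [NontriviallyNormedField L] [IsUltrametricDist L] [NormedAlgebra K L]

/-- rational expressions in functions analytic at `ξ` -/
inductive Loc (ξ : Sn K R) : ((R →ₐ[K] L) → L) → Prop
  | ac {u} : Ac ξ u → Loc ξ u
  | add {u v} : Loc ξ u → Loc ξ v → Loc ξ (u + v)
  | mul {u v} : Loc ξ u → Loc ξ v → Loc ξ (u * v)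
  | inv {u} : Loc ξ u → Loc ξ u⁻¹

theorem L3_const (ξ : Sn K R) :
    Loc ξ (fun _ : R →ₐ[K] L => (1 : L)) ∧ Loc ξ (fun _ : R →ₐ[K] L => (-1 : L)) := by
  constructor
  · have := Ac_elt (L := L) ξ (1 : R)
    simp only [map_one] at this
    exact .ac this
  · have := Ac_elt (L := L) ξ (-1 : R)
    simp only [map_neg, map_one] at this
    exact .ac this

/-- the indicator function of the common zeros of finitely many analytic functions -/
theorem Loc.ind {ξ : Sn K R} {k : ℕ} {u : Fin k → (R →ₐ[K] L) → L} (h : ∀ j, Ac ξ (u j)) :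
    ∃ e : (R →ₐ[K] L) → L, Loc ξ e ∧
      ∀ c, ((∀ j, u j c = 0) → e c = 1) ∧ (¬ (∀ j, u j c = 0) → e c = 0) := by
  induction k with
  | zero =>
    exact ⟨fun _ => 1, (L3_const ξ).1,
      fun c => ⟨fun _ => rfl, fun h => absurd (fun j => j.elim0) h⟩⟩
  | succ k ih =>
    obtain ⟨e, he, h1⟩ := ih (u := fun j => u j.succ) (fun j => h j.succ)
    refine ⟨e * ((fun _ => 1) + (fun _ => -1) * (u 0 * (u 0)⁻¹)),
      he.mul ((L3_const ξ).1.add ((L3_const ξ).2.mul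
        ((Loc.ac (h 0)).mul (Loc.ac (h 0)).inv))), fun c => ⟨fun hc => ?_, fun hc => ?_⟩⟩
    · have := (h1 c).1 fun j => hc j.succ
      simp [this, hc 0]
    · rw [Fin.forall_fin_succ, not_and_or] at hc
      rcases hc with hc | hc
      · simp [hc]
      · have := (h1 c).2 hc
        simp [this]

variable [IsUltrametricDist K] [IsAlgClosed K] [CharZero K] [IsAlgClosed L] {F : Type} [Field F]
  [Algebra K F] {B : Subalgebra K F} {n : ℕ} (𝒩 : H.ND B n) (γ : GC K n L)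

theorem L3_loc {ξ : Sn K B} {W : Set (Sn K B)} (hW : W ∈ 𝓝 ξ)
    (hW' : ∀ ξ', pi 𝒩 ξ' = γ.τ → ξ' ≠ ξ → Wᶜ ∈ 𝓝 ξ') {v : (B →ₐ[K] L) → L} (hv : Loc ξ v) :
    Rg γ 𝒩 (Set.indicator {c | Sn.of c ∈ W} v) := by
  induction hv with
  | @ac v hv =>
    intro i
    refine γ.oc 𝒩.Δ_ne (pf 𝒩 (fun ξ' hξ' => ?_) i)
    by_cases e : ξ' = ξ
    · subst e
      exact Ac.congr hv hW fun c hc => (Set.indicator_of_mem (s := {c | Sn.of c ∈ W}) hc v).symm
    · refine Ac.congr (Ac_elt ξ' (0 : B)) (hW' ξ' hξ' e) fun c hc => ?_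
      rw [map_zero, Set.indicator_of_notMem (s := {c | Sn.of c ∈ W}) hc]
  | @add u v _ _ h1 h2 =>
    have := h1.add h2
    convert this using 1
    funext c
    by_cases hc : c ∈ {c : B →ₐ[K] L | Sn.of c ∈ W}
    · simp only [Pi.add_apply, Set.indicator_of_mem hc]
    · simp only [Pi.add_apply, Set.indicator_of_notMem hc, add_zero]
  | @mul u v _ _ h1 h2 =>
    have := h1.mul h2
    convert this using 1
    funext c
    by_cases hc : c ∈ {c : B →ₐ[K] L | Sn.of c ∈ W}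
    · simp only [Pi.mul_apply, Set.indicator_of_mem hc]
    · simp only [Pi.mul_apply, Set.indicator_of_notMem hc, mul_zero]
  | @inv u _ h1 =>
    have := h1.inv
    convert this using 1
    funext c
    by_cases hc : c ∈ {c : B →ₐ[K] L | Sn.of c ∈ W}
    · simp only [Pi.inv_apply, Set.indicator_of_mem hc]
    · simp only [Pi.inv_apply, Set.indicator_of_notMem hc, inv_zero]

theorem loc_Rg {u : (B →ₐ[K] L) → L} (h : ∀ ξ, pi 𝒩 ξ = γ.τ → ∃ v, Loc ξ v ∧ ∃ N ∈ 𝓝 ξ,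
    ∀ᶠ z in γ.F, ∀ c, 𝒩.zv c = z → Sn.of c ∈ N → u c = v c) : Rg γ 𝒩 u := by
  classical
  choose! v hv N hN he using h
  have hT := fib_finite 𝒩 γ.τ
  obtain ⟨U, hU, hd⟩ := hT.t2_separation
  have hW : ∀ ξ, pi 𝒩 ξ = γ.τ → U ξ ∩ N ξ ∈ 𝓝 ξ := fun ξ hξ =>
    inter_mem ((hU ξ).2.mem_nhds (hU ξ).1) (hN ξ hξ)
  have hR : Rg γ 𝒩 (∑ ξ ∈ hT.toFinset, Set.indicator {c | Sn.of c ∈ U ξ ∩ N ξ} (v ξ)) := by
    refine Rg.sum _ fun ξ hξ => ?_
    have hξ' : pi 𝒩 ξ = γ.τ := hT.mem_toFinset.1 hξ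
    refine L3_loc 𝒩 γ (hW ξ hξ') (fun ξ' h1 h2 => ?_) (hv ξ hξ')
    refine mem_of_superset ((hU ξ').2.mem_nhds (hU ξ').1) fun x hx hx' => ?_
    exact Set.disjoint_left.1 (hd h1 hξ' h2) hx hx'.1
  obtain ⟨M, hM, hM'⟩ := proper 𝒩 (τ := γ.τ) (O := ⋃ ξ ∈ hT.toFinset, U ξ ∩ N ξ)
    fun ξ hξ => mem_of_superset (hW ξ hξ)
      (Set.subset_biUnion_of_mem (u := fun ξ => U ξ ∩ N ξ) (hT.mem_toFinset.2 hξ))
  have h2 : ∀ᶠ z in γ.F, ∀ ξ ∈ hT.toFinset, ∀ c, 𝒩.zv c = z → Sn.of c ∈ N ξ → u c = v ξ c :=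
    (eventually_all_finset _).2 fun ξ hξ => he ξ (hT.mem_toFinset.1 hξ)
  refine hR.congr ?_
  filter_upwards [h2, γ.le hM] with z hz hzM c hc
  have h3 := hM' (Sn.of c) (by rw [pi_of, hc]; exact hzM)
  obtain ⟨ξ, hξ, h4⟩ := Set.mem_iUnion₂.1 h3
  rw [Finset.sum_apply, Finset.sum_eq_single_of_mem ξ hξ]
  · rw [Set.indicator_of_mem (s := {c | Sn.of c ∈ U ξ ∩ N ξ}) h4, hz ξ hξ c hc h4.2]
  · intro ξ' hξ' hne
    refine Set.indicator_of_notMem (s := {c | Sn.of c ∈ U ξ' ∩ N ξ'}) (fun h5 => ?_) _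
    exact Set.disjoint_left.1 (hd (hT.mem_toFinset.1 hξ') (hT.mem_toFinset.1 hξ) hne) h5.1 h4.1

end Pool.Agent.Work.MP_e120ef_ag.Br
end

-- merged part: Pool.Agent.Work.MP_e120ef_ag.Br.N0
section
/-! The identity theorem: a set locally cut out by analytic functions that misses a neighbourhood
of one rational point is thin.

Plans.  `approach`: `op` gives `N'`, `cont_pz` at the image of `𝒩.zv e` (`pi_of`, `Sn.of_comp`)
gives `δ`, `𝒞.near` with `S = {z | ∀ c, zv c = z → ¬ bad c}`.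
`common`: `𝒞.ext` for each `kap i u`, `i < d`, common denominator `b = ∏ b i`; put
`Q = ∑ C (a i * ∏_{j ≠ i} b j) * X ^ i`; `kap_sum`.
`nd`: `e` = indicator of `bad`; `Loc.ind`, `loc_Rg`, `γ.big`; `common` gives `Q`, `b`; with
`D = C (b * toE Δ)`, `Q (Q - D)` vanishes at all `(z, θ c)`; its remainder modulo the monic `𝒩.mE`
has degree `< d`, so its image under `evE z` is zero (`fib_zero`, `ND.root_v`) eventually along any
`γ ∈ Fam` (there is one, by `𝒞.near` with `S = ∅`), so the coefficients vanish (`𝒞.nz`, `γ.ne`).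
`H.exists_MI'` gives a field `M` with `dvd`: `Q(Jθ) (Q - D)(Jθ) = 0` (`H.MI_root`), so `mE ∣ Q` or
`mE ∣ Q - D`.  Hence `e = 0`, or `e = 1`, on fibres eventually along all `γ` (`𝒞.nz` for
`b * toE Δ`).  In the second case `fun c => ¬ bad c` is thin and `approach` contradicts `hgood`. -/

open Filter Topology Polynomial

namespace Pool.Agent.Work.MP_e120ef_ag.Br

variable {K : Type} [NontriviallyNormedField K] [IsUltrametricDist K] [CompleteSpace K]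
  [IsAlgClosed K] [CharZero K] {F : Type} [Field F] [Algebra K F] {B : Subalgebra K F} {n : ℕ}
  (𝒩 : H.ND B n) {L : Type} [NontriviallyNormedField L] [IsUltrametricDist L] [CompleteSpace L]
  [NormedAlgebra K L] [IsAlgClosed L] (𝒞 : Core K n L)

/-- `bad` fails at all points over `z`, eventually along every filter of the family -/
def Thin (bad : (B →ₐ[K] L) → Prop) : Prop :=
  ∀ γ ∈ 𝒞.Fam, ∀ᶠ z in γ.F, ∀ c, 𝒩.zv c = z → ¬ bad c

theorem approach {bad : (B →ₐ[K] L) → Prop} (h : Thin 𝒩 𝒞 bad) (e : B →ₐ[K] K)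
    {N : Set (Sn K B)} (hN : N ∈ 𝓝 (Sn.of e)) : ∃ c : B →ₐ[K] L, Sn.of c ∈ N ∧ ¬ bad c := by
  obtain ⟨N', hN', h1⟩ := op 𝒩 hN
  rw [← Sn.of_comp (L := L) e, pi_of] at hN'
  obtain ⟨δ, hδ, h2⟩ := Metric.mem_nhds_iff.1 (cont_pz.continuousAt.preimage_mem_nhds hN')
  obtain ⟨z, hz, h3⟩ := 𝒞.near (𝒩.zv e) {z | ∀ c, 𝒩.zv c = z → ¬ bad c} h δ hδ
  obtain ⟨c, h4, h5⟩ := h1 L z (h2 ((dist_pi_lt_iff hδ).2 fun i => by
    rw [dist_eq_norm]; exact h3 i))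
  exact ⟨c, h5, hz c h4⟩

theorem common {u : (B →ₐ[K] L) → L} (h : ∀ γ ∈ 𝒞.Fam, Rg γ 𝒩 u) :
    ∃ (Q : (H.Ent K (Fin n))[X]) (b : H.Ent K (Fin n)), b ≠ 0 ∧ Thin 𝒩 𝒞 fun c =>
      H.evE (𝒩.zv c) b * u c ≠ Q.eval₂ (H.evE (𝒩.zv c) : H.Ent K (Fin n) →ₐ[K] L) (𝒩.θv c) := by
  classical
  choose a b hb hab using fun i => 𝒞.ext (kap 𝒩 i u) fun γ hγ => h γ hγ i
  refine ⟨∑ i ∈ Finset.range 𝒩.m.natDegree,
    C (a i * ∏ j ∈ (Finset.range 𝒩.m.natDegree).erase i, b j) * X ^ i,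
    (∏ j ∈ Finset.range 𝒩.m.natDegree, b j) * H.toE 𝒩.Δ,
    mul_ne_zero (Finset.prod_ne_zero_iff.2 fun j _ => hb j)
      fun h0 => 𝒩.Δ_ne (H.toE_inj (h0.trans (map_zero _).symm)), fun γ hγ => ?_⟩
  filter_upwards [γ.nz _ 𝒩.Δ_ne, (eventually_all_finset (Finset.range 𝒩.m.natDegree)).2
    fun i _ => hab i γ hγ] with z h1 h2
  rintro c rfl
  rw [not_not, map_mul, H.evE_toE, mul_assoc, ← kap_sum 𝒩 h1, eval₂_finsetSum, Finset.mul_sum]
  refine Finset.sum_congr rfl fun i hi => ?_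
  rw [eval₂_mul, eval₂_C, eval₂_X_pow, ← Finset.mul_prod_erase _ _ hi, RingHom.coe_coe, map_mul,
    map_mul, ← h2 i hi]
  ring

theorem N0_root (c : B →ₐ[K] L) :
    𝒩.mE.eval₂ (H.evE (𝒩.zv c) : H.Ent K (Fin n) →ₐ[K] L) (𝒩.θv c) = 0 := by
  rw [H.ND.mE, eval₂_map, ← 𝒩.root_v c]
  congr 1
  exact RingHom.ext fun P => H.evE_toE P

theorem N0_dvd {P : (H.Ent K (Fin n))[X]} (h : Thin 𝒩 𝒞 fun c =>
    P.eval₂ (H.evE (𝒩.zv c) : H.Ent K (Fin n) →ₐ[K] L) (𝒩.θv c) ≠ 0) : 𝒩.mE ∣ P := by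
  have hm : 𝒩.mE.Monic := 𝒩.monic.map _
  obtain ⟨γ, hγ⟩ : ∃ γ, γ ∈ 𝒞.Fam := by
    by_contra h0
    obtain ⟨z, hz, -⟩ := 𝒞.near 0 ∅ (fun γ hγ => (h0 ⟨γ, hγ⟩).elim) 1 one_pos
    exact hz
  rw [← modByMonic_eq_zero_iff_dvd hm]
  ext1 i
  by_contra h0
  have := γ.ne
  obtain ⟨z, h1, h2, h3⟩ := ((𝒞.nz _ h0 γ hγ).and ((γ.nz _ 𝒩.Δ_ne).and (h γ hγ))).exists
  have h4 : (P %ₘ 𝒩.mE).map (RingHomClass.toRingHom (H.evE (K := K) z)) = 0 := by
    refine fib_zero 𝒩 h2 (degree_map_le.trans_lt ((degree_modByMonic_lt _ hm).trans_eq ?_)) ?_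
    · rw [H.ND.mE, 𝒩.monic.degree_map, degree_eq_natDegree 𝒩.monic.ne_zero]
    · rintro c rfl
      rw [eval_map, modByMonic_eq_sub_mul_div, eval₂_sub, eval₂_mul, N0_root, zero_mul, sub_zero]
      exact not_not.1 (h3 c rfl)
  have h5 := congrArg (coeff · i) h4
  simp only [coeff_map, coeff_zero] at h5
  exact h1 h5

theorem nd {bad : (B →ₐ[K] L) → Prop}
    (hloc : ∀ ξ : Sn K B, Big (pi 𝒩 ξ) → ∃ (k : ℕ) (u : Fin k → (B →ₐ[K] L) → L),
      (∀ j, Ac ξ (u j)) ∧ ∃ N ∈ 𝓝 ξ, ∀ c, Sn.of c ∈ N → (bad c ↔ ∀ j, u j c = 0))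
    (hgood : ∃ e : B →ₐ[K] K, ∃ N ∈ 𝓝 (Sn.of e), ∀ c : B →ₐ[K] L, Sn.of c ∈ N → ¬ bad c) :
    Thin 𝒩 𝒞 bad := by
  classical
  obtain ⟨Q, b, hb, h1⟩ := common 𝒩 𝒞 (u := fun c => if bad c then 1 else 0) fun γ _ =>
    loc_Rg 𝒩 γ fun ξ hξ => by
      obtain ⟨k, u, hu, N, hN, h2⟩ := hloc ξ (hξ ▸ γ.big)
      obtain ⟨v, hv, h3⟩ := Loc.ind hu
      refine ⟨v, hv, N, hN, Eventually.of_forall fun z c _ hc => ?_⟩
      split_ifs with h4
      · exact ((h3 c).1 ((h2 c hc).1 h4)).symm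
      · exact ((h3 c).2 fun h5 => h4 ((h2 c hc).2 h5)).symm
  have h2 : 𝒩.mE ∣ Q * (Q - C b) := N0_dvd 𝒩 𝒞 fun γ hγ => by
    filter_upwards [h1 γ hγ] with z hz c hc
    rw [not_not, eval₂_mul, eval₂_sub, eval₂_C, ← not_not.1 (hz c hc)]
    split_ifs <;> simp
  obtain ⟨M, _, _, ⟨𝓜⟩⟩ := H.exists_MI' 𝒩
  have h3 : (Q * (Q - C b)).eval₂ 𝓜.E.toRingHom (𝓜.J 𝒩.θ) = 0 := by
    obtain ⟨R, hR⟩ := h2
    rw [hR, eval₂_mul, H.MI_root 𝒩 𝓜.E 𝓜.J fun l => by rw [𝓜.compat, MvPolynomial.aeval_X],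
      zero_mul]
  have h4 : ∀ P : (H.Ent K (Fin n))[X], P.eval₂ 𝓜.E.toRingHom (𝓜.J 𝒩.θ) = 0 → ∀ c : B →ₐ[K] L,
      P.eval₂ (H.evE (𝒩.zv c) : H.Ent K (Fin n) →ₐ[K] L) (𝒩.θv c) = 0 := fun P hP c => by
    obtain ⟨R, hR⟩ := 𝓜.dvd P hP
    rw [hR, eval₂_mul, N0_root, zero_mul]
  rw [eval₂_mul] at h3
  rcases mul_eq_zero.1 h3 with h5 | h5
  · intro γ hγ
    filter_upwards [h1 γ hγ, 𝒞.nz b hb γ hγ] with z k1 k2
    rintro c rfl hc
    have k3 := not_not.1 (k1 c rfl)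
    rw [h4 Q h5, if_pos hc, mul_one] at k3
    exact k2 k3
  · obtain ⟨e, N, hN, h6⟩ := hgood
    obtain ⟨c, h7, h8⟩ := approach 𝒩 𝒞 (bad := fun c => ¬ bad c) (fun γ hγ => by
      filter_upwards [h1 γ hγ, 𝒞.nz b hb γ hγ] with z k1 k2
      rintro c rfl hc
      have k3 := not_not.1 (k1 c rfl)
      have k4 := h4 _ h5 c
      rw [eval₂_sub, eval₂_C, ← k3, if_neg hc, mul_zero, zero_sub, neg_eq_zero] at k4
      exact k2 k4) e hN
    exact (h8 (h6 c h7)).elim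

end Pool.Agent.Work.MP_e120ef_ag.Br
end

-- merged part: Pool.Agent.Work.MP_e120ef_ag.Br.N1
section
/-! Finitely many locally meromorphic functions are quotients of entire functions.

Plans.  `cont_evE`: uniform limit on bounded sets of the finite sums (`H.hasSum_ev`,
`H.norm_ev_le`; `continuous_tsum`-like on balls, or `TendstoLocallyUniformly`).
`ent_rename`: the series with coefficient `coeff J a` at `I = J.mapDomain f` and `0` elsewhere;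
use `H.ent_of_hasSum` only for `K`-points (that is all that is claimed), `Function.Injective.hasSum_iff`.
`tl`: `loc_Rg` (with `v = α * β⁻¹`), `common` for each `i`; `b = ∏ b i`; `s = Fin.snoc z θ`;
`a i` = the entire function `(∏_{j ≠ i} b j) * ∑ Q.coeff k * X_last ^ k` built with `ent_rename` and
`toE (X (Fin.last n))`.  Nonvanishing: `H.ent_exists`, `ND.lying`.  At a rational point `e` with
`Ac (Sn.of e) (g i)`: the filter `comap Sn.of (𝓝 (Sn.of e)) ⊓ 𝓟 {c | identity holds}` is nontrivial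
by `approach`; pass to the limit with `Sn.tendsto_Ac`, `Sn.tendsto_of`, `cont_evE`, and use
`H.ev_map` for `Algebra.ofId K L`. -/

open Filter Topology Polynomial

namespace Pool.Agent.Work.MP_e120ef_ag.Br

variable {K : Type} [NontriviallyNormedField K] [IsUltrametricDist K] [CompleteSpace K]

theorem cont_evE {L : Type} [NontriviallyNormedField L] [IsUltrametricDist L] [CompleteSpace L]
    [NormedAlgebra K L] {r : ℕ} (a : H.Ent K (Fin r)) :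
    Continuous fun z : Fin r → L => H.evE z a := by
  refine continuous_iff_continuousAt.2 fun z₀ => ?_
  have hU : TendstoUniformlyOn (fun (t : Finset (Fin r →₀ ℕ)) (z : Fin r → L) =>
      ∑ I ∈ t, algebraMap K L (MvPowerSeries.coeff I a.1) * H.mon z I) (fun z => H.evE z a) atTop
      (Metric.ball 0 (‖z₀‖ + 1)) := by
    refine Metric.tendstoUniformlyOn_iff.2 fun ε hε => ?_
    have h1 := Filter.eventually_cofinite.1
      (Tendsto.eventually (a.2 fun _ => ‖z₀‖ + 1) (gt_mem_nhds (half_pos hε)))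
    filter_upwards [eventually_ge_atTop h1.toFinset] with t ht z hz
    have hs := H.hasSum_ev (F := a.1) (z := z) (a.2 _)
    rw [dist_eq_norm, H.evE_apply, H.ev, ← hs.summable.sum_add_tsum_compl (s := t),
      add_sub_cancel_left]
    refine (IsUltrametricDist.norm_tsum_le_of_forall_le_of_nonneg (half_pos hε).le
      fun I => ?_).trans_lt (half_lt_self hε)
    rw [H.Ent_norm_term]
    refine le_trans ?_ (not_not.1 fun k => I.2 (ht (h1.mem_toFinset.2 k))).le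
    exact mul_le_mul_of_nonneg_left (Finset.prod_le_prod (fun _ _ => by positivity) fun s _ =>
      pow_le_pow_left₀ (norm_nonneg _)
        ((norm_le_pi_norm z s).trans (mem_ball_zero_iff.1 hz).le) _) (norm_nonneg _)
  refine (hU.continuousOn (Frequently.of_forall fun t => Continuous.continuousOn ?_)).continuousAt
    (Metric.isOpen_ball.mem_nhds (by simp))
  exact continuous_finsetSum _ fun I _ => continuous_const.mul
    (continuous_finsetProd _ fun s _ => (continuous_apply s).pow _)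

theorem N1_sum {r : ℕ} (a : H.Ent K (Fin r)) (z : Fin r → K) :
    HasSum (fun I => MvPowerSeries.coeff I a.1 * H.mon z I) (H.evE z a) :=
  H.hasSum_ev (F := a.1) (z := z) (a.2 _)

omit [IsUltrametricDist K] [CompleteSpace K] in
theorem N1_mon {r : ℕ} (z : Fin r → K) (I : Fin r →₀ ℕ) : ∏ i, z i ^ I i = H.mon z I :=
  (Finsupp.prod_fintype _ _ fun _ => pow_zero _).symm

theorem ent_rename {r r' : ℕ} {f : Fin r → Fin r'} (hf : Function.Injective f)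
    (a : H.Ent K (Fin r)) : ∃ a' : H.Ent K (Fin r'), ∀ z : Fin r' → K,
      H.evE z a' = H.evE (fun i => z (f i)) a := by
  have hg := Finsupp.mapDomain_injective (M := ℕ) hf
  refine H.ent_of_hasSum (c := Function.extend (Finsupp.mapDomain f)
    (fun J => MvPowerSeries.coeff J a.1) 0) fun z => (hg.hasSum_iff fun I hI => ?_).1 ?_
  · rw [Function.extend_apply' _ _ _ hI, Pi.zero_apply, zero_mul]
  · convert N1_sum a fun i => z (f i) using 2 with J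
    rw [Function.comp_apply, hg.extend_apply, N1_mon, H.mon, Finsupp.prod_mapDomain_index_inj hf]
    rfl

theorem entire_evE {r : ℕ} (a : H.Ent K (Fin r)) : H.Entire fun z : Fin r → K => H.evE z a := by
  exact ⟨fun I => MvPowerSeries.coeff I a.1, fun z => by simpa only [N1_mon] using N1_sum a z⟩

variable [IsAlgClosed K] [CharZero K] {F : Type} [Field F] [Algebra K F] {B : Subalgebra K F}
  {n : ℕ} (𝒩 : H.ND B n) {L : Type} [NontriviallyNormedField L] [IsUltrametricDist L]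
  [CompleteSpace L] [NormedAlgebra K L] [IsAlgClosed L] (𝒞 : Core K n L)

omit [IsAlgClosed K] [CharZero K] [IsAlgClosed L] in
theorem N1_lim (e : B →ₐ[K] K) (x : H.Ent K (Fin n)) :
    Tendsto (fun c : B →ₐ[K] L => H.evE (𝒩.zv c) x) (Filter.comap Sn.of (𝓝 (Sn.of e)))
      (𝓝 (algebraMap K L (H.evE (𝒩.zv e) x))) := by
  have h := H.ev_map (F := x.1) (z := 𝒩.zv e) (Algebra.ofId K L) (norm_algebraMap' L) (x.2 _)
  refine h ▸ ((cont_evE x).tendsto _).comp (tendsto_pi_nhds.2 fun l => ?_)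
  exact Sn.tendsto_of e _

theorem N1_at {u : (B →ₐ[K] L) → L} {Q : (H.Ent K (Fin n))[X]} {b : H.Ent K (Fin n)}
    (h : Thin 𝒩 𝒞 fun c => H.evE (𝒩.zv c) b * u c ≠
      Q.eval₂ (H.evE (𝒩.zv c) : H.Ent K (Fin n) →ₐ[K] L) (𝒩.θv c))
    (e : B →ₐ[K] K) (hu : Ac (Sn.of e) u) :
    algebraMap K L (H.evE (𝒩.zv e) b) * u ((Algebra.ofId K L).comp e) =
      ∑ k ∈ Q.support, algebraMap K L (H.evE (𝒩.zv e) (Q.coeff k)) *
        algebraMap K L (𝒩.θv e) ^ k := by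
  refine tendsto_nhds_unique_of_frequently_eq ((N1_lim 𝒩 e b).mul (Sn.tendsto_Ac e hu))
    (tendsto_finsetSum _ fun k _ => (N1_lim 𝒩 e _).mul ((Sn.tendsto_of e _).pow k)) fun hn => ?_
  obtain ⟨N, hN, h1⟩ := Filter.mem_comap.1 hn
  obtain ⟨c, h2, h3⟩ := approach 𝒩 𝒞 h e hN
  exact h1 h2 ((not_not.1 h3).trans eval₂_eq_sum)

theorem tl {ι : Type} [Fintype ι] (g : ι → (B →ₐ[K] L) → L)
    (hloc : ∀ (i : ι) (ξ : Sn K B), Big (pi 𝒩 ξ) → ∃ (α β : (B →ₐ[K] L) → L)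
      (bad : (B →ₐ[K] L) → Prop), Ac ξ α ∧ Ac ξ β ∧ Thin 𝒩 𝒞 bad ∧
        ∃ N ∈ 𝓝 ξ, ∀ c, Sn.of c ∈ N → ¬ bad c → g i c = α c / β c) :
    ∃ (r : ℕ) (s : Fin r → B) (a : ι → H.Ent K (Fin r)) (b : H.Ent K (Fin r)),
      (∃ e : B →ₐ[K] K, H.evE (fun l => e (s l)) b ≠ 0) ∧
      ∀ (i : ι) (e : B →ₐ[K] K), Ac (Sn.of e) (g i) →
        algebraMap K L (H.evE (fun l => e (s l)) b) * g i ((Algebra.ofId K L).comp e) =
          algebraMap K L (H.evE (fun l => e (s l)) (a i)) := by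
  classical
  have h1 : ∀ i, ∀ γ ∈ 𝒞.Fam, Rg γ 𝒩 (g i) := fun i γ hγ => loc_Rg 𝒩 γ fun ξ hξ => by
    obtain ⟨α, β, bad, hα, hβ, ht, N, hN, hg⟩ := hloc i ξ (hξ ▸ γ.big)
    exact ⟨α * β⁻¹, (Loc.ac hα).mul (Loc.ac hβ).inv, N, hN, (ht γ hγ).mono fun z hz c hc hc' =>
      (hg c hc' (hz c hc)).trans (div_eq_mul_inv _ _)⟩
  choose Q b hb ht using fun i => common 𝒩 𝒞 (h1 i)
  choose ρ hρ using fun x : H.Ent K (Fin n) => ent_rename (Fin.castSucc_injective n) x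
  let s : Fin (n + 1) → B := Fin.snoc 𝒩.ND_z ⟨𝒩.θ, 𝒩.θ_mem⟩
  have h2 : ∀ (e : B →ₐ[K] K) x, H.evE (fun l => e (s l)) (ρ x) = H.evE (𝒩.zv e) x := by
    intro e x
    simp only [hρ, s, Fin.snoc_castSucc]
    rfl
  refine ⟨n + 1, s, fun i => ρ (∏ j ∈ Finset.univ.erase i, b j) * ∑ k ∈ (Q i).support,
    ρ ((Q i).coeff k) * H.toE (MvPolynomial.X (Fin.last n)) ^ k, ρ (∏ j, b j), ?_, fun i e he => ?_⟩
  · obtain ⟨z, hz⟩ := H.ent_exists (Finset.prod_ne_zero_iff.2 fun j (_ : j ∈ Finset.univ) => hb j)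
    obtain ⟨e, rfl⟩ := 𝒩.lying z
    exact ⟨e, by rwa [h2]⟩
  · have h3 : e (s (Fin.last n)) = 𝒩.θv e := by
      simp only [s, Fin.snoc_last]
      rfl
    rw [h2, ← Finset.prod_erase_mul _ _ (Finset.mem_univ i), map_mul, map_mul, mul_assoc,
      N1_at 𝒩 𝒞 (ht i) e he]
    simp only [map_mul, map_sum, map_pow, h2, H.evE_toE, MvPolynomial.aeval_X, h3]

end Pool.Agent.Work.MP_e120ef_ag.Br
end

-- merged part: Pool.Agent.Work.MP_e120ef_ag.Br.G4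
section
/-!
# The preimage of a proper closed subset is thin; pull-backs are quotients of entire functions
-/

open CategoryTheory AlgebraicGeometry Filter Topology

namespace Pool.Agent.Work.MP_e120ef_ag.Br

theorem G4_gen {K : Type} [Field K] {X : Sch K} [IsIntegral X.left] [LocallyOfFiniteType X.hom]
    {U : X.left.Opens} (hU : IsAffineOpen U) (hg : gp X ∈ U) (V : X.left.Opens) :
    ∃ (k : ℕ) (u : Fin k → Fn X), (∀ j, u j ∈ B X U) ∧
      ∀ x ∈ U, (x ∉ V ↔ ∀ j, u j ∈ mp X x 1) := by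
  have := H.lft_finiteType hU hg
  have : IsNoetherianRing (B X U) := Algebra.FiniteType.isNoetherianRing K _
  obtain ⟨I, hI⟩ : ∃ I : Ideal (B X U), ∀ b, b ∈ I ↔ ∀ x ∈ U, x ∉ V → (b : Fn X) ∈ mp X x 1 :=
    ⟨⨅ (x : X.left) (h : x ∈ U) (_ : x ∉ V), pr h, fun b => by
      simp only [Submodule.mem_iInf, mem_pr]⟩
  obtain ⟨k, u, hu⟩ := Submodule.fg_iff_exists_fin_generating_family.1 (IsNoetherian.noetherian I)
  refine ⟨k, fun j => u j, fun j => (u j).2, fun x hx => ⟨fun h j => ?_, fun h hV => ?_⟩⟩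
  · exact (hI _).1 (hu.le (Submodule.subset_span ⟨j, rfl⟩)) x hx h
  · obtain ⟨b, hb, h1, h2⟩ := aff_exists_basic hU hx hV
    have h3 : Submodule.span (B X U) (Set.range u) ≤ pr hx :=
      Submodule.span_le.2 (Set.range_subset_iff.2 fun j => (mem_pr hx _).2 (h j))
    refine h1.2 ((mem_pr hx ⟨b, hb⟩).1 (h3 (hu.ge ((hI _).2 fun y hy hy' => ?_))))
    by_contra h4
    exact hy' (h2 ⟨hy, B_le_O hy hb, h4⟩)

variable {K : Type} [NontriviallyNormedField K] [IsUltrametricDist K] [CompleteSpace K]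
  [IsAlgClosed K] [CharZero K] {G X : Sch K} [IsIntegral G.left] [IsIntegral X.left]
  [LocallyOfFiniteType G.hom] [LocallyOfFiniteType X.hom] {𝒰 : Set (An G)}

variable (𝒰) in
/-- the hypotheses on the domain and the image -/
structure Hyp (f : Mor 𝒰 X) : Prop where
  op : IsOpen 𝒰
  cod : ∀ ζ ∉ 𝒰, ∀ (m : ℕ) (t : Fin m → ζ.H), Gen K t →
    (m : Cardinal) + 2 ≤ Algebra.trdeg K (Fn G)
  den : DenseRange fun ζ => (f.f ζ).pt

variable {f : Mor 𝒰 X} (hf : Hyp 𝒰 f) {W : G.left.Opens} (hW : IsAffineOpen W) (hg : gp G ∈ W)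
  {n : ℕ} (𝒩 : H.ND (B G W) n) {L : Type} [NontriviallyNormedField L] [IsUltrametricDist L]
  [CompleteSpace L] [NormedAlgebra K L] [IsAlgClosed L] (𝒞 : Core K n L)

include hf

theorem thin_bad {V : X.left.Opens} (hV : gp X ∈ V) :
    Thin 𝒩 𝒞 fun c => io hW hg (Sn.of c) ∉ f.good V := by
  refine nd 𝒩 𝒞 (fun ξ hξ => ?_) ?_
  · have h := big_mem hW hg hf.cod 𝒩 hξ
    obtain ⟨U, hU, hx, -⟩ := exists_aff (W := ⊤) (x := (f.f ⟨_, h⟩).pt) trivial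
    obtain ⟨k, u, h1, h2⟩ := G4_gen hU (gp_mem hx) V
    refine ⟨k, fun j => f.g hW hg (u j), fun j => f.g_Ac hW hg ⟨h, B_le_O hx (h1 j)⟩,
      io hW hg ⁻¹' f.good U, (cont_io hW hg).continuousAt
        ((f.good_open hf.op U).mem_nhds ⟨h, hx⟩), fun c hc => ?_⟩
    obtain ⟨h3, h4⟩ := hc
    refine Iff.trans ⟨fun h5 h6 => h5 ⟨h3, h6⟩, fun h5 h6 => h5 h6.snd⟩ ((h2 _ h4).trans
      (forall_congr' fun j => ?_))
    rw [← Mor.Y_eq_zero h3 (B_le_O h4 (h1 j))]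
    exact (map_eq_zero _).symm
  · obtain ⟨e, he⟩ := f.good_pt hW hg hf.op hf.den hV
    exact ⟨e, io hW hg ⁻¹' f.good V,
      (cont_io hW hg).continuousAt ((f.good_open hf.op V).mem_nhds he), fun c hc => not_not.2 hc⟩

include 𝒩 𝒞 in
theorem tl_Y {ι : Type} [Fintype ι] (y : ι → Fn X) :
    ∃ (r : ℕ) (s : Fin r → B G W) (a : ι → H.Ent K (Fin r)) (b : H.Ent K (Fin r)),
      (∃ e : B G W →ₐ[K] K, H.evE (fun l => e (s l)) b ≠ 0) ∧
      ∀ (i : ι) (e : B G W →ₐ[K] K), io hW hg (Sn.of e) ∈ f.good (reg (y i)) →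
        algebraMap K _ (H.evE (fun l => e (s l)) b) * f.Y (y i) (io hW hg (Sn.of e)) =
          algebraMap K _ (H.evE (fun l => e (s l)) (a i)) := by
  obtain ⟨r, s, a, b, h1, h2⟩ := tl 𝒩 𝒞 (fun i => f.g hW hg (y i)) fun i ξ hξ => by
    have h := big_mem hW hg hf.cod 𝒩 hξ
    obtain ⟨U, hU, hx, -⟩ := exists_aff (W := ⊤) (x := (f.f ⟨_, h⟩).pt) trivial
    obtain ⟨b, hb, h0, hby⟩ := aff_frac_field hU (gp_mem hx) (y i)
    refine ⟨f.g hW hg (b * y i), f.g hW hg b, _, f.g_Ac hW hg ⟨h, B_le_O hx hby⟩,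
      f.g_Ac hW hg ⟨h, B_le_O hx hb⟩, thin_bad hf hW hg 𝒩 𝒞 (V := ul b) (isU_gp.2 h0),
      io hW hg ⁻¹' f.good U, (cont_io hW hg).continuousAt
        ((f.good_open hf.op U).mem_nhds ⟨h, hx⟩), fun c hc hc' => ?_⟩
    rw [Mor.g, Mor.Y_div (not_not.1 hc') ⟨hc.fst, B_le_O hc.snd hby⟩, map_div₀]
    rfl
  refine ⟨r, s, a, b, h1, fun i e he => ?_⟩
  have h3 := h2 i e (f.g_Ac hW hg he)
  rw [← Sn.of_comp (L := L) e]
  refine (jc hW hg ((Algebra.ofId K L).comp e)).injective ?_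
  exact (map_mul _ _ _).trans ((congrArg (· * _) (AlgHom.commutes _ _)).trans
    (h3.trans (AlgHom.commutes _ _).symm))

include 𝒩 𝒞 in
theorem good_near {V : X.left.Opens} (hV : gp X ∈ V) (e : B G W →ₐ[K] K) {O : Set (An G)}
    (hO : IsOpen O) (h : io hW hg (Sn.of e) ∈ O) :
    ∃ ζ ∈ O, IsClosed ({ζ.pt} : Set G.left) ∧ ζ ∈ f.good V := by
  obtain ⟨c, h1, h2⟩ := approach 𝒩 𝒞 (thin_bad hf hW hg 𝒩 𝒞 hV) e
    ((cont_io hW hg).continuousAt (hO.mem_nhds h))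
  obtain ⟨e', h3⟩ := Mor.G3_open hW hg (hO.inter (f.good_open hf.op V)) ⟨h1, not_not.1 h2⟩
  obtain ⟨p, h4, h5, h6⟩ := H.lft_point hW hg e'
  exact ⟨_, h3.1, (io_pt hW hg h4 h6).symm ▸ h5, h3.2⟩

end Pool.Agent.Work.MP_e120ef_ag.Br
end

-- merged part: Pool.Agent.Work.MP_e120ef_ag.Br.G5
section
/-!
# Limits of pull-backs at closed points
-/

open CategoryTheory AlgebraicGeometry Filter Topology

namespace Pool.Agent.Work.MP_e120ef_ag.Br

variable {K : Type} [NontriviallyNormedField K] {G X : Sch K} [IsIntegral X.left]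
  {𝒰 : Set (An G)} (f : Mor 𝒰 X)

/-- rational points near `p` whose image avoids any given proper closed subset -/
noncomputable def Mor.flt (p : G.left) : Filter (An G) :=
  ⨅ V : {V : X.left.Opens // gp X ∈ V},
    𝓝ˢ {ζ | ζ.pt = p} ⊓ 𝓟 {ζ | IsClosed ({ζ.pt} : Set G.left) ∧ ζ ∈ f.good V}

/-- the pull-back of `y` tends to `c` at `p` -/
def Mor.Lim (p : G.left) (y : Fn X) (c : K) : Prop :=
  Tendsto (fun ζ : An G => ‖f.Y y ζ - algebraMap K ζ.H c‖) (f.flt p) (𝓝 0)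

variable {f} {p : G.left} {y y' : Fn X} {c c' : K}

theorem flt_good {V : X.left.Opens} (hV : gp X ∈ V) :
    ∀ᶠ ζ in f.flt p, IsClosed ({ζ.pt} : Set G.left) ∧ ζ ∈ f.good V :=
  mem_iInf_of_mem ⟨V, hV⟩ (mem_inf_of_right (mem_principal_self _))

theorem flt_le : f.flt p ≤ 𝓝ˢ {ζ | ζ.pt = p} := (iInf_le _ ⟨⊤, trivial⟩).trans inf_le_left

theorem gp_reg (y : Fn X) : gp X ∈ reg y := by
  rw [mem_reg, O_gp]
  trivial

theorem flt_reg (y : Fn X) : ∀ᶠ ζ in f.flt p, ζ ∈ f.good (reg y) :=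
  (flt_good (gp_reg y)).mono fun _ h => h.2

theorem Mor.Lim.add (h : f.Lim p y c) (h' : f.Lim p y' c') : f.Lim p (y + y') (c + c') := by
  have h1 := Tendsto.add h h'
  rw [add_zero] at h1
  refine squeeze_zero' (.of_forall fun _ => norm_nonneg _) ?_ h1
  filter_upwards [flt_reg (f := f) y, flt_reg (f := f) y'] with ζ h2 h3
  rw [Mor.Y_add h2 h3, map_add, add_sub_add_comm]
  exact norm_add_le _ _

theorem Mor.Lim.mul (h : f.Lim p y c) (h' : f.Lim p y' c') : f.Lim p (y * y') (c * c') := by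
  have h1 := ((Tendsto.mul h h').add (Tendsto.const_mul ‖c‖ h')).add (Tendsto.const_mul ‖c'‖ h)
  rw [mul_zero, mul_zero, mul_zero, add_zero, add_zero] at h1
  refine squeeze_zero' (.of_forall fun _ => norm_nonneg _) ?_ h1
  filter_upwards [flt_reg (f := f) y, flt_reg (f := f) y'] with ζ h2 h3
  rw [Mor.Y_mul h2 h3, map_mul, ← ζ.norm_alg c, ← ζ.norm_alg c', ← norm_mul, ← norm_mul, ← norm_mul]
  refine le_trans (le_of_eq (congrArg norm ?_)) norm_add₃_le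
  ring

theorem lim_alg (p : G.left) (c : K) : f.Lim p (algebraMap K (Fn X) c) c := by
  refine tendsto_const_nhds.congr' ?_
  filter_upwards [flt_reg (f := f) 0] with ζ h
  rw [Mor.Y_alg h.fst, sub_self, norm_zero]

theorem Mor.Lim.unique (hp : (f.flt p).NeBot) (h : f.Lim p y c) (h' : f.Lim p y c') : c = c' := by
  have h1 := Tendsto.add h h'
  rw [add_zero] at h1
  refine sub_eq_zero.1 (norm_le_zero_iff.1 (ge_of_tendsto' h1 fun ζ => ?_))
  rw [← ζ.norm_alg, map_sub, norm_sub_rev (f.Y y ζ)]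
  exact norm_sub_le_norm_sub_add_norm_sub _ _ _

variable [IsUltrametricDist K] [CompleteSpace K] [IsAlgClosed K] [CharZero K] [IsIntegral G.left]
  [LocallyOfFiniteType G.hom] [LocallyOfFiniteType X.hom]

variable (K) in
/-- the output of the analytic part in all dimensions -/
def HasCore : Prop := ∀ n, ∃ (L : Type) (_ : NontriviallyNormedField L) (_ : IsUltrametricDist L)
  (_ : CompleteSpace L) (_ : IsAlgClosed L) (_ : NormedAlgebra K L), Nonempty (Core K n L)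

theorem flt_neBot (hc : HasCore K) (hf : Hyp 𝒰 f) (hp : IsClosed ({p} : Set G.left)) :
    (f.flt p).NeBot := by
  obtain ⟨W, hW, hpW, -⟩ := exists_aff (W := ⊤) (x := p) trivial
  have hg := gp_mem hpW
  have := H.lft_finiteType hW hg
  obtain ⟨n, ⟨𝒩⟩⟩ := H.exists_ND (B G W) (aff_frac_field hW hg)
  obtain ⟨L, _, _, _, _, _, ⟨𝒞⟩⟩ := hc n
  obtain ⟨e, he⟩ := H.lft_hom hpW hp
  have : Nonempty {V : X.left.Opens // gp X ∈ V} := ⟨⟨⊤, trivial⟩⟩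
  refine iInf_neBot_of_directed' (fun V V' => ⟨⟨V.1 ⊓ V'.1, V.2, V'.2⟩, ?_, ?_⟩) fun V => ?_
  · exact inf_le_inf_left _ (principal_mono.2 fun _ h => ⟨h.1, f.good_mono inf_le_left h.2⟩)
  · exact inf_le_inf_left _ (principal_mono.2 fun _ h => ⟨h.1, f.good_mono inf_le_right h.2⟩)
  · refine inf_principal_neBot_iff.2 fun N hN => ?_
    obtain ⟨O, h1, h2, h3⟩ := mem_nhdsSet_iff_exists.1 hN
    obtain ⟨ζ, h4, h5⟩ := good_near hf hW hg 𝒩 𝒞 V.2 e h1 (h2 (io_pt hW hg hpW he))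
    exact ⟨ζ, h3 h4, h5⟩

omit [IsUltrametricDist K] [CompleteSpace K] [IsAlgClosed K] [CharZero K]
  [LocallyOfFiniteType G.hom] [LocallyOfFiniteType X.hom] in
theorem G5_near {b : Fn G} (h : H.HasVal p b c) {ε : ℝ} (hε : 0 < ε) :
    ∀ᶠ ζ in f.flt p, ‖ζ.sl.ρ (b - algebraMap K _ c)‖ < ε := by
  refine flt_le (((isOpen_val (b - algebraMap K _ c) (isOpen_Iio (a := ε))).mem_nhdsSet.2
    fun ζ (hζ : ζ.pt = p) => ?_) |> fun h => mem_of_superset h fun _ h' => h'.2)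
  have h1 := H.hasVal_iff.1 (hζ.symm ▸ h)
  refine ⟨mem_O_of_mp h1, ?_⟩
  rw [(ζ.sl.ker _ (mem_O_of_mp h1)).2 h1, norm_zero]
  exact hε

theorem lim_rep (hc : HasCore K) (hf : Hyp 𝒰 f) {W : G.left.Opens} (hW : IsAffineOpen W)
    (hg : gp G ∈ W) {ι : Type} [Fintype ι] (y : ι → Fn X) :
    ∃ (r : ℕ) (s : Fin r → B G W) (a : ι → H.Ent K (Fin r)) (b : H.Ent K (Fin r)),
      (∃ e : B G W →ₐ[K] K, H.evE (fun l => e (s l)) b ≠ 0) ∧
      ∀ (i : ι) (p : G.left) (c : Fin r → K), H.At W (fun l => (s l : Fn G)) p c →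
        H.evE c b ≠ 0 → f.Lim p (y i) (H.evE c (a i) / H.evE c b) := by
  classical
  have := H.lft_finiteType hW hg
  obtain ⟨n, ⟨𝒩⟩⟩ := H.exists_ND (B G W) (aff_frac_field hW hg)
  obtain ⟨L, _, _, _, _, _, ⟨𝒞⟩⟩ := hc n
  obtain ⟨r, s, a, b, h1, h2⟩ := tl_Y hf hW hg 𝒩 𝒞 y
  refine ⟨r, s, a, b, h1, fun i p c ⟨hpW, _, hv⟩ hb => ?_⟩
  have hE : ∀ ζ : An G, ∃ e : Fin r → K, ζ.pt ∈ W → IsClosed ({ζ.pt} : Set G.left) →
      (∀ l, H.HasVal ζ.pt (s l : Fn G) (e l)) ∧ (ζ ∈ f.good (reg (y i)) →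
        algebraMap K _ (H.evE e b) * f.Y (y i) ζ = algebraMap K _ (H.evE e (a i))) := fun ζ => by
    by_cases h : ζ.pt ∈ W ∧ IsClosed ({ζ.pt} : Set G.left)
    · obtain ⟨e, he⟩ := H.lft_hom h.1 h.2
      have h3 := h2 i e
      rw [io_eq hW hg h.1 he] at h3
      exact ⟨fun l => e (s l), fun _ _ => ⟨fun l => he _, h3⟩⟩
    · exact ⟨c, fun h1 h2 => (h ⟨h1, h2⟩).elim⟩
  choose E hE using hE
  have h3 : ∀ᶠ ζ in f.flt p, (∀ l, H.HasVal ζ.pt (s l : Fn G) (E ζ l)) ∧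
      algebraMap K _ (H.evE (E ζ) b) * f.Y (y i) ζ = algebraMap K _ (H.evE (E ζ) (a i)) := by
    filter_upwards [flt_good (f := f) (gp_reg (y i)),
      flt_le (f := f) ((isOpen_pt W).mem_nhdsSet.2 fun ζ (hζ : ζ.pt = p) =>
        show ζ.pt ∈ W from hζ.symm ▸ hpW)]
      with ζ h h'
    exact ⟨(hE ζ h' h.1).1, (hE ζ h' h.1).2 h.2⟩
  have h4 : Tendsto E (f.flt p) (𝓝 c) := by
    refine tendsto_pi_nhds.2 fun l => Metric.tendsto_nhds.2 fun ε hε => ?_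
    filter_upwards [h3, G5_near (f := f) (hv l) hε] with ζ h h'
    rwa [ζ.sl.sub (h.1 l).mem ((O G _).algebraMap_mem _), ζ.val_eq (h.1 l), ζ.sl.alg, ← map_sub,
      ζ.norm_alg, ← dist_eq_norm] at h'
  have h5 := ((cont_evE b).tendsto c).comp h4
  have h6 := tendsto_iff_norm_sub_tendsto_zero.1 ((((cont_evE (a i)).tendsto c).comp h4).div h5 hb)
  refine h6.congr' ?_
  filter_upwards [h3, h5.eventually_ne hb] with ζ h h'
  have h7 : f.Y (y i) ζ = algebraMap K _ (H.evE (E ζ) (a i) / H.evE (E ζ) b) := by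
    rw [map_div₀, ← h.2, mul_div_cancel_left₀ _ ((map_ne_zero _).2
      (show H.evE (E ζ) b ≠ 0 from h'))]
  rw [h7, ← map_sub, ζ.norm_alg]
  rfl

end Pool.Agent.Work.MP_e120ef_ag.Br
end

-- merged part: Pool.Agent.Work.MP_e120ef_ag.Br.G6
section
/-!
# From limits to a meromorphic map
-/

open CategoryTheory AlgebraicGeometry Filter Topology

namespace Pool.Agent.Work.MP_e120ef_ag.Br

variable {K : Type} [NontriviallyNormedField K] [IsUltrametricDist K] [CompleteSpace K]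
  [IsAlgClosed K] [CharZero K] {G X : Sch K} [IsIntegral G.left] [IsIntegral X.left]
  [LocallyOfFiniteType G.hom] [LocallyOfFiniteType X.hom] {𝒰 : Set (An G)} {f : Mor 𝒰 X}

omit [IsUltrametricDist K] [CompleteSpace K] [IsAlgClosed K] [CharZero K] [IsIntegral G.left]
  [LocallyOfFiniteType G.hom] in
theorem G6_pt {U : X.left.Opens} (hU : IsAffineOpen U) (hg : gp X ∈ U) {k : ℕ}
    {u : Fin k → B X U} (hu : Algebra.adjoin K (Set.range u) = ⊤) (p : G.left) :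
    ∃ x : X.left, (f.flt p).NeBot → (∀ j, ∃ c, f.Lim p (u j) c) →
      ∀ b : B X U, ∃ c, f.Lim p b c ∧ H.HasVal x (b : Fn X) c := by
  by_cases h : (f.flt p).NeBot ∧ ∀ j, ∃ c, f.Lim p (u j) c
  · have h1 : ∀ b : B X U, ∃ c, f.Lim p b c := fun b => by
      refine Algebra.adjoin_induction (p := fun b _ => ∃ c, f.Lim p (b : B X U) c) ?_
        (fun c => ⟨c, lim_alg p c⟩) ?_ ?_ (hu.ge (Algebra.mem_top (x := b)))
      · rintro _ ⟨j, rfl⟩
        exact h.2 j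
      · rintro a b - - ⟨c, hc⟩ ⟨d, hd⟩
        exact ⟨_, hc.add hd⟩
      · rintro a b - - ⟨c, hc⟩ ⟨d, hd⟩
        exact ⟨_, hc.mul hd⟩
    choose v hv using h1
    have h2 : ∀ c : K, v (algebraMap K _ c) = c := fun c => (hv _).unique h.1 (lim_alg p c)
    obtain ⟨x, -, -, hx⟩ := H.lft_point hU hg
      { toFun := v
        map_one' := by simpa using h2 1
        map_zero' := by simpa using h2 0
        map_mul' := fun a b => (hv _).unique h.1 ((hv a).mul (hv b))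
        map_add' := fun a b => (hv _).unique h.1 ((hv a).add (hv b))
        commutes' := h2 }
    exact ⟨x, fun _ _ b => ⟨v b, hv b, hx b⟩⟩
  · exact ⟨gp X, fun h1 h2 => (h ⟨h1, h2⟩).elim⟩

theorem mero_of_hyp (hc : HasCore K) (hf : Hyp 𝒰 f) : ∃ F : G.left → X.left, H.Mero F := by
  obtain ⟨U, hU, hg, -⟩ := exists_aff (W := ⊤) (x := gp X) trivial
  obtain ⟨S, hS⟩ := (H.lft_finiteType hU hg).out
  obtain ⟨k, u, hu⟩ : ∃ (k : ℕ) (u : Fin k → B X U), Algebra.adjoin K (Set.range u) = ⊤ :=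
    ⟨S.card, fun j => S.equivFin.symm j, by
      rw [← hS]
      exact congrArg _ ((S.equivFin.symm.surjective.range_comp _).trans Subtype.range_coe)⟩
  choose F hF using G6_pt (f := f) hU hg hu
  refine ⟨F, fun W hW ⟨x, hx⟩ y => ?_⟩
  obtain ⟨v, hv, h0, hvy⟩ := aff_frac_field hU hg y
  obtain ⟨r, s, a, b, ⟨e, he⟩, h1⟩ := lim_rep hc hf hW (gp_mem hx)
    (Sum.elim (fun j => (u j : Fn X)) fun t : Bool => if t then y else v⁻¹)
  refine ⟨r, fun l => s l, _, _, fun l => mem_B.1 (s l).2, entire_evE (a (.inr true)),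
    entire_evE b, ?_, fun p c hp hb => ?_⟩
  · obtain ⟨p, h2, h3, h4⟩ := H.lft_point hW (gp_mem hx) e
    exact ⟨p, _, ⟨h2, h3, fun l => h4 (s l)⟩, he⟩
  · have hn := flt_neBot hc hf hp.2.1
    have h2 := hF p hn fun j => ⟨_, h1 (.inl j) p c hp hb⟩
    obtain ⟨c₁, h3, h4⟩ := h2 ⟨v, hv⟩
    obtain ⟨c₂, h5, h6⟩ := h2 ⟨_, hvy⟩
    have h7 : f.Lim p y _ := h1 (.inr true) p c hp hb
    have h8 : f.Lim p v⁻¹ _ := h1 (.inr false) p c hp hb
    have h9 := h3.mul h8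
    rw [mul_inv_cancel₀ h0, ← map_one (algebraMap K (Fn X))] at h9
    have h10 : c₁ ≠ 0 := left_ne_zero_of_mul_eq_one (h9.unique hn (lim_alg p 1))
    have h11 := h4.isU.2 h10
    obtain rfl := h5.unique hn (h3.mul h7)
    rw [H.hasVal_iff, ← h11.mul_mem_mp_iff]
    have h12 := sub_mem (H.hasVal_iff.1 h6) (O_mul_mem_mp ((O X (F p)).algebraMap_mem
      (H.evE c (a (.inr true)) / H.evE c b)) (H.hasVal_iff.1 h4))
    convert h12 using 1
    rw [map_mul]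
    ring

omit [IsIntegral G.left] [LocallyOfFiniteType G.hom] in
theorem mero_of_special (hc : HasCore K) (h : Special X) : ∃ (G : Sch K) (_ : GrpObj G)
    (_ : IsIntegral G.left) (_ : LocallyOfFiniteType G.hom) (F : G.left → X.left), H.Mero F := by
  obtain ⟨G, _, _, _, _, _, 𝒰, h1, -, h2, f, h3⟩ := h
  have := grp_integral G
  obtain ⟨W, hW, hg, -⟩ := exists_aff (W := ⊤) (x := gp G) trivial
  have := H.lft_finiteType hW hg
  obtain ⟨n, ⟨𝒩⟩⟩ := H.exists_ND (B G W) (aff_frac_field hW hg)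
  have hn : (n : Cardinal) = Algebra.trdeg K (Fn G) := by
    rw [← 𝒩.tb.cardinalMk_eq_trdeg, Cardinal.mk_fin]
  refine ⟨G, ‹_›, ‹_›, ‹_›, mero_of_hyp hc ⟨h1, fun ζ hζ m t ht => ?_, h3⟩⟩
  have h4 : m + 2 ≤ n := by exact_mod_cast (h2 ζ hζ m t ht).trans (dim_le G hn)
  rw [← hn]
  exact_mod_cast h4

end Pool.Agent.Work.MP_e120ef_ag.Br
end
end
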