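import Pool.Agent.Work.MP_e120ef_ag.Br.T7
import Mathlib

attribute [-instance] Subalgebra.normedCommRing Subalgebra.seminormedCommRing
  Subalgebra.seminormedRing Subalgebra.normedRing
  Localization.subalgebra.instIsFractionRingSubtypeMemSubalgebra
attribute [local instance 2000] RingHomClass.toAddMonoidHomClass AddMonoidHomClass.toAddHomClass
  RingHom.instRingHomClass AlgHomClass.toRingHomClass IsDomain.to_noZeroDivisors
  IsDomain.toNontrivial NeZero.one RingHomClass.toMonoidHomClass MonoidHomClass.toMulHomClass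
  RingHomClass.toMonoidWithZeroHomClass AddMonoidHomClass.toZeroHomClass MonoidHomClass.toOneHomClass
attribute [-instance] instCharZeroOfIsSemireal AlgHom.instContinuousLinearMapClassOfAlgHomClass
  RingHomClass.toLinearMapClassRat RingHomClass.toLinearMapClassNNRat NumberField.to_charZero

-- merged part: Pool.Agent.Work.MP_e120ef_ag.Br.T2
section
/-!
# One more variable: norm estimates

`Ext S R t`: `R` is the closure of `S [t]`, and `t` is generic over the closed subalgebra `S`.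
Plans.  `norm_aeval`: ultrametric inequality (`Polynomial.aeval_eq_sum_range`, `IsUltrametricDist.norm_sum_le_of_forall_le_of_nonneg`).
`WP.norm`: `1 = ‖leading coefficient‖ ≤ ‖ω t‖ ≤ 1`.
`low_poly` (for a polynomial `g`): if `g ≠ 0` take the largest index `i` at which `‖coeff g i‖` is maximal; the coefficient `i + natDegree ω` of `g * ω + r` is `coeff g i` plus terms of smaller norm (`coeff_mul`; `coeff ω j = 0` for `j > natDegree ω`, norms `≤ 1` by `gen`), so `‖g t‖ ≤ ‖coeff g i‖ ≤ ‖(g * ω + r) t‖`.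
`low`: approximate `h` by `g t` (`den`), let the error tend to zero.  `low'`: `r t = (h ω + r t) - h ω`.
-/

set_option linter.unusedSectionVars false

open Filter Topology Polynomial

namespace Pool.Agent.Work.MP_e120ef_ag.Br

variable {K : Type} [NontriviallyNormedField K]
  {L : Type} [NormedField L] [IsUltrametricDist L] [CompleteSpace L] [NormedAlgebra K L]

/-- `R` is the Tate algebra in the variable `t` over `S` -/
structure Ext (S R : Subalgebra K L) (t : L) : Prop where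
  cS : IsClosed (S : Set L)
  cR : IsClosed (R : Set L)
  mem : ∀ p : S[X], aeval t p ∈ R
  nt : ‖t‖ ≤ 1
  gen : ∀ (p : S[X]) (i : ℕ), ‖(p.coeff i : L)‖ ≤ ‖aeval t p‖
  den : ∀ x ∈ R, ∀ ε > 0, ∃ p : S[X], ‖x - aeval t p‖ ≤ ε

/-- Weierstrass polynomials -/
structure WP {S : Subalgebra K L} (t : L) (ω : S[X]) : Prop where
  monic : ω.Monic
  le : ‖aeval t ω‖ ≤ 1

namespace Ext

variable {S R : Subalgebra K L} {t : L} (E : Ext S R t) {ω : S[X]}

include E

theorem le : S ≤ R := fun x hx => by simpa using E.mem (C ⟨x, hx⟩)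

theorem norm_aeval {p : S[X]} {c : ℝ} (hc : 0 ≤ c) (h : ∀ i, ‖(p.coeff i : L)‖ ≤ c) :
    ‖aeval t p‖ ≤ c := by
  rw [aeval_eq_sum_range]
  refine IsUltrametricDist.norm_sum_le_of_forall_le_of_nonneg hc fun i _ => ?_
  rw [Subalgebra.smul_def, smul_eq_mul, norm_mul, norm_pow]
  exact (mul_le_of_le_one_right (norm_nonneg _) (pow_le_one₀ (norm_nonneg _) E.nt)).trans (h i)

theorem one_le {p : S[X]} (hp : p.Monic) : 1 ≤ ‖aeval t p‖ := by
  have := E.gen p p.natDegree
  rwa [hp.coeff_natDegree, OneMemClass.coe_one, norm_one] at this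

theorem inj {p : S[X]} (hp : aeval t p = 0) : p = 0 := by
  ext i
  have := E.gen p i
  rw [hp, norm_zero, norm_le_zero_iff] at this
  rw [this, coeff_zero, ZeroMemClass.coe_zero]

theorem low_poly (hω : WP t ω) (g : S[X]) {r : S[X]} (hr : r.degree < ω.degree) :
    ‖aeval t g‖ ≤ ‖aeval t (g * ω + r)‖ := by
  refine E.norm_aeval (norm_nonneg _) fun j => not_lt.1 fun hj => ?_
  have m : ∀ i, ‖aeval t (g * ω + r)‖ < ‖(g.coeff i : L)‖ →
      i ∈ g.support.filter fun i => ‖aeval t (g * ω + r)‖ < ‖(g.coeff i : L)‖ := fun i hi =>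
    Finset.mem_filter.2 ⟨mem_support_iff.2 fun e => by
      rw [e, ZeroMemClass.coe_zero, norm_zero] at hi
      exact hi.not_ge (norm_nonneg _), hi⟩
  obtain ⟨i, hi, hm⟩ := Finset.exists_max_image _ id ⟨j, m j hj⟩
  have h1 := E.gen (g * ω + r) (i + ω.natDegree)
  have h2 : r.coeff (i + ω.natDegree) = 0 := coeff_eq_zero_of_degree_lt
    (hr.trans_le (degree_le_natDegree.trans (by exact_mod_cast Nat.le_add_left _ _)))
  rw [coeff_add, h2, add_zero, coeff_mul, ← Finset.add_sum_erase _ _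
    (a := (i, ω.natDegree)) (Finset.HasAntidiagonal.mem_antidiagonal.2 rfl),
    hω.monic.coeff_natDegree, mul_one, AddMemClass.coe_add] at h1
  have h3 : ‖((∑ x ∈ (Finset.HasAntidiagonal.antidiagonal (i + ω.natDegree)).erase
      (i, ω.natDegree), g.coeff x.1 * ω.coeff x.2 : S) : L)‖ ≤ ‖aeval t (g * ω + r)‖ := by
    rw [AddSubmonoidClass.coe_finsetSum]
    refine IsUltrametricDist.norm_sum_le_of_forall_le_of_nonneg (norm_nonneg _) fun x hx => ?_
    obtain ⟨h4, h5⟩ := Finset.mem_erase.1 hx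
    rw [Finset.HasAntidiagonal.mem_antidiagonal] at h5
    rcases lt_or_ge ω.natDegree x.2 with k | k
    · rw [coeff_eq_zero_of_natDegree_lt k, mul_zero, ZeroMemClass.coe_zero, norm_zero]
      exact norm_nonneg _
    · rw [MulMemClass.coe_mul, norm_mul]
      refine (mul_le_of_le_one_right (norm_nonneg _) ((E.gen ω _).trans hω.le)).trans
        (not_lt.1 fun e => h4 ?_)
      have h6 : x.1 ≤ i := hm _ (m _ e)
      exact Prod.ext (by omega) (by omega)
  have h7 := (IsUltrametricDist.norm_add_le_max _ _).trans (max_le h1 ((norm_neg _).trans_le h3))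
  rw [add_neg_cancel_right] at h7
  exact (Finset.mem_filter.1 hi).2.not_ge h7

theorem low (hω : WP t ω) {h : L} (hh : h ∈ R) {r : S[X]} (hr : r.degree < ω.degree) :
    ‖h‖ ≤ ‖h * aeval t ω + aeval t r‖ := by
  refine le_of_forall_pos_le_add fun ε hε => ?_
  obtain ⟨g, hg⟩ := E.den h hh _ (half_pos hε)
  have h1 := E.low_poly hω g hr
  have h2 := norm_sub_norm_le h (aeval t g)
  have h3 := norm_sub_le (h * aeval t ω + aeval t r) ((h - aeval t g) * aeval t ω)
  have h4 : ‖(h - aeval t g) * aeval t ω‖ ≤ ε / 2 := by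
    rw [norm_mul]
    exact (mul_le_of_le_one_right (norm_nonneg _) hω.le).trans hg
  rw [show h * aeval t ω + aeval t r - (h - aeval t g) * aeval t ω = aeval t (g * ω + r) by
    rw [map_add, map_mul]; ring] at h3
  linarith

theorem low' (hω : WP t ω) {h : L} (hh : h ∈ R) {r : S[X]} (hr : r.degree < ω.degree) :
    ‖aeval t r‖ ≤ ‖h * aeval t ω + aeval t r‖ := by
  have h1 : ‖-(h * aeval t ω)‖ ≤ ‖h * aeval t ω + aeval t r‖ := by
    rw [norm_neg, norm_mul]
    exact (mul_le_of_le_one_right (norm_nonneg _) hω.le).trans (E.low hω hh hr)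
  have h2 := (IsUltrametricDist.norm_add_le_max _ _).trans (max_le h1 le_rfl)
  rwa [neg_add_cancel_left] at h2

theorem uniq (hω : WP t ω) {h : L} (hh : h ∈ R) {r : S[X]} (hr : r.degree < ω.degree)
    (e : aeval t r = h * aeval t ω) : r = 0 := by
  have := E.low' hω (R.neg_mem hh) hr
  rw [neg_mul, ← e, neg_add_cancel, norm_zero, norm_le_zero_iff] at this
  exact E.inj this

end Ext

end Pool.Agent.Work.MP_e120ef_ag.Br
end

-- merged part: Pool.Agent.Work.MP_e120ef_ag.Br.T2b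
section
/-!
# Weierstrass division and preparation

Plans.  `T2_closed`: if `‖h‖ ≤ ‖h f + r t‖` and `‖r t‖ ≤ ‖h f + r t‖` always, the set of all `h f + r t` (degree of `r` less than `e`) is closed: for a convergent sequence `h k` and the coefficients of `r k` are Cauchy in the closed sets `R`, `S` (or: the additive map `R × (Fin e → S) → L` is antilipschitz, `AntilipschitzWith.isClosed_range`).
`div`: the closed set contains all `p t` (`modByMonic_add_div`), hence `R`.
`prep`: put `f = ω t + η`, `κ = ‖η‖ < 1`.  From `h ω + r t = (h f + r t) - h η` and `low`: `‖h‖ ≤ max ‖h f + r t‖ (κ ‖h‖)`, so `‖h‖ ≤ ‖h f + r t‖`, and also `‖r t‖ ≤ ‖h f + r t‖` since `‖f‖ ≤ 1`.  By `div` each `g ∈ R` is within `κ ‖g‖` of the closed additive group of all `h f + r t`,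
by induction within `κ ^ k ‖g‖`, so it is in it.  Write `t ^ e = h f + r t`; with `r₀ = X ^ e - ω`: `(h - 1) ω + (r - r₀) t = - h η`, so `‖h - 1‖ ≤ κ < 1` and `h` is a unit (`unit_of_norm`); `ω' = X ^ e - r`.
-/

set_option linter.unusedSectionVars false

open Filter Topology Polynomial

namespace Pool.Agent.Work.MP_e120ef_ag.Br

variable {K : Type} [NontriviallyNormedField K]
  {L : Type} [NormedField L] [IsUltrametricDist L] [CompleteSpace L] [NormedAlgebra K L]

namespace Ext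

variable {S R : Subalgebra K L} {t : L} (E : Ext S R t) {ω : S[X]}

include E

theorem T2_closed {f : L} {e : ℕ}
    (h1 : ∀ h ∈ R, ∀ r : S[X], r.degree < e → ‖h‖ ≤ ‖h * f + aeval t r‖)
    (h2 : ∀ h ∈ R, ∀ r : S[X], r.degree < e → ‖aeval t r‖ ≤ ‖h * f + aeval t r‖) :
    IsClosed {x : L | ∃ h ∈ R, ∃ r : S[X], r.degree < e ∧ x = h * f + aeval t r} := by
  classical
  have : CompleteSpace R := E.cR.completeSpace_coe
  have : CompleteSpace S := E.cS.completeSpace_coe
  let φ : R × (Fin e → S) →+ L := AddMonoidHom.mk'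
    (fun x => (x.1 : L) * f + aeval t (ofFn e x.2)) fun x y => by
      simp only [Prod.fst_add, Prod.snd_add, map_add, Subalgebra.coe_add]
      ring
  have hφ (x : R × (Fin e → S)) : φ x = (x.1 : L) * f + aeval t (ofFn e x.2) := rfl
  have a1 : AntilipschitzWith 1 φ := AddMonoidHomClass.antilipschitz_of_bound φ fun x => by
    rw [NNReal.coe_one, one_mul, hφ, Prod.norm_def]
    refine max_le (h1 _ x.1.2 _ (ofFn_degree_lt _)) ((pi_norm_le_iff_of_nonneg
      (norm_nonneg _)).2 fun i => le_trans ?_ (h2 _ x.1.2 _ (ofFn_degree_lt _)))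
    have := E.gen (ofFn e x.2) i
    rwa [ofFn_coeff_eq_val_of_lt _ i.2] at this
  have a2 : UniformContinuous φ :=
    AddMonoidHomClass.uniformContinuous_of_bound φ (‖f‖ + 1) fun x => by
      have b1 : ‖(x.1 : L)‖ ≤ ‖x‖ := norm_fst_le x
      have b2 : ‖aeval t (ofFn e x.2)‖ ≤ ‖x‖ := E.norm_aeval (norm_nonneg _) fun i => by
        by_cases hi : i < e
        · rw [ofFn_coeff_eq_val_of_lt _ hi]
          exact (norm_le_pi_norm x.2 _).trans (norm_snd_le x)
        · rw [ofFn_coeff_eq_zero_of_ge _ (not_lt.1 hi)]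
          simp
      rw [hφ]
      refine (norm_add_le _ _).trans ?_
      rw [norm_mul]
      nlinarith [norm_nonneg f]
  convert a1.isClosed_range a2 using 1
  ext x
  constructor
  · rintro ⟨h, hh, r, hr, rfl⟩
    refine ⟨(⟨h, hh⟩, fun i => r.coeff i), ?_⟩
    have : ofFn e (fun i : Fin e => r.coeff i) = r := by
      ext i : 1
      by_cases hi : i < e
      · rw [ofFn_coeff_eq_val_of_lt _ hi]
      · rw [ofFn_coeff_eq_zero_of_ge _ (not_lt.1 hi),
          coeff_eq_zero_of_degree_lt (hr.trans_le (by exact_mod_cast not_lt.1 hi))]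
    rw [hφ, this]
  · rintro ⟨x, rfl⟩
    exact ⟨x.1, x.1.2, _, ofFn_degree_lt _, rfl⟩

theorem div (hω : WP t ω) {f : L} (hf : f ∈ R) :
    ∃ h ∈ R, ∃ r : S[X], r.degree < ω.degree ∧ f = h * aeval t ω + aeval t r := by
  have hd : ω.degree = ω.natDegree := degree_eq_natDegree hω.monic.ne_zero
  have c := E.T2_closed (f := aeval t ω) (e := ω.natDegree)
    (fun h hh r hr => E.low hω hh (hd ▸ hr)) fun h hh r hr => E.low' hω hh (hd ▸ hr)
  rw [hd]
  refine c.closure_subset (Metric.mem_closure_iff.2 fun ε hε => ?_)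
  obtain ⟨p, hp⟩ := E.den f hf (ε / 2) (half_pos hε)
  refine ⟨aeval t p, ⟨aeval t (p /ₘ ω), E.mem _, p %ₘ ω,
    hd ▸ degree_modByMonic_lt p hω.monic, ?_⟩, ?_⟩
  · rw [← map_mul, ← map_add, add_comm, mul_comm, modByMonic_add_div]
  · rw [dist_eq_norm]
    linarith

theorem prep (hω : WP t ω) {f : L} (hf : f ∈ R) (h : ‖f - aeval t ω‖ < 1) :
    ∃ (u : R) (ω' : S[X]), IsUnit u ∧ WP t ω' ∧ u * f = aeval t ω' := by
  have hd : ω.degree = ω.natDegree := degree_eq_natDegree hω.monic.ne_zero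
  obtain ⟨η, rfl⟩ : ∃ η, f = aeval t ω + η := ⟨f - aeval t ω, by ring⟩
  rw [add_sub_cancel_left] at h
  have u (x y : L) : ‖x - y‖ ≤ max ‖x‖ ‖y‖ := by
    simpa [sub_eq_add_neg] using IsUltrametricDist.norm_add_le_max x (-y)
  have n1 : ‖aeval t ω + η‖ ≤ 1 :=
    (IsUltrametricDist.norm_add_le_max _ _).trans (max_le hω.le h.le)
  have h1 : ∀ g ∈ R, ∀ r : S[X], r.degree < ω.natDegree →
      ‖g‖ ≤ ‖g * (aeval t ω + η) + aeval t r‖ := fun g hg r hr => by
    have a := E.low hω hg (hd ▸ hr)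
    rw [show g * aeval t ω + aeval t r = g * (aeval t ω + η) + aeval t r - g * η by ring] at a
    rcases le_max_iff.1 (a.trans (u _ _)) with b | b
    · exact b
    · rw [norm_mul] at b
      have : ‖g‖ ≤ 0 := by nlinarith [norm_nonneg g]
      exact this.trans (norm_nonneg _)
  have h2 : ∀ g ∈ R, ∀ r : S[X], r.degree < ω.natDegree →
      ‖aeval t r‖ ≤ ‖g * (aeval t ω + η) + aeval t r‖ := fun g hg r hr => by
    have a := u (g * (aeval t ω + η) + aeval t r) (g * (aeval t ω + η))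
    rw [add_sub_cancel_left] at a
    refine a.trans (max_le le_rfl (le_trans ?_ (h1 g hg r hr)))
    rw [norm_mul]
    exact mul_le_of_le_one_right (norm_nonneg _) n1
  have c := E.T2_closed h1 h2
  have key (g : L) (hg : g ∈ R) (k : ℕ) : ∃ a ∈ R, ∃ r : S[X], r.degree < ω.natDegree ∧
      ‖g - (a * (aeval t ω + η) + aeval t r)‖ ≤ ‖η‖ ^ k * ‖g‖ := by
    induction k with
    | zero => exact ⟨0, R.zero_mem, 0, by simp, by simp⟩
    | succ k ih =>
      obtain ⟨a, ha, r, hr, b⟩ := ih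
      obtain ⟨a', ha', r', hr', e⟩ :=
        E.div hω (R.sub_mem hg (R.add_mem (R.mul_mem ha hf) (E.mem r)))
      refine ⟨a + a', R.add_mem ha ha', r + r', (degree_add_le _ _).trans_lt (max_lt hr (hd ▸ hr')),
        ?_⟩
      have e' : g - ((a + a') * (aeval t ω + η) + aeval t (r + r')) = -(a' * η) := by
        rw [map_add]
        linear_combination e
      have b' := E.low hω ha' hr'
      rw [← e] at b'
      rw [e', norm_neg, norm_mul, pow_succ, mul_right_comm]
      exact mul_le_mul_of_nonneg_right (b'.trans b) (norm_nonneg _)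
  have m : aeval t ((X : S[X]) ^ ω.natDegree) ∈ _ :=
    c.closure_subset (Metric.mem_closure_iff.2 fun ε hε => by
      have := (tendsto_pow_atTop_nhds_zero_of_lt_one (norm_nonneg η) h).mul_const
        ‖aeval t ((X : S[X]) ^ ω.natDegree)‖
      rw [zero_mul] at this
      obtain ⟨k, hk⟩ := (this.eventually (gt_mem_nhds hε)).exists
      obtain ⟨a, ha, r, hr, b⟩ := key _ (E.mem (X ^ ω.natDegree)) k
      exact ⟨_, ⟨a, ha, r, hr, rfl⟩, by rw [dist_eq_norm]; exact b.trans_lt hk⟩)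
  obtain ⟨a, ha, r, hr, e⟩ := m
  have na : ‖a‖ ≤ 1 := by
    have := h1 a ha r hr
    rw [← e, map_pow, aeval_X, norm_pow] at this
    exact this.trans (pow_le_one₀ (norm_nonneg _) E.nt)
  have d0 : (ω - X ^ ω.natDegree).degree < ω.degree :=
    degree_sub_lt_left (by rw [degree_X_pow, hd]) hω.monic.ne_zero
      (by rw [hω.monic.leadingCoeff, leadingCoeff_X_pow])
  have a1 := E.low hω (R.sub_mem ha R.one_mem) (r := r + (ω - X ^ ω.natDegree))
    ((degree_add_le _ _).trans_lt (max_lt (hd ▸ hr) d0))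
  have e' : (a - 1) * aeval t ω + aeval t (r + (ω - X ^ ω.natDegree)) = -(a * η) := by
    rw [map_add, map_sub]
    linear_combination -e
  rw [e', norm_neg, norm_mul] at a1
  have e2 : a * (aeval t ω + η) = aeval t (X ^ ω.natDegree - r) := by
    rw [map_sub]
    linear_combination -e
  refine ⟨⟨a, ha⟩, X ^ ω.natDegree - r, unit_of_norm E.cR
    (a1.trans_lt ((mul_le_of_le_one_left (norm_nonneg _) na).trans_lt h)),
    ⟨monic_X_pow_sub hr, ?_⟩, e2⟩
  rw [← e2, norm_mul]
  exact mul_le_one₀ na (norm_nonneg _) n1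

end Ext

end Pool.Agent.Work.MP_e120ef_ag.Br
end

-- merged part: Pool.Agent.Work.MP_e120ef_ag.Br.T1
section
/-!
# Generic tuples

Plans.  `Gen.of_hom`: `aeval z P = aeval w (aeval σ P)` has norm at least that of `aeval z' (aeval σ P) = aeval w P` (`Gen.norm_le`, `MvPolynomial.comp_aeval_apply` or `aeval_bind₁`).
`Gen.comp`: `aeval (w ∘ f) P = aeval w (rename f P)` and `coeff_rename_mapDomain`.
`Gen.translate`, `Gen.scale`, `Gen.shear`, `Gen.dir`: `Gen.of_hom` with the explicit inverse maps.  The `Co` versions: `TW_le` in both directions.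
-/

set_option linter.unusedSectionVars false

open Filter Topology

namespace Pool.Agent.Work.MP_e120ef_ag.Br

variable {K : Type} [NontriviallyNormedField K] [IsUltrametricDist K] {n m : ℕ}
  {L : Type} [NormedField L] [IsUltrametricDist L] [NormedAlgebra K L] {w : Fin n → L}

theorem t1_add {a b : L} (ha : ‖a‖ ≤ 1) (hb : ‖b‖ ≤ 1) : ‖a + b‖ ≤ 1 :=
  (IsUltrametricDist.norm_add_le_max a b).trans (max_le ha hb)

theorem t1_sub {a b : L} (ha : ‖a‖ ≤ 1) (hb : ‖b‖ ≤ 1) : ‖a - b‖ ≤ 1 := by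
  rw [sub_eq_add_neg]
  exact t1_add ha (by rwa [norm_neg])

theorem t1_smul {c : K} {a : L} (hc : ‖c‖ ≤ 1) (ha : ‖a‖ ≤ 1) : ‖c • a‖ ≤ 1 := by
  rw [norm_smul]
  exact mul_le_one₀ hc (norm_nonneg _) ha

theorem Gen.of_hom (hw : Gen K w) {z z' : Fin n → L} (σ : Fin n → Pl K n)
    (hz : ∀ i, ‖z i‖ ≤ 1) (hz' : ∀ i, ‖z' i‖ ≤ 1) (h1 : ∀ i, MvPolynomial.aeval w (σ i) = z i)
    (h2 : ∀ i, MvPolynomial.aeval z' (σ i) = w i) : Gen K z := by
  refine ⟨hz, fun P I => (hw.2 P I).trans ?_⟩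
  have e1 : MvPolynomial.aeval z P = MvPolynomial.aeval w (MvPolynomial.aeval σ P) := by
    rw [MvPolynomial.comp_aeval_apply, funext h1]
  have e2 : MvPolynomial.aeval w P = MvPolynomial.aeval z' (MvPolynomial.aeval σ P) := by
    rw [MvPolynomial.comp_aeval_apply, funext h2]
  rw [e1]
  exact e2.symm ▸ hw.norm_le hz' _

theorem Gen.comp (hw : Gen K w) {f : Fin m → Fin n} (hf : Function.Injective f) :
    Gen K fun j => w (f j) := by
  refine ⟨fun j => hw.1 _, fun P I => ?_⟩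
  have h1 := hw.2 (MvPolynomial.rename f P) (I.mapDomain f)
  rwa [MvPolynomial.coeff_rename_mapDomain f hf, MvPolynomial.aeval_rename] at h1

theorem Gen.translate (hw : Gen K w) {z₀ : Fin n → K} (hz : ∀ i, ‖z₀ i‖ ≤ 1) :
    Gen K fun i => algebraMap K L (z₀ i) + w i := by
  have h1 : ∀ i, ‖algebraMap K L (z₀ i)‖ ≤ 1 := fun i => by
    rw [norm_algebraMap']
    exact hz i
  refine hw.of_hom (z' := fun i => w i - algebraMap K L (z₀ i))
    (fun i => MvPolynomial.C (z₀ i) + MvPolynomial.X i) (fun i => t1_add (h1 i) (hw.1 i))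
    (fun i => t1_sub (hw.1 i) (h1 i)) (fun i => by simp) fun i => by simp

theorem Gen.scale (hw : Gen K w) {c : Fin n → K} (hc : ∀ i, ‖c i‖ = 1) :
    Gen K fun i => c i • w i := by
  have h0 : ∀ i, c i ≠ 0 := fun i => norm_ne_zero_iff.1 (by rw [hc]; exact one_ne_zero)
  refine hw.of_hom (z' := fun i => (c i)⁻¹ • w i) (fun i => c i • MvPolynomial.X i)
    (fun i => t1_smul (hc i).le (hw.1 i))
    (fun i => t1_smul (by rw [norm_inv, hc, inv_one]) (hw.1 i)) (fun i => by simp) fun i => by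
      simp [h0 i]

theorem Gen.shear (hw : Gen K w) (i₀ : Fin n) {ν : Fin n → K} (hν : ∀ i, ‖ν i‖ ≤ 1)
    (h0 : ν i₀ = 0) : Gen K fun i => w i - ν i • w i₀ := by
  refine hw.of_hom (z' := fun i => w i + ν i • w i₀)
    (fun i => MvPolynomial.X i - ν i • MvPolynomial.X i₀)
    (fun i => t1_sub (hw.1 i) (t1_smul (hν i) (hw.1 i₀)))
    (fun i => t1_add (hw.1 i) (t1_smul (hν i) (hw.1 i₀))) (fun i => by simp) fun i => by
      simp [h0]

/-- coordinates adapted to the direction `ν` -/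
noncomputable def dir (ν : Fin (n + 1) → K) (w : Fin (n + 1) → L) : Fin (n + 1) → L :=
  Fin.cons ((ν 0)⁻¹ • w 0) fun j => w j.succ - (ν j.succ * (ν 0)⁻¹) • w 0

theorem Gen.dir {w : Fin (n + 1) → L} (hw : Gen K w) {ν : Fin (n + 1) → K} (hν : ∀ i, ‖ν i‖ ≤ 1)
    (h0 : ‖ν 0‖ = 1) : Gen K (dir ν w) := by
  have h1 : ν 0 ≠ 0 := norm_ne_zero_iff.1 (by rw [h0]; exact one_ne_zero)
  have h2 : ‖(ν 0)⁻¹‖ ≤ 1 := by rw [norm_inv, h0, inv_one]
  refine hw.of_hom (z' := Fin.cons (ν 0 • w 0) fun j => w j.succ + ν j.succ • w 0)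
    (Fin.cons ((ν 0)⁻¹ • MvPolynomial.X 0) fun j =>
      MvPolynomial.X j.succ - (ν j.succ * (ν 0)⁻¹) • MvPolynomial.X 0)
    (fun i => ?_) (fun i => ?_) (fun i => ?_) fun i => ?_
  · refine Fin.cases ?_ (fun j => ?_) i
    · exact t1_smul h2 (hw.1 0)
    · refine t1_sub (hw.1 _) (t1_smul ?_ (hw.1 0))
      rw [norm_mul]
      exact mul_le_one₀ (hν _) (norm_nonneg _) h2
  · refine Fin.cases ?_ (fun j => ?_) i
    · exact t1_smul (hν 0) (hw.1 0)
    · exact t1_add (hw.1 _) (t1_smul (hν _) (hw.1 0))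
  · refine Fin.cases ?_ (fun j => ?_) i <;> simp [Br.dir]
  · refine Fin.cases ?_ (fun j => ?_) i
    · simp [h1]
    · simp [smul_smul, h1]

variable {R : Subalgebra K L}

theorem Co.of_mem (h : Co R w) {u : Fin m → L} (hu : Gen K u) (h1 : ∀ i, u i ∈ R)
    (h2 : ∀ i, w i ∈ TW K u) : Co R u := by
  refine ⟨hu, le_antisymm (TW_le h.closed h1) ?_⟩
  rw [← h.eq]
  exact TW_le (TW_closed u) h2

theorem Co.translate (h : Co R w) {z₀ : Fin n → K} (hz : ∀ i, ‖z₀ i‖ ≤ 1) :
    Co R fun i => algebraMap K L (z₀ i) + w i := by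
  have hu := h.gen.translate hz
  refine h.of_mem hu (fun i => R.add_mem (R.algebraMap_mem _) (h.mem i)) fun i => ?_
  simpa using Subalgebra.sub_mem _ (hu.co.mem i) (Subalgebra.algebraMap_mem _ (z₀ i))

theorem Co.shear (h : Co R w) (i₀ : Fin n) {ν : Fin n → K} (hν : ∀ i, ‖ν i‖ ≤ 1)
    (h0 : ν i₀ = 0) : Co R fun i => w i - ν i • w i₀ := by
  have hu := h.gen.shear i₀ hν h0
  refine h.of_mem hu (fun i => R.sub_mem (h.mem i) (R.smul_mem (h.mem i₀) _)) fun i => ?_
  have h1 := Subalgebra.add_mem _ (hu.co.mem i) (Subalgebra.smul_mem _ (hu.co.mem i₀) (ν i))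
  simpa only [h0, zero_smul, sub_zero, sub_add_cancel] using h1

theorem Co.dir {w : Fin (n + 1) → L} (h : Co R w) {ν : Fin (n + 1) → K} (hν : ∀ i, ‖ν i‖ ≤ 1)
    (h0 : ‖ν 0‖ = 1) : Co R (dir ν w) := by
  have hu := h.gen.dir hν h0
  have h1 : ν 0 ≠ 0 := norm_ne_zero_iff.1 (by rw [h0]; exact one_ne_zero)
  refine h.of_mem hu (fun i => ?_) fun i => ?_
  · refine Fin.cases ?_ (fun j => ?_) i
    · exact R.smul_mem (h.mem 0) _
    · exact R.sub_mem (h.mem _) (R.smul_mem (h.mem 0) _)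
  · refine Fin.cases ?_ (fun j => ?_) i
    · have h2 := Subalgebra.smul_mem _ (hu.co.mem 0) (ν 0)
      have e : ν 0 • Br.dir ν w 0 = w 0 := by simp [Br.dir, h1]
      rwa [e] at h2
    · have h2 := Subalgebra.add_mem _ (hu.co.mem j.succ)
        (Subalgebra.smul_mem _ (hu.co.mem 0) (ν j.succ))
      have e : Br.dir ν w j.succ + ν j.succ • Br.dir ν w 0 = w j.succ := by
        simp [Br.dir, smul_smul]
      rwa [e] at h2

end Pool.Agent.Work.MP_e120ef_ag.Br
end

-- merged part: Pool.Agent.Work.MP_e120ef_ag.Br.T3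
section
/-!
# Splitting off one coordinate

Plans.  `T3_split`: algebra maps out of `Pl K (n + 1)`; `T3_pol h' P = (finSuccEquiv K n P).map h'.tp`; both sides are multiplicative and additive in `P` (`MvPolynomial.induction_on`, `finSuccEquiv_X_zero`, `finSuccEquiv_X_succ`, or `algHom_ext`).
`Co.ext0`: `mem`: `R` contains `t` and `TW (tail w)` (`TW_le`), `Polynomial.induction_on'`; `den`: `approx` and `T3_split`; `gen`: for `p = T3_pol h' P`, `‖coeff i‖ ≤ ‖P w‖` by `norm_aeval_le` and `finSuccEquiv_coeff_coeff`; a general `p` is approximated coefficient by coefficient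
(`∑ i ∈ range (natDegree p + 1), monomial i (P i)`, `(finSuccEquiv K n).symm`), the error in `aeval t` is at most `ε` by the ultrametric inequality.
`Co.ext`: the tuple `Fin.cons (w i₀) (w ∘ i₀.succAbove)` is `w ∘ f` with `f = Fin.cons i₀ i₀.succAbove` injective (`Gen.comp`, `Co.of_mem`), then `Co.ext0`.
`Co.zero_dim`: `R` is the closure of the range of `algebraMap K L` (`MvPolynomial.eq_C_of_isEmpty`, `TW_le`), which is closed (`algebraMap_isometry`, `Isometry.isClosedEmbedding`).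
`ev_aeval`: `e` restricted to `TW (tail u)` is `h'.ev (tail z)` (`Co.eq_ev`); induction on `p`.
-/

set_option linter.unusedSectionVars false

open Filter Topology Polynomial

namespace Pool.Agent.Work.MP_e120ef_ag.Br

variable {K : Type} [NontriviallyNormedField K] [IsUltrametricDist K] {n : ℕ}
  {L : Type} [NormedField L] [IsUltrametricDist L] [CompleteSpace L] [NormedAlgebra K L]
  {L' : Type} [NormedField L'] [IsUltrametricDist L'] [CompleteSpace L'] [NormedAlgebra K L']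
  {R S : Subalgebra K L}

/-- a polynomial in `n + 1` variables as a polynomial in the first variable over `S` -/
noncomputable def T3_pol {y : Fin n → L} (h' : Co S y) (P : Pl K (n + 1)) : S[X] :=
  (MvPolynomial.finSuccEquiv K n P).map h'.tp.toRingHom

theorem T3_split {y : Fin n → L} (h' : Co S y) (t : L) (P : Pl K (n + 1)) :
    aeval t (T3_pol h' P) = MvPolynomial.aeval (Fin.cons t y : Fin (n + 1) → L) P := by
  unfold T3_pol
  induction P using MvPolynomial.induction_on with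
  | C c =>
    rw [← MvPolynomial.algebraMap_eq, AlgEquiv.commutes, AlgHom.commutes, Polynomial.algebraMap_apply,
      map_C, aeval_C]
    exact congrArg Subtype.val (h'.tp.commutes c)
  | add P Q hP hQ => simp only [map_add, Polynomial.map_add, hP, hQ]
  | mul_X P i hP =>
    simp only [map_mul, Polynomial.map_mul, hP, MvPolynomial.aeval_X]
    congr 1
    refine Fin.cases ?_ (fun j => ?_) i
    · rw [MvPolynomial.finSuccEquiv_X_zero, map_X, aeval_X, Fin.cons_zero]
    · rw [MvPolynomial.finSuccEquiv_X_succ, map_C, aeval_C, Fin.cons_succ]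
      exact MvPolynomial.aeval_X y j

theorem T3_norm {t : L} (ht : ‖t‖ ≤ 1) {p : S[X]} {c : ℝ} (hc : 0 ≤ c)
    (h : ∀ i, ‖(p.coeff i : L)‖ ≤ c) : ‖aeval t p‖ ≤ c := by
  rw [aeval_eq_sum_range]
  refine IsUltrametricDist.norm_sum_le_of_forall_le_of_nonneg hc fun i _ => ?_
  rw [Algebra.smul_def, norm_mul, norm_pow]
  exact (mul_le_of_le_one_right (norm_nonneg _) (pow_le_one₀ (norm_nonneg _) ht)).trans (h i)

theorem T3_approx {y : Fin n → L} (h' : Co S y) (p : S[X]) {ε : ℝ} (hε : 0 < ε) :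
    ∃ P : Pl K (n + 1), ∀ i, ‖((p - T3_pol h' P).coeff i : L)‖ ≤ ε := by
  choose Q hQ using fun i => h'.approx (p.coeff i) hε
  refine ⟨(MvPolynomial.finSuccEquiv K n).symm
    (∑ i ∈ Finset.range (p.natDegree + 1), monomial i (Q i)), fun i => ?_⟩
  rw [T3_pol, AlgEquiv.apply_symm_apply, coeff_sub, coeff_map, finsetSum_coeff]
  simp only [coeff_monomial, Finset.sum_ite_eq', Finset.mem_range]
  split_ifs with k
  · exact hQ i
  · rw [coeff_eq_zero_of_natDegree_lt (by omega), map_zero, sub_zero, Subalgebra.coe_zero, norm_zero]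
    exact hε.le

theorem Co.ext0 {t : L} {y : Fin n → L} (h : Co R (Fin.cons t y : Fin (n + 1) → L))
    (h' : Co S y) : Ext S R t := by
  have le : S ≤ R := h'.eq ▸ TW_le h.closed fun i => h.mem i.succ
  have t1 : ‖t‖ ≤ 1 := h.gen.1 0
  refine ⟨h'.closed, h.closed, fun p => ?_, t1, fun p i => ?_, fun x hx ε hε => ?_⟩
  · induction p using Polynomial.induction_on' with
    | add p q hp hq => rw [map_add]; exact add_mem hp hq
    | monomial k a => rw [aeval_monomial]; exact mul_mem (le a.2) (pow_mem (h.mem 0) k)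
  · refine le_of_forall_pos_le_add fun ε hε => ?_
    obtain ⟨P, hP⟩ := T3_approx h' p (half_pos hε)
    have e1 : ‖((T3_pol h' P).coeff i : L)‖ ≤ ‖aeval t (T3_pol h' P)‖ := by
      rw [T3_split, T3_pol, coeff_map]
      refine norm_aeval_le h'.gen.1 (norm_nonneg _) fun I => ?_
      rw [MvPolynomial.finSuccEquiv_coeff_coeff]
      exact h.gen.2 P _
    have e2 := T3_norm t1 (half_pos hε).le hP
    have e3 := hP i
    rw [coeff_sub, Subalgebra.coe_sub] at e3
    rw [map_sub] at e2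
    have e4 := norm_sub_norm_le (p.coeff i : L) ((T3_pol h' P).coeff i)
    have e5 := norm_sub_norm_le (aeval t (T3_pol h' P)) (aeval t p)
    rw [norm_sub_rev] at e5
    linarith
  · obtain ⟨P, hP⟩ := h.approx ⟨x, hx⟩ hε
    exact ⟨T3_pol h' P, by rw [T3_split]; exact hP⟩

theorem Co.ext {w : Fin (n + 1) → L} (h : Co R w) (i₀ : Fin (n + 1))
    (h' : Co S fun j => w (i₀.succAbove j)) : Ext S R (w i₀) := by
  have inj : Function.Injective (Fin.cons i₀ i₀.succAbove : Fin (n + 1) → Fin (n + 1)) :=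
    Fin.cons_injective_iff.2 ⟨fun ⟨j, e⟩ => Fin.succAbove_ne i₀ j e, Fin.succAbove_right_injective⟩
  have g := h.gen.comp inj
  have e : (fun j => w ((Fin.cons i₀ i₀.succAbove : Fin (n + 1) → Fin (n + 1)) j)) =
      (Fin.cons (w i₀) fun j => w (i₀.succAbove j) : Fin (n + 1) → L) :=
    funext fun j => Fin.cases rfl (fun _ => rfl) j
  rw [e] at g
  refine Co.ext0 (h.of_mem g (fun j => Fin.cases (h.mem _) (fun _ => h.mem _) j) fun i => ?_) h'
  rcases Fin.eq_self_or_eq_succAbove i₀ i with rfl | ⟨j, rfl⟩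
  · exact g.co.mem 0
  · exact g.co.mem j.succ

theorem Co.ev_aeval {w : Fin (n + 1) → L} (h : Co R w) (i₀ : Fin (n + 1))
    (h' : Co S fun j => w (i₀.succAbove j)) {z : Fin (n + 1) → L'} (hz : ∀ i, ‖z i‖ ≤ 1)
    (p : S[X]) : h.ev z hz ⟨aeval (w i₀) p, (h.ext i₀ h').mem p⟩ =
      p.eval₂ (h'.ev (fun j => z (i₀.succAbove j)) fun _ => hz _).toRingHom (z i₀) := by
  have E := h.ext i₀ h'
  have e : (h.ev z hz).comp (Subalgebra.inclusion E.le) =
      h'.ev (fun j => z (i₀.succAbove j)) fun _ => hz _ :=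
    h'.eq_ev _ ((h.ev_cont hz).comp (continuous_subtype_val.subtype_mk _)) fun j => h.ev_w hz _
  induction p using Polynomial.induction_on' with
  | add p q hp hq =>
    rw [eval₂_add, ← hp, ← hq, ← map_add]
    exact congrArg _ (Subtype.ext (map_add _ _ _))
  | monomial k a =>
    have : (⟨aeval (w i₀) (monomial k a), E.mem _⟩ : R) =
        Subalgebra.inclusion E.le a * ⟨w i₀, h.mem i₀⟩ ^ k := Subtype.ext (aeval_monomial _)
    rw [eval₂_monomial, this, map_mul, map_pow, h.ev_w, ← e]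
    rfl

theorem Co.zero_dim [CompleteSpace K] {w : Fin 0 → L} (h : Co R w) {f : R} (h0 : f ≠ 0) :
    IsUnit f := by
  have c : IsClosed ((⊥ : Subalgebra K L) : Set L) := by
    rw [Algebra.coe_bot]
    exact (algebraMap_isometry K L).isClosedEmbedding.isClosed_range
  have le : R ≤ ⊥ := h.eq ▸ TW_le c fun i => i.elim0
  obtain ⟨a, ha⟩ := Algebra.mem_bot.1 (le f.2)
  obtain rfl : f = algebraMap K R a := Subtype.ext ha.symm
  exact (IsUnit.mk0 a fun e => h0 (by rw [e, map_zero])).map _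

end Pool.Agent.Work.MP_e120ef_ag.Br
end

-- merged part: Pool.Agent.Work.MP_e120ef_ag.Br.T3b
section
/-!
# Distinguished coordinates

Plans.  `T3_top`: expand `P` in monomials (`aeval_eq_eval₂Hom`, `as_sum`); a monomial of degree `k` goes to a polynomial of degree at most `k` with coefficient `∏ (coeff (g i) 1) ^ I i` at `k` (`coeff_prod_of_natDegree_le`, `coeff_pow_of_natDegree_le`, `natDegree_pow_le_of_le`); `homogeneousComponent_apply`.
`T3b_dir`: take `P` with `‖f - P w‖ < ‖f‖`, so `‖P w‖ = ‖f‖ = M`; `P₁` the sum of the monomials of `P` with coefficient of norm `≥ M` (nonzero, else `‖P w‖ < M`), `‖(P - P₁) w‖ < M`; `e = totalDegree P₁`, `Pe` its homogeneous component of degree `e` has a coefficient of norm `M`, so `‖Pe w‖ = M`.  For `ν` as in the statement put `u = dir ν w` (`Co.dir`, `Co.ext` with `i₀ = 0`), `w 0 = ν 0 • u 0`, `w (succ j) = u (succ j) + ν (succ j) • u 0`;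
`g 0 = C (ν 0) * X`, `g (succ j) = C (u (succ j)) + C (ν (succ j)) * X`, `Q = aeval g P₁` has `aeval (u 0) Q = P₁ w`, degree at most `e` and coefficient `c = Pe ν` at `e`; `ω = C c⁻¹ * Q` is a Weierstrass polynomial, `‖c⁻¹ f - ω (u 0)‖ < 1`, and `Ext.prep` finishes.
`Co.sh`: `Gen.gp` for `{X 0, Pe, Pe'}` gives `ν` (`Gen.norm_eq_one`); `M` is read off from `dir`.
-/

set_option linter.unusedSectionVars false

open Filter Topology Polynomial

namespace Pool.Agent.Work.MP_e120ef_ag.Br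

variable {K : Type} [NontriviallyNormedField K] [IsUltrametricDist K] {n : ℕ}
  {L : Type} [NormedField L] [IsUltrametricDist L] [CompleteSpace L] [NormedAlgebra K L]
  {L' : Type} [NormedField L'] [IsUltrametricDist L'] [CompleteSpace L'] [NormedAlgebra K L']
  {R S : Subalgebra K L}

theorem T3b_prod {A σ : Type} [CommRing A] (g : σ → A[X]) (hg : ∀ i, (g i).natDegree ≤ 1)
    (s : Finset σ) (k : σ → ℕ) : (∏ i ∈ s, g i ^ k i).natDegree ≤ ∑ i ∈ s, k i ∧
      (∏ i ∈ s, g i ^ k i).coeff (∑ i ∈ s, k i) = ∏ i ∈ s, (g i).coeff 1 ^ k i := by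
  induction s using Finset.cons_induction with
  | empty => simp
  | cons a s ha ih =>
    have h1 : (g a ^ k a).natDegree ≤ k a := by simpa using natDegree_pow_le_of_le (k a) (hg a)
    have h2 := coeff_pow_of_natDegree_le (m := k a) (hg a)
    rw [mul_one] at h2
    rw [Finset.prod_cons, Finset.sum_cons, Finset.prod_cons,
      coeff_mul_add_eq_of_natDegree_le h1 ih.1, h2, ih.2]
    exact ⟨natDegree_mul_le_of_le h1 ih.1, rfl⟩

theorem T3_top {A σ : Type} [CommRing A] [Algebra K A] (g : σ → A[X])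
    (hg : ∀ i, (g i).natDegree ≤ 1) (P : MvPolynomial σ K) {e : ℕ} (he : P.totalDegree ≤ e) :
    (MvPolynomial.aeval g P).natDegree ≤ e ∧ (MvPolynomial.aeval g P).coeff e =
      MvPolynomial.aeval (fun i => (g i).coeff 1) (MvPolynomial.homogeneousComponent e P) := by
  have hd : ∀ I ∈ P.support, I.degree ≤ e := fun I hI => (MvPolynomial.le_totalDegree hI).trans he
  have hm : ∀ I : σ →₀ ℕ, MvPolynomial.aeval g (MvPolynomial.monomial I (P.coeff I)) =
      C (algebraMap K A (P.coeff I)) * ∏ i ∈ I.support, g i ^ I i := fun I =>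
    MvPolynomial.aeval_monomial _ _ _
  have hn : ∀ I : σ →₀ ℕ, (∏ i ∈ I.support, g i ^ I i).natDegree ≤ I.degree := fun I =>
    (T3b_prod g hg I.support I).1
  rw [MvPolynomial.homogeneousComponent_apply, map_sum, Finset.sum_filter]
  conv_lhs => rw [P.as_sum, map_sum]
  conv_rhs => rw [P.as_sum, map_sum]
  refine ⟨natDegree_sum_le_of_forall_le _ _ fun I hI => ?_, ?_⟩
  · rw [hm]
    exact (natDegree_C_mul_le _ _).trans ((hn I).trans (hd I hI))
  · rw [finsetSum_coeff, ← P.as_sum]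
    refine Finset.sum_congr rfl fun I hI => ?_
    rw [hm, coeff_C_mul]
    split_ifs with k
    · rw [MvPolynomial.aeval_monomial, ← k]
      exact congrArg _ (T3b_prod g hg I.support I).2
    · rw [coeff_eq_zero_of_natDegree_lt ((hn I).trans_lt (lt_of_le_of_ne (hd I hI) k)), mul_zero]

theorem T3b_lt {z : Fin n → L} (hz : ∀ i, ‖z i‖ ≤ 1) {Q : Pl K n} {M : ℝ}
    (h : ∀ I, ‖Q.coeff I‖ < M) : ‖MvPolynomial.aeval z Q‖ < M := by
  obtain ⟨I, -, hI⟩ := (insert 0 Q.support).exists_max_image (fun I => ‖Q.coeff I‖)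
    (Finset.insert_nonempty _ _)
  refine (norm_aeval_le hz (norm_nonneg _) fun J => ?_).trans_lt (h I)
  by_cases hJ : J ∈ Q.support
  · exact hI J (Finset.mem_insert_of_mem hJ)
  · rw [MvPolynomial.notMem_support_iff.1 hJ, norm_zero]
    exact norm_nonneg _

theorem T3b_app {w : Fin n → L} (h : Co R w) {f : L} (hf : f ∈ R) (h0 : f ≠ 0) :
    ∃ (P : Pl K n) (e : ℕ), ‖f - MvPolynomial.aeval w P‖ < ‖f‖ ∧ P.totalDegree ≤ e ∧
      ‖f‖ ≤ ‖MvPolynomial.aeval w (MvPolynomial.homogeneousComponent e P)‖ := by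
  have hM := norm_pos_iff.2 h0
  obtain ⟨P, hP⟩ := h.approx ⟨f, hf⟩ (half_pos hM)
  obtain ⟨Q, hQ⟩ : ∃ Q : Pl K n, ∀ I, Q.coeff I = if ‖f‖ ≤ ‖P.coeff I‖ then P.coeff I else 0 := by
    refine ⟨∑ I ∈ P.support with ‖f‖ ≤ ‖P.coeff I‖, MvPolynomial.monomial I (P.coeff I), fun I => ?_⟩
    simp only [MvPolynomial.coeff_sum, MvPolynomial.coeff_monomial, Finset.sum_ite_eq',
      Finset.mem_filter, MvPolynomial.mem_support_iff]
    by_cases k : P.coeff I = 0 <;> simp [k]
  have h1 : ‖MvPolynomial.aeval w (P - Q)‖ < ‖f‖ := T3b_lt h.gen.1 fun I => by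
    rw [MvPolynomial.coeff_sub, hQ]
    split_ifs with k
    · simpa using hM
    · simpa using k
  have h2 : ‖f - MvPolynomial.aeval w Q‖ < ‖f‖ := by
    have := IsUltrametricDist.norm_add_le_max (f - MvPolynomial.aeval w P)
      (MvPolynomial.aeval w (P - Q))
    rw [map_sub, sub_add_sub_cancel, ← map_sub] at this
    exact this.trans_lt (max_lt (hP.trans_lt (half_lt_self hM)) h1)
  have h3 : Q ≠ 0 := fun k => by simp [k] at h2
  obtain ⟨I, hI, e⟩ := Finset.exists_mem_eq_sup Q.support (MvPolynomial.support_nonempty.2 h3)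
    fun s => s.sum fun _ e => e
  refine ⟨Q, I.degree, h2, e.le, le_trans ?_ (h.gen.2 _ I)⟩
  rw [MvPolynomial.coeff_homogeneousComponent, if_pos rfl]
  have := MvPolynomial.mem_support_iff.1 hI
  rw [hQ] at this ⊢
  split_ifs at this ⊢ with k
  · exact k
  · exact absurd rfl this

theorem T3b_dir {w : Fin (n + 1) → L} (h : Co R w) {f : L} (hf : f ∈ R) (h0 : f ≠ 0) :
    ∃ Pe : Pl K (n + 1), ∀ (ν : Fin (n + 1) → K), (∀ i, ‖ν i‖ ≤ 1) → ‖ν 0‖ = 1 →
      ‖MvPolynomial.aeval ν Pe‖ = ‖MvPolynomial.aeval w Pe‖ →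
      ∃ (v : R) (ω : (TW K fun j : Fin n => dir ν w j.succ)[X]),
        IsUnit v ∧ WP (dir ν w 0) ω ∧ v * f = aeval (dir ν w 0) ω := by
  obtain ⟨P, e, hP, he, hc⟩ := T3b_app h hf h0
  refine ⟨MvPolynomial.homogeneousComponent e P, fun ν hν hν0 hcν => ?_⟩
  rw [← hcν] at hc
  set c := MvPolynomial.aeval ν (MvPolynomial.homogeneousComponent e P) with hcd
  have hM := norm_pos_iff.2 h0
  have c0 : 0 < ‖c‖ := hM.trans_le hc
  have c1 : c ≠ 0 := norm_pos_iff.1 c0
  have n0 : ν 0 ≠ 0 := norm_ne_zero_iff.1 (hν0 ▸ one_ne_zero)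
  have hu := h.dir hν hν0
  have h' := (hu.gen.comp (Fin.succ_injective n)).co
  have E : Ext (TW K fun j : Fin n => dir ν w j.succ) R (dir ν w 0) := hu.ext 0 h'
  let a : Fin (n + 1) → TW K fun j : Fin n => dir ν w j.succ :=
    Fin.cons 0 fun j => ⟨dir ν w j.succ, h'.mem j⟩
  let g := fun i => C (a i) + C (algebraMap K _ (ν i)) * X
  have hg : ∀ i, (g i).natDegree ≤ 1 := fun i => by
    simp only [g]
    compute_degree
  have hg1 : ∀ i, (g i).coeff 1 = algebraMap K _ (ν i) := fun i => by simp [g, coeff_C]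
  have hg2 : ∀ i, aeval (dir ν w 0) (g i) = w i := fun i => by
    have : aeval (dir ν w 0) (g i) = (a i : L) + ν i • dir ν w 0 := by
      simp only [g, map_add, map_mul, aeval_C, aeval_X, Algebra.smul_def]
      rfl
    rw [this]
    refine Fin.cases ?_ (fun j => ?_) i
    · simp [a, dir, smul_smul, n0]
    · simp [a, dir, smul_smul]
  obtain ⟨k1, k2⟩ := T3_top g hg P he
  have k3 : aeval (dir ν w 0) (MvPolynomial.aeval g P) = MvPolynomial.aeval w P := by
    have := MvPolynomial.comp_aeval_apply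
      ((aeval (dir ν w 0) : (TW K fun j : Fin n => dir ν w j.succ)[X] →ₐ[_] L).restrictScalars K)
      (f := g) P
    rw [AlgHom.restrictScalars_apply] at this
    rw [this]
    exact congrArg (fun z => MvPolynomial.aeval z P) (funext hg2)
  rw [funext hg1] at k2
  replace k2 := k2.trans (MvPolynomial.aeval_algebraMap_apply _ ν _)
  rw [← hcd] at k2
  have k4 : aeval (dir ν w 0) (C (algebraMap K _ c⁻¹) * MvPolynomial.aeval g P) =
      c⁻¹ • MvPolynomial.aeval w P := by
    rw [map_mul, aeval_C, k3, Algebra.smul_def]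
    rfl
  have k5 : ‖MvPolynomial.aeval w P‖ ≤ ‖f‖ := by
    have := IsUltrametricDist.norm_add_le_max f (-(f - MvPolynomial.aeval w P))
    rw [norm_neg, max_eq_left hP.le] at this
    simpa using this
  obtain ⟨u, ω, u1, u2, u3⟩ := E.prep (ω := C (algebraMap K _ c⁻¹) * MvPolynomial.aeval g P)
    ⟨monic_of_natDegree_le_of_coeff_eq_one e ((natDegree_C_mul_le _ _).trans k1) (by
      rw [coeff_C_mul, k2, ← map_mul, inv_mul_cancel₀ c1, map_one]), by
      rw [k4, norm_smul, norm_inv, inv_mul_le_one₀ c0]; exact k5.trans hc⟩ (R.smul_mem hf c⁻¹) (by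
      rw [k4, ← smul_sub, norm_smul, norm_inv, inv_mul_lt_one₀ c0]; exact hP.trans_le hc)
  refine ⟨u * algebraMap K R c⁻¹, ω, u1.mul ((Ne.isUnit (inv_ne_zero c1)).map _), u2, ?_⟩
  rw [← u3, Algebra.smul_def, ← mul_assoc]
  rfl

theorem Co.sh [IsAlgClosed K] {w : Fin (n + 1) → L} (h : Co R w) {f f' : L} (hf : f ∈ R)
    (h0 : f ≠ 0) (hf' : f' ∈ R) (h0' : f' ≠ 0) :
    ∃ (u : Fin (n + 1) → L) (M : Fin (n + 1) → Fin (n + 1) → K), Co R u ∧
      (∀ i, u i = ∑ j, M i j • w j) ∧ (∃ (v : R) (ω : (TW K fun j : Fin n => u j.succ)[X]),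
        IsUnit v ∧ WP (u 0) ω ∧ v * f = aeval (u 0) ω) ∧
      ∃ (v : R) (ω : (TW K fun j : Fin n => u j.succ)[X]),
        IsUnit v ∧ WP (u 0) ω ∧ v * f' = aeval (u 0) ω := by
  classical
  obtain ⟨P, hP⟩ := T3b_dir h hf h0
  obtain ⟨P', hP'⟩ := T3b_dir h hf' h0'
  obtain ⟨ν, hν, k⟩ := h.gen.gp {MvPolynomial.X 0, P, P'}
  have n0 : ‖ν 0‖ = 1 := by simpa [h.gen.norm_eq_one] using k (MvPolynomial.X 0) (by simp)
  refine ⟨Br.dir ν w, Fin.cons (Pi.single 0 (ν 0)⁻¹) fun i =>
    Pi.single i.succ 1 - Pi.single 0 (ν i.succ * (ν 0)⁻¹), h.dir hν n0, fun i => ?_,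
    hP ν hν n0 (k P (by simp)), hP' ν hν n0 (k P' (by simp))⟩
  refine Fin.cases ?_ (fun j => ?_) i <;>
    simp [Br.dir, Pi.single_apply, ite_smul, sub_smul, Finset.sum_sub_distrib]

end Pool.Agent.Work.MP_e120ef_ag.Br
end

-- merged part: Pool.Agent.Work.MP_e120ef_ag.Br.T4
section
/-!
# Two algebraic lemmas

Plans.  `T4_bez` (pure algebra): over `F = FractionRing S` let `g'` be the monic gcd of the images of `ω` and `r` (`EuclideanDomain.gcd`, `gcd_eq_gcd_ab`, normalise by the leading coefficient); `IsIntegrallyClosed.eq_map_mul_C_of_dvd` lifts it to a monic `g`;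
`Polynomial.map_dvd_map` gives `ω = g * ω₁`, `r = g * r₁`; cancel `g'` in the Bezout relation and clear denominators (`IsLocalization.integerNormalization_spec` or `exist_integer_multiples`).
`T4_ic`: `isIntegrallyClosed_iff` / `IsIntegrallyClosed.of_isIntegrallyClosedIn`...: map `FractionRing R` to `L` (`IsFractionRing.lift`, injective), write `x = a / b` (`IsFractionRing.div_surjective`).
-/

set_option linter.unusedSectionVars false

open Filter Topology Polynomial

namespace Pool.Agent.Work.MP_e120ef_ag.Br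

theorem T4_bez {S : Type} [CommRing S] [IsDomain S] [IsIntegrallyClosed S] {ω : S[X]}
    (hω : ω.Monic) (r : S[X]) : ∃ (g ω₁ r₁ α β : S[X]) (ρ : S), g.Monic ∧ ω₁.Monic ∧
      ω = g * ω₁ ∧ r = g * r₁ ∧ ρ ≠ 0 ∧ α * r₁ + β * ω₁ = C ρ := by
  classical
  let F := FractionRing S
  have inj : Function.Injective (algebraMap S F) := IsFractionRing.injective S F
  have hW := hω.map (algebraMap S F)
  have d1 := EuclideanDomain.gcd_dvd_left (ω.map (algebraMap S F)) (r.map (algebraMap S F))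
  have d2 := EuclideanDomain.gcd_dvd_right (ω.map (algebraMap S F)) (r.map (algebraMap S F))
  have bz := EuclideanDomain.gcd_eq_gcd_ab (ω.map (algebraMap S F)) (r.map (algebraMap S F))
  generalize EuclideanDomain.gcdA (ω.map (algebraMap S F)) (r.map (algebraMap S F)) = A at bz
  generalize EuclideanDomain.gcdB (ω.map (algebraMap S F)) (r.map (algebraMap S F)) = B at bz
  generalize EuclideanDomain.gcd (ω.map (algebraMap S F)) (r.map (algebraMap S F)) = d at d1 d2 bz
  have d0 : d ≠ 0 := ne_zero_of_dvd_ne_zero hW.ne_zero d1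
  have l0 : d.leadingCoeff ≠ 0 := leadingCoeff_ne_zero.2 d0
  obtain ⟨g, hg⟩ := IsIntegrallyClosed.eq_map_mul_C_of_dvd F hω d1
  have gm : g.Monic := by
    refine monic_of_injective inj ?_
    have := congrArg leadingCoeff hg
    rw [leadingCoeff_mul, leadingCoeff_C] at this
    exact mul_right_cancel₀ l0 (this.trans (one_mul _).symm)
  have gd : g.map (algebraMap S F) ∣ d := ⟨_, hg.symm⟩
  obtain ⟨ω₁, e1⟩ := (map_dvd_map _ inj gm).1 (gd.trans d1)
  obtain ⟨r₁, e2⟩ := (map_dvd_map _ inj gm).1 (gd.trans d2)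
  obtain ⟨a, a0, ha⟩ := IsLocalization.integerNormalization_spec (nonZeroDivisors S)
    (A * C d.leadingCoeff⁻¹)
  obtain ⟨b, b0, hb⟩ := IsLocalization.integerNormalization_spec (nonZeroDivisors S)
    (B * C d.leadingCoeff⁻¹)
  generalize IsLocalization.integerNormalization (nonZeroDivisors S) (A * C d.leadingCoeff⁻¹) = A'
    at ha
  generalize IsLocalization.integerNormalization (nonZeroDivisors S) (B * C d.leadingCoeff⁻¹) = B'
    at hb
  refine ⟨g, ω₁, r₁, C a * B', C b * A', a * b, gm, gm.of_mul_monic_left (e1 ▸ hω), e1, e2,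
    mul_ne_zero (nonZeroDivisors.ne_zero a0) (nonZeroDivisors.ne_zero b0), map_injective _ inj ?_⟩
  have i : C d.leadingCoeff⁻¹ * C d.leadingCoeff = 1 := by rw [← C_mul, inv_mul_cancel₀ l0, C_1]
  rw [← algebraMap_smul F, smul_eq_C_mul] at ha hb
  rw [e1, e2, Polynomial.map_mul, Polynomial.map_mul] at bz
  refine mul_left_cancel₀ (gm.map (algebraMap S F)).ne_zero ?_
  simp only [Polynomial.map_mul, Polynomial.map_add, map_C, ha, hb, map_mul]
  generalize d.leadingCoeff = l at hg i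
  linear_combination (C (algebraMap S F a) * C (algebraMap S F b)) *
    (C l⁻¹ * (- bz - hg) + g.map (algebraMap S F) * i)

theorem T4_ic {K L : Type} [Field K] [Field L] [Algebra K L] {R : Subalgebra K L}
    (h : ∀ a ∈ R, ∀ b ∈ R, b ≠ 0 → IsIntegral R (a / b) → a / b ∈ R) :
    IsIntegrallyClosed R := by
  let f : FractionRing R →ₐ[R] L := IsFractionRing.liftAlgHom (g := Algebra.ofId R L)
    Subtype.val_injective
  refine (isIntegrallyClosed_iff (FractionRing R)).2 fun {x} hx => ?_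
  obtain ⟨a, b, hb, rfl⟩ := IsFractionRing.div_surjective (A := R) x
  have e : f (algebraMap R _ a / algebraMap R _ b) = (a : L) / b := by
    rw [map_div₀, f.commutes, f.commutes]; rfl
  have b0 : (b : L) ≠ 0 := fun k => nonZeroDivisors.ne_zero hb (Subtype.ext k)
  refine ⟨⟨_, h a a.2 b b.2 b0 (e ▸ hx.map f)⟩, f.toRingHom.injective ?_⟩
  exact (f.commutes _).trans e.symm

end Pool.Agent.Work.MP_e120ef_ag.Br
end

-- merged part: Pool.Agent.Work.MP_e120ef_ag.Br.T4b
section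
/-!
# Reduced fractions and normality

Plans.  `Ext.frac`: `Ext.div` for `a * v`: `a v = h ω + r`; `T4_bez`; `1 ≤ ‖g t‖`, `1 ≤ ‖ω₁ t‖` and the product is `≤ 1`, so `ω₁` is a Weierstrass polynomial; `A = h ω₁ + r₁`; multiply `a ω₁ = b A` by `v * g t ≠ 0` to check it; `α A + (β - α h) ω₁ = ρ`.
`Fr.dvd`: `b' ρ = ω (α a' + β b')`; divide `b' = h ω + r`, then `aeval t (C ρ * r) = (α a' + β b' - ρ h) ω`, `Ext.uniq` (`degree_C_mul`-like bound), so `r = 0`.
`Fr.normal`: if `x = A / ω t` is integral over `R`, then `A ^ m = ω t * c` with `c ∈ R` (`m` the degree of the monic equation; multiply it by `(ω t) ^ m`, or `Polynomial.scaleRoots`), so `ρ ^ m = (α A + β ω) ^ m ∈ ω R`; if `0 < degree ω`, `Ext.uniq` for `C (ρ ^ m)` gives `ρ ^ m = 0`; otherwise `ω = 1`.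
`Co.normal`: induction on `n` for all `R`, `w`, through `T4_ic`.  `n = 0`: `b` is a unit (`Co.zero_dim`).  Step: `Co.sh` for `b`, `b`, `Co.ext` with `i₀ = 0` (`Gen.comp`, `Gen.co`), `Ext.frac`, `Fr.normal`.
-/

set_option linter.unusedSectionVars false

open Filter Topology Polynomial

namespace Pool.Agent.Work.MP_e120ef_ag.Br

variable {K : Type} [NontriviallyNormedField K] [IsUltrametricDist K] {n : ℕ}
  {L : Type} [NormedField L] [IsUltrametricDist L] [CompleteSpace L] [NormedAlgebra K L]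
  {R S : Subalgebra K L} {t : L}

/-- `A / ω t` is a reduced fraction -/
structure Fr (R : Subalgebra K L) (t : L) (A : L) (ω : S[X]) : Prop where
  mem : A ∈ R
  wp : WP t ω
  bez : ∃ α ∈ R, ∃ β ∈ R, ∃ ρ : S, ρ ≠ 0 ∧ α * A + β * aeval t ω = ρ

theorem Ext.frac (E : Ext S R t) [IsIntegrallyClosed S] {a b : L} (ha : a ∈ R) {v : R}
    (hv : IsUnit v) {ω : S[X]} (hω : WP t ω) (e : v * b = aeval t ω) :
    ∃ (A : L) (ω₁ : S[X]), Fr R t A ω₁ ∧ a * aeval t ω₁ = b * A := by
  have hav : a * (v : L) ∈ R := R.mul_mem ha v.2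
  obtain ⟨h, hh, r, -, e1⟩ := E.div hω hav
  obtain ⟨g, ω₁, r₁, α, β, ρ, hg, h1, e2, e3, hρ, e4⟩ := T4_bez hω.monic r
  have g1 := E.one_le hg
  have g2 := E.one_le h1
  have e2' : aeval t ω = aeval t g * aeval t ω₁ := by rw [e2, map_mul]
  have e3' : aeval t r = aeval t g * aeval t r₁ := by rw [e3, map_mul]
  have e4' : aeval t α * aeval t r₁ + aeval t β * aeval t ω₁ = (ρ : L) := by
    have := congrArg (aeval t) e4
    rw [map_add, map_mul, map_mul, aeval_C] at this
    exact this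
  have hle : ‖aeval t ω₁‖ ≤ 1 := by
    have h3 := hω.le
    rw [e2', norm_mul] at h3
    nlinarith
  refine ⟨h * aeval t ω₁ + aeval t r₁, ω₁, ⟨R.add_mem (R.mul_mem hh (E.mem _)) (E.mem _),
    ⟨h1, hle⟩, aeval t α, E.mem _, aeval t β - aeval t α * h,
    R.sub_mem (E.mem _) (R.mul_mem (E.mem _) hh), ρ, hρ, ?_⟩, ?_⟩
  · rw [← e4']
    ring
  · have v0 : (v : L) ≠ 0 := fun h0 => hv.ne_zero (Subtype.ext h0)
    have g0 : aeval t g ≠ 0 := norm_pos_iff.1 (lt_of_lt_of_le one_pos g1)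
    apply mul_left_cancel₀ (mul_ne_zero v0 g0)
    rw [e2'] at e e1
    rw [e3'] at e1
    linear_combination (aeval t g * aeval t ω₁) * e1 -
      (aeval t g * (h * aeval t ω₁ + aeval t r₁)) * e

theorem Fr.dvd (E : Ext S R t) {A : L} {ω : S[X]} (F : Fr R t A ω) {a' b' : L} (ha : a' ∈ R)
    (hb : b' ∈ R) (e : a' * aeval t ω = b' * A) : ∃ h ∈ R, b' = h * aeval t ω := by
  obtain ⟨α, hα, β, hβ, ρ, hρ, e1⟩ := F.bez
  obtain ⟨h, hh, r, hr, e2⟩ := E.div F.wp hb
  have h1 : C ρ * r = 0 := by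
    refine E.uniq F.wp (h := α * a' + β * b' - ρ * h)
      (R.sub_mem (R.add_mem (R.mul_mem hα ha) (R.mul_mem hβ hb)) (R.mul_mem (E.le ρ.2) hh))
      (by rwa [degree_C_mul hρ]) ?_
    have h2 : aeval t (C ρ) = (ρ : L) := aeval_C t ρ
    rw [map_mul, h2]
    linear_combination -(ρ : L) * e2 - b' * e1 - α * e
  have h3 : r = 0 := (mul_eq_zero.1 h1).resolve_left (C_ne_zero.2 hρ)
  refine ⟨h, hh, ?_⟩
  rw [e2, h3, map_zero, add_zero]

theorem T4b_pow {ρ W : L} (hρ : ρ ∈ R) (hW : W ∈ R) (h0 : W ≠ 0) (h : IsIntegral R (ρ / W)) :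
    ∃ m : ℕ, ∃ c ∈ R, ρ ^ m = c * W := by
  obtain ⟨p, hp, e⟩ := h
  obtain ⟨y, rfl⟩ : ∃ y, ρ = y * W := ⟨ρ / W, (div_mul_cancel₀ ρ h0).symm⟩
  rw [mul_div_cancel_right₀ y h0, hp.as_sum, eval₂_add, eval₂_X_pow, eval₂_finsetSum] at e
  refine ⟨p.natDegree, -∑ i ∈ Finset.range p.natDegree,
    (p.coeff i : L) * (y * W) ^ i * W ^ (p.natDegree - 1 - i), R.neg_mem (R.sum_mem fun i _ =>
      R.mul_mem (R.mul_mem (p.coeff i).2 (R.pow_mem hρ _)) (R.pow_mem hW _)), ?_⟩
  rw [mul_pow, eq_neg_of_add_eq_zero_left e, neg_mul, neg_mul, Finset.sum_mul, Finset.sum_mul]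
  congr 1
  refine Finset.sum_congr rfl fun i hi => ?_
  have hi' := Finset.mem_range.1 hi
  have h1 : W ^ p.natDegree = W ^ i * W ^ (p.natDegree - 1 - i) * W := by
    rw [← pow_add, ← pow_succ]
    congr 1
    omega
  have h2 : eval₂ (algebraMap R L) y (C (p.coeff i) * X ^ i) = (p.coeff i : L) * y ^ i := by
    rw [eval₂_mul, eval₂_C, eval₂_X_pow]
    rfl
  rw [h1, h2]
  ring

theorem Fr.normal (E : Ext S R t) {A : L} {ω : S[X]} (F : Fr R t A ω)
    (h : IsIntegral R (A / aeval t ω)) : A / aeval t ω ∈ R := by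
  obtain ⟨α, hα, β, hβ, ρ, hρ, e1⟩ := F.bez
  have w0 : aeval t ω ≠ 0 := norm_pos_iff.1 (lt_of_lt_of_le one_pos (E.one_le F.wp.monic))
  by_cases hd : ω.degree ≤ 0
  · have h1 := F.wp.monic.degree_le_zero_iff_eq_one.1 hd
    rw [h1, map_one, div_one]
    exact F.mem
  · exfalso
    have h1 : (ρ : L) / aeval t ω = α * (A / aeval t ω) + β := by
      rw [← e1]
      field_simp
    have h2 : IsIntegral R ((ρ : L) / aeval t ω) := by
      rw [h1]
      exact ((isIntegral_algebraMap (x := (⟨α, hα⟩ : R))).mul h).add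
        (isIntegral_algebraMap (x := (⟨β, hβ⟩ : R)))
    obtain ⟨m, c, hc, e2⟩ := T4b_pow (E.le ρ.2) (E.mem ω) w0 h2
    have h3 : C (ρ ^ m) = 0 := by
      refine E.uniq F.wp hc (lt_of_le_of_lt degree_C_le (not_le.1 hd)) ?_
      rw [← e2]
      exact aeval_C t (ρ ^ m)
    exact pow_ne_zero m hρ (C_eq_zero.1 h3)

variable [IsAlgClosed K] [CompleteSpace K]

theorem Co.normal {w : Fin n → L} (h : Co R w) : IsIntegrallyClosed R := by
  induction n generalizing R with
  | zero =>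
    refine T4_ic fun a ha b hb h0 _ => ?_
    obtain ⟨c, hc⟩ := (h.zero_dim (f := ⟨b, hb⟩) fun e => h0 (congrArg Subtype.val e)).exists_right_inv
    have hc' : b * (c : L) = 1 := congrArg Subtype.val hc
    rw [div_eq_mul_inv, ← eq_inv_of_mul_eq_one_right hc']
    exact R.mul_mem ha c.2
  | succ n ih =>
    refine T4_ic fun a ha b hb h0 hi => ?_
    obtain ⟨u, -, hu, -, ⟨v, ω, hv, hω, e⟩, -⟩ := h.sh hb h0 hb h0
    have h' : Co (TW K fun j : Fin n => u j.succ) fun j : Fin n => u j.succ :=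
      (hu.gen.comp (Fin.succ_injective n)).co
    have E : Ext (TW K fun j : Fin n => u j.succ) R (u 0) := hu.ext 0 h'
    have := ih h'
    obtain ⟨A, ω₁, F, e'⟩ := E.frac ha hv hω e
    have w0 : aeval (u 0) ω₁ ≠ 0 :=
      norm_pos_iff.1 (lt_of_lt_of_le one_pos (E.one_le F.wp.monic))
    have h1 : a / b = A / aeval (u 0) ω₁ := by
      rw [div_eq_div_iff h0 w0, e', mul_comm]
    rw [h1] at hi ⊢
    exact F.normal E hi

end Pool.Agent.Work.MP_e120ef_ag.Br
end

-- merged part: Pool.Agent.Work.MP_e120ef_ag.Br.T5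
section
/-!
# Reduced fractions stay reduced on smaller polydiscs

Plan.  `n = 0`: `A = a * b⁻¹`, `ω = 1` (`Co.zero_dim`).  Else `Co.sh` for `b`, `b`, then `Co.normal`, `Ext.frac`, `Fr.dvd` give `A`, `ω` with the first three properties.
Last part (`T5_unit`): `v ≠ 0` as `res ω ≠ 0` (`res_inj`).  `Co.sh` for `ω` and `v` gives new coordinates `u`, `S = TW (tail u)`; `Ext.frac` for the fraction `A / ω` gives `A₁`, `ω₁` with `A * ω₁ t = ω * A₁`; by the divisibility property `ω₁ t = ω * k`, so `A₁ = k * A`, and the Bezout relation becomes `α k A + β k ω = ρ ∈ S`, `ρ ≠ 0`.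
So `v` divides `res ρ`, which is nonzero and lies in `S` (`Co.res_eq`, and `res` of `u` restricted to `S` is `res` of `tail u`: `Co.eq_ev`, `ev_mem`).  With `v' * v = W t`, `v'` a unit: `res ρ = c * W t`; if `0 < degree W` then `Ext.uniq` for `C (res ρ)` gives `res ρ = 0`; so `W = 1` and `v` is a unit.
-/

set_option linter.unusedSectionVars false

open Filter Topology Polynomial

namespace Pool.Agent.Work.MP_e120ef_ag.Br

variable {K : Type} [NontriviallyNormedField K] [IsUltrametricDist K] {n : ℕ}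
  {L : Type} [NormedField L] [IsUltrametricDist L] [CompleteSpace L] [NormedAlgebra K L]
  {R S : Subalgebra K L}

variable [IsAlgClosed K] [CompleteSpace K]

theorem T5_unit {w : Fin (n + 1) → L} (h : Co R w) {A ω : R} (h0 : ω ≠ 0)
    (hd : ∀ a' b' : R, a' * ω = b' * A → ω ∣ b') {q : K} (hq : ‖q‖ ≤ 1) (hq0 : q ≠ 0) {v : R}
    (h1 : v ∣ h.res q hq A) (h2 : v ∣ h.res q hq ω) : IsUnit v := by
  have ne : ∀ {x : R}, x ≠ 0 → h.res q hq x ≠ 0 := fun hx e =>
    hx (h.res_inj hq hq0 (e.trans (map_zero _).symm))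
  have hv : v ≠ 0 := fun e => ne h0 (zero_dvd_iff.1 (e ▸ h2))
  obtain ⟨u, M, hu, hM, ⟨v₁, W₁, hv₁, hW₁, e₁⟩, v₂, W₂, hv₂, hW₂, e₂⟩ :=
    h.sh ω.2 (fun e => h0 (Subtype.ext e)) v.2 fun e => hv (Subtype.ext e)
  have h' : Co (TW K fun j : Fin n => u j.succ) fun j => u ((0 : Fin (n + 1)).succAbove j) :=
    (hu.gen.comp (Fin.succ_injective n)).co
  have E := hu.ext 0 h'
  have := h'.normal
  obtain ⟨A₁, ω₁, F, e⟩ := E.frac A.2 hv₁ hW₁ e₁
  obtain ⟨k, hk⟩ := hd ⟨A₁, F.mem⟩ ⟨_, E.mem ω₁⟩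
    (Subtype.ext ((mul_comm _ _).trans (e.symm.trans (mul_comm _ _))))
  replace hk : aeval (u 0) ω₁ = (ω : L) * k := congrArg Subtype.val hk
  have hA : A₁ = k * A := mul_left_cancel₀ (fun e => h0 (Subtype.ext e))
    (e.symm.trans (by rw [hk]; ring))
  obtain ⟨α, hα, β, hβ, ρ, hρ, b⟩ := F.bez
  let r : R := ⟨aeval (u 0) (C ρ), E.mem _⟩
  have r1 : (r : L) = ρ := aeval_C _ _
  have r2 : r = ⟨α, hα⟩ * k * A + ⟨β, hβ⟩ * k * ω := Subtype.ext (by
    rw [r1, ← b, hA, hk]
    push_cast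
    ring)
  have r3 : v ∣ h.res q hq r := by
    rw [r2, map_add, map_mul _ _ A, map_mul _ _ ω]
    exact (h1.mul_left _).add (h2.mul_left _)
  have r4 : (h.res q hq r : L) ∈ TW K fun j : Fin n => u j.succ := by
    rw [h.res_eq hq hu M hM, hu.res_val, hu.ev_aeval 0 h', eval₂_C]
    exact h'.ev_mem _ h'.closed (fun j => Subalgebra.smul_mem _ (h'.mem j) q) ρ
  have r5 := ne (x := r) fun e => hρ (Subtype.ext (r1.symm.trans (congrArg Subtype.val e)))
  obtain ⟨c, hc⟩ := r3
  obtain ⟨v₃, h3⟩ := hv₂.exists_left_inv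
  have d : W₂.degree ≤ 0 := not_lt.1 fun d => by
    have k := C_eq_zero.1 <| E.uniq hW₂ (c * v₃).2 (r := C ⟨_, r4⟩) (degree_C_le.trans_lt d) <| by
      rw [aeval_C, ← e₂]
      exact congrArg Subtype.val (show h.res q hq r = c * v₃ * (v₂ * v) by
        rw [hc]; linear_combination (-(v * c)) * h3)
    have k' := congrArg Subtype.val k
    exact r5 (Subtype.ext k')
  rw [hW₂.monic.degree_le_zero_iff_eq_one.1 d, map_one] at e₂
  exact IsUnit.of_mul_eq_one_right v₂ (Subtype.ext e₂)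

theorem Co.red {w : Fin n → L} (h : Co R w) (a : R) {b : R} (hb : b ≠ 0) :
    ∃ A ω : R, ω ≠ 0 ∧ a * ω = b * A ∧ (∀ a' b' : R, a' * ω = b' * A → ω ∣ b') ∧
      ∀ (q : K) (hq : ‖q‖ ≤ 1), q ≠ 0 → ∀ v : R, v ∣ h.res q hq A → v ∣ h.res q hq ω →
        IsUnit v := by
  cases n with
  | zero =>
    obtain ⟨c, hc⟩ := (h.zero_dim hb).exists_right_inv
    exact ⟨c * a, 1, one_ne_zero, by rw [← mul_assoc, hc, mul_comm], fun _ _ _ => one_dvd _,
      fun q hq _ v _ h2 => isUnit_of_dvd_one (map_one (h.res q hq) ▸ h2)⟩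
  | succ n =>
    have b0 : (b : L) ≠ 0 := fun e => hb (Subtype.ext e)
    obtain ⟨u, M, hu, -, ⟨v, W, hv, hW, e⟩, -⟩ := h.sh b.2 b0 b.2 b0
    have h' : Co (TW K fun j : Fin n => u j.succ) fun j => u ((0 : Fin (n + 1)).succAbove j) :=
      (hu.gen.comp (Fin.succ_injective n)).co
    have E := hu.ext 0 h'
    have := h'.normal
    obtain ⟨A, ω, F, e'⟩ := E.frac a.2 hv hW e
    have h0 : (⟨_, E.mem ω⟩ : R) ≠ 0 := fun e =>
      F.wp.monic.ne_zero (E.inj (congrArg Subtype.val e))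
    have hd : ∀ a' b' : R, a' * ⟨_, E.mem ω⟩ = b' * ⟨A, F.mem⟩ → ⟨_, E.mem ω⟩ ∣ b' := by
      intro a' b' e
      obtain ⟨k, hk, e⟩ := F.dvd E a'.2 b'.2 (congrArg Subtype.val e)
      exact ⟨⟨k, hk⟩, Subtype.ext (e.trans (mul_comm _ _))⟩
    exact ⟨⟨A, F.mem⟩, _, h0, Subtype.ext e', hd,
      fun q hq hq0 v h1 h2 => T5_unit h h0 hd hq hq0 h1 h2⟩

end Pool.Agent.Work.MP_e120ef_ag.Br
end

-- merged part: Pool.Agent.Work.MP_e120ef_ag.Br.T6
section
/-!
# Gluing fractions on growing polydiscs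

Plans.  `res_small`: for a polynomial `P`, `aeval (q • w) P - P 0 = aeval w P'` where the coefficients of `P'` are `q ^ degree I * coeff I P` for `I ≠ 0`; or simply `ev_lip` for the points `q • w` and `0` of `L`, with `ev_map` along `K → L`.
`unit_zero`: `e = h.ev 0` is a ring map, `e v * e v⁻¹ = 1`, `‖v‖ ‖v⁻¹‖ = 1`, `‖e v‖ ≤ ‖v‖`, `‖e v⁻¹‖ ≤ ‖v⁻¹‖`.
`T6_iter`: induction: `x = ρ^[j] v - 1 = ρ^[j] (v - 1)` has value `0` at `0` (`ev_res`, `smul_zero`) and `‖ρ x‖ ≤ ‖q‖ ‖x‖`.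
`T6_lim`: `s j = ρ^[j] (f (N + j))`, `s (j + 1) = ρ^[j] (v (N + j)) * s j`; the first factor has norm one (it is contractive image of a unit of norm one: `‖ρ^[j] v‖ ≤ 1`, `‖ρ^[j] v⁻¹‖ ≤ 1`), so `‖s j‖ = ‖f N‖` and `‖s (j + 1) - s j‖ ≤ ‖q‖ ^ j ‖f N‖`; `cauchySeq_of_le_geometric`, `R` is closed.
`glue0`: `Co.red` gives `A N`, `ω N` with `ω N * x N = A N`; `hc` and the divisibility give `ρ (ω (N + 1)) = v N * ω N`, then `ρ (A (N + 1)) = v N * A N`, and `v N` is a unit.  Rescale by scalars `γ 0 = 1`, `γ (N + 1) = γ N / (value of v N at 0)`, so that the new units have value `1` at `0` and norm one.  Apply `T6_lim` to both families;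
`ρ^[j] (ω (N + j)) * x N = ρ^[j] (A (N + j))` by induction on `j`; pass to the limit; `ρ` is continuous (`res_cont`) and `ρ^[j + 1] (f (N + (j + 1))) = ρ (ρ^[j] (f (N + 1 + j)))`.
-/

set_option linter.unusedSectionVars false

open Filter Topology

namespace Pool.Agent.Work.MP_e120ef_ag.Br

variable {K : Type} [NontriviallyNormedField K] [IsUltrametricDist K] [CompleteSpace K] {n : ℕ}
  {L : Type} [NormedField L] [IsUltrametricDist L] [CompleteSpace L] [NormedAlgebra K L]
  {R : Subalgebra K L} {w : Fin n → L} (h : Co R w) {q : K} (hq : ‖q‖ ≤ 1)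

/-- the value at the origin -/
noncomputable def Co.e0 : R →ₐ[K] K := h.ev 0 fun _ => norm_zero.trans_le zero_le_one

theorem Co.res_small (x : R) :
    ‖(h.res q hq x : L) - algebraMap K L (h.e0 x)‖ ≤ ‖q‖ * ‖(x : L)‖ := by
  have hy : ∀ i, ‖Algebra.ofId K L ((0 : Fin n → K) i)‖ ≤ 1 := fun i => by simp
  have e := h.ev_map (z := (0 : Fin n → K)) (fun _ => norm_zero.trans_le zero_le_one)
    (Algebra.ofId K L) (continuous_algebraMap K L) hy x
  have e' : algebraMap K L (h.e0 x) = _ := e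
  rw [e', h.res_val]
  refine h.ev_lip _ _ (norm_nonneg q) (fun i => ?_) x
  rw [Pi.zero_apply, map_zero, sub_zero, Pi.smul_apply, norm_smul]
  exact mul_le_of_le_one_right (norm_nonneg q) (h.gen.1 i)

theorem Co.e0_res (x : R) : h.e0 (h.res q hq x) = h.e0 x := by
  have key : ∀ (z : Fin n → K) (hz : ∀ i, ‖z i‖ ≤ 1), z = 0 → h.ev z hz = h.e0 := by
    rintro _ _ rfl
    rfl
  have hqz : ∀ i, ‖(q • (0 : Fin n → K)) i‖ ≤ 1 := fun i => by simp
  rw [← key _ hqz (smul_zero q)]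
  nth_rewrite 1 [key _ hqz (smul_zero q)]
  exact h.ev_res _ hq hqz x

theorem Co.unit_zero {v : R} (hv : IsUnit v) : ‖h.e0 v‖ = ‖(v : L)‖ ∧ h.e0 v ≠ 0 := by
  obtain ⟨v', hv'⟩ := hv.exists_right_inv
  have e1 : h.e0 v * h.e0 v' = 1 := by rw [← map_mul, hv', map_one]
  have e2 : ‖(v : L)‖ * ‖(v' : L)‖ = 1 := by
    rw [← norm_mul, ← Subalgebra.coe_mul, hv', Subalgebra.coe_one, norm_one]
  have e3 : ‖h.e0 v‖ * ‖h.e0 v'‖ = 1 := by rw [← norm_mul, e1, norm_one]
  have l1 : ‖h.e0 v‖ ≤ ‖(v : L)‖ := h.norm_ev _ v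
  have l2 : ‖h.e0 v'‖ ≤ ‖(v' : L)‖ := h.norm_ev _ v'
  refine ⟨le_antisymm l1 (not_lt.1 fun hlt => ?_), left_ne_zero_of_mul_eq_one e1⟩
  have p : 0 < ‖(v' : L)‖ := (norm_nonneg _).lt_of_ne' (right_ne_zero_of_mul_eq_one e2)
  have := (mul_le_mul_of_nonneg_left l2 (norm_nonneg (h.e0 v))).trans_lt
    (mul_lt_mul_of_pos_right hlt p)
  rw [e2, e3] at this
  exact lt_irrefl _ this

theorem T6_e0_iter (x : R) (j : ℕ) : h.e0 ((h.res q hq)^[j] x) = h.e0 x := by
  induction j with
  | zero => rfl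
  | succ j ih => rw [Function.iterate_succ_apply', h.e0_res, ih]

theorem T6_small {x : R} (hx : h.e0 x = 0) (j : ℕ) :
    ‖(((h.res q hq)^[j] x : R) : L)‖ ≤ ‖q‖ ^ j * ‖(x : L)‖ := by
  induction j with
  | zero => simp
  | succ j ih =>
    have := h.res_small hq ((h.res q hq)^[j] x)
    rw [T6_e0_iter, hx, map_zero, sub_zero] at this
    rw [Function.iterate_succ_apply', pow_succ', mul_assoc]
    exact this.trans (mul_le_mul_of_nonneg_left ih (norm_nonneg q))

theorem T6_unit_iter {v : R} (hv : IsUnit v) (j : ℕ) : IsUnit ((h.res q hq)^[j] v) := by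
  induction j with
  | zero => exact hv
  | succ j ih =>
    rw [Function.iterate_succ_apply']
    exact ih.map _



theorem T6_iter {v : R} (hv : IsUnit v) (h1 : h.e0 v = 1) (j : ℕ) :
    ‖(((h.res q hq)^[j] v : R) : L) - 1‖ ≤ ‖q‖ ^ j ∧ ‖(((h.res q hq)^[j] v : R) : L)‖ = 1 := by
  constructor
  · have e : (h.res q hq)^[j] v - 1 = (h.res q hq)^[j] (v - 1) := by
      rw [iterate_map_sub, iterate_map_one]
    have e' : (((h.res q hq)^[j] v : R) : L) - 1 = (((h.res q hq)^[j] (v - 1) : R) : L) := by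
      rw [← e]
      rfl
    rw [e']
    refine (T6_small h hq (by rw [map_sub, h1, map_one, sub_self]) j).trans
      (mul_le_of_le_one_right (by positivity) ?_)
    have hn : ‖(v : L)‖ = 1 := by rw [← (h.unit_zero hv).1, h1, norm_one]
    have := IsUltrametricDist.norm_add_le_max (v : L) (-1)
    rw [norm_neg, norm_one, hn, max_self, ← sub_eq_add_neg] at this
    exact this
  · rw [← (h.unit_zero (T6_unit_iter h hq hv j)).1, T6_e0_iter, h1, norm_one]

theorem T6_lim (hq' : ‖q‖ < 1) (f v : ℕ → R) (hv : ∀ N, IsUnit (v N)) (h1 : ∀ N, h.e0 (v N) = 1)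
    (hf : ∀ N, h.res q hq (f (N + 1)) = v N * f N) (N : ℕ) : ∃ g : R, ‖(g : L)‖ = ‖(f N : L)‖ ∧
      Tendsto (fun j => (h.res q hq)^[j] (f (N + j))) atTop (𝓝 g) := by
  set s : ℕ → L := fun j => (((h.res q hq)^[j] (f (N + j)) : R) : L) with hs
  have e : ∀ j, s (j + 1) = (((h.res q hq)^[j] (v (N + j)) : R) : L) * s j := fun j => by
    simp only [hs]
    rw [Function.iterate_succ_apply, ← add_assoc, hf, iterate_map_mul, Subalgebra.coe_mul]
  have hn : ∀ j, ‖s j‖ = ‖(f N : L)‖ := by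
    intro j
    induction j with
    | zero => rfl
    | succ j ih => rw [e, norm_mul, (T6_iter h hq (hv _) (h1 _) j).2, one_mul, ih]
  have hC : CauchySeq s := by
    refine cauchySeq_of_le_geometric ‖q‖ ‖(f N : L)‖ hq' fun j => ?_
    rw [dist_comm, dist_eq_norm, e, ← sub_one_mul, norm_mul, hn, mul_comm]
    exact mul_le_mul_of_nonneg_left (T6_iter h hq (hv _) (h1 _) j).1 (norm_nonneg _)
  obtain ⟨g, hg⟩ := cauchySeq_tendsto_of_complete hC
  have hgR : g ∈ R := h.closed.mem_of_tendsto hg (Eventually.of_forall fun j => Subtype.prop _)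
  refine ⟨⟨g, hgR⟩, ?_, tendsto_subtype_rng.2 hg⟩
  refine tendsto_nhds_unique hg.norm ?_
  simp only [hn]
  exact tendsto_const_nhds

theorem T6_step (f g : ℕ → R)
    (hg : ∀ N, Tendsto (fun j => (h.res q hq)^[j] (f (N + j))) atTop (𝓝 (g N))) (N : ℕ) :
    h.res q hq (g (N + 1)) = g N := by
  have t1 := ((h.res_cont hq).tendsto _).comp (hg (N + 1))
  have t2 := (tendsto_add_atTop_iff_nat 1).2 (hg N)
  refine tendsto_nhds_unique t1 (t2.congr fun j => ?_)
  rw [Function.iterate_succ_apply', Function.comp_apply, add_assoc, add_comm 1 j]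



theorem Co.glue0 [IsAlgClosed K] (h0 : q ≠ 0) (hq' : ‖q‖ < 1) (x : ℕ → L)
    (hx : ∀ N, ∃ a b : R, b ≠ 0 ∧ b * x N = a)
    (hc : ∀ N (a b : R), b * x (N + 1) = a → h.res q hq b * x N = h.res q hq a) :
    ∃ a b : ℕ → R, (∀ N, b N ≠ 0 ∧ b N * x N = a N) ∧
      (∀ N, h.res q hq (a (N + 1)) = a N) ∧ ∀ N, h.res q hq (b (N + 1)) = b N := by
  choose a₀ b₀ hb₀ e₀ using hx
  choose A ω hω hA hd hu using fun N => h.red (a₀ N) (hb₀ N)
  have e1 : ∀ N, (ω N : L) * x N = A N := fun N => by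
    have hb : (b₀ N : L) ≠ 0 := fun e => hb₀ N (Subtype.ext e)
    have := congrArg Subtype.val (hA N)
    rw [Subalgebra.coe_mul, Subalgebra.coe_mul, ← e₀] at this
    refine mul_left_cancel₀ hb ?_
    rw [← this]
    ring
  have e2 : ∀ N, h.res q hq (A (N + 1)) * ω N = h.res q hq (ω (N + 1)) * A N := fun N => by
    refine Subtype.ext ?_
    rw [Subalgebra.coe_mul, Subalgebra.coe_mul, ← hc N _ _ (e1 (N + 1)), ← e1 N]
    ring
  choose v hv using fun N => hd N _ _ (e2 N)
  have hvA : ∀ N, h.res q hq (A (N + 1)) = v N * A N := fun N => by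
    refine mul_right_cancel₀ (hω N) ?_
    rw [e2, hv]
    ring
  have hvu : ∀ N, IsUnit (v N) := fun N =>
    hu (N + 1) q hq h0 (v N) (hvA N ▸ dvd_mul_right _ _) (hv N ▸ dvd_mul_left _ _)
  let γ : ℕ → K := fun N => Nat.rec 1 (fun N c => (h.e0 (v N))⁻¹ * c) N
  have hγ : ∀ N, γ (N + 1) = (h.e0 (v N))⁻¹ * γ N := fun N => rfl
  have hγ0 : ∀ N, γ N ≠ 0 := by
    intro N
    induction N with
    | zero => exact one_ne_zero
    | succ N ih =>
      rw [hγ]
      exact mul_ne_zero (inv_ne_zero (h.unit_zero (hvu N)).2) ih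
  let v' : ℕ → R := fun N => (h.e0 (v N))⁻¹ • v N
  have hu' : ∀ N, IsUnit (v' N) := fun N => by
    simp only [v', Algebra.smul_def]
    exact ((inv_ne_zero (h.unit_zero (hvu N)).2).isUnit.map _).mul (hvu N)
  have h1' : ∀ N, h.e0 (v' N) = 1 := fun N => by
    simp only [v', map_smul, smul_eq_mul]
    exact inv_mul_cancel₀ (h.unit_zero (hvu N)).2
  have hf : ∀ f : ℕ → R, (∀ N, h.res q hq (f (N + 1)) = v N * f N) →
      ∀ N, h.res q hq (γ (N + 1) • f (N + 1)) = v' N * γ N • f N := fun f hf N => by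
    rw [map_smul, hf, hγ]
    exact (smul_mul_smul_comm _ _ _ _).symm
  choose a _ ha using T6_lim h hq hq' (fun N => γ N • A N) v' hu' h1' (hf A hvA)
  choose b hb' hb using T6_lim h hq hq' (fun N => γ N • ω N) v' hu' h1'
    (hf ω fun N => (hv N).trans (mul_comm _ _))
  have e3 : ∀ j N, (((h.res q hq)^[j] (γ (N + j) • ω (N + j)) : R) : L) * x N =
      (((h.res q hq)^[j] (γ (N + j) • A (N + j)) : R) : L) := by
    intro j
    induction j with
    | zero =>
      intro N
      show ((γ N • ω N : R) : L) * x N = ((γ N • A N : R) : L)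
      rw [Subalgebra.coe_smul, Subalgebra.coe_smul, smul_mul_assoc, e1]
    | succ j ih =>
      intro N
      rw [Function.iterate_succ_apply', Function.iterate_succ_apply', add_comm j 1, ← add_assoc]
      exact hc N _ _ (ih (N + 1))
  refine ⟨a, b, fun N => ⟨fun e => ?_, ?_⟩, T6_step h hq (fun N => γ N • A N) a ha,
    T6_step h hq (fun N => γ N • ω N) b hb⟩
  · have := hb' N
    rw [e, Subalgebra.coe_zero, norm_zero, eq_comm, norm_eq_zero, Subalgebra.coe_smul,
      smul_eq_zero] at this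
    exact this.elim (hγ0 N) fun e' => hω N (Subtype.ext e')
  · refine tendsto_nhds_unique ((tendsto_subtype_rng.1 (hb N)).mul_const (x N)) ?_
    exact (tendsto_subtype_rng.1 (ha N)).congr fun j => (e3 j N).symm

end Pool.Agent.Work.MP_e120ef_ag.Br
end
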