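import Pool.Agent.Work.MP_e120ef_ag.Br.T7
import Pool.Agent.Work.MP_e120ef_ag.C.Dsc2
import Pool.Agent.Work.MP_e120ef_ag.H.Line
import Pool.Agent.Work.MP_e120ef_ag.C.BMI
import Pool.Agent.Work.MP_e120ef_ag.C.BCh
import Pool.Agent.Work.MP_e120ef_ag.H.Val
import Pool.Agent.Work.MP_e120ef_ag.Br.G6
import Pool.Agent.Work.MP_e120ef_ag.Br.C4
import Pool.Agent.Work.MP_e120ef_ag.Br.C1
import Pool.Agent.Work.MP_e120ef_ag.H.Main2
import Pool.Agent.Work.MP_e120ef_ag.Br.T6

attribute [-instance] Subalgebra.normedCommRing Subalgebra.seminormedCommRing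
  Subalgebra.seminormedRing Subalgebra.normedRing
  Localization.subalgebra.instIsFractionRingSubtypeMemSubalgebra
attribute [local instance 2000] RingHomClass.toAddMonoidHomClass AddMonoidHomClass.toAddHomClass
  RingHom.instRingHomClass AlgHomClass.toRingHomClass IsDomain.to_noZeroDivisors
  IsDomain.toNontrivial NeZero.one RingHomClass.toMonoidHomClass MonoidHomClass.toMulHomClass
  RingHomClass.toMonoidWithZeroHomClass AddMonoidHomClass.toZeroHomClass MonoidHomClass.toOneHomClass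
attribute [-instance] instCharZeroOfIsSemireal AlgHom.instContinuousLinearMapClassOfAlgHomClass
  RingHomClass.toLinearMapClassRat RingHomClass.toLinearMapClassNNRat NumberField.to_charZero

-- merged part: Pool.Agent.Work.MP_e120ef_ag.C.LVb
section
-- merged part: Pool.Agent.Work.MP_e120ef_ag.C.Dsc1
section
/-!
# Zeros of entire functions on lines defined over the small field

Plans.  `ent_subst`: `ent_sum` (`H/STR.lean`) for the family `I ↦ C (coeff I u) * mon P I`; for radii `c` take `A` from `STR_ex`, bound `mon P I` through `STR_list`, `STR_step` (sums over `Unit`), and use that `u` is restricted for the constant radius `A`; `hasSum_ev`, `HasSum.unique`, `map_finsuppProd`.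
`line_root`: `ent_subst` with `P l = C (x l) + C (v l) * X ()` gives `E`.  For `t = 0` there is nothing to prove.  Otherwise `f = lineE Rad.all (fun _ => (1 : Kh)) one_pos E` has its coefficients in `⊥ : IntermediateField K Kh` (`coef_line`, `lc_mul`, `lc_of_not`), `coef f 0 = algebraMap (constantCoeff E)` (`hc_zero`), `constantCoeff E = evE 0 E = evE x u ≠ 0` (`ev_zero`), and `f` vanishes at `t` (`line_apply`).
`DC_alg` with `K₁ = K`; `K` is algebraically closed.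
-/

namespace Pool.Agent.Work.MP_e120ef_ag.H.CS

variable {K : Type} [NontriviallyNormedField K] [IsUltrametricDist K] [CompleteSpace K]

theorem ent_subst {σ τ : Type} [Fintype σ] (P : σ → MvPolynomial τ K) (u : Ent K σ) :
    ∃ E : Ent K τ, ∀ (L : Type) [NontriviallyNormedField L] [IsUltrametricDist L] [CompleteSpace L]
      [NormedAlgebra K L] (z : τ → L),
      evE z E = evE (fun l => MvPolynomial.aeval z (P l)) u := by
  choose l hl using fun I : σ →₀ ℕ => STR_list I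
  obtain ⟨E, hE⟩ := ent_sum (fun I => MvPolynomial.C (MvPowerSeries.coeff I u.1) *
      STR_Q (fun _ : Unit => 1) (fun i _ _ => P i) (l I) ()) fun c hc ε hε => by
    obtain ⟨A₀, p₀, b₀⟩ := STR_ex hc fun _ : Unit => (1 : MvPolynomial τ K)
    obtain ⟨A, p, b⟩ := STR_ex hc P
    have h := (u.2 fun _ => A).const_mul A₀
    rw [mul_zero] at h
    refine (h.eventually (ge_mem_nhds hε)).mono fun I hI J => le_trans ?_ hI
    have k1 := (STR_Q_bd (γ := fun i _ _ => P i) hc p₀ p b₀ (fun i _ _ => b i) (l I)).2 () J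
    rw [hl] at k1
    rw [MvPolynomial.coeff_C_mul, norm_mul, mul_assoc, mul_left_comm A₀]
    exact mul_le_mul_of_nonneg_left k1 (norm_nonneg (MvPowerSeries.coeff I u.1))
  refine ⟨E, fun L _ _ _ _ z => ?_⟩
  rw [← (hE L z).tsum_eq, evE_apply, ev]
  refine tsum_congr fun I => ?_
  have k1 := STR_Q_ev (γ₀ := fun _ : Unit => 1) (γ := fun i _ _ => P i) (z := z) (e := fun _ => 1)
    (s := fun l => MvPolynomial.aeval z (P l)) (by simp) (by simp) (l I)
  rw [← hl, k1, map_mul, MvPolynomial.aeval_C, Fintype.sum_unique, mul_one]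

theorem line_root [IsAlgClosed K] {Kh : Type} [NontriviallyNormedField Kh] [IsUltrametricDist Kh]
    [CompleteSpace Kh] [IsAlgClosed Kh] [NormedAlgebra K Kh] {n : ℕ} {u : Ent K (Fin n)}
    {x : Fin n → K} (v : Fin n → K) (hx : evE x u ≠ 0) {t : Kh}
    (h : evE (fun l => algebraMap K Kh (x l) + t * algebraMap K Kh (v l)) u = 0) :
    ∃ c : K, t = algebraMap K Kh c := by
  rcases eq_or_ne t 0 with rfl | t0
  · exact ⟨0, (map_zero _).symm⟩
  obtain ⟨E, hE⟩ := ent_subst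
    (fun l => MvPolynomial.C (x l) + MvPolynomial.X () * MvPolynomial.C (v l)) u
  have e0 : MvPowerSeries.constantCoeff E.1 ≠ 0 := by
    have := hE K 0
    rw [evE_apply, ev_zero] at this
    exact fun q => hx (by simpa [q] using this.symm)
  have c : ∀ m, coef (lineE Rad.all (fun _ => (1 : Kh)) one_pos E) m =
      lc E.1 (fun _ => (1 : Kh)) (1 : ℕ) m := coef_line E
  have k1 : ((1 : ℕ) : ℤ) ≠ 0 := one_ne_zero
  have al := DC_alg (L := (⊥ : IntermediateField K Kh))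
    (f := lineE Rad.all (fun _ => (1 : Kh)) one_pos E) (z := ⟨Units.mk0 t t0, trivial⟩)
    (fun q => e0 <| by
      have := (c (((1 : ℕ) : ℤ) * (0 : ℕ))).trans (lc_mul _ _ k1 0)
      rw [q, coef_zero, hc_zero, MvPolynomial.aeval_C] at this
      exact (map_eq_zero _).1 this.symm)
    (fun m => by
      rw [c]
      by_cases q : ∃ d : ℕ, m = ((1 : ℕ) : ℤ) * d
      · obtain ⟨d, rfl⟩ := q
        rw [lc_mul _ _ k1]
        refine ⟨MvPolynomial.aeval (fun _ => (1 : K)) (hc d E.1), ?_⟩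
        simpa using MvPolynomial.comp_aeval_apply (fun _ => (1 : K)) (Algebra.ofId K Kh) (hc d E.1)
      · rw [lc_of_not _ _ (not_exists.1 q)]
        exact zero_mem _)
    (by
      refine Eq.trans ?_ ((hE Kh fun _ => t).trans (by simpa using h))
      rw [evE_apply]
      exact (line_apply E _).trans (by simp [Pt1.v]))
  obtain ⟨c, hc⟩ := minpoly.mem_range_of_degree_eq_one K t
    (IsAlgClosed.degree_eq_one_of_irreducible K (minpoly.irreducible al.isIntegral))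
  exact ⟨c, hc.symm⟩

end Pool.Agent.Work.MP_e120ef_ag.H.CS
end

-- merged part: Pool.Agent.Work.MP_e120ef_ag.C.Dsc3
section
/-!
# Denominators defined over the small field

Plans.  `log_der_K`: `Polynomial.eval_derivative_div_eval_of_ne_zero_of_splits` (or induction on the roots); the range of `algebraMap K Kh` is a subfield.
`rat_K`: `expand_fam` for `q`; let `r j₀ ≠ 0`.  Fix `l`, take `a`, `b`, `ρ` from `elim_var`.  Let `x` be a point over `K` with `u x ≠ 0`, `(ρ * q) x ≠ 0`, and `Q = aeval (fun i => C (x i) + C (Pi.single l 1 i) * X) q : Kh[X]`; `eval t Q = eval (x + t e_l) q`, `eval 0 (derivative Q) = eval x (pderiv l q)` (`EntD_chain` with `Polynomial.derivative'`, or induction on `q`).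
At a root `t`, `ζ = x + t e_l`: `a ζ * p ζ = ρ ζ = ρ x ≠ 0`, so `p ζ ≠ 0`, and `h` evaluated by `evE ζ` (`evE_toE`, `evE_bE`) gives `u ζ = 0`; `line_root`.  By `log_der_K`, `eval x (pderiv l q) = κ * eval x q` with `κ ∈ K`; independence of `e` gives `eval x (pderiv l (r j)) = κ * eval x (r j)` for all `j`.
So `pderiv l (r j) * r j₀ - r j * pderiv l (r j₀)` vanishes at such `x`, hence is zero (`dense_pts`); `cross_const` (through `toE`, `pderiv_coe`) gives `r j = C (c j) * r j₀`.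
`desc_den`: `UniqueFactorizationMonoid.exists_reduced_factors'`, cancel, `rat_K`.
-/

namespace Pool.Agent.Work.MP_e120ef_ag.H.CS

open Polynomial in
theorem log_der_K {K Kh : Type} [Field K] [Field Kh] [IsAlgClosed Kh] [Algebra K Kh] {Q : Kh[X]}
    (h0 : Q.eval 0 ≠ 0) (h : ∀ t, Q.eval t = 0 → ∃ c : K, t = algebraMap K Kh c) :
    ∃ κ : K, (derivative Q).eval 0 = algebraMap K Kh κ * Q.eval 0 := by
  have hQ : Q ≠ 0 := fun e => h0 (by simp [e])
  have h1 : (Q.roots.map fun z => 1 / (0 - z)).sum ∈ (algebraMap K Kh).fieldRange :=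
    Subfield.multiset_sum_mem _ _ fun y hy => by
      obtain ⟨z, hz, rfl⟩ := Multiset.mem_map.1 hy
      obtain ⟨c, rfl⟩ := h z ((mem_roots hQ).1 hz)
      exact ⟨1 / (0 - c), by simp⟩
  obtain ⟨κ, hκ⟩ := h1
  exact ⟨κ, by rw [(IsAlgClosed.splits Q).eval_derivative_eq_eval_mul_sum h0, hκ, mul_comm]⟩

theorem Dsc3_line {R σ : Type} [CommRing R] [DecidableEq σ] (x : σ → R) (l : σ)
    (q : MvPolynomial σ R) : ∃ Q : Polynomial R,
      (∀ t, Q.eval t = MvPolynomial.eval (fun i => x i + t * (Pi.single l 1 : σ → R) i) q) ∧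
      (Polynomial.derivative Q).eval 0 = MvPolynomial.eval x (MvPolynomial.pderiv l q) := by
  induction q using MvPolynomial.induction_on with
  | C a => exact ⟨Polynomial.C a, by simp, by simp⟩
  | add p q hp hq =>
    obtain ⟨P, p1, p2⟩ := hp
    obtain ⟨Q, q1, q2⟩ := hq
    exact ⟨P + Q, by simp [p1, q1], by simp [p2, q2]⟩
  | mul_X p i hp =>
    obtain ⟨P, p1, p2⟩ := hp
    refine ⟨P * (Polynomial.C (x i) + Polynomial.X * Polynomial.C ((Pi.single l 1 : σ → R) i)),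
      fun t => by simp [p1, mul_comm t], ?_⟩
    by_cases h : i = l
    · subst h
      simp [p1, p2]
      ring
    · simp [p2, h, mul_comm]

theorem Dsc3_eval {K Kh σ ι : Type} [Field K] [Field Kh] [Algebra K Kh] [Fintype ι] (e : ι → Kh)
    (r : ι → MvPolynomial σ K) (x : σ → K) :
    MvPolynomial.eval (fun l => algebraMap K Kh (x l))
      (∑ j, MvPolynomial.C (e j) * MvPolynomial.map (algebraMap K Kh) (r j)) =
      ∑ j, MvPolynomial.eval x (r j) • e j := by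
  rw [map_sum]
  refine Finset.sum_congr rfl fun k _ => ?_
  rw [map_mul, MvPolynomial.eval_C, Algebra.smul_def, mul_comm, MvPolynomial.map_eval]
  rfl

variable {K Kh : Type} [NontriviallyNormedField K] [IsUltrametricDist K] [CompleteSpace K]
  [IsAlgClosed K] [CharZero K] [NontriviallyNormedField Kh] [IsUltrametricDist Kh] [CompleteSpace Kh]
  [IsAlgClosed Kh] [NormedAlgebra K Kh] {n : ℕ} {p q : MvPolynomial (Fin n) Kh} {a : Ent Kh (Fin n)}
  {u : Ent K (Fin n)}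

theorem rat_K (hpq : IsRelPrime p q) (hq : q ≠ 0) (hu : u ≠ 0)
    (h : toE p * bE Kh u = toE q * a) : ∃ (c : Kh) (q₀ : MvPolynomial (Fin n) K),
      q = MvPolynomial.C c * MvPolynomial.map (algebraMap K Kh) q₀ := by
  obtain ⟨s, e, r, he, hr⟩ := expand_fam K (fun _ : Unit => q)
  replace hr := hr ()
  generalize r () = r at hr
  obtain ⟨j₀, hj⟩ : ∃ j, r j ≠ 0 := by
    by_contra hn
    simp only [not_exists, not_not] at hn
    exact hq (by rw [hr]; simp [hn])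
  have key : ∀ l j, MvPolynomial.pderiv l (r j) * r j₀ - r j * MvPolynomial.pderiv l (r j₀) = 0 := by
    intro l j
    obtain ⟨a', b', ρ, h1, h2, h3⟩ := elim_var hpq l
    refine dense_pts hu (mul_ne_zero h1 hq) fun x x1 x2 => ?_
    rw [map_mul] at x2
    obtain ⟨Q, q1, q2⟩ := Dsc3_line (fun i => algebraMap K Kh (x i)) l q
    have q0 : Q.eval 0 = MvPolynomial.eval (fun i => algebraMap K Kh (x i)) q := by simp [q1]
    obtain ⟨κ, hκ⟩ := log_der_K (K := K) (q0 ▸ right_ne_zero_of_mul x2) fun t ht => by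
      rw [q1] at ht
      refine line_root (Pi.single l 1) x1 ?_
      have b1 : (fun i => algebraMap K Kh (x i) + t * algebraMap K Kh ((Pi.single l 1 : _ → K) i)) =
          fun i => algebraMap K Kh (x i) + t * (Pi.single l 1 : _ → Kh) i := by
        ext i
        by_cases hi : i = l <;> simp [hi]
      rw [b1]
      have b2 := h3 (fun i => algebraMap K Kh (x i) + t * (Pi.single l 1 : _ → Kh) i)
        (fun i => algebraMap K Kh (x i)) fun i hi => by simp [hi]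
      generalize (fun i => algebraMap K Kh (x i) + t * (Pi.single l 1 : _ → Kh) i) = ζ at ht b2 ⊢
      have b3 := congrArg (evE ζ) h
      rw [map_mul, map_mul, evE_toE, evE_toE, evE_bE, MvPolynomial.aeval_eq_eval, ht,
        zero_mul] at b3
      refine (mul_eq_zero.1 b3).resolve_left fun b4 => left_ne_zero_of_mul x2 ?_
      rw [← b2, ← h2, map_add, map_mul, map_mul, ht, b4, mul_zero, mul_zero, add_zero]
    have b1 : MvPolynomial.pderiv l q = ∑ j, MvPolynomial.C (e j) *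
        MvPolynomial.map (algebraMap K Kh) (MvPolynomial.pderiv l (r j)) := by
      rw [hr, map_sum]
      simp only [MvPolynomial.pderiv_C_mul, MvPolynomial.pderiv_map]
    rw [q2, q0, b1, hr, Dsc3_eval, Dsc3_eval, ← Algebra.smul_def, Finset.smul_sum] at hκ
    have b2 := Fintype.linearIndependent_iff.1 he
      (fun j => MvPolynomial.eval x (MvPolynomial.pderiv l (r j)) - κ * MvPolynomial.eval x (r j))
      (by simp only [sub_smul, mul_smul, Finset.sum_sub_distrib, hκ, sub_self])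
    simp only [map_sub, map_mul]
    linear_combination MvPolynomial.eval x (r j₀) * b2 j - MvPolynomial.eval x (r j) * b2 j₀
  have h2 : ∀ j, ∃ c : K, r j = MvPolynomial.C c * r j₀ := fun j => by
    obtain ⟨c, hc⟩ := cross_const (a := (r j : MvPowerSeries (Fin n) K))
      (b := (r j₀ : MvPowerSeries (Fin n) K)) (fun h0 => hj (MvPolynomial.coe_eq_zero_iff.1 h0))
      fun l => by
        rw [MvPowerSeries.pderiv_coe, MvPowerSeries.pderiv_coe, ← MvPolynomial.coe_mul,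
          ← MvPolynomial.coe_mul, sub_eq_zero.1 (key l j)]
    exact ⟨c, MvPolynomial.coe_injective _ _ (by rw [MvPolynomial.coe_mul, MvPolynomial.coe_C, hc])⟩
  choose c hc using h2
  refine ⟨∑ j, e j * algebraMap K Kh (c j), r j₀, ?_⟩
  rw [hr, map_sum, Finset.sum_mul]
  refine Finset.sum_congr rfl fun j _ => ?_
  rw [hc j, map_mul, MvPolynomial.map_C, map_mul, mul_assoc]

theorem desc_den (hq : q ≠ 0) (hu : u ≠ 0) (h : toE p * bE Kh u = toE q * a) :
    ∃ q₀ : MvPolynomial (Fin n) K, q₀ ≠ 0 ∧ q ∣ MvPolynomial.map (algebraMap K Kh) q₀ * p := by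
  obtain ⟨p', q', g, h1, rfl, rfl⟩ := UniqueFactorizationMonoid.exists_reduced_factors' p q hq
  have hg : toE g ≠ (0 : Ent Kh (Fin n)) := fun h0 =>
    left_ne_zero_of_mul hq (toE_inj (by rw [h0, map_zero]))
  rw [map_mul, map_mul, mul_assoc, mul_assoc] at h
  obtain ⟨c, q₀, hc⟩ := rat_K h1 (right_ne_zero_of_mul hq) hu (mul_left_cancel₀ hg h)
  have h2 := right_ne_zero_of_mul hq
  rw [hc] at h2
  have h3 : c ≠ 0 := fun h0 => left_ne_zero_of_mul h2 (by rw [h0, map_zero])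
  refine ⟨q₀, fun h0 => right_ne_zero_of_mul h2 (by rw [h0, map_zero]),
    MvPolynomial.C c⁻¹ * p', ?_⟩
  have h4 : MvPolynomial.C c * MvPolynomial.C c⁻¹ = (1 : MvPolynomial (Fin n) Kh) := by
    rw [← map_mul, mul_inv_cancel₀ h3, map_one]
  rw [hc]
  linear_combination (-(MvPolynomial.map (algebraMap K Kh) q₀ * g * p')) * h4

end Pool.Agent.Work.MP_e120ef_ag.H.CS
end

-- merged part: Pool.Agent.Work.MP_e120ef_ag.C.LVb
section
/-!
# Bounded rational functions over the larger field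

Plans.  `coord_le`: the map `c ↦ ∑ c i • e i` is an injective linear map from a finite dimensional space (`LinearMap.exists_antilipschitzWith`, `norm_le_pi_norm`).
`bdd_const`: as `const_of_bdd` (`H/GG.lean`) for the finitely generated algebra `R = Algebra.adjoin K (B ∪ {q⁻¹})` (or `Localization.Away`), `r = y / q ∈ R`; a map `e : R →ₐ[K] K` restricts to `B` with `e q ≠ 0`.
`WR_desc`: `frac` and `den` for `𝒩'` give `aeval z' γ * r = Q (θ')`, `γ ≠ 0`; reduce `Q` modulo `m'` and the numerator `R` of `mem_WR` modulo `mE` (`eval₂_modByMonic_eq_self_of_root`, `MI_root`).  Then `C (toE γ) * R - C (bE u) * Q.map toE` has the root `J θ'` (`MI_eval`) and degree `< deg mE`, so it vanishes (`dvd`).  `desc_den` for each coefficient `i < d`; let `q` be the product of the denominators, `map q * Q.coeff i = γ * P i`,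
so `β (aeval z q) * r = ∑ i < d, aeval z' (P i) * θ' ^ i`; `expand_fam`; `y j = ∑ i, aeval z (r i j) * θ ^ i` (`β_ae`, `β_θ`, `ae_mem`).
`V0.add`, `V0.smul`, `V0.base`: common denominators; `bF_im`, `cc_bT`.
`lv_base`: `WR_desc`; `r = ∑ e j • β (y j / q)`.  For `e₀ : B →ₐ[K] K` with `e₀ q ≠ 0` take `i` from `hpt`: `V0 (j' i r) (∑ e j * algebraMap (e₀ (y j) / e₀ q))`, so this sum has norm `≤ C`; `coord_le`, `bdd_const`.
-/

open Polynomial

namespace Pool.Agent.Work.MP_e120ef_ag.H.CS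

variable {K : Type} [NontriviallyNormedField K] [IsUltrametricDist K] {n : ℕ}

/-- the value at the centre -/
def V0 (x : FT K n) (c : K) : Prop :=
  ∃ a b : T K n, MvPowerSeries.constantCoeff b.1 ≠ 0 ∧ x = imT a / imT b ∧
    c = MvPowerSeries.constantCoeff a.1 / MvPowerSeries.constantCoeff b.1

theorem V0.le {x : FT K n} {c : K} {C : ℝ} (h : V0 x c) (h' : CB x C) : ‖c‖ ≤ C := by
  obtain ⟨a, b, h1, h2, rfl⟩ := h
  exact h' a b h1 h2

theorem V0.zero : V0 (0 : FT K n) 0 := by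
  exact ⟨0, 1, by simp, by rw [imT, map_zero, zero_div], by simp⟩

theorem LVb_ne {b : T K n} (h : MvPowerSeries.constantCoeff b.1 ≠ 0) : imT b ≠ 0 := fun k => by
  rw [imT_inj (k.trans (map_zero _).symm)] at h
  exact h (map_zero _)

theorem V0.add {x y : FT K n} {c d : K} (h : V0 x c) (h' : V0 y d) : V0 (x + y) (c + d) := by
  obtain ⟨a, b, h1, rfl, rfl⟩ := h
  obtain ⟨a', b', h2, rfl, rfl⟩ := h'
  refine ⟨a * b' + b * a', b * b', by simpa using ⟨h1, h2⟩, ?_, ?_⟩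
  · have h3 := LVb_ne h1
    have h4 := LVb_ne h2
    rw [div_add_div _ _ h3 h4]
    simp only [imT, map_add, map_mul]
  · rw [div_add_div _ _ h1 h2]
    simp

theorem V0.smul {x : FT K n} {c : K} (h : V0 x c) (e : K) : V0 (e • x) (e * c) := by
  obtain ⟨a, b, h1, rfl, rfl⟩ := h
  refine ⟨e • a, b, h1, ?_, ?_⟩
  · rw [Algebra.smul_def, Algebra.smul_def, imT, imT, imT, map_mul, ← IsScalarTower.algebraMap_apply,
      mul_div_assoc]
  · simp [mul_div_assoc]

theorem LVb_sum {ι : Type} (s : Finset ι) {x : ι → FT K n} {c : ι → K} (h : ∀ i, V0 (x i) (c i)) :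
    V0 (∑ i ∈ s, x i) (∑ i ∈ s, c i) := by
  classical
  induction s using Finset.induction_on with
  | empty => exact V0.zero
  | insert i s hi ih =>
    rw [Finset.sum_insert hi, Finset.sum_insert hi]
    exact (h i).add ih

variable {Kh : Type} [NontriviallyNormedField Kh] [IsUltrametricDist Kh] [NormedAlgebra K Kh]

theorem V0.base {x : FT K n} {c : K} (h : V0 x c) : V0 (bF (K := K) (n := n) Kh x) (algebraMap K Kh c) := by
  obtain ⟨a, b, h1, rfl, rfl⟩ := h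
  refine ⟨bT Kh a, bT Kh b, ?_, ?_, ?_⟩
  · rw [cc_bT]
    exact (_root_.map_ne_zero _).2 h1
  · rw [map_div₀, bF_im, bF_im]
  · rw [map_div₀, cc_bT, cc_bT]

variable [CompleteSpace K]

omit [IsUltrametricDist K] [IsUltrametricDist Kh] in
theorem coord_le {s : ℕ} {e : Fin s → Kh} (he : LinearIndependent K e) :
    ∃ C : ℝ, 0 ≤ C ∧ ∀ (c : Fin s → K) i, ‖c i‖ ≤ C * ‖∑ j, c j • e j‖ := by
  obtain ⟨C, -, hC⟩ := (Fintype.linearCombination K e).exists_antilipschitzWith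
    (LinearMap.ker_eq_bot.2 he.fintypeLinearCombination_injective)
  exact ⟨C, C.2, fun c i => (norm_le_pi_norm c i).trans
    (ZeroHomClass.bound_of_antilipschitz (Fintype.linearCombination K e) hC c)⟩

variable [IsAlgClosed K] {F : Type} [Field F] [Algebra K F] {B : Subalgebra K F}

omit [IsUltrametricDist K] in
theorem LVb_alg [Algebra.FiniteType K B] {r : B} {C : ℝ} (h : ∀ e : B →ₐ[K] K, ‖e r‖ ≤ C) :
    ∃ c : K, (r : F) = algebraMap K F c := by
  by_contra hn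
  have ht : Transcendental K (r : F) := fun ha => by
    have hd := IsAlgClosed.degree_eq_one_of_irreducible K (minpoly.irreducible ha.isIntegral)
    obtain ⟨c, hc⟩ := minpoly.degree_eq_one_iff.1 hd
    exact hn ⟨c, hc.symm⟩
  have hu : ∀ c : K, C < ‖c‖ → ((r : F) - algebraMap K F c)⁻¹ ∈ B := fun c hc => by
    by_cases h1 : IsUnit (r - algebraMap K B c)
    · obtain ⟨b, hb⟩ := h1.exists_right_inv
      have e : ((r : F) - algebraMap K F c) * b = 1 := congrArg Subtype.val hb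
      rw [← eq_inv_of_mul_eq_one_right e]
      exact b.2
    · obtain ⟨e, he⟩ := GG_hom (K := K) h1
      rw [map_sub, e.commutes, sub_eq_zero] at he
      have h4 := h e
      rw [he] at h4
      exact absurd hc (not_lt.2 h4)
  have hli : LinearIndependent K fun c : {c : K | C < ‖c‖} => (⟨_, hu c.1 c.2⟩ : B) :=
    LinearIndependent.of_comp B.val.toLinearMap
      (ht.linearIndependent_sub_inv.comp _ Subtype.val_injective)
  have h1 := hli.cardinal_le_rank.trans GG_rank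
  rw [cardinal_eq_of_isOpen K (isOpen_lt continuous_const continuous_norm)
    (NormedField.exists_lt_norm K C)] at h1
  exact absurd ((continuum_le_cardinal_of_nontriviallyNormedField K).trans h1)
    (not_le.2 Cardinal.aleph0_lt_continuum)

omit [IsUltrametricDist K] in
theorem bdd_const [Algebra.FiniteType K B] {y q : B} (hq : q ≠ 0) {C : ℝ}
    (h : ∀ e : B →ₐ[K] K, e q ≠ 0 → ‖e y / e q‖ ≤ C) :
    ∃ c : K, (y : F) / q = algebraMap K F c := by
  have hq' : (q : F) ≠ 0 := fun k => hq (Subtype.ext k)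
  obtain ⟨R, hR⟩ : ∃ R, R = B ⊔ Algebra.adjoin K (({(q : F)⁻¹} : Finset F) : Set F) := ⟨_, rfl⟩
  have h1 : B ≤ R := hR ▸ le_sup_left
  have h2 : (q : F)⁻¹ ∈ R := hR ▸ (le_sup_right : _ ≤ B ⊔ _) (Algebra.subset_adjoin (by simp))
  have : Algebra.FiniteType K R := (Subalgebra.fg_iff_finiteType R).1
    (hR ▸ ((Subalgebra.fg_iff_finiteType B).2 ‹_›).sup (Subalgebra.fg_adjoin_finset _))
  rw [div_eq_mul_inv]
  refine LVb_alg (B := R) (r := Subalgebra.inclusion h1 y * ⟨_, h2⟩) (C := C) fun e => ?_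
  have h3 : e (Subalgebra.inclusion h1 q) * e ⟨_, h2⟩ = 1 := by
    rw [← map_mul, ← map_one e]
    exact congrArg e (Subtype.ext (mul_inv_cancel₀ hq'))
  rw [map_mul, eq_inv_of_mul_eq_one_right h3, ← div_eq_mul_inv]
  exact h (e.comp (Subalgebra.inclusion h1)) (left_ne_zero_of_mul_eq_one h3)

variable [CharZero K] [CompleteSpace Kh] [IsAlgClosed Kh] {𝒩 : ND B n} {F' : Type} [Field F']
  [Algebra Kh F'] [Algebra K F'] [IsScalarTower K Kh F'] {b : BC Kh 𝒩 F'} {M' : Type} [Field M']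
  [Algebra Kh M'] (𝓜' : MI b.𝒩' M')

theorem WR_desc {r : F'} (hr : 𝓜'.J r ∈ WR 𝓜') :
    ∃ (s : ℕ) (e : Fin s → Kh) (y : Fin s → B) (q : B), LinearIndependent K e ∧ q ≠ 0 ∧
      b.β q * r = ∑ j, e j • b.β (y j) := by
  obtain ⟨u, R, hu, hR⟩ : ∃ (u : Ent K (Fin n)) (R : (Ent Kh (Fin n))[X]), u ≠ 0 ∧
    𝓜'.E (bE Kh u) * 𝓜'.J r = R.eval₂ 𝓜'.E.toRingHom (𝓜'.J b.𝒩'.θ) := hr
  obtain ⟨γ₀, h0, h1⟩ := b.𝒩'.frac r
  obtain ⟨Q₀, h2⟩ := b.𝒩'.den _ h1
  obtain ⟨γ, hγ⟩ : ∃ γ, γ = b.𝒩'.Δ * γ₀ := ⟨_, rfl⟩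
  obtain ⟨Q, hQ⟩ : ∃ Q, Q = Q₀ %ₘ b.𝒩'.m := ⟨_, rfl⟩
  have h3 : γ ≠ 0 := hγ ▸ mul_ne_zero b.𝒩'.Δ_ne h0
  rw [← mul_assoc, ← map_mul, ← hγ] at h2
  have h4 : b.𝒩'.mE ∣ toE γ • R - bE Kh u • Q₀.map
      (toE : MvPolynomial (Fin n) Kh →ₐ[Kh] Ent Kh (Fin n)).toRingHom := 𝓜'.dvd _ (by
    rw [eval₂_sub, eval₂_smul, eval₂_smul, MI_eval b.𝒩' 𝓜'.E 𝓜'.J 𝓜'.E_X, ← hR, ← h2, map_mul 𝓜'.J,
      ← 𝓜'.compat]
    change 𝓜'.E _ * _ - 𝓜'.E _ * _ = 0
    ring)
  have h5 := modByMonic_eq_of_dvd_sub (b.𝒩'.monic.map _) h4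
  rw [smul_modByMonic, smul_modByMonic, ← map_modByMonic _ b.𝒩'.monic, ← hQ] at h5
  have h6 : ∀ i, ∃ q₀ : MvPolynomial (Fin n) K, q₀ ≠ 0 ∧
      γ ∣ MvPolynomial.map (algebraMap K Kh) q₀ * Q.coeff i := fun i => by
    have h7 := congrArg (fun P => coeff P i) h5
    simp only [coeff_smul, coeff_map, smul_eq_mul] at h7
    exact desc_den h3 hu ((mul_comm _ _).trans h7.symm)
  choose q₀ a1 a2 using h6
  obtain ⟨q, hq⟩ : ∃ q, q = ∏ i : Fin (Q.natDegree + 1), q₀ i := ⟨_, rfl⟩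
  have h7 : ∀ i : Fin (Q.natDegree + 1), γ ∣ MvPolynomial.map (algebraMap K Kh) q * Q.coeff i :=
    fun i => (a2 i).trans (mul_dvd_mul_right (_root_.map_dvd _
      (hq ▸ Finset.dvd_prod_of_mem _ (Finset.mem_univ i))) _)
  choose P hP using h7
  obtain ⟨s, e, ρ, he, hρ⟩ := expand_fam K P
  refine ⟨s, e, fun j => ⟨∑ i, MvPolynomial.aeval 𝒩.z (ρ i j) * 𝒩.θ ^ (i : ℕ),
    sum_mem fun i _ => mul_mem (𝒩.ae_mem _) (pow_mem 𝒩.θ_mem _)⟩, ⟨_, 𝒩.ae_mem q⟩, he,
    fun k => ?_, ?_⟩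
  · exact Finset.prod_ne_zero_iff.2 (fun i _ => a1 _)
      (hq ▸ 𝒩.tb.1.eq_zero_of_aeval_eq_zero _ (congrArg Subtype.val k))
  · refine mul_left_cancel₀ (fun k => h3 (b.𝒩'.tb.1.eq_zero_of_aeval_eq_zero _ k)) ?_
    rw [mul_left_comm, h2, ← eval₂_modByMonic_eq_self_of_root b.𝒩'.root, ← hQ, eval₂_eq_sum_range,
      Finset.sum_range, b.β_ae, Finset.mul_sum]
    simp only [map_sum, map_mul, map_pow, b.β_ae, b.β_θ, Finset.smul_sum]
    rw [Finset.sum_comm, Finset.mul_sum]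
    refine Finset.sum_congr rfl fun i _ => ?_
    change _ * (MvPolynomial.aeval b.𝒩'.z _ * _) = _
    rw [← mul_assoc, ← map_mul, hP, hρ, map_mul, map_sum, mul_assoc, Finset.sum_mul]
    simp only [map_mul, MvPolynomial.aeval_C, Algebra.smul_def, mul_assoc]

theorem lv_base [Algebra.FiniteType K B] {I : Type} (j : I → F →ₐ[K] FT K n)
    (j' : I → F' →ₐ[Kh] FT Kh n) (hj : ∀ i a, j' i (b.β a) = bF (K := K) (n := n) Kh (j i a))
    (hpt : ∀ e : B →ₐ[K] K, ∃ i, ∀ y q : B, e q ≠ 0 → V0 (j i ((y : F) / q)) (e y / e q))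
    {r : F'} (hr : 𝓜'.J r ∈ WR 𝓜') {C : ℝ} (h : ∀ i, CB (j' i r) C) :
    ∃ c : Kh, r = algebraMap Kh F' c := by
  obtain ⟨s, e, y, q, he, hq, h1⟩ := WR_desc 𝓜' hr
  obtain ⟨C₀, h0, h2⟩ := coord_le he
  have h3 : b.β q ≠ 0 := (_root_.map_ne_zero b.β).2 fun k => hq (Subtype.ext k)
  have h4 : r = ∑ l, e l • b.β ((y l : F) / q) := by
    refine mul_left_cancel₀ h3 ?_
    rw [h1, Finset.mul_sum]
    refine Finset.sum_congr rfl fun l _ => ?_
    rw [mul_smul_comm, map_div₀, mul_div_cancel₀ _ h3]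
  have h5 : ∀ l, ∃ c : K, (y l : F) / q = algebraMap K F c := fun l =>
    bdd_const hq (C := C₀ * C) fun e₀ h6 => by
      obtain ⟨i, hi⟩ := hpt e₀
      have h7 := LVb_sum Finset.univ fun l => ((hi (y l) q h6).base (Kh := Kh)).smul (e l)
      simp only [← hj, ← map_smul, ← map_sum] at h7
      rw [← h4] at h7
      refine (h2 (fun l => e₀ (y l) / e₀ q) l).trans (mul_le_mul_of_nonneg_left ?_ h0)
      simpa only [Algebra.smul_def, mul_comm] using h7.le (h i)
  choose c hc using h5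
  refine ⟨∑ l, e l * algebraMap K Kh (c l), ?_⟩
  rw [h4, map_sum]
  refine Finset.sum_congr rfl fun l _ => ?_
  rw [hc, b.β.commutes, map_mul, ← IsScalarTower.algebraMap_apply, Algebra.smul_def]

end Pool.Agent.Work.MP_e120ef_ag.H.CS
end
end

-- merged part: Pool.Agent.Work.MP_e120ef_ag.Br.Fin2
section
-- merged part: Pool.Agent.Work.MP_e120ef_ag.C.Ind
section
/-!
# Algebraic independence over the larger field of constants; Jacobians

Plans.  `pd_comm`: `MI.der_zero` with `κ = AlgHom.id` and the commutator (a derivation, `⁅pd l, pd l'⁆`); on entire functions `pdE` commute (`coeff_pderiv`, `ext`).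
`lin_disj`: strong induction on the size of the finite set `S`, for all families at once.  If `S` is nonempty pick `a ∈ S`, divide by `u a ≠ 0` (the family `u i / u a` is still independent and in `M₁`), apply `∂`: `∑ i ∈ S.erase a, c i • ι (δ (u i / u a)) = 0`.  The family `δ (u i / u a)`, `i ∈ S.erase a`, is independent over `K`: if `∑ b i • δ (..) = 0` then `∑ b i • (u i / u a)` is killed by `δ`, hence constant.
So the `c i`, `i ≠ a`, vanish, and then `c a = 0`.  (State independence as `∀ b : I → K, ∑ i ∈ S, b i • u i = 0 → ∀ i ∈ S, b i = 0`.)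
`indep_ext`: `R x = ∑ l, μ l * pd l x`.  `M₁ = {y | ∀ l, pd l y * R (s i₀) = pd l (s i₀) * R y}` is a subfield containing the constants and the `s i` (multiply `hmin` by `μ l'` and sum).  With `δ y = R y / R (s i₀)` one has `pd l y = pd l (s i₀) * δ y` on `M₁`; apply `pd l'`, use `comm` twice: `pd l (s i₀) * pd l' (δ y) = pd l' (s i₀) * pd l (δ y)`; multiply by `μ l'` and sum: `δ y ∈ M₁`.
`R (s i₀) ≠ 0` by `h0`.  Take `∂' = (∂ (ι (s i₀)))⁻¹ • ∂` and apply `lin_disj` to the monomials in `s` (`algebraicIndependent_iff`, `MvPolynomial.aeval_def`, `eval₂_eq'`, `S = Q.support`; independence over `K` through `∑ monomial`).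
`jac`: `exists_der_ext (Algebra.ofId K F) 0 a _ (Pi.single j 1)` gives `D j` with `D j (a i) = δ_ij`; expand `1 = D 0 (a 0) * D 1 (a 1) - D 0 (a 1) * D 1 (a 0)` through `span`.
-/

namespace Pool.Agent.Work.MP_e120ef_ag.H.CS

theorem pd_comm {K : Type} [NontriviallyNormedField K] [IsUltrametricDist K] [CharZero K]
    {F : Type} [Field F] [Algebra K F] {B : Subalgebra K F} {n : ℕ} {𝒩 : ND B n} {M : Type}
    [Field M] [Algebra K M] (𝓜 : MI 𝒩 M) (l l' : Fin n) (x : M) :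
    𝓜.pd l (𝓜.pd l' x) = 𝓜.pd l' (𝓜.pd l x) := by
  refine sub_eq_zero.1 (𝓜.der_zero (AlgHom.id K M)
    (AddMonoidHom.mk' (fun y => 𝓜.pd l (𝓜.pd l' y) - 𝓜.pd l' (𝓜.pd l y)) fun a b => ?_)
    (fun a b => ?_) (fun a => ?_) x)
  · simp only [map_add]
    ring
  · simp only [AddMonoidHom.mk'_apply, Derivation.leibniz, smul_eq_mul, map_add, AlgHom.id_apply]
    ring
  · simp only [AddMonoidHom.mk'_apply, MI.pd_E]
    refine sub_eq_zero.2 (congrArg _ (Subtype.ext (MvPowerSeries.ext fun e => ?_)))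
    simp only [pdE_val, MvPowerSeries.coeff_pderiv]
    rcases eq_or_ne l l' with rfl | h
    · rfl
    · rw [add_right_comm e, Finsupp.add_apply, Finsupp.add_apply, Finsupp.single_eq_of_ne h,
        Finsupp.single_eq_of_ne h.symm, add_zero, add_zero, mul_right_comm]

variable {K K' M N : Type} [Field K] [Field K'] [Field M] [Field N] [Algebra K M] [Algebra K N]
  [Algebra K' N] (ι : M →ₐ[K] N)

theorem lin_disj (M₁ : Subfield M) (δ : Derivation K M M) (hδ : ∀ y ∈ M₁, δ y ∈ M₁)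
    (hK : ∀ c, algebraMap K M c ∈ M₁) (hc : ∀ y ∈ M₁, δ y = 0 → ∃ c, y = algebraMap K M c)
    (d : Derivation K' N N) (hd : ∀ y ∈ M₁, d (ι y) = ι (δ y)) {I : Type} (S : Finset I)
    (u : I → M) (hu : ∀ i ∈ S, u i ∈ M₁)
    (hi : ∀ b : I → K, ∑ i ∈ S, b i • u i = 0 → ∀ i ∈ S, b i = 0) (c : I → K')
    (h : ∑ i ∈ S, c i • ι (u i) = 0) : ∀ i ∈ S, c i = 0 := by
  classical
  induction S using Finset.induction_on generalizing u with
  | empty => simp
  | insert a S ha ih =>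
    have key : ∀ (b : I → K) (e : K), e • u a + ∑ i ∈ S, b i • u i = 0 →
        e = 0 ∧ ∀ i ∈ S, b i = 0 := by
      intro b e hb
      have h1 : ∀ i ∈ S, Function.update b a e i = b i := fun i hi' =>
        Function.update_of_ne (ne_of_mem_of_not_mem hi' ha) _ _
      have h2 := hi (Function.update b a e) (by
        rw [Finset.sum_insert ha, Function.update_self, ← hb]
        exact congrArg _ (Finset.sum_congr rfl fun i hi' => by rw [h1 i hi']))
      exact ⟨by simpa using h2 a (Finset.mem_insert_self _ _),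
        fun i hi' => h1 i hi' ▸ h2 i (Finset.mem_insert_of_mem hi')⟩
    have h0 : u a ≠ 0 := fun h0 => one_ne_zero (key 0 1 (by simp [h0])).1
    have h1 : ι (u a) ≠ 0 := (map_ne_zero ι).2 h0
    have hv : ∀ i ∈ S, u i / u a ∈ M₁ := fun i hi' =>
      M₁.div_mem (hu i (Finset.mem_insert_of_mem hi')) (hu a (Finset.mem_insert_self _ _))
    rw [Finset.sum_insert ha] at h
    have h2 : c a • (1 : N) + ∑ i ∈ S, c i • ι (u i / u a) = 0 := by
      refine mul_right_cancel₀ h1 ?_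
      rw [zero_mul, ← h, add_mul, Finset.sum_mul, smul_mul_assoc, one_mul]
      exact congrArg _ (Finset.sum_congr rfl fun i _ => by
        rw [smul_mul_assoc, ← map_mul, div_mul_cancel₀ _ h0])
    have h3 := congrArg d h2
    rw [map_add, map_zero, Derivation.map_smul, Derivation.map_one_eq_zero, smul_zero, zero_add,
      map_sum] at h3
    have h4 := ih (fun i => δ (u i / u a)) (fun i hi' => hδ _ (hv i hi')) (fun b hb => by
      obtain ⟨e, he⟩ := hc (∑ i ∈ S, b i • (u i / u a)) (M₁.sum_mem fun i hi' => by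
        rw [Algebra.smul_def]
        exact M₁.mul_mem (hK _) (hv i hi')) (by
          rw [map_sum, ← hb]
          exact Finset.sum_congr rfl fun i _ => Derivation.map_smul _ _ _)
      refine (key b (-e) ?_).2
      rw [neg_smul, Algebra.smul_def, ← he, Finset.sum_mul, neg_add_eq_zero]
      exact Finset.sum_congr rfl fun i _ => by rw [smul_mul_assoc, div_mul_cancel₀ _ h0]) (by
        rw [← h3]
        exact Finset.sum_congr rfl fun i hi' => by rw [Derivation.map_smul, hd _ (hv i hi')])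
    rw [Finset.sum_eq_zero fun i hi' => by rw [h4 i hi', zero_smul], add_zero] at h
    exact Finset.forall_mem_insert _ _ _ |>.2 ⟨(smul_eq_zero.1 h).resolve_right h1, h4⟩

theorem Ind_ker {J : Type} (E : J → Derivation K M M) :
    ∃ M₁ : Subfield M, ∀ y, y ∈ M₁ ↔ ∀ l, E l y = 0 :=
  ⟨{ carrier := {y | ∀ l, E l y = 0}
     mul_mem' := fun ha hb l => by
       rw [Derivation.leibniz, ha l, hb l, smul_zero, smul_zero, add_zero]
     one_mem' := fun l => (E l).map_one_eq_zero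
     add_mem' := fun ha hb l => by rw [map_add, ha l, hb l, add_zero]
     zero_mem' := fun l => map_zero _
     neg_mem' := fun ha l => by rw [map_neg, ha l, neg_zero]
     inv_mem' := fun _ ha l => by rw [Derivation.leibniz_inv, ha l, smul_zero] },
    fun _ => Iff.rfl⟩

theorem indep_ext {n : ℕ} (pd : Fin n → Derivation K M M)
    (comm : ∀ l l' x, pd l (pd l' x) = pd l' (pd l x))
    (hc : ∀ x, (∀ l, pd l x = 0) → ∃ c, x = algebraMap K M c) (μ : Fin n → M)
    (d : Derivation K' N N) (hd : ∀ x, d (ι x) = ι (∑ l, μ l * pd l x)) {I : Type} {s : I → M}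
    (hs : AlgebraicIndependent K s) (i₀ : I) (h0 : d (ι (s i₀)) ≠ 0)
    (hmin : ∀ i l l', pd l (s i) * pd l' (s i₀) = pd l (s i₀) * pd l' (s i)) :
    AlgebraicIndependent K' fun i => ι (s i) := by
  classical
  obtain ⟨R, hR⟩ : ∃ R : Derivation K M M, ∀ x, R x = ∑ l, μ l * pd l x :=
    ⟨∑ l, μ l • pd l, fun x => by
      have := congrFun (map_sum (Derivation.coeFnAddMonoidHom (R := K) (A := M) (M := M))
        (fun l => μ l • pd l) Finset.univ) x
      rw [Finset.sum_apply] at this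
      exact this⟩
  have hr : R (s i₀) ≠ 0 := fun h => h0 (by rw [hd, ← hR, h, map_zero])
  obtain ⟨δ, hδ⟩ : ∃ δ : Derivation K M M, ∀ x, δ x = (R (s i₀))⁻¹ * R x :=
    ⟨(R (s i₀))⁻¹ • R, fun _ => rfl⟩
  obtain ⟨M₁, hM⟩ := Ind_ker fun l => pd l - pd l (s i₀) • δ
  have hM' : ∀ y, y ∈ M₁ ↔ ∀ l, pd l y = pd l (s i₀) * δ y := fun y =>
    (hM y).trans (forall_congr' fun l => sub_eq_zero)
  have hin : ∀ y, (∀ l l', pd l y * pd l' (s i₀) = pd l (s i₀) * pd l' y) → y ∈ M₁ := by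
    intro y h
    refine (hM' y).2 fun l => ?_
    rw [hδ, mul_left_comm, eq_inv_mul_iff_mul_eq₀ hr, hR, hR, Finset.sum_mul, Finset.mul_sum]
    exact Finset.sum_congr rfl fun l' _ => by linear_combination μ l' * h l l'
  refine algebraicIndependent_iff.2 fun Q hQ => MvPolynomial.ext _ _ fun m => ?_
  by_contra hm
  refine hm (lin_disj ι M₁ δ (fun y hy => hin _ fun l l' => ?_)
    (fun c => hin _ fun l l' => by simp) (fun y hy h => hc y fun l => ?_)
    ((ι (R (s i₀)))⁻¹ • d) (fun y _ => ?_) Q.support (fun m => ∏ i ∈ m.support, s i ^ m i)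
    (fun m _ => M₁.prod_mem fun i _ => M₁.pow_mem (hin _ (hmin i)) _) (fun b hb m hm => ?_)
    (fun m => Q.coeff m) ?_ m (MvPolynomial.mem_support_iff.2 hm))
  · have h1 := congrArg (pd l) ((hM' y).1 hy l')
    have h2 := congrArg (pd l') ((hM' y).1 hy l)
    rw [Derivation.leibniz, smul_eq_mul, smul_eq_mul] at h1 h2
    rw [comm l l' y, comm l l' (s i₀)] at h1
    linear_combination h2 - h1
  · rw [(hM' y).1 hy l, h, mul_zero]
  · rw [hδ, map_mul, map_inv₀, hR y, ← hd]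
    rfl
  · have h1 := hs.eq_zero_of_aeval_eq_zero (∑ m ∈ Q.support, MvPolynomial.monomial m (b m)) (by
      rw [map_sum, ← hb]
      exact Finset.sum_congr rfl fun m _ => by
        rw [MvPolynomial.aeval_monomial, Algebra.smul_def]
        rfl)
    have h2 := congrArg (MvPolynomial.coeff m) h1
    rw [MvPolynomial.coeff_sum] at h2
    simpa only [MvPolynomial.coeff_monomial, Finset.sum_ite_eq', hm, if_true,
      MvPolynomial.coeff_zero] using h2
  · rw [← hQ, MvPolynomial.aeval_def, MvPolynomial.eval₂_eq]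
    exact Finset.sum_congr rfl fun m _ => by
      simp only [Algebra.smul_def, map_prod, map_pow]

theorem jac [CharZero K] {F : Type} [Field F] [Algebra K F] {g : ℕ} (ξ : Fin g → Derivation K F F)
    (span : ∀ D : Derivation K F F, ∃ c : Fin g → F, ∀ a, D a = ∑ k, c k * ξ k a)
    {a : Fin 2 → F} (ha : AlgebraicIndependent K a) :
    ∃ k k', ξ k (a 0) * ξ k' (a 1) ≠ ξ k (a 1) * ξ k' (a 0) := by
  by_contra h
  choose D _ hD using fun j : Fin 2 => exists_der_ext (Algebra.ofId K F) 0 a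
    ha.eq_zero_of_aeval_eq_zero (Pi.single j 1)
  choose c hc using span
  have h1 : D 0 (a 0) * D 1 (a 1) = D 0 (a 1) * D 1 (a 0) := by
    rw [hc, hc (D 1), hc (D 0) (a 1), hc (D 1) (a 0), Finset.sum_mul_sum, Finset.sum_mul_sum]
    refine Finset.sum_congr rfl fun k _ => Finset.sum_congr rfl fun k' _ => ?_
    have h2 : ξ k (a 0) * ξ k' (a 1) = ξ k (a 1) * ξ k' (a 0) := by
      by_contra h2
      exact h ⟨k, k', h2⟩
    linear_combination c (D 0) k * c (D 1) k' * h2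
  simp [hD] at h1

end Pool.Agent.Work.MP_e120ef_ag.H.CS
end

-- merged part: Pool.Agent.Work.MP_e120ef_ag.C.CaseB
section
/-!
# Maps of rank one
-/

namespace Pool.Agent.Work.MP_e120ef_ag.H.CS

variable {k K : Type} [Field k] [CharZero k] [NontriviallyNormedField K] [IsUltrametricDist K]
  [CompleteSpace K] [IsAlgClosed K] [CharZero K] [Algebra k K] {F : Type} [Field F] [Algebra K F]
  {B : Subalgebra K F} {n g : ℕ} {𝒩 : ND B n} {M : Type} [Field M] [Algebra K M]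
  {K₁ : Type} [NontriviallyNormedField K₁] [IsUltrametricDist K₁] [CompleteSpace K₁]
  [NormedAlgebra K K₁] {Γ : GD K n K₁} {𝓜 : MI 𝒩 M} {Y : Type} [Field Y] [Algebra k Y]

theorem nondeg [Algebra k M] [IsScalarTower k K M] [Algebra k K₁] [IsScalarTower k K K₁]
    {K' : Type} [NontriviallyNormedField K'] [IsUltrametricDist K'] [CompleteSpace K']
    [IsAlgClosed K'] [CharZero K'] [NormedAlgebra K K'] [NormedAlgebra K₁ K']
    [IsScalarTower K K₁ K'] [Algebra k K'] [IsScalarTower k K₁ K'] (hQ : RQ K)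
    {D : (ℝ →ₗ[ℚ] ℚ) → Derivation k K K} {hD : ∀ lam x, ‖D lam x‖ ≤ ‖x‖}
    (Δ : ∀ lam, DD Γ 𝓜 K' (hD lam)) (hΔ : ∀ lam, LD lam (Δ lam).D₁) {γ : Arc 𝓜 K'} (a : AX Γ γ)
    {s : Fin 2 → M} (hs : AlgebraicIndependent K s)
    (hmin : ∀ l l', 𝓜.pd l (s 1) * 𝓜.pd l' (s 0) = 𝓜.pd l (s 0) * 𝓜.pd l' (s 1))
    (h0 : ¬ (nev K' Rad.out).Sm (γ.ι (s 0))) :
    ∃ lam l, (Δ lam).Dt (s 0) * 𝓜.pd l (s 1) ≠ (Δ lam).Dt (s 1) * 𝓜.pd l (s 0) := by
  by_contra h
  push Not at h
  have := a.fin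
  have : CharZero K₁ := charZero_of_injective_algebraMap (algebraMap K K₁).injective
  choose 𝒟 c C _ h1 h2 _ using fun lam => arc_D a (Δ lam)
  choose p q hp hq hq0 hy using fun j => a.hQ (s j)
  refine ndg (fun lam => (Δ lam).D₁) (fun lam => (Δ lam).D₁_le)
    (fun x hx => LD.ker (hQ.map (algebraMap K K₁) (norm_algebraMap' K₁)) hΔ hx)
    (fun lam => (Δ lam).δ) (fun lam => (Δ lam).δ_alg) a.L 𝒟 h1 (fun j => γ.ι (s j)) p q hp hq hq0
    hy h0 (fun lam => ?_) ?_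
  · have h3 : γ.ι ((Δ lam).Dt (s 0)) * (nev K' Rad.out).D (γ.ι (s 1)) =
        γ.ι ((Δ lam).Dt (s 1)) * (nev K' Rad.out).D (γ.ι (s 0)) := by
      rw [γ.D_ι, γ.D_ι, ← map_mul, ← map_mul, Finset.mul_sum, Finset.mul_sum]
      exact congrArg _ (Finset.sum_congr rfl fun l _ => by
        rw [mul_left_comm, h lam l, mul_left_comm])
    rw [h2, h2]
    linear_combination h3
  · refine indep_ext γ.ι 𝓜.pd (pd_comm 𝓜) (fun x => 𝓜.pd_const) (fun l => 𝓜.J (γ.μ l))
      (nev K' Rad.out).D γ.D_ι hs 0 (fun h3 => ?_) fun i l l' => ?_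
    · obtain ⟨b, hb⟩ := Nev.D_const _ h3
      exact h0 (hb ▸ Nev.sm_alg b)
    · fin_cases i
      · rfl
      · exact hmin l l'

theorem caseB (hk : ∀ c : k, ‖algebraMap k K c‖ ≤ 1)
    (hLD : ∀ lam : ℝ →ₗ[ℚ] ℚ, ∃ D : Derivation k K K, LD lam D) (hΓ : DenseRange Γ.τ)
    {ξ : Fin g → Derivation K F F}
    (span : ∀ D : Derivation K F F, ∃ c : Fin g → F, ∀ a, D a = ∑ i, c i * ξ i a)
    (memB : ∀ i, ∀ b ∈ B, ξ i b ∈ B) {Φ : Y →+* M}
    (hΦ : ∀ c, Φ (algebraMap k Y c) = algebraMap K M (algebraMap k K c))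
    {N : Fin g → Fin n → T K n} {I : Type} (ch : I → Ch Γ 𝓜 Φ ξ N)
    (W : Subring M) (hW₁ : ∀ y, Φ y ∈ W) (hW₂ : ∀ κ, ∀ x ∈ W, 𝓜.hat (ξ κ) x ∈ W)
    (hW₃ : ∀ d : M →+ M, (∀ x y, d (x * y) = x * d y + y * d x) →
      (∀ a, ∃ a', d (𝓜.E a) = 𝓜.E a') → ∀ x ∈ W, d x ∈ W)
    (LV : ∀ (r : F) (C : ℝ), 𝓜.J r ∈ W → (∀ i, CB ((ch i).j r) C) → ∃ c, r = algebraMap K F c)
    {s : Fin 2 → Y} (hs : AlgebraicIndependent K fun i => Φ (s i))
    (hmin : ∀ κ κ', 𝓜.hat (ξ κ) (Φ (s 0)) * 𝓜.hat (ξ κ') (Φ (s 1)) =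
      𝓜.hat (ξ κ) (Φ (s 1)) * 𝓜.hat (ξ κ') (Φ (s 0))) (m : ℕ) :
    ∃ Δ : M, Δ ≠ 0 ∧ ∀ h, TVp k s m h → ∃ c : K, Φ h * Δ ^ m = algebraMap K M c := by
  let _ : Algebra k M := ((algebraMap K M).comp (algebraMap k K)).toAlgebra
  have _ : IsScalarTower k K M := .of_algebraMap_eq fun _ => rfl
  let _ : Algebra k K₁ := ((algebraMap K K₁).comp (algebraMap k K)).toAlgebra
  have _ : IsScalarTower k K K₁ := .of_algebraMap_eq fun _ => rfl
  obtain ⟨K', _, _, _, _, _, _, _, _⟩ := exists_Kp K K₁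
  let _ : Algebra k K' := ((algebraMap K₁ K').comp (algebraMap k K₁)).toAlgebra
  have _ : IsScalarTower k K₁ K' := .of_algebraMap_eq fun _ => rfl
  have hQ : RQ K := fun r => by simpa using hk r
  choose D hP using hLD
  have hD := fun lam => LD.le hQ (hP lam)
  choose Δ hΔ using fun lam => exists_DD Γ 𝓜 K' hΓ hQ (hP lam) (hD lam)
  obtain ⟨t, γ, ha, hγ⟩ := exists_arcsX Γ 𝓜 K'
  obtain ⟨C, -, hC⟩ := 𝓜.pd_hat ξ span
  have h1 : ∀ κ l, 𝓜.hat (ξ κ) (Φ (s 0)) * 𝓜.pd l (Φ (s 1)) =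
      𝓜.pd l (Φ (s 0)) * 𝓜.hat (ξ κ) (Φ (s 1)) := fun κ l => by
    rw [hC, hC, Finset.mul_sum, Finset.sum_mul]
    exact Finset.sum_congr rfl fun κ' _ => by rw [mul_left_comm, hmin]; ring
  have h2 : ∀ l l', 𝓜.pd l (Φ (s 1)) * 𝓜.pd l' (Φ (s 0)) =
      𝓜.pd l (Φ (s 0)) * 𝓜.pd l' (Φ (s 1)) := fun l l' => by
    rw [hC l, hC l, Finset.sum_mul, Finset.sum_mul]
    exact Finset.sum_congr rfl fun κ' _ => by rw [mul_assoc, mul_assoc, h1]; ring
  have h3 : ∃ lam l, (Δ lam).Dt (Φ (s 0)) * 𝓜.pd l (Φ (s 1)) ≠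
      (Δ lam).Dt (Φ (s 1)) * 𝓜.pd l (Φ (s 0)) := by
    by_cases k0 : ∀ j, (nev K' Rad.out).Sm ((γ j).ι (Φ (s 0)))
    · by_cases k1 : ∀ j, (nev K' Rad.out).Sm ((γ j).ι (Φ (s 1)))
      · have k2 : ∀ i, ∃ a, Φ (s i) = 𝓜.J a := Fin.forall_fin_two.2 ⟨hγ _ k0, hγ _ k1⟩
        choose a k3 using k2
        have k4 : AlgebraicIndependent K a :=
          AlgebraicIndependent.of_comp 𝓜.J (by rw [Function.comp_def, ← funext k3]; exact hs)
        obtain ⟨κ, κ', k5⟩ := jac ξ span k4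
        refine (k5 (𝓜.J.toRingHom.injective ?_)).elim
        have k6 := hmin κ κ'
        simp only [k3, MI.hat_J, ← map_mul] at k6
        exact k6
      · obtain ⟨j, hj⟩ := not_forall.1 k1
        obtain ⟨lam, l, k2⟩ := nondeg hQ Δ hΔ (ha j).some
          (s := (fun i => Φ (s i)) ∘ Equiv.swap 0 1) (hs.comp _ (Equiv.injective _))
          (fun l l' => (h2 l l').symm) hj
        exact ⟨lam, l, k2.symm⟩
    · obtain ⟨j, hj⟩ := not_forall.1 k0
      exact nondeg hQ Δ hΔ (ha j).some hs h2 hj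
  obtain ⟨lam, l, h3⟩ := h3
  obtain ⟨κ, h4⟩ : ∃ κ, 𝓜.hat (ξ κ) (Φ (s 0)) * (Δ lam).Dt (Φ (s 1)) -
      (Δ lam).Dt (Φ (s 0)) * 𝓜.hat (ξ κ) (Φ (s 1)) ≠ 0 := by
    by_contra h4
    push Not at h4
    refine h3 ?_
    rw [hC, hC, Finset.mul_sum, Finset.mul_sum]
    exact Finset.sum_congr rfl fun κ _ => by linear_combination -𝓜.J (C l κ) * h4 κ
  refine ⟨_, h4, fun h hh => ?_⟩
  obtain ⟨r, hr⟩ := hγ _ fun j => arc_small (ha j).some (Δ lam) (ξ κ) (memB κ)
    fun 𝒪 k0 k1 k2 => hh.two Φ 𝒪 ((𝓜.hat (ξ κ)).restrictScalars k) (Δ lam).Dt hΦ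
      (fun c => k0 _) k1 k2
  obtain ⟨A, hA⟩ := chart_bound (Y := Y) (Δ lam) hk N κ m
  have h5 : ∀ y, (Δ lam).Dt (Φ y) ∈ W := fun y =>
    hW₃ (Δ lam).Dt.toLinearMap.toAddMonoidHom (Δ lam).Dt.leibniz
      (fun a => ⟨_, (Δ lam).Dt_E a⟩) _ (hW₁ y)
  obtain ⟨c, hc⟩ := LV r A (hr ▸ mul_mem (hW₁ h) (pow_mem (sub_mem
    (mul_mem (hW₂ κ _ (hW₁ _)) (h5 _)) (mul_mem (h5 _) (hW₂ κ _ (hW₁ _)))) m)) fun i => by
    rw [(ch i).j_eq (Δ lam) (h1 κ) hr]
    refine hA _ s h (fun c => Γ.τ.toRingHom.injective ?_) hh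
    change Γ.τ _ = Γ.τ _
    rw [← (ch i).κ_Φ, hΦ, AlgHom.commutes, IsScalarTower.algebraMap_apply k K (FT K n),
      AlgHom.commutes]
  exact ⟨c, hr.trans (by rw [hc, AlgHom.commutes])⟩

end Pool.Agent.Work.MP_e120ef_ag.H.CS
end

-- merged part: Pool.Agent.Work.MP_e120ef_ag.C.Main
section
/-!
# The theorem
-/

open CategoryTheory AlgebraicGeometry MvPowerSeries

namespace Pool.Agent.Work.MP_e120ef_ag.H.CS

section

variable {K : Type} [NontriviallyNormedField K] [IsUltrametricDist K] [CompleteSpace K]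
  [IsAlgClosed K] [CharZero K] {n g : ℕ} {K₁ : Type} [NontriviallyNormedField K₁]
  [IsUltrametricDist K₁] [CompleteSpace K₁] [NormedAlgebra K K₁] {Γ : GD K n K₁} {G X : Sch K}
  [GrpObj G] [IsIntegral G.left] [LocallyOfFiniteType G.hom] [IsIntegral X.left]
  {U : G.left.Opens} {𝒩 : ND (B G U) n} {M : Type} [Field M] [Algebra K M] {𝓜 : MI 𝒩 M}
  {φ : Fn X →ₐ[K] M} {ξ : Fin g → Dr G} {N : Fin g → Fin n → T K n}

theorem chart_val {p : G.left} (u : Chart Γ 𝓜 φ ξ N p) {r : Fn G} {c : K} (hv : HasVal p r c) :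
    V0 (u.j r) c := by
  obtain ⟨b, hb, hU, hbr⟩ := aff_frac u.aff u.mem hv.mem
  obtain ⟨β, h1, h2⟩ := u.reg b hb
  obtain ⟨α, h3, h4⟩ := u.reg _ hbr
  have h5 : constantCoeff β.1 ≠ 0 := h2.isU.1 hU
  have h6 : imT β ≠ 0 := fun h => h5 (by
    rw [imT_inj (h.trans (map_zero (algebraMap (T K n) (FT K n))).symm)]
    exact map_zero _)
  refine ⟨α, β, h5, ?_, ?_⟩
  · rw [eq_div_iff h6, ← h1, ← h3, map_mul, mul_comm]
  · rw [eq_div_iff h5, h4.unique (h2.mul hv), mul_comm]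

theorem V0.div {x y : FT K n} {c d : K} (h : V0 x c) (h' : V0 y d) (hd : d ≠ 0) :
    V0 (x / y) (c / d) := by
  obtain ⟨a, b, h1, rfl, rfl⟩ := h
  obtain ⟨a', b', h2, rfl, rfl⟩ := h'
  refine ⟨a * b', b * a', ?_, ?_, ?_⟩
  · exact (map_mul _ b.1 a'.1).trans_ne (mul_ne_zero h1 (div_ne_zero_iff.1 hd).1)
  · rw [div_div_div_eq, imT, imT, imT, imT, ← map_mul, ← map_mul]
  · rw [div_div_div_eq, ← map_mul, ← map_mul]
    rfl

variable {k Y : Type} [Field k] [Algebra k K] [Field Y] [Algebra k Y] (π : Y →+* Fn X)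
  (hπ : ∀ c : k, π (algebraMap k Y c) = algebraMap K (Fn X) (algebraMap k K c))

include Γ hπ in
theorem full (hξ : IsGFrame ξ)
    (hq : ∀ q, IsClosed ({q} : Set G.left) → Nonempty (Chart Γ 𝓜 φ ξ N q)) {p : ℕ}
    (κ : Fin p → Fin g) {s : Fin p → Y} {m : ℕ} {h : Y} (hh : TVp k s m h) :
    ∃ c : K, φ (π h) * (Matrix.of fun i l => 𝓜.hat (ξ (κ l)) (φ (π (s i)))).det ^ m =
      algebraMap K M c := by
  let _ : Algebra k M := ((algebraMap K M).comp (algebraMap k K)).toAlgebra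
  have _ : IsScalarTower k K M := .of_algebraMap_eq fun _ => rfl
  obtain ⟨K', _, _, _, _, _, _, _, _⟩ := exists_Kp K K₁
  obtain ⟨t, γ, hγ⟩ := exists_arcs 𝓜 K' Γ
  have h1 : ∀ 𝒪, PreV K (fun k x => 𝓜.hat (ξ k) x) 𝒪 →
      φ (π h) * (Matrix.of fun i l => 𝓜.hat (ξ (κ l)) (φ (π (s i)))).det ^ m ∈ 𝒪 := fun 𝒪 H =>
    hh M (φ.toRingHom.comp π) 𝒪 (fun l => (𝓜.hat (ξ (κ l))).restrictScalars k)
      (fun c => (congrArg φ (hπ c)).trans (φ.commutes _)) (fun c => H.alg _)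
      fun l y hy => H.mem (κ l) _ hy
  obtain ⟨r, hr⟩ := hγ _ fun j => (γ j).sm_of_preV ξ (hξ.memB U) h1
  obtain ⟨c, hc⟩ := hc_const hq (r := r) (fun 𝒪 H => hr ▸ h1 𝒪 H.toPreV) fun q u 𝒪 H => by
    have h2 : u.j r = u.χ (π h) * (Matrix.of fun i l => tl N (κ l) (u.χ (π (s i)))).det ^ m := by
      refine Γ.τ.toRingHom.injective ?_
      change Γ.τ _ = Γ.τ _
      rw [← u.κ_J, ← hr, map_mul, map_mul, map_pow, map_pow, AlgHom.map_det, AlgHom.map_det, u.κ_φ]
      congr 3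
      ext i l
      change u.κ _ = Γ.τ _
      rw [Matrix.of_apply, Matrix.of_apply, τ_tl, u.κ_hat, u.κ_φ]
    rw [h2]
    exact hh (FT K n) (u.χ.toRingHom.comp π) 𝒪 (fun l => (tl N (κ l)).restrictScalars k)
      (fun c => (congrArg u.χ (hπ c)).trans ((u.χ.commutes _).trans
        (IsScalarTower.algebraMap_apply k K _ c).symm))
      (fun c => IsScalarTower.algebraMap_apply k K (FT K n) c ▸ H.alg _)
      fun l y hy => H.mem (κ l) _ hy
  exact ⟨c, hr.trans (by rw [hc, AlgHom.commutes])⟩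

include hπ in
theorem rank_one [CharZero k] {f : G.left → X.left} (hf : Mero f) (hU : IsAffineOpen U)
    (hg : gp G ∈ U) (hφ : 𝓜.IsPhi (HVf f U) φ) (hξ : IsGFrame ξ)
    (hq : ∀ q, IsClosed ({q} : Set G.left) → Nonempty (Chart Γ 𝓜 φ ξ N q))
    (hk : ∀ c : k, ‖algebraMap k K c‖ ≤ 1) {s : Fin 2 → Y}
    (hs : AlgebraicIndependent K fun i => φ (π (s i)))
    (hmin : ∀ κ κ', 𝓜.hat (ξ κ) (φ (π (s 0))) * 𝓜.hat (ξ κ') (φ (π (s 1))) =
      𝓜.hat (ξ κ) (φ (π (s 1))) * 𝓜.hat (ξ κ') (φ (π (s 0)))) {m : ℕ} {h h' : Y}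
    (hh : TVp k s m h) (hh' : TVp k s m h') :
    ∃ c : K, φ (π h) / φ (π h') = algebraMap K M c := by
  have := lft_finiteType hU hg
  obtain ⟨Kh, _, _, _, _, _, hS⟩ := exists_sph K
  have : CharZero Kh := charZero_of_injective_algebraMap (algebraMap K Kh).injective
  let _ : Algebra k Kh := ((algebraMap K Kh).comp (algebraMap k K)).toAlgebra
  have hk' : ∀ c : k, ‖algebraMap k Kh c‖ ≤ 1 := fun c => (norm_algebraMap' Kh _).trans_le (hk c)
  obtain ⟨F', _, _, _, _, ⟨b⟩⟩ := exists_BC Kh 𝒩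
  obtain ⟨M', _, _, ⟨𝓜'⟩⟩ := exists_MI' b.𝒩'
  let _ : Algebra K M' := ((algebraMap Kh M').comp (algebraMap K Kh)).toAlgebra
  have _ : IsScalarTower K Kh M' := .of_algebraMap_eq fun _ => rfl
  obtain ⟨μ, hμ⟩ := exists_bM 𝓜 𝓜'
  obtain ⟨K₁', _, _, _, _, Γ', hΓ⟩ := exists_GD' Kh n
  choose ξ' hξ' using fun i => b.der (ξ i)
  have hB := fun i => b.memB (hξ' i) (hξ.memB U i)
  let ch := fun q : {q : G.left // IsClosed ({q} : Set G.left)} => (hq q.1 q.2).some
  choose ch' hch using fun q => chart_base (ch q) Γ' hf hU hg hφ hξ hμ hξ' π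
  obtain ⟨C, -, hC⟩ := 𝓜.pd_hat ξ hξ.span'
  obtain ⟨l₀, hl₀⟩ : ∃ l, 𝓜.pd l (φ (π (s 0))) ≠ 0 := by
    by_contra h1
    push Not at h1
    obtain ⟨c, hc⟩ := 𝓜.pd_const h1
    exact hs.transcendental 0 (hc ▸ isAlgebraic_algebraMap c)
  have hs' : AlgebraicIndependent Kh fun i => μ (φ (π (s i))) := by
    refine indep_ext μ 𝓜.pd (pd_comm 𝓜) (fun x => 𝓜.pd_const) (Pi.single l₀ 1) (𝓜'.pd l₀)
      (fun x => ?_) hs 0 ?_ fun i l l' => ?_
    · rw [Finset.sum_eq_single_of_mem l₀ (Finset.mem_univ _) fun l _ hl => by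
        rw [Pi.single_eq_of_ne hl, zero_mul], Pi.single_eq_same, one_mul, hμ.pd]
    · rw [← hμ.pd]
      exact (_root_.map_ne_zero μ).2 hl₀
    · fin_cases i
      · rfl
      · change 𝓜.pd l (φ (π (s 1))) * _ = _ * 𝓜.pd l' (φ (π (s 1)))
        rw [hC l, hC l, hC l', hC l', Finset.sum_mul_sum, Finset.sum_mul_sum]
        refine Finset.sum_congr rfl fun κ _ => Finset.sum_congr rfl fun κ' _ => ?_
        linear_combination -𝓜.J (C l κ) * 𝓜.J (C l' κ') * hmin κ κ'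
  obtain ⟨Δ, h1, h2⟩ := caseB (Φ := μ.toRingHom.comp (φ.toRingHom.comp π)) hk'
    (exists_LD hk' (Or.inl hS)) hΓ (b.span hξ' hξ.span') hB
    (fun c => (congrArg μ ((congrArg φ (hπ c)).trans (φ.commutes _))).trans (μ.commutes _)) ch'
    (WR 𝓜') (fun y => WR_μ hμ _) (fun κ x => WR_hat 𝓜' (hB κ))
    (fun d hd h3 x => WR_der 𝓜' d hd fun a => (h3 a).elim fun a' h4 => h4 ▸ WR_E 𝓜' a')
    (fun r A hr => lv_base 𝓜' (fun q => (ch q).j) (fun q => (ch' q).j) hch (fun e => by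
      obtain ⟨p, -, hp, hv⟩ := lft_point hU hg e
      refine ⟨⟨p, hp⟩, fun y q h0 => ?_⟩
      rw [map_div₀]
      exact (chart_val _ (hv y)).div (chart_val _ (hv q)) h0) hr) hs' (fun κ κ' => by
      change 𝓜'.hat _ (μ _) * 𝓜'.hat _ (μ _) = 𝓜'.hat _ (μ _) * 𝓜'.hat _ (μ _)
      simp only [← hμ.hat (hξ' _), ← map_mul]
      exact congrArg μ (hmin κ κ')) m
  obtain ⟨c, hc⟩ := h2 h hh
  obtain ⟨c', hc'⟩ := h2 h' hh'
  refine 𝓜.pd_const fun l => (_root_.map_eq_zero μ).1 ?_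
  rw [hμ.pd, map_div₀, ← mul_div_mul_right _ _ (pow_ne_zero m h1)]
  exact (congrArg _ ((congrArg₂ (· / ·) hc hc').trans (map_div₀ _ _ _).symm)).trans
    (Derivation.map_algebraMap _ _)

end

theorem final {k K : Type} [Field k] [CharZero k] [NontriviallyNormedField K] [IsUltrametricDist K]
    [CompleteSpace K] [IsAlgClosed K] [Algebra k K] {Y : Sch k} {X G : Sch K} [IsIntegral Y.left]
    [IsProper Y.hom] [Smooth Y.hom] [IsIntegral X.left] [GrpObj G] [IsIntegral G.left]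
    [LocallyOfFiniteType G.hom] (π : Fn Y →+* Fn X)
    (hπ : ∀ c : k, π (algebraMap k (Fn Y) c) = algebraMap K (Fn X) (algebraMap k K c)) {p : ℕ}
    {s : Fin p → Fn Y} (hs : AlgebraicIndependent K fun i => π (s i))
    (hp : p ≤ 1 ∨ p = 2 ∧ ∀ c : k, ‖algebraMap k K c‖ ≤ 1) {m : ℕ}
    {h h' : Fn Y} (hh : h ∈ Pluri (O Y) s m) (hh' : h' ∈ Pluri (O Y) s m)
    {f : G.left → X.left} (hf : Mero f) : ∃ c : K, π (h / h') = algebraMap K (Fn X) c := by
  have : CharZero K := charZero_of_injective_algebraMap (algebraMap k K).injective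
  obtain ⟨g, ξ, hξ⟩ := exists_gframe G
  obtain ⟨U, hU, hg, -⟩ := exists_aff (W := ⊤) (x := gp G) trivial
  have := lft_finiteType hU hg
  obtain ⟨n, ⟨𝒩⟩⟩ := exists_ND (B G U) (aff_frac_field hU hg)
  obtain ⟨K₁, _, _, _, _, ⟨Γ⟩⟩ := exists_GD K n
  obtain ⟨M, _, _, ⟨𝓜⟩⟩ := exists_MI' 𝒩
  obtain ⟨φ, hφ⟩ := exists_phiG 𝓜 hf hU hg
  obtain ⟨N, hq, -⟩ := exists_charts Γ 𝓜 hf hU hg hφ hξ ∅
  have hs' : AlgebraicIndependent K fun i => φ (π (s i)) := hs.map' φ.toRingHom.injective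
  suffices key : ∃ c : K, φ (π h) / φ (π h') = algebraMap K M c by
    obtain ⟨c, hc⟩ := key
    refine ⟨c, φ.toRingHom.injective ?_⟩
    change φ _ = φ _
    rw [map_div₀, map_div₀, hc, φ.commutes]
  by_cases h1 : ∃ κ : Fin p → Fin g,
      (Matrix.of fun i l => 𝓜.hat (ξ (κ l)) (φ (π (s i)))).det ≠ 0
  · obtain ⟨κ, h1⟩ := h1
    obtain ⟨c, hc⟩ := full π hπ hξ hq κ (tv k hh)
    obtain ⟨c', hc'⟩ := full π hπ hξ hq κ (tv k hh')
    exact ⟨c / c', by rw [map_div₀, ← hc, ← hc', mul_div_mul_right _ _ (pow_ne_zero m h1)]⟩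
  push Not at h1
  rcases hp with hp | ⟨rfl, hk⟩
  · interval_cases p
    · simpa using h1 Fin.elim0
    · obtain ⟨C, -, hC⟩ := 𝓜.pd_hat ξ hξ.span'
      obtain ⟨c, hc⟩ := 𝓜.pd_const (x := φ (π (s 0))) fun l => by
        rw [hC]
        refine Finset.sum_eq_zero fun κ _ => ?_
        have h2 := h1 fun _ => κ
        rw [Matrix.det_fin_one, Matrix.of_apply] at h2
        rw [h2, mul_zero]
      exact (hs'.transcendental 0 (hc ▸ isAlgebraic_algebraMap c)).elim
  · refine rank_one π hπ hf hU hg hφ hξ hq hk hs' (fun κ κ' => ?_) (tv k hh) (tv k hh')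
    have h2 := h1 ![κ, κ']
    rw [Matrix.det_fin_two, sub_eq_zero] at h2
    exact h2.trans (mul_comm _ _)

end Pool.Agent.Work.MP_e120ef_ag.H.CS
end

-- merged part: Pool.Agent.Work.MP_e120ef_ag.Br.Fin
section
/-! The final theorems, given the analytic core. -/

open CategoryTheory AlgebraicGeometry

namespace Pool.Agent.Work.MP_e120ef_ag.Br

theorem final_const {k K : Type} [Field k] [CharZero k] [NontriviallyNormedField K]
    [IsUltrametricDist K] [CompleteSpace K] [IsAlgClosed K] [Algebra k K] (hc : HasCore K)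
    {Y : Sch k} {X : Sch K} [IsIntegral Y.left] [IsProper Y.hom] [Smooth Y.hom] [IsIntegral X.left]
    [LocallyOfFiniteType X.hom] (π : Fn Y →+* Fn X)
    (hπ : ∀ c : k, π (algebraMap k (Fn Y) c) = algebraMap K (Fn X) (algebraMap k K c)) {p : ℕ}
    {s : Fin p → Fn Y} (hs : AlgebraicIndependent K fun i => π (s i)) (hp : p ≤ 2)
    (hk : p = 2 → ∀ c : k, ‖algebraMap k K c‖ ≤ 1) {m : ℕ} {h h' : Fn Y}
    (hh : h ∈ Pluri (O Y) s m) (hh' : h' ∈ Pluri (O Y) s m)
    (hne : ∀ c : K, π (h / h') ≠ algebraMap K (Fn X) c) : ¬ Special X := by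
  intro hX
  have : CharZero K := charZero_of_injective_algebraMap (algebraMap k K).injective
  obtain ⟨G, _, _, _, f, hf⟩ := mero_of_special hc hX
  obtain ⟨c, e⟩ := H.CS.final π hπ hs ((Nat.lt_or_eq_of_le hp).elim
    (fun h => Or.inl (Nat.le_of_lt_succ h)) fun h => Or.inr ⟨h, hk h⟩) hh hh' hf
  exact hne c e

theorem final_group {K : Type} [NontriviallyNormedField K] [IsUltrametricDist K] [CompleteSpace K]
    [IsAlgClosed K] [CharZero K] (hc : HasCore K) {X A : Sch K} [IsIntegral X.left]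
    [IsProper X.hom] [Smooth X.hom] [GrpObj A] [IsProper A.hom] [GeometricallyIntegral A.hom]
    [IsIntegral A.left] (α : X ⟶ A) [IsDominant α.left] {g : ℕ} {t : Fin g → Fn A}
    (ht : IsTranscendenceBasis K t) (hg : g ≠ 0) {m : ℕ}
    (hκ : ∀ a : Fn A, AlgQ K (Pluri (O X) (fun i => pull α (t i)) m) (pull α a)) :
    ¬ Special X := by
  intro hX
  obtain ⟨G, _, _, _, f, hf⟩ := mero_of_special hc hX
  exact hg (H.final2 α ht hκ hf)

end Pool.Agent.Work.MP_e120ef_ag.Br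
end

-- merged part: Pool.Agent.Work.MP_e120ef_ag.Br.T8
section
/-!
# Compatible fractions are quotients of entire functions

Plans.  `ent_lim`: by `Gen.coeff_le` each coefficient sequence is Cauchy in `K`, with limit `F I`; for `c`, `ε`, `N₀` as in the hypothesis, `‖F I - coeff I (P M)‖ * ‖c‖ ^ degree I ≤ ε` for all `M ≥ N₀` and all `I`; as `P N₀` has finite support, `F` is restricted for every radius (`H.res_mono`, `NormedField.exists_lt_norm`); `H.norm_ev_le` bounds `evE (c • w) (F - toE (P M))`.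
`Co.ent`: choose polynomials `P M` with `‖g M - aeval ((q ^ M)⁻¹ • w) (P M)‖ ≤ 1 / (M + 1)` (`approx`, rescale the variables); applying `res` (contractive) `M - N` times gives `‖g N - aeval ((q ^ N)⁻¹ • w) (P M)‖ ≤ 1 / (M + 1)` for `M ≥ N`.
For `c` with `‖c‖ ≤ ‖(q ^ N)⁻¹‖`, `‖aeval (c • w) Q‖ ≤ ‖aeval ((q ^ N)⁻¹ • w) Q‖` (`Gen.norm_le` after rescaling), so `ent_lim` applies; uniqueness of limits.
-/

set_option linter.unusedSectionVars false

open Filter Topology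

namespace Pool.Agent.Work.MP_e120ef_ag.Br

variable {K : Type} [NontriviallyNormedField K] [IsUltrametricDist K] [CompleteSpace K] {n : ℕ}
  {L : Type} [NontriviallyNormedField L] [IsUltrametricDist L] [CompleteSpace L] [NormedAlgebra K L]
  {R : Subalgebra K L} {w : Fin n → L} (h : Co R w) {q : K}

theorem T8_prod (hw : Gen K w) (c : K) (I : Fin n →₀ ℕ) :
    I.prod (fun s k => ‖(c • w) s‖ ^ k) = ‖c‖ ^ I.degree := by
  simp only [Pi.smul_apply, norm_smul, hw.norm_eq_one, mul_one]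
  exact Finset.prod_pow_eq_pow_sum _ _ _

theorem T8_mono (hw : Gen K w) {c d : K} (hd : d ≠ 0) (hc : ‖c‖ ≤ ‖d‖) (Q : Pl K n) :
    ‖MvPolynomial.aeval (c • w) Q‖ ≤ ‖MvPolynomial.aeval (d • w) Q‖ := by
  have h1 : c • w = d • ((c / d) • w) := by rw [smul_smul, mul_div_cancel₀ _ hd]
  rw [h1, ← T7_scale d, ← T7_scale d w]
  refine hw.norm_le (fun i => (T7_norm hw.1 _ i).trans ?_) _
  rw [norm_div]
  exact div_le_one_of_le₀ hc (norm_nonneg _)

theorem ent_lim (hw : Gen K w) (P : ℕ → Pl K n)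
    (h : ∀ c : K, ∀ ε > 0, ∃ N₀, ∀ M ≥ N₀, ∀ M' ≥ N₀,
      ‖MvPolynomial.aeval (c • w) (P M) - MvPolynomial.aeval (c • w) (P M')‖ ≤ ε) :
    ∃ F : H.Ent K (Fin n), ∀ c : K,
      Tendsto (fun M => MvPolynomial.aeval (c • w) (P M)) atTop (𝓝 (H.evE (c • w) F)) := by
  have h1 : ∀ c : K, ∀ ε > 0, ∃ N₀, ∀ M ≥ N₀, ∀ M' ≥ N₀, ∀ I,
      ‖(P M).coeff I - (P M').coeff I‖ * ‖c‖ ^ I.degree ≤ ε := fun c ε hε => by
    obtain ⟨N₀, hN⟩ := h c ε hε
    refine ⟨N₀, fun M hM M' hM' I => ?_⟩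
    have := hw.coeff_le c (P M - P M') I
    rw [MvPolynomial.coeff_sub, map_sub] at this
    exact this.trans (hN M hM M' hM')
  have h2 : ∀ I, CauchySeq fun M => (P M).coeff I := fun I => by
    refine Metric.cauchySeq_iff.2 fun ε hε => ?_
    obtain ⟨N₀, hN⟩ := h1 1 (ε / 2) (half_pos hε)
    refine ⟨N₀, fun M hM M' hM' => ?_⟩
    have := hN M hM M' hM' I
    rw [norm_one, one_pow, mul_one] at this
    rw [dist_eq_norm]
    exact this.trans_lt (half_lt_self hε)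
  choose f hf using fun I => cauchySeq_tendsto_of_complete (h2 I)
  have h3 : ∀ c : K, ∀ ε > 0, ∃ N₀, ∀ M ≥ N₀, ∀ I,
      ‖f I - (P M).coeff I‖ * ‖c‖ ^ I.degree ≤ ε := fun c ε hε => by
    obtain ⟨N₀, hN⟩ := h1 c ε hε
    refine ⟨N₀, fun M hM I => le_of_tendsto (((hf I).sub_const _).norm.mul_const _) ?_⟩
    exact eventually_atTop.2 ⟨N₀, fun M' hM' => hN M' hM' M hM I⟩
  obtain ⟨F, hF⟩ : ∃ F : MvPowerSeries (Fin n) K, ∀ I, MvPowerSeries.coeff I F = f I :=
    ⟨f, fun _ => rfl⟩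
  have h4 : ∀ c : K, MvPowerSeries.IsRestricted (fun s => ‖(c • w) s‖) F := fun c => by
    refine NormedAddGroup.tendsto_nhds_zero.2 fun ε hε => ?_
    obtain ⟨N₀, hN⟩ := h3 c (ε / 2) (half_pos hε)
    refine eventually_cofinite.2 ((P N₀).support.finite_toSet.subset fun I hI => ?_)
    by_contra k
    apply hI
    have := hN N₀ le_rfl I
    rw [MvPolynomial.notMem_support_iff.1 k, sub_zero] at this
    rw [hF, T8_prod hw, Real.norm_of_nonneg (by positivity)]
    exact this.trans_lt (half_lt_self hε)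
  have h5 : F ∈ H.Ent K (Fin n) := fun r => by
    obtain ⟨c, hc⟩ := NormedField.exists_lt_norm K ‖r‖
    refine H.res_mono (h4 c) (c' := |r|) (fun s => abs_nonneg _) (fun s => ?_) |>
      (MvPowerSeries.isRestricted_abs_iff r F).1
    rw [Pi.smul_apply, norm_smul, hw.norm_eq_one, mul_one]
    exact (norm_le_pi_norm r s).trans hc.le
  refine ⟨⟨F, h5⟩, fun c => Metric.tendsto_atTop.2 fun ε hε => ?_⟩
  obtain ⟨N₀, hN⟩ := h3 c (ε / 2) (half_pos hε)
  refine ⟨N₀, fun M hM => ?_⟩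
  rw [dist_comm, dist_eq_norm, ← H.evE_toE, ← map_sub, H.evE_apply]
  refine (H.norm_ev_le (half_pos hε).le fun I => ?_).trans_lt (half_lt_self hε)
  have e : MvPowerSeries.coeff I ((⟨F, h5⟩ : H.Ent K (Fin n)) - H.toE (P M)).1 =
      f I - (P M).coeff I := by
    rw [← MvPolynomial.coeff_coe, ← hF, ← map_sub]
    rfl
  rw [T8_prod hw, e]
  exact hN M hM I

theorem Co.ent (h0 : q ≠ 0) (hq : ‖q‖ < 1) (g : ℕ → R)
    (hg : ∀ N, h.res q hq.le (g (N + 1)) = g N) :
    ∃ F : H.Ent K (Fin n), ∀ N, H.evE ((q ^ N)⁻¹ • w) F = g N := by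
  have hp : ∀ M : ℕ, ∃ P : Pl K n,
      ‖(g M : L) - MvPolynomial.aeval ((q ^ M)⁻¹ • w) P‖ ≤ 1 / (M + 1) := fun M => by
    obtain ⟨P, hP⟩ := h.approx (g M) (Nat.one_div_pos_of_nat (n := M))
    refine ⟨MvPolynomial.aeval (fun i => q ^ M • (MvPolynomial.X i : Pl K n)) P, ?_⟩
    rwa [T7_scale, smul_smul, mul_inv_cancel₀ (pow_ne_zero _ h0), one_smul]
  choose P hP using hp
  have h1 : ∀ (Q : Pl K n) N, ‖(g N : L) - MvPolynomial.aeval ((q ^ N)⁻¹ • w) Q‖ ≤
      ‖(g (N + 1) : L) - MvPolynomial.aeval ((q ^ (N + 1))⁻¹ • w) Q‖ := fun Q N => by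
    have := h.ev_sub (h.smul_le hq.le) (g (N + 1))
      (MvPolynomial.aeval (fun i => (q ^ (N + 1))⁻¹ • (MvPolynomial.X i : Pl K n)) Q)
    rwa [T7_scale, T7_scale, smul_smul, ← h.res_val hq.le, hg,
      pow_succ, mul_inv, inv_mul_cancel_right₀ h0, ← mul_inv, ← pow_succ] at this
  have h2 : ∀ M : ℕ, ∀ N ≤ M,
      ‖(g N : L) - MvPolynomial.aeval ((q ^ N)⁻¹ • w) (P M)‖ ≤ 1 / (M + 1) := fun M N hN =>
    (monotone_nat_of_le_succ (h1 (P M)) hN).trans (hP M)
  obtain ⟨F, hF⟩ := ent_lim h.gen P fun c ε hε => by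
    obtain ⟨N, hN⟩ : ∃ N, ‖c‖ ≤ ‖(q ^ N)⁻¹‖ := by
      obtain ⟨N, k⟩ := pow_unbounded_of_one_lt ‖c‖ ((one_lt_inv₀ (norm_pos_iff.2 h0)).2 hq)
      exact ⟨N, by rw [norm_inv, norm_pow, ← inv_pow]; exact k.le⟩
    obtain ⟨N₀, k⟩ := eventually_atTop.1
      (tendsto_one_div_add_atTop_nhds_zero_nat.eventually (ge_mem_nhds hε))
    refine ⟨max N N₀, fun M hM M' hM' => ?_⟩
    rw [← map_sub]
    refine (T8_mono h.gen (inv_ne_zero (pow_ne_zero N h0)) hN _).trans ?_
    rw [map_sub, ← dist_eq_norm]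
    refine (IsUltrametricDist.dist_triangle_max _ (g N : L) _).trans (max_le ?_ ?_)
    · rw [dist_comm, dist_eq_norm]
      exact (h2 M N (le_of_max_le_left hM)).trans (k M (le_of_max_le_right hM))
    · rw [dist_eq_norm]
      exact (h2 M' N (le_of_max_le_left hM')).trans (k M' (le_of_max_le_right hM'))
  refine ⟨F, fun N => tendsto_nhds_unique (hF _) (tendsto_iff_norm_sub_tendsto_zero.2 ?_)⟩
  refine squeeze_zero' (Eventually.of_forall fun _ => norm_nonneg _)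
    (eventually_atTop.2 ⟨N, fun M hM => ?_⟩) tendsto_one_div_add_atTop_nhds_zero_nat
  rw [norm_sub_rev]
  exact h2 M N hM

theorem Co.glue [IsAlgClosed K] (h0 : q ≠ 0) (hq : ‖q‖ < 1) (x : ℕ → L)
    (hx : ∀ N, ∃ a ∈ R, ∃ b ∈ R, b ≠ 0 ∧ b * x N = a)
    (hc : ∀ N (a b : R), b * x (N + 1) = a → h.res q hq.le b * x N = h.res q hq.le a) :
    ∃ a b : H.Ent K (Fin n), b ≠ 0 ∧
      ∀ N, H.evE ((q ^ N)⁻¹ • w) b * x N = H.evE ((q ^ N)⁻¹ • w) a := by
  obtain ⟨a, b, h1, h2, h3⟩ := h.glue0 hq.le h0 hq x (fun N => by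
    obtain ⟨a, ha, b, hb, k, e⟩ := hx N
    exact ⟨⟨a, ha⟩, ⟨b, hb⟩, fun k' => k (congrArg Subtype.val k'), e⟩) hc
  obtain ⟨A, hA⟩ := h.ent h0 hq a h2
  obtain ⟨B, hB⟩ := h.ent h0 hq b h3
  refine ⟨A, B, fun k => (h1 0).1 (Subtype.ext ?_), fun N => ?_⟩
  · rw [← hB 0, k, map_zero]
    rfl
  · rw [hA, hB]
    exact (h1 N).2

end Pool.Agent.Work.MP_e120ef_ag.Br
end

-- merged part: Pool.Agent.Work.MP_e120ef_ag.Br.C5
section
/-! C5: the analytic core. -/

set_option linter.unusedSectionVars false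

open Filter Topology Polynomial

namespace Pool.Agent.Work.MP_e120ef_ag.Br

variable {K : Type} [NontriviallyNormedField K] {n : ℕ} {L : Type} [NontriviallyNormedField L]
  [IsUltrametricDist L] [NormedAlgebra K L] [CompleteSpace L] {w : Fin n → L}

theorem af_zero (c : K) (z : Fin n → L) : af 0 c z = c • z :=
  funext fun i => by rw [af, Pi.zero_apply, map_zero, zero_add, Pi.smul_apply, Algebra.smul_def]

open Classical in
theorem C5_up {R : Subalgebra K L} (h : Co R w) (x : R) : ∃ a : (Fin n → L) → L, UP K a ∧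
    ∀ z hz, a z = h.ev z hz x := by
  refine ⟨fun z => if hz : ∀ i, ‖z i‖ ≤ 1 then h.ev z hz x else 0, fun ε hε => ?_,
    fun z hz => dif_pos hz⟩
  obtain ⟨P, hP⟩ := h.approx x hε
  exact ⟨P, fun z hz => by beta_reduce; rw [dif_pos hz]; exact (h.ev_sub hz x P).trans hP⟩

variable [IsUltrametricDist K] [CompleteSpace K] [IsAlgClosed K] [IsAlgClosed L] [Om L]

theorem C5_ext (hw : Gen K w) (Φ : (Fin n → L) → L) (h : ∀ γ ∈ Fam hw, γ.P Φ) :
    ∃ a b : H.Ent K (Fin n), b ≠ 0 ∧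
      ∀ γ ∈ Fam hw, ∀ᶠ z in γ.F, H.evE z b * Φ z = H.evE z a := by
  obtain ⟨q, q1, hq⟩ := NormedField.exists_norm_lt_one K
  have q0 : q ≠ 0 := norm_pos_iff.1 q1
  have hR : ∀ N : ℕ, (q ^ N)⁻¹ ≠ 0 := fun N => inv_ne_zero (pow_ne_zero N q0)
  obtain ⟨a, b, hb, e⟩ := hw.co.glue q0 hq (fun N => Φ (af 0 (q ^ N)⁻¹ w))
    (fun N => thmA' hw (fam_gen h (hR N)) (fam_vert h (hR N))) fun N a b e => by
      obtain ⟨a', ha, ea⟩ := C5_up hw.co a
      obtain ⟨b', hb, eb⟩ := C5_up hw.co b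
      have := compat h (hR (N + 1)) q0 hq ha hb (by
        rw [ea w hw.1, eb w hw.1, Co.ev_self, Co.ev_self]; exact e)
      rw [af_zero q, ea _ (hw.co.smul_le hq.le), eb _ (hw.co.smul_le hq.le),
        show q * (q ^ (N + 1))⁻¹ = (q ^ N)⁻¹ by field_simp; ring] at this
      exact this
  refine ⟨a, b, hb, fun γ hγ => ?_⟩
  have h1 : ∀ γ ∈ Fam hw, γ.P ((fun z => H.evE z b) * Φ + fun z => H.evE z (-a)) := fun γ hγ =>
    γ.add (γ.mul (γ.oc one_ne_zero (oc_evE 1 _ b)) (h γ hγ)) (γ.oc one_ne_zero (oc_evE 1 _ (-a)))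
  have h2 := e 0
  rw [pow_zero, inv_one, ← af_zero] at h2
  refine ((fam_link h1 hγ).2 ?_).mono fun z hz => ?_
  · simp only [Pi.add_apply, Pi.mul_apply, map_neg, h2, add_neg_cancel]
  · simpa only [Pi.add_apply, Pi.mul_apply, map_neg, Pi.zero_apply, add_neg_eq_zero] using hz

/-- the core attached to a generic point -/
noncomputable def core (hw : Gen K w) : Core K n L where
  Fam := Fam hw
  ext := C5_ext hw
  nz b hb γ hγ := by
    have h1 : ∀ γ ∈ Fam hw, γ.P fun z => H.evE z b := fun γ _ => γ.oc one_ne_zero (oc_evE 1 _ b)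
    refine ((γ.dich (h1 γ hγ)).resolve_left fun e => hb ?_).1
    have h2 := (fam_link h1 hγ).1 e
    rw [af_zero] at h2
    exact evE_inj hw one_ne_zero h2
  near z₀ S hS _ hδ := fam_near z₀ S hS hδ

theorem exists_core (K : Type) [NontriviallyNormedField K] [IsUltrametricDist K] [CompleteSpace K]
    [IsAlgClosed K] [CharZero K] (n : ℕ) : ∃ (L : Type) (_ : NontriviallyNormedField L)
      (_ : IsUltrametricDist L) (_ : CompleteSpace L) (_ : IsAlgClosed L) (_ : NormedAlgebra K L)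
      (_ : Om L), Nonempty (Core K n L) := by
  obtain ⟨L, i1, i2, i3, i4, i5, i6, w, hw⟩ := exists_Om K n
  exact ⟨L, i1, i2, i3, i4, i5, i6, ⟨core hw⟩⟩

end Pool.Agent.Work.MP_e120ef_ag.Br
end

-- merged part: Pool.Agent.Work.MP_e120ef_ag.Br.Fin2
section
namespace Pool.Agent.Work.MP_e120ef_ag.Br

theorem hasCore (K : Type) [NontriviallyNormedField K] [IsUltrametricDist K] [CompleteSpace K]
    [IsAlgClosed K] [CharZero K] : HasCore K := fun n => by
  obtain ⟨L, i1, i2, i3, i4, i5, -, h⟩ := exists_core K n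
  exact ⟨L, i1, i2, i3, i4, i5, h⟩

end Pool.Agent.Work.MP_e120ef_ag.Br
end
end
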