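import Pool.Agent.Work.MP_e120ef_ag.Br.G6

/-! Sanity check of the definitions: a connected algebraic group is special. -/

open CategoryTheory AlgebraicGeometry

namespace Pool.Agent.Work.MP_e120ef_ag.Br

variable {K : Type} [NontriviallyNormedField K]

/-- the identity map -/
noncomputable def Mor.id (G : Sch K) : Mor (Set.univ : Set (An G)) G where
  f := Subtype.val
  cont := continuous_subtype_val
  e ζ := ⟨AlgHom.id K ζ.1.H, fun _ => rfl⟩
  an W u _ hu ζ hζ := by
    obtain ⟨W', hW, U, hU, h⟩ := hu ζ hζ.snd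
    exact ⟨W', fun ξ hξ => ⟨trivial, hW hξ⟩, U, hU, h⟩

theorem special_self [IsUltrametricDist K] [IsAlgClosed K] [CharZero K] (G : Sch K) [GrpObj G]
    [LocallyOfFiniteType G.hom] [QuasiCompact G.hom] [ConnectedSpace G.left] [IsReduced G.left] :
    Special G := by
  have := grp_integral G
  refine ⟨G, ‹_›, ‹_›, ‹_›, ‹_›, ‹_›, Set.univ, isOpen_univ, dense_univ,
    fun _ h => (h trivial).elim, Mor.id G, dense_iff_inter_open.2 fun U hU ⟨x, hx⟩ => ?_⟩
  obtain ⟨p, hp, -, hc⟩ := H.GG_closed_spec (U := ⟨U, hU⟩) hx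
  obtain ⟨W, hW, hpW, -⟩ := exists_aff (W := ⊤) (x := p) trivial
  obtain ⟨e, he⟩ := H.lft_hom hpW hc
  exact ⟨p, hp, ⟨io hW (gp_mem hpW) (Sn.of e), trivial⟩, io_pt hW (gp_mem hpW) hpW he⟩

end Pool.Agent.Work.MP_e120ef_ag.Br
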